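import Mathlib

/-! Transverse veering triangulations given by face pairings, and their Dehn fillings.

`T` is the set of tetrahedra. Seen from above, the vertices `0, 1, 2, 3` of a tetrahedron are in
anticlockwise order, `02` is its bottom edge, `13` its top edge and `01, 12, 23, 30` its equator.
The faces opposite to `0` and `2` are the top faces, those opposite to `1` and `3` the bottom
faces. `Space G` is the underlying cusped manifold; in the theorem it is the universal cover and
`Γ` is the deck group. -/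

namespace Pool.Agent.Work.MP_3d425c_gt.VR

/-- The ideal tetrahedron: a simplex without its vertices, in barycentric coordinates. -/
abbrev Ideal : Type := {x : Fin 4 → ℝ // (∀ i, 0 ≤ x i ∧ x i < 1) ∧ ∑ i, x i = 1}

/-- The face of `t` opposite to the vertex `k` is glued to `nbr t k` by the vertex map
`perm t k`. -/
structure Gluing (T : Type) where
  nbr : T → Fin 4 → T
  perm : T → Fin 4 → Equiv.Perm (Fin 4)

variable {T Γ Y M ι : Type} (G : Gluing T)

/-- Points of two tetrahedra that are identified by a face pairing. -/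
def Glued (a b : Σ _ : T, Ideal) : Prop :=
  ∃ k, a.2.1 k = 0 ∧ b.1 = G.nbr a.1 k ∧ ∀ i, b.2.1 (G.perm a.1 k i) = a.2.1 i

/-- The space obtained by gluing the ideal tetrahedra. -/
abbrev Space : Type := Quot (Glued G)

/-- Oriented edges `(t, i, j)` of two tetrahedra that are identified by a face pairing. -/
def Turn (d d' : T × Fin 4 × Fin 4) : Prop :=
  ∃ k, d.2.1 ≠ d.2.2 ∧ k ≠ d.2.1 ∧ k ≠ d.2.2 ∧
    d' = (G.nbr d.1 k, G.perm d.1 k d.2.1, G.perm d.1 k d.2.2)

/-- An oriented transverse taut ideal triangulation with a veering colouring of its edges. -/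
structure Veering (red : T × Fin 4 × Fin 4 → Prop) : Prop where
  back : ∀ t k, G.nbr (G.nbr t k) (G.perm t k k) = t ∧
    G.perm (G.nbr t k) (G.perm t k k) = (G.perm t k)⁻¹
  orient : ∀ t k, Equiv.Perm.sign (G.perm t k) = -1
  transverse : ∀ (t : T) (k : Fin 4), Even k.val ↔ Odd (G.perm t k k).val
  finite : ∀ d, {d' | Relation.EqvGen (Turn G) d d'}.Finite
  bottom : ∀ d : T × Fin 4 × Fin 4, d.2.1 ≠ d.2.2 →
    ∃! d', Relation.EqvGen (Turn G) d d' ∧ (d'.2 = (0, 2) ∨ d'.2 = (2, 0))
  top : ∀ d : T × Fin 4 × Fin 4, d.2.1 ≠ d.2.2 →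
    ∃! d', Relation.EqvGen (Turn G) d d' ∧ (d'.2 = (1, 3) ∨ d'.2 = (3, 1))
  red_symm : ∀ t i j, red (t, i, j) → red (t, j, i)
  red_turn : ∀ d d', Turn G d d' → (red d ↔ red d')
  veer : ∀ t, red (t, 0, 1) ∧ ¬ red (t, 1, 2) ∧ red (t, 2, 3) ∧ ¬ red (t, 3, 0)

/-- One step `(t, i, n) → (t', i', n')` between adjacent corners of tetrahedra around a cusp;
`n` changes by one when the face that is crossed has two red edges at the cusp (a red
ladderpole), up through a top face and down through a bottom face. -/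
def Cross (red : T × Fin 4 × Fin 4 → Prop) (c c' : T × Fin 4 × ℤ) : Prop :=
  ∃ k, k ≠ c.2.1 ∧ c'.1 = G.nbr c.1 k ∧ c'.2.1 = G.perm c.1 k c.2.1 ∧
    (((∀ j, j ≠ c.2.1 → j ≠ k → red (c.1, c.2.1, j)) ∧ c'.2.2 = c.2.2 + (-1) ^ k.val) ∨
      (¬ (∀ j, j ≠ c.2.1 → j ≠ k → red (c.1, c.2.1, j)) ∧ c'.2.2 = c.2.2))

/-- A path in the link of a cusp from the corner `i` of `t` to the corner `i'` of `t'` has
intersection number `n` with the red ladderpoles (the degeneracy curves). -/
def Wind (red : T × Fin 4 × Fin 4 → Prop) (t : T) (i : Fin 4) (t' : T) (i' : Fin 4) (n : ℤ) :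
    Prop :=
  Relation.ReflTransGen (Cross G red) (t, i, 0) (t', i', n)

variable [Group Γ] [MulAction Γ T]

/-- `Γ` acts freely and cocompactly by automorphisms, `up` is an edge orientation (in each bottom
face the bottom edge is parallel to the two other edges), and `e` is an integral lift of the
edge-orientation character. -/
structure Deck (red up : T × Fin 4 × Fin 4 → Prop) (e : Γ → ℤ) : Prop where
  nbr_smul : ∀ (g : Γ) t k, G.nbr (g • t) k = g • G.nbr t k
  perm_smul : ∀ (g : Γ) t k, G.perm (g • t) k = G.perm t k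
  red_smul : ∀ (g : Γ) t i j, red (g • t, i, j) ↔ red (t, i, j)
  free : ∀ (g : Γ) (t : T), g • t = t → g = 1
  cocompact : ∃ F : Set T, F.Finite ∧ ∀ t : T, ∃ g : Γ, g • t ∈ F
  up_rev : ∀ t i j, i ≠ j → (up (t, j, i) ↔ ¬ up (t, i, j))
  up_turn : ∀ d d', Turn G d d' → (up d ↔ up d')
  up_face : ∀ t, (up (t, 0, 1) ↔ up (t, 0, 2)) ∧ (up (t, 1, 2) ↔ up (t, 0, 2)) ∧
    (up (t, 0, 3) ↔ up (t, 0, 2)) ∧ (up (t, 3, 2) ↔ up (t, 0, 2))
  up_smul : ∀ (g : Γ) t i j, i ≠ j → (up (g • t, i, j) ↔ (up (t, i, j) ↔ Even (e g)))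
  e_mul : ∀ g h, e (g * h) = e g + e h

/-- `γ` is an equivariant choice of primitive peripheral elements (filling slopes), one for each
cusp. -/
structure Slopes (red : T × Fin 4 × Fin 4 → Prop) (γ : T → Fin 4 → Γ) : Prop where
  cusp : ∀ t k i, i ≠ k → γ (G.nbr t k) (G.perm t k i) = γ t i
  conj : ∀ (g : Γ) t i, γ (g • t) i = g * γ t i * g⁻¹
  prim : ∀ t i (s : Γ) (n k l : ℤ), Wind G red t i (s • t) i n → s ^ k = γ t i ^ l → k ∣ l

variable [MulAction Γ Y] [TopologicalSpace Y] [TopologicalSpace M]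

/-- `M` is the union of `Y / Γ` and of open solid tori `N i` glued along the complements of their
cores, whose meridians are the slopes. -/
structure Filling (γ : T → Fin 4 → Γ) (p : Y → M) (N : ι → ℂ × Circle → M) : Prop where
  loc : IsLocalHomeomorph p
  fibre : ∀ a b, p a = p b ↔ ∃ g : Γ, b = g • a
  free : ∀ (g : Γ) (a : Y), g • a = a → g = 1
  emb : ∀ i, Topology.IsOpenEmbedding (N i)
  disj : ∀ i j a b, N i a = N j b → i = j
  core : ∀ i z s, N i (z, s) ∈ Set.range p ↔ z ≠ 0
  cover : ∀ m, m ∈ Set.range p ∨ ∃ i, m ∈ Set.range (N i)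
  meridian : ∀ g : Γ, (∃ t i, γ t i = g) ↔ ∃ (i : ι) (l : C(ℝ, Y)),
    (∀ t, p (l t) = N i (Circle.exp (2 * Real.pi * t), 1)) ∧ l 1 = g • l 0

end Pool.Agent.Work.MP_3d425c_gt.VR
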