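import Pool.Agent.Work.MP_3d425c_gt.W.SC1

/-! From face pairings to abstract veering data.

PLAN (definitions in W/Defs.lean, W/St.lean, W/Mod.lean; `cyc` on `Fin 4` is decidable).
`C := T × {p : Fin 4 × Fin 4 × Fin 4 // bot p}`, `bot (i,j,l)`: `cyc i j l` and the missing index is
odd (the six rotations of `(0,1,2)` and `(2,3,0)`); `ρ (t,(i,j,l)) = (t,(j,l,i))`.
`D := Quot (Turn G)`, `dart := Quot.mk _`, `E (t,(i,j,l)) = dart (t,j,l)`, `rv` induced by the swap,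
`red` by `Quot.lift` (`red_turn`). `cor t i j l := (t,(i,j,l))` if `bot`, else, with `k` the missing
index (`k = 6 - i - j - l` in `Fin 4` is `2 - i - j - l`) and `g = perm t k`,
`(nbr t k, (g i, g j, g l))` if that is `bot` (else anything). Finite fact (by `decide` over
`g : Equiv.Perm (Fin 4)`, or `fin_cases g`): if `sign g = -1` and `Even k ↔ Odd (g k)`, then
`cyc i j l` with `k` missing gives `cyc (g i) (g j) (g l)` with `g k` missing. `β`, `τ`, `rot` as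
in `Dict`. All `E` identities are identities of `dart` after `Dict.ρ`, `Dict.E`; `E (cor t i j l)
= dart (t,j,l)` is one `Turn`. `τs`: the face of `c = (t,(i,j,l))` opposite to `k` is the top face
of `nbr t k` (`back`). `βi`, `τi`: uniqueness in `bottom`, `top`.
Well-foundedness: (a) `Up` is functional and injective and a corner with a successor is no `β f`,
a corner with a predecessor is no `τ f` (abstract: `ρ_inj`, `βi`, `τi`, colours `r1 r2 t1 t2`).
(b) No cycle: if `TransGen Up c c`, let `A = {x | TransGen Up c x ∧ TransGen Up x c}`; every member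
of `A` has a successor and a predecessor in `A`. Let
`B = {(t,j,l) | l = j + 1 ∧ ∃ i, cyc i j l ∧ cor t i j l ∈ A}`. For `l = j + 1` the two corners
`cor t i j l` (`i = j + 2, j + 3`) are related by `Up`, so both are in `A` or none. `B` is closed
under `Turn` (the corner of the crossed face is the same element of `C`; in the new tetrahedron
the edge is not diagonal, since the corner is no `β f` and no `τ f`; `Turn` is symmetric by
`back`), nonempty, and contains no bottom edge, against `bottom`.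
(c) `{c' | E c' = E c}` is finite (`finite`, a `bot` triple is determined by its last two
entries) and `Up` preserves `E` (`VD.Up.E`), so `TransGen Up` is a strict order on a finite set
(`Set.Finite.wellFoundedOn`), both ways. -/

namespace Pool.Agent.Work.MP_3d425c_gt.Bor
open PA

theorem WDict_f1 : ∀ i j l : Fin 4, cyc i j l → (2 - i - j - l ≠ j ∧ 2 - i - j - l ≠ l) ∧ j ≠ l ∧
    cyc j l i ∧ 2 - j - l - i = 2 - i - j - l ∧
    ∀ k, k ≠ i → k ≠ j → k ≠ l → k = 2 - i - j - l := by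
  decide

theorem WDict_f2 : ∀ g : Equiv.Perm (Fin 4), Equiv.Perm.sign g = -1 → ∀ i j l : Fin 4, cyc i j l →
    (Even (2 - i - j - l).val ↔ Odd (g (2 - i - j - l)).val) →
    cyc (g i) (g j) (g l) ∧ 2 - g i - g j - g l = g (2 - i - j - l) := by
  decide +kernel

theorem WDict_f3 : ∀ i j l : Fin 4, cyc i j l → Odd (2 - i - j - l).val →
    (i = 1 ∧ j = 2 ∧ l = 0) ∨ (i = 2 ∧ j = 0 ∧ l = 1) ∨ (i = 0 ∧ j = 1 ∧ l = 2) ∨
    (i = 3 ∧ j = 0 ∧ l = 2) ∨ (i = 0 ∧ j = 2 ∧ l = 3) ∨ (i = 2 ∧ j = 3 ∧ l = 0) := by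
  decide

theorem WDict_f4 : ∀ i j l : Fin 4, cyc i j l → Even (2 - i - j - l).val →
    (i = 0 ∧ j = 1 ∧ l = 3) ∨ (i = 1 ∧ j = 3 ∧ l = 0) ∨ (i = 3 ∧ j = 0 ∧ l = 1) ∨
    (i = 2 ∧ j = 3 ∧ l = 1) ∨ (i = 3 ∧ j = 1 ∧ l = 2) ∨ (i = 1 ∧ j = 2 ∧ l = 3) := by
  decide

theorem WDict_f5 : ∀ j k : Fin 4, k ≠ j → k ≠ j + 1 → ∃ i, cyc i j (j + 1) ∧ k ≠ i := by
  decide

theorem WDict_cor {T : Type} {G : VR.Gluing T} {red : T × Fin 4 × Fin 4 → Prop}
    (hV : VR.Veering G red) : ∃ (C : Type) (cor : T → Fin 4 → Fin 4 → Fin 4 → C) (ρ : C → C)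
      (E : C → Quot (VR.Turn G)), (∀ t i j l, cyc i j l → ρ (cor t i j l) = cor t j l i) ∧
      (∀ t i j l, cyc i j l → E (cor t i j l) = Quot.mk _ (t, j, l)) ∧
      (∀ t i j l k t' i' j' l', cyc i j l → cyc i' j' l' → k ≠ i → k ≠ j → k ≠ l →
        cor t i j l = cor t' i' j' l' → (t' = t ∧ i' = i ∧ j' = j ∧ l' = l) ∨
          (t' = G.nbr t k ∧ i' = G.perm t k i ∧ j' = G.perm t k j ∧ l' = G.perm t k l)) ∧
      (∀ c, ∃ t i j l, cyc i j l ∧ Odd (2 - i - j - l).val ∧ c = cor t i j l) ∧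
      ∀ c, ∃ t i j l, cyc i j l ∧ Even (2 - i - j - l).val ∧ c = cor t i j l := by
  have f2 := fun t i j l (h : cyc i j l) =>
    WDict_f2 _ (hV.orient t (2 - i - j - l)) i j l h (hV.transverse t _)
  obtain ⟨σ, hσ⟩ : ∃ σ : T × {p : Fin 4 × Fin 4 × Fin 4 // cyc p.1 p.2.1 p.2.2} →
      T × {p : Fin 4 × Fin 4 × Fin 4 // cyc p.1 p.2.1 p.2.2}, ∀ t i j l h,
      σ (t, ⟨(i, j, l), h⟩) = (G.nbr t (2 - i - j - l), ⟨(G.perm t (2 - i - j - l) i,
        G.perm t (2 - i - j - l) j, G.perm t (2 - i - j - l) l), (f2 t i j l h).1⟩) :=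
    ⟨fun x => (G.nbr x.1 (2 - x.2.1.1 - x.2.1.2.1 - x.2.1.2.2),
      ⟨(_, _, _), (f2 x.1 _ _ _ x.2.2).1⟩), fun _ _ _ _ _ => rfl⟩
  have σ2 : ∀ x, σ (σ x) = x := by
    rintro ⟨t, ⟨i, j, l⟩, h⟩
    rw [hσ, hσ]
    simp only [(f2 t i j l h).2, (hV.back t _).1, (hV.back t _).2, Equiv.Perm.inv_def,
      Equiv.symm_apply_apply]
  let s : Setoid (T × {p : Fin 4 × Fin 4 × Fin 4 // cyc p.1 p.2.1 p.2.2}) :=
    ⟨fun x y => y = x ∨ y = σ x, fun _ => Or.inl rfl, by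
      rintro x y (rfl | rfl)
      exacts [Or.inl rfl, Or.inr (σ2 x).symm], by
      rintro x y z (rfl | rfl) (rfl | rfl)
      exacts [Or.inl rfl, Or.inr rfl, Or.inr rfl, Or.inl (σ2 x)]⟩
  obtain ⟨cor, hc⟩ : ∃ cor : T → Fin 4 → Fin 4 → Fin 4 → Quotient s,
      ∀ t i j l (h : cyc i j l), cor t i j l = Quotient.mk s (t, ⟨(i, j, l), h⟩) :=
    ⟨fun t i j l => if h : cyc i j l then Quotient.mk s (t, ⟨(i, j, l), h⟩)
      else Quotient.mk s (t, ⟨(0, 1, 2), by decide⟩), fun t i j l h => dif_pos h⟩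
  have key : ∀ (c : Quotient s) (P : Fin 4 → Prop),
      (∀ t k, P k ∨ P (G.perm t k k)) → ∃ t i j l, cyc i j l ∧ P (2 - i - j - l) ∧
        c = cor t i j l := by
    rintro ⟨t, ⟨i, j, l⟩, h⟩ P hP
    rcases hP t (2 - i - j - l) with k | k
    · exact ⟨t, i, j, l, h, k, (hc t i j l h).symm⟩
    · refine ⟨G.nbr t (2 - i - j - l), _, _, _, (f2 t i j l h).1, (f2 t i j l h).2 ▸ k, ?_⟩
      rw [hc _ _ _ _ (f2 t i j l h).1]
      exact Quotient.sound (Or.inr (hσ t i j l h).symm)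
  refine ⟨Quotient s, cor, Quotient.map' (s₁ := s) (s₂ := s)
    (fun x => (x.1, ⟨(x.2.1.2.1, x.2.1.2.2, x.2.1.1), (WDict_f1 _ _ _ x.2.2).2.2.1⟩)) ?_,
    Quotient.lift (fun x => Quot.mk _ (x.1, x.2.1.2.1, x.2.1.2.2)) ?_, fun t i j l h => ?_,
    fun t i j l h => ?_, fun t i j l k t' i' j' l' h h' k1 k2 k3 e => ?_,
    fun c => key c (fun k => Odd k.val) fun t k => ?_,
    fun c => key c (fun k => Even k.val) fun t k => ?_⟩
  · rintro ⟨t, ⟨i, j, l⟩, h⟩ y (rfl | rfl)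
    · exact Or.inl rfl
    · refine Or.inr ?_
      rw [hσ, hσ]
      simp only [(WDict_f1 i j l h).2.2.2.1]
  · rintro ⟨t, ⟨i, j, l⟩, h⟩ y (rfl | rfl)
    · rfl
    · rw [hσ]
      obtain ⟨⟨a1, a2⟩, a3, -⟩ := WDict_f1 i j l h
      exact Quot.sound ⟨_, a3, a1, a2, rfl⟩
  · rw [hc t i j l h, hc t j l i (WDict_f1 i j l h).2.2.1]
    rfl
  · rw [hc t i j l h]
    rfl
  · rw [hc t i j l h, hc t' i' j' l' h'] at e
    obtain rfl := (WDict_f1 i j l h).2.2.2.2 k k1 k2 k3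
    have e' : (t', (⟨(i', j', l'), h'⟩ : {p : Fin 4 × Fin 4 × Fin 4 // cyc p.1 p.2.1 p.2.2})) =
        (t, ⟨(i, j, l), h⟩) ∨ (t', ⟨(i', j', l'), h'⟩) = σ (t, ⟨(i, j, l), h⟩) := Quotient.exact e
    rw [hσ] at e'
    simpa only [Prod.mk.injEq, Subtype.mk.injEq] using e'
  · exact (Nat.even_or_odd k.val).symm.imp_right (hV.transverse t k).1
  · refine (Nat.even_or_odd k.val).imp_right fun h => Nat.not_odd_iff_even.1 fun h' => ?_
    exact Nat.not_odd_iff_even.2 ((hV.transverse t k).2 h') h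

theorem WDict_wf {C D : Type} {r : C → C → Prop} (E : C → D) (hE : ∀ a b, r a b → E a = E b)
    (hf : ∀ c, {c' | E c' = E c}.Finite)
    (hn : ∀ A : Set C, A.Nonempty → (∀ c ∈ A, ∃ c' ∈ A, r c c') → (∀ c ∈ A, ∃ c' ∈ A, r c' c) →
      False) : WellFounded r := by
  have hi : ∀ c, ¬ Relation.TransGen r c c := fun c h => by
    refine hn {x | Relation.TransGen r c x ∧ Relation.TransGen r x c} ⟨c, h, h⟩ ?_ ?_
    · rintro x ⟨h1, h2⟩
      obtain ⟨y, h3, h4⟩ := Relation.TransGen.head'_iff.1 h2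
      exact ⟨y, ⟨h1.tail h3, Relation.TransGen.trans_right h4 h⟩, h3⟩
    · rintro x ⟨h1, h2⟩
      obtain ⟨y, h3, h4⟩ := Relation.TransGen.tail'_iff.1 h1
      exact ⟨y, ⟨h.trans_left h3, h2.head h4⟩, h4⟩
  have : IsStrictOrder C (Relation.TransGen r) :=
    { irrefl := hi
      trans := fun _ _ _ => Relation.TransGen.trans }
  refine ⟨fun c => ?_⟩
  have h1 := Set.wellFoundedOn_iff.1 ((hf c).wellFoundedOn (r := Relation.TransGen r))
  have h2 : ∀ x, E x = E c → Acc r x := fun x => by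
    induction x using h1.induction with
    | _ x ih =>
      intro hx
      exact ⟨x, fun y hy => ih y ⟨Relation.TransGen.single hy, (hE y x hy).trans hx, hx⟩
        ((hE y x hy).trans hx)⟩
  exact h2 c rfl

theorem WDict_symm {T : Type} {G : VR.Gluing T} {red : T × Fin 4 × Fin 4 → Prop}
    (hV : VR.Veering G red) {d d' : T × Fin 4 × Fin 4} (h : VR.Turn G d d') : VR.Turn G d' d := by
  obtain ⟨t, j, l⟩ := d
  obtain ⟨k, h1, h2, h3, rfl⟩ := h
  refine ⟨G.perm t k k, (G.perm t k).injective.ne h1, (G.perm t k).injective.ne h2,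
    (G.perm t k).injective.ne h3, ?_⟩
  simp only [(hV.back t k).1, (hV.back t k).2, Equiv.Perm.inv_def, Equiv.symm_apply_apply]

section
variable {T C D : Type} {G : VR.Gluing T} {red : T × Fin 4 × Fin 4 → Prop}
  {X : VD C D (T × Bool)} {cor : T → Fin 4 → Fin 4 → Fin 4 → C} {dart : T × Fin 4 × Fin 4 → D}

theorem WDict_up (h : Dict G red X cor dart) {c c' : C} (hu : X.Up c c') :
    ∃ s a i i', cyc i a (a + 1) ∧ cyc i' a (a + 1) ∧ Odd (2 - i - a - (a + 1)).val ∧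
      Even (2 - i' - a - (a + 1)).val ∧ (∀ x, cyc x a (a + 1) → x = i ∨ x = i') ∧
      c = cor s i a (a + 1) ∧ c' = cor s i' a (a + 1) := by
  obtain ⟨⟨s, _ | _⟩, ⟨rfl, rfl⟩ | ⟨rfl, rfl⟩⟩ := hu
  · refine ⟨s, 0, 2, 3, by decide, by decide, by decide, by decide, by decide, ?_, ?_⟩
    · rw [h.β0, h.ρ _ _ _ _ (by decide)]
      rfl
    · rw [h.τ0, h.ρ _ _ _ _ (by decide), h.ρ _ _ _ _ (by decide)]
      rfl
  · refine ⟨s, 1, 0, 3, by decide, by decide, by decide, by decide, by decide, ?_, ?_⟩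
    · rw [h.β0, h.ρ _ _ _ _ (by decide), h.ρ _ _ _ _ (by decide)]
      rfl
    · rw [h.rot, Bool.not_false, h.τ1, h.ρ _ _ _ _ (by decide)]
      rfl
  · refine ⟨s, 2, 0, 1, by decide, by decide, by decide, by decide, by decide, ?_, ?_⟩
    · rw [h.β1, h.ρ _ _ _ _ (by decide)]
      rfl
    · rw [h.τ1, h.ρ _ _ _ _ (by decide), h.ρ _ _ _ _ (by decide)]
      rfl
  · refine ⟨s, 3, 2, 1, by decide, by decide, by decide, by decide, by decide, ?_, ?_⟩
    · rw [h.β1, h.ρ _ _ _ _ (by decide), h.ρ _ _ _ _ (by decide)]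
      rfl
    · rw [h.rot, Bool.not_true, h.τ0, h.ρ _ _ _ _ (by decide)]
      rfl

theorem WDict_nocyc (hV : VR.Veering G red) (h : Dict G red X cor dart) (A : Set C)
    (h0 : A.Nonempty) (h1 : ∀ c ∈ A, ∃ c' ∈ A, X.Up c c') (h2 : ∀ c ∈ A, ∃ c' ∈ A, X.Up c' c) :
    False := by
  let B : Set (T × Fin 4 × Fin 4) :=
    {d | d.2.2 = d.2.1 + 1 ∧ ∀ i, cyc i d.2.1 d.2.2 → cor d.1 i d.2.1 d.2.2 ∈ A}
  have key : ∀ c ∈ A, ∀ k : Fin 4, ∃ s i a, cyc i a (a + 1) ∧ c = cor s i a (a + 1) ∧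
      (s, a, a + 1) ∈ B ∧ k ≠ 2 - i - a - (a + 1) := by
    intro c hc k
    rcases Nat.even_or_odd k.val with hk | hk
    · obtain ⟨c', hc', hu⟩ := h1 c hc
      obtain ⟨s, a, i, i', a1, -, a3, -, a5, rfl, rfl⟩ := WDict_up h hu
      refine ⟨s, i, a, a1, rfl, ⟨rfl, fun x hx => ?_⟩,
        fun e => Nat.not_odd_iff_even.2 hk (e ▸ a3)⟩
      rcases a5 x hx with rfl | rfl
      exacts [hc, hc']
    · obtain ⟨c', hc', hu⟩ := h2 c hc
      obtain ⟨s, a, i, i', -, a2, -, a4, a5, rfl, rfl⟩ := WDict_up h hu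
      refine ⟨s, i', a, a2, rfl, ⟨rfl, fun x hx => ?_⟩,
        fun e => Nat.not_odd_iff_even.2 a4 (e ▸ hk)⟩
      rcases a5 x hx with rfl | rfl
      exacts [hc', hc]
  have cl : ∀ d d', VR.Turn G d d' → d ∈ B → d' ∈ B := by
    rintro ⟨t, j, l⟩ d' ⟨k, -, k2, k3, rfl⟩ ⟨e, hA⟩
    obtain rfl : l = j + 1 := e
    obtain ⟨i, i1, i2⟩ := WDict_f5 j k k2 k3
    obtain ⟨s, i', a, a1, a2, a3, a4⟩ := key _ (hA i i1) k
    rcases h.inj t i j (j + 1) k s i' a (a + 1) i1 a1 i2 k2 k3 a2 with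
      ⟨-, rfl, rfl, -⟩ | ⟨e1, -, e2, e3⟩
    · exact (a4 ((WDict_f1 _ _ _ i1).2.2.2.2 k i2 k2 k3)).elim
    · rw [e3, e1, e2] at a3
      exact a3
  have cl' : ∀ d d', Relation.EqvGen (VR.Turn G) d d' → (d ∈ B ↔ d' ∈ B) := by
    intro d d' e
    induction e with
    | rel a b e => exact ⟨cl a b e, cl b a (WDict_symm hV e)⟩
    | refl => rfl
    | symm a b _ ih => exact ih.symm
    | trans a b c _ _ ih ih' => exact ih.trans ih'
  obtain ⟨c, hc⟩ := h0
  obtain ⟨s, i, a, a1, -, a3, -⟩ := key c hc 0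
  obtain ⟨⟨t, j, l⟩, ⟨e1, e2⟩, -⟩ := hV.bottom (s, a, a + 1) (WDict_f1 _ _ _ a1).2.1
  have e3 : l = j + 1 := ((cl' _ _ e1).1 a3).1
  rcases e2 with e2 | e2 <;> obtain ⟨rfl, rfl⟩ := Prod.mk.inj e2 <;> exact absurd e3 (by decide)

end

theorem exists_dict {T : Type} {G : VR.Gluing T} {red : T × Fin 4 × Fin 4 → Prop}
    (hV : VR.Veering G red) : ∃ (C D : Type) (X : VD C D (T × Bool))
      (cor : T → Fin 4 → Fin 4 → Fin 4 → C) (dart : T × Fin 4 × Fin 4 → D),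
      Dict G red X cor dart ∧ (WellFounded fun c' c => X.Up c c') ∧ WellFounded X.Up := by
  obtain ⟨C, cor, ρ, E, hρ, hE, hinj, sb, st⟩ := WDict_cor hV
  have uq : ∀ {P : Fin 4 × Fin 4 → Prop}, (∀ d : T × Fin 4 × Fin 4, d.2.1 ≠ d.2.2 →
      ∃! d', Relation.EqvGen (VR.Turn G) d d' ∧ P d'.2) → ∀ d d' : T × Fin 4 × Fin 4,
      d.2.1 ≠ d.2.2 → P d.2 → P d'.2 → Quot.mk (VR.Turn G) d = Quot.mk _ d' → d = d' :=
    fun h d d' a1 a2 a3 e =>
      (h d a1).unique ⟨Relation.EqvGen.refl d, a2⟩ ⟨Quot.eq.1 e, a3⟩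
  have c120 : cyc (1 : Fin 4) 2 0 := by decide
  have c201 : cyc (2 : Fin 4) 0 1 := by decide
  have c012 : cyc (0 : Fin 4) 1 2 := by decide
  have c302 : cyc (3 : Fin 4) 0 2 := by decide
  have c023 : cyc (0 : Fin 4) 2 3 := by decide
  have c230 : cyc (2 : Fin 4) 3 0 := by decide
  have c013 : cyc (0 : Fin 4) 1 3 := by decide
  have c130 : cyc (1 : Fin 4) 3 0 := by decide
  have c301 : cyc (3 : Fin 4) 0 1 := by decide
  have c231 : cyc (2 : Fin 4) 3 1 := by decide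
  have c312 : cyc (3 : Fin 4) 1 2 := by decide
  have c123 : cyc (1 : Fin 4) 2 3 := by decide
  let X : VD C (Quot (VR.Turn G)) (T × Bool) :=
    { ρ := ρ
      E := E
      rv := Quot.map (fun d => (d.1, d.2.2, d.2.1)) (by
        rintro ⟨t, j, l⟩ _ ⟨k, k1, k2, k3, rfl⟩
        exact ⟨k, k1.symm, k3, k2, rfl⟩)
      red := Quot.lift red fun a b h => propext (hV.red_turn a b h)
      rot := fun f => (f.1, !f.2)
      β := fun f => cond f.2 (cor f.1 3 0 2) (cor f.1 1 2 0)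
      τ := fun f => cond f.2 (cor f.1 2 3 1) (cor f.1 0 1 3)
      ρ3 := fun c => by
        obtain ⟨t, i, j, l, h, -, rfl⟩ := sb c
        have h1 := (WDict_f1 _ _ _ h).2.2.1
        rw [hρ _ _ _ _ h, hρ _ _ _ _ h1, hρ _ _ _ _ (WDict_f1 _ _ _ h1).2.2.1]
      rv2 := by
        rintro ⟨t, j, l⟩
        rfl
      red_rv := by
        rintro ⟨t, j, l⟩
        exact ⟨hV.red_symm t l j, hV.red_symm t j l⟩
      rot2 := by
        rintro ⟨t, _ | _⟩ <;> rfl
      rot_ne := by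
        rintro ⟨t, _ | _⟩ <;> simp
      Eβ := by
        rintro ⟨t, _ | _⟩ <;>
          simp only [Bool.not_false, Bool.not_true, cond_true, cond_false, hE _ _ _ _ c302,
            hE _ _ _ _ c120] <;> rfl
      Eτ := by
        rintro ⟨t, _ | _⟩ <;>
          simp only [Bool.not_false, Bool.not_true, cond_true, cond_false, hE _ _ _ _ c231,
            hE _ _ _ _ c013] <;> rfl
      E1 := by
        rintro ⟨t, _ | _⟩
        · simp only [cond_false, hρ _ _ _ _ c120, hρ _ _ _ _ c013, hρ _ _ _ _ c130,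
            hE _ _ _ _ c201, hE _ _ _ _ c301]
        · simp only [cond_true, hρ _ _ _ _ c302, hρ _ _ _ _ c231, hρ _ _ _ _ c312,
            hE _ _ _ _ c023, hE _ _ _ _ c123]
      E2 := by
        rintro ⟨t, _ | _⟩
        · simp only [Bool.not_false, cond_true, cond_false, hρ _ _ _ _ c120, hρ _ _ _ _ c201,
            hρ _ _ _ _ c231, hE _ _ _ _ c012, hE _ _ _ _ c312]
        · simp only [Bool.not_true, cond_true, cond_false, hρ _ _ _ _ c302, hρ _ _ _ _ c023,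
            hρ _ _ _ _ c013, hE _ _ _ _ c230, hE _ _ _ _ c130]
      r1 := by
        rintro ⟨t, _ | _⟩
        · simp only [cond_false, hρ _ _ _ _ c120, hE _ _ _ _ c201]
          exact (hV.veer t).1
        · simp only [cond_true, hρ _ _ _ _ c302, hE _ _ _ _ c023]
          exact (hV.veer t).2.2.1
      r2 := by
        rintro ⟨t, _ | _⟩
        · simp only [cond_false, hρ _ _ _ _ c120, hρ _ _ _ _ c201, hE _ _ _ _ c012]
          exact (hV.veer t).2.1
        · simp only [cond_true, hρ _ _ _ _ c302, hρ _ _ _ _ c023, hE _ _ _ _ c230]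
          exact (hV.veer t).2.2.2
      βs := fun c => by
        obtain ⟨t, i, j, l, h, h', rfl⟩ := sb c
        rcases WDict_f3 i j l h h' with ⟨rfl, rfl, rfl⟩ | ⟨rfl, rfl, rfl⟩ | ⟨rfl, rfl, rfl⟩ |
          ⟨rfl, rfl, rfl⟩ | ⟨rfl, rfl, rfl⟩ | ⟨rfl, rfl, rfl⟩
        exacts [⟨(t, false), Or.inl rfl⟩, ⟨(t, false), Or.inr (Or.inl (hρ _ _ _ _ c120).symm)⟩,
          ⟨(t, false), Or.inr (Or.inr
            ((congrArg ρ (hρ _ _ _ _ c120)).trans (hρ _ _ _ _ c201)).symm)⟩,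
          ⟨(t, true), Or.inl rfl⟩, ⟨(t, true), Or.inr (Or.inl (hρ _ _ _ _ c302).symm)⟩,
          ⟨(t, true), Or.inr (Or.inr
            ((congrArg ρ (hρ _ _ _ _ c302)).trans (hρ _ _ _ _ c023)).symm)⟩]
      τs := fun c => by
        obtain ⟨t, i, j, l, h, h', rfl⟩ := st c
        rcases WDict_f4 i j l h h' with ⟨rfl, rfl, rfl⟩ | ⟨rfl, rfl, rfl⟩ | ⟨rfl, rfl, rfl⟩ |
          ⟨rfl, rfl, rfl⟩ | ⟨rfl, rfl, rfl⟩ | ⟨rfl, rfl, rfl⟩
        exacts [⟨(t, false), Or.inl rfl⟩, ⟨(t, false), Or.inr (Or.inl (hρ _ _ _ _ c013).symm)⟩,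
          ⟨(t, false), Or.inr (Or.inr
            ((congrArg ρ (hρ _ _ _ _ c013)).trans (hρ _ _ _ _ c130)).symm)⟩,
          ⟨(t, true), Or.inl rfl⟩, ⟨(t, true), Or.inr (Or.inl (hρ _ _ _ _ c231).symm)⟩,
          ⟨(t, true), Or.inr (Or.inr
            ((congrArg ρ (hρ _ _ _ _ c231)).trans (hρ _ _ _ _ c312)).symm)⟩]
      βi := by
        have u := uq (P := fun p => p = (0, 2) ∨ p = (2, 0)) hV.bottom
        rintro ⟨t, _ | _⟩ ⟨t', _ | _⟩ e <;>
          simp only [cond_true, cond_false, hE _ _ _ _ c302, hE _ _ _ _ c120] at e <;>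
          have e' := Prod.mk.inj (u _ _ (by simp) (by simp) (by simp) e) <;>
          first | exact absurd e'.2 (by decide) | rw [e'.1]
      τi := by
        have u := uq (P := fun p => p = (1, 3) ∨ p = (3, 1)) hV.top
        rintro ⟨t, _ | _⟩ ⟨t', _ | _⟩ e <;>
          simp only [cond_true, cond_false, hE _ _ _ _ c231, hE _ _ _ _ c013] at e <;>
          have e' := Prod.mk.inj (u _ _ (by simp) (by simp) (by simp) e) <;>
          first | exact absurd e'.2 (by decide) | rw [e'.1] }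
  have hD : Dict G red X cor (Quot.mk _) :=
    ⟨fun _ _ => rfl, fun _ => rfl, fun _ => rfl, fun _ => rfl, fun _ => rfl, hρ, hE, hinj,
      fun _ _ => Quot.eq, fun _ => Iff.rfl, fun _ _ _ => rfl⟩
  have hf : ∀ c, {c' | X.E c' = X.E c}.Finite := fun c => by
    obtain ⟨d, hd⟩ := Quot.exists_rep (X.E c)
    refine (((hV.finite d).prod (Set.finite_univ (α := Fin 4))).image
      fun x => cor x.1.1 x.2 x.1.2.1 x.1.2.2).subset fun c' hc' => ?_
    obtain ⟨t, i, j, l, h, -, rfl⟩ := sb c'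
    exact ⟨((t, j, l), i), ⟨Quot.eq.1 (hd.trans (hc'.symm.trans (hE t i j l h))), trivial⟩, rfl⟩
  exact ⟨C, _, X, cor, _, hD,
    WDict_wf X.E (fun a b h => h.E.symm) hf fun A h0 h1 h2 => WDict_nocyc hV hD A h0 h2 h1,
    WDict_wf X.E (fun a b h => h.E) hf (WDict_nocyc hV hD)⟩

end Pool.Agent.Work.MP_3d425c_gt.Bor
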