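import Pool.Agent.Work.MP_3d425c_gt.W.SC1
import Pool.Agent.Work.MP_3d425c_gt.PI7
import Pool.Agent.Work.MP_3d425c_gt.PI10
import Pool.Agent.Work.MP_3d425c_gt.W.Defs
import Pool.Agent.Work.MP_3d425c_gt.W.Dict
import Mathlib
import Pool.Agent.Work.MP_3d425c_gt.ZQ1

-- merged part: Pool.Agent.Work.MP_3d425c_gt.VI1
section
-- merged part: Pool.Agent.Work.MP_3d425c_gt.W.Wind
section
/-! Edges, cusps and winding numbers in a model. -/

namespace Pool.Agent.Work.MP_3d425c_gt.Bor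
open PA Relation

variable {T V : Type} [LinearOrder V] {G : VR.Gluing T} {red : T × Fin 4 × Fin 4 → Prop}

theorem tet_young {S : VC V} {k j : ℤ} {a c b d : V} (t : Tet S.K S.red k a c b d) (hj : j ≤ k) :
    ¬ S.K j c d := fun h =>
  VC.tet_dead (VC.tet_rev t) (j := -j) (by omega) (show S.K (- -j) c d by rwa [neg_neg])

theorem tet_low {S : VC V} {k : ℤ} {v : Fin 4 → V} (t : Tet S.K S.red k (v 0) (v 1) (v 2) (v 3))
    {i j m : Fin 4} (h : i ≠ j) (hm : Odd m.val) (h1 : i ≠ m) (h2 : j ≠ m) :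
    S.K k (v i) (v j) := by
  obtain ⟨-, -, h3, -, ⟨a1, a2, a3, a4⟩, -⟩ := t
  fin_cases i <;> fin_cases j <;> fin_cases m <;> first
    | exact absurd rfl h | exact absurd rfl h1 | exact absurd rfl h2 | exact absurd hm (by decide)
    | assumption | exact VC.ksymm (by assumption)

theorem tet_any {S : VC V} {k : ℤ} {v : Fin 4 → V} (t : Tet S.K S.red k (v 0) (v 1) (v 2) (v 3))
    {i j : Fin 4} (h : i ≠ j) : S.K k (v i) (v j) ∨ S.K (k + 1) (v i) (v j) := by
  obtain ⟨-, -, h3, h4, ⟨a1, a2, a3, a4⟩, -⟩ := t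
  fin_cases i <;> fin_cases j <;> first
    | exact absurd rfl h | exact Or.inl (by assumption) | exact Or.inl (VC.ksymm (by assumption))
    | exact Or.inr h4 | exact Or.inr (VC.ksymm h4)

/-- Oriented edges with the same cusps are identified. -/
theorem dart_of {S : VC V} {vtx : T → Fin 4 → V}
    (tet : ∀ t, ∃ k, Tet S.K S.red k (vtx t 0) (vtx t 1) (vtx t 2) (vtx t 3))
    (glue : ∀ t k i, i ≠ k → vtx (G.nbr t k) (G.perm t k i) = vtx t i)
    (par : ∀ (t : T) (k : Fin 4), Even k.val ↔ Odd (G.perm t k k).val)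
    (uniq : ∀ t t', (vtx t 0 = vtx t' 0 ∧ vtx t 2 = vtx t' 2) ∨
      (vtx t 0 = vtx t' 2 ∧ vtx t 2 = vtx t' 0) → t = t') (t : T) (i j : Fin 4) (t' : T)
    (i' j' : Fin 4) (h : i ≠ j) (h1 : vtx t i = vtx t' i') (h2 : vtx t j = vtx t' j') :
    Relation.EqvGen (VR.Turn G) (t, i, j) (t', i', j') := by
  have ne : ∀ t i j, i ≠ j → vtx t i ≠ vtx t j := fun t i j h => by
    obtain ⟨k, u⟩ := tet t
    exact (tet_any u h).elim (PB1_ne (S.layer _)) (PB1_ne (S.layer _))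
  obtain ⟨s, B, hB⟩ := S.life (vtx t i) (vtx t j)
  have key : ∀ (n : ℕ) x y z k, y ≠ z → vtx x y = vtx t i → vtx x z = vtx t j →
      Tet S.K S.red k (vtx x 0) (vtx x 1) (vtx x 2) (vtx x 3) → B - k < n →
      ∃ x0 p, EqvGen (VR.Turn G) (x, y, z) (x0, p) ∧ (p = (0, 2) ∨ p = (2, 0)) ∧
        vtx x0 p.1 = vtx t i ∧ vtx x0 p.2 = vtx t j := by
    intro n
    induction n with
    | zero =>
      intro x y z k hyz e1 e2 u hk
      have := (tet_any u hyz).imp (fun m => hB _ (e1 ▸ e2 ▸ m)) fun m => hB _ (e1 ▸ e2 ▸ m)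
      omega
    | succ n ih =>
      intro x y z k hyz e1 e2 u hk
      by_cases hb : (y, z) = (0, 2) ∨ (y, z) = (2, 0)
      · exact ⟨x, (y, z), .refl _, hb, e1, e2⟩
      obtain ⟨m, m1, m2, m3, m4, m5⟩ : ∃ m : Fin 4, y ≠ m ∧ z ≠ m ∧ Even m.val ∧ 1 ≠ m ∧ 3 ≠ m := by
        clear * - hb hyz
        revert y z
        decide
      obtain ⟨k', u'⟩ := tet (G.nbr x m)
      have inj := (G.perm x m).injective
      have a1 := tet_low u' (i := G.perm x m 1) (j := G.perm x m 3) (inj.ne (by decide))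
        ((par x m).1 m3) (inj.ne m4) (inj.ne m5)
      rw [glue _ _ _ m4, glue _ _ _ m5] at a1
      have a2 : k < k' := not_le.1 fun e => tet_young u e a1
      obtain ⟨x0, p, r⟩ := ih (G.nbr x m) _ _ k' (inj.ne hyz) ((glue _ _ _ m1).trans e1)
        ((glue _ _ _ m2).trans e2) u' (by omega)
      exact ⟨x0, p, .trans _ _ _ (.rel _ _ ⟨m, hyz, m1.symm, m2.symm, rfl⟩) r.1, r.2⟩
  obtain ⟨k, u⟩ := tet t
  obtain ⟨k', u'⟩ := tet t'
  obtain ⟨x, p, r1, r2, r3, r4⟩ := key (B - k + 1).toNat t i j k h rfl rfl u (by omega)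
  obtain ⟨x', p', s1, s2, s3, s4⟩ := key (B - k' + 1).toNat t' i' j' k'
    (fun e => ne t i j h (h1.trans (e ▸ h2.symm))) h1.symm h2.symm u' (by omega)
  have e1 := r3.trans s3.symm
  have e2 := r4.trans s4.symm
  obtain rfl : x = x' := uniq _ _ (by
    rcases r2 with rfl | rfl <;> rcases s2 with rfl | rfl
    exacts [Or.inl ⟨e1, e2⟩, Or.inr ⟨e1, e2⟩, Or.inr ⟨e2, e1⟩, Or.inl ⟨e2, e1⟩])
  obtain rfl : p = p' := by
    rcases r2 with rfl | rfl <;> rcases s2 with rfl | rfl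
    exacts [rfl, absurd e1 (ne x 0 2 (by decide)), absurd e1 (ne x 2 0 (by decide)), rfl]
  exact .trans _ _ _ r1 (.symm _ _ s1)

/-- Adjacent corners at a cusp. -/
def Cor (G : VR.Gluing T) (c c' : T × Fin 4) : Prop :=
  ∃ k, k ≠ c.2 ∧ c'.1 = G.nbr c.1 k ∧ c'.2 = G.perm c.1 k c.2

theorem turn_cor {d d' : T × Fin 4 × Fin 4} (h : EqvGen (VR.Turn G) d d') :
    EqvGen (Cor G) (d.1, d.2.1) (d'.1, d'.2.1) := by
  induction h with
  | rel x y h =>
    obtain ⟨k, -, h1, -, rfl⟩ := h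
    exact .rel _ _ ⟨k, h1, rfl, rfl⟩
  | refl x => exact .refl _
  | symm x y _ ih => exact .symm _ _ ih
  | trans x y z _ _ ih ih' => exact .trans _ _ _ ih ih'

theorem succ_ne4 (i : Fin 4) : i ≠ i + 1 := by
  revert i
  decide

namespace Model
variable {S : VC V} {vtx : T → Fin 4 → V} (hM : Model G red S vtx)
include hM

/-- Corners with the same cusp are connected. -/
theorem corner {t t' : T} {i i' : Fin 4} (h : vtx t i = vtx t' i') :
    EqvGen (Cor G) (t, i) (t', i') := by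
  let Q : V → Prop := fun x => ∀ s j l, j ≠ l → vtx s j = vtx t i → vtx s l = x →
    EqvGen (Cor G) (t, i) (s, j)
  have q : ∀ s j l, j ≠ l → vtx s j = vtx t i → EqvGen (Cor G) (t, i) (s, j) → Q (vtx s l) :=
    fun s j l hjl e r s' j' l' _ e1 e2 =>
      .trans _ _ _ r (turn_cor (hM.dart s j l s' j' l' hjl (e.trans e1.symm) e2.symm))
  refine (VC.nbr_ind Q (fun a b f => ?_) (hM.edge t (succ_ne4 i))
    (h ▸ hM.edge t' (succ_ne4 i'))).1 (q t i _ (succ_ne4 i) rfl (.refl _)) t' i' _ (succ_ne4 i')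
    h.symm rfl
  obtain ⟨s, j, l, m, -, c, -, -, -, -, e, rfl, rfl⟩ := hM.face_bot f
  obtain ⟨n1, -, n3⟩ := cyc_ne c
  exact ⟨fun k => q s j m n3 e (k s j l n1 e rfl), fun k => q s j l n1 e (k s j m n3 e rfl)⟩

theorem surj_vtx (w : V) : ∃ t i, vtx t i = w := by
  obtain ⟨t, h | h⟩ := hM.edge_bot (S.o_spec w)
  exacts [⟨t, 0, h.1⟩, ⟨t, 2, h.1⟩]

/-- The tetrahedra are connected through faces. -/
theorem conn (t t' : T) : EqvGen (fun a b => ∃ k, b = G.nbr a k) t t' := by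
  have c : ∀ {s s' : T} {i i' : Fin 4}, vtx s i = vtx s' i' →
      EqvGen (fun a b => ∃ k, b = G.nbr a k) s s' := fun {s s' i i'} h => by
    have : ∀ x y, EqvGen (Cor G) x y → EqvGen (fun a b => ∃ k, b = G.nbr a k) x.1 y.1 := by
      intro x y h
      induction h with
      | rel x y h => exact .rel _ _ (h.imp fun _ h => h.2.1)
      | refl x => exact .refl _
      | symm x y _ ih => exact .symm _ _ ih
      | trans x y z _ _ ih ih' => exact .trans _ _ _ ih ih'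
    exact this _ _ (hM.corner h)
  have key : ∀ w, ReflTransGen (S.K 0) (vtx t 0) w → ∀ s i, vtx s i = w →
      EqvGen (fun a b => ∃ k, b = G.nbr a k) t s := by
    intro w h
    induction h with
    | refl => exact fun s i e => c e.symm
    | tail _ h ih =>
      intro s i e
      obtain ⟨x, k | k⟩ := hM.edge_bot ⟨0, h⟩ <;>
        exact .trans _ _ _ (ih x _ k.1) (c (k.2.trans e.symm))
  exact key _ (IT_conn (S.layer 0) _ _) t' 0 rfl

/-- Corners with the same cusp are joined by a path in the link. -/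
theorem wind (hV : VR.Veering G red) {t t' : T} {i i' : Fin 4} (h : vtx t i = vtx t' i') :
    ∃ n, VR.Wind G red t i t' i' n := by
  have one : ∀ x y, Cor G x y → ∀ n, ∃ m, VR.Cross G red (x.1, x.2, n) (y.1, y.2, m) := by
    rintro x y ⟨k, h1, h2, h3⟩ n
    by_cases e : ∀ j, j ≠ x.2 → j ≠ k → red (x.1, x.2, j)
    exacts [⟨_, k, h1, h2, h3, Or.inl ⟨e, rfl⟩⟩, ⟨_, k, h1, h2, h3, Or.inr ⟨e, rfl⟩⟩]
  have key : ∀ x y, EqvGen (Cor G) x y →
      (∀ n, ∃ m, ReflTransGen (VR.Cross G red) (x.1, x.2, n) (y.1, y.2, m)) ∧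
        ∀ n, ∃ m, ReflTransGen (VR.Cross G red) (y.1, y.2, n) (x.1, x.2, m) := by
    intro x y h
    induction h with
    | rel x y h =>
      refine ⟨fun n => (one x y h n).imp fun _ => .single,
        fun n => (one y x ?_ n).imp fun _ => .single⟩
      obtain ⟨k, h1, h2, h3⟩ := h
      refine ⟨G.perm x.1 k k, h3 ▸ (G.perm x.1 k).injective.ne h1, ?_, ?_⟩
      · rw [h2, (hV.back _ _).1]
      · rw [h2, h3, (hV.back _ _).2, Equiv.Perm.inv_def, Equiv.symm_apply_apply]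
    | refl x => exact ⟨fun n => ⟨n, .refl⟩, fun n => ⟨n, .refl⟩⟩
    | symm x y _ ih => exact ih.symm
    | trans x y z _ _ ih ih' =>
      refine ⟨fun n => ?_, fun n => ?_⟩
      · obtain ⟨m, r⟩ := ih.1 n
        exact (ih'.1 m).imp fun _ => r.trans
      · obtain ⟨m, r⟩ := ih'.2 n
        exact (ih.2 m).imp fun _ => r.trans
  exact (key _ _ (hM.corner h)).1 0

end Model

section
variable {S : VU V} {vtx : T → Fin 4 → V} (hV : VR.Veering G red) (hM : Model G red S.toVC vtx)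
include hV hM
open Classical

theorem lev_eq (t : T) {i j : Fin 4} (h : i ≠ j) : S.dir (vtx t i) (vtx t j) =
    S.dir (vtx t i) (vtx t (i + 1)) + if Odd i.val ∧ red (t, i, j) then 1 else 0 := by
  obtain ⟨v1, v2, v3, v4⟩ := hV.veer t
  have d : ∀ i j l : Fin 4, cyc i j l → S.dir (vtx t i) (vtx t l) = S.dir (vtx t i) (vtx t j) +
      if ¬ red (t, i, j) ∧ red (t, i, l) then 1 else 0 := fun i j l c => by
    rw [VU.tri_dir (hM.face t c), hM.red t i j (cyc_ne c).1, hM.red t i l (cyc_ne c).2.2]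
  have w1 := hV.red_symm _ _ _ v1
  have w3 := hV.red_symm _ _ _ v3
  fin_cases i <;> fin_cases j <;> first
    | exact absurd rfl h
    | (have := d 0 1 2 (by decide); have := d 0 1 3 (by decide); have := d 1 2 3 (by decide)
       have := d 1 2 0 (by decide); have := d 2 3 0 (by decide); have := d 2 3 1 (by decide)
       have := d 3 0 1 (by decide); have := d 3 0 2 (by decide)
       simp_all [show Odd 3 by decide, show ¬ Odd 2 by decide])

theorem both_red (t : T) {i k : Fin 4} (hk : k ≠ i) (h : ∀ j, j ≠ i → j ≠ k → red (t, i, j)) :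
    Odd i.val ↔ Even k.val := by
  obtain ⟨v1, v2, v3, v4⟩ := hV.veer t
  have w2 := mt (hV.red_symm t 2 1) v2
  have w4 := mt (hV.red_symm t 0 3) v4
  fin_cases i <;> fin_cases k <;> first
    | exact absurd rfl hk | decide
    | exact absurd (h _ (by decide) (by decide)) v2 | exact absurd (h _ (by decide) (by decide)) v4
    | exact absurd (h _ (by decide) (by decide)) w2 | exact absurd (h _ (by decide) (by decide)) w4

theorem cross_dir {c c' : T × Fin 4 × ℤ} (h : VR.Cross G red c c') :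
    vtx c'.1 c'.2.1 = vtx c.1 c.2.1 ∧ c'.2.2 - c.2.2 =
      S.dir (vtx c'.1 c'.2.1) (vtx c'.1 (c'.2.1 + 1)) -
        S.dir (vtx c.1 c.2.1) (vtx c.1 (c.2.1 + 1)) := by
  obtain ⟨t, i, n⟩ := c
  obtain ⟨t', i', n'⟩ := c'
  obtain ⟨k, hk, rfl, rfl, h⟩ : ∃ k, k ≠ i ∧ t' = G.nbr t k ∧ i' = G.perm t k i ∧
    (((∀ j, j ≠ i → j ≠ k → red (t, i, j)) ∧ n' = n + (-1) ^ k.val) ∨
      (¬ (∀ j, j ≠ i → j ≠ k → red (t, i, j)) ∧ n' = n)) := h
  have inj := (G.perm t k).injective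
  have e := hM.glue t k i hk.symm
  refine ⟨e, ?_⟩
  have rt : ∀ j, j ≠ i → j ≠ k → (red (t, i, j) ↔
      red (G.nbr t k, G.perm t k i, G.perm t k j)) := fun j h1 h2 =>
    hV.red_turn _ _ ⟨k, h1.symm, hk, h2.symm, rfl⟩
  have l : ∀ j, j ≠ i → j ≠ k → S.dir (vtx t i) (vtx (G.nbr t k) (G.perm t k i + 1)) +
      (if Odd (G.perm t k i).val ∧ red (t, i, j) then 1 else 0) =
        S.dir (vtx t i) (vtx t (i + 1)) + if Odd i.val ∧ red (t, i, j) then 1 else 0 :=
    fun j h1 h2 => by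
      have := lev_eq hV hM (G.nbr t k) (inj.ne h1.symm)
      rw [e, hM.glue t k j h2, ← rt j h1 h2] at this
      rw [← this, lev_eq hV hM t h1.symm]
  simp only [e]
  rcases h with ⟨h, rfl⟩ | ⟨h, rfl⟩
  · obtain ⟨j, h1, h2⟩ : ∃ j, j ≠ i ∧ j ≠ k := by
      clear * -
      revert i k
      decide
    have b1 := both_red hV hM t hk h
    have b2 := both_red hV hM (G.nbr t k) (inj.ne hk) fun j' g1 g2 => by
      obtain ⟨x, rfl⟩ := (G.perm t k).surjective j'
      have a1 := mt (congrArg (G.perm t k)) g1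
      have a2 := mt (congrArg (G.perm t k)) g2
      exact (rt x a1 a2).1 (h x a1 a2)
    have b3 := hV.transverse t k
    have b4 := l j h1 h2
    simp only [h j h1 h2, and_true] at b4
    rcases Nat.even_or_odd k.val with p | p
    · rw [if_neg (fun m => Nat.not_even_iff_odd.2 (b3.1 p) (b2.1 m)), if_pos (b1.2 p)] at b4
      rw [p.neg_one_pow]
      omega
    · have q := Nat.not_even_iff_odd.2 p
      rw [if_pos (b2.2 (Nat.not_odd_iff_even.1 (mt b3.2 q))), if_neg (mt b1.1 q)] at b4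
      rw [p.neg_one_pow]
      omega
  · push Not at h
    obtain ⟨j, h1, h2, h3⟩ := h
    have b4 := l j h1 h2
    simp only [h3, and_false, if_false] at b4
    omega

theorem wind_dir {t t' : T} {i i' : Fin 4} {n : ℤ} (h : VR.Wind G red t i t' i' n) :
    vtx t' i' = vtx t i ∧
      n = S.dir (vtx t i) (vtx t' (i' + 1)) - S.dir (vtx t i) (vtx t (i + 1)) := by
  have key : ∀ c', ReflTransGen (VR.Cross G red) (t, i, 0) c' → vtx c'.1 c'.2.1 = vtx t i ∧
      c'.2.2 = S.dir (vtx c'.1 c'.2.1) (vtx c'.1 (c'.2.1 + 1)) -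
        S.dir (vtx t i) (vtx t (i + 1)) := by
    intro c' h
    induction h with
    | refl => exact ⟨rfl, (sub_self _).symm⟩
    | tail _ h ih =>
      obtain ⟨h1, h2⟩ := cross_dir hV hM h
      exact ⟨h1.trans ih.1, by linarith [ih.2]⟩
  obtain ⟨h1, h2⟩ := key _ h
  exact ⟨h1, by rwa [h1] at h2⟩

end

end Pool.Agent.Work.MP_3d425c_gt.Bor
end

-- merged part: Pool.Agent.Work.MP_3d425c_gt.PI1
section
/-! An ideal triangulation exists. The vertices are the nonnegative dyadic rationals, the edges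
join the two ends of an interval `[k 2^m, (k+1) 2^m]` with `k : ℕ`, `m : ℤ`. -/

namespace Pool.Agent.Work.MP_3d425c_gt.Inst
open Classical PA Bor

/-- `x` is a nonnegative multiple of `2 ^ m`. -/
def PI1_Mul (m : ℤ) (x : ℚ) : Prop := ∃ j : ℕ, x = j * (2 : ℚ) ^ m

/-- `[lo, hi]` is a dyadic interval of level `m`. -/
def PI1_Ed (m : ℤ) (lo hi : ℚ) : Prop := ∃ k : ℕ, lo = k * (2 : ℚ) ^ m ∧ hi = (k + 1) * (2 : ℚ) ^ m

theorem PI1_pos (m : ℤ) : (0 : ℚ) < (2 : ℚ) ^ m := zpow_pos (by norm_num) m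

theorem PI1_Mul.mono {m n : ℤ} {x : ℚ} (h : m ≤ n) (hx : PI1_Mul n x) : PI1_Mul m x := by
  obtain ⟨j, rfl⟩ := hx
  obtain ⟨d, rfl⟩ := Int.le.dest h
  refine ⟨j * 2 ^ d, ?_⟩
  rw [zpow_add₀ (by norm_num), zpow_natCast]
  push_cast
  ring

theorem PI1_Mul.nonneg {m : ℤ} {x : ℚ} (hx : PI1_Mul m x) : 0 ≤ x := by
  obtain ⟨j, rfl⟩ := hx
  exact mul_nonneg (Nat.cast_nonneg j) (PI1_pos m).le

theorem PI1_Ed.lt {m : ℤ} {lo hi : ℚ} (h : PI1_Ed m lo hi) : lo < hi := by
  obtain ⟨k, rfl, rfl⟩ := h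
  have := PI1_pos m
  nlinarith

theorem PI1_Ed.lo {m : ℤ} {lo hi : ℚ} (h : PI1_Ed m lo hi) : PI1_Mul m lo := by
  obtain ⟨k, rfl, rfl⟩ := h
  exact ⟨k, rfl⟩

theorem PI1_Ed.hi {m : ℤ} {lo hi : ℚ} (h : PI1_Ed m lo hi) : PI1_Mul m hi := by
  obtain ⟨k, rfl, rfl⟩ := h
  exact ⟨k + 1, by push_cast; rfl⟩

theorem PI1_Ed.out {m : ℤ} {lo hi x : ℚ} (h : PI1_Ed m lo hi) (hx : PI1_Mul m x) :
    x ≤ lo ∨ hi ≤ x := by
  obtain ⟨k, rfl, rfl⟩ := h
  obtain ⟨j, rfl⟩ := hx
  have hp := PI1_pos m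
  rcases Nat.lt_or_ge k j with h | h
  · right
    have : ((k + 1 : ℕ) : ℚ) ≤ j := Nat.cast_le.2 h
    push_cast at this
    exact mul_le_mul_of_nonneg_right this hp.le
  · left
    exact mul_le_mul_of_nonneg_right (Nat.cast_le.2 h) hp.le

theorem PI1_succ (m : ℤ) : (2 : ℚ) ^ (m + 1) = 2 * (2 : ℚ) ^ m := by
  rw [zpow_add₀ (by norm_num), zpow_one, mul_comm]

/-- The midpoint. -/
theorem PI1_Ed.mid {m : ℤ} {lo hi : ℚ} (h : PI1_Ed m lo hi) :
    ∃ c, PI1_Ed (m - 1) lo c ∧ PI1_Ed (m - 1) c hi := by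
  obtain ⟨k, rfl, rfl⟩ := h
  have e : (2 : ℚ) ^ m = 2 * (2 : ℚ) ^ (m - 1) := by
    rw [← PI1_succ, sub_add_cancel]
  refine ⟨(2 * k + 1) * (2 : ℚ) ^ (m - 1), ⟨2 * k, ?_, ?_⟩, ⟨2 * k + 1, ?_, ?_⟩⟩ <;>
    (try rw [e]) <;> push_cast <;> ring

/-- The other end of the parent interval. -/
theorem PI1_Ed.par {m : ℤ} {lo hi : ℚ} (h : PI1_Ed m lo hi) :
    ∃ c, (PI1_Ed m hi c ∧ PI1_Ed (m + 1) lo c) ∨ (PI1_Ed m c lo ∧ PI1_Ed (m + 1) c hi) := by
  obtain ⟨k, rfl, rfl⟩ := h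
  obtain ⟨l, rfl | rfl⟩ := Nat.even_or_odd' k
  · refine ⟨(2 * l + 2) * (2 : ℚ) ^ m, Or.inl ⟨⟨2 * l + 1, ?_, ?_⟩, ⟨l, ?_, ?_⟩⟩⟩ <;>
      (try rw [PI1_succ]) <;> push_cast <;> ring
  · refine ⟨(2 * l) * (2 : ℚ) ^ m, Or.inr ⟨⟨2 * l, ?_, ?_⟩, ⟨l, ?_, ?_⟩⟩⟩ <;>
      (try rw [PI1_succ]) <;> push_cast <;> ring

/-- An interval with `u` strictly inside and `v` strictly outside. -/
theorem PI1_Ed.sep {m s : ℤ} {lo hi u v : ℚ} (h : PI1_Ed m lo hi) (hu : PI1_Mul s u)
    (hv : 0 ≤ v) (h1 : lo < u) (h2 : u < hi) (h3 : v < lo ∨ hi < v) :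
    PI1_Mul s lo ∧ PI1_Mul s hi ∧ hi ≤ 2 * (u + v) := by
  have hsm : s ≤ m := by
    by_contra hlt
    rcases h.out (hu.mono (not_le.1 hlt).le) with h4 | h4 <;> linarith
  refine ⟨h.lo.mono hsm, h.hi.mono hsm, ?_⟩
  have hu0 := hu.nonneg
  rcases h3 with h3 | h3
  · obtain ⟨k, rfl, rfl⟩ := h
    have hp := PI1_pos m
    have hk : k ≠ 0 := by
      rintro rfl
      simp only [Nat.cast_zero, zero_mul] at h3
      linarith
    have hk1 : (1 : ℚ) ≤ k := Nat.one_le_cast.2 (Nat.one_le_iff_ne_zero.2 hk)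
    nlinarith
  · linarith

theorem PI1_fin (s : ℤ) (B : ℚ) : {x : ℚ | PI1_Mul s x ∧ x ≤ B}.Finite := by
  obtain ⟨N, hN⟩ := exists_nat_ge (B / (2 : ℚ) ^ s)
  refine ((Set.finite_Iic N).image (fun j : ℕ => (j : ℚ) * (2 : ℚ) ^ s)).subset ?_
  rintro x ⟨⟨j, rfl⟩, hx⟩
  refine ⟨j, ?_, rfl⟩
  have h1 : (j : ℚ) ≤ B / (2 : ℚ) ^ s := (le_div_iff₀ (PI1_pos s)).2 hx
  exact Nat.cast_le.1 (h1.trans hN)

/-- The vertices. -/
abbrev PI1_V : Type := {x : ℚ // ∃ m, PI1_Mul m x}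

/-- The edges. -/
def PI1_E (x y : PI1_V) : Prop := ∃ m, PI1_Ed m x.1 y.1 ∨ PI1_Ed m y.1 x.1

theorem PI1_cyc (a b c : PI1_V) : cyc a b c ↔
    (a.1 < b.1 ∧ b.1 < c.1) ∨ (b.1 < c.1 ∧ c.1 < a.1) ∨ (c.1 < a.1 ∧ a.1 < b.1) := Iff.rfl

theorem PI1_two {m n : ℤ} {a b c d : ℚ} (h : PI1_Ed m a b) (h' : PI1_Ed n c d) :
    ¬ (a < c ∧ c < b ∧ b < d) := by
  rintro ⟨h1, h2, h3⟩
  rcases le_total m n with hmn | hmn
  · rcases h.out (h'.lo.mono hmn) with h4 | h4 <;> linarith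
  · rcases h'.out (h.hi.mono hmn) with h4 | h4 <;> linarith

theorem PI1_nocross (a b c d : PI1_V) (h : PI1_E a b) (h' : PI1_E c d) (h1 : cyc a c b)
    (h2 : cyc b d a) : False := by
  rw [PI1_cyc] at h1 h2
  obtain ⟨m, h | h⟩ := h <;> obtain ⟨n, h' | h'⟩ := h' <;>
  · have e1 := h.lt
    have e2 := h'.lt
    have e3 := PI1_two h h'
    have e4 := PI1_two h' h
    grind

theorem PI1_apex (a b : PI1_V) (h : PI1_E a b) : ∃ c, cyc a c b ∧ PI1_E a c ∧ PI1_E c b := by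
  obtain ⟨m, h | h⟩ := h
  · obtain ⟨c, h1, h2⟩ := h.mid
    exact ⟨⟨c, _, h1.hi⟩, Or.inl ⟨h1.lt, h2.lt⟩, ⟨_, Or.inl h1⟩, ⟨_, Or.inl h2⟩⟩
  · obtain ⟨c, ⟨h1, h2⟩ | ⟨h1, h2⟩⟩ := h.par
    · exact ⟨⟨c, _, h1.hi⟩, Or.inr (Or.inr ⟨h.lt, h1.lt⟩), ⟨_, Or.inl h1⟩, ⟨_, Or.inr h2⟩⟩
    · exact ⟨⟨c, _, h1.lo⟩, Or.inr (Or.inl ⟨h1.lt, h.lt⟩), ⟨_, Or.inr h2⟩, ⟨_, Or.inl h1⟩⟩

theorem PI1_finite (u v : PI1_V) :
    {p : PI1_V × PI1_V | PI1_E p.1 p.2 ∧ cyc p.1 u p.2 ∧ cyc p.2 v p.1}.Finite := by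
  obtain ⟨s, hs⟩ := u.2
  obtain ⟨t, ht⟩ := v.2
  have hu : PI1_Mul (min s t) u.1 := hs.mono (min_le_left _ _)
  have hv : PI1_Mul (min s t) v.1 := ht.mono (min_le_right _ _)
  have hF : {x : PI1_V | PI1_Mul (min s t) x.1 ∧ x.1 ≤ 2 * (u.1 + v.1)}.Finite :=
    (PI1_fin (min s t) (2 * (u.1 + v.1))).preimage Subtype.val_injective.injOn
  refine (hF.prod hF).subset ?_
  rintro ⟨a, b⟩ ⟨⟨m, h | h⟩, h1, h2⟩
  · rw [PI1_cyc] at h1 h2
    have e := h.lt
    simp only at h h1 h2 e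
    obtain ⟨k1, k2, k3⟩ := h.sep hu hv.nonneg (by grind) (by grind) (by grind)
    exact ⟨⟨k1, e.le.trans k3⟩, ⟨k2, k3⟩⟩
  · rw [PI1_cyc] at h1 h2
    have e := h.lt
    simp only at h h1 h2 e
    obtain ⟨k1, k2, k3⟩ := h.sep hv hu.nonneg (by grind) (by grind) (by grind)
    rw [add_comm] at k3
    exact ⟨⟨k2, k3⟩, ⟨k1, e.le.trans k3⟩⟩

theorem exists_idealTri : ∃ (V : Type) (_ : LinearOrder V) (_ : Countable V) (E : V → V → Prop),
    IdealTri E := by
  refine ⟨PI1_V, inferInstance, inferInstance, PI1_E, ?_, PI1_nocross, PI1_apex, PI1_finite, ?_⟩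
  · rintro a b ⟨m, h⟩
    exact ⟨m, h.symm⟩
  · have h : PI1_Ed 0 0 1 := ⟨0, by simp, by simp⟩
    exact ⟨⟨0, _, h.lo⟩, ⟨1, _, h.hi⟩, 0, Or.inl h⟩

end Pool.Agent.Work.MP_3d425c_gt.Inst
end

-- merged part: Pool.Agent.Work.MP_3d425c_gt.PI6
section
/-! No horizontal saddle connections; counting prongs. -/

namespace Pool.Agent.Work.MP_3d425c_gt.Inst
open Classical PA Bor

variable {V : Type} [LinearOrder V] {E : V → V → Prop}

theorem PI6_inv {y : V → ℝ} {w a₀ b₀ a b : V} (h : Leaf E y w a₀ b₀ a b) :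
    E a b ∧ cyc w a b ∧ cle w a₀ a ∧ cle w b b₀ ∧ (y a - y w) * (y b - y w) < 0 := by
  induction h with
  | base _ _ h3 h4 h5 => exact ⟨h3, h4, Or.inl rfl, Or.inl rfl, h5⟩
  | left _ h1 h2 _ h4 ih =>
    obtain ⟨-, i2, i3, i4, -⟩ := ih
    refine ⟨h2, ?_, i3, ?_, h4⟩ <;> unfold cle cyc at * <;> grind
  | right _ h1 _ h3 h4 ih =>
    obtain ⟨-, i2, i3, i4, -⟩ := ih
    refine ⟨h3, ?_, ?_, i4, h4⟩ <;> unfold cle cyc at * <;> grind

/-- The determinant of two developed vertices, seen from `w`. -/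
def PI6_det (X Y : V → ℤ) (w a b : V) : ℤ := (X a - X w) * (Y b - Y w) - (Y a - Y w) * (X b - X w)

theorem PI6_area {X Y : V → ℤ} (hD : Dev E X Y) (w : V) {a b c : V} (h : Tri E a c b) :
    PI6_det X Y w a c + PI6_det X Y w c b = PI6_det X Y w a b + 1 := by
  obtain ⟨r1, r2⟩ := hD.rule a c b h
  have e1 : X c = X b - (Y a - Y b) := by omega
  have e2 : Y c = Y b + (X a - X b + (Y a - Y b)) := by omega
  have e3 : (X a - X b) ^ 2 + (X a - X b) * (Y a - Y b) + (Y a - Y b) ^ 2 = 1 := by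
    rcases hD.dir a b h.2.2.2 with k | k | k | k | k | k <;> rw [k.1, k.2] <;> norm_num
  unfold PI6_det
  rw [e1, e2]
  linear_combination e3

omit [LinearOrder V] in
theorem PI6_cramer {X Y : V → ℤ} {α β : ℝ} {y : V → ℝ} (hy : ∀ v, y v = α * X v + β * Y v)
    (w a b c : V) : (y c - y w) * (PI6_det X Y w a b : ℝ) =
      (y a - y w) * (PI6_det X Y w c b : ℝ) + (y b - y w) * (PI6_det X Y w a c : ℝ) := by
  simp only [hy, PI6_det]
  push_cast
  ring

theorem PI6_sign {p q r : ℝ} {P Q R : ℤ} (hP : 0 < P) (hs : Q + R = P + 1)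
    (hc : r * P = p * R + q * Q) (h1 : p * q < 0) (h2 : p * r < 0) : 0 < Q := by
  by_contra hn
  have hQ : (Q : ℝ) ≤ 0 := by exact_mod_cast not_lt.1 hn
  have hR : (0 : ℝ) < R := by exact_mod_cast (by omega : 0 < R)
  have hP' : (0 : ℝ) < P := by exact_mod_cast hP
  have e : p * r * P = p * p * R + p * q * Q := by linear_combination p * hc
  have k1 : p * r * P < 0 := mul_neg_of_neg_of_pos h2 hP'
  have k2 : 0 ≤ p * p * R := mul_nonneg (mul_self_nonneg p) hR.le
  have k3 : 0 ≤ p * q * Q := mul_nonneg_of_nonpos_of_nonpos h1.le hQ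
  linarith

theorem PI6_pos {X Y : V → ℤ} (hD : Dev E X Y) {α β : ℝ} {y : V → ℝ}
    (hy : ∀ v, y v = α * X v + β * Y v) {w a₀ b₀ a b : V} (h : Leaf E y w a₀ b₀ a b) :
    0 < PI6_det X Y w a b := by
  induction h with
  | base h1 h2 h3 h4 _ =>
    have := PI6_area hD w (⟨h4, h1, h3, h2⟩ : Tri E w a₀ b₀)
    simp only [PI6_det, sub_self, zero_mul] at this ⊢
    omega
  | @left a b c l h1 h2 h3 h4 ih =>
    obtain ⟨i1, -, -, -, i5⟩ := PI6_inv l
    exact PI6_sign ih (PI6_area hD w ⟨h1, h2, h3, i1⟩) (PI6_cramer hy w a b c) i5 h4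
  | @right a b c l h1 h2 h3 h4 ih =>
    obtain ⟨i1, -, -, -, i5⟩ := PI6_inv l
    exact PI6_sign (p := y b - y w) (q := y a - y w) (r := y c - y w) ih
      ((add_comm _ _).trans (PI6_area hD w ⟨h1, h2, h3, i1⟩))
      ((PI6_cramer hy w a b c).trans (add_comm _ _)) (by rwa [mul_comm]) (by rwa [mul_comm])

theorem dev_nosaddle (hE : IdealTri E) {X Y : V → ℤ} (hD : Dev E X Y) {α β : ℝ}
    (hinj : ∀ m n : ℤ, α * m + β * n = 0 → m = 0 ∧ n = 0) {y : V → ℝ}
    (hy : ∀ v, y v = α * X v + β * Y v) (w a₀ b₀ a b c : V) (h : Leaf E y w a₀ b₀ a b)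
    (h1 : cyc a c b) (h2 : E a c) (h3 : E c b) : y c ≠ y w := by
  intro e
  have hP := PI6_pos hD hy h
  have hs := PI6_area hD w (⟨h1, h2, h3, (PI6_inv h).1⟩ : Tri E a c b)
  obtain ⟨k1, k2⟩ := hinj (X c - X w) (Y c - Y w) (by
    rw [hy c, hy w] at e
    push_cast
    linear_combination e)
  simp only [PI6_det, k1, k2, mul_zero, zero_mul, sub_self] at hs hP
  omega

/-- The set of vertices on the left of the prong through `(w, a₀, b₀)`. -/
def PI6_S (E : V → V → Prop) (y : V → ℝ) (w : V) (p : V × V) : Set V :=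
  {u | ∃ a b, Leaf E y w p.1 p.2 a b ∧ (u = a ∨ cyc w u a)}

theorem PI6_out {y : V → ℝ} {w u : V} {p : V × V} (h : u ∈ PI6_S E y w p) : cyc w u p.2 := by
  obtain ⟨a, b, l, k⟩ := h
  obtain ⟨-, i2, -, i4, -⟩ := PI6_inv l
  unfold cle cyc at *
  grind

theorem PI6_base {y : V → ℝ} {w a₀ b₀ a b : V} (h : Leaf E y w a₀ b₀ a b) : Tri E w a₀ b₀ := by
  induction h with
  | base h1 h2 h3 h4 _ => exact ⟨h4, h1, h3, h2⟩
  | left _ _ _ _ _ ih => exact ih
  | right _ _ _ _ _ ih => exact ih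

theorem PI6_fin (hE : IdealTri E) (y : V → ℝ) {w u v : V} (huv : cyc w u v) :
    {S | Prong E y w S ∧ (u ∈ S ↔ v ∉ S)}.Finite := by
  have hT : {p : V × V | Tri E w p.1 p.2 ∧ cyc w u p.2 ∧ cyc w p.1 v}.Finite := by
    refine Set.Finite.of_finite_image (f := Prod.fst) ?_ ?_
    · refine ((((hE.fin u v).image Prod.snd).union ((hE.fin u w).image Prod.fst)).union
        (Set.finite_singleton u)).subset ?_
      rintro _ ⟨⟨a, b⟩, ⟨t, k1, k2⟩, rfl⟩
      by_cases e : a = u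
      · exact Or.inr e
      rcases cyc_total (cyc_ne huv).1 (Ne.symm e) (cyc_ne t.1).1 with k | k
      · exact Or.inl (Or.inl ⟨(w, a), ⟨t.2.1, k, cyc_rot k2⟩, rfl⟩)
      · exact Or.inl (Or.inr ⟨(a, b), ⟨t.2.2.1, cyc_mid k k1, cyc_rot (cyc_rot t.1)⟩, rfl⟩)
    · rintro ⟨a, b⟩ ⟨t, -⟩ ⟨a', b'⟩ ⟨t', -⟩ e
      obtain rfl : a = a' := e
      exact Prod.ext rfl ((t.rot hE).uniq hE (t'.rot hE))
  refine (hT.image (PI6_S E y w)).subset ?_
  rintro S ⟨⟨a, b, l, rfl⟩, hS⟩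
  have t := PI6_base l
  have hv : v ∉ PI6_S E y w (a, b) := fun hv => by
    refine hS.1 ?_ hv
    obtain ⟨a', b', l', k⟩ := hv
    refine ⟨a', b', l', Or.inr ?_⟩
    rcases k with rfl | k
    · exact huv
    · exact cyc_trans huv k
  refine ⟨(a, b), ⟨t, PI6_out (p := (a, b)) (hS.2 hv), ?_⟩, rfl⟩
  have h1 : ¬ (v = a ∨ cyc w v a) := fun k => hv ⟨a, b, l, k⟩
  have h2 := (cyc_ne t.1).1
  have h3 := (cyc_ne huv).2.2
  rw [not_or] at h1
  exact (cyc_total h2 (Ne.symm h1.1) h3).resolve_right h1.2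

theorem prongs_ge (hE : IdealTri E) (y : V → ℝ) {w : V} {a : ℤ → V} (hF : Fan E w a)
    (hs : ∀ k, ∃ j, k ≤ j ∧ j < k + 3 ∧ (y (a j) - y w) * (y (a (j + 1)) - y w) < 0)
    {u v : V} {k : ℤ} (hu : cle w u (a k)) (hv : cle w (a (k + 9)) v) :
    3 ≤ prongs E y w u v := by
  have h1 : ∀ k l, k < l → cyc w (a k) (a l) := fun k l hl =>
    Int.leInduction (motive := fun n _ => cyc w (a k) (a n)) (hF k).1
      (fun n _ ih => cyc_trans ih (hF n).1) l hl
  have h2 : ∀ k l, k ≤ l → cle w (a k) (a l) := fun k l hl => by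
    rcases hl.eq_or_lt with rfl | q
    · exact Or.inl rfl
    · exact Or.inr (h1 _ _ q)
  have hL : ∀ j, (y (a j) - y w) * (y (a (j + 1)) - y w) < 0 →
      Leaf E y w (a j) (a (j + 1)) (a j) (a (j + 1)) := fun j h =>
    Leaf.base (hF j).2.1 (hF j).2.2.2 (hF j).2.2.1 (hF j).1 h
  have hmem : ∀ j, k ≤ j → j < k + 9 → (y (a j) - y w) * (y (a (j + 1)) - y w) < 0 →
      PI6_S E y w (a j, a (j + 1)) ∈ {S | Prong E y w S ∧ (u ∈ S ↔ v ∉ S)} := fun j p q h => by
    refine ⟨⟨_, _, hL j h, rfl⟩, iff_of_true ⟨_, _, hL j h, ?_⟩ fun hv' => ?_⟩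
    · have := h2 k j p
      unfold cle cyc at *
      (clear * - h1 hu q this; grind)
    · have k1 : cyc w v (a (j + 1)) := PI6_out hv'
      have k2 := h2 (j + 1) (k + 9) (by omega)
      clear h1 h2 hL hs
      unfold cle cyc at *
      grind
  have hne : ∀ i j, i < j → (y (a j) - y w) * (y (a (j + 1)) - y w) < 0 →
      PI6_S E y w (a i, a (i + 1)) ≠ PI6_S E y w (a j, a (j + 1)) := fun i j p h e => by
    have k0 : a j ∈ PI6_S E y w (a j, a (j + 1)) := ⟨_, _, hL j h, Or.inl rfl⟩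
    rw [← e] at k0
    have k1 : cyc w (a j) (a (i + 1)) := PI6_out k0
    rcases h2 (i + 1) j (by omega) with q | q
    · exact (cyc_ne k1).2.1 q.symm
    · exact cyc_asymm k1 q
  have huv : cyc w u v := by
    have := h1 k (k + 9) (by omega)
    clear h1 h2 hL hs hmem hne
    unfold cle cyc at *
    grind
  obtain ⟨i, p1, p2, p3⟩ := hs k
  obtain ⟨j, q1, q2, q3⟩ := hs (k + 3)
  obtain ⟨l, r1, r2, r3⟩ := hs (k + 6)
  have h3 := Set.ncard_eq_three.2 ⟨_, _, _, hne i j (by omega) q3, hne i l (by omega) r3,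
    hne j l (by omega) r3, rfl⟩
  unfold prongs
  rw [← h3]
  refine Set.ncard_le_ncard ?_ (PI6_fin hE y huv)
  rintro S (rfl | rfl | rfl)
  · exact hmem i p1 (by omega) p3
  · exact hmem j (by omega) (by omega) q3
  · exact hmem l (by omega) (by omega) r3

end Pool.Agent.Work.MP_3d425c_gt.Inst
end

-- merged part: Pool.Agent.Work.MP_3d425c_gt.PI2
section
/-! Induction and recursion on an ideal triangulation, rigidity, the developing map. -/

namespace Pool.Agent.Work.MP_3d425c_gt.Inst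
open Classical PA Bor

variable {V : Type} [LinearOrder V] {E E' : V → V → Prop}

theorem PI2_side (hE : IdealTri E) (P : V → V → Prop)
    (step : ∀ p c q, Tri E p c q → P p q → P p c ∧ P c q) {p q z : V} (hpq : E p q)
    (hz : cyc p z q) : ∀ a b, E a b → cyc a z b → P a b → (p = a ∨ cyc a p z) →
      (q = b ∨ cyc z q b) → P p q := by
  refine PB1_desc hE z (fun a b => P a b → (p = a ∨ cyc a p z) → (q = b ∨ cyc z q b) → P p q) ?_
  intro a b c hab h1 h2 e1 e2 k1 k2 hP hp hq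
  by_cases he : p = a ∧ q = b
  · exact he.1 ▸ he.2 ▸ hP
  obtain ⟨s1, s2⟩ := step a c b ⟨h2, e1, e2, hab⟩ hP
  have n1 := hE.nocross p q c a hpq (hE.symm _ _ e1)
  have n2 := hE.nocross p q c b hpq e2
  have key : (cyc c z b ∧ (p = c ∨ cyc c p z)) ∨ (cyc a z c ∧ (q = c ∨ cyc z q c)) := by
    clear k1 k2 hP s1 s2 step hab e1 e2 hpq hE
    unfold cyc at *
    grind
  rcases key with ⟨u1, u2⟩ | ⟨u1, u2⟩
  exacts [k2 u1 s2 u2 hq, k1 u1 s1 hp u2]

theorem PI2_arc {p q z a b : V} (hz : cyc p z q) (hne : a ≠ b) (ha : ¬ cyc p a q)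
    (hb : ¬ cyc p b q) : (cyc a z b ∧ (p = a ∨ cyc a p z) ∧ (q = b ∨ cyc z q b)) ∨
      (cyc b z a ∧ (p = b ∨ cyc b p z) ∧ (q = a ∨ cyc z q a)) := by
  have h1 : ∀ x, ¬ cyc p x q → x ≠ z ∧ (p = x ∨ cyc x p z) ∧ (q = x ∨ cyc z q x) := by
    intro x hx
    unfold cyc at *
    grind
  obtain ⟨a1, a2, a3⟩ := h1 a ha
  obtain ⟨b1, b2, b3⟩ := h1 b hb
  exact (cyc_total a1 b1.symm hne).imp (fun k => ⟨k, a2, b3⟩) fun k => ⟨cyc_rot k, b2, a3⟩

theorem edge_ind (hE : IdealTri E) {a b : V} (hab : E a b) (P : V → V → Prop) (h0 : P a b)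
    (hs : ∀ p q, E p q → P p q → P q p)
    (step : ∀ p c q, Tri E p c q → P p q → P p c ∧ P c q) : ∀ p q, E p q → P p q := by
  intro p q hpq
  have hqp := hE.symm _ _ hpq
  have hba := hE.symm _ _ hab
  obtain ⟨z, hz, -⟩ := hE.apex p q hpq
  obtain ⟨z', hz', -⟩ := hE.apex q p hqp
  have n1 := hE.nocross p q a b hpq hab
  have n2 := hE.nocross p q b a hpq hba
  have hne := PB1_ne hE hab
  have side : (¬ cyc p a q ∧ ¬ cyc p b q) ∨ (¬ cyc q a p ∧ ¬ cyc q b p) := by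
    by_cases k1 : cyc p a q
    · exact Or.inr ⟨fun k => cyc_asymm k1 (cyc_rot (cyc_rot k)), n1 k1⟩
    by_cases k2 : cyc p b q
    · exact Or.inr ⟨n2 k2, fun k => cyc_asymm k2 (cyc_rot (cyc_rot k))⟩
    exact Or.inl ⟨k1, k2⟩
  have key := side.imp (fun k => PI2_arc hz hne k.1 k.2) fun k => PI2_arc hz' hne k.1 k.2
  rcases key with (⟨u1, u2, u3⟩ | ⟨u1, u2, u3⟩) | ⟨u1, u2, u3⟩ | ⟨u1, u2, u3⟩
  · exact PI2_side hE P step hpq hz a b hab u1 h0 u2 u3
  · exact PI2_side hE P step hpq hz b a hba u1 (hs _ _ hab h0) u2 u3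
  · exact hs _ _ hqp (PI2_side hE P step hqp hz' a b hab u1 h0 u2 u3)
  · exact hs _ _ hqp (PI2_side hE P step hqp hz' b a hba u1 (hs _ _ hab h0) u2 u3)

/-- The value at `v` obtained by descending from the edge `p q` that carries `A`, `B`. -/
inductive PI2_R (E : V → V → Prop) {W : Type} (F : W → W → W) (v : V) : V → V → W → W → W → Prop
  | here {p q A B} : Tri E p v q → PI2_R E F v p q A B (F A B)
  | left {p c q A B X} : Tri E p c q → cyc p v c → PI2_R E F v p c A (F A B) X →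
      PI2_R E F v p q A B X
  | right {p c q A B X} : Tri E p c q → cyc c v q → PI2_R E F v c q (F A B) B X →
      PI2_R E F v p q A B X

theorem PI2_R_ex (hE : IdealTri E) {W : Type} (F : W → W → W) (v : V) :
    ∀ p q, E p q → cyc p v q → ∀ A B, ∃ X, PI2_R E F v p q A B X := by
  refine PB1_desc hE v (fun p q => ∀ A B, ∃ X, PI2_R E F v p q A B X) ?_
  intro p q c hpq h1 h2 e1 e2 k1 k2 A B
  rcases PAT1_e h1 h2 with rfl | k | k
  · exact ⟨_, .here ⟨h2, e1, e2, hpq⟩⟩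
  · obtain ⟨X, hX⟩ := k1 k A (F A B)
    exact ⟨X, .left ⟨h2, e1, e2, hpq⟩ k hX⟩
  · obtain ⟨X, hX⟩ := k2 k (F A B) B
    exact ⟨X, .right ⟨h2, e1, e2, hpq⟩ k hX⟩

theorem PI2_R_uniq (hE : IdealTri E) {W : Type} {F : W → W → W} {v p q : V} {A B X : W}
    (h : PI2_R E F v p q A B X) : ∀ {X'}, PI2_R E F v p q A B X' → X = X' := by
  induction h with
  | here t =>
    intro X' h'
    cases h' with
    | here => rfl
    | left t' k => exact absurd (t.uniq hE t') (cyc_ne k).2.1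
    | right t' k => exact absurd (t'.uniq hE t) (cyc_ne k).1
  | left t k _ ih =>
    intro X' h'
    cases h' with
    | here t' => exact absurd (t'.uniq hE t) (cyc_ne k).2.1
    | left t' k' r => exact ih (t.uniq hE t' ▸ r)
    | right t' k' =>
      obtain rfl := t.uniq hE t'
      have := t.1
      unfold cyc at *
      grind
  | right t k _ ih =>
    intro X' h'
    cases h' with
    | here t' => exact absurd (t.uniq hE t') (cyc_ne k).1
    | left t' k' =>
      obtain rfl := t.uniq hE t'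
      have := t.1
      unfold cyc at *
      grind
    | right t' k' r => exact ih (t.uniq hE t' ▸ r)

/-- Edges oriented away from the edge `a b`. -/
inductive PI2_Out (E : V → V → Prop) (a b : V) : V → V → Prop
  | one : PI2_Out E a b a b
  | two : PI2_Out E a b b a
  | left {p c q} : PI2_Out E a b p q → Tri E p c q → PI2_Out E a b p c
  | right {p c q} : PI2_Out E a b p q → Tri E p c q → PI2_Out E a b c q

theorem PI2_out_cases (hE : IdealTri E) {a b p c q : V} (h : PI2_Out E a b q p)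
    (t : Tri E p c q) : PI2_Out E a b p q ∨ PI2_Out E a b q c ∨ PI2_Out E a b c p := by
  cases h with
  | one => exact Or.inl .two
  | two => exact Or.inl .one
  | left h' t' => exact Or.inr (Or.inl (t.uniq hE (t'.rot hE) ▸ h'))
  | right h' t' => exact Or.inr (Or.inr (t.uniq hE ((t'.rot hE).rot hE) ▸ h'))

theorem PI2_out_tri (hE : IdealTri E) {a b : V} (hab : E a b) {p c q : V} (t : Tri E p c q) :
    PI2_Out E a b p q ∨ PI2_Out E a b q c ∨ PI2_Out E a b c p := by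
  have := edge_ind hE hab (fun p q => PI2_Out E a b p q ∨ PI2_Out E a b q p) (Or.inl .one)
    (fun _ _ _ h => h.symm) (fun p c q t h => by
      rcases h.elim Or.inl fun h => PI2_out_cases hE h t with h | h | h
      · exact ⟨Or.inl (h.left t), Or.inl (h.right t)⟩
      · exact ⟨Or.inl (h.right ((t.rot hE).rot hE)), Or.inr h⟩
      · exact ⟨Or.inr h, Or.inl (h.left (t.rot hE))⟩) p q t.2.2.2
  exact this.elim Or.inl fun h => PI2_out_cases hE h t

theorem exists_map (hE : IdealTri E) {a b : V} (hab : E a b) {W : Type} (I : W → W → Prop)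
    (T : W → W → W → Prop) (rot : ∀ A C B, T A C B → T C B A)
    (step : ∀ A B, I A B → ∃ C, T A C B ∧ I A C ∧ I C B) {α β : W} (h1 : I α β) (h2 : I β α) :
    ∃ f : V → W, f a = α ∧ f b = β ∧ ∀ p c q, Tri E p c q → T (f p) (f c) (f q) := by
  have : Nonempty W := ⟨α⟩
  choose! F hF using step
  have hne := PB1_ne hE hab
  have tot : ∀ v, ∃ X, (v = a → X = α) ∧ (v = b → X = β) ∧ (cyc a v b → PI2_R E F v a b α β X) ∧
      (cyc b v a → PI2_R E F v b a β α X) := fun v => by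
    by_cases e1 : v = a
    · exact ⟨α, fun _ => rfl, fun e => absurd (e1.symm.trans e) hne,
        fun k => absurd e1.symm (cyc_ne k).1, fun k => absurd e1 (cyc_ne k).2.1⟩
    by_cases e2 : v = b
    · exact ⟨β, fun e => absurd e e1, fun _ => rfl, fun k => absurd e2 (cyc_ne k).2.1,
        fun k => absurd e2.symm (cyc_ne k).1⟩
    rcases cyc_total (Ne.symm e1) e2 hne with k | k
    · obtain ⟨X, hX⟩ := PI2_R_ex hE F v a b hab k α β
      exact ⟨X, fun e => absurd e e1, fun e => absurd e e2, fun _ => hX,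
        fun k' => absurd (cyc_rot (cyc_rot k')) (cyc_asymm k)⟩
    · obtain ⟨X, hX⟩ := PI2_R_ex hE F v b a (hE.symm _ _ hab) (cyc_rot k) β α
      exact ⟨X, fun e => absurd e e1, fun e => absurd e e2, fun k' => absurd k (cyc_asymm k'),
        fun _ => hX⟩
  choose f f1 f2 f3 f4 using tot
  have ea := f1 a rfl
  have eb := f2 b rfl
  have good : ∀ p q, PI2_Out E a b p q → I (f p) (f q) ∧
      ∀ v, cyc p v q → PI2_R E F v p q (f p) (f q) (f v) := fun p q h => by
    induction h with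
    | one => rw [ea, eb]; exact ⟨h1, f3⟩
    | two => rw [ea, eb]; exact ⟨h2, f4⟩
    | @left p c q _ t ih =>
      have e := PI2_R_uniq hE (ih.2 c t.1) (.here t)
      rw [e]
      refine ⟨(hF _ _ ih.1).2.1, fun v k => ?_⟩
      obtain ⟨X, hX⟩ := PI2_R_ex hE F v p c t.2.1 k (f p) (F (f p) (f q))
      rwa [PI2_R_uniq hE (ih.2 v (PAT1_c t.1 k)) (.left t k hX)]
    | @right p c q _ t ih =>
      have e := PI2_R_uniq hE (ih.2 c t.1) (.here t)
      rw [e]
      refine ⟨(hF _ _ ih.1).2.2, fun v k => ?_⟩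
      obtain ⟨X, hX⟩ := PI2_R_ex hE F v c q t.2.2.1 k (F (f p) (f q)) (f q)
      rwa [PI2_R_uniq hE (ih.2 v (PAT1_d t.1 k)) (.right t k hX)]
  have fin : ∀ p c q, Tri E p c q → PI2_Out E a b p q → T (f p) (f c) (f q) := fun p c q t h => by
    rw [PI2_R_uniq hE ((good p q h).2 c t.1) (.here t)]
    exact (hF _ _ (good p q h).1).1
  refine ⟨f, ea, eb, fun p c q t => ?_⟩
  rcases PI2_out_tri hE hab t with h | h | h
  · exact fin p c q t h
  · exact rot _ _ _ (fin q p c ((t.rot hE).rot hE) h)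
  · exact rot _ _ _ (rot _ _ _ (fin c q p (t.rot hE) h))

/-- A map that respects positive triangles respects the circular order. -/
theorem cyc_map (hE : IdealTri E) {f : V → V}
    (hf : ∀ p c q, Tri E p c q → Tri E' (f p) (f c) (f q)) {x y z : V} (h : cyc x y z) :
    cyc (f x) (f y) (f z) := by
  have one : ∀ v p q, E p q → cyc p v q → cyc (f p) (f v) (f q) := fun v => by
    refine PB1_desc hE v (fun p q => cyc (f p) (f v) (f q)) ?_
    intro p q c hpq h1 h2 e1 e2 k1 k2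
    have t := (hf p c q ⟨h2, e1, e2, hpq⟩).1
    rcases PAT1_e h1 h2 with rfl | k | k
    exacts [t, PAT1_c t (k1 k), PAT1_d t (k2 k)]
  have two : ∀ v p q, E p q → cyc p v q → ∀ u, cyc p u q → cyc p v u →
      cyc (f p) (f v) (f u) := fun v => by
    refine PB1_desc hE v (fun p q => ∀ u, cyc p u q → cyc p v u → cyc (f p) (f v) (f u)) ?_
    intro p q c hpq h1 h2 e1 e2 k1 k2 u h3 h4
    have t := (hf p c q ⟨h2, e1, e2, hpq⟩).1
    have a1 := one u c q e2
    have a2 := one v p c e1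
    have key : (v = c ∧ cyc c u q) ∨ (cyc p v c ∧ u = c) ∨ (cyc p v c ∧ cyc p u c) ∨
        (cyc p v c ∧ cyc c u q) ∨ (cyc c v q ∧ cyc c u q ∧ cyc c v u) := by
      clear one k1 k2 a1 a2 t hf h hpq e1 e2 hE
      unfold cyc at *
      grind
    rcases key with ⟨rfl, k⟩ | ⟨k, rfl⟩ | ⟨k, k'⟩ | ⟨k, k'⟩ | ⟨k, k', k''⟩
    · have := a1 k
      clear one k1 k2 a1 a2 hf
      unfold cyc at t this ⊢
      grind
    · exact a2 k
    · exact k1 k u k' h4
    · have b1 := a1 k'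
      have b2 := a2 k
      clear one k1 k2 a1 a2 hf
      unfold cyc at t b1 b2 ⊢
      grind
    · have b1 := a1 k'
      have b2 := k2 k u k' k''
      clear one k1 k2 a1 a2 hf
      unfold cyc at t b1 b2 ⊢
      grind
  obtain ⟨n, hn⟩ := PB1_nbr hE x
  have hn' := hE.symm _ _ hn
  have hne := PB1_ne hE hn
  have key : z = n ∨ (cyc x y n ∧ cyc x z n) ∨ y = n ∨ (cyc x y n ∧ cyc n z x) ∨
      (cyc n y x ∧ cyc n z x ∧ cyc n y z) := by
    clear one two hf hn hn' hE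
    unfold cyc at *
    grind
  rcases key with rfl | ⟨k, k'⟩ | rfl | ⟨k, k'⟩ | ⟨k, k', k''⟩
  · exact one y x z hn h
  · exact two y x n hn k z k' h
  · exact cyc_rot (cyc_rot (one z y x hn' (cyc_rot h)))
  · exact cyc_trans (one y x n hn k) (cyc_rot (cyc_rot (one z n x hn' k')))
  · exact cyc_rot (cyc_rot (cyc_mid (two y n x hn' k z k' k'') (one z n x hn' k')))

theorem map_unique (hE : IdealTri E) (hE' : IdealTri E') {f g : V → V}
    (hf : ∀ p c q, Tri E p c q → Tri E' (f p) (f c) (f q))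
    (hg : ∀ p c q, Tri E p c q → Tri E' (g p) (g c) (g q)) {a b : V} (hab : E a b)
    (ha : f a = g a) (hb : f b = g b) : f = g := by
  have := edge_ind hE hab (fun p q => f p = g p ∧ f q = g q) ⟨ha, hb⟩ (fun _ _ _ h => h.symm)
    fun p c q t h => by
      have t1 := hf p c q t
      rw [h.1, h.2] at t1
      have e := t1.uniq hE' (hg p c q t)
      exact ⟨⟨h.1, e⟩, e, h.2⟩
  funext v
  obtain ⟨n, hn⟩ := PB1_nbr hE v
  exact (this v n hn).1

theorem PI2_ex (hE : IdealTri E) (hE' : IdealTri E') {a b a' b' : V} (hab : E a b)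
    (hab' : E' a' b') : ∃ f : V → V, f a = a' ∧ f b = b' ∧
      ∀ p c q, Tri E p c q → Tri E' (f p) (f c) (f q) :=
  exists_map hE hab E' (Tri E') (fun _ _ _ t => t.rot hE')
    (fun _ _ h => let ⟨c, t⟩ := exists_Tri hE' h; ⟨c, t, t.2.1, t.2.2.1⟩) hab' (hE'.symm _ _ hab')

theorem rigid (hE : IdealTri E) (hE' : IdealTri E') {a b a' b' : V} (hab : E a b)
    (hab' : E' a' b') : ∃ f : Equiv.Perm V, f a = a' ∧ f b = b' ∧
      (∀ p q, E' (f p) (f q) ↔ E p q) ∧ ∀ x y z, cyc (f x) (f y) (f z) ↔ cyc x y z := by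
  obtain ⟨f, f1, f2, hf⟩ := PI2_ex hE hE' hab hab'
  obtain ⟨g, g1, g2, hg⟩ := PI2_ex hE' hE hab' hab
  have gf : ∀ v, g (f v) = v := congrFun (map_unique hE hE (f := fun v => g (f v)) (g := id)
    (fun p c q t => hg _ _ _ (hf p c q t)) (fun _ _ _ t => t) hab (by simp [f1, g1])
    (by simp [f2, g2]))
  have fg : ∀ v, f (g v) = v := congrFun (map_unique hE' hE' (f := fun v => f (g v)) (g := id)
    (fun p c q t => hf _ _ _ (hg p c q t)) (fun _ _ _ t => t) hab' (by simp [f1, g1])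
    (by simp [f2, g2]))
  refine ⟨⟨f, g, gf, fg⟩, f1, f2, fun p q => ⟨fun h => ?_, fun h => ?_⟩,
    fun x y z => ⟨fun h => ?_, cyc_map hE hf⟩⟩
  · obtain ⟨c, t⟩ := exists_Tri hE' h
    have := (hg _ _ _ t).2.2.2
    simpa only [Equiv.coe_fn_mk, gf] using this
  · obtain ⟨c, t⟩ := exists_Tri hE h
    exact (hf _ _ _ t).2.2.2
  · have := cyc_map hE' hg h
    simpa only [Equiv.coe_fn_mk, gf] using this

theorem exists_dev (hE : IdealTri E) {w a : V} (h : E w a) :
    ∃ X Y : V → ℤ, Dev E X Y ∧ X w = 0 ∧ Y w = 0 ∧ X a = 1 ∧ Y a = 0 := by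
  obtain ⟨f, f1, f2, hf⟩ := exists_map hE h (W := ℤ × ℤ) (fun _ _ => True)
    (fun A C B => C.1 - B.1 = -(A.2 - B.2) ∧ C.2 - B.2 = A.1 - B.1 + (A.2 - B.2))
    (fun A C B k => by omega)
    (fun A B _ => ⟨(B.1 - (A.2 - B.2), B.2 + (A.1 - B.1 + (A.2 - B.2))), by
      refine ⟨⟨?_, ?_⟩, trivial, trivial⟩ <;> simp only <;> omega⟩)
    (α := (0, 0)) (β := (1, 0)) trivial trivial
  refine ⟨fun v => (f v).1, fun v => (f v).2, ⟨hf, ?_⟩, by simp [f1], by simp [f1], by simp [f2],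
    by simp [f2]⟩
  refine edge_ind hE h _ (by simp [f1, f2]) (fun p q _ k => by (clear * - k; lia)) fun p c q t k => ?_
  have := hf p c q t
  constructor <;> (clear * - k this; lia)

theorem dev_unique (hE : IdealTri E) {X Y X' Y' : V → ℤ} (h : Dev E X Y) (h' : Dev E X' Y')
    {a b : V} (hab : E a b) {s t : ℤ} (h1 : X' a = X a + s) (h2 : Y' a = Y a + t)
    (h3 : X' b = X b + s) (h4 : Y' b = Y b + t) (v : V) : X' v = X v + s ∧ Y' v = Y v + t := by
  have := edge_ind hE hab (fun p q => (X' p = X p + s ∧ Y' p = Y p + t) ∧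
    (X' q = X q + s ∧ Y' q = Y q + t)) ⟨⟨h1, h2⟩, h3, h4⟩ (fun _ _ _ k => k.symm)
    fun p c q u k => by
      have r1 := h.rule p c q u
      have r2 := h'.rule p c q u
      (clear * - h3 h4 k r1 r2; omega)
  obtain ⟨n, hn⟩ := PB1_nbr hE v
  exact (this v n hn).1

end Pool.Agent.Work.MP_3d425c_gt.Inst
end

-- merged part: Pool.Agent.Work.MP_3d425c_gt.PI5
section
/-! The group of the mapping torus. -/

namespace Pool.Agent.Work.MP_3d425c_gt.Inst
open Classical PA Bor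

variable {V : Type} [LinearOrder V] {E E' E'' : V → V → Prop} {X Y : V → ℤ}

/-- An isomorphism of triangulations. -/
def Iso (E E' : V → V → Prop) (f : Equiv.Perm V) : Prop :=
  (∀ p q, E' (f p) (f q) ↔ E p q) ∧ ∀ x y z, cyc (f x) (f y) (f z) ↔ cyc x y z

/-- `f` induces a translation of the lattice. -/
def Tr (X Y : V → ℤ) (f : V → V) : Prop := ∃ s t, ∀ v, X (f v) = X v + s ∧ Y (f v) = Y v + t

theorem Iso.one : Iso E E 1 := ⟨fun _ _ => Iff.rfl, fun _ _ _ => Iff.rfl⟩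

theorem Iso.mul {f g : Equiv.Perm V} (hf : Iso E' E'' f) (hg : Iso E E' g) : Iso E E'' (f * g) :=
  ⟨fun p q => (hf.1 _ _).trans (hg.1 p q), fun x y z => (hf.2 _ _ _).trans (hg.2 x y z)⟩

theorem Iso.inv {f : Equiv.Perm V} (hf : Iso E E' f) : Iso E' E f⁻¹ :=
  ⟨fun p q => by rw [← hf.1]; simp, fun x y z => by rw [← hf.2]; simp⟩

theorem Iso.tri {f : Equiv.Perm V} (hf : Iso E E' f) (p c q : V) :
    Tri E' (f p) (f c) (f q) ↔ Tri E p c q := by
  simp only [Tri, hf.1, hf.2]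

theorem Iso.dev {f : Equiv.Perm V} (hf : Iso E E' f) (hD : Dev E' X Y) :
    Dev E (fun v => X (f v)) fun v => Y (f v) :=
  ⟨fun p c q h => hD.rule _ _ _ ((hf.tri p c q).2 h), fun p q h => hD.dir _ _ ((hf.1 p q).2 h)⟩

theorem Iso.ext (hE : IdealTri E) (hE' : IdealTri E') {f g : Equiv.Perm V} (hf : Iso E E' f)
    (hg : Iso E E' g) {a b : V} (hab : E a b) (ha : f a = g a) (hb : f b = g b) : f = g :=
  Equiv.ext (congrFun (map_unique hE hE' (fun p c q => (hf.tri p c q).2)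
    (fun p c q => (hg.tri p c q).2) hab ha hb))

theorem Iso.sq {f : Equiv.Perm V} (hf : Iso E E f) (ht : Tr X Y f) (a c b d : V) :
    Sq E X Y (f a) (f c) (f b) (f d) ↔ Sq E X Y a c b d := by
  obtain ⟨s, t, h⟩ := ht
  simp only [Sq, hf.tri, (h _).1, (h _).2]
  exact and_congr_right fun _ => and_congr_right fun _ => by omega

theorem Iso.toFE {f : Equiv.Perm V} (hf : Iso E E f) (ht : Tr X Y f) :
    Iso (FE E X Y) (FE E X Y) f := by
  refine ⟨fun p q => or_congr ?_ ⟨?_, ?_⟩, hf.2⟩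
  · obtain ⟨s, t, h⟩ := ht
    simp only [hf.1, (h _).1, (h _).2]
    exact and_congr_right fun _ => by omega
  · rintro ⟨a, b, h⟩
    obtain ⟨a, rfl⟩ := f.surjective a
    obtain ⟨b, rfl⟩ := f.surjective b
    exact ⟨a, b, (hf.sq ht _ _ _ _).1 h⟩
  · rintro ⟨a, b, h⟩
    exact ⟨_, _, (hf.sq ht _ _ _ _).2 h⟩

theorem exists_iso (hE : IdealTri E) (hD : Dev E X Y) {a b a' b' : V} (h : E a b) (h' : E a' b')
    (h1 : X a' - X b' = X a - X b) (h2 : Y a' - Y b' = Y a - Y b) :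
    ∃ f, Iso E E f ∧ Tr X Y f ∧ f a = a' ∧ f b = b' := by
  obtain ⟨f, e1, e2, hf⟩ := rigid hE hE h h'
  refine ⟨f, hf, ⟨X a' - X a, Y a' - Y a, dev_unique hE hD (Iso.dev hf hD) h ?_ ?_ ?_ ?_⟩, e1, e2⟩
  all_goals simp only [e1, e2]; omega

theorem Iso.ofFE (hE : IdealTri E) (hD : Dev E X Y) {w a : V} (h : E w a)
    (hX : X a = X w + 1) (hY : Y a = Y w) {f : Equiv.Perm V} (hf : Iso (FE E X Y) (FE E X Y) f)
    (ht : Tr X Y f) : Iso E E f := by
  obtain ⟨s, t, k⟩ := ht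
  have k1 := k w
  have k2 := k a
  have h1 : FE E X Y w a := Or.inl ⟨h, by omega⟩
  have h2 : E (f w) (f a) := by
    rcases (hf.1 w a).2 h1 with e | ⟨p, q, e1, e2, e3⟩
    · exact e.1
    · have := hD.rule _ _ _ e1
      have := hD.rule _ _ _ e2
      have := hD.dir _ _ e1.2.2.2
      omega
  obtain ⟨g, g1, g2, g3, g4⟩ := exists_iso hE hD h h2 (by omega) (by omega)
  rw [hf.ext (flip_tri hE hD) (flip_tri hE hD) (g1.toFE g2) h1 g3.symm g4.symm]
  exact g1

theorem PI5_bary (f : Equiv.Perm V) (a b c : V) (s t u : ℝ) :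
    bary a b c s t u ∘ f.symm = bary (f a) (f b) (f c) s t u := by
  funext v
  simp only [Function.comp, bary, Pi.add_apply, Pi.single_apply, Equiv.symm_apply_eq]

theorem PI5_mem {f : Equiv.Perm V} (hf : Iso E E' f) {x : V → ℝ} (hx : x ∈ Disc E) :
    x ∘ f.symm ∈ Disc E' := by
  obtain ⟨a, b, c, h1, h2, h3, hx⟩ := hx
  obtain ⟨s, t, u, k1, k2, k3, k4, rfl⟩ := PB1_hull.1 hx
  refine ⟨f a, f b, f c, (hf.1 _ _).2 h1, (hf.1 _ _).2 h2, (hf.1 _ _).2 h3,
    PB1_hull.2 ⟨s, t, u, k1, k2, k3, k4, ?_⟩⟩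
  rw [← PB1_smul, ← PB1_smul, PI5_bary]

/-- The simplicial homeomorphism of an isomorphism. -/
def push {f : Equiv.Perm V} (hf : Iso E E' f) : Disc E ≃ₜ Disc E' where
  toFun x := ⟨x.1 ∘ f.symm, PI5_mem hf x.2⟩
  invFun x := ⟨x.1 ∘ f.symm.symm, PI5_mem hf.inv x.2⟩
  left_inv x := Subtype.ext (funext fun v => congrArg x.1 (f.symm_apply_apply v))
  right_inv x := Subtype.ext (funext fun v => congrArg x.1 (f.apply_symm_apply v))
  continuous_toFun := Continuous.subtype_mk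
    (show Continuous fun x : Disc E => x.1 ∘ f.symm from
      continuous_pi fun v => (continuous_apply (f.symm v)).comp continuous_subtype_val) _
  continuous_invFun := Continuous.subtype_mk
    (show Continuous fun x : Disc E' => x.1 ∘ f.symm.symm from
      continuous_pi fun v => (continuous_apply (f v)).comp continuous_subtype_val) _

theorem push_apply {f : Equiv.Perm V} (hf : Iso E E' f) (x : Disc E) (v : V) :
    (push hf x).1 (f v) = x.1 v := congrArg x.1 (f.symm_apply_apply v)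

theorem ht_push (hE : IdealTri E) {f : Equiv.Perm V} (hf : Iso E E' f) (φ : V → ℝ) (x : Disc E) :
    ht φ (push hf x).1 = ht (fun v => φ (f v)) x.1 := by
  obtain ⟨a, b, c, s, t, u, -, -, -, -, -, -, -, -, e⟩ := (mem_disc hE).1 x.2
  change ht φ (x.1 ∘ f.symm) = _
  rw [e, PI5_bary, ht_bary, ht_bary]

theorem ht_aff (hE : IdealTri E) {φ ψ : V → ℝ} {r t : ℝ} (h : ∀ v, ψ v = r * φ v + t)
    (x : Disc E) : ht ψ x.1 = r * ht φ x.1 + t := by
  obtain ⟨a, b, c, s, t', u, -, -, -, -, -, -, -, k, e⟩ := (mem_disc hE).1 x.2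
  rw [e, ht_bary, ht_bary, h, h, h]
  linear_combination t * k

theorem con_simp {h : Disc E → Disc E'} {f : Equiv.Perm V}
    (hh : ∀ (x : Disc E) v, (h x).1 (f v) = x.1 v) (w : V) : Con h w (f w) := by
  refine ⟨1, 1, one_pos, one_pos, fun x _ => ⟨by rw [hh, one_mul], fun s x' _ _ e => ?_⟩⟩
  funext v
  obtain ⟨v, rfl⟩ := f.surjective v
  rw [hh, e]
  simp only [Pi.add_apply, Pi.smul_apply, Pi.single_apply, hh, f.apply_eq_iff_eq]

theorem Con.comp {h : Disc E → Disc E'} {h' : Disc E' → Disc E''} {w₁ w₂ w₃ : V}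
    (k' : Con h' w₂ w₃) (k : Con h w₁ w₂) : Con (fun x => h' (h x)) w₁ w₃ := by
  obtain ⟨δ, C, d0, c0, k⟩ := k
  obtain ⟨δ', C', d0', c0', k'⟩ := k'
  refine ⟨min δ (δ' / C), C' * C, by positivity, by positivity, fun x hx => ?_⟩
  obtain ⟨a1, a2⟩ := k x (by linarith [min_le_left δ (δ' / C)])
  have a3 : C * (1 - x.1 w₁) ≤ δ' := by
    rw [mul_comm, ← le_div_iff₀ c0]
    linarith [min_le_right δ (δ' / C)]
  obtain ⟨b1, b2⟩ := k' (h x) (by linarith)
  refine ⟨b1.trans ?_, fun s x' s0 s1 e => b2 s _ s0 s1 (a2 s x' s0 s1 e)⟩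
  rw [mul_assoc]
  exact mul_le_mul_of_nonneg_left a1 c0'.le

/-- The ambient group. -/
abbrev Big (E : V → V → Prop) : Type := Equiv.Perm V × Equiv.Perm (Disc E) × Multiplicative ℤ

/-- The simplicial maps that induce translations. -/
def Kg (E : V → V → Prop) (X Y : V → ℤ) : Subgroup (Big E) where
  carrier := {g | Iso E E g.1 ∧ Tr X Y g.1 ∧ (∀ x v, (g.2.1 x).1 (g.1 v) = x.1 v) ∧ g.2.2 = 1}
  one_mem' := ⟨Iso.one, ⟨0, 0, fun v => by simp⟩, fun _ _ => rfl, rfl⟩
  mul_mem' := by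
    rintro g h ⟨a1, ⟨s, t, a2⟩, a3, a4⟩ ⟨b1, ⟨s', t', b2⟩, b3, b4⟩
    refine ⟨a1.mul b1, ⟨s + s', t + t', fun v => ?_⟩, fun x v => (a3 _ _).trans (b3 x v), ?_⟩
    · have := a2 (h.1 v)
      have := b2 v
      simp only [Prod.fst_mul, Equiv.Perm.mul_apply]
      omega
    · simp [a4, b4]
  inv_mem' := by
    rintro g ⟨a1, ⟨s, t, a2⟩, a3, a4⟩
    refine ⟨a1.inv, ⟨-s, -t, fun v => ?_⟩, fun x v => ?_, by simp [a4]⟩
    · have := a2 (g.1⁻¹ v)
      simp only [Prod.fst_inv, Equiv.Perm.coe_inv, Equiv.apply_symm_apply] at this ⊢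
      omega
    · have := a3 (g.2.1⁻¹ x) (g.1⁻¹ v)
      simp only [Equiv.Perm.coe_inv, Equiv.apply_symm_apply] at this
      exact this.symm

/-- The homeomorphisms that stretch the height `y`. -/
def Gg (E : V → V → Prop) (y : V → ℝ) {lam : ℝ} (hl : lam ≠ 0) : Subgroup (Big E) where
  carrier := {g | (∀ a b c, cyc (g.1 a) (g.1 b) (g.1 c) ↔ cyc a b c) ∧
    (∀ x w, (g.2.1 x).1 (g.1 w) = 1 ↔ x.1 w = 1) ∧ Continuous g.2.1 ∧ Continuous g.2.1.symm ∧
    ∃ t, ∀ x, ht y (g.2.1 x).1 = lam ^ g.2.2.toAdd * ht y x.1 + t}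
  one_mem' := ⟨fun _ _ _ => Iff.rfl, fun _ _ => Iff.rfl, continuous_id, continuous_id, 0,
    fun x => by simp⟩
  mul_mem' := by
    rintro g h ⟨a1, a2, a3, a4, s, a5⟩ ⟨b1, b2, b3, b4, t, b5⟩
    refine ⟨fun a b c => (a1 _ _ _).trans (b1 a b c), fun x w => (a2 _ _).trans (b2 x w),
      a3.comp b3, b4.comp a4, lam ^ g.2.2.toAdd * t + s, fun x => (a5 _).trans ?_⟩
    rw [b5, Prod.snd_mul, Prod.snd_mul, toAdd_mul, zpow_add₀ hl]
    ring
  inv_mem' := by
    rintro g ⟨a1, a2, a3, a4, s, a5⟩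
    refine ⟨fun a b c => by rw [← a1]; simp, fun x w => by rw [← a2]; simp, a4, a3,
      -(lam ^ g.2.2.toAdd)⁻¹ * s, fun x => ?_⟩
    have := a5 (g.2.1⁻¹ x)
    have h0 := zpow_ne_zero g.2.2.toAdd hl
    rw [show g.2.1 (g.2.1⁻¹ x) = x from g.2.1.apply_symm_apply x] at this
    rw [this, Prod.snd_inv, Prod.snd_inv, Prod.fst_inv, toAdd_inv, zpow_neg]
    field_simp
    ring

theorem Kg_le (hE : IdealTri E) (α β : ℝ) {lam : ℝ} (hl : lam ≠ 0) :
    Kg E X Y ≤ Gg E (fun v => α * X v + β * Y v) hl := by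
  rintro g ⟨a1, ⟨s, t, a2⟩, a3, a4⟩
  have e : ∀ x, g.2.1 x = push a1 x := fun x => Subtype.ext (funext fun v => by
    obtain ⟨v, rfl⟩ := g.1.surjective v
    rw [a3, push_apply])
  have e' : g.2.1 = (push a1).toEquiv := Equiv.ext e
  refine ⟨a1.2, fun x w => by rw [a3], e' ▸ (push a1).continuous, e' ▸ (push a1).symm.continuous,
    α * s + β * t, fun x => ?_⟩
  rw [e, ht_push hE, a4]
  refine ht_aff hE (fun v => ?_) x
  rw [(a2 v).1, (a2 v).2]
  simp only [toAdd_one, zpow_zero]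
  push_cast
  ring

/-- A simplicial map to the flipped triangulation, followed by the flip. -/
theorem exists_rho (hE : IdealTri E) (hD : Dev E X Y) {w a : V} (hwa : E w a)
    (hX : X a = X w + 1) (hY : Y a = Y w) {f : Equiv.Perm V} (hf : Iso E (FE E X Y) f)
    (h1 : ∀ g : V → V, Tr X Y g → Tr X Y fun v => f (g (f.symm v)))
    (h2 : ∀ g : V → V, Tr X Y g → Tr X Y fun v => f.symm (g (f v))) :
    ∃ h : Disc E ≃ₜ Disc E, (∀ x v, (h x).1 (f v) = 1 ↔ x.1 v = 1) ∧ (∀ v, Con h v (f v)) ∧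
      (∀ (α β : ℝ) (x : Disc E), ht (fun v => α * X v + β * Y v) (h x).1 =
        ht (fun v => α * X (f v) + β * Y (f v)) x.1) ∧
      ∀ n, ((f, h.toEquiv, n) : Big E) ∈ Subgroup.normalizer (Kg E X Y : Set (Big E)) := by
  obtain ⟨T, t1, t2, t3, t4, t5⟩ := exists_flip (flip_data hE hD)
  have nat : ∀ π : Equiv.Perm V, Iso E E π → Tr X Y π → ∀ x z : Disc (FE E X Y),
      (∀ v, z.1 (π v) = x.1 v) → ∀ v, (T z).1 (π v) = (T x).1 v := by
    intro π p1 p2 x z e v
    obtain ⟨c, b, d, a, q1, q2⟩ := t2 x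
    rw [t1 x c b d a q1 q2, t1 z (π c) (π b) (π d) (π a) ((p1.sq p2 _ _ _ _).2 q1) fun u hu => by
      obtain ⟨u, rfl⟩ := π.surjective u
      rw [e] at hu
      simpa only [In4, π.apply_eq_iff_eq] using q2 u hu]
    simp only [Pi.add_apply, Pi.smul_apply, Pi.sub_apply, Pi.single_apply, e, π.apply_eq_iff_eq]
  refine ⟨(push hf).trans T, fun x v => (t3 _ _).trans (by rw [← push_apply hf x v]; rfl),
    fun v => (t4 (f v)).comp (con_simp (push_apply hf) v), fun α β x => ?_, fun n => ?_⟩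
  · rw [← ht_push hE hf (fun v => α * X v + β * Y v)]
    refine t5 _ (fun c b d a q => ?_) _
    have := hD.rule _ _ _ q.1
    have := hD.rule _ _ _ q.2.1
    have e1 : (X c : ℝ) + X d = X b + X a := by exact_mod_cast (by omega : X c + X d = X b + X a)
    have e2 : (Y c : ℝ) + Y d = Y b + Y a := by exact_mod_cast (by omega : Y c + Y d = Y b + Y a)
    linear_combination α * e1 + β * e2
  rw [Subgroup.mem_normalizer_iff]
  rintro ⟨π, k, m⟩
  constructor
  · rintro ⟨a1, a2, a3, a4⟩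
    have b2 : Tr X Y (f * π * f⁻¹ : Equiv.Perm V) := h1 _ a2
    have b1 : Iso E E (f * π * f⁻¹) := ((hf.mul a1).mul hf.inv).ofFE hE hD hwa hX hY b2
    refine ⟨b1, b2, fun x v => ?_, by simp [show m = 1 from a4]⟩
    obtain ⟨x, rfl⟩ := ((push hf).trans T).surjective x
    have e : ((((f, ((push hf).trans T).toEquiv, n) * (π, k, m) *
        (f, ((push hf).trans T).toEquiv, n)⁻¹ : Big E)).2.1 ((push hf).trans T x)) =
        T (push hf (k x)) :=
      congrArg (fun z => T (push hf (k z))) (((push hf).trans T).toEquiv.symm_apply_apply x)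
    rw [e]
    refine nat _ b1 b2 _ _ (fun u => ?_) v
    obtain ⟨u, rfl⟩ := f.surjective u
    rw [show (f * π * f⁻¹) (f u) = f (π u) by simp, push_apply]
    exact (a3 x u).trans (push_apply hf x u).symm
  · rintro ⟨a1, a2, a3, a4⟩
    have a1 : Iso E E (f * π * f⁻¹) := a1
    have a2 : Tr X Y (f * π * f⁻¹ : Equiv.Perm V) := a2
    have b1 : Iso E E π := by
      have := hf.inv.mul ((a1.toFE a2).mul hf)
      rwa [show f⁻¹ * (f * π * f⁻¹ * f) = π by group] at this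
    have b2 : Tr X Y π := by simpa using h2 _ a2
    refine ⟨b1, b2, fun x v => ?_, by simpa using a4⟩
    have e : T (push hf (k x)) = T (push hf (push b1 x)) := by
      refine Subtype.ext (funext fun u => ?_)
      obtain ⟨u, rfl⟩ := (f * π * f⁻¹).surjective u
      have e1 := a3 ((push hf).trans T x) u
      have e2 : ((((f, ((push hf).trans T).toEquiv, n) * (π, k, m) *
          (f, ((push hf).trans T).toEquiv, n)⁻¹ : Big E)).2.1 ((push hf).trans T x)) =
          T (push hf (k x)) :=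
        congrArg (fun z => T (push hf (k z))) (((push hf).trans T).toEquiv.symm_apply_apply x)
      rw [e2] at e1
      refine e1.trans (nat _ a1 a2 _ _ (fun u => ?_) u).symm
      obtain ⟨u, rfl⟩ := f.surjective u
      rw [show (f * π * f⁻¹) (f u) = f (π u) by simp, push_apply, push_apply]
      exact (push_apply hf x u).symm
    change (k x).1 (π v) = _
    rw [(push hf).injective (T.injective e), push_apply]

theorem exists_group (hE : IdealTri E) (hD : Dev E X Y) {w a b : V} (hT : Tri E w a b)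
    (h1 : X w = 0) (h2 : Y w = 0) (h3 : X a = 1) (h4 : Y a = 0) {φ : ℝ} (hφ : φ ^ 2 = φ + 1) :
    ∃ (Γ : Type) (_ : Group Γ) (_ : MulAction Γ V) (_ : MulAction Γ (Disc E))
      (_ : ContinuousConstSMul Γ (Disc E)) (deg : Γ → ℤ) (μ : Γ),
      (∀ g h, deg (g * h) = deg g + deg h) ∧
      (∀ (g : Γ) (a b c : V), cyc a b c → cyc (g • a) (g • b) (g • c)) ∧
      (∀ (g : Γ) (w : V) (x : Disc E), x.1 w = 1 → (g • x).1 (g • w) = 1) ∧
      (∀ g : Γ, ∃ t : ℝ, ∀ x : Disc E, ht (fun v => φ * X v + 1 * Y v) (g • x).1 =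
        (φ ^ 2) ^ deg g * ht (fun v => φ * X v + 1 * Y v) x.1 + t) ∧
      (∀ g : Γ, deg g = 0 → (∀ (x : Disc E) (v : V), (g • x).1 (g • v) = x.1 v) ∧
        Iso E E (MulAction.toPerm g) ∧ Tr X Y fun v => g • v) ∧
      (∀ g : Γ, deg g = 0 → (∀ v : V, g • v = v) → g = 1) ∧
      (∀ π, Iso E E π → Tr X Y π → ∃ g : Γ, deg g = 0 ∧ ∀ v, g • v = π v) ∧
      deg μ = 1 ∧ μ • w = w ∧ Con (fun x : Disc E => μ • x) w w := by
  have hl : φ ^ 2 ≠ 0 := fun h => by
    have h0 := pow_eq_zero_iff two_ne_zero |>.1 h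
    rw [h, h0] at hφ
    norm_num at hφ
  obtain ⟨h5, h6⟩ := hD.rule _ _ _ (hT.rot hE)
  have hF := flip_tri hE hD
  have hD' := flip_dev hE hD
  obtain ⟨f, f1, f2, hf⟩ := rigid hE hF hT.2.1 (Or.inl ⟨hT.2.1, by omega⟩)
  obtain ⟨g, g1, g2, hg⟩ := rigid hE hF hT.2.2.2 (Or.inl ⟨hT.2.2.2, by omega⟩)
  have f3 : ∀ v, X (f v) - Y (f v) = X v + 0 ∧ Y (f v) = Y v + 0 :=
    dev_unique hE hD (Iso.dev hf hD') hT.2.1 (by simp only [f1]; omega) (by simp only [f1]; omega)
      (by simp only [f2]; omega) (by simp only [f2]; omega)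
  have g3 : ∀ v, X (g v) - Y (g v) + Y (g v) = X v + 0 ∧ -(X (g v) - Y (g v)) = Y v + 0 :=
    dev_unique hE hD (Iso.dev hg (hD'.rotate hF)) hT.2.2.2 (by simp only [g1]; omega)
      (by simp only [g1]; omega) (by simp only [g2]; omega) (by simp only [g2]; omega)
  obtain ⟨F, F1, F2, F3, F4⟩ := exists_rho hE hD hT.2.1 (by omega) (by omega) hf
    (fun k ⟨s, t, hk⟩ => ⟨s + t, t, fun v => by
      have := f3 (k (f.symm v))
      have := hk (f.symm v)
      have := f3 (f.symm v)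
      rw [f.apply_symm_apply] at this
      beta_reduce
      omega⟩)
    (fun k ⟨s, t, hk⟩ => ⟨s - t, t, fun v => by
      have := f3 v
      have := hk (f v)
      have := f3 (f.symm (k (f v)))
      rw [f.apply_symm_apply] at this
      beta_reduce
      omega⟩)
  obtain ⟨G, G1, G2, G3, G4⟩ := exists_rho hE hD hT.2.1 (by omega) (by omega) hg
    (fun k ⟨s, t, hk⟩ => ⟨s, s + t, fun v => by
      have := g3 (k (g.symm v))
      have := hk (g.symm v)
      have := g3 (g.symm v)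
      rw [g.apply_symm_apply] at this
      beta_reduce
      omega⟩)
    (fun k ⟨s, t, hk⟩ => ⟨s, t - s, fun v => by
      have := g3 v
      have := hk (g v)
      have := g3 (g.symm (k (g v)))
      rw [g.apply_symm_apply] at this
      beta_reduce
      omega⟩)
  obtain ⟨μ, hμ⟩ : ∃ μ : Big E,
    μ = (f, F.toEquiv, Multiplicative.ofAdd 1) * (g, G.toEquiv, 1) := ⟨_, rfl⟩
  have m1 : μ ∈ Subgroup.normalizer (Kg E X Y : Set (Big E)) := hμ ▸ mul_mem (F4 _) (G4 _)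
  have m2 : μ.2.2 = Multiplicative.ofAdd 1 := by rw [hμ]; rfl
  have m3 : μ ∈ Gg E (fun v => φ * X v + 1 * Y v) hl := by
    rw [hμ]
    refine ⟨fun a b c => (hf.2 _ _ _).trans (hg.2 a b c), fun x v => (F1 _ _).trans (G1 x v),
      F.continuous.comp G.continuous, G.symm.continuous.comp F.symm.continuous, 0, fun x => ?_⟩
    have e1 : (fun v => φ * X (f v) + 1 * Y (f v)) = fun v => φ * X v + (φ + 1) * Y v := by
      funext v
      rw [show X (f v) = X v + Y v by have := f3 v; omega, show Y (f v) = Y v by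
        have := f3 v; omega]
      push_cast
      ring
    refine (F3 φ 1 (G x)).trans ?_
    rw [e1, G3]
    refine ht_aff hE (fun v => ?_) x
    rw [show X (g v) = X v by have := g3 v; omega, show Y (g v) = X v + Y v by
      have := g3 v; omega]
    change _ = (φ ^ 2) ^ (1 + 0 : ℤ) * _ + _
    rw [add_zero (1 : ℤ), zpow_one]
    push_cast
    linear_combination (-(φ + 1) * X v - Y v) * hφ
  let Γ : Subgroup (Big E) :=
    { carrier := {k | ∃ n : ℤ, k * μ ^ (-n) ∈ Kg E X Y}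
      one_mem' := ⟨0, by simp⟩
      mul_mem' := by
        rintro k l ⟨n, hk⟩ ⟨m, hl⟩
        refine ⟨n + m, ?_⟩
        have := mul_mem hk ((Subgroup.mem_normalizer_iff.1 (zpow_mem m1 n) _).1 hl)
        convert this using 1
        group
      inv_mem' := by
        rintro k ⟨n, hk⟩
        refine ⟨-n, ?_⟩
        have := (Subgroup.mem_normalizer_iff.1 (zpow_mem m1 (-n)) _).1 (inv_mem hk)
        convert this using 1
        group }
  have hG : ∀ k : Γ, k.1 ∈ Gg E (fun v => φ * X v + 1 * Y v) hl := by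
    rintro ⟨k, n, hk⟩
    have := mul_mem (Kg_le hE φ 1 hl hk) (zpow_mem m3 n)
    convert this using 1
    group
  have hK : ∀ k : Γ, k.1.2.2.toAdd = 0 → k.1 ∈ Kg E X Y := by
    rintro ⟨k, n, hk⟩ h
    have e := congrArg Multiplicative.toAdd hk.2.2.2
    simp only [Prod.snd_mul, Prod.pow_snd, m2, toAdd_mul, toAdd_zpow, toAdd_ofAdd,
      toAdd_one, smul_eq_mul] at e h
    have : n = 0 := by omega
    simpa [this] using hk
  let _ : MulAction Γ V := MulAction.compHom V ((MonoidHom.fst _ _).comp Γ.subtype)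
  let _ : MulAction Γ (Disc E) := MulAction.compHom (Disc E)
    ((MonoidHom.fst _ _).comp ((MonoidHom.snd _ _).comp Γ.subtype))
  refine ⟨Γ, inferInstance, inferInstance, inferInstance, ⟨fun k => (hG k).2.2.1⟩,
    fun k => k.1.2.2.toAdd, ⟨μ, 1, by simp⟩, fun _ _ => rfl,
    fun k a b c h => ((hG k).1 a b c).2 h, fun k v x h => ((hG k).2.1 x v).2 h,
    fun k => (hG k).2.2.2.2, fun k h => ⟨(hK k h).2.2.1, (hK k h).1, (hK k h).2.1⟩,
    fun k h e => ?_, fun π p1 p2 => ?_, congrArg Multiplicative.toAdd m2, ?_, ?_⟩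
  · have e' : k.1.1 = 1 := Equiv.ext e
    refine Subtype.ext (Prod.ext e' (Prod.ext (Equiv.ext fun x => Subtype.ext (funext fun v => ?_))
      (hK k h).2.2.2))
    have := (hK k h).2.2.1 x v
    rwa [e'] at this
  · exact ⟨⟨(π, (push p1).toEquiv, 1), 0, by
      rw [neg_zero, zpow_zero, mul_one]
      exact ⟨p1, p2, push_apply p1, rfl⟩⟩, rfl, fun _ => rfl⟩
  · change μ.1 w = w
    rw [hμ]
    exact (congrArg f g1).trans f1
  · change Con (fun x => μ.2.1 x) w w
    have := (F2 (g w)).comp (G2 w)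
    rw [g1, f1] at this
    rw [hμ]
    exact this

end Pool.Agent.Work.MP_3d425c_gt.Inst
end

-- merged part: Pool.Agent.Work.MP_3d425c_gt.PI11
section
/-! Fans of neighbours and proper discontinuity. -/

namespace Pool.Agent.Work.MP_3d425c_gt.Inst
open Classical PA Bor Filter Topology

variable {V : Type} [LinearOrder V] {E : V → V → Prop} {X Y : V → ℤ} {w : V} {a : ℤ → V}

theorem Fan.lt (hF : Fan E w a) {k l : ℤ} (h : k < l) : cyc w (a k) (a l) :=
  Int.leInduction (motive := fun n _ => cyc w (a k) (a n)) (hF k).1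
    (fun n _ ih => cyc_trans ih (hF n).1) l h

theorem Fan.le (hF : Fan E w a) {k l : ℤ} (h : k ≤ l) : cle w (a k) (a l) := by
  rcases h.eq_or_lt with rfl | h
  exacts [Or.inl rfl, Or.inr (hF.lt h)]

theorem Fan.inj (hF : Fan E w a) {k l : ℤ} (h : a k = a l) : k = l := by
  by_contra hn
  rcases lt_or_gt_of_ne hn with q | q
  exacts [(cyc_ne (hF.lt q)).2.1 h, (cyc_ne (hF.lt q)).2.1 h.symm]

theorem Fan.cof (hE : IdealTri E) (hF : Fan E w a) {u : V} (hu : u ≠ w) :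
    ∃ k, cle w (a k) u ∧ cyc w u (a (k + 1)) :=
  PB3_cof hE a (fun k => (hF k).2.1) (fun k => (hF k).1) hu

theorem Fan.nbr (hE : IdealTri E) (hF : Fan E w a) {v : V} (h : E w v) : ∃ j, v = a j := by
  obtain ⟨k, h1 | h1, h2⟩ := hF.cof hE (PB1_ne hE h).symm
  · exact ⟨k, h1.symm⟩
  · exact (hE.nocross _ _ _ _ (hF k).2.2.1 (hE.symm _ _ h) (cyc_mid h1 h2)
      (cyc_rot (cyc_rot (hF k).1))).elim

theorem Fan.dev (hE : IdealTri E) (hD : Dev E X Y) (hF : Fan E w a) (k : ℤ) :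
    X (a (k + 1)) - X w = -(Y (a k) - Y w) ∧
      Y (a (k + 1)) - Y w = X (a k) - X w + (Y (a k) - Y w) :=
  hD.rule _ _ _ ((hF k).rot hE)

theorem Fan.three (hE : IdealTri E) (hD : Dev E X Y) (hF : Fan E w a) (k : ℤ) :
    X (a (k + 3)) - X w = -(X (a k) - X w) ∧ Y (a (k + 3)) - Y w = -(Y (a k) - Y w) := by
  have h0 := hF.dev hE hD k
  have h1 := hF.dev hE hD (k + 1)
  have h2 := hF.dev hE hD (k + 1 + 1)
  rw [show k + 1 + 1 + 1 = k + 3 by ring] at h2
  omega

theorem Fan.six (hE : IdealTri E) (hD : Dev E X Y) (hF : Fan E w a) (k m : ℤ) :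
    X (a (k + 6 * m)) = X (a k) ∧ Y (a (k + 6 * m)) = Y (a k) := by
  have s : ∀ j, X (a (j + 3 + 3)) = X (a j) ∧ Y (a (j + 3 + 3)) = Y (a j) := fun j => by
    have := hF.three hE hD j
    have := hF.three hE hD (j + 3)
    omega
  induction m with
  | zero => simp
  | succ n ih =>
    have := s (k + 6 * n)
    rw [show k + 6 * (n + 1 : ℤ) = k + 6 * n + 3 + 3 by ring]
    omega
  | pred n ih =>
    have := s (k + 6 * (-n - 1))
    rw [show k + 6 * (-n - 1 : ℤ) + 3 + 3 = k + 6 * -n by ring] at this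
    omega

theorem Fan.dvd (hE : IdealTri E) (hD : Dev E X Y) (hF : Fan E w a) {j : ℤ}
    (h1 : X (a j) = X (a 0)) (h2 : Y (a j) = Y (a 0)) : ∃ m, j = 6 * m := by
  refine ⟨j / 6, ?_⟩
  have h3 := hF.six hE hD (j % 6) (j / 6)
  rw [show j % 6 + 6 * (j / 6) = j by omega] at h3
  have d := hD.dir _ _ (hF 0).2.1
  have e0 := hF.dev hE hD 0
  have e1 := hF.dev hE hD 1
  have e2 := hF.dev hE hD 2
  have e3 := hF.dev hE hD 3
  have e4 := hF.dev hE hD 4
  norm_num at e0 e1 e2 e3 e4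
  rcases (by omega : j % 6 = 0 ∨ j % 6 = 1 ∨ j % 6 = 2 ∨ j % 6 = 3 ∨ j % 6 = 4 ∨ j % 6 = 5) with
    e | e | e | e | e | e <;> rw [e] at h3 <;> omega

theorem Fan.shift (hE : IdealTri E) (hF : Fan E w a) {f : Equiv.Perm V} (hf : Iso E E f)
    (h0 : f w = w) {j : ℤ} (h1 : f (a 0) = a j) (k : ℤ) : f (a k) = a (k + j) := by
  have t : ∀ k, Tri E w (f (a k)) (f (a (k + 1))) := fun k => by
    have := (hf.tri _ _ _).2 (hF k)
    rwa [h0] at this
  induction k with
  | zero => rwa [zero_add]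
  | succ n ih =>
    have := t n
    rw [ih] at this
    rw [add_right_comm]
    exact (this.rot hE).uniq hE ((hF _).rot hE)
  | pred n ih =>
    have := t (-n - 1)
    rw [sub_add_cancel, ih, show -(n : ℤ) + j = -n - 1 + j + 1 by ring] at this
    exact this.uniq hE (hF _)

theorem exists_fan (hE : IdealTri E) {w a₀ : V} (h : E w a₀) : ∃ a, Fan E w a ∧ a 0 = a₀ := by
  obtain ⟨c, hc⟩ := exists_Tri hE (hE.symm _ _ h)
  have hT := (hc.rot hE).rot hE
  obtain ⟨σ, s1, s2, hσ⟩ := rigid hE hE h hT.2.2.2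
  let G : Subgroup (Equiv.Perm V) :=
    { carrier := {f | Iso E E f}
      one_mem' := Iso.one
      mul_mem' := Iso.mul
      inv_mem' := Iso.inv }
  refine ⟨fun k => (σ ^ k) a₀, fun k => ?_, rfl⟩
  have := (Iso.tri (zpow_mem (show σ ∈ G from hσ) k) _ _ _).2 hT
  rw [Equiv.Perm.zpow_apply_eq_self_of_apply_eq_self s1, ← s2] at this
  beta_reduce
  rw [zpow_add_one]
  exact this

theorem exists_dir (hE : IdealTri E) (hD : Dev E X Y) (v : V) :
    ∃ u, E v u ∧ X u = X v + 1 ∧ Y u = Y v := by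
  obtain ⟨u, hu⟩ := PB1_nbr hE v
  obtain ⟨a, hF, -⟩ := exists_fan hE hu
  by_contra hn
  have h : ∀ k, ¬ (X (a k) = X v + 1 ∧ Y (a k) = Y v) := fun k e => hn ⟨_, (hF k).2.1, e⟩
  have d := hD.dir _ _ (hF 0).2.1
  have e0 := hF.dev hE hD 0
  have e1 := hF.dev hE hD 1
  have e2 := hF.dev hE hD 2
  have e3 := hF.dev hE hD 3
  have e4 := hF.dev hE hD 4
  norm_num at e0 e1 e2 e3 e4
  rcases d with d | d | d | d | d | d
  exacts [h 3 (by (clear * - d e0 e1 e2 e3 e4; lia)), h 2 (by (clear * - d e0 e1 e2 e3 e4; lia)), h 1 (by (clear * - d e0 e1 e2 e3 e4; lia)), h 0 (by (clear * - d e0 e1 e2 e3 e4; lia)), h 5 (by (clear * - d e0 e1 e2 e3 e4; lia)),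
    h 4 (by (clear * - d e0 e1 e2 e3 e4; lia))]

theorem dev_edge (hD : Dev E X Y) {α β : ℝ}
    (hinj : ∀ m n : ℤ, α * m + β * n = 0 → m = 0 ∧ n = 0) {p q : V} (h : E p q) :
    α * X p + β * Y p ≠ α * X q + β * Y q := fun e => by
  have := hinj (X p - X q) (Y p - Y q) (by push_cast; linear_combination e)
  have := hD.dir p q h
  omega

theorem Fan.sign (hE : IdealTri E) (hD : Dev E X Y) (hF : Fan E w a) {α β : ℝ}
    (hinj : ∀ m n : ℤ, α * m + β * n = 0 → m = 0 ∧ n = 0) {y : V → ℝ}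
    (hy : ∀ v, y v = α * X v + β * Y v) (k : ℤ) :
    ∃ j, k ≤ j ∧ j < k + 3 ∧ (y (a j) - y w) * (y (a (j + 1)) - y w) < 0 := by
  have n : ∀ j, y (a j) - y w ≠ 0 := fun j => by
    rw [hy, hy]
    exact sub_ne_zero.2 (dev_edge hD hinj (hF j).2.1).symm
  have t : y (a (k + 1 + 1 + 1)) - y w = -(y (a k) - y w) := by
    obtain ⟨t1, t2⟩ := hF.three hE hD k
    have t1 := congrArg (Int.cast : ℤ → ℝ) t1
    have t2 := congrArg (Int.cast : ℤ → ℝ) t2
    push_cast at t1 t2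
    rw [show k + 1 + 1 + 1 = k + 3 by ring, hy, hy, hy]
    linear_combination α * t1 + β * t2
  by_contra hn
  have h : ∀ j, k ≤ j → j < k + 3 → 0 < (y (a j) - y w) * (y (a (j + 1)) - y w) := fun j h1 h2 =>
    lt_of_le_of_ne (not_lt.1 fun e => hn ⟨j, h1, h2, e⟩) (mul_ne_zero (n _) (n _)).symm
  have h0 := mul_pos_iff.1 (h k le_rfl (by omega))
  have h1 := mul_pos_iff.1 (h (k + 1) (by omega) (by omega))
  have h2 := mul_pos_iff.1 (h (k + 1 + 1) (by omega) (by omega))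
  rw [t] at h2
  rcases h0 with h0 | h0 <;> rcases h1 with h1 | h1 <;> rcases h2 with h2 | h2 <;>
    linarith [h0.1, h0.2, h1.1, h1.2, h2.1, h2.2]

theorem dev_proper (hE : IdealTri E) (hD : Dev E X Y) (x : Disc E) (hx : ∀ w, x.1 w < 1) :
    ∃ U ∈ nhds x, ∀ z ∈ U, ∀ z' ∈ U, ∀ f : V → V, Tr X Y f → (∀ v, z'.1 (f v) = z.1 v) →
      ∃ p q, E p q ∧ f p = p ∧ f q = q := by
  obtain ⟨W, hW⟩ := loc_finite hE x.2 hx
  have hW : ∀ᶠ z : Disc E in 𝓝 x, ∀ v, z.1 v ≠ 0 → v ∈ W := by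
    rw [nhdsWithin_eq_map_subtype_coe x.2] at hW
    exact hW
  obtain ⟨c, hc, c0⟩ : ∃ c : ℝ, (∀ v ∈ W, x.1 v ≠ 0 → c < x.1 v) ∧ 0 < c := by
    refine (((Finset.eventually_all W).2 fun v _ => ?_).and
      (self_mem_nhdsWithin (a := (0 : ℝ)) (s := Set.Ioi 0))).exists
    by_cases e : x.1 v = 0
    · exact Eventually.of_forall fun _ h => absurd e h
    · exact ((eventually_lt_nhds (lt_of_le_of_ne (disc_nonneg hE x.2 v).1 (Ne.symm e))).filter_mono
        nhdsWithin_le_nhds).mono fun _ h _ => h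
  have hU : ∀ᶠ z : Disc E in 𝓝 x, ∀ v ∈ W, (x.1 v ≠ 0 → c < z.1 v) ∧ (x.1 v = 0 → z.1 v < c) := by
    refine (Finset.eventually_all W).2 fun v hv => ?_
    have k : Tendsto (fun z : Disc E => z.1 v) (𝓝 x) (𝓝 (x.1 v)) :=
      ((continuous_apply v).comp continuous_subtype_val).tendsto x
    by_cases e : x.1 v = 0
    · exact (k.eventually (eventually_lt_nhds (e ▸ c0))).mono fun _ h =>
        ⟨fun n => absurd e n, fun _ => h⟩
    · exact (k.eventually (eventually_gt_nhds (hc v hv e))).mono fun _ h =>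
        ⟨fun _ => h, fun n => absurd n e⟩
  refine ⟨_, hW.and hU, fun z hz z' hz' f ⟨s, t, hf⟩ e => ?_⟩
  have k1 : ∀ v, x.1 v ≠ 0 → x.1 (f v) ≠ 0 := fun v hv h => by
    have a1 := (hz.2 v (hW.self_of_nhds v hv)).1 hv
    rw [← e] at a1
    exact lt_asymm a1 ((hz'.2 _ (hz'.1 _ (c0.trans a1).ne')).2 h)
  have k2 : ∀ v, x.1 v ≠ 0 → f v = v := fun v hv => by
    have a1 := hf v
    have a2 := hf (f v)
    have a3 : s = 0 ∧ t = 0 := by
      by_cases h : f (f v) = v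
      · rw [h] at a2
        omega
      · have := hD.dir _ _ (adj_of_pos hE x.2 h (k1 _ (k1 v hv)) hv)
        omega
    by_contra h
    have := hD.dir _ _ (adj_of_pos hE x.2 h (k1 v hv) hv)
    omega
  obtain ⟨p, q, r, s, t, u, e1, e2, e3, e4, s0, t0, u0, e5, e6⟩ := (mem_disc hE).1 x.2
  obtain ⟨v1, v2, v3⟩ := PB1_val e4 s t u
  rw [← e6] at v1 v2 v3
  have := hx p
  have := hx q
  have := hx r
  by_cases h1 : s = 0
  · exact ⟨q, r, e2, k2 _ fun h => by linarith, k2 _ fun h => by linarith⟩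
  by_cases h2 : t = 0
  · exact ⟨p, r, e3, k2 _ fun h => by linarith, k2 _ fun h => by linarith⟩
  · exact ⟨p, q, e1, k2 _ (v1 ▸ h1), k2 _ (v2 ▸ h2)⟩

end Pool.Agent.Work.MP_3d425c_gt.Inst
end

-- merged part: Pool.Agent.Work.MP_3d425c_gt.PIMain
section
/-! The hypotheses on Dehn fillings of pseudo-Anosov mapping tori can be satisfied: the
once-punctured torus bundle with monodromy `[[2, 1], [1, 1]]`. -/

namespace Pool.Agent.Work.MP_3d425c_gt.Inst
open Classical PA Bor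

theorem cle_trans {V : Type} [LinearOrder V] {w a b c : V} (h : cle w a b) (h' : cle w b c) :
    cle w a c := by
  rcases h with rfl | h
  · exact h'
  rcases h' with rfl | h'
  exacts [Or.inr h, Or.inr (cyc_trans h h')]

theorem nonvacuous : ∃ (V Γ M ι : Type) (_ : LinearOrder V) (_ : Countable V) (_ : Group Γ)
    (_ : MulAction Γ V) (_ : TopologicalSpace M) (E : V → V → Prop) (_ : MulAction Γ (Disc E))
    (_ : ContinuousConstSMul Γ (Disc E)) (y : V → ℝ) (deg e : Γ → ℤ) (lam : ℝ) (γ : V → Γ)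
    (p : Cyl E → M) (N : ι → ℂ × Circle → M),
    Affine E y deg e lam ∧ Slopes γ ∧ Filling E deg γ p N ∧
    (∀ w u : V, u ≠ w → 0 < |e (γ w)| ∧ |e (γ w)| < (prongs E y w u (γ w • u) : ℤ)) := by
  obtain ⟨V, i1, i2, E, hE⟩ := exists_idealTri
  obtain ⟨w, a₀, h₀⟩ := hE.ne
  obtain ⟨X, Y, hD, x0, y0, x1, y1⟩ := exists_dev hE h₀
  obtain ⟨a, hF, rfl⟩ := exists_fan hE h₀
  obtain ⟨φ, hφ, φ0, φi⟩ : ∃ φ : ℝ, φ ^ 2 = φ + 1 ∧ 0 < φ ∧ Irrational φ :=
    ⟨_, Real.goldenRatio_sq, Real.goldenRatio_pos, Real.goldenRatio_irrational⟩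
  have hinj : ∀ m n : ℤ, φ * m + 1 * n = 0 → m = 0 ∧ n = 0 := fun m n e => by
    have hm : m = 0 := by
      by_contra hm
      exact (φi.mul_intCast hm).ne_int (-n) (by push_cast; linarith)
    subst hm
    exact ⟨rfl, by simpa using e⟩
  obtain ⟨Γ, i3, i4, i5, i6, deg, ν, hd, ori, vert, str, hK, faith, real, dν, wν, cν⟩ :=
    exists_group hE hD (hF 0) x0 y0 x1 y1 hφ
  have ext : ∀ g h : Γ, deg g = 0 → deg h = 0 → ∀ p q, E p q → g • p = h • p → g • q = h • q →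
      g = h := fun g h dg dh p q e e1 e2 => by
    have := (hK g dg).2.1.ext hE hE (hK h dh).2.1 e e1 e2
    rw [← inv_mul_eq_one]
    refine faith _ (by rw [hd, PI10_dinv hd, dg, dh]; rfl) fun v => ?_
    rw [mul_smul, inv_smul_eq_iff]
    exact (congrArg (fun f : Equiv.Perm V => f v) this).symm
  have move : ∀ p q p' q', E p q → E p' q' → X p' - X q' = X p - X q → Y p' - Y q' = Y p - Y q →
      ∃ g : Γ, deg g = 0 ∧ g • p = p' ∧ g • q = q' := fun p q p' q' e e' h1 h2 => by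
    obtain ⟨f, f1, f2, f3, f4⟩ := exists_iso hE hD e e' h1 h2
    obtain ⟨g, g1, g2⟩ := real f f1 f2
    exact ⟨g, g1, (g2 p).trans f3, (g2 q).trans f4⟩
  have ole : ∀ (g : Γ) (v p q : V), cle v p q → cle (g • v) (g • p) (g • q) :=
    fun g v p q h => h.imp (congrArg _) (ori g _ _ _)
  have six := hF.six hE hD 0
  simp only [zero_add] at six
  obtain ⟨l, dl, lw, la⟩ := move w (a 0) w (a (6 * 1)) h₀ (hF _).2.1 (by rw [(six 1).1])
    (by rw [(six 1).2])
  have la : ∀ k, l • a k = a (k + 6) := hF.shift hE (hK l dl).2.1 lw la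
  have dlm : ∀ m : ℤ, deg (l ^ m) = 0 := fun m => by rw [PI10_dpow hd, dl, mul_zero]
  have fixz : ∀ g : Γ, g • w = w → ∀ m : ℤ, g ^ m • w = w := fun g h m =>
    MulAction.mem_stabilizer_iff.1 (zpow_mem (MulAction.mem_stabilizer_iff.2 h) m)
  have lam : ∀ m k : ℤ, l ^ m • a k = a (k + 6 * m) := fun m => by
    induction m with
    | zero => simp
    | succ n ih => intro k; rw [zpow_add_one, mul_smul, la, ih]; congr 1; ring
    | pred n ih =>
      intro k
      rw [zpow_sub_one, mul_smul, show l⁻¹ • a k = a (k - 6) by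
        rw [inv_smul_eq_iff, la, sub_add_cancel], ih]
      congr 1
      ring
  have stab : ∀ g : Γ, deg g = 0 → g • w = w → ∃ m : ℤ, g = l ^ m := fun g dg gw => by
    obtain ⟨-, k1, s, t, k2⟩ := hK g dg
    have e : E (g • w) (g • a 0) := (k1.1 _ _).2 h₀
    rw [gw] at e
    obtain ⟨j, hj⟩ := hF.nbr hE e
    have b1 := k2 w
    have b2 := k2 (a 0)
    simp only [gw, hj] at b1 b2
    obtain ⟨m, rfl⟩ := hF.dvd hE hD (j := j) (by omega) (by omega)
    exact ⟨m, ext _ _ dg (dlm m) _ _ h₀ (by rw [gw, fixz l lw]) (by rw [hj, lam, zero_add])⟩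
  have trans : ∀ v, ∃ k : Γ, deg k = 0 ∧ k • w = v := fun v => by
    obtain ⟨u, u1, u2, u3⟩ := exists_dir hE hD v
    obtain ⟨g, g1, g2, -⟩ := move w (a 0) v u h₀ u1 (by omega) (by omega)
    exact ⟨g, g1, g2⟩
  have fwd : ∀ u, u ≠ w → cyc w u (l • u) := fun u hu => by
    obtain ⟨k, k1, k2⟩ := hF.cof hE hu
    have k3 := ole l _ _ _ k1
    rw [lw, la] at k3
    have k4 := cyc_trans k2 (hF.lt (show k + 1 < k + 6 by omega))
    rcases k3 with k3 | k3
    exacts [k3 ▸ k4, cyc_trans k4 k3]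
  have cl : Commute l ν := by
    have wν' : ν⁻¹ • w = w := inv_smul_eq_iff.2 wν.symm
    obtain ⟨i, hi⟩ := stab (ν * l * ν⁻¹) (by rw [hd, hd, PI10_dinv hd]; omega)
      (by rw [mul_smul, mul_smul, wν', lw, wν])
    obtain ⟨j, hj⟩ := stab (ν⁻¹ * l * ν) (by rw [hd, hd, PI10_dinv hd]; omega)
      (by rw [mul_smul, mul_smul, wν, lw, wν'])
    have e : l ^ (i * j) = l := by
      rw [zpow_mul, ← hi, conj_zpow, ← hj]
      group
    have e1 := lam (i * j) 0
    rw [e, la] at e1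
    have e2 := hF.inj e1
    rcases Int.eq_one_or_neg_one_of_mul_eq_one (show i * j = 1 by omega) with rfl | rfl
    · rw [zpow_one, mul_inv_eq_iff_eq_mul] at hi
      exact hi.symm
    · have b1 := ori l _ _ _ (ori ν _ _ _ (fwd _ (PB1_ne hE h₀).symm))
      have b2 := fwd (ν • a 0) fun h => (PB1_ne hE h₀).symm (smul_left_cancel ν (h.trans wν.symm))
      rw [wν, lw, ← mul_smul ν, mul_inv_eq_iff_eq_mul.1 hi, zpow_neg_one, mul_smul,
        smul_inv_smul] at b1
      exact (cyc_asymm b1 b2).elim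
  obtain ⟨j, hj, -⟩ := hF.cof hE (u := ν • a 0)
    fun h => (PB1_ne hE h₀).symm (smul_left_cancel ν (h.trans wν.symm))
  obtain ⟨n, hn⟩ : ∃ n : ℤ, 15 ≤ j + 6 * n := ⟨(20 - j) / 6, by omega⟩
  obtain ⟨μ, hμ⟩ : ∃ μ, μ = l ^ n * ν := ⟨_, rfl⟩
  have dμ : deg μ = 1 := by rw [hμ, hd, dlm, dν, zero_add]
  have wμ : μ • w = w := by rw [hμ, mul_smul, wν, fixz l lw]
  have cμ : Commute l μ := hμ ▸ ((Commute.refl l).zpow_right n).mul_right cl
  have conμ : Con (fun x : Disc E => μ • x) w w := by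
    have := (con_simp (f := MulAction.toPerm (l ^ n)) (hK _ (dlm n)).1 w).comp cν
    simpa only [hμ, mul_smul, MulAction.toPerm_apply, fixz l lw] using this
  have far : ∀ u, u ≠ w → ∃ k, cle w u (a k) ∧ cle w (a (k + 9)) (μ • u) := fun u hu => by
    obtain ⟨k, k1, k2⟩ := hF.cof hE hu
    refine ⟨k + 1, Or.inr k2, ?_⟩
    have b1 := ole μ _ _ _ (cle_trans (hF.le (show 0 + 6 * (k / 6) ≤ k by omega)) k1)
    have b2 := ole (l ^ (k / 6)) _ _ _ (ole (l ^ n) _ _ _ hj)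
    rw [fixz l lw, fixz l lw, lam, lam, ← mul_smul (l ^ n), ← hμ, ← mul_smul,
      (cμ.zpow_left _).eq, mul_smul, lam] at b2
    rw [wμ] at b1
    exact cle_trans (hF.le (by omega)) (cle_trans b2 b1)
  have cen : ∀ g : Γ, g • w = w → Commute g μ := fun g h => by
    obtain ⟨m, hm⟩ := stab (g * μ ^ (-deg g)) (by rw [hd, PI10_dpow hd, dμ]; omega)
      (by rw [mul_smul, fixz μ wμ, h])
    rw [zpow_neg, mul_inv_eq_iff_eq_mul] at hm
    rw [hm]
    exact (cμ.zpow_left m).mul_left ((Commute.refl μ).zpow_left _)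
  choose κ dκ wκ using trans
  obtain ⟨γ, hγ⟩ : ∃ γ : V → Γ, ∀ v, γ v = κ v * μ * (κ v)⁻¹ := ⟨_, fun _ => rfl⟩
  have hγ' : ∀ g : Γ, γ (g • w) = g * μ * g⁻¹ := fun g => by
    have := (cen (g⁻¹ * κ (g • w)) (by rw [mul_smul, wκ, inv_smul_smul])).eq
    rw [hγ]
    calc _ = g * (g⁻¹ * κ (g • w) * μ) * (κ (g • w))⁻¹ := by group
      _ = _ := by rw [this]; group
  have dγ : ∀ v, deg (γ v) = 1 := fun v => by rw [hγ, hd, hd, PI10_dinv hd]; omega
  have fγ : ∀ v, γ v • v = v := fun v => by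
    rw [hγ, mul_smul, mul_smul, inv_smul_eq_iff.2 (wκ v).symm, wμ, wκ]
  have proper : ∀ x : Disc E, (∀ w, x.1 w < 1) → ∃ U ∈ nhds x, ∀ z ∈ U, ∀ g : Γ, deg g = 0 →
      g • z ∈ U → g = 1 := fun x hx => by
    obtain ⟨U, hU, k⟩ := dev_proper hE hD x hx
    refine ⟨U, hU, fun z hz g dg hg => ?_⟩
    obtain ⟨p, q, e, e1, e2⟩ := k z hz _ hg _ (hK g dg).2.2 ((hK g dg).1 z)
    exact ext g 1 dg (PI10_d1 hd) p q e (by rwa [one_smul]) (by rwa [one_smul])
  obtain ⟨M, i7, p, N, hP⟩ := exists_filling hE deg hd vert (fun g dg => (hK g dg).1) proper hF dl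
    lw la stab dμ cμ conμ γ fun g =>
      ⟨fun ⟨v, e⟩ => ⟨_, e.symm.trans (hγ v)⟩, fun ⟨k, e⟩ => ⟨_, (hγ' k).trans e.symm⟩⟩
  refine ⟨V, Γ, M, Unit, i1, i2, i3, i4, i7, E, i5, i6, fun v => φ * X v + 1 * Y v, deg,
    fun g => 2 * deg g, φ ^ 2, γ, p, N, ⟨hE, fun _ _ => dev_edge hD hinj,
      dev_nosaddle hE hD hinj fun _ => rfl, ori, vert, hd, fun g h => by rw [hd, mul_add],
      by linarith, fun g => ?_, fun g dg => (hK g dg).1, fun g dg x hx e => ?_,
      fun v => ⟨γ v, fγ v, by rw [dγ]; exact one_ne_zero⟩,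
      fun v => ⟨κ v * l * (κ v)⁻¹, fun h => ?_, ?_, by rw [hd, hd, PI10_dinv hd]; omega⟩⟩,
    ⟨fγ, fun g v => ?_, fun v s k m _ e => ?_⟩, hP, fun v u hu => ?_⟩
  · rw [(even_two_mul _).neg_one_zpow, one_mul]
    exact str g
  · obtain ⟨U, hU, k⟩ := proper x hx
    exact k x (mem_of_mem_nhds hU) g dg (e.symm ▸ mem_of_mem_nhds hU)
  · have := la 0
    rw [conj_eq_one_iff.1 h, one_smul] at this
    exact absurd (hF.inj this) (by omega)
  · rw [mul_smul, mul_smul, inv_smul_eq_iff.2 (wκ v).symm, lw, wκ]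
  · rw [hγ v, ← congrArg (g • ·) (wκ v), ← mul_smul, hγ']
    group
  · have := congrArg deg e
    rw [PI10_dpow hd, PI10_dpow hd, dγ, mul_one] at this
    exact ⟨_, this.symm⟩
  · have hF' : Fan E v fun k => κ v • a k := fun k => by
      have := ((hK _ (dκ v)).2.1.tri _ _ _).2 (hF k)
      rwa [MulAction.toPerm_apply, wκ] at this
    obtain ⟨k, k1, k2⟩ := far ((κ v)⁻¹ • u) fun h => hu ((inv_smul_eq_iff.1 h).trans (wκ v))
    have b1 := ole (κ v) _ _ _ k1
    have b2 := ole (κ v) _ _ _ k2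
    rw [wκ, smul_inv_smul] at b1
    rw [wκ, ← mul_smul, ← mul_smul, ← hγ] at b2
    have := prongs_ge hE _ hF' (hF'.sign hE hD hinj fun _ => rfl) b1 b2
    beta_reduce
    rw [dγ, show |(2 * 1 : ℤ)| = 2 from rfl]
    omega

end Pool.Agent.Work.MP_3d425c_gt.Inst
end

-- merged part: Pool.Agent.Work.MP_3d425c_gt.W.Conv
section
/-! The face pairing of a layered veering triangulation with a group action.

PLAN (definitions in W/Defs.lean, W/Mod.lean, `VC` in Vr1.lean, `VU` in Vr2.lean, `VG` in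
Vr4.lean; lemmas in W/Star.lean: `tet_faces tet_rot tet_dead tet_bot tet_top face_die face_born
Face.above Face.below E.above E.below`; `dart_of` in W/Wind.lean gives `Model.dart`).
1. `T0 := {v : Fin 4 → V // ∃ k, Tet S.K S.red k (v 0) (v 1) (v 2) (v 3)}`. `Γ` acts: the images
of the two bottom faces are faces with the same colours (`face_smul`, `red_smul`), `face_die`
gives two tetrahedra with bottom edge `g a, g b`, equal by `tet_rot`, `tet_bot`. The rotation
`r v = fun i => v (i + 2)` (`tet_rot`) commutes with `Γ`, and `g • v ≠ r v`: else `g` swaps `a, b`,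
`g * g = 1` (`free`), `e g = 0` (`e_mul`), and `up_smul`, `up_rev` contradict each other.
2. Choose a `Γ`-invariant `T ⊆ T0` with exactly one of `v`, `r v`: take the equivalence relation
`∃ g, v' = g • v ∨ v' = g • r v`, a representative `o v` (`Quotient.out`), and
`T := {v // ∃ g, v = g • o v}`. `vtx t := t.1.1`. A member of `T` is determined by its
unoriented bottom edge, and by its unoriented top edge.
3. For `t : T`, `k : Fin 4` there is exactly one pair `(t', σ)`, `σ : Equiv.Perm (Fin 4)`, with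
`∀ i ≠ k, vtx t' (σ i) = vtx t i` and `Even k ↔ Odd (σ k)`: existence from `Face.above` (`k`
even) or `Face.below` (`k` odd); uniqueness since the colours of the face single out the bottom
(top) edge of `t'`, and `vtx t'` is injective. Define `nbr`, `perm` by choice. Uniqueness gives
`back`, `nbr_smul`, `perm_smul`. `orient`: `σ` keeps the cyclic order of the three indices
(faces are positive triples of cusps), then `decide` over `Equiv.Perm (Fin 4)`.
4. `red (t,i,j) := S.red (vtx t i) (vtx t j)`, `up (t,i,j) := S.up (vtx t i) (vtx t j)` (for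
`red_smul` with `i = j` use `i ≠ j ∧ ..` in the definition of `red` if needed). `Turn` keeps the
pair of cusps, so by `dart_of` a class is the set of all `(t,i,j)` with given cusps `a ≠ b`.
`bottom`, `top`: `E.above`, `E.below`, `tet_bot`, `tet_top`. `finite`: the level `k` of a
tetrahedron that contains `a b` lies in a bounded interval (`life`), and for given `k`, `i`, `j`
there is at most one such `t` (`tet_bot`, `tet_top`, or the face on `a b` in layer `k`,
`t3_uniq`). `up_face` from `S.up_face` for the faces `(c; b, a)`, `(d; a, b)` and `up_rev`.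
`cocompact`: tetrahedra whose bottom edge lies in the finite set. -/

namespace Pool.Agent.Work.MP_3d425c_gt.Bor
open PA

section WConv
variable {Γ V : Type} [LinearOrder V] [Group Γ] [MulAction Γ V]

theorem WConv_smul (S : VG Γ V) (g : Γ) {k : ℤ} {a c b d : V} (t : Tet S.K S.red k a c b d) :
    ∃ k', Tet S.K S.red k' (g • a) (g • c) (g • b) (g • d) := by
  obtain ⟨f1, f2, -, -⟩ := VC.tet_faces t
  have g1 : S.toVC.Face c b a := ⟨_, f1⟩
  have g2 : S.toVC.Face d a b := ⟨_, f2⟩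
  obtain ⟨-, -, -, -, -, -, c1, c2, c3, c4⟩ := t
  obtain ⟨k1, d1, t1⟩ := VC.face_die (S.face_smul g _ _ _ g1)
    (mt (S.red_smul g _ _ g1.e1).1 c2) ((S.red_smul g _ _ g1.e2).2 (VC.rsymm.1 c1))
  obtain ⟨k2, d2, t2⟩ := VC.face_die (S.face_smul g _ _ _ g2)
    (mt (S.red_smul g _ _ g2.e1).1 c4) ((S.red_smul g _ _ g2.e2).2 (VC.rsymm.1 c3))
  obtain ⟨-, -, h⟩ := VC.tet_bot t1 (VC.tet_rot t2)
  exact ⟨k1, h ▸ t1⟩

theorem WConv_noswap (S : VG Γ V) (g : Γ) {a b : V} (h : S.toVC.E a b) (h1 : g • a = b)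
    (h2 : g • b = a) : False := by
  have e1 : g * g = 1 := S.free _ a b h (by rw [mul_smul, h1, h2]) (by rw [mul_smul, h2, h1])
  have e2 := S.e_mul g g
  have e3 := S.e_mul 1 1
  rw [e1] at e2
  rw [mul_one] at e3
  have e4 : S.e g = 0 := by omega
  have e5 := S.up_smul g a b h
  have e6 := S.up_rev a b h
  rw [h1, h2, e4, e6] at e5
  exact iff_not_self (e5.trans (iff_true_right Even.zero)).symm

theorem WConv_orient (S : VG Γ V) : ∃ P : V → V → Prop, (∀ a b, P a b ∨ P b a) ∧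
    (∀ a b, S.toVC.E a b → P a b → P b a → False) ∧
      ∀ (g : Γ) a b, P a b → P (g • a) (g • b) := by
  let R : Setoid (V × V) :=
    ⟨fun p q => ∃ g : Γ, (q.1 = g • p.1 ∧ q.2 = g • p.2) ∨ (q.1 = g • p.2 ∧ q.2 = g • p.1),
      fun p => ⟨1, Or.inl ⟨(one_smul _ _).symm, (one_smul _ _).symm⟩⟩, by
        rintro p q ⟨g, ⟨h1, h2⟩ | ⟨h1, h2⟩⟩
        · exact ⟨g⁻¹, Or.inl ⟨by rw [h1, inv_smul_smul], by rw [h2, inv_smul_smul]⟩⟩
        · exact ⟨g⁻¹, Or.inr ⟨by rw [h2, inv_smul_smul], by rw [h1, inv_smul_smul]⟩⟩, by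
        rintro p q r ⟨g, ⟨h1, h2⟩ | ⟨h1, h2⟩⟩ ⟨g', ⟨h3, h4⟩ | ⟨h3, h4⟩⟩
        · exact ⟨g' * g, Or.inl ⟨by rw [h3, h1, mul_smul], by rw [h4, h2, mul_smul]⟩⟩
        · exact ⟨g' * g, Or.inr ⟨by rw [h3, h2, mul_smul], by rw [h4, h1, mul_smul]⟩⟩
        · exact ⟨g' * g, Or.inr ⟨by rw [h3, h1, mul_smul], by rw [h4, h2, mul_smul]⟩⟩
        · exact ⟨g' * g, Or.inl ⟨by rw [h3, h2, mul_smul], by rw [h4, h1, mul_smul]⟩⟩⟩
  obtain ⟨o, ho, he⟩ : ∃ o : V × V → V × V, (∀ p, R (o p) p) ∧ ∀ p q, R p q → o p = o q :=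
    ⟨fun p => (Quotient.mk R p).out, fun p => Quotient.mk_out p,
      fun p q h => by simp only [Quotient.sound h]⟩
  have hs : ∀ a b, o (b, a) = o (a, b) := fun a b =>
    he _ _ ⟨1, Or.inr ⟨(one_smul _ _).symm, (one_smul _ _).symm⟩⟩
  refine ⟨fun a b => ∃ g : Γ, a = g • (o (a, b)).1 ∧ b = g • (o (a, b)).2, fun a b => ?_, ?_, ?_⟩
  · obtain ⟨g, h | h⟩ := ho (a, b)
    · exact Or.inl ⟨g, h⟩
    · exact Or.inr ⟨g, by rw [hs a b]; exact h.symm⟩
  · rintro a b h ⟨g, h1, h2⟩ ⟨g', h3, h4⟩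
    rw [hs a b] at h3 h4
    generalize o (a, b) = p at h1 h2 h3 h4
    refine WConv_noswap S (g' * g⁻¹) h ?_ ?_
    · rw [mul_smul, h1, inv_smul_smul, h3]
    · rw [mul_smul, h2, inv_smul_smul, h4]
  · rintro g a b ⟨g', h1, h2⟩
    rw [← he (a, b) (g • a, g • b) ⟨g, Or.inl ⟨rfl, rfl⟩⟩]
    exact ⟨g * g', by rw [mul_smul, ← h1], by rw [mul_smul, ← h2]⟩

/-- A labelled list of all tetrahedra. -/
structure WConv_Pre {T : Type} (S : VC V) (vtx : T → Fin 4 → V) : Prop where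
  tet : ∀ t, ∃ k, Tet S.K S.red k (vtx t 0) (vtx t 1) (vtx t 2) (vtx t 3)
  surj : ∀ k a c b d, Tet S.K S.red k a c b d →
    ∃ t, (vtx t 0 = a ∧ vtx t 1 = c ∧ vtx t 2 = b ∧ vtx t 3 = d) ∨
      (vtx t 0 = b ∧ vtx t 1 = d ∧ vtx t 2 = a ∧ vtx t 3 = c)
  uniq : ∀ t t', (vtx t 0 = vtx t' 0 ∧ vtx t 2 = vtx t' 2) ∨
    (vtx t 0 = vtx t' 2 ∧ vtx t 2 = vtx t' 0) → t = t'

theorem WConv_T (S : VG Γ V) : ∃ (T : Type) (_ : MulAction Γ T) (vtx : T → Fin 4 → V),
    WConv_Pre S.toVC vtx ∧ ∀ (g : Γ) t i, vtx (g • t) i = g • vtx t i := by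
  obtain ⟨P, p1, p2, p3⟩ := WConv_orient S
  refine ⟨{v : Fin 4 → V // (∃ k, Tet S.K S.red k (v 0) (v 1) (v 2) (v 3)) ∧ P (v 0) (v 2)},
    { smul := fun g t => ⟨fun i => g • t.1 i, t.2.1.elim fun _ h => WConv_smul S g h,
        p3 g _ _ t.2.2⟩
      one_smul := fun t => Subtype.ext (funext fun i => one_smul _ _)
      mul_smul := fun g h t => Subtype.ext (funext fun i => mul_smul _ _ _) },
    fun t => t.1, ⟨fun t => t.2.1, fun k a c b d u => ?_, ?_⟩, fun _ _ _ => rfl⟩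
  · rcases p1 a b with h | h
    · exact ⟨⟨![a, c, b, d], ⟨k, u⟩, h⟩, Or.inl ⟨rfl, rfl, rfl, rfl⟩⟩
    · exact ⟨⟨![b, d, a, c], ⟨k, VC.tet_rot u⟩, h⟩, Or.inr ⟨rfl, rfl, rfl, rfl⟩⟩
  · rintro ⟨v, ⟨k, u⟩, h⟩ ⟨v', ⟨k', u'⟩, h'⟩ (⟨e1, e2⟩ | ⟨e1, e2⟩)
    · simp only at e1 e2
      rw [← e1, ← e2] at u'
      obtain ⟨-, e3, e4⟩ := VC.tet_bot u u'
      refine Subtype.ext (funext fun i => ?_)
      fin_cases i
      exacts [e1, e3, e2, e4]
    · simp only at e1 e2
      rw [← e1, ← e2] at h'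
      exact (p2 _ _ ⟨k, u.2.2.1⟩ h h').elim

theorem WConv_inv (σ : Equiv.Perm (Fin 4)) (x : Fin 4) : σ⁻¹ (σ x) = x := σ.symm_apply_apply x

theorem WConv_perm : ∀ i j l k : Fin 4, cyc i j l → k ≠ i → k ≠ j → k ≠ l →
    ∃ τ : Equiv.Perm (Fin 4), τ 0 = i ∧ τ 1 = j ∧ τ 2 = l ∧ τ 3 = k ∧
      Equiv.Perm.sign τ = if Even k.val then -1 else 1 := by
  decide

theorem WConv_rigid : ∀ (ρ : Equiv.Perm (Fin 4)) (k : Fin 4), Equiv.Perm.sign ρ = 1 →
    (Odd k.val ↔ Odd (ρ k).val) → (∀ i j, i ≠ k → j ≠ k → i + j = 1 → ρ i + ρ j ≠ 3) →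
    (∀ i j, i ≠ k → j ≠ k → i + j = 3 → ρ i + ρ j ≠ 1) → (∀ i, ρ i = i) ∨ ∀ i, ρ i = i + 2 := by
  decide

theorem WConv_lev {S : VC V} {k : ℤ} {a c b d a' c' b' d' : V} (t : Tet S.K S.red k a c b d)
    (t' : Tet S.K S.red k a' c' b' d') (h : (a = a' ∧ c = c') ∨ (c = c' ∧ b = b') ∨
      (b = b' ∧ d = d') ∨ (d = d' ∧ a = a') ∨ (c = c' ∧ d = d') ∨ (a = a' ∧ b = b')) :
    a = a' ∧ b = b' := by
  obtain ⟨f1, f2, -, -⟩ := VC.tet_faces t
  obtain ⟨g1, g2, -, -⟩ := VC.tet_faces t'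
  have L := S.layer k
  obtain ⟨rfl, rfl⟩ | ⟨rfl, rfl⟩ | ⟨rfl, rfl⟩ | ⟨rfl, rfl⟩ | ⟨rfl, rfl⟩ | h := h
  · exact ⟨rfl, VC.t3_uniq (f1.rot L) (g1.rot L)⟩
  · exact ⟨VC.t3_uniq ((f1.rot L).rot L) ((g1.rot L).rot L), rfl⟩
  · exact ⟨VC.t3_uniq (f2.rot L) (g2.rot L), rfl⟩
  · exact ⟨rfl, VC.t3_uniq ((f2.rot L).rot L) ((g2.rot L).rot L)⟩
  · exact (VC.tet_top t t').2
  · exact h

/-- The face of `t` opposite to `k` is glued to `t'` by `σ`. -/
def WConv_Nb {T : Type} (vtx : T → Fin 4 → V) (t : T) (k : Fin 4) (t' : T)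
    (σ : Equiv.Perm (Fin 4)) : Prop :=
  (∀ i, i ≠ k → vtx t' (σ i) = vtx t i) ∧ (Even k.val ↔ Odd (σ k).val) ∧ Equiv.Perm.sign σ = -1

namespace WConv_Pre
variable {T : Type} {S : VC V} {vtx : T → Fin 4 → V} (H : WConv_Pre S vtx)
include H

theorem face (t : T) {i j l : Fin 4} (h : cyc i j l) : S.Face (vtx t i) (vtx t j) (vtx t l) := by
  obtain ⟨k, u⟩ := H.tet t
  obtain ⟨f1, f2, f3, f4⟩ := VC.tet_faces u
  have g1 : S.Face _ _ _ := ⟨_, f1⟩
  have g2 : S.Face _ _ _ := ⟨_, f2⟩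
  have g3 : S.Face _ _ _ := ⟨_, f3⟩
  have g4 : S.Face _ _ _ := ⟨_, f4⟩
  fin_cases i <;> fin_cases j <;> fin_cases l <;> first
    | exact absurd h (by decide)
    | exact g1 | exact g1.rot | exact g1.rot.rot | exact g2 | exact g2.rot | exact g2.rot.rot
    | exact g3 | exact g3.rot | exact g3.rot.rot | exact g4 | exact g4.rot | exact g4.rot.rot

theorem edge (t : T) {i j : Fin 4} (h : i ≠ j) : S.E (vtx t i) (vtx t j) := by
  obtain ⟨l, hl⟩ : ∃ l, cyc l i j ∨ cyc l j i := by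
    revert i j
    decide
  exact hl.elim (fun k => (H.face t k).e3) fun k => (H.face t k).e3.symm

theorem inj (t : T) : Function.Injective (vtx t) := fun _ _ e =>
  by_contra fun h => (H.edge t h).ne e

theorem top (t t' : T) (h : (vtx t 1 = vtx t' 1 ∧ vtx t 3 = vtx t' 3) ∨
    (vtx t 1 = vtx t' 3 ∧ vtx t 3 = vtx t' 1)) : t = t' := by
  obtain ⟨k, u⟩ := H.tet t
  obtain ⟨k', u'⟩ := H.tet t'
  obtain ⟨e1, e2⟩ | ⟨e1, e2⟩ := h
  · rw [← e1, ← e2] at u'
    exact H.uniq _ _ (Or.inl (VC.tet_top u u').2)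
  · rw [← e1, ← e2] at u'
    exact H.uniq _ _ (Or.inr (VC.tet_top u (VC.tet_rot u')).2)

theorem isred (t : T) {i j : Fin 4} (h : i + j = 1) : S.red (vtx t i) (vtx t j) := by
  obtain ⟨k, -, -, -, -, -, -, c1, -, c3, -⟩ := H.tet t
  fin_cases i <;> fin_cases j <;> first
    | exact absurd h (by decide)
    | exact c1 | exact c3 | exact VC.rsymm.1 c1 | exact VC.rsymm.1 c3

theorem isblue (t : T) {i j : Fin 4} (h : i + j = 3) : ¬ S.red (vtx t i) (vtx t j) := by
  obtain ⟨k, -, -, -, -, -, -, -, c1, -, c3⟩ := H.tet t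
  fin_cases i <;> fin_cases j <;> first
    | exact absurd h (by decide)
    | exact c1 | exact c3 | exact mt VC.rsymm.1 c1 | exact mt VC.rsymm.1 c3

theorem face_bot {w a b : V} (h : S.Face w a b) : ∃ t i j l k, cyc i j l ∧ k ≠ i ∧ k ≠ j ∧
    k ≠ l ∧ Odd k.val ∧ vtx t i = w ∧ vtx t j = a ∧ vtx t l = b := by
  obtain ⟨k, d, u | u | u⟩ := h.above <;> obtain ⟨t, e | e⟩ := H.surj _ _ _ _ _ u
  exacts [⟨t, 1, 2, 0, 3, by decide, by decide, by decide, by decide, by decide, e.2.1, e.2.2.1,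
      e.1⟩,
    ⟨t, 3, 0, 2, 1, by decide, by decide, by decide, by decide, by decide, e.2.2.2, e.1, e.2.2.1⟩,
    ⟨t, 0, 1, 2, 3, by decide, by decide, by decide, by decide, by decide, e.1, e.2.1, e.2.2.1⟩,
    ⟨t, 2, 3, 0, 1, by decide, by decide, by decide, by decide, by decide, e.2.2.1, e.2.2.2, e.1⟩,
    ⟨t, 2, 0, 1, 3, by decide, by decide, by decide, by decide, by decide, e.2.2.1, e.1, e.2.1⟩,
    ⟨t, 0, 2, 3, 1, by decide, by decide, by decide, by decide, by decide, e.1, e.2.2.1, e.2.2.2⟩]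

theorem face_top {w a b : V} (h : S.Face w a b) : ∃ t i j l k, cyc i j l ∧ k ≠ i ∧ k ≠ j ∧
    k ≠ l ∧ Even k.val ∧ vtx t i = w ∧ vtx t j = a ∧ vtx t l = b := by
  obtain ⟨k, d, u | u | u⟩ := h.below <;> obtain ⟨t, e | e⟩ := H.surj _ _ _ _ _ u
  exacts [⟨t, 0, 1, 3, 2, by decide, by decide, by decide, by decide, by decide, e.1, e.2.1,
      e.2.2.2⟩,
    ⟨t, 2, 3, 1, 0, by decide, by decide, by decide, by decide, by decide, e.2.2.1, e.2.2.2, e.2.1⟩,
    ⟨t, 3, 0, 1, 2, by decide, by decide, by decide, by decide, by decide, e.2.2.2, e.1, e.2.1⟩,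
    ⟨t, 1, 2, 3, 0, by decide, by decide, by decide, by decide, by decide, e.2.1, e.2.2.1, e.2.2.2⟩,
    ⟨t, 1, 3, 0, 2, by decide, by decide, by decide, by decide, by decide, e.2.1, e.2.2.2, e.1⟩,
    ⟨t, 3, 1, 2, 0, by decide, by decide, by decide, by decide, by decide, e.2.2.2, e.2.1, e.2.2.1⟩]

theorem exNb (t : T) (k : Fin 4) : ∃ t' σ, WConv_Nb vtx t k t' σ := by
  obtain ⟨i, j, l, h1, h2, h3, h4⟩ : ∃ i j l, cyc i j l ∧ k ≠ i ∧ k ≠ j ∧ k ≠ l := by
    revert k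
    decide
  obtain ⟨t', i', j', l', k', g1, g2, g3, g4, g5, e1, e2, e3⟩ : ∃ t' i' j' l' k', cyc i' j' l' ∧
      k' ≠ i' ∧ k' ≠ j' ∧ k' ≠ l' ∧ (Even k.val ↔ Odd k'.val) ∧ vtx t' i' = vtx t i ∧
        vtx t' j' = vtx t j ∧ vtx t' l' = vtx t l := by
    by_cases p : Even k.val
    · obtain ⟨t', i', j', l', k', g1, g2, g3, g4, g5, e⟩ := H.face_bot (H.face t h1)
      exact ⟨t', i', j', l', k', g1, g2, g3, g4, iff_of_true p g5, e⟩
    · obtain ⟨t', i', j', l', k', g1, g2, g3, g4, g5, e⟩ := H.face_top (H.face t h1)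
      exact ⟨t', i', j', l', k', g1, g2, g3, g4, iff_of_false p (Nat.not_odd_iff_even.2 g5), e⟩
  obtain ⟨τ, rfl, rfl, rfl, a4, a5⟩ := WConv_perm i j l k h1 h2 h3 h4
  obtain ⟨τ', rfl, rfl, rfl, b4, b5⟩ := WConv_perm i' j' l' k' g1 g2 g3 g4
  refine ⟨t', τ' * τ⁻¹, fun m hm => ?_, ?_, ?_⟩
  · obtain ⟨n, rfl⟩ := τ.surjective m
    rw [Equiv.Perm.mul_apply, WConv_inv]
    fin_cases n
    exacts [e1, e2, e3, absurd a4 hm]
  · rw [Equiv.Perm.mul_apply, ← a4, WConv_inv, a4, b4]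
    exact g5
  · rw [Equiv.Perm.sign_mul, Equiv.Perm.sign_inv, a5, b5]
    by_cases p : Even k.val
    · rw [if_pos p, if_neg (Nat.not_even_iff_odd.2 (g5.1 p)), one_mul]
    · rw [if_neg p, if_pos (Nat.not_odd_iff_even.1 (mt g5.2 p)), mul_one]

theorem same {t t' : T} {ρ : Equiv.Perm (Fin 4)} {k : Fin 4}
    (h : ∀ i, i ≠ k → vtx t' (ρ i) = vtx t i) (p : Odd k.val ↔ Odd (ρ k).val)
    (s : Equiv.Perm.sign ρ = 1) : t' = t ∧ ρ = 1 := by
  have r := WConv_rigid ρ k s p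
    (fun i j hi hj e e' => H.isblue t' e' (by rw [h i hi, h j hj]; exact H.isred t e))
    (fun i j hi hj e e' => H.isblue t e (by rw [← h i hi, ← h j hj]; exact H.isred t' e'))
  have hk : (0 ≠ k ∧ 2 ≠ k) ∨ (1 ≠ k ∧ 3 ≠ k) := by
    clear * -
    revert k
    decide
  rcases r with r | r
  · refine ⟨?_, Equiv.ext r⟩
    simp only [r] at h
    rcases hk with ⟨k1, k2⟩ | ⟨k1, k2⟩
    exacts [H.uniq _ _ (Or.inl ⟨h _ k1, h _ k2⟩), H.top _ _ (Or.inl ⟨h _ k1, h _ k2⟩)]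
  · simp only [r] at h
    rcases hk with ⟨k1, k2⟩ | ⟨k1, k2⟩
    · obtain rfl : t' = t := H.uniq _ _ (Or.inr ⟨h _ k2, h _ k1⟩)
      exact absurd (H.inj _ (h _ k1)) (by decide)
    · obtain rfl : t' = t := H.top _ _ (Or.inr ⟨h _ k2, h _ k1⟩)
      exact absurd (H.inj _ (h _ k1)) (by decide)

theorem unNb {t t' t'' : T} {k : Fin 4} {σ σ' : Equiv.Perm (Fin 4)} (h : WConv_Nb vtx t k t' σ)
    (h' : WConv_Nb vtx t k t'' σ') : t'' = t' ∧ σ' = σ := by
  obtain ⟨e1, e2⟩ := H.same (t := t') (t' := t'') (ρ := σ' * σ⁻¹) (k := σ k) (fun m hm => by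
      obtain ⟨n, rfl⟩ := σ.surjective m
      have hn : n ≠ k := fun e => hm (e ▸ rfl)
      rw [Equiv.Perm.mul_apply, WConv_inv, h.1 n hn, h'.1 n hn])
    (by rw [Equiv.Perm.mul_apply, WConv_inv, ← h.2.1, h'.2.1])
    (by rw [Equiv.Perm.sign_mul, Equiv.Perm.sign_inv, h.2.2, h'.2.2]; decide)
  exact ⟨e1, mul_inv_eq_one.1 e2⟩

theorem fin (a b : V) : {d : T × Fin 4 × Fin 4 | d.2.1 ≠ d.2.2 ∧ vtx d.1 d.2.1 = a ∧
    vtx d.1 d.2.2 = b}.Finite := by
  choose lev hlev using H.tet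
  obtain ⟨s, r, hs⟩ := S.life a b
  refine Set.Finite.of_finite_image (f := fun d => (lev d.1, d.2))
    (((Set.finite_Icc (s - 1) r).prod Set.finite_univ).subset ?_) ?_
  · rintro _ ⟨⟨t, i, j⟩, ⟨h1, rfl, rfl⟩, rfl⟩
    have key : S.K (lev t) (vtx t i) (vtx t j) ∨ S.K (lev t + 1) (vtx t i) (vtx t j) := by
      obtain ⟨-, -, h3, h4, ⟨a1, a2, a3, a4⟩, -⟩ := hlev t
      fin_cases i <;> fin_cases j <;> first
        | exact absurd rfl h1
        | exact Or.inl h3 | exact Or.inl a1 | exact Or.inl a2 | exact Or.inl a3 | exact Or.inl a4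
        | exact Or.inr h4 | exact Or.inr (VC.ksymm h4) | exact Or.inl (VC.ksymm h3)
        | exact Or.inl (VC.ksymm a1) | exact Or.inl (VC.ksymm a2) | exact Or.inl (VC.ksymm a3)
        | exact Or.inl (VC.ksymm a4)
    refine ⟨?_, trivial⟩
    show s - 1 ≤ lev t ∧ lev t ≤ r
    rcases key with k | k <;> have := hs _ k <;> omega
  · rintro ⟨t, i, j⟩ ⟨h1, h2, h3⟩ ⟨t', i', j'⟩ ⟨-, h4, h5⟩ e
    obtain ⟨e1, e2⟩ := Prod.ext_iff.1 e
    obtain ⟨rfl, rfl⟩ : i = i' ∧ j = j' := Prod.ext_iff.1 e2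
    have e3 : vtx t i = vtx t' i := h2.trans h4.symm
    have e4 : vtx t j = vtx t' j := h3.trans h5.symm
    have u := hlev t'
    rw [← show lev t = lev t' from e1] at u
    obtain rfl : t = t' := by
      refine H.uniq _ _ (Or.inl (WConv_lev (hlev t) u ?_))
      clear * - h1 e3 e4
      fin_cases i <;> fin_cases j <;> first
        | exact absurd rfl h1
        | exact Or.inl ⟨e3, e4⟩ | exact Or.inl ⟨e4, e3⟩
        | exact Or.inr (Or.inl ⟨e3, e4⟩) | exact Or.inr (Or.inl ⟨e4, e3⟩)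
        | exact Or.inr (Or.inr (Or.inl ⟨e3, e4⟩)) | exact Or.inr (Or.inr (Or.inl ⟨e4, e3⟩))
        | exact Or.inr (Or.inr (Or.inr (Or.inl ⟨e3, e4⟩)))
        | exact Or.inr (Or.inr (Or.inr (Or.inl ⟨e4, e3⟩)))
        | exact Or.inr (Or.inr (Or.inr (Or.inr (Or.inl ⟨e3, e4⟩))))
        | exact Or.inr (Or.inr (Or.inr (Or.inr (Or.inl ⟨e4, e3⟩))))
        | exact Or.inr (Or.inr (Or.inr (Or.inr (Or.inr ⟨e3, e4⟩))))
        | exact Or.inr (Or.inr (Or.inr (Or.inr (Or.inr ⟨e4, e3⟩))))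
    rfl

end WConv_Pre

omit [LinearOrder V] in
theorem WConv_eqv {T : Type} {G : VR.Gluing T} {vtx : T → Fin 4 → V}
    (glue : ∀ t k i, i ≠ k → vtx (G.nbr t k) (G.perm t k i) = vtx t i)
    {d d' : T × Fin 4 × Fin 4} (h : Relation.EqvGen (VR.Turn G) d d') :
    d' = d ∨ (d.2.1 ≠ d.2.2 ∧ d'.2.1 ≠ d'.2.2 ∧ vtx d'.1 d'.2.1 = vtx d.1 d.2.1 ∧
      vtx d'.1 d'.2.2 = vtx d.1 d.2.2) := by
  induction h with
  | rel x y h =>
    obtain ⟨k, h1, h2, h3, rfl⟩ := h
    exact Or.inr ⟨h1, (G.perm _ _).injective.ne h1, glue _ _ _ h2.symm, glue _ _ _ h3.symm⟩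
  | refl => exact Or.inl rfl
  | symm x y _ ih => exact ih.imp Eq.symm fun h => ⟨h.2.1, h.1, h.2.2.1.symm, h.2.2.2.symm⟩
  | trans x y z _ _ ih ih' =>
    rcases ih with rfl | h
    · exact ih'
    rcases ih' with rfl | h'
    · exact Or.inr h
    exact Or.inr ⟨h.1, h'.2.1, h'.2.2.1.trans h.2.2.1, h'.2.2.2.trans h.2.2.2⟩

theorem WConv_exu {T : Type} {G : VR.Gluing T} {red : T × Fin 4 × Fin 4 → Prop} {S : VC V}
    {vtx : T → Fin 4 → V} (hM : Model G red S vtx) {p q : Fin 4}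
    (ex : ∀ a b, S.E a b → ∃ t, (vtx t p = a ∧ vtx t q = b) ∨ (vtx t q = a ∧ vtx t p = b))
    (un : ∀ t t', (vtx t p = vtx t' p ∧ vtx t q = vtx t' q) ∨
      (vtx t p = vtx t' q ∧ vtx t q = vtx t' p) → t = t') (d : T × Fin 4 × Fin 4)
    (h : d.2.1 ≠ d.2.2) :
    ∃! d', Relation.EqvGen (VR.Turn G) d d' ∧ (d'.2 = (p, q) ∨ d'.2 = (q, p)) := by
  refine existsUnique_of_exists_of_unique ?_ ?_
  · obtain ⟨t, e | e⟩ := ex _ _ (hM.edge d.1 h)
    · exact ⟨(t, p, q), hM.dart _ _ _ _ _ _ h e.1.symm e.2.symm, Or.inl rfl⟩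
    · exact ⟨(t, q, p), hM.dart _ _ _ _ _ _ h e.1.symm e.2.symm, Or.inr rfl⟩
  · rintro ⟨t, x⟩ ⟨t', x'⟩ ⟨h1, h2⟩ ⟨h3, h4⟩
    rcases WConv_eqv hM.glue (.trans _ _ _ (.symm _ _ h3) h1) with e | ⟨-, -, e1, e2⟩
    · exact e
    have k : t = t' := by
      rcases h2 with h2 | h2 <;> rcases h4 with h4 | h4 <;> cases h2 <;> cases h4
      exacts [un _ _ (Or.inl ⟨e1, e2⟩), un _ _ (Or.inr ⟨e1, e2⟩), un _ _ (Or.inr ⟨e2, e1⟩),
        un _ _ (Or.inl ⟨e2, e1⟩)]
    subst k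
    exact Prod.ext rfl (Prod.ext (hM.inj t e1) (hM.inj t e2))

end WConv

theorem exists_gluing {Γ V : Type} [LinearOrder V] [Group Γ] [MulAction Γ V] (S : VG Γ V) :
    ∃ (T : Type) (_ : MulAction Γ T) (G : VR.Gluing T) (red up : T × Fin 4 × Fin 4 → Prop)
      (vtx : T → Fin 4 → V), VR.Veering G red ∧ VR.Deck G red up S.e ∧ Model G red S.toVC vtx ∧
      ∀ (g : Γ) t i, vtx (g • t) i = g • vtx t i := by
  obtain ⟨T, inst, vtx, H, hv⟩ := WConv_T S
  choose nbr perm hN using H.exNb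
  have glue : ∀ t k i, i ≠ k → vtx (nbr t k) (perm t k i) = vtx t i := fun t k => (hN t k).1
  have hM : Model ⟨nbr, perm⟩ (fun d => d.2.1 ≠ d.2.2 ∧ S.red (vtx d.1 d.2.1) (vtx d.1 d.2.2))
      S.toVC vtx := ⟨H.tet, H.surj, glue,
    dart_of (G := ⟨nbr, perm⟩) H.tet glue (fun t k => (hN t k).2.1) H.uniq,
    fun t i j h => (and_iff_right h).symm⟩
  have hs : ∀ (g : Γ) t k, nbr (g • t) k = g • nbr t k ∧ perm (g • t) k = perm t k :=
    fun g t k => H.unNb ⟨fun i hi => by rw [hv, hv, glue t k i hi], (hN t k).2⟩ (hN (g • t) k)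
  refine ⟨T, inst, ⟨nbr, perm⟩, _, fun d => S.up (vtx d.1 d.2.1) (vtx d.1 d.2.2), vtx,
    ⟨fun t k => ?_, fun t k => (hN t k).2.2, fun t k => (hN t k).2.1, fun d => ?_,
      WConv_exu hM (fun a b => hM.edge_bot) H.uniq, WConv_exu hM (fun a b h => ?_) H.top,
      fun t i j h => ⟨h.1.symm, VC.rsymm.1 h.2⟩, ?_, fun t => ?_⟩,
    ⟨fun g t k => (hs g t k).1, fun g t k => (hs g t k).2, fun g t i j => ?_, fun g t h => ?_, ?_,
      fun t i j h => S.up_rev _ _ (H.edge t h), ?_, fun t => ?_, fun g t i j h => ?_, S.e_mul⟩,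
    hM, hv⟩
  · refine H.unNb ⟨fun m hm => ?_, ?_, ?_⟩ (hN _ _)
    · obtain ⟨n, rfl⟩ := (perm t k).surjective m
      rw [WConv_inv, glue t k n fun e => hm (e ▸ rfl)]
    · rw [WConv_inv, ← Nat.not_odd_iff_even, ← (hN t k).2.1,
        Nat.not_even_iff_odd]
    · rw [Equiv.Perm.sign_inv, (hN t k).2.2]
  · refine ((H.fin (vtx d.1 d.2.1) (vtx d.1 d.2.2)).insert d).subset fun d' h => ?_
    exact (WConv_eqv hM.glue h).imp_right fun e => e.2
  · obtain ⟨k, x, y, u⟩ := h.below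
    obtain ⟨t, e | e⟩ := H.surj _ _ _ _ _ u
    exacts [⟨t, Or.inl ⟨e.2.1, e.2.2.2⟩⟩, ⟨t, Or.inr ⟨e.2.2.2, e.2.1⟩⟩]
  · rintro ⟨t, i, j⟩ _ ⟨k, h1, h2, h3, rfl⟩
    show i ≠ j ∧ S.red (vtx t i) (vtx t j) ↔ perm t k i ≠ perm t k j ∧
      S.red (vtx (nbr t k) (perm t k i)) (vtx (nbr t k) (perm t k j))
    rw [glue t k i h2.symm, glue t k j h3.symm, (perm t k).injective.ne_iff]
  · exact ⟨⟨show (0 : Fin 4) ≠ 1 by decide, H.isred t rfl⟩, fun h => H.isblue t rfl h.2,
      ⟨show (2 : Fin 4) ≠ 3 by decide, H.isred t rfl⟩, fun h => H.isblue t rfl h.2⟩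
  · refine and_congr_right fun h => ?_
    show S.red (vtx (g • t) i) (vtx (g • t) j) ↔ S.red (vtx t i) (vtx t j)
    rw [hv, hv]
    exact S.red_smul g _ _ (H.edge t h)
  · exact S.free g (vtx t 0) (vtx t 2) (H.edge t (by decide)) (by rw [← hv, h]) (by rw [← hv, h])
  · obtain ⟨F, hF, h⟩ := S.cocompact
    refine ⟨(fun t => (vtx t 0, vtx t 2)) ⁻¹' F, hF.preimage fun t _ t' _ e =>
      H.uniq _ _ (Or.inl (Prod.ext_iff.1 e)), fun t => ?_⟩
    obtain ⟨g, hg⟩ := h _ _ (H.edge t (show (0 : Fin 4) ≠ 2 by decide))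
    exact ⟨g, show (vtx (g • t) 0, vtx (g • t) 2) ∈ F by rwa [hv, hv]⟩
  · rintro ⟨t, i, j⟩ _ ⟨k, h1, h2, h3, rfl⟩
    show S.up (vtx t i) (vtx t j) ↔
      S.up (vtx (nbr t k) (perm t k i)) (vtx (nbr t k) (perm t k j))
    rw [glue t k i h2.symm, glue t k j h3.symm]
  · obtain ⟨a1, a2⟩ := S.up_face _ _ _ (H.face t (show cyc (1 : Fin 4) 2 0 by decide))
      (H.isblue t rfl) (H.isred t rfl)
    obtain ⟨a3, a4⟩ := S.up_face _ _ _ (H.face t (show cyc (3 : Fin 4) 0 2 by decide))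
      (H.isblue t rfl) (H.isred t rfl)
    rw [S.up_rev _ _ (H.edge t (show (0 : Fin 4) ≠ 2 by decide))] at a1 a2
    rw [S.up_rev _ _ (H.edge t (show (1 : Fin 4) ≠ 2 by decide))] at a1
    rw [S.up_rev _ _ (H.edge t (show (0 : Fin 4) ≠ 1 by decide))] at a2
    exact ⟨not_iff_not.1 a2, not_iff_not.1 a1, a3, a4⟩
  · show S.up (vtx (g • t) i) (vtx (g • t) j) ↔ _
    rw [hv, hv]
    exact S.up_smul g _ _ (H.edge t h)

end Pool.Agent.Work.MP_3d425c_gt.Bor
end

-- merged part: Pool.Agent.Work.MP_3d425c_gt.VI1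
section
/-! The group of the mapping torus, with the two flips of the monodromy. -/

namespace Pool.Agent.Work.MP_3d425c_gt.Inst
open Classical PA Bor

variable {V : Type} [LinearOrder V] {E : V → V → Prop} {X Y : V → ℤ}

theorem exists_group2 (hE : IdealTri E) (hD : Dev E X Y) {w a b : V} (hT : Tri E w a b)
    (h1 : X w = 0) (h2 : Y w = 0) (h3 : X a = 1) (h4 : Y a = 0) {φ : ℝ} (hφ : φ ^ 2 = φ + 1) :
    ∃ (Γ : Type) (_ : Group Γ) (_ : MulAction Γ V) (_ : MulAction Γ (Disc E))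
      (_ : ContinuousConstSMul Γ (Disc E)) (deg : Γ → ℤ) (μ : Γ),
      (∀ g h, deg (g * h) = deg g + deg h) ∧
      (∀ (g : Γ) (a b c : V), cyc a b c → cyc (g • a) (g • b) (g • c)) ∧
      (∀ (g : Γ) (w : V) (x : Disc E), x.1 w = 1 → (g • x).1 (g • w) = 1) ∧
      (∀ g : Γ, ∃ t : ℝ, ∀ x : Disc E, ht (fun v => φ * X v + 1 * Y v) (g • x).1 =
        (φ ^ 2) ^ deg g * ht (fun v => φ * X v + 1 * Y v) x.1 + t) ∧
      (∀ g : Γ, deg g = 0 → (∀ (x : Disc E) (v : V), (g • x).1 (g • v) = x.1 v) ∧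
        Iso E E (MulAction.toPerm g) ∧ Tr X Y fun v => g • v) ∧
      (∀ g : Γ, deg g = 0 → (∀ v : V, g • v = v) → g = 1) ∧
      (∀ π, Iso E E π → Tr X Y π → ∃ g : Γ, deg g = 0 ∧ ∀ v, g • v = π v) ∧
      deg μ = 1 ∧ μ • w = w ∧ Con (fun x : Disc E => μ • x) w w ∧
      ∃ f g : Equiv.Perm V, Iso E (FE E X Y) f ∧ Iso E (FE E X Y) g ∧ (∀ v, μ • v = f (g v)) ∧
        (∀ v, X (f v) = X v + Y v ∧ Y (f v) = Y v) ∧
        ∀ v, X (g v) = X v ∧ Y (g v) = X v + Y v := by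
  have hl : φ ^ 2 ≠ 0 := fun h => by
    have h0 := pow_eq_zero_iff two_ne_zero |>.1 h
    rw [h, h0] at hφ
    norm_num at hφ
  obtain ⟨h5, h6⟩ := hD.rule _ _ _ (hT.rot hE)
  have hF := flip_tri hE hD
  have hD' := flip_dev hE hD
  obtain ⟨f, f1, f2, hf⟩ := rigid hE hF hT.2.1 (Or.inl ⟨hT.2.1, by omega⟩)
  obtain ⟨g, g1, g2, hg⟩ := rigid hE hF hT.2.2.2 (Or.inl ⟨hT.2.2.2, by omega⟩)
  have f3 : ∀ v, X (f v) - Y (f v) = X v + 0 ∧ Y (f v) = Y v + 0 :=
    dev_unique hE hD (Iso.dev hf hD') hT.2.1 (by simp only [f1]; omega) (by simp only [f1]; omega)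
      (by simp only [f2]; omega) (by simp only [f2]; omega)
  have g3 : ∀ v, X (g v) - Y (g v) + Y (g v) = X v + 0 ∧ -(X (g v) - Y (g v)) = Y v + 0 :=
    dev_unique hE hD (Iso.dev hg (hD'.rotate hF)) hT.2.2.2 (by simp only [g1]; omega)
      (by simp only [g1]; omega) (by simp only [g2]; omega) (by simp only [g2]; omega)
  obtain ⟨F, F1, F2, F3, F4⟩ := exists_rho hE hD hT.2.1 (by omega) (by omega) hf
    (fun k ⟨s, t, hk⟩ => ⟨s + t, t, fun v => by
      have := f3 (k (f.symm v))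
      have := hk (f.symm v)
      have := f3 (f.symm v)
      rw [f.apply_symm_apply] at this
      beta_reduce
      omega⟩)
    (fun k ⟨s, t, hk⟩ => ⟨s - t, t, fun v => by
      have := f3 v
      have := hk (f v)
      have := f3 (f.symm (k (f v)))
      rw [f.apply_symm_apply] at this
      beta_reduce
      omega⟩)
  obtain ⟨G, G1, G2, G3, G4⟩ := exists_rho hE hD hT.2.1 (by omega) (by omega) hg
    (fun k ⟨s, t, hk⟩ => ⟨s, s + t, fun v => by
      have := g3 (k (g.symm v))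
      have := hk (g.symm v)
      have := g3 (g.symm v)
      rw [g.apply_symm_apply] at this
      beta_reduce
      omega⟩)
    (fun k ⟨s, t, hk⟩ => ⟨s, t - s, fun v => by
      have := g3 v
      have := hk (g v)
      have := g3 (g.symm (k (g v)))
      rw [g.apply_symm_apply] at this
      beta_reduce
      omega⟩)
  obtain ⟨μ, hμ⟩ : ∃ μ : Big E,
    μ = (f, F.toEquiv, Multiplicative.ofAdd 1) * (g, G.toEquiv, 1) := ⟨_, rfl⟩
  have m1 : μ ∈ Subgroup.normalizer (Kg E X Y : Set (Big E)) := hμ ▸ mul_mem (F4 _) (G4 _)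
  have m2 : μ.2.2 = Multiplicative.ofAdd 1 := by rw [hμ]; rfl
  have m3 : μ ∈ Gg E (fun v => φ * X v + 1 * Y v) hl := by
    rw [hμ]
    refine ⟨fun a b c => (hf.2 _ _ _).trans (hg.2 a b c), fun x v => (F1 _ _).trans (G1 x v),
      F.continuous.comp G.continuous, G.symm.continuous.comp F.symm.continuous, 0, fun x => ?_⟩
    have e1 : (fun v => φ * X (f v) + 1 * Y (f v)) = fun v => φ * X v + (φ + 1) * Y v := by
      funext v
      rw [show X (f v) = X v + Y v by have := f3 v; omega, show Y (f v) = Y v by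
        have := f3 v; omega]
      push_cast
      ring
    refine (F3 φ 1 (G x)).trans ?_
    rw [e1, G3]
    refine ht_aff hE (fun v => ?_) x
    rw [show X (g v) = X v by have := g3 v; omega, show Y (g v) = X v + Y v by
      have := g3 v; omega]
    change _ = (φ ^ 2) ^ (1 + 0 : ℤ) * _ + _
    rw [add_zero (1 : ℤ), zpow_one]
    push_cast
    linear_combination (-(φ + 1) * X v - Y v) * hφ
  let Γ : Subgroup (Big E) :=
    { carrier := {k | ∃ n : ℤ, k * μ ^ (-n) ∈ Kg E X Y}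
      one_mem' := ⟨0, by simp⟩
      mul_mem' := by
        rintro k l ⟨n, hk⟩ ⟨m, hl⟩
        refine ⟨n + m, ?_⟩
        have := mul_mem hk ((Subgroup.mem_normalizer_iff.1 (zpow_mem m1 n) _).1 hl)
        convert this using 1
        group
      inv_mem' := by
        rintro k ⟨n, hk⟩
        refine ⟨-n, ?_⟩
        have := (Subgroup.mem_normalizer_iff.1 (zpow_mem m1 (-n)) _).1 (inv_mem hk)
        convert this using 1
        group }
  have hG : ∀ k : Γ, k.1 ∈ Gg E (fun v => φ * X v + 1 * Y v) hl := by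
    rintro ⟨k, n, hk⟩
    have := mul_mem (Kg_le hE φ 1 hl hk) (zpow_mem m3 n)
    convert this using 1
    group
  have hK : ∀ k : Γ, k.1.2.2.toAdd = 0 → k.1 ∈ Kg E X Y := by
    rintro ⟨k, n, hk⟩ h
    have e := congrArg Multiplicative.toAdd hk.2.2.2
    simp only [Prod.snd_mul, Prod.pow_snd, m2, toAdd_mul, toAdd_zpow, toAdd_ofAdd,
      toAdd_one, smul_eq_mul] at e h
    have : n = 0 := by omega
    simpa [this] using hk
  let _ : MulAction Γ V := MulAction.compHom V ((MonoidHom.fst _ _).comp Γ.subtype)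
  let _ : MulAction Γ (Disc E) := MulAction.compHom (Disc E)
    ((MonoidHom.fst _ _).comp ((MonoidHom.snd _ _).comp Γ.subtype))
  refine ⟨Γ, inferInstance, inferInstance, inferInstance, ⟨fun k => (hG k).2.2.1⟩,
    fun k => k.1.2.2.toAdd, ⟨μ, 1, by simp⟩, fun _ _ => rfl,
    fun k a b c h => ((hG k).1 a b c).2 h, fun k v x h => ((hG k).2.1 x v).2 h,
    fun k => (hG k).2.2.2.2, fun k h => ⟨(hK k h).2.2.1, (hK k h).1, (hK k h).2.1⟩,
    fun k h e => ?_, fun π p1 p2 => ?_, congrArg Multiplicative.toAdd m2, ?_, ?_, f, g, hf, hg,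
    fun v => ?_, fun v => by have := f3 v; omega, fun v => by have := g3 v; omega⟩
  · have e' : k.1.1 = 1 := Equiv.ext e
    refine Subtype.ext (Prod.ext e' (Prod.ext (Equiv.ext fun x => Subtype.ext (funext fun v => ?_))
      (hK k h).2.2.2))
    have := (hK k h).2.2.1 x v
    rwa [e'] at this
  · exact ⟨⟨(π, (push p1).toEquiv, 1), 0, by
      rw [neg_zero, zpow_zero, mul_one]
      exact ⟨p1, p2, push_apply p1, rfl⟩⟩, rfl, fun _ => rfl⟩
  · change μ.1 w = w
    rw [hμ]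
    exact (congrArg f g1).trans f1
  · change Con (fun x => μ.2.1 x) w w
    have := (F2 (g w)).comp (G2 w)
    rw [g1, f1] at this
    rw [hμ]
    exact this
  · change μ.1 v = _
    rw [hμ]
    rfl

end Pool.Agent.Work.MP_3d425c_gt.Inst
end
end

-- merged part: Pool.Agent.Work.MP_3d425c_gt.W.Main
section
-- merged part: Pool.Agent.Work.MP_3d425c_gt.W.Cover
section
/-! A connected combinatorial covering of a simply connected face pairing is trivial.

PLAN (definitions in W/Defs.lean).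
0. `Glued G` is symmetric by `back`, so `Quot.eq` / `EqvGen` is `ReflTransGen`. `back` also holds
for `G'` (the tetrahedron `nbr' (nbr' t k) (perm k k)` has the same image as `t` and the same `v`
at two indices `i ≠ k`, use `hA`). Chains in `T` lift to `T'` from any lift of the start.
1. `Cell G (t, S) (t', S') := ∃ k ∉ S, t' = nbr t k ∧ S' = S.map (perm t k)` on
`T × Finset (Fin 4)`. Star lemma: if `2 ≤ S.card`, `EqvGen (Cell G') (t1, S) (t2, S)` and
`Φ t1 = Φ t2` then `t1 = t2`. card 4: no step. card 3: the class of `(t1, S)` is contained in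
`{(t1, S), (nbr' t1 k, S.map perm)}` and the second set misses `perm k k ≠ k`, so it is not `S`.
card 2: `S.image (v t)` is invariant along `Cell` (`hv`); `v t` is injective (`hB t t`); so `hA`
or `hB` applies.
2. `Dom S := {x : Ideal | ∀ i ∈ S, 0 < x i ∧ ∀ j ∉ S, x j < x i}` is open; `x ∈ Dom S ∩ Dom S'`
with equal cardinalities gives `S = S'`; every `x` lies in some `Dom S` with `2 ≤ S.card`
(two coordinates are positive since all are `< 1`; take `S = {i | 0 < x i}`).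
For a class `σ` of `EqvGen (Cell G)` let `U σ` be the set of `mk ⟨t, x⟩` with `(t, S) ∈ σ`,
`x ∈ Dom S`; membership of `mk ⟨t, x⟩` is equivalent to `∃ S, (t, S) ∈ σ ∧ x ∈ Dom S`
(transport `S` along `Glued`; `x k = 0` forces `k ∉ S`). Open sets of `Space G` are those whose
slices `{x | mk ⟨t, x⟩ ∈ W}` are open (`isOpen_coinduced`/`isQuotientMap_quot_mk`,
`isOpen_sigma_iff`).
3. `p : Space G' → Space G` induced by `Φ`, continuous. It is a covering map: over `U σ` use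
`IsOpen.trivializationDiscrete` (Mathlib.Topology.Covering.Basic) with the sheets `U σ'`, `σ'`
running over the classes of `T'` above `σ` (if `Φ` is known to be onto, there is one). Injective
on a sheet by lifting the chain and the star lemma; disjoint by uniqueness of `S`.
4. Onto: the set of points of tetrahedra in the range of `Φ` is open and closed (the range is
closed under `nbr`, both ways by `back`), nonempty, and `Space G` is connected.
5. `Space G'` is path connected (`Ideal` is convex, `conn`; adjacent tetrahedra share the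
barycentre of the face). A covering map from a path connected space to a simply connected space
is injective (join two points of a fibre, project, the loop is null-homotopic, use
`IsCoveringMap.liftPath_apply_one_eq_of_homotopicRel`, `eq_liftPath_iff` or
`monodromy_theorem` of Mathlib.Topology.Homotopy.Lifting). Apply it to the barycentres: a point
with all coordinates positive is glued to nothing. -/

namespace Pool.Agent.Work.MP_3d425c_gt.Bor
open VR

open Relation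

/-- The face pairings are involutive. -/
def WCover_Back {T : Type} (G : Gluing T) : Prop :=
  ∀ t k, G.nbr (G.nbr t k) (G.perm t k k) = t ∧
    G.perm (G.nbr t k) (G.perm t k k) = (G.perm t k)⁻¹

/-- One step between two corners of tetrahedra around a cell. -/
def WCover_Cell {T : Type} (G : Gluing T) (a b : T × Finset (Fin 4)) : Prop :=
  ∃ k, k ∉ a.2 ∧ b.1 = G.nbr a.1 k ∧ b.2 = a.2.map (G.perm a.1 k).toEmbedding

/-- The part of a tetrahedron that is close to the face spanned by `S`. -/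
def WCover_Dom (S : Finset (Fin 4)) : Set Ideal :=
  {x | ∀ i ∈ S, 0 < x.1 i ∧ ∀ j, j ∉ S → x.1 j < x.1 i}

theorem WCover_rt_symm {α : Type} {r : α → α → Prop} (h : ∀ a b, r a b → r b a) {a b : α}
    (e : ReflTransGen r a b) : ReflTransGen r b a := by
  induction e with
  | refl => exact .refl
  | tail _ hbc ih => exact .head (h _ _ hbc) ih

theorem WCover_rt_of_eqv {α : Type} {r : α → α → Prop} (h : ∀ a b, r a b → r b a) {a b : α}
    (e : EqvGen r a b) : ReflTransGen r a b := by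
  induction e with
  | rel a b hab => exact .single hab
  | refl => exact .refl
  | symm a b _ ih => exact WCover_rt_symm h ih
  | trans a b c _ _ ih1 ih2 => exact ih1.trans ih2

theorem WCover_glued_symm {T : Type} {G : Gluing T} (back : WCover_Back G)
    (a b : Σ _ : T, Ideal) (h : Glued G a b) : Glued G b a := by
  obtain ⟨k, h0, h1, h2⟩ := h
  refine ⟨G.perm a.1 k k, by rw [h2, h0], by rw [h1, (back _ _).1], fun i => ?_⟩
  rw [h1, (back _ _).2, ← h2]
  simp

theorem WCover_map_inv (S : Finset (Fin 4)) (σ : Equiv.Perm (Fin 4)) :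
    (S.map σ.toEmbedding).map (σ⁻¹ : Equiv.Perm (Fin 4)).toEmbedding = S := by
  ext i
  simp [Finset.mem_map_equiv, Equiv.Perm.inv_def]

theorem WCover_mem_map (S : Finset (Fin 4)) (σ : Equiv.Perm (Fin 4)) (i : Fin 4) :
    σ i ∈ S.map σ.toEmbedding ↔ i ∈ S := by
  simp

theorem WCover_cell_symm {T : Type} {G : Gluing T} (back : WCover_Back G)
    (a b : T × Finset (Fin 4)) (h : WCover_Cell G a b) : WCover_Cell G b a := by
  obtain ⟨k, h0, h1, h2⟩ := h
  refine ⟨G.perm a.1 k k, by rw [h2, WCover_mem_map]; exact h0, by rw [h1, (back _ _).1], ?_⟩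
  rw [h1, (back _ _).2, h2, WCover_map_inv]

theorem WCover_card {T : Type} {G : Gluing T} {a b : T × Finset (Fin 4)}
    (h : ReflTransGen (WCover_Cell G) a b) : b.2.card = a.2.card := by
  induction h with
  | refl => rfl
  | tail _ hbc ih =>
    obtain ⟨k, _, _, h2⟩ := hbc
    rw [h2, Finset.card_map, ih]

theorem WCover_dom_open (S : Finset (Fin 4)) : IsOpen (WCover_Dom S) := by
  have e : WCover_Dom S = ⋂ i ∈ S, ({x : Ideal | 0 < x.1 i} ∩
      ⋂ j : Fin 4, ⋂ _ : j ∉ S, {x : Ideal | x.1 j < x.1 i}) := by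
    ext x
    simp [WCover_Dom]
  have hc : ∀ i, Continuous fun x : Ideal => x.1 i := fun i =>
    (continuous_apply i).comp continuous_subtype_val
  rw [e]
  refine isOpen_biInter_finset fun i _ => IsOpen.inter ?_ ?_
  · exact isOpen_lt continuous_const (hc i)
  · exact isOpen_iInter_of_finite fun j => isOpen_iInter_of_finite fun _ =>
      isOpen_lt (hc j) (hc i)

theorem WCover_dom_uniq {S S' : Finset (Fin 4)} {x : Ideal} (h : x ∈ WCover_Dom S)
    (h' : x ∈ WCover_Dom S') (e : S.card = S'.card) : S = S' := by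
  by_contra hne
  have h1 : ¬ S ⊆ S' := fun hs => hne (Finset.eq_of_subset_of_card_le hs e.ge)
  have h2 : ¬ S' ⊆ S := fun hs => hne (Finset.eq_of_subset_of_card_le hs e.le).symm
  obtain ⟨i, hi, hi'⟩ := Finset.not_subset.1 h1
  obtain ⟨j, hj, hj'⟩ := Finset.not_subset.1 h2
  exact lt_asymm ((h i hi).2 j hj') ((h' j hj).2 i hi')

theorem WCover_dom_ex (x : Ideal) : ∃ S : Finset (Fin 4), 2 ≤ S.card ∧ x ∈ WCover_Dom S := by
  classical
  refine ⟨Finset.univ.filter fun i => 0 < x.1 i, ?_, fun i hi => ?_⟩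
  · by_contra hc
    obtain ⟨i, hi⟩ := Finset.card_le_one_iff_subset_singleton.1 (Nat.lt_succ_iff.1 (not_le.1 hc))
    have e : ∑ j, x.1 j = x.1 i := by
      refine Finset.sum_eq_single i (fun j _ hj => ?_) (by simp)
      refine le_antisymm (not_lt.1 fun h => hj ?_) (x.2.1 j).1
      exact Finset.mem_singleton.1 (hi (Finset.mem_filter.2 ⟨Finset.mem_univ _, h⟩))
    have := (x.2.1 i).2
    rw [← e, x.2.2] at this
    exact lt_irrefl _ this
  · have h := (Finset.mem_filter.1 hi).2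
    refine ⟨h, fun j hj => lt_of_le_of_lt (not_lt.1 fun h' => hj ?_) h⟩
    exact Finset.mem_filter.2 ⟨Finset.mem_univ _, h'⟩

/-- Points of tetrahedra close to the cell of the corner `c`. -/
def WCover_P {T : Type} (G : Gluing T) (c : T × Finset (Fin 4)) (a : Σ _ : T, Ideal) : Prop :=
  ∃ S, ReflTransGen (WCover_Cell G) c (a.1, S) ∧ a.2 ∈ WCover_Dom S

theorem WCover_P_glued {T : Type} {G : Gluing T} {c : T × Finset (Fin 4)}
    {a b : Σ _ : T, Ideal} (h : Glued G a b) (ha : WCover_P G c a) : WCover_P G c b := by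
  obtain ⟨k, h0, h1, h2⟩ := h
  obtain ⟨S, hS, hx⟩ := ha
  have hk : k ∉ S := fun hk => (hx k hk).1.ne' h0
  refine ⟨S.map (G.perm a.1 k).toEmbedding, hS.tail ⟨k, hk, h1, rfl⟩, fun i hi => ?_⟩
  obtain ⟨i, rfl⟩ := (G.perm a.1 k).surjective i
  rw [WCover_mem_map] at hi
  rw [h2]
  refine ⟨(hx i hi).1, fun j hj => ?_⟩
  obtain ⟨j, rfl⟩ := (G.perm a.1 k).surjective j
  rw [WCover_mem_map] at hj
  rw [h2]
  exact (hx i hi).2 j hj

/-- The open star of a cell. -/
def WCover_U {T : Type} {G : Gluing T} (back : WCover_Back G) (c : T × Finset (Fin 4)) :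
    Set (Space G) :=
  {q | Quot.lift (WCover_P G c) (fun a b h =>
    propext ⟨WCover_P_glued h, WCover_P_glued (WCover_glued_symm back a b h)⟩) q}

theorem WCover_mem_U {T : Type} {G : Gluing T} (back : WCover_Back G) (c : T × Finset (Fin 4))
    (a : Σ _ : T, Ideal) : Quot.mk (Glued G) a ∈ WCover_U back c ↔ WCover_P G c a := Iff.rfl

theorem WCover_open_iff {T : Type} {G : Gluing T} (W : Set (Space G)) :
    IsOpen W ↔ ∀ t, IsOpen {x : Ideal | Quot.mk (Glued G) ⟨t, x⟩ ∈ W} := by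
  rw [← isQuotientMap_quot_mk.isOpen_preimage, isOpen_sigma_iff]
  rfl

theorem WCover_U_open {T : Type} {G : Gluing T} (back : WCover_Back G)
    (c : T × Finset (Fin 4)) : IsOpen (WCover_U back c) := by
  rw [WCover_open_iff]
  intro t
  have e : {x : Ideal | Quot.mk (Glued G) ⟨t, x⟩ ∈ WCover_U back c} =
      ⋃ S, ⋃ _ : ReflTransGen (WCover_Cell G) c (t, S), WCover_Dom S := by
    ext x
    simp only [Set.mem_ofPred_eq, WCover_mem_U, WCover_P, Set.mem_iUnion, exists_prop]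
  rw [e]
  exact isOpen_iUnion fun S => isOpen_iUnion fun _ => WCover_dom_open S

theorem WCover_lift_cell {T T' : Type} {G : Gluing T} {G' : Gluing T'} {Φ : T' → T}
    (hn : ∀ t k, Φ (G'.nbr t k) = G.nbr (Φ t) k) (hp : ∀ t k, G'.perm t k = G.perm (Φ t) k)
    {s : T'} {S : Finset (Fin 4)} {c : T × Finset (Fin 4)}
    (h : ReflTransGen (WCover_Cell G) (Φ s, S) c) :
    ∃ s', Φ s' = c.1 ∧ ReflTransGen (WCover_Cell G') (s, S) (s', c.2) := by
  induction h with
  | refl => exact ⟨s, rfl, .refl⟩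
  | tail _ hbc ih =>
    obtain ⟨k, h0, h1, h2⟩ := hbc
    obtain ⟨s', e, hs⟩ := ih
    refine ⟨G'.nbr s' k, by rw [hn, e, h1], hs.tail ⟨k, h0, rfl, ?_⟩⟩
    simp only
    rw [hp, e, h2]

theorem WCover_lift_glued {T T' : Type} {G : Gluing T} {G' : Gluing T'} {Φ : T' → T}
    (hn : ∀ t k, Φ (G'.nbr t k) = G.nbr (Φ t) k) (hp : ∀ t k, G'.perm t k = G.perm (Φ t) k)
    {a : Σ _ : T', Ideal} {b : Σ _ : T, Ideal}
    (h : ReflTransGen (Glued G) ⟨Φ a.1, a.2⟩ b) :
    ∃ s, Φ s = b.1 ∧ Quot.mk (Glued G') a = Quot.mk (Glued G') ⟨s, b.2⟩ := by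
  induction h with
  | refl => exact ⟨a.1, rfl, rfl⟩
  | tail _ hbc ih =>
    obtain ⟨k, h0, h1, h2⟩ := hbc
    obtain ⟨s, e, hs⟩ := ih
    refine ⟨G'.nbr s k, by rw [hn, e, h1], hs.trans (Quot.sound ⟨k, h0, rfl, fun i => ?_⟩)⟩
    simp only
    rw [hp, e, h2]

theorem WCover_cases : ∀ S : Finset (Fin 4), 2 ≤ S.card → (∀ k, k ∈ S) ∨
    (∃ k, ∀ i, i ∉ S ↔ i = k) ∨ ∃ i j, i ≠ j ∧ S = {i, j} := by
  decide

theorem WCover_star {T T' V : Type} {G' : Gluing T'} {Φ : T' → T} {v : T' → Fin 4 → V}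
    (back : WCover_Back G') (ne : ∀ t k, G'.perm t k k ≠ k)
    (hv : ∀ t k i, i ≠ k → v (G'.nbr t k) (G'.perm t k i) = v t i)
    (hA : ∀ t t' i j, i ≠ j → Φ t = Φ t' → v t i = v t' i → v t j = v t' j → t = t')
    (hB : ∀ t t' i j, i ≠ j → Φ t = Φ t' → v t i = v t' j → v t j = v t' i → False)
    {t1 t2 : T'} {S : Finset (Fin 4)} (hS : 2 ≤ S.card)
    (h : ReflTransGen (WCover_Cell G') (t1, S) (t2, S)) (e : Φ t1 = Φ t2) : t1 = t2 := by
  rcases WCover_cases S hS with h4 | ⟨k, h3⟩ | ⟨i, j, hij, h2⟩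
  · rcases h.cases_head with h | ⟨c, ⟨k, hk, _⟩, _⟩
    · exact congrArg Prod.fst h
    · exact absurd (h4 k) hk
  · have key : ∀ c, ReflTransGen (WCover_Cell G') (t1, S) c →
        c = (t1, S) ∨ c = (G'.nbr t1 k, S.map (G'.perm t1 k).toEmbedding) := by
      intro c hc
      induction hc with
      | refl => exact .inl rfl
      | tail _ hbc ih =>
        obtain ⟨l, h0, h1, h2⟩ := hbc
        rcases ih with rfl | rfl
        · obtain rfl := (h3 l).1 h0
          exact .inr (Prod.ext h1 h2)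
        · obtain ⟨l, rfl⟩ := (G'.perm t1 k).surjective l
          simp only [WCover_mem_map] at h0 h1 h2
          obtain rfl := (h3 l).1 h0
          rw [(back _ _).1] at h1
          rw [(back _ _).2, WCover_map_inv] at h2
          exact .inl (Prod.ext h1 h2)
    rcases key _ h with h | h
    · exact (congrArg Prod.fst h).symm
    · have e2 : S = S.map (G'.perm t1 k).toEmbedding := congrArg Prod.snd h
      refine absurd ((h3 _).1 ?_) (ne t1 k)
      rw [e2, WCover_mem_map]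
      exact (h3 k).2 rfl
  · have key : ∀ c, ReflTransGen (WCover_Cell G') (t1, S) c → v c.1 '' c.2 = v t1 '' S := by
      intro c hc
      induction hc with
      | refl => rfl
      | tail _ hbc ih =>
        obtain ⟨l, h0, h1, h2⟩ := hbc
        rw [← ih, h1, h2, Finset.coe_map, Set.image_image]
        refine Set.image_congr fun m hm => hv _ _ _ ?_
        rintro rfl
        exact h0 hm
    have e2 := key _ h
    simp only [h2, Finset.coe_insert, Finset.coe_singleton, Set.image_pair] at e2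
    rcases Set.pair_eq_pair_iff.1 e2 with ⟨a, b⟩ | ⟨a, b⟩
    · exact hA _ _ i j hij e a.symm b.symm
    · exact (hB _ _ i j hij e b.symm a.symm).elim

theorem WCover_inj {E X : Type} [TopologicalSpace E] [TopologicalSpace X]
    [SimplyConnectedSpace X] {p : E → X} (cov : IsCoveringMap p) {a b : E} (h : Joined a b)
    (e : p a = p b) : a = b := by
  obtain ⟨γ⟩ := h
  let P1 : Path (p a) (p a) :=
    ⟨(⟨p, cov.continuous⟩ : C(E, X)).comp γ.toContinuousMap, by simp, by simp [e]⟩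
  let P2 : Path (p a) (p a) :=
    ⟨(⟨p, cov.continuous⟩ : C(E, X)).comp (ContinuousMap.const unitInterval a), rfl, rfl⟩
  have H : γ.toContinuousMap.HomotopicRel (ContinuousMap.const unitInterval a) {0, 1} :=
    (cov.homotopicRel_iff_comp ⟨0, .inl rfl, by simp⟩).2
      (SimplyConnectedSpace.paths_homotopic P1 P2)
  obtain ⟨H⟩ := H
  have := H.fst_eq_snd (x := 1) (.inr rfl)
  simpa using this.symm

/-- The barycentre of a tetrahedron. -/
noncomputable def WCover_bary : Ideal :=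
  ⟨fun _ => 1 / 4, fun _ => by norm_num, by norm_num [Fin.sum_univ_four]⟩

/-- The barycentre of a face. -/
noncomputable def WCover_face (k : Fin 4) : Ideal :=
  ⟨fun i => if i = k then 0 else 1 / 3, fun i => by
    dsimp only
    split_ifs <;> norm_num, by
    fin_cases k <;> simp [Fin.sum_univ_four] <;> norm_num⟩

theorem WCover_joined (x y : Ideal) : Joined x y := by
  have hc : Convex ℝ {x : Fin 4 → ℝ | (∀ i, 0 ≤ x i ∧ x i < 1) ∧ ∑ i, x i = 1} := by
    intro x hx y hy a b ha hb hab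
    refine ⟨fun i => ?_, ?_⟩
    · exact convex_Ico (0 : ℝ) 1 (hx.1 i) (hy.1 i) ha hb hab
    · simp only [Pi.add_apply, Pi.smul_apply, smul_eq_mul, Finset.sum_add_distrib,
        ← Finset.mul_sum, hx.2, hy.2]
      linarith
  have hp := isPathConnected_iff_pathConnectedSpace.1 (hc.isPathConnected ⟨x.1, x.2⟩)
  exact hp.joined x y

theorem WCover_joined_in {T : Type} (G : Gluing T) (t : T) (x y : Ideal) :
    Joined (Quot.mk (Glued G) ⟨t, x⟩) (Quot.mk (Glued G) ⟨t, y⟩) :=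
  (WCover_joined x y).elim fun γ =>
    ⟨γ.map (continuous_quot_mk.comp (continuous_sigmaMk (σ := fun _ : T => Ideal) (i := t)))⟩

theorem WCover_joined_bary {T : Type} (G : Gluing T) {t t' : T}
    (h : EqvGen (fun a b => ∃ k, b = G.nbr a k) t t') :
    Joined (Quot.mk (Glued G) ⟨t, WCover_bary⟩) (Quot.mk (Glued G) ⟨t', WCover_bary⟩) := by
  induction h with
  | rel a b hab =>
    obtain ⟨k, rfl⟩ := hab
    have e : Quot.mk (Glued G) ⟨a, WCover_face k⟩ =
        Quot.mk (Glued G) ⟨G.nbr a k, WCover_face (G.perm a k k)⟩ :=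
      Quot.sound ⟨k, by simp [WCover_face], rfl, fun i => by simp [WCover_face]⟩
    refine (WCover_joined_in G a _ (WCover_face k)).trans ?_
    rw [e]
    exact WCover_joined_in G _ _ _
  | refl => exact Joined.refl _
  | symm a b _ ih => exact ih.symm
  | trans a b c _ _ ih1 ih2 => exact ih1.trans ih2

theorem WCover_two : ∀ k : Fin 4, ∃ i j : Fin 4, i ≠ j ∧ i ≠ k ∧ j ≠ k := by
  decide

theorem cover_bij {T T' V : Type} (G : Gluing T) (G' : Gluing T') (Φ : T' → T)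
    (v : T' → Fin 4 → V)
    (back : ∀ t k, G.nbr (G.nbr t k) (G.perm t k k) = t ∧
      G.perm (G.nbr t k) (G.perm t k k) = (G.perm t k)⁻¹)
    (ne : ∀ t k, G.perm t k k ≠ k)
    (hn : ∀ t k, Φ (G'.nbr t k) = G.nbr (Φ t) k) (hp : ∀ t k, G'.perm t k = G.perm (Φ t) k)
    (hv : ∀ t k i, i ≠ k → v (G'.nbr t k) (G'.perm t k i) = v t i)
    (hA : ∀ t t' i j, i ≠ j → Φ t = Φ t' → v t i = v t' i → v t j = v t' j → t = t')
    (hB : ∀ t t' i j, i ≠ j → Φ t = Φ t' → v t i = v t' j → v t j = v t' i → False)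
    (conn : ∀ t t', Relation.EqvGen (fun a b => ∃ k, b = G'.nbr a k) t t') [Nonempty T']
    [SimplyConnectedSpace (Space G)] : Function.Bijective Φ := by
  have bk : WCover_Back G := back
  have bk' : WCover_Back G' := by
    intro t k
    have e1 : Φ (G'.nbr (G'.nbr t k) (G'.perm t k k)) = Φ t := by
      rw [hn, hn, hp, (back _ _).1]
    have e2 : G'.perm (G'.nbr t k) (G'.perm t k k) = (G'.perm t k)⁻¹ := by
      rw [hp, hn, hp, (back _ _).2]
    have e3 : ∀ i, i ≠ k → v (G'.nbr (G'.nbr t k) (G'.perm t k k)) i = v t i := by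
      intro i hi
      have a := hv (G'.nbr t k) (G'.perm t k k) (G'.perm t k i)
        fun h => hi ((G'.perm t k).injective h)
      rw [e2, hv t k i hi] at a
      simpa using a
    obtain ⟨i, j, hij, hi, hj⟩ := WCover_two k
    exact ⟨hA _ _ i j hij e1 (e3 i hi) (e3 j hj), e2⟩
  have ne' : ∀ t k, G'.perm t k k ≠ k := fun t k => by rw [hp]; exact ne _ _
  have star := fun t1 t2 S => WCover_star (t1 := t1) (t2 := t2) (S := S) bk' ne' hv hA hB
  have hsurj : Function.Surjective Φ := by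
    have st : ∀ a b : Σ _ : T, Ideal, Glued G a b → a.1 ∈ Set.range Φ → b.1 ∈ Set.range Φ := by
      rintro a b ⟨k, _, h1, _⟩ ⟨s, hs⟩
      exact ⟨G'.nbr s k, by rw [hn, hs, h1]⟩
    let A : Set (Space G) := {q | Quot.lift (fun a : Σ _ : T, Ideal => a.1 ∈ Set.range Φ)
      (fun a b h => propext ⟨st a b h, st b a (WCover_glued_symm bk a b h)⟩) q}
    have hc : IsClopen A := by
      refine ⟨isOpen_compl_iff.1 ?_, ?_⟩
      · rw [WCover_open_iff]
        exact fun t => isOpen_const (p := t ∉ Set.range Φ)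
      · rw [WCover_open_iff]
        exact fun t => isOpen_const (p := t ∈ Set.range Φ)
    rcases isClopen_iff.1 hc with h | h
    · obtain ⟨s⟩ := ‹Nonempty T'›
      have : Quot.mk (Glued G) ⟨Φ s, WCover_bary⟩ ∈ A := ⟨s, rfl⟩
      rw [h] at this
      exact this.elim
    · intro t
      have : Quot.mk (Glued G) ⟨t, WCover_bary⟩ ∈ A := h ▸ Set.mem_univ _
      exact this
  have hg : ∀ a b : Σ _ : T', Ideal, Glued G' a b →
      Quot.mk (Glued G) ⟨Φ a.1, a.2⟩ = Quot.mk (Glued G) ⟨Φ b.1, b.2⟩ := by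
    rintro a b ⟨k, h0, h1, h2⟩
    refine Quot.sound ⟨k, h0, by rw [h1, hn], fun i => ?_⟩
    simp only
    rw [← hp, h2]
  let p : Space G' → Space G := Quot.lift (fun a => Quot.mk (Glued G) ⟨Φ a.1, a.2⟩) hg
  have pc : Continuous p := by
    refine continuous_quot_lift hg (continuous_sigma fun t => ?_)
    exact continuous_quot_mk.comp (continuous_sigmaMk (σ := fun _ : T => Ideal) (i := Φ t))
  have cov : IsCoveringMap p := by
    intro q
    induction q using Quot.ind with | _ a0 => ?_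
    obtain ⟨t0, x0⟩ := a0
    obtain ⟨S0, hS0, hx0⟩ := WCover_dom_ex x0
    let ι := {s : T' // Φ s = t0}
    let : TopologicalSpace ι := ⊥
    have : DiscreteTopology ι := ⟨rfl⟩
    have : Nonempty ι := (hsurj t0).elim fun s hs => ⟨⟨s, hs⟩⟩
    have : Nonempty (Space G') :=
      ‹Nonempty T'›.elim fun s => ⟨Quot.mk (Glued G') ⟨s, WCover_bary⟩⟩
    have lf : ∀ (i : ι) (t : T) (x : Ideal), WCover_P G (t0, S0) ⟨t, x⟩ →
        ∃ s, Φ s = t ∧ WCover_P G' (i.1, S0) ⟨s, x⟩ := by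
      rintro ⟨i, rfl⟩ t x ⟨S, hS, hx⟩
      obtain ⟨s, e, hs⟩ := WCover_lift_cell hn hp hS
      exact ⟨s, e, S, hs, hx⟩
    refine IsEvenlyCovered.to_isEvenlyCovered_preimage (I := ι) (.of_trivialization
      (t := (WCover_U_open bk (t0, S0)).trivializationDiscrete
        (fun i : ι => WCover_U bk' (i.1, S0)) _ (fun i W hW => ⟨fun h => ?_, fun h => ?_⟩)
        (fun i => ?_) (fun i => ?_) (fun i j hij => ?_) ?_) ⟨S0, .refl, hx0⟩)
    · exact (h.preimage pc).inter (WCover_U_open bk' _)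
    · rw [WCover_open_iff] at h ⊢
      intro t
      refine isOpen_iff_forall_mem_open.2 fun x hx => ?_
      obtain ⟨s, rfl, hs⟩ := lf i t x (hW hx)
      exact ⟨_, fun y hy => hy.1, h s, hx, hs⟩
    · intro a ha b hb e
      induction a using Quot.ind with | _ a => ?_
      induction b using Quot.ind with | _ b => ?_
      obtain ⟨s, e1, e2⟩ := WCover_lift_glued hn hp
        (WCover_rt_of_eqv (WCover_glued_symm bk) (Quot.eq.1 e))
      rw [e2] at ha ⊢
      obtain ⟨S1, h1, x1⟩ := ha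
      obtain ⟨S2, h2, x2⟩ := hb
      have c1 := WCover_card h1
      have c2 := WCover_card h2
      obtain rfl : S1 = S2 := WCover_dom_uniq x1 x2 (c1.trans c2.symm)
      have e3 : s = b.1 := star _ _ _ (hS0.trans c1.ge)
        ((WCover_rt_symm (WCover_cell_symm bk') h1).trans h2) e1
      rw [e3]
    · intro b hb
      induction b using Quot.ind with | _ b => ?_
      obtain ⟨s, e, hs⟩ := lf i b.1 b.2 hb
      refine ⟨Quot.mk (Glued G') ⟨s, b.2⟩, hs, ?_⟩
      change Quot.mk (Glued G) ⟨Φ s, b.2⟩ = _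
      rw [e]
    · refine Set.disjoint_left.2 fun a h1 h2 => hij (Subtype.ext ?_)
      induction a using Quot.ind with | _ a => ?_
      obtain ⟨S1, h1, x1⟩ := h1
      obtain ⟨S2, h2, x2⟩ := h2
      obtain rfl : S1 = S2 := WCover_dom_uniq x1 x2 ((WCover_card h1).trans (WCover_card h2).symm)
      exact star _ _ _ hS0 (h1.trans (WCover_rt_symm (WCover_cell_symm bk') h2))
        (i.2.trans j.2.symm)
    · intro a ha
      induction a using Quot.ind with | _ a => ?_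
      obtain ⟨S, hS, hx⟩ := ha
      obtain ⟨s, e, hs⟩ := WCover_lift_cell hn hp (WCover_rt_symm (WCover_cell_symm bk) hS)
      exact Set.mem_iUnion.2 ⟨⟨s, e⟩, S, WCover_rt_symm (WCover_cell_symm bk') hs, hx⟩
  refine ⟨fun t1 t2 e => ?_, hsurj⟩
  have e1 : Quot.mk (Glued G') ⟨t1, WCover_bary⟩ = Quot.mk (Glued G') ⟨t2, WCover_bary⟩ := by
    refine WCover_inj cov (WCover_joined_bary G' (conn t1 t2)) ?_
    change Quot.mk (Glued G) ⟨Φ t1, WCover_bary⟩ = Quot.mk (Glued G) ⟨Φ t2, WCover_bary⟩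
    rw [e]
  rcases (WCover_rt_of_eqv (WCover_glued_symm bk') (Quot.eq.1 e1)).cases_head with
    h | ⟨c, ⟨k, hk, _⟩, _⟩
  · exact congrArg Sigma.fst h
  · simp [WCover_bary] at hk

end Pool.Agent.Work.MP_3d425c_gt.Bor
end

-- merged part: Pool.Agent.Work.MP_3d425c_gt.W.Vtx
section
/-! A simply connected veering triangulation is layered and its cusps are circularly ordered. -/

namespace Pool.Agent.Work.MP_3d425c_gt.Bor
open PA Relation

variable {T V C D : Type} [LinearOrder V] {G : VR.Gluing T} {red : T × Fin 4 × Fin 4 → Prop}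
  {X : VD C D (T × Bool)} {cor : T → Fin 4 → Fin 4 → Fin 4 → C} {dart : T × Fin 4 × Fin 4 → D}
  {S : VC V} {dl : V → V → D} {lab : V → V → V → C}

/-- `v` lists the cusps of a tetrahedron of `S` with label `t`. -/
def Pos (X : VD C D (T × Bool)) (S : VC V) (lab : V → V → V → C) (t : T) (v : Fin 4 → V) : Prop :=
  (∃ k, Tet S.K S.red k (v 0) (v 1) (v 2) (v 3)) ∧ lab (v 1) (v 2) (v 0) = X.β (t, false)

section
variable (hD : Dict G red X cor dart) (hL : Lab X S dl lab)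
include hD hL

theorem pos_lab {t : T} {v : Fin 4 → V} (h : Pos X S lab t v) {i j l : Fin 4} (c : cyc i j l) :
    S.Face (v i) (v j) (v l) ∧ lab (v i) (v j) (v l) = cor t i j l := by
  obtain ⟨⟨k, u⟩, e⟩ := h
  obtain ⟨f, l1, l2, l3, l4⟩ := hL.tet _ _ _ _ _ u
  obtain rfl : f = (t, false) := X.βi _ _ (by rw [← l1, e])
  obtain ⟨f1, f2, f3, f4⟩ := VC.tet_faces u
  have r : ∀ i j l : Fin 4, cyc i j l →
      S.Face (v i) (v j) (v l) ∧ lab (v i) (v j) (v l) = cor t i j l →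
      S.Face (v j) (v l) (v i) ∧ lab (v j) (v l) (v i) = cor t j l i := fun i j l c h =>
    ⟨h.1.rot, by rw [hL.rot _ _ _ h.1, h.2, hD.ρ _ _ _ _ c]⟩
  have g1 := And.intro (⟨_, f1⟩ : S.Face _ _ _) (l1.trans (hD.β0 t))
  have g2 := And.intro (⟨_, f2⟩ : S.Face _ _ _) (l2.trans (hD.rot t false ▸ hD.β1 t))
  have g3 := And.intro (⟨_, f3⟩ : S.Face _ _ _) (l3.trans (hD.τ0 t))
  have g4 := And.intro (⟨_, f4⟩ : S.Face _ _ _) (l4.trans (hD.rot t false ▸ hD.τ1 t))
  have a1 := r _ _ _ (by decide) g1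
  have a2 := r _ _ _ (by decide) g2
  have a3 := r _ _ _ (by decide) g3
  have a4 := r _ _ _ (by decide) g4
  have b1 := r _ _ _ (by decide) a1
  have b2 := r _ _ _ (by decide) a2
  have b3 := r _ _ _ (by decide) a3
  have b4 := r _ _ _ (by decide) a4
  fin_cases i <;> fin_cases j <;> fin_cases l <;> first
    | exact absurd c (by decide)
    | exact g1 | exact g2 | exact g3 | exact g4 | exact a1 | exact a2 | exact a3 | exact a4
    | exact b1 | exact b2 | exact b3 | exact b4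

theorem pos_of_tet {k : ℤ} {a c b d : V} (u : Tet S.K S.red k a c b d) :
    ∃ t v, Pos X S lab t v ∧ ((v 0 = a ∧ v 1 = c ∧ v 2 = b ∧ v 3 = d) ∨
      (v 0 = b ∧ v 1 = d ∧ v 2 = a ∧ v 3 = c)) := by
  obtain ⟨⟨t, s⟩, l1, l2, -⟩ := hL.tet _ _ _ _ _ u
  cases s
  · exact ⟨t, ![a, c, b, d], ⟨⟨k, u⟩, l1⟩, Or.inl ⟨rfl, rfl, rfl, rfl⟩⟩
  · exact ⟨t, ![b, d, a, c], ⟨⟨k, VC.tet_rot u⟩, l2.trans (by rw [hD.rot]; rfl)⟩,
      Or.inr ⟨rfl, rfl, rfl, rfl⟩⟩

theorem pos_dart {t : T} {v : Fin 4 → V} (h : Pos X S lab t v) {i j : Fin 4} (hij : i ≠ j) :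
    S.E (v i) (v j) ∧ dl (v i) (v j) = dart (t, i, j) := by
  have k : ∀ l i j : Fin 4, cyc l i j → S.E (v i) (v j) ∧ dl (v i) (v j) = dart (t, i, j) :=
    fun l i j c => ⟨(pos_lab hD hL h c).1.e3, by
      rw [← hL.dart _ _ _ (pos_lab hD hL h c).1, (pos_lab hD hL h c).2, hD.E _ _ _ _ c]⟩
  obtain ⟨l, c | c⟩ : ∃ l, cyc l i j ∨ cyc l j i := by
    clear * - hij
    revert i j
    decide
  · exact k _ _ _ c
  · obtain ⟨h1, h2⟩ := k _ _ _ c
    exact ⟨h1.symm, by rw [hL.rv _ _ h1, h2, hD.rv]⟩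

theorem pos_ext (wu : WellFounded fun c' c => X.Up c c') {t : T} {v v' : Fin 4 → V}
    (h : Pos X S lab t v) (h' : Pos X S lab t v') {i j : Fin 4} (hij : i ≠ j) (e1 : v i = v' i)
    (e2 : v j = v' j) : v = v' := by
  have k : ∀ l i j : Fin 4, cyc l i j → v i = v' i → v j = v' j → v l = v' l :=
    fun l i j c e1 e2 => by
      obtain ⟨f, p⟩ := pos_lab hD hL h c
      obtain ⟨f', p'⟩ := pos_lab hD hL h' c
      rw [← e1, ← e2] at f' p'
      exact hL.inj wu f f' (p.trans p'.symm)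
  funext l
  obtain rfl | rfl | c | c : l = i ∨ l = j ∨ cyc l i j ∨ cyc l j i := by
    clear * - hij
    revert i j l
    decide
  exacts [e1, e2, k _ _ _ c e1 e2, k _ _ _ c e2 e1]

theorem pos_face {w a b : V} (h : S.Face w a b) (p : Prop) : ∃ t v i j l k, Pos X S lab t v ∧
    cyc i j l ∧ k ≠ i ∧ k ≠ j ∧ k ≠ l ∧ (p ↔ Odd k.val) ∧ v i = w ∧ v j = a ∧ v l = b := by
  have m : ∀ t v (i j l k : Fin 4), Pos X S lab t v →
      (cyc i j l ∧ k ≠ i ∧ k ≠ j ∧ k ≠ l) → (p ↔ Odd k.val) → v i = w → v j = a → v l = b →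
      ∃ t v i j l k, Pos X S lab t v ∧ cyc i j l ∧ k ≠ i ∧ k ≠ j ∧ k ≠ l ∧ (p ↔ Odd k.val) ∧
        v i = w ∧ v j = a ∧ v l = b := fun t v i j l k h1 h2 h3 h4 h5 h6 =>
    ⟨t, v, i, j, l, k, h1, h2.1, h2.2.1, h2.2.2.1, h2.2.2.2, h3, h4, h5, h6⟩
  by_cases hp : p
  · have o1 : p ↔ Odd (1 : Fin 4).val := iff_of_true hp (by decide)
    have o3 : p ↔ Odd (3 : Fin 4).val := iff_of_true hp (by decide)
    obtain ⟨k, d, u | u | u⟩ := h.above <;> obtain ⟨t, v, q, e | e⟩ := pos_of_tet hD hL u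
    exacts [m t v 1 2 0 3 q (by decide) o3 e.2.1 e.2.2.1 e.1,
      m t v 3 0 2 1 q (by decide) o1 e.2.2.2 e.1 e.2.2.1,
      m t v 0 1 2 3 q (by decide) o3 e.1 e.2.1 e.2.2.1,
      m t v 2 3 0 1 q (by decide) o1 e.2.2.1 e.2.2.2 e.1,
      m t v 2 0 1 3 q (by decide) o3 e.2.2.1 e.1 e.2.1,
      m t v 0 2 3 1 q (by decide) o1 e.1 e.2.2.1 e.2.2.2]
  · have o0 : p ↔ Odd (0 : Fin 4).val := iff_of_false hp (by decide)
    have o2 : p ↔ Odd (2 : Fin 4).val := iff_of_false hp (by decide)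
    obtain ⟨k, d, u | u | u⟩ := h.below <;> obtain ⟨t, v, q, e | e⟩ := pos_of_tet hD hL u
    exacts [m t v 0 1 3 2 q (by decide) o2 e.1 e.2.1 e.2.2.2,
      m t v 2 3 1 0 q (by decide) o0 e.2.2.1 e.2.2.2 e.2.1,
      m t v 3 0 1 2 q (by decide) o2 e.2.2.2 e.1 e.2.1,
      m t v 1 2 3 0 q (by decide) o0 e.2.1 e.2.2.1 e.2.2.2,
      m t v 1 3 0 2 q (by decide) o2 e.2.1 e.2.2.2 e.1,
      m t v 3 1 2 0 q (by decide) o0 e.2.2.2 e.2.1 e.2.2.1]

theorem pos_nbr {t : T} {v : Fin 4 → V} (h : Pos X S lab t v) (k : Fin 4) :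
    ∃ v', Pos X S lab (G.nbr t k) v' ∧ ∀ i, i ≠ k → v' (G.perm t k i) = v i := by
  obtain ⟨i, j, l, c, n1, n2, n3, n4⟩ : ∃ i j l : Fin 4, cyc i j l ∧ k ≠ i ∧ k ≠ j ∧ k ≠ l ∧
      ∀ x, x ≠ k → x = i ∨ x = j ∨ x = l := by
    clear * -
    revert k
    decide
  obtain ⟨f, p⟩ := pos_lab hD hL h c
  obtain ⟨t', v', i', j', l', k', q, c', m1, m2, m3, m4, e1, e2, e3⟩ :=
    pos_face hD hL f (Even k.val)
  have p' := (pos_lab hD hL q c').2
  rw [e1, e2, e3, p] at p'
  rcases hD.inj _ _ _ _ k _ _ _ _ c c' n1 n2 n3 p' with ⟨-, rfl, rfl, rfl⟩ | ⟨rfl, rfl, rfl, rfl⟩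
  · obtain rfl : k' = k := by_contra fun e => by
      rcases n4 _ e with e | e | e
      exacts [m1 e, m2 e, m3 e]
    exact absurd m4 (by rw [← Nat.not_even_iff_odd]; exact iff_not_self)
  · refine ⟨v', q, fun x hx => ?_⟩
    rcases n4 x hx with rfl | rfl | rfl
    exacts [e1, e2, e3]

end

theorem exists_model (hV : VR.Veering G red) [SimplyConnectedSpace (VR.Space G)] :
    ∃ (V : Type) (_ : LinearOrder V) (_ : Countable V) (S : VC V) (vtx : T → Fin 4 → V),
      Model G red S vtx := by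
  obtain ⟨C, D, X, cor, dart, hD, wu, wd⟩ := exists_dict hV
  obtain ⟨⟨t0, -⟩⟩ : Nonempty (VR.Space G) := inferInstance
  obtain ⟨V, _, _, S, dl, lab, hL⟩ := grow X wu wd (X.β (t0, false))
  choose nx h1 h2 using fun (p : {p : T × (Fin 4 → V) // Pos X S lab p.1 p.2}) k =>
    pos_nbr hD hL p.2 k
  let G' : VR.Gluing {p : T × (Fin 4 → V) // Pos X S lab p.1 p.2} :=
    ⟨fun p k => ⟨(G.nbr p.1.1 k, nx p k), h1 p k⟩, fun p k => G.perm p.1.1 k⟩
  have hA : ∀ (p q : {p : T × (Fin 4 → V) // Pos X S lab p.1 p.2}) i j, i ≠ j → p.1.1 = q.1.1 →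
      p.1.2 i = q.1.2 i → p.1.2 j = q.1.2 j → p = q := by
    rintro ⟨⟨t, v⟩, h⟩ ⟨⟨t', v'⟩, h'⟩ i j hij (rfl : t = t') e1 e2
    exact Subtype.ext (Prod.ext rfl (pos_ext hD hL wu h h' hij e1 e2))
  have dt : ∀ (p q : {p : T × (Fin 4 → V) // Pos X S lab p.1 p.2}) i j i' j', i ≠ j →
      p.1.2 i = q.1.2 i' → p.1.2 j = q.1.2 j' →
      EqvGen (VR.Turn G) (p.1.1, i, j) (q.1.1, i', j') := fun p q i j i' j' hij e1 e2 => by
    obtain ⟨a1, a2⟩ := pos_dart hD hL p.2 hij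
    have : i' ≠ j' := fun e => a1.ne (e1.trans (e ▸ e2.symm))
    rw [← hD.eqv, ← a2, e1, e2, (pos_dart hD hL q.2 this).2]
  have hM : Model G' (fun d => red (d.1.1.1, d.2)) S fun p => p.1.2 :=
    { tet := fun p => p.2.1
      surj := fun k a c b d u => by
        obtain ⟨t, v, h, e⟩ := pos_of_tet hD hL u
        exact ⟨⟨(t, v), h⟩, e⟩
      glue := h2
      dart := dart_of (G := G') (fun p => p.2.1) h2 (fun p => hV.transverse p.1.1) fun p q h => by
        obtain ⟨x, -, hx⟩ := hV.bottom (p.1.1, 0, 2) (by simp)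
        have a := hx _ ⟨.refl _, Or.inl rfl⟩
        rcases h with h | h
        · have b := hx _ ⟨dt p q 0 2 0 2 (by decide) h.1 h.2, Or.inl rfl⟩
          exact hA p q 0 2 (by decide) (Prod.mk.inj (a.trans b.symm)).1 h.1 h.2
        · have b := hx _ ⟨dt p q 0 2 2 0 (by decide) h.1 h.2, Or.inr rfl⟩
          exact absurd (congrArg (·.2.1) (a.trans b.symm)) (by simp)
      red := fun p i j hij => by
        obtain ⟨a1, a2⟩ := pos_dart hD hL p.2 hij
        rw [hL.red _ _ a1, a2, hD.red] }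
  obtain ⟨a, b, hab⟩ := (S.layer 0).ne
  obtain ⟨p0, -⟩ := hM.surj_vtx a
  have : Nonempty {p : T × (Fin 4 → V) // Pos X S lab p.1 p.2} := ⟨p0⟩
  have hb : Function.Bijective fun p : {p : T × (Fin 4 → V) // Pos X S lab p.1 p.2} => p.1.1 :=
    cover_bij G G' _ (fun p => p.1.2) hV.back (fun t k e => by
      have := hV.transverse t k
      rw [e, ← Nat.not_even_iff_odd] at this
      exact iff_not_self this) (fun _ _ => rfl) (fun _ _ => rfl) h2 hA
      (fun p q i j hij e e1 e2 => by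
        obtain ⟨a1, a2⟩ := pos_dart hD hL p.2 hij
        refine hL.dl_ne wu a1 ?_
        rw [a2, e1, e2, (pos_dart hD hL q.2 hij).2, e]) hM.conn
  choose Ψ hΨ using hb.2
  replace hΨ : ∀ t, (Ψ t).1.1 = t := hΨ
  have inv : ∀ p : {p : T × (Fin 4 → V) // Pos X S lab p.1 p.2}, Ψ p.1.1 = p :=
    fun p => hb.1 (hΨ _)
  refine ⟨V, _, inferInstance, S, fun t => (Ψ t).1.2, fun t => hM.tet _, fun k a c b d u => ?_,
    fun t k i h => ?_, fun t i j t' i' j' h e1 e2 => ?_, fun t i j h => ?_⟩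
  · obtain ⟨p, e⟩ := hM.surj k a c b d u
    exact ⟨p.1.1, by rwa [inv]⟩
  · have e := inv (G'.nbr (Ψ t) k)
    have := h2 (Ψ t) k i h
    change Ψ (G.nbr (Ψ t).1.1 k) = _ at e
    rw [hΨ] at e this
    rw [e]
    exact this
  · have := dt (Ψ t) (Ψ t') i j i' j' h e1 e2
    rwa [hΨ, hΨ] at this
  · have : _ ↔ red ((Ψ t).1.1, i, j) := hM.red (Ψ t) i j h
    rwa [hΨ] at this

end Pool.Agent.Work.MP_3d425c_gt.Bor
end

-- merged part: Pool.Agent.Work.MP_3d425c_gt.VrDefs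
section
/-! Veering triangulations and Dehn fillings.

Model: the universal cover `Y` of a cusped 3-manifold with a (transverse) veering triangulation.
`V` is the set of cusps of the universal cover with its circular order, an edge is given by its
two ends, `K i` is the `i`-th layer (spanning landscape) of a layering of the universal cover,
consecutive layers differ by tetrahedra, `red` is the colouring of the edges, `up` is an edge
orientation of the universal cover, `Γ` is the fundamental group, `e` is an integral lift of the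
edge-orientation character, and `γ w` is the filling slope in the peripheral subgroup of `w`.
The number `prongs K red w u (γ w • u)` counts the changes from blue to red around the cusp `w`
along `γ w`; it is the intersection number of the filling slope with the degeneracy locus. -/

namespace Pool.Agent.Work.MP_3d425c_gt.VT

variable {V Γ Y M ι : Type} [LinearOrder V] [Group Γ] [MulAction Γ V] [MulAction Γ Y]
  [TopologicalSpace Y] [TopologicalSpace M]

/-- The circular order of three distinct points. -/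
def cyc (a b c : V) : Prop := (a < b ∧ b < c) ∨ (b < c ∧ c < a) ∨ (c < a ∧ a < b)

/-- `E` is the edge relation of an ideal triangulation of the disc with vertex set `V`. -/
structure IdealTri (E : V → V → Prop) : Prop where
  symm : ∀ a b, E a b → E b a
  nocross : ∀ a b c d, E a b → E c d → cyc a c b → cyc b d a → False
  apex : ∀ a b, E a b → ∃ c, cyc a c b ∧ E a c ∧ E c b
  fin : ∀ u v, {p : V × V | E p.1 p.2 ∧ cyc p.1 u p.2 ∧ cyc p.2 v p.1}.Finite
  ne : ∃ a b, E a b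

/-- A veering tetrahedron between the layers `i` and `i + 1`, with lower edge `a b`, upper edge
`c d` and equator `a c b d`. -/
def Tet (K : ℤ → V → V → Prop) (red : V → V → Prop) (i : ℤ) (a c b d : V) : Prop :=
  cyc a c b ∧ cyc b d a ∧ K i a b ∧ K (i + 1) c d ∧
    (K i a c ∧ K i c b ∧ K i b d ∧ K i d a) ∧
    (K (i + 1) a c ∧ K (i + 1) c b ∧ K (i + 1) b d ∧ K (i + 1) d a) ∧
    red a c ∧ ¬ red c b ∧ red b d ∧ ¬ red d a

/-- A face of the triangulation. -/
def Face (K : ℤ → V → V → Prop) (a b c : V) : Prop := cyc a b c ∧ ∃ i, K i a b ∧ K i b c ∧ K i c a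

/-- `Γ` acts freely and cocompactly on a layered veering triangulation. -/
structure Veering (K : ℤ → V → V → Prop) (red up : V → V → Prop) (e : Γ → ℤ) : Prop where
  layer : ∀ i, IdealTri (K i)
  red_symm : ∀ a b, red a b → red b a
  above : ∀ i a b, K i a b → K (i + 1) a b ∨ ∃ c d, Tet K red i a c b d
  below : ∀ i c d, K (i + 1) c d → K i c d ∨ ∃ a b, Tet K red i a c b d
  life : ∀ a b, {i | K i a b}.Finite
  up_rev : ∀ i a b, K i a b → (up b a ↔ ¬ up a b)
  up_face : ∀ w a b, Face K w a b → ¬ red w a → red w b → (up a w ↔ up a b) ∧ (up w b ↔ up a b)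
  cyc_smul : ∀ (g : Γ) (a b c : V), cyc a b c → cyc (g • a) (g • b) (g • c)
  face_smul : ∀ (g : Γ) a b c, Face K a b c → Face K (g • a) (g • b) (g • c)
  red_smul : ∀ (g : Γ) i a b, K i a b → (red (g • a) (g • b) ↔ red a b)
  up_smul : ∀ (g : Γ) i a b, K i a b → (up (g • a) (g • b) ↔ (up a b ↔ Even (e g)))
  e_mul : ∀ g h, e (g * h) = e g + e h
  free : ∀ (g : Γ) i a b, K i a b → g • a = a → g • b = b → g = 1
  cocompact : ∃ F : Set (V × V), F.Finite ∧ ∀ i a b, K i a b → ∃ g : Γ, (g • a, g • b) ∈ F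

/-- The cusps up to the last blue neighbour of `w` before `b`. -/
def Left (K : ℤ → V → V → Prop) (red : V → V → Prop) (w b : V) : Set V :=
  {u | ∃ a, (∃ i, K i w a) ∧ ¬ red w a ∧ cyc w a b ∧ (u = a ∨ cyc w u a)}

/-- The number of changes from blue to red around `w` between `u` and `v`. -/
noncomputable def prongs (K : ℤ → V → V → Prop) (red : V → V → Prop) (w u v : V) : ℕ :=
  {S | (∃ b, (∃ i, K i w b) ∧ red w b ∧ S = Left K red w b) ∧ (u ∈ S ↔ v ∉ S)}.ncard

/-- `γ` is an equivariant choice of primitive peripheral elements (filling slopes). -/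
structure Slopes (γ : V → Γ) : Prop where
  fix : ∀ w : V, γ w • w = w
  conj : ∀ (g : Γ) (w : V), γ (g • w) = g * γ w * g⁻¹
  prim : ∀ (w : V) (s : Γ) (k l : ℤ), s • w = w → s ^ k = γ w ^ l → k ∣ l

/-- `M` is the union of `Y / Γ` and of open solid tori `N i` glued along the complements of their
cores, whose meridians are the slopes `γ w`. -/
structure Filling (γ : V → Γ) (p : Y → M) (N : ι → ℂ × Circle → M) : Prop where
  loc : IsLocalHomeomorph p
  fibre : ∀ a b, p a = p b ↔ ∃ g : Γ, b = g • a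
  free : ∀ (g : Γ) (a : Y), g • a = a → g = 1
  emb : ∀ i, Topology.IsOpenEmbedding (N i)
  disj : ∀ i j a b, N i a = N j b → i = j
  core : ∀ i z s, N i (z, s) ∈ Set.range p ↔ z ≠ 0
  cover : ∀ m, m ∈ Set.range p ∨ ∃ i, m ∈ Set.range (N i)
  meridian : ∀ g : Γ, g ∈ Set.range γ ↔ ∃ (i : ι) (l : C(ℝ, Y)),
    (∀ t, p (l t) = N i (Circle.exp (2 * Real.pi * t), 1)) ∧ l 1 = g • l 0

end Pool.Agent.Work.MP_3d425c_gt.VT
end

-- merged part: Pool.Agent.Work.MP_3d425c_gt.ZQ2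
section
/-! The quotient order for several types of rotation centres. -/

namespace Pool.Agent.Work.MP_3d425c_gt.Bor
open Classical

namespace QZ
variable {Γ V : Type} [Group Γ] [MulAction Γ V] (S : QZ Γ V)

theorem rot_spec (w : V) (i : ℤ) : S.rot w ^ i • w = w ∧ S.c (S.rot w ^ i) w = i * S.n w ∧
    S.e (S.rot w ^ i) = i * (S.n w - 2 * S.j w) := by
  have h1 := S.rot_fix w
  have h2 := S.c_rot w
  have h3 := S.e_rot w
  induction i using Int.induction_on with
  | zero => simp [S.c_one, S.e_one]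
  | succ i ih =>
    rw [zpow_add_one, mul_smul, S.c_mul, S.e_mul, h1, h2, h3, ih.1, ih.2.1, ih.2.2]
    exact ⟨rfl, by ring, by ring⟩
  | pred i ih =>
    have e : S.rot w ^ (-(i : ℤ)) = S.rot w ^ (-(i : ℤ) - 1) * S.rot w := by
      rw [← zpow_add_one]; simp
    rw [e, mul_smul, S.c_mul, S.e_mul, h1, h2, h3] at ih
    exact ⟨ih.1, by linarith [ih.2.1], by linarith [ih.2.2]⟩

theorem rot_ne {w y : V} (i : ℤ) (h : y ≠ w) : S.rot w ^ i • y ≠ w := fun e =>
  h (MulAction.injective (S.rot w ^ i) (e.trans (S.rot_spec w i).1.symm))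

theorem dir_rot {w y : V} (i : ℤ) (h : y ≠ w) :
    S.dir w (S.rot w ^ i • y) = S.dir w y + i * S.n w := by
  conv_lhs => rw [← (S.rot_spec w i).1]
  rw [(S.rot_spec w i).1, ← (S.rot_spec w i).2.1, ← S.equiv _ _ _ h, (S.rot_spec w i).1]

theorem W_rot_right (g h : S.Mk) (i : ℤ) : S.W g (S.rot h.pos ^ i • h) = S.W g h := by
  have e : (S.rot h.pos ^ i • h).pos = h.pos := (S.rot_spec _ i).1
  refine (S.W_congr g e.symm ?_).symm
  rw [S.P_at rfl, S.P_at e, S.smul_a, S.smul_b, (S.rot_spec _ i).2.1, (S.rot_spec _ i).2.2]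
  ring

theorem W_rot_left (g h : S.Mk) (i : ℤ) : S.W g (S.rot g.pos ^ i • h) = S.W g h := by
  rw [← S.W_smul (S.rot g.pos ^ (-i)), ← mul_smul, ← zpow_add, neg_add_cancel, zpow_zero,
    one_smul, S.W_anti, S.W_rot_right, ← S.W_anti]

theorem W_rot_btw {g h : S.Mk} {w : V} {i : ℤ} (h1 : Btw S.dir g.pos w h.pos)
    (h2 : S.dir w g.pos ≠ S.dir w h.pos + i * S.n w) :
    S.W g (S.rot w ^ i • h) = S.W g h := by
  obtain ⟨m, rfl⟩ := S.exists_mk w
  have n1 : (S.rot m.pos ^ i • h).pos ≠ m.pos := S.rot_ne i h1.2.1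
  have d1 : S.dir m.pos (S.rot m.pos ^ i • h).pos =
      S.dir m.pos h.pos + i * S.n m.pos := S.dir_rot i h1.2.1
  have k1 := S.W_active (w := m.pos) (g := g) (h := m) (m := h) (fun s => s.2.1 rfl)
    (fun s => s.1 rfl) fun s => h1.2.2 s.2.2.symm
  have k2 := S.W_active (w := m.pos) (g := g) (h := m) (m := S.rot m.pos ^ i • h)
    (fun s => s.2.1 rfl) (fun s => s.1 rfl) fun s => h2 (s.2.2.symm.trans d1)
  have k3 : S.P m.pos (S.rot m.pos ^ i • h) =
      S.P m.pos h + S.L m.pos * (S.j m.pos * i) := by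
    have := S.Q_smul (S.rot m.pos ^ i) m.pos (S.dir m.pos h.pos)
    rw [(S.rot_spec _ i).1, (S.rot_spec _ i).2.1] at this
    rw [S.P_off n1, S.P_off h1.2.1, d1, this, L]
    ring
  unfold df at k1 k2
  rw [k3, S.W_rot_left, show ∀ x y z : ℤ, x + z - y = x - y + z by intro x y z; ring,
    show ∀ x y z : ℤ, x - (y + S.L m.pos * z) = x - y + S.L m.pos * -z by
      intro x y z; ring,
    rr_add_mul (S.L_pos _), rr_add_mul (S.L_pos _)] at k2
  rw [S.W_anti, S.W_anti h g]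
  omega

/-- The subgroup generated by all rotations. -/
def N : Subgroup Γ := Subgroup.closure (Set.range S.rot)

theorem rot_mem (w : V) (i : ℤ) : S.rot w ^ i ∈ S.N :=
  S.N.zpow_mem (Subgroup.subset_closure ⟨w, rfl⟩) i

theorem conj_mem (x : Γ) {k : Γ} (h : k ∈ S.N) : x * k * x⁻¹ ∈ S.N := by
  induction h using Subgroup.closure_induction with
  | mem k hk =>
    obtain ⟨w, rfl⟩ := hk
    rw [← S.rot_smul]
    exact Subgroup.subset_closure ⟨_, rfl⟩
  | one => simp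
  | mul a b _ _ ha hb =>
    rw [show x * (a * b) * x⁻¹ = x * a * x⁻¹ * (x * b * x⁻¹) by group]
    exact S.N.mul_mem ha hb
  | inv a _ ha =>
    rw [show x * a⁻¹ * x⁻¹ = (x * a * x⁻¹)⁻¹ by group]
    exact S.N.inv_mem ha

/-- The window of directions at `w` for the root `a`. -/
def win (a w : V) (t : ℤ) : Prop :=
  (if w = a then 0 else S.dir w a - 1) ≤ t ∧ t < (if w = a then 0 else S.dir w a - 1) + S.n w

/-- The fundamental domain. -/
def D (a y : V) : Prop := ∀ u, y ≠ u → S.win a u (S.dir u y)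

theorem exists_win (a w : V) (t : ℤ) : ∃ i : ℤ, S.win a w (t + i * S.n w) := by
  unfold win
  generalize (if w = a then 0 else S.dir w a - 1) = l
  have h := S.n3 w
  have h1 := Int.emod_add_mul_ediv (t - l) (S.n w)
  have h2 := Int.emod_nonneg (t - l) (show S.n w ≠ 0 by omega)
  have h3 := Int.emod_lt_of_pos (t - l) (show 0 < S.n w by omega)
  refine ⟨-((t - l) / S.n w), ?_, ?_⟩ <;> linarith

theorem win_eq {a w : V} {t t' : ℤ} (h : S.win a w t) (h' : S.win a w t')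
    (hd : S.n w ∣ t' - t) : t' = t := by
  have := Int.eq_zero_of_abs_lt_dvd hd (abs_lt.2 ⟨by linarith [h.2, h'.1], by linarith [h.1, h'.2]⟩)
  omega

theorem win_near {a w : V} (h : w ≠ a) {t : ℤ} (ht : |t - S.dir w a| ≤ 1) : S.win a w t := by
  have := S.n3 w
  have := abs_le.1 ht
  unfold win
  rw [if_neg h]
  omega

theorem D_root (a : V) : S.D a a := fun u hu => S.win_near hu.symm (by simp)

theorem D.red {a y y' : V} (h : S.D a y) (h' : S.D a y') : S.Red y y' := fun u h1 h2 h3 =>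
  S.win_eq (h u h1) (h' u h2) h3

theorem D.btw {a u y : V} (h : S.D a y) (hb : Btw S.dir a u y) : S.D a u := by
  intro x hx
  rcases S.t1.split hb hx.symm with k | k
  · exact S.win_near k.1.symm (by rw [k.2]; simp)
  · exact k.2 ▸ h x k.1

theorem Str_smul (g : Γ) {a b : V} (h : Str S.dir a b) : Str S.dir (g • a) (g • b) := by
  refine ⟨fun e => h.1 (MulAction.injective g e), ?_, fun u h1 h2 => ?_⟩
  · rw [S.equiv g a b h.1.symm, S.equiv g b a h.1]
    obtain ⟨i, hi⟩ := h.2.1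
    obtain ⟨j, hj⟩ := S.par g a
    obtain ⟨k, hk⟩ := S.par g b
    rw [Int.odd_iff]
    omega
  · obtain ⟨u, rfl⟩ := MulAction.surjective g u
    have h3 : a ≠ u := fun e => h1 (by rw [e])
    have h4 : b ≠ u := fun e => h2 (by rw [e])
    simp only at *
    rw [S.equiv g u a h3, S.equiv g u b h4, add_sub_add_right_eq_sub]
    exact h.2.2 u h3 h4

theorem Btw_smul (g : Γ) {a u b : V} (h : Btw S.dir a u b) :
    Btw S.dir (g • a) (g • u) (g • b) :=
  ⟨fun e => h.1 (MulAction.injective g e), fun e => h.2.1 (MulAction.injective g e), by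
    rw [S.equiv g u a h.1, S.equiv g u b h.2.1]
    exact fun e => h.2.2 (add_right_cancel e)⟩

/-- A point with small turns from a point of the domain, leaving it in an outward direction. -/
theorem D_of_out {a u x : V} (hu : S.D a u) (hx : x ≠ u) (hw : S.win a u (S.dir u x))
    (hb : u = a ∨ S.dir u a ≠ S.dir u x)
    (hs : ∀ v, u ≠ v → x ≠ v → |S.dir v x - S.dir v u| ≤ 1) : S.D a x := by
  intro v hv
  by_cases e : v = u
  · exact e ▸ hw
  by_cases e' : u = a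
  · subst e'
    exact S.win_near e (hs v (Ne.symm e) hv)
  rcases S.t1.split ⟨Ne.symm e', hx, hb.resolve_left e'⟩ e with k | k
  · exact S.win_near k.1.symm (k.2 ▸ hs v (Ne.symm e) hv)
  · exact k.2 ▸ hu v (Ne.symm e)

theorem small_rot {y u x : V} (hs : Str S.dir y x) (hb : Btw S.dir y u x) (i : ℤ) :
    ∀ v, u ≠ v → S.rot u ^ i • x ≠ v → |S.dir v (S.rot u ^ i • x) - S.dir v u| ≤ 1 := by
  intro v h1 h2
  obtain ⟨v, rfl⟩ := MulAction.surjective (S.rot u ^ i) v
  have h3 : u ≠ v := fun e => h1 (by rw [← e]; exact (S.rot_spec u i).1.symm)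
  have h4 : x ≠ v := fun e => h2 (by rw [e])
  simp only at *
  have h5 := S.equiv (S.rot u ^ i) v u h3
  rw [(S.rot_spec u i).1] at h5
  rw [S.equiv _ v x h4, h5, add_sub_add_right_eq_sub]
  rcases S.t1.split hb h3.symm with k | k
  · exact k.2 ▸ hs.2.2 v k.1 h4
  · rw [k.2]; simp

/-- The subgroup generated by the rotations about points of the domain. -/
def ND (a : V) : Subgroup Γ := Subgroup.closure (S.rot '' {w | S.D a w})

theorem rot_mem_ND {a w : V} (h : S.D a w) (i : ℤ) : S.rot w ^ i ∈ S.ND a :=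
  (S.ND a).zpow_mem (Subgroup.subset_closure ⟨w, h, rfl⟩) i

theorem exists_D_step {a y x : V} (hy : S.D a y) (hs : Str S.dir y x) :
    ∃ k ∈ S.ND a, S.D a (k • x) := by
  obtain ⟨i, hi⟩ := S.exists_win a y (S.dir y x)
  have s1 := S.Str_smul (S.rot y ^ i) hs
  rw [(S.rot_spec y i).1] at s1
  rw [← S.dir_rot i hs.1.symm] at hi
  by_cases hD : S.D a (S.rot y ^ i • x)
  · exact ⟨_, S.rot_mem_ND hy i, hD⟩
  simp only [D, not_forall] at hD
  obtain ⟨u, h1, h2⟩ := hD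
  have h3 : y ≠ u := fun e => h2 (e ▸ hi)
  have hb : Btw S.dir y u (S.rot y ^ i • x) := ⟨h3, h1, fun e => h2 (e ▸ hy u h3)⟩
  have h4 := abs_le.1 (s1.2.2 u h3 h1)
  obtain ⟨j, hj⟩ := S.exists_win a u (S.dir u (S.rot y ^ i • x))
  have hu : S.D a u ∧ (u = a ∨ S.dir u a ≠ S.dir u (S.rot y ^ i • x) + j * S.n u) := by
    by_cases e : u = a
    · exact ⟨e ▸ S.D_root a, Or.inl e⟩
    have h5 : S.dir u a ≠ S.dir u y := fun e' => h2 (S.win_near e (e' ▸ s1.2.2 u h3 h1))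
    refine ⟨hy.btw S ⟨Ne.symm e, h3, h5⟩, Or.inr fun e' => h2 ?_⟩
    have h6 := hy u h3
    have h7 := S.n3 u
    unfold win at h6
    rw [if_neg e] at h6
    have := Int.eq_zero_of_abs_lt_dvd (m := S.n u) (x := S.dir u (S.rot y ^ i • x) - S.dir u a)
      ⟨-j, by rw [e']; ring⟩ (abs_lt.2 ⟨by omega, by omega⟩)
    exact S.win_near e (by rw [this]; simp)
  refine ⟨S.rot u ^ j * S.rot y ^ i, (S.ND a).mul_mem (S.rot_mem_ND hu.1 j) (S.rot_mem_ND hy i), ?_⟩
  rw [mul_smul]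
  rw [← S.dir_rot j h1] at hj hu
  exact S.D_of_out hu.1 (S.rot_ne j h1) hj hu.2 (S.small_rot s1 hb j)

theorem exists_D (a x : V) : ∃ k ∈ S.ND a, S.D a (k • x) := by
  by_cases e : a = x
  · exact ⟨1, one_mem _, by rw [one_smul, ← e]; exact S.D_root a⟩
  have h := S.geo a x e
  clear e
  induction h with
  | base h => exact S.exists_D_step (S.D_root a) h
  | step _ h _ ih =>
    obtain ⟨k, h1, h2⟩ := ih
    obtain ⟨k', h3, h4⟩ := S.exists_D_step h2 (S.Str_smul k h)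
    exact ⟨k' * k, mul_mem h3 h1, by rw [mul_smul]; exact h4⟩

theorem ND_eq (a : V) : S.ND a = S.N := by
  refine le_antisymm (Subgroup.closure_mono (Set.image_subset_range _ _))
    ((Subgroup.closure_le _).2 ?_)
  rintro _ ⟨v, rfl⟩
  obtain ⟨k, h1, h2⟩ := S.exists_D a v
  have := S.rot_mem_ND h2 1
  rw [zpow_one, S.rot_smul] at this
  have h3 := mul_mem (mul_mem (inv_mem h1) this) h1
  rwa [show k⁻¹ * (k * S.rot v * k⁻¹) * k = S.rot v by group] at h3

/-- Reduced products of rotations, with first and last centre. -/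
inductive PP (a : V) : Γ → V → V → Prop
  | base {w : V} {j : ℤ} : S.D a w → j ≠ 0 → PP a (S.rot w ^ j) w w
  | step {w w' z : V} {j : ℤ} {k : Γ} : S.D a w → j ≠ 0 → w ≠ w' → PP a k w' z →
      PP a (S.rot w ^ j * k) w z

theorem PP.left {a w z : V} {k : Γ} (h : S.PP a k w z) : S.D a w := by
  cases h <;> assumption

theorem PP.right {a w z : V} {k : Γ} (h : S.PP a k w z) : S.D a z := by
  induction h <;> assumption

theorem out_rot {a w y : V} {j : ℤ} (hj : j ≠ 0) (h1 : y ≠ w) (h2 : S.win a w (S.dir w y)) :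
    S.rot w ^ j • y ≠ w ∧ ¬ S.win a w (S.dir w (S.rot w ^ j • y)) := by
  refine ⟨S.rot_ne j h1, fun h => ?_⟩
  rw [S.dir_rot j h1] at h
  have := S.win_eq h2 h ⟨j, by ring⟩
  have h3 := S.n3 w
  have : j * S.n w = 0 := by omega
  rcases mul_eq_zero.1 this with h | h <;> omega

theorem out_step {a w w' y : V} {j : ℤ} (hw : S.D a w) (hw' : S.D a w') (hj : j ≠ 0)
    (hn : w ≠ w') (h : y ≠ w' ∧ ¬ S.win a w' (S.dir w' y)) :
    S.rot w ^ j • y ≠ w ∧ ¬ S.win a w (S.dir w (S.rot w ^ j • y)) := by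
  have hb : Btw S.dir w w' y := ⟨hn, h.1, fun e => h.2 (e ▸ hw w' hn)⟩
  exact S.out_rot hj hb.ne.symm (S.t1.btw hb ▸ hw' w hn.symm)

theorem PP.out {a w z : V} {k : Γ} (h : S.PP a k w z) {y : V} (hy : S.D a y) :
    (y = z ∧ w = z ∧ ∃ j : ℤ, k = S.rot z ^ j) ∨ (k • y ≠ w ∧ ¬ S.win a w (S.dir w (k • y))) := by
  induction h with
  | @base w j _ hj =>
    by_cases e : y = w
    · exact Or.inl ⟨e, rfl, j, rfl⟩
    · exact Or.inr (S.out_rot hj e (hy w e))
  | @step w w' z j k hw hj hn hk ih =>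
    right
    rw [mul_smul]
    rcases ih with ⟨e1, e2, i, e3⟩ | ih
    · rw [e3, e1, (S.rot_spec z i).1]
      exact S.out_rot hj (e2 ▸ hn.symm) (hk.right S w (e2 ▸ hn.symm))
    · exact S.out_step hw (hk.left S) hj hn ih

theorem exists_PP {a : V} {k : Γ} (h : k ∈ S.ND a) : k = 1 ∨ ∃ w z, S.PP a k w z := by
  have key : ∀ x, S.D a x → ∀ (j : ℤ) (k : Γ), (k = 1 ∨ ∃ w z, S.PP a k w z) →
      (S.rot x ^ j * k = 1 ∨ ∃ w z, S.PP a (S.rot x ^ j * k) w z) := by
    intro x hx j k hk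
    by_cases hj : j = 0
    · simpa [hj] using hk
    rcases hk with rfl | ⟨w, z, hk⟩
    · exact Or.inr ⟨x, x, by rw [mul_one]; exact PP.base hx hj⟩
    by_cases e : x = w
    · subst e
      cases hk with
      | @base _ i h1 h2 =>
        rw [← zpow_add]
        by_cases e : j + i = 0
        · exact Or.inl (by rw [e, zpow_zero])
        · exact Or.inr ⟨x, x, PP.base hx e⟩
      | @step _ w' _ i k h1 h2 h3 h4 =>
        rw [← mul_assoc, ← zpow_add]
        by_cases e : j + i = 0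
        · exact Or.inr ⟨w', z, by rw [e, zpow_zero, one_mul]; exact h4⟩
        · exact Or.inr ⟨x, z, PP.step hx e h3 h4⟩
    · exact Or.inr ⟨x, z, PP.step hx hj e hk⟩
  induction h using Subgroup.closure_induction_left with
  | one => exact Or.inl rfl
  | mul_left x hx k _ ih =>
    obtain ⟨w, hw, rfl⟩ := hx
    simpa using key w hw 1 k ih
  | inv_mul_cancel x hx k _ ih =>
    obtain ⟨w, hw, rfl⟩ := hx
    simpa using key w hw (-1) k ih

theorem W_eq_of_D {g h : S.Mk} {k : Γ} (hk : k ∈ S.N) (h1 : S.D g.pos h.pos)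
    (h2 : S.D g.pos (k • h.pos)) : S.W g (k • h) = S.W g h := by
  rw [← S.ND_eq g.pos] at hk
  rcases S.exists_PP hk with rfl | ⟨w, z, hp⟩
  · rw [one_smul]
  rcases hp.out S h1 with ⟨e1, -, j, e⟩ | ⟨e1, e2⟩
  · rw [e, ← e1, S.W_rot_right]
  · exact absurd (h2 w e1) e2

theorem normalise {g : S.Mk} {b : V} (hg : Geo S.dir g.pos b) : S.Red g.pos b →
    ∃ k ∈ S.N, S.D g.pos (k • b) ∧ g.pos ≠ k • b ∧
      S.dir (k • b) g.pos = S.dir (k • b) (k • g.pos) ∧
      ∀ h : S.Mk, (h.pos = b ∨ Btw S.dir g.pos b h.pos) → S.W g (k • h) = S.W g h := by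
  induction hg with
  | @base b h =>
    intro _
    obtain ⟨i, hi⟩ := S.exists_win g.pos g.pos (S.dir g.pos b)
    have s1 := S.Str_smul (S.rot g.pos ^ i) h
    rw [(S.rot_spec _ i).1] at s1
    rw [← S.dir_rot i h.1.symm] at hi
    exact ⟨_, S.rot_mem _ i, S.D_of_out (S.D_root _) s1.1.symm hi (Or.inl rfl) s1.2.2, s1.1,
      by rw [(S.rot_spec _ i).1], fun h _ => S.W_rot_left g h i⟩
  | @step w b _ hs hb ih =>
    intro hr
    obtain ⟨k, k1, k2, k3, k4, k5⟩ := ih (hr.left S hb)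
    have s0 := S.Str_smul k hs
    obtain ⟨i, hi⟩ := S.exists_win g.pos (k • w) (S.dir (k • w) (k • b))
    have s1 := S.Str_smul (S.rot (k • w) ^ i) s0
    rw [(S.rot_spec _ i).1] at s1
    have hne : ∀ j : ℤ, S.dir (k • w) g.pos ≠ S.dir (k • w) (k • b) + j * S.n (k • w) := by
      intro j e
      rw [k4, S.equiv k w _ hb.1, S.equiv k w _ hb.2.1, S.n_smul] at e
      exact hb.2.2 (hr w hb.1 hb.2.1 ⟨-j, by linarith⟩).symm
    have hd := S.dir_rot i s0.1.symm
    rw [← hd] at hi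
    have b1 : Btw S.dir g.pos (k • w) (S.rot (k • w) ^ i • k • b) :=
      ⟨k3, s1.1.symm, hd ▸ hne i⟩
    refine ⟨S.rot (k • w) ^ i * k, mul_mem (S.rot_mem _ i) k1, ?_, ?_, ?_, fun h hh => ?_⟩
    · rw [mul_smul]
      exact S.D_of_out k2 s1.1.symm hi (Or.inr b1.2.2) s1.2.2
    · rw [mul_smul]
      exact b1.ne
    · have b2 := S.Btw_smul (S.rot (k • w) ^ i * k) hb
      rw [S.t1.btw b2.symm, mul_smul, mul_smul, (S.rot_spec _ i).1, S.t1.btw b1.symm]
    · have b3 : h.pos ≠ w ∧ S.dir w h.pos = S.dir w b := by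
        rcases hh with hh | hh
        · rw [hh]
          exact ⟨hb.2.1, rfl⟩
        · exact S.t1.key hs.1 (Or.inr fun e => hh.2.2 ((S.t1.btw hb.symm).trans e.symm))
      have b4 : S.dir (k • w) (k • h).pos = S.dir (k • w) (k • b) := by
        rw [S.smul_pos, S.equiv k w _ b3.1, S.equiv k w _ hb.2.1, b3.2]
      rw [mul_smul, S.W_rot_btw ⟨k3, fun e => b3.1 (MulAction.injective k e), by
          rw [b4]
          simpa using hne 0⟩ (b4 ▸ hne i)]
      exact k5 h (Or.inr ⟨hb.1, b3.1, b3.2 ▸ hb.2.2⟩)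

theorem exists_W_D {g h : S.Mk} (hr : S.Red g.pos h.pos) :
    ∃ k ∈ S.N, S.D g.pos (k • h.pos) ∧ S.W g (k • h) = S.W g h := by
  by_cases e : g.pos = h.pos
  · exact ⟨1, one_mem _, by rw [one_smul, ← e]; exact S.D_root _, by rw [one_smul]⟩
  · obtain ⟨k, k1, k2, -, -, k5⟩ := S.normalise (S.geo _ _ e) hr
    exact ⟨k, k1, k2, k5 h (Or.inl rfl)⟩

theorem exists_D' (a x : V) : ∃ k, k ∈ S.N ∧ S.D a (k • x) := S.ND_eq a ▸ S.exists_D a x

/-- The counting function on the quotient. -/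
noncomputable def Ws (g h : S.Mk) : ℤ := S.W g ((S.exists_D' g.pos h.pos).choose • h)

theorem Ws_eq {g h : S.Mk} {k : Γ} (hk : k ∈ S.N) (hr : S.Red g.pos (k • h.pos)) :
    S.Ws g h = S.W g (k • h) := by
  obtain ⟨h1, h2⟩ := (S.exists_D' g.pos h.pos).choose_spec
  unfold Ws
  generalize (S.exists_D' g.pos h.pos).choose = k0 at h1 h2
  rw [← S.smul_pos] at hr h2
  obtain ⟨k', k1, k2, k3⟩ := S.exists_W_D hr
  have e : k' • k • h = (k' * k * k0⁻¹) • k0 • h := by rw [mul_smul, mul_smul, inv_smul_smul]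
  rw [← k3, e, S.W_eq_of_D (mul_mem (mul_mem k1 hk) (inv_mem h1)) h2]
  rwa [← S.smul_pos, ← e, S.smul_pos]

theorem Red_smul (x : Γ) {a b : V} (h : S.Red a b) : S.Red (x • a) (x • b) := by
  intro u h1 h2
  obtain ⟨u, rfl⟩ := MulAction.surjective x u
  have h3 : a ≠ u := fun e => h1 (by rw [e])
  have h4 : b ≠ u := fun e => h2 (by rw [e])
  simp only at *
  rw [S.equiv x u a h3, S.equiv x u b h4, add_sub_add_right_eq_sub, S.n_smul]
  exact fun hd => by rw [h u h3 h4 hd]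

theorem Red.symm {a b : V} (h : S.Red a b) : S.Red b a := fun u h1 h2 h3 =>
  (h u h2 h1 (by rw [← dvd_neg, neg_sub]; exact h3)).symm

theorem exists_Red (g h : S.Mk) : ∃ k ∈ S.N, S.Red g.pos (k • h.pos) :=
  let ⟨k, h1, h2⟩ := S.exists_D' g.pos h.pos
  ⟨k, h1, (S.D_root _).red S h2⟩

theorem Ws_smul (x : Γ) (g h : S.Mk) : S.Ws (x • g) (x • h) = S.Ws g h := by
  obtain ⟨k, h1, h2⟩ := S.exists_Red g h
  rw [S.Ws_eq h1 h2, S.Ws_eq (S.conj_mem x h1), ← S.W_smul x g]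
  · rw [mul_smul, mul_smul, inv_smul_smul]
  · have := S.Red_smul x h2
    simpa [mul_smul, S.smul_pos] using this

theorem Ws_right {k : Γ} (hk : k ∈ S.N) (g h : S.Mk) : S.Ws g (k • h) = S.Ws g h := by
  obtain ⟨k', h1, h2⟩ := S.exists_Red g (k • h)
  rw [S.Ws_eq h1 h2, S.Ws_eq (mul_mem h1 hk), mul_smul]
  simpa [mul_smul, S.smul_pos] using h2

theorem Ws_left {k : Γ} (hk : k ∈ S.N) (g h : S.Mk) : S.Ws (k • g) h = S.Ws g h := by
  rw [← S.Ws_smul k⁻¹, inv_smul_smul, S.Ws_right (inv_mem hk)]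

theorem Ws_of_red {g h : S.Mk} (hr : S.Red g.pos h.pos) : S.Ws g h = S.W g h := by
  rw [S.Ws_eq (one_mem _) (by rwa [one_smul]), one_smul]

theorem Ws_anti (g h : S.Mk) : S.Ws h g = -S.Ws g h := by
  obtain ⟨k, h1, h2⟩ := S.exists_Red g h
  rw [← S.smul_pos] at h2
  rw [← S.Ws_left h1, ← S.Ws_right h1 g h, S.Ws_of_red h2, S.Ws_of_red (h2.symm S), S.W_anti]

theorem Ws_defect (g h m : S.Mk) : S.Ws g h + S.Ws h m + S.Ws m g ≤ 1 := by
  obtain ⟨k, h1, h2⟩ := S.exists_D' g.pos h.pos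
  obtain ⟨k', h3, h4⟩ := S.exists_D' g.pos m.pos
  rw [← S.smul_pos] at h2 h4
  rw [← S.Ws_right h1 g h, ← S.Ws_left h1 h m, ← S.Ws_right h3 (k • h) m, ← S.Ws_left h3 m g,
    S.Ws_of_red ((S.D_root _).red S h2), S.Ws_of_red (h2.red S h4),
    S.Ws_of_red (h4.red S (S.D_root _))]
  exact S.W_defect _ _ _

theorem Ws_zero (g h : S.Mk) (h0 : S.Ws g h = 0) (x : S.Mk) : S.Ws g x = S.Ws h x := by
  obtain ⟨k, h1, h2⟩ := S.exists_Red g h
  rw [← S.smul_pos] at h2
  rw [← S.Ws_right h1, S.Ws_of_red h2] at h0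
  rw [← S.Ws_left h1 h, S.Ws_anti x g, S.Ws_anti x (k • h)]
  generalize k • h = h' at h0 h2
  have e : g.pos = h'.pos := by
    by_contra e
    have := S.W_odd (S.geo _ _ e) h2 g h' rfl rfl
    rw [h0] at this
    simp at this
  rw [S.W_same e] at h0
  have h3 := rr_eq_zero (S.L_pos _) h0
  obtain ⟨k', h4, h5⟩ := S.exists_Red g x
  rw [← S.smul_pos] at h5
  rw [← S.Ws_left h4 x g, ← S.Ws_left h4 x h', S.Ws_of_red (h5.symm S),
    S.Ws_of_red (e ▸ h5.symm S), S.W_congr _ e (by omega)]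

end QZ

theorem QZ.exists_order {Γ V : Type} [Group Γ] [MulAction Γ V] (S : QZ Γ V) :
    ∃ (Ω : Type) (_ : LinearOrder Ω) (ρ : Γ →* (Ω ≃o Ω)), (∀ w, ρ (S.rot w) = 1) ∧
      (∀ (g : Γ) (v : V), g • v ≠ v → RedN S.dir S.n v (g • v) → ρ g ≠ 1) ∧
      ∀ (g : Γ) (v : V), ρ g = 1 → ∃ k ∈ Subgroup.closure (Set.range S.rot), k • g • v = v := by
  obtain ⟨Ω, _, ρ, h⟩ := order_of_count' S.Ws S.Ws_smul S.Ws_anti S.Ws_defect S.Ws_zero
  refine ⟨Ω, inferInstance, ρ, fun w => (h _).2 fun g => ?_, fun g v h1 h2 h3 => ?_,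
    fun g v h3 => ?_⟩
  · have : S.rot w ∈ S.N := Subgroup.subset_closure ⟨w, rfl⟩
    rw [S.Ws_right this]
    have := S.Ws_anti g g
    omega
  · obtain ⟨m, rfl⟩ := S.exists_mk v
    have h5 := (h g).1 h3 m
    rw [S.Ws_of_red (g := m) (h := g • m) h2] at h5
    have := S.W_odd (S.geo _ _ h1.symm) h2 m (g • m) rfl rfl
    rw [h5] at this
    simp at this
  · obtain ⟨m, rfl⟩ := S.exists_mk v
    have h5 := (h g).1 h3 m
    obtain ⟨k, k1, k2⟩ := S.exists_Red m (g • m)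
    refine ⟨k, k1, ?_⟩
    by_contra hn
    rw [S.Ws_eq k1 k2] at h5
    have := S.W_odd (S.geo _ _ (Ne.symm hn)) k2 m (k • g • m) rfl rfl
    rw [h5] at this
    simp at this

end Pool.Agent.Work.MP_3d425c_gt.Bor
end

-- merged part: Pool.Agent.Work.MP_3d425c_gt.ZQ3
section
/-! The quotient order for a group of automorphisms. -/

namespace Pool.Agent.Work.MP_3d425c_gt.Bor
open Classical

/-- The group of automorphisms together with a lift of the parity. -/
def zq3G {V : Type} (dir : V → V → ℤ) (n j : V → ℤ) (pi : V → ℤ → ℤ)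
    (rot : V → Equiv.Perm V) :
    Subgroup (Equiv.Perm V × Multiplicative ℤ) where
  carrier := {x | IsAutZ dir n j pi rot x.1 x.2.toAdd}
  one_mem' := IsAutZ.one
  mul_mem' := fun {_ _} ha hb => IsAutZ.mul ha hb
  inv_mem' := fun {_} ha => IsAutZ.inv ha

instance zq3Act {V : Type} (dir : V → V → ℤ) (n j : V → ℤ) (pi : V → ℤ → ℤ)
    (rot : V → Equiv.Perm V) :
    MulAction (zq3G dir n j pi rot) V where
  smul x v := x.1.1 v
  one_smul _ := rfl
  mul_smul _ _ _ := rfl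

theorem zq3_smul {V : Type} {dir : V → V → ℤ} {n j : V → ℤ} {pi : V → ℤ → ℤ}
    {rot : V → Equiv.Perm V}
    (x : zq3G dir n j pi rot) (v : V) : x • v = x.1.1 v := rfl

theorem zq3_aut {V : Type} {dir : V → V → ℤ} {n j : V → ℤ} {pi : V → ℤ → ℤ}
    {rot : V → Equiv.Perm V}
    (x : zq3G dir n j pi rot) : IsAutZ dir n j pi rot x.1.1 x.1.2.toAdd := x.2

/-- The shift of directions. -/
noncomputable def zq3c {V : Type} {dir : V → V → ℤ} {n j : V → ℤ} {pi : V → ℤ → ℤ}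
    {rot : V → Equiv.Perm V}
    (x : zq3G dir n j pi rot) (u : V) : ℤ := ((zq3_aut x).1 u).choose

theorem zq3c_even {V : Type} {dir : V → V → ℤ} {n j : V → ℤ} {pi : V → ℤ → ℤ}
    {rot : V → Equiv.Perm V}
    (x : zq3G dir n j pi rot) (u : V) : Even (x.1.2.toAdd - zq3c x u) :=
  ((zq3_aut x).1 u).choose_spec.1

theorem zq3c_equiv {V : Type} {dir : V → V → ℤ} {n j : V → ℤ} {pi : V → ℤ → ℤ}
    {rot : V → Equiv.Perm V}
    (x : zq3G dir n j pi rot) (u v : V) (hv : v ≠ u) :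
    dir (x • u) (x • v) = dir u v + zq3c x u :=
  ((zq3_aut x).1 u).choose_spec.2.1 v hv

theorem zq_main {V : Type} [Nontrivial V] (dir : V → V → ℤ) (n j : V → ℤ) (pi : V → ℤ → ℤ)
    (rot : V → Equiv.Perm V) (t1 : T1 dir) (hf : FinB dir) (hp : Par dir)
    (hrot : ∀ w, IsAutZ dir n j pi rot (rot w) (n w - 2 * j w)) (hfix : ∀ w, rot w w = w)
    (hdir : ∀ w v, v ≠ w → dir w (rot w v) = dir w v + n w)
    (hj : ∀ w, 0 < j w ∧ j w < n w) (h3 : ∀ w, 3 ≤ n w) 
    (hpi : ∀ u i, 0 ≤ pi u i ∧ pi u i < n u)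
    (sep : ∀ u i i', pi u i = pi u i' → n u ∣ j u * (i' - i) → n u ∣ i' - i)
    {Γ : Type} [Group Γ] (φ : Γ →* Equiv.Perm V) (e : Γ → ℤ)
    (e_mul : ∀ g h, e (g * h) = e g + e h) (aut : ∀ g, IsAutZ dir n j pi rot (φ g) (e g)) :
    ∃ (Ω : Type) (_ : LinearOrder Ω) (ρ : Γ →* (Ω ≃o Ω)),
      (∀ g w (k : ℤ), φ g = rot w ^ k → e g = k * (n w - 2 * j w) → ρ g = 1) ∧
      (∀ g v, φ g v ≠ v → RedN dir n v (φ g v) → ρ g ≠ 1) ∧
      ∀ (F : V → Prop), (∀ w v, F (rot w v) ↔ F v) → ∀ g v, ρ g = 1 → F v → F (φ g v) := by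
  let R : V → zq3G dir n j pi rot := fun w =>
    ⟨(rot w, Multiplicative.ofAdd (n w - 2 * j w)), hrot w⟩
  let S : QZ (zq3G dir n j pi rot) V :=
    { dir := dir
      c := zq3c
      e := fun x => x.1.2.toAdd
      n := n
      j := j
      pi := pi
      rot := R
      t1 := t1
      geo := fun a b hab => geo_of_fin t1 hf hp hab
      equiv := fun g u v hv => zq3c_equiv g u v hv
      c_mul := fun g h u => by
        obtain ⟨v, hv⟩ := exists_ne u
        have h1 := zq3c_equiv (g * h) u v hv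
        have h2 := zq3c_equiv h u v hv
        have h4 := zq3c_equiv g (h • u) (h • v) (fun hh => hv (MulAction.injective h hh))
        rw [mul_smul, mul_smul] at h1
        omega
      e_mul := fun g h => rfl
      par := fun g u => zq3c_even g u
      n_smul := fun g u => ((zq3_aut g).2.1 u).1
      j_smul := fun g u => ((zq3_aut g).2.1 u).2
      rot_smul := fun g w => by
        apply Subtype.ext
        apply Prod.ext
        · exact (zq3_aut g).2.2 w
        · change Multiplicative.ofAdd (n (g.1.1 w) - 2 * j (g.1.1 w)) =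
            g.1.2 * Multiplicative.ofAdd (n w - 2 * j w) * g.1.2⁻¹
          rw [((zq3_aut g).2.1 w).1, ((zq3_aut g).2.1 w).2, mul_inv_cancel_comm]
      rot_fix := fun w => hfix w
      c_rot := fun w => by
        obtain ⟨v, hv⟩ := exists_ne w
        have h1 := zq3c_equiv (R w) w v hv
        have h2 := hdir w v hv
        have h4 : R w • w = w := hfix w
        have h5 : R w • v = rot w v := rfl
        rw [h4, h5] at h1
        omega
      e_rot := fun w => rfl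
      j_pos := fun w => (hj w).1
      j_lt := fun w => (hj w).2
      h3 := h3
      pi_smul := fun g u i => ((zq3_aut g).1 u).choose_spec.2.2 i
      pi_nonneg := fun u i => (hpi u i).1
      pi_lt := fun u i => (hpi u i).2
      sep := sep }
  obtain ⟨Ω, inst, ρ, h1, h2, hk⟩ := S.exists_order
  let ψ : Γ →* zq3G dir n j pi rot :=
    MonoidHom.mk' (fun g => ⟨(φ g, Multiplicative.ofAdd (e g)), aut g⟩) (fun g h => by
      apply Subtype.ext
      apply Prod.ext
      · exact map_mul φ g h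
      · change Multiplicative.ofAdd (e (g * h)) =
          Multiplicative.ofAdd (e g) * Multiplicative.ofAdd (e h)
        rw [e_mul, ofAdd_add])
  refine ⟨Ω, inst, ρ.comp ψ, fun g w k hk he => ?_, fun g v hv hr => h2 (ψ g) v hv hr,
    fun F hF g v hg hv => ?_⟩
  swap
  · obtain ⟨k, k1, k2⟩ := hk (ψ g) v hg
    have key : ∀ x, F (k • x) ↔ F x := by
      clear k2
      induction k1 using Subgroup.closure_induction with
      | mem k hk =>
        obtain ⟨w, rfl⟩ := hk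
        exact hF w
      | one => exact fun x => by rw [one_smul]
      | mul a b _ _ ha hb => exact fun x => by rw [mul_smul, ha, hb]
      | inv a _ ha => exact fun x => by rw [← ha, smul_inv_smul]
    exact (key (ψ g • v)).1 (k2.symm ▸ hv)
  have hψ : ψ g = R w ^ k := by
    apply Subtype.ext
    rw [Subgroup.coe_zpow]
    apply Prod.ext
    · exact hk
    · change Multiplicative.ofAdd (e g) = Multiplicative.ofAdd (n w - 2 * j w) ^ k
      rw [he, ← ofAdd_zsmul, smul_eq_mul]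
  have h6 : ρ (R w) = 1 := h1 w
  rw [MonoidHom.comp_apply, hψ, map_zpow, h6, one_zpow]

end Pool.Agent.Work.MP_3d425c_gt.Bor
end

-- merged part: Pool.Agent.Work.MP_3d425c_gt.ZU0
section
/-! Unfolding: definitions. -/

namespace Pool.Agent.Work.MP_3d425c_gt.Bor
open Classical

/-- A tree with real vertices, filling elements and cut points along the rays. -/
structure RZ (Γ P : Type) [Group Γ] [MulAction Γ P] where
  dir : P → P → ℤ
  c : Γ → P → ℤ
  e : Γ → ℤ
  deg : Γ → P → ℤ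
  real : P → Prop
  γ : P → Γ
  cut : P → ℤ → ℤ → P
  t1 : T1 dir
  fin : FinB dir
  par : Par dir
  equiv : ∀ (g : Γ) u v, v ≠ u → dir (g • u) (g • v) = dir u v + c g u
  c_mul : ∀ (g h : Γ) u, c (g * h) u = c g (h • u) + c h u
  e_mul : ∀ g h, e (g * h) = e g + e h
  deg_mul : ∀ (g h : Γ) u, deg (g * h) u = deg g (h • u) + deg h u
  epar : ∀ g u, Even (e g - c g u)
  real_smul : ∀ (g : Γ) p, real p → real (g • p)
  nreal_small : ∀ u a b, ¬ real u → a ≠ u → b ≠ u → |dir u b - dir u a| ≤ 1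
  γ_fix : ∀ w, real w → γ w • w = w
  γ_smul : ∀ (g : Γ) w, real w → γ (g • w) = g * γ w * g⁻¹
  he0 : ∀ w, real w → e (γ w) ≠ 0 ∨ ∀ g : Γ, g • w = w → c g w ≠ 2
  he1 : ∀ w, real w → |e (γ w)| < c (γ w) w
  prim : ∀ w, real w → ∀ (g : Γ) (k l : ℤ), g • w = w → k * c g w = l * c (γ w) w →
    k * deg g w = l * deg (γ w) w → k ∣ l
  cut_smul : ∀ (g : Γ) w i l, real w → g • cut w i l = cut (g • w) (i + c g w) (l + deg g w)
  cut_inj : ∀ w i l w' i' l', real w → real w' → cut w i l = cut w' i' l' → w = w'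
  cut_nreal : ∀ w i l, real w → ¬ real (cut w i l)
  dir_cut : ∀ w i l, real w → dir w (cut w i l) = i
  cut_small : ∀ w i l, real w → Small dir w (cut w i l)
  cut_btw : ∀ w i l, real w → Btw dir w (cut w i l) (cut w i (l + 1))
  low : ∀ w p, real w → p ≠ w → ∃ l, Btw dir w (cut w (dir w p) l) p
  high : ∀ w i p, real w → ∃ l, ¬ Wb dir w (cut w i l) p
  nt : ∃ v v', real v ∧ real v' ∧ v ≠ v'

namespace RZ
variable {Γ P : Type} [Group Γ] [MulAction Γ P] (S : RZ Γ P)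
open Ad

/-- Number of prongs after filling. -/
def n (w : P) : ℤ := S.c (S.γ w) w

/-- The step of the recalibration. -/
def j (w : P) : ℤ := (S.n w - S.e (S.γ w)) / 2

/-- The generator of the shifts by the stabiliser. -/
noncomputable def m (w : P) : ℤ := Classical.epsilon fun a => 0 < a ∧
  (∀ g : Γ, g • w = w → a ∣ S.c g w) ∧ ∃ g : Γ, g • w = w ∧ S.c g w = a

/-- The order of the folding. -/
noncomputable def d (w : P) : ℤ := Int.gcd (S.n w / S.m w) (S.j w)

/-- Number of prongs after folding. -/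
noncomputable def n' (w : P) : ℤ := S.n w / S.d w

/-- The step after folding. -/
noncomputable def j' (w : P) : ℤ := S.j w / S.d w

/-- The degree of the filling element. -/
def D (w : P) : ℤ := S.deg (S.γ w) w

/-- The level of `p` seen from `w`. -/
noncomputable def lev (w p : P) : ℤ :=
  Classical.epsilon fun L => ∀ l, Wb S.dir w (S.cut w (S.dir w p) l) p ↔ l ≤ L

/-- The properties of the block positions. -/
def BetaSpec (β : P → ℤ → ℤ → ℤ) : Prop :=
  (∀ w i, S.real w → StrictMono (β w i)) ∧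
  (∀ (g : Γ) w i l, S.real w →
    β (g • w) (i + S.c g w) (l + S.deg g w) = β w i l + S.d w * S.d w * S.deg g w) ∧
  ∀ w i l l' t, S.real w → β w i l + t * (S.d w * S.D w) = β w (i + t * S.n' w) l' → S.d w ∣ t

/-- Block positions. -/
noncomputable def beta : P → ℤ → ℤ → ℤ := Classical.epsilon S.BetaSpec

/-- The first block after the position `B`. -/
noncomputable def MM (w : P) (I B : ℤ) : ℤ :=
  Classical.epsilon fun M => ∀ l, B < S.beta w I l ↔ M ≤ l

/-- Base points of the labels. -/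
noncomputable def bs : P → ℤ := Classical.epsilon fun b => ∀ (g : Γ) w, S.real w →
  S.m w ∣ b (g • w) - b w - S.c g w

/-- The label of a direction. -/
noncomputable def pi0 (w : P) (i : ℤ) : ℤ := (i - S.bs w) % S.m w

/-- The total shift of an address. -/
noncomputable def off : Ad P → ℤ
  | pt _ => 0
  | sw w t r => off r + t * S.n' w

/-- The label of a direction at an address. -/
noncomputable def piA (a : Ad P) (i : ℤ) : ℤ := S.pi0 a.last (i - S.off a)

/-- Valid addresses. -/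
def Val : Ad P → Prop
  | pt _ => True
  | sw w t r => S.real w ∧ 0 < t ∧ t < S.d w ∧ r.head ≠ w ∧ Val r

/-- The projection of an address to the base copy. -/
noncomputable def loc : Ad P → P
  | pt p => p
  | sw w t r => S.cut w (S.dir w (loc r) + t * S.n' w)
      (S.MM w (S.dir w (loc r) + t * S.n' w)
        (S.beta w (S.dir w (loc r)) (S.lev w (loc r)) + t * (S.d w * S.D w)))

/-- Adding a switch at `w`, in normal form. -/
noncomputable def join (w : P) (s : ℤ) (r : Ad P) : Ad P :=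
  if r = pt w then pt w else
  if s % S.d w = 0 then S.γ w ^ (s / S.d w) • r else sw w (s % S.d w) (S.γ w ^ (s / S.d w) • r)

/-- The `s`-th power of the root of the filling element at `w`. -/
noncomputable def R (w : P) (s : ℤ) (a : Ad P) : Ad P :=
  S.join w (s + (split w a).1) (split w a).2

/-- The direction of an address seen from `w`. -/
noncomputable def II (w : P) (a : Ad P) : ℤ := S.dir w (S.loc a)

/-- The block position of an address seen from `w`. -/
noncomputable def BB (w : P) (a : Ad P) : ℤ :=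
  S.beta w (S.dir w (S.loc (split w a).2)) (S.lev w (S.loc (split w a).2)) +
    (split w a).1 * (S.d w * S.D w)

/-- Directions in the unfolded tree. -/
noncomputable def dirA : Ad P → Ad P → ℤ
  | pt p, a => S.dir p (S.loc a)
  | sw w t r, a => dirA r (S.R w (-t) a) + t * S.n' w

/-- Vertices of the unfolded tree. -/
def VV : Type := {a : Ad P // S.Val a ∧ S.real a.last}

/-- Directions between vertices of the unfolded tree. -/
noncomputable def dir' (a b : S.VV) : ℤ := S.dirA a.1 b.1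

end RZ

end Pool.Agent.Work.MP_3d425c_gt.Bor
end

-- merged part: Pool.Agent.Work.MP_3d425c_gt.ZU1
section
/-! Unfolding: arithmetic, levels and block positions. -/

namespace Pool.Agent.Work.MP_3d425c_gt.Bor
open Classical

namespace RZ
variable {Γ P : Type} [Group Γ] [MulAction Γ P] (S : RZ Γ P)

theorem e_one : S.e 1 = 0 := by have := S.e_mul 1 1; rw [mul_one] at this; omega

theorem deg_one (u : P) : S.deg 1 u = 0 := by
  have := S.deg_mul 1 1 u
  rw [mul_one, one_smul] at this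
  omega

theorem c_one (u : P) : S.c 1 u = 0 := by
  have := S.c_mul 1 1 u
  rw [mul_one, one_smul] at this
  omega

theorem real_smul_iff (g : Γ) (p : P) : S.real (g • p) ↔ S.real p :=
  ⟨fun h => by simpa using S.real_smul g⁻¹ _ h, S.real_smul g p⟩

theorem PAU1_c_inv (g : Γ) (u : P) : S.c g⁻¹ (g • u) = -S.c g u := by
  have := S.c_mul g⁻¹ g u
  rw [inv_mul_cancel, S.c_one] at this
  omega

theorem PAU1_e_inv (g : Γ) : S.e g⁻¹ = -S.e g := by
  have := S.e_mul g⁻¹ g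
  rw [inv_mul_cancel, S.e_one] at this
  omega

theorem PAU1_deg_inv (g : Γ) (u : P) : S.deg g⁻¹ (g • u) = -S.deg g u := by
  have := S.deg_mul g⁻¹ g u
  rw [inv_mul_cancel, S.deg_one] at this
  omega

theorem wb_smul (g : Γ) (a m b : P) : Wb S.dir (g • a) (g • m) (g • b) ↔ Wb S.dir a m b := by
  by_cases e1 : a = m
  · subst e1
    exact iff_of_true (wb_left _ _) (wb_left _ _)
  by_cases e2 : b = m
  · subst e2
    exact iff_of_true (wb_right _ _) (wb_right _ _)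
  unfold Wb
  rw [smul_left_cancel_iff, smul_left_cancel_iff, S.equiv g m a e1, S.equiv g m b e2,
    add_ne_add_left]

theorem c_conj (g : Γ) {h : Γ} {w : P} (hh : h • w = w) :
    S.c (g * h * g⁻¹) (g • w) = S.c h w := by
  rw [S.c_mul, S.c_mul, inv_smul_smul, hh, S.PAU1_c_inv]
  ring

theorem n_pos {w : P} (hw : S.real w) : 0 < S.n w := (abs_nonneg _).trans_lt (S.he1 w hw)

theorem m_spec {w : P} (hw : S.real w) : 0 < S.m w ∧
    (∀ g : Γ, g • w = w → S.m w ∣ S.c g w) ∧ ∃ g : Γ, g • w = w ∧ S.c g w = S.m w := by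
  refine Classical.epsilon_spec (p := fun a => 0 < a ∧
    (∀ g : Γ, g • w = w → a ∣ S.c g w) ∧ ∃ g : Γ, g • w = w ∧ S.c g w = a) ?_
  let H : AddSubgroup ℤ :=
    { carrier := {a | ∃ g : Γ, g • w = w ∧ S.c g w = a}
      add_mem' := by
        rintro _ _ ⟨g, h1, rfl⟩ ⟨g', h2, rfl⟩
        exact ⟨g * g', by rw [mul_smul, h2, h1], by rw [S.c_mul, h2]⟩
      zero_mem' := ⟨1, one_smul _ _, S.c_one w⟩
      neg_mem' := by
        rintro _ ⟨g, h1, rfl⟩
        refine ⟨g⁻¹, inv_smul_eq_iff.2 h1.symm, ?_⟩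
        have := S.PAU1_c_inv g w
        rwa [h1] at this }
  obtain ⟨a, ha⟩ := Int.subgroup_cyclic H
  have h1 : ∀ x, x ∈ H ↔ a ∣ x := fun x => by
    rw [ha, AddSubgroup.mem_closure_singleton]
    exact ⟨fun ⟨k, hk⟩ => ⟨k, by rw [← hk, smul_eq_mul, mul_comm]⟩,
      fun ⟨k, hk⟩ => ⟨k, by rw [hk, smul_eq_mul, mul_comm]⟩⟩
  have h2 : a ≠ 0 := by
    rintro rfl
    have := (h1 _).1 ⟨S.γ w, S.γ_fix w hw, rfl⟩
    exact (S.n_pos hw).ne' (zero_dvd_iff.1 this)
  exact ⟨|a|, abs_pos.2 h2, fun g hg => (abs_dvd _ _).2 ((h1 _).1 ⟨g, hg, rfl⟩),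
    (h1 _).2 ((dvd_abs _ _).2 dvd_rfl)⟩

theorem m_smul {w : P} (hw : S.real w) (g : Γ) : S.m (g • w) = S.m w := by
  obtain ⟨a1, a2, s, a3, a4⟩ := S.m_spec hw
  obtain ⟨b1, b2, s', b3, b4⟩ := S.m_spec (S.real_smul g w hw)
  refine Int.dvd_antisymm b1.le a1.le ?_ ?_
  · rw [← a4, ← S.c_conj g a3]
    exact b2 _ (by rw [mul_smul, mul_smul, inv_smul_smul, a3])
  · have := S.c_conj g⁻¹ b3
    rw [inv_smul_smul] at this
    rw [← b4, ← this]
    exact a2 _ (by rw [inv_inv, mul_smul, mul_smul, b3, inv_smul_smul])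

theorem inv_smul {w : P} (hw : S.real w) (g : Γ) : S.n (g • w) = S.n w ∧ S.j (g • w) = S.j w ∧
    S.d (g • w) = S.d w ∧ S.n' (g • w) = S.n' w ∧ S.j' (g • w) = S.j' w ∧
    S.D (g • w) = S.D w := by
  have h1 : S.n (g • w) = S.n w := by
    unfold n
    rw [S.γ_smul g w hw, S.c_mul, S.c_mul, inv_smul_smul, S.γ_fix w hw, S.PAU1_c_inv]
    ring
  have h2 : S.e (S.γ (g • w)) = S.e (S.γ w) := by
    rw [S.γ_smul g w hw, S.e_mul, S.e_mul, S.PAU1_e_inv]
    ring
  have h3 : S.j (g • w) = S.j w := by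
    unfold j
    rw [h1, h2]
  have h4 : S.d (g • w) = S.d w := by
    unfold d
    rw [h1, h3, S.m_smul hw]
  refine ⟨h1, h3, h4, ?_, ?_, ?_⟩
  · unfold n'
    rw [h1, h4]
  · unfold j'
    rw [h3, h4]
  · unfold D
    rw [S.γ_smul g w hw, S.deg_mul, S.deg_mul, inv_smul_smul, S.γ_fix w hw, S.PAU1_deg_inv]
    ring

theorem arith {w : P} (hw : S.real w) : 0 < S.d w ∧ S.n w = S.d w * S.n' w ∧
    S.e (S.γ w) = S.d w * (S.n' w - 2 * S.j' w) ∧ 0 < S.j' w ∧ S.j' w < S.n' w ∧ 3 ≤ S.n' w ∧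
    ∃ k, S.n' w = S.m w * k ∧ IsCoprime k (S.j' w) := by
  have h1 : |S.e (S.γ w)| < S.n w := S.he1 w hw
  obtain ⟨r, hr⟩ : Even (S.e (S.γ w) - S.n w) := S.epar (S.γ w) w
  obtain ⟨m1, m2, s, m3, m4⟩ := S.m_spec hw
  obtain ⟨k, hk⟩ : S.m w ∣ S.n w := m2 _ (S.γ_fix w hw)
  have hk' : S.n w / S.m w = k := by rw [hk, Int.mul_ediv_cancel_left _ m1.ne']
  rw [abs_lt] at h1
  have h2 : 2 * S.j w = S.n w - S.e (S.γ w) := by
    unfold j
    omega
  have hj0 : 0 < S.j w := by omega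
  have hj1 : S.j w < S.n w := by omega
  have hg : 0 < Int.gcd k (S.j w) := Int.gcd_pos_of_ne_zero_right _ hj0.ne'
  have hd' : S.d w = Int.gcd k (S.j w) := by rw [d, hk']
  have hd : 0 < S.d w := by
    rw [hd']
    exact_mod_cast hg
  have h0 : k = S.d w * (k / S.d w) := by
    rw [hd']
    exact (Int.mul_ediv_cancel' (Int.gcd_dvd_left _ _)).symm
  have h8 : S.n' w = S.m w * (k / S.d w) := by
    rw [n', hk]
    conv_lhs => rw [h0, mul_left_comm, Int.mul_ediv_cancel_left _ hd.ne']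
  have h3 : S.n w = S.d w * S.n' w := by
    rw [h8, mul_left_comm, ← h0, hk]
  have h4 : S.j w = S.d w * S.j' w := by
    rw [j', hd']
    exact (Int.mul_ediv_cancel' (Int.gcd_dvd_right _ _)).symm
  have h5 : S.e (S.γ w) = S.d w * (S.n' w - 2 * S.j' w) := by linarith
  have h6 : 0 < S.j' w := by
    rw [h4] at hj0
    exact (mul_pos_iff_of_pos_left hd).1 hj0
  have h7 : S.j' w < S.n' w := by
    rw [h3, h4] at hj1
    exact lt_of_mul_lt_mul_left hj1 hd.le
  refine ⟨hd, h3, h5, h6, h7, ?_, k / S.d w, h8, ?_⟩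
  · by_contra h9
    have h10 : S.n' w = 2 := by omega
    rcases S.he0 w hw with h | h
    · exact h (by rw [h5, show S.n' w - 2 * S.j' w = 0 by omega, mul_zero])
    · have h11 : ∀ q : ℤ, s ^ q • w = w := fun q =>
        (MulAction.stabilizer Γ w).zpow_mem (MulAction.mem_stabilizer_iff.2 m3) q
      refine h (s ^ (k / S.d w)) (h11 _) ?_
      rw [PAU1_lin (fun q => S.c (s ^ q) w) (S.m w) (by simp only [zpow_zero, S.c_one])
        (fun q => by simp only [zpow_add_one, S.c_mul, m3, m4]), mul_comm, ← h8, h10]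
  · rw [j', hd']
    exact Int.isCoprime_iff_gcd_eq_one.2 (Int.gcd_div_gcd_div_gcd hg)

theorem bs_spec (g : Γ) (w : P) (hw : S.real w) : S.m w ∣ S.bs (g • w) - S.bs w - S.c g w := by
  refine Classical.epsilon_spec (p := fun b : P → ℤ => ∀ (g : Γ) w, S.real w →
    S.m w ∣ b (g • w) - b w - S.c g w) ?_ g w hw
  obtain ⟨K, hK⟩ := PAU1_cob (X := {w // S.real w})
    (fun x y s => ∃ g : Γ, y.1 = g • x.1 ∧ s = S.c g x.1) (fun x => S.m x.1)
    (fun x => ⟨1, by rw [one_smul], by rw [S.c_one]⟩)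
    (by
      rintro x y s ⟨g, e1, e2⟩
      exact ⟨g⁻¹, by rw [e1, inv_smul_smul], by rw [e1, e2, S.PAU1_c_inv]⟩)
    (by
      rintro x y z s s' ⟨g, e1, e2⟩ ⟨h, f1, f2⟩
      exact ⟨h * g, by rw [f1, e1, mul_smul], by rw [f2, e1, e2, S.c_mul, add_comm]⟩)
    (by
      rintro x s ⟨g, e1, e2⟩
      exact e2 ▸ (S.m_spec x.2).2.1 g e1.symm)
  refine ⟨fun w => if h : S.real w then K ⟨w, h⟩ else 0, fun g w hw => ?_⟩
  simp only [dif_pos hw, dif_pos (S.real_smul g w hw)]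
  exact hK ⟨w, hw⟩ ⟨g • w, S.real_smul g w hw⟩ _ ⟨g, rfl, rfl⟩

theorem pi0_smul {w : P} (hw : S.real w) (g : Γ) (i : ℤ) :
    S.pi0 (g • w) (i + S.c g w) = S.pi0 w i := by
  unfold pi0
  rw [S.m_smul hw]
  refine (Int.modEq_iff_dvd.2 ?_ : Int.ModEq _ _ _)
  convert S.bs_spec g w hw using 1
  ring

theorem pi0_add {w : P} (hw : S.real w) (i s : ℤ) : S.pi0 w (i + s * S.n' w) = S.pi0 w i := by
  obtain ⟨k, hk, -⟩ := (S.arith hw).2.2.2.2.2.2
  unfold pi0
  refine (Int.modEq_iff_dvd.2 ⟨-(s * k), ?_⟩ : Int.ModEq _ _ _)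
  rw [hk]
  ring

theorem pi0_bound {w : P} (hw : S.real w) (i : ℤ) : 0 ≤ S.pi0 w i ∧ S.pi0 w i < S.n' w := by
  obtain ⟨-, -, -, -, -, h3, k, hk, -⟩ := S.arith hw
  have h1 := (S.m_spec hw).1
  refine ⟨Int.emod_nonneg _ h1.ne', (Int.emod_lt_of_pos _ h1).trans_le ?_⟩
  exact Int.le_of_dvd (by omega) ⟨k, hk⟩

theorem pi0_sep {w : P} (hw : S.real w) {i i' : ℤ} (h : S.pi0 w i = S.pi0 w i')
    (h' : S.n' w ∣ S.j' w * (i' - i)) : S.n' w ∣ i' - i := by
  obtain ⟨k, hk, hc⟩ := (S.arith hw).2.2.2.2.2.2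
  have h1 := (S.m_spec hw).1
  obtain ⟨t, ht⟩ : S.m w ∣ i' - i := by
    convert Int.ModEq.dvd h using 1
    ring
  rw [hk, ht] at h' ⊢
  rw [mul_left_comm] at h'
  exact mul_dvd_mul_left _ (hc.dvd_of_dvd_mul_left (Int.dvd_of_mul_dvd_mul_left h1.ne' h'))

theorem γ_zpow {w : P} (hw : S.real w) (q : ℤ) : S.γ w ^ q • w = w ∧
    S.c (S.γ w ^ q) w = q * S.n w ∧ S.e (S.γ w ^ q) = q * S.e (S.γ w) ∧
    S.deg (S.γ w ^ q) w = q * S.D w := by
  have h1 : ∀ q : ℤ, S.γ w ^ q • w = w := fun q =>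
    (MulAction.stabilizer Γ w).zpow_mem (MulAction.mem_stabilizer_iff.2 (S.γ_fix w hw)) q
  refine ⟨h1 q, PAU1_lin (fun q => S.c (S.γ w ^ q) w) _ ?_ (fun q => ?_) q,
    PAU1_lin (fun q => S.e (S.γ w ^ q)) _ ?_ (fun q => ?_) q,
    PAU1_lin (fun q => S.deg (S.γ w ^ q) w) _ ?_ (fun q => ?_) q⟩
  · simp only [zpow_zero, S.c_one]
  · simp only [zpow_add_one, S.c_mul, S.γ_fix w hw, n]
  · simp only [zpow_zero, S.e_one]
  · simp only [zpow_add_one, S.e_mul]
  · simp only [zpow_zero, S.deg_one]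
  · simp only [zpow_add_one, S.deg_mul, S.γ_fix w hw, D]

theorem cut_ne {w : P} (hw : S.real w) (i l : ℤ) : S.cut w i l ≠ w := fun e =>
  S.cut_nreal w i l hw (e.symm ▸ hw)

theorem PAU1_wb_le {w : P} (hw : S.real w) (i : ℤ) {l l' : ℤ} (h : l ≤ l') :
    Wb S.dir w (S.cut w i l) (S.cut w i l') := by
  induction l', h using Int.leInduction with
  | base => exact wb_right _ _
  | succ k _ ih => exact ih.trans_left S.t1 (S.cut_btw w i k hw).wb

theorem PAU1_btw_lt {w : P} (hw : S.real w) (i : ℤ) {l l' : ℤ} (h : l < l') :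
    Btw S.dir w (S.cut w i l) (S.cut w i l') := by
  refine (S.PAU1_wb_le hw i h.le).btw (S.cut_ne hw i l).symm fun e => ?_
  have h1 := S.PAU1_wb_le hw i (show l + 1 ≤ l' from h)
  rw [e] at h1
  exact (S.cut_btw w i l hw).2.1 (h1.antisymm S.t1 (S.cut_btw w i l hw).wb)

theorem PAU1_dir {w p : P} (hw : S.real w) {i l : ℤ} (h : Wb S.dir w (S.cut w i l) p) :
    i = S.dir w p := by
  rw [h.dir_eq S.t1 (S.cut_ne hw i l).symm, S.dir_cut w i l hw]

theorem btw_cut_cut {w : P} (hw : S.real w) (i l i' l' : ℤ) :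
    Btw S.dir w (S.cut w i l) (S.cut w i' l') ↔ i = i' ∧ l < l' := by
  constructor
  · intro h
    have e : i = i' := by rw [S.PAU1_dir hw h.wb, S.dir_cut w i' l' hw]
    subst e
    refine ⟨rfl, not_le.1 fun hl => h.2.1 ?_⟩
    exact (S.PAU1_wb_le hw i hl).antisymm S.t1 h.wb
  · rintro ⟨rfl, h⟩
    exact S.PAU1_btw_lt hw i h

theorem wb_cut_cut {w : P} (hw : S.real w) (i l i' l' : ℤ) :
    Wb S.dir w (S.cut w i l) (S.cut w i' l') ↔ i = i' ∧ l ≤ l' := by
  constructor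
  · intro h
    have e : i = i' := by rw [S.PAU1_dir hw h, S.dir_cut w i' l' hw]
    subst e
    refine ⟨rfl, not_lt.1 fun hl => (S.PAU1_btw_lt hw i hl).2.1 ?_⟩
    exact h.antisymm S.t1 (S.PAU1_btw_lt hw i hl).wb
  · rintro ⟨rfl, h⟩
    exact S.PAU1_wb_le hw i h

theorem lev_spec {w p : P} (hw : S.real w) (hp : p ≠ w) (i l : ℤ) :
    Wb S.dir w (S.cut w i l) p ↔ i = S.dir w p ∧ l ≤ S.lev w p := by
  have h1 : ∃ L, ∀ l, Wb S.dir w (S.cut w (S.dir w p) l) p ↔ l ≤ L := by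
    obtain ⟨l0, h0⟩ := S.low w p hw hp
    obtain ⟨l1, h1⟩ := S.high w (S.dir w p) p hw
    obtain ⟨L, h2, h3⟩ := Int.exists_greatest_of_bdd
      (P := fun l => Wb S.dir w (S.cut w (S.dir w p) l) p)
      ⟨l1, fun z hz => not_lt.1 fun h => h1 ((S.PAU1_wb_le hw _ h.le).trans_left S.t1 hz)⟩
      ⟨l0, h0.wb⟩
    exact ⟨L, fun l => ⟨h3 l, fun h => (S.PAU1_wb_le hw _ h).trans_left S.t1 h2⟩⟩
  have h2 : ∀ l, Wb S.dir w (S.cut w (S.dir w p) l) p ↔ l ≤ S.lev w p :=
    Classical.epsilon_spec h1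
  constructor
  · intro h
    have e := S.PAU1_dir hw h
    subst e
    exact ⟨rfl, (h2 l).1 h⟩
  · rintro ⟨rfl, h⟩
    exact (h2 l).2 h

theorem lev_smul {w p : P} (hw : S.real w) (hp : p ≠ w) (g : Γ) :
    S.lev (g • w) (g • p) = S.lev w p + S.deg g w := by
  have hp' : g • p ≠ g • w := fun e => hp ((smul_left_cancel_iff g).1 e)
  refine eq_of_forall_le_iff fun l => ?_
  have h1 := S.lev_spec (S.real_smul g w hw) hp' (S.dir w p + S.c g w)
    (l - S.deg g w + S.deg g w)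
  rw [← S.cut_smul g w _ _ hw, S.wb_smul, S.lev_spec hw hp, S.equiv g w p hp, sub_add_cancel] at h1
  simp only [true_and] at h1
  rw [← h1]
  omega

theorem PAU1_beta : ∃ β, S.BetaSpec β := by
  obtain ⟨K, hK⟩ := PAU1_cob (X := {w // S.real w} × ℤ × ℤ)
    (fun x y s => ∃ g : Γ, y.1.1 = g • x.1.1 ∧ y.2.1 = x.2.1 + S.c g x.1.1 + s * S.n' x.1.1 ∧
      y.2.2 = x.2.2 + S.d x.1.1 * S.deg g x.1.1 + s * S.D x.1.1)
    (fun x => S.d x.1.1)
    (fun x => ⟨1, by rw [one_smul], by rw [S.c_one]; ring, by rw [S.deg_one]; ring⟩)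
    (by
      rintro x y s ⟨g, e1, e2, e3⟩
      obtain ⟨-, -, a3, a4, -, a6⟩ := S.inv_smul x.1.2 g
      refine ⟨g⁻¹, by rw [e1, inv_smul_smul], ?_, ?_⟩
      · rw [e1, e2, a4, S.PAU1_c_inv]; ring
      · rw [e1, e3, a3, a6, S.PAU1_deg_inv]; ring)
    (by
      rintro x y z s s' ⟨g, e1, e2, e3⟩ ⟨h, f1, f2, f3⟩
      obtain ⟨-, -, a3, a4, -, a6⟩ := S.inv_smul x.1.2 g
      refine ⟨h * g, by rw [f1, e1, mul_smul], ?_, ?_⟩
      · rw [f2, e1, e2, a4, S.c_mul]; ring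
      · rw [f3, e1, e3, a3, a6, S.deg_mul]; ring)
    (by
      rintro x s ⟨g, e1, e2, e3⟩
      obtain ⟨-, a2, -⟩ := S.arith x.1.2
      refine (dvd_neg).1 (S.prim _ x.1.2 g _ (-s) e1.symm ?_ ?_)
      · change _ = -s * S.n x.1.1
        rw [a2, show S.c g x.1.1 = -(s * S.n' x.1.1) by linarith]
        ring
      · change _ = -s * S.D x.1.1
        linarith)
  refine ⟨fun w i l => if h : S.real w then
    S.d w * (S.d w * l) + (-K (⟨w, h⟩, i, S.d w * l)) % S.d w else 0, ?_, ?_, ?_⟩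
  · intro w i hw
    have hd := (S.arith hw).1
    refine strictMono_int_of_lt_succ fun l => ?_
    simp only [dif_pos hw]
    have h1 := Int.emod_lt_of_pos (-K (⟨w, hw⟩, i, S.d w * l)) hd
    have h2 := Int.emod_nonneg (-K (⟨w, hw⟩, i, S.d w * (l + 1))) hd.ne'
    have h3 : S.d w ≤ S.d w * S.d w := by nlinarith
    nlinarith
  · intro g w i l hw
    have hgw := S.real_smul g w hw
    simp only [dif_pos hw, dif_pos hgw]
    obtain ⟨-, -, a3, -⟩ := S.inv_smul hw g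
    have h1 := hK (⟨w, hw⟩, i, S.d w * l) (⟨g • w, hgw⟩, i + S.c g w, S.d w * (l + S.deg g w)) 0
      ⟨g, rfl, by simp, by dsimp only; ring⟩
    dsimp only at h1
    have h2 : (-K (⟨g • w, hgw⟩, i + S.c g w, S.d w * (l + S.deg g w))) % S.d w =
        (-K (⟨w, hw⟩, i, S.d w * l)) % S.d w := by
      refine (Int.modEq_iff_dvd.2 ?_ : Int.ModEq _ _ _)
      convert h1 using 1
      ring
    rw [a3, h2]
    ring
  · intro w i l l' t hw h
    have hd := (S.arith hw).1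
    simp only [dif_pos hw] at h
    have h1 := Int.emod_lt_of_pos (-K (⟨w, hw⟩, i, S.d w * l)) hd
    have h2 := Int.emod_nonneg (-K (⟨w, hw⟩, i, S.d w * l)) hd.ne'
    have h3 := Int.emod_lt_of_pos (-K (⟨w, hw⟩, i + t * S.n' w, S.d w * l')) hd
    have h4 := Int.emod_nonneg (-K (⟨w, hw⟩, i + t * S.n' w, S.d w * l')) hd.ne'
    have h5 : S.d w * l + t * S.D w = S.d w * l' := by
      have h6 : S.d w * (S.d w * l + t * S.D w - S.d w * l') < S.d w * 1 := by linarith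
      have h7 : S.d w * (-1) < S.d w * (S.d w * l + t * S.D w - S.d w * l') := by linarith
      have h8 := lt_of_mul_lt_mul_left h6 hd.le
      have h9 := lt_of_mul_lt_mul_left h7 hd.le
      omega
    have h6 : (-K (⟨w, hw⟩, i, S.d w * l)) % S.d w =
        (-K (⟨w, hw⟩, i + t * S.n' w, S.d w * l')) % S.d w := by
      have h7 : S.d w * (S.d w * l) + t * (S.d w * S.D w) = S.d w * (S.d w * l') := by
        rw [← h5]; ring
      linarith
    have h7 := hK (⟨w, hw⟩, i, S.d w * l) (⟨w, hw⟩, i + t * S.n' w, S.d w * l') t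
      ⟨1, by rw [one_smul], by rw [S.c_one]; dsimp only; ring,
        by rw [S.deg_one]; dsimp only; rw [← h5]; ring⟩
    dsimp only at h7
    have h8 := Int.ModEq.dvd h6
    have h9 := dvd_add h7 h8
    rw [show ∀ a b : ℤ, a - b - t + (-a - -b) = -t from fun a b => by ring] at h9
    exact dvd_neg.1 h9

theorem beta_spec : S.BetaSpec S.beta := by
  exact Classical.epsilon_spec S.PAU1_beta

theorem MM_spec {w : P} (hw : S.real w) (I B l : ℤ) : B < S.beta w I l ↔ S.MM w I B ≤ l := by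
  exact Classical.epsilon_spec (PAU1_least (S.beta_spec.1 w I hw) B) l

theorem MM_smul {w : P} (hw : S.real w) (g : Γ) (I B : ℤ) :
    S.MM (g • w) (I + S.c g w) (B + S.d w * S.d w * S.deg g w) = S.MM w I B + S.deg g w := by
  refine eq_of_forall_ge_iff fun l => ?_
  have h1 := S.beta_spec.2.1 g w I (l - S.deg g w) hw
  rw [sub_add_cancel] at h1
  rw [← S.MM_spec (S.real_smul g w hw), h1, add_lt_add_iff_right, S.MM_spec hw]
  omega

end RZ

end Pool.Agent.Work.MP_3d425c_gt.Bor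
end

-- merged part: Pool.Agent.Work.MP_3d425c_gt.ZU2
section
/-! Unfolding: the roots of the filling elements acting on addresses. -/

namespace Pool.Agent.Work.MP_3d425c_gt.Bor
open Classical

namespace RZ
variable {Γ P : Type} [Group Γ] [MulAction Γ P] (S : RZ Γ P)
open Ad

theorem head_smul (g : Γ) (a : Ad P) : (g • a).head = g • a.head := by
  cases a <;> rfl

theorem last_smul (g : Γ) (a : Ad P) : (g • a).last = g • a.last := by
  induction a with
  | pt p => rfl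
  | sw w t r ih => exact ih

theorem val_smul (g : Γ) {a : Ad P} (ha : S.Val a) : S.Val (g • a) := by
  induction a with
  | pt p => trivial
  | sw w t r ih =>
    obtain ⟨h1, h2, h3, h4, h5⟩ := ha
    refine ⟨S.real_smul g w h1, h2, ?_, ?_, ih h5⟩
    · rw [(S.inv_smul h1 g).2.2.1]
      exact h3
    · rw [show (r.map (g • ·)).head = g • r.head from head_smul g r]
      exact fun h => h4 (smul_left_cancel g h)

theorem free_smul (g : Γ) {w : P} {a : Ad P} : Free (g • w) (g • a) ↔ Free w a := by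
  refine ⟨fun h t r e => h t (g • r) (by rw [e, smul_sw]), fun h t r e => h t (g⁻¹ • r) ?_⟩
  rw [← inv_smul_smul g a, e, smul_sw, inv_smul_smul]

theorem free_of_head {w : P} {a : Ad P} (h : a.head ≠ w) : Free w a := by
  rintro t r rfl
  exact h rfl

theorem split_free {w : P} {a : Ad P} (h : Free w a) : split w a = (0, a) := by
  cases a with
  | pt p => rfl
  | sw w' t r => exact if_neg fun e => h t r (by rw [e])

theorem split_sw (w : P) (t : ℤ) (r : Ad P) : split w (sw w t r) = (t, r) := by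
  simp [split]

theorem R_pt (w : P) (s : ℤ) : S.R w s (pt w) = pt w := by
  exact if_pos rfl

theorem U2_decomp {w : P} {a : Ad P} (ha : S.Val a) (h : a ≠ pt w) :
    ∃ (t : ℤ) (r : Ad P), split w a = (t, r) ∧ S.Val r ∧ r.head ≠ w ∧ r.last = a.last ∧
      (t = 0 ∧ a = r ∨ 0 < t ∧ t < S.d w ∧ a = sw w t r) := by
  cases a with
  | pt p => exact ⟨0, pt p, rfl, ha, fun e => h (congrArg pt e), rfl, Or.inl ⟨rfl, rfl⟩⟩
  | sw w' t r =>
    by_cases e : w' = w
    · subst e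
      exact ⟨t, r, split_sw _ _ _, ha.2.2.2.2, ha.2.2.2.1, rfl, Or.inr ⟨ha.2.1, ha.2.2.1, rfl⟩⟩
    · exact ⟨0, _, if_neg e, ha, e, rfl, Or.inl ⟨rfl, rfl⟩⟩

theorem U2_ne_pt {w : P} {r : Ad P} (h : r.head ≠ w) : r ≠ pt w := by
  rintro rfl
  exact h rfl

theorem U2_head {w : P} (hw : S.real w) (q : ℤ) {r : Ad P} (h : r.head ≠ w) :
    (S.γ w ^ q • r).head ≠ w := by
  rw [head_smul]
  exact fun e => h (smul_left_cancel (S.γ w ^ q) (e.trans (S.γ_zpow hw q).1.symm))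

theorem U2_join {w : P} {r : Ad P} (h : r.head ≠ w) (s : ℤ) : S.join w s r =
    if s % S.d w = 0 then S.γ w ^ (s / S.d w) • r else
      sw w (s % S.d w) (S.γ w ^ (s / S.d w) • r) := if_neg (U2_ne_pt h)

theorem U2_join_add {w : P} (hw : S.real w) (s q : ℤ) {r : Ad P} (h : r.head ≠ w) :
    S.join w (s + S.d w * q) r = S.join w s (S.γ w ^ q • r) := by
  rw [S.U2_join h, S.U2_join (S.U2_head hw q h), Int.add_mul_emod_self_left,
    Int.add_mul_ediv_left _ _ (S.arith hw).1.ne', zpow_add, mul_smul]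

theorem U2_split_join {w : P} (hw : S.real w) (s : ℤ) {r : Ad P} (h : r.head ≠ w) :
    split w (S.join w s r) = (s % S.d w, S.γ w ^ (s / S.d w) • r) := by
  rw [S.U2_join h]
  split_ifs with e
  · rw [split_free (free_of_head (S.U2_head hw _ h)), e]
  · exact split_sw _ _ _

theorem U2_join_small {w : P} {t : ℤ} (h0 : 0 < t) (h1 : t < S.d w) {r : Ad P}
    (h : r.head ≠ w) : S.join w t r = sw w t r := by
  rw [S.U2_join h, Int.emod_eq_of_lt h0.le h1, if_neg h0.ne', Int.ediv_eq_zero_of_lt h0.le h1,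
    zpow_zero, one_smul]

theorem U2_join_zero {w : P} {r : Ad P} (h : r.head ≠ w) : S.join w 0 r = r := by
  rw [S.U2_join h, Int.zero_emod, if_pos rfl, Int.zero_ediv, zpow_zero, one_smul]

theorem U2_R {w : P} {a r : Ad P} {t : ℤ} (h : split w a = (t, r)) (s : ℤ) :
    S.R w s a = S.join w (s + t) r := by
  rw [R, h]

theorem val_R {w : P} (hw : S.real w) (s : ℤ) {a : Ad P} (ha : S.Val a) : S.Val (S.R w s a) := by
  by_cases h : a = pt w
  · rw [h, R_pt]
    trivial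
  obtain ⟨t, r, h1, h2, h3, -, -⟩ := S.U2_decomp ha h
  rw [S.U2_R h1, S.U2_join h3]
  have hd := (S.arith hw).1
  split_ifs with e
  · exact S.val_smul _ h2
  · exact ⟨hw, lt_of_le_of_ne (Int.emod_nonneg _ hd.ne') (Ne.symm e), Int.emod_lt_of_pos _ hd,
      S.U2_head hw _ h3, S.val_smul _ h2⟩

theorem R_zero {w : P} (hw : S.real w) {a : Ad P} (ha : S.Val a) : S.R w 0 a = a := by
  by_cases h : a = pt w
  · rw [h, R_pt]
  obtain ⟨t, r, h1, -, h3, -, h4⟩ := S.U2_decomp ha h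
  rw [S.U2_R h1, zero_add]
  rcases h4 with ⟨rfl, rfl⟩ | ⟨h4, h5, rfl⟩
  · exact S.U2_join_zero h3
  · exact S.U2_join_small h4 h5 h3

theorem R_add {w : P} (hw : S.real w) (s s' : ℤ) {a : Ad P} (ha : S.Val a) :
    S.R w s (S.R w s' a) = S.R w (s + s') a := by
  by_cases h : a = pt w
  · rw [h, R_pt, R_pt, R_pt]
  obtain ⟨t, r, h1, -, h3, -, -⟩ := S.U2_decomp ha h
  rw [S.U2_R h1, S.U2_R h1, S.U2_R (S.U2_split_join hw _ h3), ← S.U2_join_add hw _ _ h3,
    add_assoc, Int.emod_add_mul_ediv, add_assoc]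

theorem R_gamma {w : P} (hw : S.real w) (q : ℤ) {a : Ad P} (ha : S.Val a) :
    S.R w (S.d w * q) a = S.γ w ^ q • a := by
  by_cases h : a = pt w
  · rw [h, R_pt, smul_pt, (S.γ_zpow hw q).1]
  obtain ⟨t, r, h1, -, h3, -, h4⟩ := S.U2_decomp ha h
  rw [S.U2_R h1, add_comm, S.U2_join_add hw _ _ h3]
  rcases h4 with ⟨rfl, rfl⟩ | ⟨h4, h5, rfl⟩
  · exact S.U2_join_zero (S.U2_head hw q h3)
  · rw [S.U2_join_small h4 h5 (S.U2_head hw q h3), smul_sw, (S.γ_zpow hw q).1]

theorem R_smul {w : P} (hw : S.real w) (g : Γ) (s : ℤ) (a : Ad P) :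
    g • S.R w s a = S.R (g • w) s (g • a) := by
  have h1 : split (g • w) (g • a) = ((split w a).1, g • (split w a).2) := by
    cases a with
    | pt p => rfl
    | sw w' t r =>
      by_cases e : w' = w
      · rw [e, smul_sw, split_sw, split_sw]
      · have e' : g • w' ≠ g • w := fun h => e (smul_left_cancel g h)
        simp only [smul_sw, split, if_neg e, if_neg e']
  rw [S.U2_R h1, R]
  generalize s + (split w a).1 = k
  generalize (split w a).2 = r
  have h2 : ∀ q : ℤ, S.γ (g • w) ^ q • g • r = g • S.γ w ^ q • r := fun q => by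
    rw [S.γ_smul g w hw, conj_zpow, mul_smul, mul_smul, inv_smul_smul]
  by_cases h : r = pt w
  · rw [h, smul_pt, join, join, if_pos rfl, if_pos rfl, smul_pt]
  · have h' : g • r ≠ pt (g • w) := fun e => h (smul_left_cancel g e)
    rw [join, join, if_neg h, if_neg h', (S.inv_smul hw g).2.2.1, h2]
    split_ifs <;> rfl

theorem R_sw {w : P} {t : ℤ} {r : Ad P} (h : S.Val (sw w t r)) : S.R w t r = sw w t r := by
  rw [S.U2_R (split_free (free_of_head h.2.2.2.1)), add_zero,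
    S.U2_join_small h.2.1 h.2.2.1 h.2.2.2.1]

theorem R_neg_sw {w : P} {t : ℤ} {r : Ad P} (h : S.Val (sw w t r)) :
    S.R w (-t) (sw w t r) = r := by
  rw [S.U2_R (split_sw w t r), neg_add_cancel, S.U2_join_zero h.2.2.2.1]

theorem R_inj {w : P} (hw : S.real w) (s : ℤ) {a b : Ad P} (ha : S.Val a) (hb : S.Val b)
    (h : S.R w s a = S.R w s b) : a = b := by
  rw [← S.R_zero hw ha, ← S.R_zero hw hb, ← neg_add_cancel s, ← S.R_add hw _ _ ha,
    ← S.R_add hw _ _ hb, h]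

/-- The normal form of `R w s a`. -/
theorem R_form {w : P} (hw : S.real w) (s : ℤ) {a : Ad P} (ha : S.Val a) (h : a ≠ pt w) :
    ∃ (t q m : ℤ) (r : Ad P), split w a = (t, r) ∧ S.Val r ∧ r.head ≠ w ∧ r.last = a.last ∧
      (t = 0 ∧ a = r ∨ 0 < t ∧ t < S.d w ∧ a = sw w t r) ∧ s + t = S.d w * q + m ∧
      (m = 0 ∧ S.R w s a = S.γ w ^ q • r ∨
        0 < m ∧ m < S.d w ∧ S.R w s a = sw w m (S.γ w ^ q • r)) := by
  obtain ⟨t, r, h1, h2, h3, h4, h5⟩ := S.U2_decomp ha h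
  have hd := (S.arith hw).1
  refine ⟨t, (s + t) / S.d w, (s + t) % S.d w, r, h1, h2, h3, h4, h5,
    (Int.mul_ediv_add_emod _ _).symm, ?_⟩
  rw [S.U2_R h1, S.U2_join h3]
  by_cases e : (s + t) % S.d w = 0
  · exact Or.inl ⟨e, if_pos e⟩
  · exact Or.inr ⟨lt_of_le_of_ne (Int.emod_nonneg _ hd.ne') (Ne.symm e), Int.emod_lt_of_pos _ hd,
      if_neg e⟩

theorem last_R {w : P} (hw : S.real w) (s : ℤ) {a : Ad P} (ha : S.Val a) :
    ∃ q : ℤ, (S.R w s a).last = S.γ w ^ q • a.last := by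
  by_cases h : a = pt w
  · exact ⟨0, by rw [h, R_pt, zpow_zero, one_smul]⟩
  obtain ⟨t, q, m, r, -, -, -, h1, -, -, h2⟩ := S.R_form hw s ha h
  refine ⟨q, ?_⟩
  rcases h2 with ⟨-, h2⟩ | ⟨-, -, h2⟩
  · rw [h2, last_smul, h1]
  · rw [h2, last, last_smul, h1]

/-- Unless the switch cancels, the new address starts at `w`. -/
theorem head_R {w : P} {t : ℤ} (hw : S.real w) (h0 : 0 < t) (h1 : t < S.d w) {a : Ad P}
    (ha : S.Val a) (h : ∀ r, a ≠ sw w t r) :
    S.R w (-t) a = pt w ∨ ∃ m r, S.R w (-t) a = sw w m r := by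
  by_cases e : a = pt w
  · exact Or.inl (by rw [e, R_pt])
  obtain ⟨t', q, m, r, -, -, -, -, h2, h3, h4⟩ := S.R_form hw (-t) ha e
  rcases h4 with ⟨rfl, -⟩ | ⟨-, -, h4⟩
  · have h5 : 0 ≤ t' ∧ t' < S.d w := by
      rcases h2 with ⟨h2, -⟩ | ⟨h2, h2', -⟩ <;> omega
    have h6 : q = 0 := by
      by_contra hq
      rcases lt_or_gt_of_ne hq with hq | hq <;> nlinarith [h5.1, h5.2]
    rw [h6] at h3
    rcases h2 with ⟨h2, -⟩ | ⟨-, -, h2⟩
    · omega
    · exact absurd (by rw [h2, show t' = t by omega]) (h r)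
  · exact Or.inr ⟨_, _, h4⟩

end RZ

end Pool.Agent.Work.MP_3d425c_gt.Bor
end

-- merged part: Pool.Agent.Work.MP_3d425c_gt.ZU3
section
/-! Unfolding: projection to the base copy. -/

namespace Pool.Agent.Work.MP_3d425c_gt.Bor
open Classical

namespace RZ
variable {Γ P : Type} [Group Γ] [MulAction Γ P] (S : RZ Γ P)
open Ad

theorem loc_real {a : Ad P} (ha : S.Val a) (h : S.real (S.loc a)) : a = pt (S.loc a) := by
  cases a with
  | pt p => rfl
  | sw w t r => exact absurd h (S.cut_nreal w _ _ ha.1)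

theorem loc_ne {w : P} (hw : S.real w) {a : Ad P} (ha : S.Val a) (h : a ≠ pt w) :
    S.loc a ≠ w := fun e => h (e ▸ S.loc_real ha (e.symm ▸ hw))

theorem loc_smul (g : Γ) {a : Ad P} (ha : S.Val a) : S.loc (g • a) = g • S.loc a := by
  induction a with
  | pt p => rfl
  | sw w t r ih =>
    obtain ⟨hw, -, -, hh, hr⟩ := ha
    have hne : S.loc r ≠ w := S.loc_ne hw hr fun e => hh (by rw [e]; rfl)
    obtain ⟨-, -, e1, e2, -, e3⟩ := S.inv_smul hw g
    rw [smul_sw, loc, loc, ih hr, S.equiv g w _ hne, S.lev_smul hw hne, S.beta_spec.2.1 g w _ _ hw,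
      e1, e2, e3, S.cut_smul g w _ _ hw, ← S.MM_smul hw g, add_right_comm,
      add_right_comm (S.beta w _ _)]

theorem BB_free {w : P} {a : Ad P} (h : Free w a) :
    S.BB w a = S.beta w (S.II w a) (S.lev w (S.loc a)) := by
  rw [BB, split_free h, zero_mul, add_zero]
  rfl

theorem PAU3_II {w : P} (hw : S.real w) (t : ℤ) (r : Ad P) :
    S.II w (sw w t r) = S.dir w (S.loc r) + t * S.n' w := S.dir_cut w _ _ hw

theorem PAU3_BB (w : P) (t : ℤ) (r : Ad P) : S.BB w (sw w t r) =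
    S.beta w (S.dir w (S.loc r)) (S.lev w (S.loc r)) + t * (S.d w * S.D w) := by
  rw [BB, split_sw]

theorem PAU3_form {w : P} (hw : S.real w) {t : ℤ} {r a : Ad P} (hh : r.head ≠ w)
    (h : t = 0 ∧ a = r ∨ a = sw w t r) : S.II w a = S.dir w (S.loc r) + t * S.n' w ∧
      S.BB w a = S.beta w (S.dir w (S.loc r)) (S.lev w (S.loc r)) + t * (S.d w * S.D w) := by
  rcases h with ⟨rfl, rfl⟩ | rfl
  · rw [S.BB_free (free_of_head hh), zero_mul, zero_mul, add_zero, add_zero]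
    exact ⟨rfl, rfl⟩
  · exact ⟨S.PAU3_II hw t r, S.PAU3_BB w t r⟩

theorem PAU3_nfree {w : P} {a : Ad P} (h : ¬ Free w a) : ∃ t r, a = sw w t r := by
  by_contra k
  exact h fun t r e => k ⟨t, r, e⟩

theorem loc_sw {w : P} {t : ℤ} {r : Ad P} (h : S.Val (sw w t r)) :
    S.loc (sw w t r) = S.cut w (S.II w (sw w t r))
      (S.MM w (S.II w (sw w t r)) (S.BB w (sw w t r))) := by
  rw [S.PAU3_II h.1, S.PAU3_BB]
  rfl

theorem BB_sw_ne {w : P} {t : ℤ} {r : Ad P} (h : S.Val (sw w t r)) (l : ℤ) :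
    S.BB w (sw w t r) ≠ S.beta w (S.II w (sw w t r)) l := by
  intro e
  rw [S.PAU3_II h.1, S.PAU3_BB] at e
  exact absurd (Int.le_of_dvd h.2.1 (S.beta_spec.2.2 w _ _ _ t h.1 e)) (not_le.2 h.2.2.1)

theorem II_BB_R {w : P} (hw : S.real w) (s : ℤ) {a : Ad P} (ha : S.Val a) (h : a ≠ pt w) :
    S.II w (S.R w s a) = S.II w a + s * S.n' w ∧
      S.BB w (S.R w s a) = S.BB w a + s * (S.d w * S.D w) := by
  obtain ⟨t, q, m, r, -, hr, hh, -, hc, hs, hc'⟩ := S.R_form hw s ha h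
  obtain ⟨g1, g2, -, g3⟩ := S.γ_zpow hw q
  have hne : S.loc r ≠ w := S.loc_ne hw hr fun e => hh (by rw [e]; rfl)
  have hh' : (S.γ w ^ q • r).head ≠ w := by
    rw [head_smul]
    intro e
    exact hh (MulAction.injective _ (e.trans g1.symm))
  obtain ⟨a1, a2⟩ := S.PAU3_form hw hh (hc.imp id fun k => k.2.2)
  obtain ⟨b1, b2⟩ := S.PAU3_form hw hh' (hc'.imp id fun k => k.2.2)
  have c1 := S.equiv (S.γ w ^ q) w _ hne
  have c2 := S.lev_smul hw hne (S.γ w ^ q)
  have c3 := S.beta_spec.2.1 (S.γ w ^ q) w (S.dir w (S.loc r)) (S.lev w (S.loc r)) hw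
  rw [g1] at c1 c2 c3
  rw [S.loc_smul _ hr, c1] at b1 b2
  rw [c2, c3] at b2
  rw [a1, a2, b1, b2, g2, g3, (S.arith hw).2.1]
  constructor
  · linear_combination (-S.n' w) * hs
  · linear_combination (-(S.d w * S.D w)) * hs

/-- Addresses in one block have the same projection unless the block is a base block. -/
theorem loc_eq_of_block {w : P} {t : ℤ} {r a : Ad P} (h : S.Val (sw w t r)) (ha : S.Val a)
    (hw : a ≠ pt w) (h1 : S.II w a = S.II w (sw w t r)) (h2 : S.BB w a = S.BB w (sw w t r)) :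
    S.loc a = S.loc (sw w t r) := by
  have _ := hw
  by_cases hf : Free w a
  · rw [S.BB_free hf, h1] at h2
    exact absurd h2.symm (S.BB_sw_ne h _)
  · obtain ⟨t', r', rfl⟩ := PAU3_nfree hf
    rw [S.loc_sw ha, S.loc_sw h, h1, h2]

theorem wb_loc {w : P} (hw : S.real w) {a : Ad P} (ha : S.Val a) (h : a ≠ pt w) (i l : ℤ) :
    Wb S.dir w (S.cut w i l) (S.loc a) ↔ i = S.II w a ∧ S.beta w i (l - 1) < S.BB w a := by
  by_cases hf : Free w a
  · rw [S.lev_spec hw (S.loc_ne hw ha h), S.BB_free hf]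
    refine and_congr_right fun e => ?_
    rw [show S.II w a = i from e.symm, (S.beta_spec.1 w i hw).lt_iff_lt]
    omega
  · obtain ⟨t, r, rfl⟩ := PAU3_nfree hf
    rw [S.loc_sw ha, S.wb_cut_cut hw]
    refine and_congr_right fun e => ?_
    have h1 := S.MM_spec hw (S.II w (sw w t r)) (S.BB w (sw w t r)) (l - 1)
    have h2 := S.BB_sw_ne ha (l - 1)
    rw [e]
    omega

theorem btw_loc {w : P} (hw : S.real w) {a : Ad P} (ha : S.Val a) (h : a ≠ pt w) (i l : ℤ)
    (hf : Free w a → S.loc a ≠ S.cut w i l) :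
    Btw S.dir w (S.cut w i l) (S.loc a) ↔ i = S.II w a ∧ S.beta w i l ≤ S.BB w a := by
  by_cases hf' : Free w a
  · have e0 : Btw S.dir w (S.cut w i l) (S.loc a) ↔ Wb S.dir w (S.cut w i l) (S.loc a) :=
      ⟨Btw.wb, fun k => k.btw (S.cut_ne hw i l).symm (hf hf')⟩
    rw [e0, S.lev_spec hw (S.loc_ne hw ha h), S.BB_free hf']
    refine and_congr_right fun e => ?_
    rw [show S.II w a = i from e.symm, (S.beta_spec.1 w i hw).le_iff_le]
  · obtain ⟨t, r, rfl⟩ := PAU3_nfree hf'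
    rw [S.loc_sw ha, S.btw_cut_cut hw]
    refine and_congr_right fun e => ?_
    have h1 := S.MM_spec hw (S.II w (sw w t r)) (S.BB w (sw w t r)) l
    rw [e]
    omega

theorem free_loc_ne {w : P} (hw : S.real w) {a : Ad P} (ha : S.Val a) (hr : S.real a.last)
    (hf : Free w a) (i l : ℤ) : S.loc a ≠ S.cut w i l := by
  cases a with
  | pt p =>
    intro e
    exact S.cut_nreal w i l hw (e ▸ hr)
  | sw w' t r =>
    intro e
    exact hf t r (by rw [S.cut_inj w' _ _ w i l ha.1 hw e])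

/-- For a free address only the projection matters. -/
theorem loc_R_free {w : P} {t : ℤ} (hw : S.real w) (h0 : 0 < t) (h1 : t < S.d w) {a : Ad P}
    (ha : S.Val a) (hf : Free w a) : S.loc (S.R w (-t) a) = S.loc (S.R w (-t) (pt (S.loc a))) := by
  by_cases h : a = pt w
  · rw [h]
    rfl
  have hne : pt (S.loc a) ≠ pt w := fun e => S.loc_ne hw ha h (Ad.pt.inj e)
  have hv : S.Val (pt (S.loc a)) := trivial
  have key : ∀ b, S.Val b → b ≠ pt w → S.R w (-t) b ≠ pt w := fun b hb hb' e =>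
    hb' (S.R_inj hw (-t) hb (b := pt w) trivial (e.trans (S.R_pt w _).symm))
  obtain ⟨a1, a2⟩ := S.II_BB_R hw (-t) ha h
  obtain ⟨b1, b2⟩ := S.II_BB_R hw (-t) hv hne
  have hf' : Free w (pt (S.loc a)) := fun _ _ e => nomatch e
  rcases S.head_R hw h0 h1 hv (fun r => hf' t r) with e | ⟨m, r, e⟩
  · exact absurd e (key _ hv hne)
  · have hv' := S.val_R hw (-t) hv
    rw [e] at hv' b1 b2 ⊢
    refine S.loc_eq_of_block hv' (S.val_R hw _ ha) (key a ha h) (a1.trans b1.symm) ?_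
    rw [a2, b2, S.BB_free hf, S.BB_free hf']
    rfl

end RZ

end Pool.Agent.Work.MP_3d425c_gt.Bor
end

-- merged part: Pool.Agent.Work.MP_3d425c_gt.ZU4
section
/-! Unfolding: equivariance of directions and the tree property. -/

namespace Pool.Agent.Work.MP_3d425c_gt.Bor
open Classical

namespace RZ
variable {Γ P : Type} [Group Γ] [MulAction Γ P] (S : RZ Γ P)
open Ad

theorem U4_ne {w : P} {t : ℤ} {r a : Ad P} (h : S.Val (sw w t r)) (ha : S.Val a)
    (hne : a ≠ sw w t r) : S.R w (-t) a ≠ r := fun e =>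
  hne (S.R_inj h.1 (-t) ha h (e.trans (S.R_neg_sw h).symm))

theorem U4_real {w : P} (hw : S.real w) (s : ℤ) {a : Ad P} (ha : S.Val a) (hr : S.real a.last) :
    S.real (S.R w s a).last := by
  obtain ⟨q, hq⟩ := S.last_R hw s ha
  rw [hq]
  exact S.real_smul _ _ hr

theorem U4_pt {w : P} (hw : S.real w) (s : ℤ) {a : Ad P} (ha : S.Val a) (h : a ≠ pt w) :
    S.R w s a ≠ pt w := fun e =>
  h (S.R_inj hw s ha (b := pt w) trivial (e.trans (S.R_pt w s).symm))

theorem dirA_smul (g : Γ) {a b : Ad P} (hb : S.Val b) (hr : S.real b.last) (ha : S.Val a)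
    (h : a ≠ b) : S.dirA (g • b) (g • a) = S.dirA b a + S.c g b.last := by
  induction b generalizing a with
  | pt p =>
    rw [smul_pt, dirA, dirA, S.loc_smul g ha]
    exact S.equiv g _ _ (S.loc_ne hr ha h)
  | sw w t r ih =>
    rw [smul_sw, dirA, dirA, ← S.R_smul hb.1, (S.inv_smul hb.1 g).2.2.2.1,
      ih hb.2.2.2.2 hr (S.val_R hb.1 _ ha) (S.U4_ne hb ha h), last]
    ring

theorem off_smul (g : Γ) {a : Ad P} (ha : S.Val a) : S.off (g • a) = S.off a := by
  induction a with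
  | pt p => rfl
  | sw w t r ih => rw [smul_sw, off, off, ih ha.2.2.2.2, (S.inv_smul ha.1 g).2.2.2.1]

theorem piA_smul (g : Γ) {a : Ad P} (ha : S.Val a) (hr : S.real a.last) (i : ℤ) :
    S.piA (g • a) (i + S.c g a.last) = S.piA a i := by
  rw [piA, piA, last_smul, S.off_smul g ha, ← S.pi0_smul hr g, add_sub_right_comm]

theorem dirA_R' {w : P} (hw : S.real w) (s : ℤ) {b : Ad P} (hb : S.Val b) (hr : S.real b.last) :
    ∃ k, Even (s * S.n' w - k) ∧ (∀ a, S.Val a → a ≠ b →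
      S.dirA (S.R w s b) (S.R w s a) = S.dirA b a + k) ∧
      ∀ i, S.piA (S.R w s b) (i + k) = S.piA b i := by
  by_cases hbw : b = pt w
  · subst hbw
    refine ⟨s * S.n' w, by simp, fun a ha h => ?_, fun i => ?_⟩
    · rw [S.R_pt]
      exact (S.II_BB_R hw s ha h).1
    · rw [S.R_pt, piA, piA, off, sub_zero, sub_zero]
      exact S.pi0_add hw i s
  obtain ⟨t, q, m, r, -, hv, hh, hl, h1, h2, h3⟩ := S.R_form hw s hb hbw
  refine ⟨S.c (S.γ w ^ q) r.last + (m - t) * S.n' w, ?_, fun a ha h => ?_, fun i => ?_⟩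
  rotate_right
  · have f1 : S.piA b i = S.piA r (i - t * S.n' w) := by
      rcases h1 with ⟨rfl, rfl⟩ | ⟨-, -, rfl⟩
      · rw [zero_mul, sub_zero]
      · rw [piA, piA, off, last, sub_sub, add_comm]
    have f2 : ∀ i, S.piA (S.R w s b) i = S.piA (S.γ w ^ q • r) (i - m * S.n' w) := fun i => by
      rcases h3 with ⟨rfl, e⟩ | ⟨-, -, e⟩
      · rw [zero_mul, sub_zero, e]
      · rw [e, piA, piA, off, last, sub_sub, add_comm]
    rw [f1, f2, ← S.piA_smul (S.γ w ^ q) hv (hl ▸ hr)]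
    congr 1
    ring
  · have e1 := S.epar (S.γ w ^ q) r.last
    rw [(S.γ_zpow hw q).2.2.1, (S.arith hw).2.2.1] at e1
    have e2 : s * S.n' w - (S.c (S.γ w ^ q) r.last + (m - t) * S.n' w) =
        q * (S.d w * (S.n' w - 2 * S.j' w)) - S.c (S.γ w ^ q) r.last +
          2 * (q * S.d w * S.j' w) := by
      linear_combination S.n' w * h2
    rw [e2]
    exact e1.add (even_two_mul _)
  have f1 : S.dirA b a = S.dirA r (S.R w (-t) a) + t * S.n' w ∧ S.R w (-t) a ≠ r := by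
    rcases h1 with ⟨rfl, rfl⟩ | ⟨-, -, rfl⟩
    · rw [neg_zero, S.R_zero hw ha, zero_mul, add_zero]
      exact ⟨rfl, h⟩
    · exact ⟨rfl, S.U4_ne hb ha h⟩
  have f2 : S.dirA (S.R w s b) (S.R w s a) =
      S.dirA (S.γ w ^ q • r) (S.R w (-m) (S.R w s a)) + m * S.n' w := by
    rcases h3 with ⟨rfl, e⟩ | ⟨-, -, e⟩
    · rw [neg_zero, S.R_zero hw (S.val_R hw s ha), zero_mul, add_zero, e]
    · rw [e]
      rfl
  have f3 : S.R w (-m) (S.R w s a) = S.γ w ^ q • S.R w (-t) a := by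
    rw [S.R_add hw _ _ ha, ← S.R_gamma hw q (S.val_R hw _ ha), S.R_add hw _ _ ha]
    congr 1
    omega
  rw [f2, f3, S.dirA_smul _ hv (hl ▸ hr) (S.val_R hw _ ha) f1.2, f1.1]
  ring

theorem dirA_R {w : P} (hw : S.real w) (s : ℤ) {b : Ad P} (hb : S.Val b) (hr : S.real b.last) :
    ∃ k, Even (s * S.n' w - k) ∧ ∀ a, S.Val a → a ≠ b →
      S.dirA (S.R w s b) (S.R w s a) = S.dirA b a + k :=
  let ⟨k, h1, h2, _⟩ := S.dirA_R' hw s hb hr
  ⟨k, h1, h2⟩

theorem off_path {a b : Ad P} (hb : S.Val b) (ha : S.Val a)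
    (h : ∀ w t r, b = sw w t r → Free w a) : S.dirA b a = S.dirA b (pt (S.loc a)) := by
  induction b generalizing a with
  | pt p => rfl
  | sw w t r ih =>
    have hf := h w t r rfl
    have key : ∀ z, S.Val z → (∀ r', z ≠ sw w t r') →
        S.dirA r (S.R w (-t) z) = S.dirA r (pt (S.loc (S.R w (-t) z))) := fun z hz hz' => by
      refine ih hb.2.2.2.2 (S.val_R hb.1 _ hz) ?_
      rintro w' t' r' rfl
      refine free_of_head ?_
      rcases S.head_R hb.1 hb.2.1 hb.2.2.1 hz hz' with e | ⟨m, r₁, e⟩ <;> rw [e] <;>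
        exact hb.2.2.2.1.symm
    rw [dirA, dirA, key a ha (hf t), key (pt _) trivial (fun _ e => by cases e),
      S.loc_R_free hb.1 hb.2.1 hb.2.2.1 ha hf]

theorem U4_below {w : P} (hw : S.real w) {z : Ad P} (hz : S.Val z) (hr : S.real z.last) {I l : ℤ}
    (h : z = pt w ∨ S.II w z ≠ I ∨ S.BB w z < S.beta w I l) :
    S.loc z = S.cut w I l ∨ S.dir (S.cut w I l) w = S.dir (S.cut w I l) (S.loc z) := by
  by_cases e : z = pt w
  · rw [e]
    exact Or.inr rfl
  by_contra hn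
  rw [not_or] at hn
  have h1 := (S.btw_loc hw hz e I l fun hf => S.free_loc_ne hw hz hr hf I l).1
    ⟨(S.cut_ne hw I l).symm, hn.1, hn.2⟩
  rcases h.resolve_left e with h | h
  exacts [h h1.1.symm, h.not_ge h1.2]

theorem U4_above {w : P} (hw : S.real w) {z : Ad P} (hz : S.Val z) {I l : ℤ} (h : z ≠ pt w)
    (h1 : S.II w z = I) (h2 : S.beta w I (l - 1) < S.BB w z) :
    S.loc z = S.cut w I l ∨ S.dir (S.cut w I l) w ≠ S.dir (S.cut w I l) (S.loc z) :=
  ((S.wb_loc hw hz h I l).2 ⟨h1.symm, h2⟩).resolve_left (S.cut_ne hw I l).symm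

theorem wb_of_dirA {v a b : Ad P} (hv : S.Val v) (hr : S.real v.last) (ha : S.Val a)
    (har : S.real a.last) (hb : S.Val b) (hbr : S.real b.last) (h1 : a ≠ v) (h2 : b ≠ v)
    (h : S.dirA v a ≠ S.dirA v b) : Wb S.dir (S.loc a) (S.loc v) (S.loc b) := by
  induction v generalizing a b with
  | pt p => exact Or.inr (Or.inr h)
  | sw w t r ih =>
    have hw := hv.1
    have hvr := hv.2.2.2.2
    have IH := ih hvr hr (S.val_R hw (-t) ha) (S.U4_real hw _ ha har) (S.val_R hw (-t) hb)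
      (S.U4_real hw _ hb hbr) (S.U4_ne hv ha h1) (S.U4_ne hv hb h2)
      fun e => h (by rw [dirA, dirA, e])
    have hrw : r ≠ pt w := fun e => hv.2.2.2.1 (e ▸ rfl)
    have hfr : Free w r := free_of_head hv.2.2.2.1
    have e1 := S.II_BB_R hw (-t) hv fun e => by cases e
    rw [S.R_neg_sw hv] at e1
    have e2 := S.BB_free hfr
    have e3 := S.loc_sw hv
    have e4 := S.MM_spec hw (S.II w (sw w t r)) (S.BB w (sw w t r))
    have e5 := S.BB_sw_ne hv
    have e6 := fun z => S.loc_eq_of_block (a := z) hv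
    generalize S.MM w (S.II w (sw w t r)) (S.BB w (sw w t r)) = M at e3 e4
    generalize S.II w (sw w t r) = I at e1 e3 e4 e5 e6
    generalize S.BB w (sw w t r) = B at e1 e4 e5 e6
    generalize S.lev w (S.loc r) = l at e2
    have b1 : B < S.beta w I M := (e4 M).2 le_rfl
    have b2 : S.beta w I (M - 1) < B :=
      lt_of_le_of_ne (not_lt.1 fun e => by have := (e4 _).1 e; omega) (e5 _).symm
    have k0 := ((S.btw_loc hw hvr hrw (S.II w r) l
      fun hf => S.free_loc_ne hw hvr hr hf _ _).2 ⟨rfl, e2.ge⟩).2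
    have k1 := (not_wb.1 fun e => ((S.wb_loc hw hvr hrw (S.II w r) (l + 1)).1 e).2.ne
      (by rw [add_sub_cancel_right, e2])).2
    have cls : ∀ z, S.Val z → S.real z.last → S.loc z = S.cut w I M ∨
        (S.dir (S.cut w I M) w = S.dir (S.cut w I M) (S.loc z) ∧
          S.loc (S.R w (-t) z) ≠ S.loc r ∧ S.dir (S.loc r) (S.loc (S.R w (-t) z)) =
            S.dir (S.loc r) (S.cut w (S.II w r) l)) ∨
        (S.dir (S.cut w I M) w ≠ S.dir (S.cut w I M) (S.loc z) ∧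
          S.loc (S.R w (-t) z) ≠ S.loc r ∧ S.dir (S.loc r) (S.loc (S.R w (-t) z)) =
            S.dir (S.loc r) (S.cut w (S.II w r) (l + 1))) := fun z hz hzr => by
      have hz' := S.val_R hw (-t) hz
      by_cases c1 : z = pt w ∨ S.II w z ≠ I ∨ S.BB w z < B
      · refine (S.U4_below hw hz hzr (c1.imp_right (Or.imp_right fun e => e.trans b1))).imp_right
          fun e => Or.inl ⟨e, S.t1.key k0.1 ?_⟩
        refine (S.U4_below hw hz' (S.U4_real hw _ hz hzr) ?_).imp_right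
          fun e' e'' => k0.2 (e'.trans e'')
        by_cases c2 : z = pt w
        · exact Or.inl (by rw [c2, S.R_pt])
        have e7 := S.II_BB_R hw (-t) hz c2
        rcases c1.resolve_left c2 with c | c
        · exact Or.inr (Or.inl (by omega))
        · exact Or.inr (Or.inr (by omega))
      simp only [not_or, not_not, not_lt] at c1
      obtain ⟨c1, c2, c3⟩ := c1
      rcases c3.eq_or_lt with c3 | c3
      · exact Or.inl ((e6 z hz c1 c2 c3.symm).trans e3)
      have e7 := S.II_BB_R hw (-t) hz c1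
      refine (S.U4_above hw hz c1 c2 (b2.trans c3)).imp_right
        fun e => Or.inr ⟨e, S.t1.key k1.1 ?_⟩
      refine (S.U4_above hw hz' (S.U4_pt hw _ hz c1) (by omega) ?_).imp_right
        fun e' => (k1.2 ▸ e').symm
      rw [add_sub_cancel_right]
      omega
    rw [e3]
    rcases cls a ha har with ca | ca | ca
    · exact Or.inl ca
    all_goals
      rcases cls b hb hbr with cb | cb | cb
      · exact Or.inr (Or.inl cb)
    · exact absurd IH (not_wb.2 ⟨ca.2.1, cb.2.1, ca.2.2.trans cb.2.2.symm⟩)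
    · exact Or.inr (Or.inr (ca.1 ▸ cb.1))
    · exact Or.inr (Or.inr (cb.1 ▸ ca.1).symm)
    · exact absurd IH (not_wb.2 ⟨ca.2.1, cb.2.1, ca.2.2.trans cb.2.2.symm⟩)

theorem U4_t1 {a v b : Ad P} (ha : S.Val a) (har : S.real a.last) (hv : S.Val v)
    (hr : S.real v.last) (hb : S.Val b) (hbr : S.real b.last) (h1 : a ≠ v) (h2 : b ≠ v)
    (h : S.dirA v a ≠ S.dirA v b) : S.dirA a b = S.dirA a v := by
  induction a generalizing v b with
  | pt x =>
    exact (S.wb_of_dirA hv hr ha har hb hbr h1 h2 h).dir_eq S.t1 (S.loc_ne har hv h1.symm).symm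
  | sw w t r ih =>
    obtain ⟨k, -, hk⟩ := S.dirA_R ha.1 (-t) hv hr
    have e := hk _ ha h1
    rw [S.R_neg_sw ha] at e
    rw [dirA, dirA, ih ha.2.2.2.2 har (S.val_R ha.1 _ hv) (S.U4_real ha.1 _ hv hr)
      (S.val_R ha.1 _ hb) (S.U4_real ha.1 _ hb hbr) (S.U4_ne ha hv h1.symm).symm
      (fun e => h2 (S.R_inj ha.1 _ hb hv e)) (by rw [e, hk _ hb h2]; omega)]

theorem t1' : T1 S.dir' := fun a v b h1 h2 h =>
  S.U4_t1 a.2.1 a.2.2 v.2.1 v.2.2 b.2.1 b.2.2 (fun e => h1 (Subtype.ext e))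
    (fun e => h2 (Subtype.ext e)) h

end RZ

end Pool.Agent.Work.MP_3d425c_gt.Bor
end

-- merged part: Pool.Agent.Work.MP_3d425c_gt.ZU5
section
/-! Unfolding: finiteness of big turns and parity. -/

namespace Pool.Agent.Work.MP_3d425c_gt.Bor
open Classical

namespace RZ
variable {Γ P : Type} [Group Γ] [MulAction Γ P] (S : RZ Γ P)
open Ad

/-- The point `w` and its cut points. -/
def Star (w x : P) : Prop := x = w ∨ ∃ i l, x = S.cut w i l

theorem PAU5_base {w p x y : P} (hw : S.real w) (hp : S.real p) (h : p ≠ w) (hx : S.Star w x)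
    (hy : S.Star w y) : |S.dir p y - S.dir p x| ≤ 1 := by
  have hc : ∀ i l, S.cut w i l ≠ p := fun i l e => S.cut_nreal w i l hw (e ▸ hp)
  have h1 : ∀ i l, |S.dir p (S.cut w i l) - S.dir p w| ≤ 1 := fun i l =>
    S.cut_small w i l hw p h.symm (hc i l)
  rcases hx with rfl | ⟨i, l, rfl⟩ <;> rcases hy with rfl | ⟨i', l', rfl⟩
  · simp
  · exact h1 _ _
  · rw [abs_sub_comm]; exact h1 _ _
  · by_cases e : i = i'
    · subst e
      rcases le_total l l' with k | k
      · exact (S.cut_small w i l' hw).sub S.t1 ((S.wb_cut_cut hw _ _ _ _).2 ⟨rfl, k⟩)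
          (wb_right _ _) p (hc _ _) (hc _ _)
      · exact (S.cut_small w i l hw).sub S.t1 (wb_right _ _)
          ((S.wb_cut_cut hw _ _ _ _).2 ⟨rfl, k⟩) p (hc _ _) (hc _ _)
    · have hb : Btw S.dir (S.cut w i l) w (S.cut w i' l') :=
        ⟨S.cut_ne hw _ _, S.cut_ne hw _ _, by rwa [S.dir_cut _ _ _ hw, S.dir_cut _ _ _ hw]⟩
      rcases S.t1.split hb h with k | k <;> rw [k.2]
      · exact h1 _ _
      · rw [abs_sub_comm]; exact h1 _ _

theorem PAU5_star {w : P} {t : ℤ} {r a : Ad P} (hu : S.Val (sw w t r)) (ha : S.Val a)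
    (h : ∀ r', a ≠ sw w t r') : S.Star w (S.loc (S.R w (-t) a)) := by
  rcases S.head_R hu.1 hu.2.1 hu.2.2.1 ha h with e | ⟨m, r', e⟩ <;> rw [e]
  · exact Or.inl rfl
  · exact Or.inr ⟨_, _, rfl⟩

theorem PAU5_key {w : P} {t : ℤ} {r a : Ad P} (hu : S.Val (sw w t r)) (ha : S.Val a)
    (h : ∀ r', a ≠ sw w t r') :
    S.dirA (sw w t r) a = S.dirA r (pt (S.loc (S.R w (-t) a))) + t * S.n' w := by
  rw [dirA, S.off_path hu.2.2.2.2 (S.val_R hu.1 _ ha)]
  rintro w' t' r' rfl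
  refine free_of_head fun e => hu.2.2.2.1 ?_
  rcases S.head_R hu.1 hu.2.1 hu.2.2.1 ha h with e' | ⟨m, r'', e'⟩ <;> rw [e'] at e <;>
    exact e.symm

theorem PAU5_self {w : P} {t : ℤ} {r r' : Ad P} (h : S.Val (sw w t r')) :
    S.dirA (sw w t r) (sw w t r') = S.dirA r r' + t * S.n' w := by
  rw [dirA, S.R_neg_sw h]

theorem small_star {u : Ad P} (hu : S.Val u) (hr : S.real u.last) {w x y : P} (hw : S.real w)
    (h : u.head ≠ w) (hx : S.Star w x) (hy : S.Star w y) :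
    |S.dirA u (pt y) - S.dirA u (pt x)| ≤ 1 := by
  induction u generalizing w x y with
  | pt p => exact S.PAU5_base hw hr h hx hy
  | sw w' t r ih =>
    rw [S.PAU5_key hu (a := pt y) trivial nofun, S.PAU5_key hu (a := pt x) trivial nofun,
      add_sub_add_right_eq_sub]
    exact ih hu.2.2.2.2 hr hu.1 hu.2.2.2.1 (S.PAU5_star hu trivial nofun)
      (S.PAU5_star hu trivial nofun)

theorem small_sw {w : P} {t : ℤ} {r : Ad P} (hu : S.Val (sw w t r)) (hr : S.real r.last)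
    {a b : Ad P} (ha : S.Val a) (hb : S.Val b) (h1 : ∀ r', a ≠ sw w t r')
    (h2 : ∀ r', b ≠ sw w t r') : |S.dirA (sw w t r) b - S.dirA (sw w t r) a| ≤ 1 := by
  rw [S.PAU5_key hu ha h1, S.PAU5_key hu hb h2, add_sub_add_right_eq_sub]
  exact S.small_star hu.2.2.2.2 hr hu.1 hu.2.2.2.1 (S.PAU5_star hu ha h1) (S.PAU5_star hu hb h2)

theorem PAU5_real_R {w : P} (hw : S.real w) (s : ℤ) {a : Ad P} (ha : S.Val a)
    (hr : S.real a.last) : S.real (S.R w s a).last := by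
  obtain ⟨q, e⟩ := S.last_R hw s ha
  rw [e]
  exact S.real_smul _ _ hr

theorem PAU5_ne {w z : P} (hw : S.real w) (hz : S.Star w z) {u : Ad P} (hr : S.real u.last)
    (h : u.head ≠ w) : pt z ≠ u := by
  rintro rfl
  rcases hz with rfl | ⟨i, l, rfl⟩
  · exact h rfl
  · exact S.cut_nreal w i l hw hr

/-- The vertices with a big turn. -/
def PAU5_big (a b : Ad P) : Set (Ad P) :=
  {u | S.Val u ∧ S.real u.last ∧ a ≠ u ∧ b ≠ u ∧ ¬ |S.dirA u b - S.dirA u a| ≤ 1}

theorem PAU5_fin0 (x y : P) : (S.PAU5_big (pt x) (pt y)).Finite := by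
  refine ((S.fin x y).image pt).subset ?_
  rintro (p | ⟨w, t, r⟩) ⟨h1, h2, h3, h4, h5⟩
  · exact ⟨p, ⟨fun e => h3 (e ▸ rfl), fun e => h4 (e ▸ rfl), h5⟩, rfl⟩
  · exact (h5 (S.small_sw h1 h2 trivial trivial nofun nofun)).elim

theorem PAU5_fin1 {b : Ad P} (hb : S.Val b) (x : P) : (S.PAU5_big (pt x) b).Finite := by
  induction b generalizing x with
  | pt y => exact S.PAU5_fin0 x y
  | sw w t r ih =>
    refine (((ih hb.2.2.2.2 (S.loc (S.R w (-t) (pt x)))).image (sw w t)).union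
      (S.PAU5_fin0 x (S.loc (sw w t r)))).subset ?_
    rintro u ⟨h1, h2, h3, h4, h5⟩
    by_cases hf : Free w u
    · refine Or.inr ⟨h1, h2, h3, ?_, ?_⟩
      · rintro rfl
        exact S.cut_nreal _ _ _ hb.1 h2
      · rwa [← S.off_path h1 hb]
        rintro w' t' r' rfl
        exact free_of_head fun e => hf t' r' (congrArg (sw · t' r') e.symm)
    · simp only [Free, not_forall, not_not] at hf
      obtain ⟨t', u', rfl⟩ := hf
      by_cases e : t' = t
      · subst e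
        rw [S.PAU5_self hb, S.PAU5_key h1 (a := pt x) trivial nofun, add_sub_add_right_eq_sub] at h5
        exact Or.inl ⟨u', ⟨h1.2.2.2.2, h2, S.PAU5_ne h1.1
          (S.PAU5_star h1 (a := pt x) trivial nofun) h2 h1.2.2.2.1, fun e => h4 (e ▸ rfl), h5⟩, rfl⟩
      · exact (h5 (S.small_sw h1 h2 trivial hb nofun fun r' e' => e (by cases e'; rfl))).elim

theorem PAU5_fin2 {a b : Ad P} (ha : S.Val a) (hb : S.Val b) : (S.PAU5_big a b).Finite := by
  induction a generalizing b with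
  | pt x => exact S.PAU5_fin1 hb x
  | sw w t r ih =>
    refine Set.Finite.of_finite_image (f := S.R w (-t))
      ((ih ha.2.2.2.2 (S.val_R ha.1 (-t) hb)).subset ?_)
      fun u hu u' hu' e => S.R_inj ha.1 _ hu.1 hu'.1 e
    rintro _ ⟨u, ⟨h1, h2, h3, h4, h5⟩, rfl⟩
    obtain ⟨k, -, hk⟩ := S.dirA_R ha.1 (-t) h1 h2
    have e := hk _ ha h3
    rw [S.R_neg_sw ha] at e
    refine ⟨S.val_R ha.1 _ h1, S.PAU5_real_R ha.1 _ h1 h2,
      fun e' => h3 (S.R_inj ha.1 _ ha h1 ((S.R_neg_sw ha).trans e')),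
      fun e' => h4 (S.R_inj ha.1 _ hb h1 e'), ?_⟩
    rwa [e, hk _ hb h4, add_sub_add_right_eq_sub]

theorem fin' : FinB S.dir' := by
  intro a b
  refine ((S.PAU5_fin2 a.2.1 b.2.1).preimage Subtype.val_injective.injOn).subset ?_
  rintro u ⟨h1, h2, h3⟩
  exact ⟨u.2.1, u.2.2, fun e => h1 (Subtype.ext e), fun e => h2 (Subtype.ext e), h3⟩

/-- All turns are small. -/
def PAU5_sm (a b : Ad P) : Prop :=
  ∀ u, S.Val u → S.real u.last → a ≠ u → b ≠ u → |S.dirA u b - S.dirA u a| ≤ 1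

theorem PAU5_small {x : P} {b : Ad P} (h : S.PAU5_sm (pt x) b) :
    Small S.dir x (S.loc b) := fun p h1 h2 => by
  by_cases hp : S.real p
  · exact h (pt p) trivial hp (fun e => h1 (by cases e; rfl)) fun e => h2 (by rw [e]; rfl)
  · exact S.nreal_small p _ _ hp h1 h2

theorem PAU5_cut {w p : P} (hw : S.real w) (i l : ℤ) (h : p ≠ S.cut w i l) :
    (Btw S.dir w (S.cut w i l) p ↔ (S.dir (S.cut w i l) p + i) % 2 = 0) := by
  have h0 := (S.cut_ne hw i l).symm
  have h1 := S.par _ _ h0 (S.cut_small w i l hw)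
  have h2 := S.nreal_small _ _ _ (S.cut_nreal w i l hw) h0 h
  rw [S.dir_cut _ _ _ hw, Int.odd_iff] at h1
  rw [abs_le] at h2
  refine ⟨fun k => ?_, fun k => ⟨h0, h, ?_⟩⟩
  · have := k.2.2
    omega
  · omega

theorem PAU5_btw {w : P} {t : ℤ} {r a : Ad P} (hb : S.Val (sw w t r)) (ha : S.Val a)
    (h : a.head ≠ w) (hne : S.loc a ≠ S.loc (sw w t r)) :
    ((S.dir (S.loc (sw w t r)) (S.loc a) + S.II w (sw w t r)) % 2 = 0 ↔
      S.II w (sw w t r) = S.II w a ∧ S.BB w (sw w t r) < S.BB w a) := by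
  rw [S.loc_sw hb] at hne ⊢
  rw [← S.PAU5_cut hb.1 _ _ hne, S.btw_loc hb.1 ha (fun e => h (e ▸ rfl)) _ _ fun _ => hne,
    S.BB_free (free_of_head h)]
  refine and_congr_right fun e => ?_
  rw [← e, S.MM_spec hb.1, (S.beta_spec.1 w _ hb.1).le_iff_le]

theorem PAU5_par1 {b : Ad P} (hb : S.Val b) (hr : S.real b.last) {x : P} (hx : x ≠ S.loc b)
    (h : S.PAU5_sm (pt x) b) : Odd (S.dir x (S.loc b) + S.dirA b (pt x)) := by
  induction b generalizing x with
  | pt y => exact S.par x y hx (S.PAU5_small h)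
  | sw w t r ih =>
    obtain ⟨hw, t0, t1, hh, hv⟩ := id hb
    have hst := S.PAU5_star hb (a := pt x) trivial nofun
    have hrw : r ≠ pt w := fun e => hh (e ▸ rfl)
    have hk : S.loc (S.R w (-t) (pt x)) ≠ S.loc r := by
      rcases hst with e | ⟨i, l, e⟩ <;> rw [e]
      · exact (S.loc_ne hw hv hrw).symm
      · exact (S.free_loc_ne hw hv hr (free_of_head hh) i l).symm
    have hR := S.II_BB_R hw (-t) hb nofun
    rw [S.R_neg_sw hb] at hR
    have hturn : x ≠ w → |S.II w (sw w t r) - S.II w (pt x)| ≤ 1 := fun e =>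
      h (pt w) trivial hw (fun e' => e (by cases e'; rfl)) nofun
    have h1 := ih hv hr hk fun u hu hur h1 h2 => by
      by_cases e : u.head = w
      · rcases u with p | ⟨w', t', u'⟩
        · obtain rfl : p = w := e
          have e1 : x ≠ p := fun e' => h1 (by rw [e', S.R_pt]; rfl)
          have e2 := (S.II_BB_R hw (-t) (a := pt x) trivial fun e' => e1 (by cases e'; rfl)).1
          have e3 := hturn e1
          change |S.II p r - S.II p (S.R p (-t) (pt x))| ≤ 1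
          rwa [hR.1, e2, add_sub_add_right_eq_sub]
        · obtain rfl : w' = w := e
          exact S.small_sw hu hur trivial hv nofun fun r' e' => hh (e' ▸ rfl)
      · have hu' : S.Val (sw w t u) := ⟨hw, t0, t1, e, hu⟩
        have e1 := h _ hu' hur nofun fun e' => h2 (by cases e'; rfl)
        rwa [S.PAU5_self hb, S.PAU5_key hu' (a := pt x) trivial nofun,
          add_sub_add_right_eq_sub] at e1
    rw [S.PAU5_key hb (a := pt x) trivial nofun]
    rw [Int.odd_iff] at h1 ⊢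
    by_cases e : x = w
    · subst e
      rw [S.R_pt] at h1 ⊢
      have e1 : S.dir x (S.loc r) = S.dir x (S.loc (sw x t r)) + -t * S.n' x := hR.1
      change (S.dir x (S.loc r) + _) % 2 = 1 at h1
      rw [neg_mul] at e1
      omega
    · have hxw : pt x ≠ pt w := fun e' => e (by cases e'; rfl)
      have hR' := S.II_BB_R hw (-t) (a := pt x) trivial hxw
      have hva := S.val_R hw (-t) (a := pt x) trivial
      obtain ⟨m, r', e'⟩ := (S.head_R hw t0 t1 (a := pt x) trivial nofun).resolve_left fun e' =>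
        hxw (S.R_inj hw (-t) trivial trivial (e'.trans (S.R_pt w _).symm))
      rw [e'] at hR' hva hk h1 ⊢
      have c1 := S.PAU5_btw hb (a := pt x) trivial e hx
      have c2 := S.PAU5_btw hva hv hh hk.symm
      have c3 := S.par _ _ hx (S.PAU5_small h)
      have c4 := hturn e
      have c5 : S.II w (sw w t r) = S.II w (pt x) → S.BB w (sw w t r) ≠ S.BB w (pt x) :=
        fun e₁ => by
          rw [S.BB_free (a := pt x) (free_of_head e), ← e₁]
          exact S.BB_sw_ne hb _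
      rw [Int.odd_iff] at c3
      rw [abs_le] at c4
      rw [hR.1, hR.2, hR'.1, hR'.2] at c2
      change (S.dir _ x + _) % 2 = 0 ↔ _ at c1
      simp only [neg_mul] at c2
      (clear * - c1 c2 c3 c4 c5 h1; lia)

theorem PAU5_par2 {a b : Ad P} (ha : S.Val a) (har : S.real a.last) (hb : S.Val b)
    (hbr : S.real b.last) (hab : a ≠ b) (h : S.PAU5_sm a b) :
    Odd (S.dirA a b + S.dirA b a) := by
  induction a generalizing b with
  | pt x => exact S.PAU5_par1 hb hbr (S.loc_ne har hb hab.symm).symm h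
  | sw w t r ih =>
    have hw := ha.1
    obtain ⟨k, hk, e⟩ := S.dirA_R hw (-t) hb hbr
    have e1 := e _ ha hab
    rw [S.R_neg_sw ha] at e1
    have h1 := ih ha.2.2.2.2 har (S.val_R hw (-t) hb) (S.PAU5_real_R hw _ hb hbr)
      (fun e' => hab (S.R_inj hw _ ha hb ((S.R_neg_sw ha).trans e'))) fun u hu hur h1 h2 => by
        have hu' := S.val_R hw t hu
        have e2 : S.R w (-t) (S.R w t u) = u := by
          rw [S.R_add hw _ _ hu, neg_add_cancel, S.R_zero hw hu]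
        have n1 : sw w t r ≠ S.R w t u := fun e' => h1 (by rw [← e2, ← e', S.R_neg_sw ha])
        have n2 : b ≠ S.R w t u := fun e' => h2 (by rw [e', e2])
        obtain ⟨k', -, e3⟩ := S.dirA_R hw (-t) hu' (S.PAU5_real_R hw t hu hur)
        have e4 := e3 _ ha n1
        have e5 := e3 _ hb n2
        rw [e2] at e4 e5
        rw [S.R_neg_sw ha] at e4
        rw [e4, e5, add_sub_add_right_eq_sub]
        exact h _ hu' (S.PAU5_real_R hw t hu hur) n1 n2
    rw [e1, Int.odd_iff] at h1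
    rw [Int.even_iff, neg_mul] at hk
    rw [dirA, Int.odd_iff]
    omega

theorem par' : Par S.dir' := by
  intro a b hab h
  exact S.PAU5_par2 a.2.1 a.2.2 b.2.1 b.2.2 (fun e => hab (Subtype.ext e)) fun u hu hr h1 h2 =>
    h ⟨u, hu, hr⟩ (fun e => h1 (congrArg Subtype.val e)) fun e => h2 (congrArg Subtype.val e)

end RZ

end Pool.Agent.Work.MP_3d425c_gt.Bor
end

-- merged part: Pool.Agent.Work.MP_3d425c_gt.ZU6
section
/-! Unfolding: the ordered quotient. -/

namespace Pool.Agent.Work.MP_3d425c_gt.Bor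
open Classical

namespace RZ
variable {Γ P : Type} [Group Γ] [MulAction Γ P] (S : RZ Γ P)
open Ad

/-- The action of the group on the vertices of the unfolded tree. -/
def u6Act (g : Γ) (a : S.VV) : S.VV :=
  ⟨g • a.1, S.val_smul g a.2.1, by rw [last_smul]; exact S.real_smul g _ a.2.2⟩

/-- The action as a homomorphism to permutations. -/
def u6Phi : Γ →* Equiv.Perm S.VV where
  toFun g :=
    { toFun := S.u6Act g
      invFun := S.u6Act g⁻¹
      left_inv := fun a => Subtype.ext (inv_smul_smul g a.1)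
      right_inv := fun a => Subtype.ext (smul_inv_smul g a.1) }
  map_one' := Equiv.ext fun a => Subtype.ext (one_smul Γ a.1)
  map_mul' g h := Equiv.ext fun a => Subtype.ext (mul_smul g h a.1)

theorem u6Phi_val (g : Γ) (a : S.VV) : (S.u6Phi g a).1 = g • a.1 := rfl

theorem u6_real_R {w : P} (hw : S.real w) (s : ℤ) {a : Ad P} (ha : S.Val a)
    (hr : S.real a.last) : S.real (S.R w s a).last := by
  obtain ⟨q, e⟩ := S.last_R hw s ha
  rw [e]
  exact S.real_smul _ _ hr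

/-- The roots of the filling elements acting on vertices. -/
noncomputable def u6RV {w : P} (hw : S.real w) (s : ℤ) (a : S.VV) : S.VV :=
  ⟨S.R w s a.1, S.val_R hw s a.2.1, S.u6_real_R hw s a.2.1 a.2.2⟩

/-- The roots of the filling elements as permutations. -/
noncomputable def u6RP (w : P) (s : ℤ) : Equiv.Perm S.VV :=
  if hw : S.real w then
    { toFun := S.u6RV hw s
      invFun := S.u6RV hw (-s)
      left_inv := fun a => Subtype.ext (by
        show S.R w (-s) (S.R w s a.1) = a.1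
        rw [S.R_add hw _ _ a.2.1, neg_add_cancel, S.R_zero hw a.2.1])
      right_inv := fun a => Subtype.ext (by
        show S.R w s (S.R w (-s) a.1) = a.1
        rw [S.R_add hw _ _ a.2.1, add_neg_cancel, S.R_zero hw a.2.1]) }
  else 1

theorem u6RP_val {w : P} (hw : S.real w) (s : ℤ) (a : S.VV) :
    (S.u6RP w s a).1 = S.R w s a.1 := by
  rw [u6RP, dif_pos hw]
  rfl

theorem u6RP_nreal {w : P} (hw : ¬ S.real w) (s : ℤ) : S.u6RP w s = 1 := dif_neg hw

theorem u6RP_add (w : P) (s s' : ℤ) : S.u6RP w (s + s') = S.u6RP w s * S.u6RP w s' := by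
  by_cases hw : S.real w
  · refine Equiv.ext fun a => Subtype.ext ?_
    rw [Equiv.Perm.mul_apply, S.u6RP_val hw, S.u6RP_val hw, S.u6RP_val hw, S.R_add hw _ _ a.2.1]
  · simp only [S.u6RP_nreal hw, mul_one]

theorem u6RP_zero (w : P) : S.u6RP w 0 = 1 := by
  have := S.u6RP_add w 0 0
  rwa [add_zero, left_eq_mul] at this

theorem u6RP_neg (w : P) (s : ℤ) : S.u6RP w (-s) = (S.u6RP w s)⁻¹ :=
  eq_inv_of_mul_eq_one_left (by rw [← u6RP_add, neg_add_cancel, u6RP_zero])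

theorem u6RP_zpow (w : P) (s : ℤ) : S.u6RP w 1 ^ s = S.u6RP w s := by
  induction s using Int.induction_on with
  | zero => rw [zpow_zero, u6RP_zero]
  | succ k ih => rw [zpow_add_one, ih, u6RP_add]
  | pred k ih => rw [zpow_sub_one, ih, sub_eq_add_neg, u6RP_add, S.u6RP_neg w 1]

theorem u6RP_gamma {w : P} (hw : S.real w) (q : ℤ) :
    S.u6RP w (S.d w * q) = S.u6Phi (S.γ w ^ q) :=
  Equiv.ext fun a => Subtype.ext (by rw [S.u6RP_val hw, S.R_gamma hw q a.2.1, u6Phi_val])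

theorem u6RP_smul (g : Γ) (w : P) (s : ℤ) :
    S.u6RP (g • w) s = S.u6Phi g * S.u6RP w s * (S.u6Phi g)⁻¹ := by
  by_cases hw : S.real w
  · rw [eq_mul_inv_iff_mul_eq]
    refine Equiv.ext fun a => Subtype.ext ?_
    rw [Equiv.Perm.mul_apply, Equiv.Perm.mul_apply, S.u6RP_val (S.real_smul g w hw), u6Phi_val,
      u6Phi_val, S.u6RP_val hw, S.R_smul hw]
  · rw [S.u6RP_nreal hw, S.u6RP_nreal fun h => hw ((S.real_smul_iff g w).1 h), mul_one,
      mul_inv_cancel]

/-- The rotation at an address. -/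
noncomputable def u6Rot : Ad P → Equiv.Perm S.VV
  | pt p => S.u6RP p 1
  | sw w t r => S.u6RP w t * u6Rot r * (S.u6RP w t)⁻¹

theorem u6Rot_smul (g : Γ) (a : Ad P) :
    S.u6Rot (g • a) = S.u6Phi g * S.u6Rot a * (S.u6Phi g)⁻¹ := by
  induction a with
  | pt p => exact S.u6RP_smul g p 1
  | sw w t r ih =>
    rw [smul_sw, u6Rot, u6Rot, ih, u6RP_smul]
    group

theorem u6Rot_R {w : P} (hw : S.real w) (s : ℤ) {a : Ad P} (ha : S.Val a) :
    S.u6Rot (S.R w s a) = S.u6RP w s * S.u6Rot a * (S.u6RP w s)⁻¹ := by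
  by_cases h : a = pt w
  · rw [h, R_pt, u6Rot, ← u6RP_add, add_comm, u6RP_add, mul_inv_cancel_right]
  obtain ⟨t, q, m, r, -, -, -, -, h1, h2, h3⟩ := S.R_form hw s ha h
  have e1 : S.u6Rot a = S.u6RP w t * S.u6Rot r * (S.u6RP w t)⁻¹ := by
    rcases h1 with ⟨h1, h1'⟩ | ⟨-, -, h1⟩
    · rw [h1, h1', u6RP_zero, one_mul, inv_one, mul_one]
    · rw [h1, u6Rot]
  have e2 : S.u6Rot (S.R w s a) =
      S.u6RP w m * S.u6Rot (S.γ w ^ q • r) * (S.u6RP w m)⁻¹ := by
    rcases h3 with ⟨h3, h3'⟩ | ⟨-, -, h3⟩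
    · rw [h3, h3', u6RP_zero, one_mul, inv_one, mul_one]
    · rw [h3, u6Rot]
  have e3 : S.u6RP w m * S.u6RP w (S.d w * q) = S.u6RP w s * S.u6RP w t := by
    rw [← u6RP_add, ← u6RP_add, h2, add_comm]
  rw [e2, e1, u6Rot_smul, ← S.u6RP_gamma hw]
  calc _ = (S.u6RP w m * S.u6RP w (S.d w * q)) * S.u6Rot r *
        (S.u6RP w m * S.u6RP w (S.d w * q))⁻¹ := by group
    _ = _ := by rw [e3]; group

/-- Automorphisms of the unfolded tree. -/
def U6Aut (σ : Equiv.Perm S.VV) (m : ℤ) : Prop :=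
  IsAutZ S.dir' (fun a => S.n' a.1.last) (fun a => S.j' a.1.last) (fun a => S.piA a.1)
    (fun a => S.u6Rot a.1) σ m

theorem u6Aut_phi (g : Γ) : S.U6Aut (S.u6Phi g) (S.e g) := by
  refine ⟨fun u => ⟨S.c g u.1.last, S.epar _ _, fun v hv => ?_,
    S.piA_smul g u.2.1 u.2.2⟩, fun u => ?_, fun u => ?_⟩
  · exact S.dirA_smul g u.2.1 u.2.2 v.2.1 fun e => hv (Subtype.ext e)
  · have := S.inv_smul u.2.2 g
    simp only [u6Phi_val, last_smul]
    exact ⟨this.2.2.2.1, this.2.2.2.2.1⟩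
  · exact S.u6Rot_smul g u.1

theorem u6Aut_RP {w : P} (hw : S.real w) (s : ℤ) :
    S.U6Aut (S.u6RP w s) (s * (S.n' w - 2 * S.j' w)) := by
  refine ⟨fun u => ?_, fun u => ?_, fun u => ?_⟩
  · obtain ⟨k, h1, h2, h3⟩ := S.dirA_R' hw s u.2.1 u.2.2
    refine ⟨k, ?_, fun v hv => ?_, fun i => ?_⟩
    · rw [show s * (S.n' w - 2 * S.j' w) - k = s * S.n' w - k - 2 * (s * S.j' w) by ring]
      exact h1.sub (even_two_mul _)
    · rw [dir', S.u6RP_val hw, S.u6RP_val hw]
      exact h2 _ v.2.1 fun e => hv (Subtype.ext e)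
    · simp only [S.u6RP_val hw]
      exact h3 i
  · obtain ⟨q, e⟩ := S.last_R hw s u.2.1
    have := S.inv_smul u.2.2 (S.γ w ^ q)
    simp only [S.u6RP_val hw, e]
    exact ⟨this.2.2.2.1, this.2.2.2.2.1⟩
  · simp only [S.u6RP_val hw]
    exact S.u6Rot_R hw s u.2.1

theorem u6Aut_rot {a : Ad P} (ha : S.Val a) (hr : S.real a.last) :
    S.U6Aut (S.u6Rot a) (S.n' a.last - 2 * S.j' a.last) := by
  induction a with
  | pt p =>
    have := S.u6Aut_RP hr 1
    rwa [one_mul] at this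
  | sw w t r ih =>
    have h1 := S.u6Aut_RP ha.1 t
    have := (IsAutZ.mul h1 (ih ha.2.2.2.2 hr)).mul (IsAutZ.inv h1)
    rwa [add_comm, neg_add_cancel_left] at this

theorem u6_inv_apply (σ : Equiv.Perm S.VV) (x : S.VV) : σ⁻¹ (σ x) = x := σ.symm_apply_apply x

theorem u6_apply_inv (σ : Equiv.Perm S.VV) (x : S.VV) : σ (σ⁻¹ x) = x := σ.apply_symm_apply x

theorem u6RP_sw {w : P} {t : ℤ} {r : Ad P} {x y : S.VV} (hx : x.1 = sw w t r) (hy : y.1 = r) :
    S.u6RP w t y = x := by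
  have ha : S.Val (sw w t r) := hx ▸ x.2.1
  exact Subtype.ext (by rw [S.u6RP_val ha.1, hx, hy, S.R_sw ha])

theorem u6Rot_fix (a : Ad P) (x : S.VV) (hx : x.1 = a) : S.u6Rot a x = x := by
  induction a generalizing x with
  | pt p =>
    have hr : S.real (pt p).last := hx ▸ x.2.2
    exact Subtype.ext (by rw [u6Rot, S.u6RP_val (w := p) hr, hx, R_pt])
  | sw w t r ih =>
    have ha : S.Val (sw w t r) := hx ▸ x.2.1
    have hr : S.real (sw w t r).last := hx ▸ x.2.2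
    obtain ⟨y, hy⟩ : ∃ y : S.VV, y.1 = r := ⟨⟨r, ha.2.2.2.2, hr⟩, rfl⟩
    rw [u6Rot, ← S.u6RP_sw hx hy, Equiv.Perm.mul_apply, Equiv.Perm.mul_apply, u6_inv_apply,
      ih y hy]

theorem u6Rot_dir {a : Ad P} (ha : S.Val a) (hr : S.real a.last) (v : S.VV) (hv : v.1 ≠ a) :
    S.dirA a (S.u6Rot a v).1 = S.dirA a v.1 + S.n' a.last := by
  induction a generalizing v with
  | pt p =>
    have := (S.II_BB_R hr 1 v.2.1 hv).1
    rw [one_mul] at this
    rw [u6Rot, S.u6RP_val (w := p) hr]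
    exact this
  | sw w t r ih =>
    obtain ⟨x, hx⟩ : ∃ x : S.VV, x.1 = sw w t r := ⟨⟨_, ha, hr⟩, rfl⟩
    have h1 := ih ha.2.2.2.2 hr ((S.u6RP w t)⁻¹ v) fun e => hv (by
      rw [← hx, ← S.u6RP_sw hx e, u6_apply_inv])
    rw [dirA, dirA, ← S.u6RP_val ha.1, ← S.u6RP_val ha.1, u6RP_neg, u6Rot, Equiv.Perm.mul_apply,
      Equiv.Perm.mul_apply, u6_inv_apply, h1, last]
    ring

theorem u6_small {x y : P} (hs : ∀ u, x ≠ u → y ≠ u → |S.dir u y - S.dir u x| ≤ 2) {u : Ad P}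
    (hu : S.Val u) (hr : S.real u.last)
    (h1 : pt x ≠ u) (h2 : pt y ≠ u) : |S.dirA u (pt y) - S.dirA u (pt x)| ≤ 2 := by
  cases u with
  | pt p => exact hs p (fun e => h1 (by rw [e])) fun e => h2 (by rw [e])
  | sw w t r =>
    exact (S.small_sw hu hr (a := pt x) (b := pt y) trivial trivial (fun _ e => by cases e)
      fun _ e => by cases e).trans one_le_two

theorem u6_last (N : Subgroup Γ) (hN : ∀ w, S.real w → S.γ w ∈ N) (p : P) {a : Ad P}
    (ha : S.Val a) (hr : S.real a.last) (x : S.VV) :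
    (∃ h ∈ N, h • p = (S.u6Rot a x).1.last) ↔ ∃ h ∈ N, h • p = x.1.last := by
  have key : ∀ w, S.real w → ∀ (s : ℤ) (x : S.VV),
      (∃ h ∈ N, h • p = (S.u6RP w s x).1.last) ↔ ∃ h ∈ N, h • p = x.1.last := by
    intro w hw s x
    obtain ⟨q, e⟩ := S.last_R hw s x.2.1
    rw [S.u6RP_val hw, e]
    constructor
    · rintro ⟨h, h1, h2⟩
      exact ⟨(S.γ w ^ q)⁻¹ * h, N.mul_mem (N.inv_mem (N.zpow_mem (hN w hw) q)) h1, by
        rw [mul_smul, h2, inv_smul_smul]⟩
    · rintro ⟨h, h1, h2⟩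
      exact ⟨S.γ w ^ q * h, N.mul_mem (N.zpow_mem (hN w hw) q) h1, by rw [mul_smul, h2]⟩
  induction a generalizing x with
  | pt w => exact key w hr 1 x
  | sw w t r ih =>
    rw [u6Rot, Equiv.Perm.mul_apply, Equiv.Perm.mul_apply, ← u6RP_neg]
    exact (key w ha.1 _ _).trans ((ih ha.2.2.2.2 hr _).trans (key w ha.1 _ _))

end RZ

theorem RZ.exists_order {Γ P : Type} [Group Γ] [MulAction Γ P] (S : RZ Γ P) :
    ∃ (Ω : Type) (_ : LinearOrder Ω) (ρ : Γ →* (Ω ≃o Ω)), (∀ w, S.real w → ρ (S.γ w) = 1) ∧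
      (∀ (g : Γ) (v : P), S.real v → g • v ≠ v →
        (∀ u, v ≠ u → g • v ≠ u → |S.dir u (g • v) - S.dir u v| ≤ 2) → ρ g ≠ 1) ∧
      ∀ (g : Γ) (w : P), S.real w → ρ g = 1 →
        ∃ h ∈ Subgroup.normalClosure (S.γ '' {w | S.real w}), h • w = g • w := by
  have : Nontrivial S.VV := by
    obtain ⟨v, v', hv, hv', hne⟩ := S.nt
    exact ⟨⟨Ad.pt v, trivial, hv⟩, ⟨Ad.pt v', trivial, hv'⟩,
      fun e => hne (Ad.pt.inj (congrArg Subtype.val e))⟩
  obtain ⟨Ω, _, ρ, h1, h2, h3⟩ := zq_main S.dir' (fun a => S.n' a.1.last) (fun a => S.j' a.1.last)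
    (fun a => S.piA a.1) (fun a => S.u6Rot a.1) S.t1' S.fin' S.par' (fun a => S.u6Aut_rot a.2.1 a.2.2)
    (fun a => S.u6Rot_fix a.1 a rfl)
    (fun a b h => S.u6Rot_dir a.2.1 a.2.2 b fun e => h (Subtype.ext e))
    (fun a => ⟨(S.arith a.2.2).2.2.2.1, (S.arith a.2.2).2.2.2.2.1⟩)
    (fun a => (S.arith a.2.2).2.2.2.2.2.1) (fun a i => S.pi0_bound a.2.2 _)
    (fun a i i' h h' => by
      have := S.pi0_sep a.2.2 h (by rwa [sub_sub_sub_cancel_right])
      rwa [sub_sub_sub_cancel_right] at this)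
    S.u6Phi S.e S.e_mul S.u6Aut_phi
  refine ⟨Ω, inferInstance, ρ,
    fun w hw => h1 _ ⟨Ad.pt w, trivial, hw⟩ (S.d w) ?_ (S.arith hw).2.2.1,
    fun g v hv hne hs => h2 g ⟨Ad.pt v, trivial, hv⟩
      (fun e => hne (Ad.pt.inj (congrArg Subtype.val e))) fun u a b c => ?_,
    fun g w hw hg => h3 (fun x => ∃ h ∈ Subgroup.normalClosure (S.γ '' {w | S.real w}),
      h • w = x.1.last) (fun a x => S.u6_last _ (fun w hw =>
        Subgroup.subset_normalClosure (Set.mem_image_of_mem _ hw)) w a.2.1 a.2.2 x) g ⟨Ad.pt w, trivial, hw⟩ hg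
      ⟨1, one_mem _, one_smul _ _⟩⟩
  swap
  · have k1 := S.u6_small hs u.2.1 u.2.2 (fun e => a (Subtype.ext e)) fun e => b (Subtype.ext e)
    have k2 := (S.arith u.2.2).2.2.2.2.2.1
    exact sub_eq_zero.1 (Int.eq_zero_of_abs_lt_dvd c
      (lt_of_le_of_lt k1 (lt_of_lt_of_le (by norm_num) k2)))
  · have := S.u6RP_gamma hw 1
    rw [mul_one, zpow_one] at this
    rw [← this]
    exact (S.u6RP_zpow w _).symm

end Pool.Agent.Work.MP_3d425c_gt.Bor
end

-- merged part: Pool.Agent.Work.MP_3d425c_gt.ZK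
section
/-! The kernel of the action on the ordered quotient. -/

namespace Pool.Agent.Work.MP_3d425c_gt.Bor
open Classical

namespace RZ
variable {Γ P : Type} [Group Γ] [MulAction Γ P] (S : RZ Γ P)

theorem fix_zpow {g : Γ} {w : P} (h : g • w = w) (k : ℤ) :
    g ^ k • w = w ∧ S.c (g ^ k) w = k * S.c g w ∧ S.deg (g ^ k) w = k * S.deg g w :=
  ⟨(MulAction.stabilizer Γ w).zpow_mem h k,
    PAU1_lin (fun q => S.c (g ^ q) w) _ (by simp only [zpow_zero, S.c_one])
      (fun q => by simp only [zpow_add_one, S.c_mul, h]) k,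
    PAU1_lin (fun q => S.deg (g ^ q) w) _ (by simp only [zpow_zero, S.deg_one])
      (fun q => by simp only [zpow_add_one, S.deg_mul, h]) k⟩

theorem small_smul (g : Γ) {a b : P} (h : Small S.dir a b) : Small S.dir (g • a) (g • b) := by
  intro u h1 h2
  obtain ⟨u, rfl⟩ := MulAction.surjective g u
  have h3 : a ≠ u := fun e => h1 (by rw [e])
  have h4 : b ≠ u := fun e => h2 (by rw [e])
  rw [S.equiv g u a h3, S.equiv g u b h4, add_sub_add_right_eq_sub]
  exact h u h3 h4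

theorem exists_real_small {w v : P} (hv : S.real v) (h : v ≠ w) :
    ∃ q, S.real q ∧ q ≠ w ∧ Small S.dir w q := by
  generalize hn : {u | w ≠ u ∧ v ≠ u ∧ ¬ |S.dir u v - S.dir u w| ≤ 1}.ncard = n
  induction n using Nat.strong_induction_on generalizing v with
  | _ n ih =>
    by_cases hs : Small S.dir w v
    · exact ⟨v, hv, h, hs⟩
    unfold Small at hs
    push Not at hs
    obtain ⟨u, hu1, hu2, hu3⟩ := hs
    have hb : Btw S.dir w u v := ⟨hu1, hu2, fun e => by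
      rw [e, sub_self, abs_zero] at hu3
      omega⟩
    have hr : S.real u := by
      by_contra hr
      exact absurd (S.nreal_small u w v hr hu1 hu2) (not_le.2 hu3)
    refine ih _ ?_ hr hu1.symm rfl
    rw [← hn]
    refine Set.ncard_lt_ncard ⟨fun x hx => ?_, fun hx => ?_⟩ (S.fin w v)
    · rcases S.t1.split hb hx.2.1.symm with k | k
      · exact absurd (by simp [k.2]) hx.2.2
      · exact ⟨hx.1, k.1, k.2 ▸ hx.2.2⟩
    · exact (hx (show u ∈ _ from ⟨hu1, hu2, not_le.2 hu3⟩)).2.1 rfl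

end RZ

theorem RZ.exists_order' {Γ P : Type} [Group Γ] [MulAction Γ P] (S : RZ Γ P)
    (free : ∀ (g : Γ) w, S.real w → g • w = w → S.c g w = 0 → S.deg g w = 0 → g = 1)
    (hyp : ∀ w, S.real w → ∃ g : Γ, g • w = w ∧ S.c g w = 0 ∧ S.deg g w ≠ 0) :
    ∃ (Ω : Type) (_ : LinearOrder Ω) (ρ : Γ →* (Ω ≃o Ω)), ρ ≠ 1 ∧
      ∀ g, ρ g = 1 ↔ g ∈ Subgroup.normalClosure (S.γ '' {w | S.real w}) := by
  obtain ⟨Ω, i, ρ, hγ, h2, h3⟩ := S.exists_order
  obtain ⟨w, v, hw, hv, hwv⟩ := S.nt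
  have hT : ∀ (T : Γ), T • w = w → S.c T w = 0 → S.deg T w ≠ 0 → ρ T ≠ 1 := by
    intro T hT hc hd
    obtain ⟨q, q1, q2, q3⟩ := S.exists_real_small hv hwv.symm
    have q4 := S.small_smul T q3
    rw [hT] at q4
    refine h2 T q q1 (fun e => hd ?_) fun u k1 k2 => ?_
    · have := S.lev_smul hw q2 T
      rw [hT, e] at this
      omega
    · by_cases e : w = u
      · subst e
        have := S.equiv T w q q2
        rw [hT, hc] at this
        rw [this]
        simp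
      · have a1 := abs_le.1 (q3 u e k1)
        have a2 := abs_le.1 (q4 u e k2)
        exact abs_le.2 ⟨by omega, by omega⟩
  have hle : Subgroup.normalClosure (S.γ '' {w | S.real w}) ≤ ρ.ker :=
    Subgroup.normalClosure_le_normal (by rintro _ ⟨w, hw, rfl⟩; exact hγ w hw)
  refine ⟨Ω, i, ρ, fun e => ?_, fun g => ⟨fun hg => ?_, fun hg => hle hg⟩⟩
  · obtain ⟨T, k1, k2, k3⟩ := hyp w hw
    exact hT T k1 k2 k3 (by rw [e]; rfl)
  obtain ⟨h, k3, k2⟩ := h3 g w hw hg
  have k4 : (h⁻¹ * g) • w = w := by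
    rw [mul_smul, inv_smul_eq_iff]
    exact k2.symm
  have k5 : ρ (h⁻¹ * g) = 1 := by rw [map_mul, map_inv, hg, hle k3, inv_one, one_mul]
  suffices k6 : h⁻¹ * g ∈ Subgroup.normalClosure (S.γ '' {w | S.real w}) by
    simpa using Subgroup.mul_mem _ k3 k6
  generalize h⁻¹ * g = s at k4 k5
  have hn : 0 < S.c (S.γ w) w := S.n_pos hw
  have hd : S.c (S.γ w) w * S.deg s w = S.c s w * S.deg (S.γ w) w := by
    by_contra hne
    obtain ⟨a1, a2, a3⟩ := S.fix_zpow k4 (S.c (S.γ w) w)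
    obtain ⟨b1, b2, b3⟩ := S.fix_zpow (S.γ_fix w hw) (-S.c s w)
    refine hT (s ^ S.c (S.γ w) w * S.γ w ^ (-S.c s w)) (by rw [mul_smul, b1, a1])
      (by rw [S.c_mul, b1, a2, b2]; ring) (by
        rw [S.deg_mul, b1, a3, b3]
        exact fun e => hne (by linarith)) ?_
    rw [map_mul, map_zpow, map_zpow, k5, hγ w hw, one_zpow, one_zpow, one_mul]
  obtain ⟨q, hq⟩ := S.prim w hw s _ _ k4 (mul_comm _ _) hd
  obtain ⟨b1, b2, b3⟩ := S.fix_zpow (S.γ_fix w hw) (-q)
  have k7 : s * S.γ w ^ (-q) = 1 := by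
    refine free _ w hw (by rw [mul_smul, b1, k4]) (by rw [S.c_mul, b1, b2, hq]; ring) ?_
    rw [S.deg_mul, b1, b3]
    rw [hq, mul_assoc] at hd
    have := mul_left_cancel₀ hn.ne' hd
    linarith
  rw [zpow_neg, mul_inv_eq_one] at k7
  rw [k7]
  exact Subgroup.zpow_mem _ (Subgroup.subset_normalClosure (Set.mem_image_of_mem _ hw)) q

end Pool.Agent.Work.MP_3d425c_gt.Bor
end

-- merged part: Pool.Agent.Work.MP_3d425c_gt.ZF1
section
/-! From prong trees to cut points: shifts and levels. -/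

namespace Pool.Agent.Work.MP_3d425c_gt.Bor
open Classical

/-- A prong tree, bundled. -/
structure PZ (Γ V X : Type) [Group Γ] [MulAction Γ V] [MulAction Γ X] where
  dir : V ⊕ X → V ⊕ X → ℤ
  own : X → V
  δ : V → Γ
  e : Γ → ℤ
  h : PT.ProngTree dir own δ e

namespace PZ
variable {Γ V X : Type} [Group Γ] [MulAction Γ V] [MulAction Γ X] (S : PZ Γ V X)

theorem t1 : T1 S.dir := fun a v b h1 h2 h3 => S.h.tree a v b ⟨h1, h2, h3⟩

theorem fin : FinB S.dir := fun a b => by simpa only [not_le] using S.h.finite a b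

theorem par : Par S.dir := S.h.parity

/-- The shift of the directions. -/
noncomputable def c (g : Γ) (u : V ⊕ X) : ℤ := (S.h.shift g u).choose

theorem epar (g : Γ) (u : V ⊕ X) : Even (S.e g - S.c g u) := (S.h.shift g u).choose_spec.1

theorem equiv (g : Γ) (u v : V ⊕ X) (h : v ≠ u) : S.dir (g • u) (g • v) = S.dir u v + S.c g u :=
  (S.h.shift g u).choose_spec.2 v h

include S in
theorem exists_ne' (u : V ⊕ X) : ∃ v, v ≠ u :=
  have := S.h.two
  have := Sum.inl_injective.nontrivial (α := V) (β := V ⊕ X)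
  exists_ne u

theorem c_mul (g h : Γ) (u : V ⊕ X) : S.c (g * h) u = S.c g (h • u) + S.c h u := by
  obtain ⟨v, hv⟩ := S.exists_ne' u
  have h1 := S.equiv (g * h) u v hv
  have h2 : h • v ≠ h • u := fun e => hv (MulAction.injective h e)
  rw [mul_smul, mul_smul, S.equiv g _ _ h2, S.equiv h u v hv] at h1
  omega

theorem c_one (u : V ⊕ X) : S.c 1 u = 0 := by
  have := S.c_mul 1 1 u
  rw [mul_one, one_smul] at this
  omega

theorem equiv_fix {g : Γ} {w : V} (hg : g • w = w) {v : V ⊕ X} (hv : v ≠ .inl w) :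
    S.dir (.inl w) (g • v) = S.dir (.inl w) v + S.c g (.inl w) := by
  have := S.equiv g (.inl w) v hv
  rwa [Sum.smul_inl, hg] at this

theorem c_fix {g h : Γ} {w : V} (hh : h • w = w) :
    S.c (g * h) (.inl w) = S.c g (.inl w) + S.c h (.inl w) := by
  rw [S.c_mul, Sum.smul_inl, hh]

theorem mem_δ (g : Γ) (w : V) :
    g ∈ Subgroup.zpowers (S.δ w) ↔ g • w = w ∧ S.c g (.inl w) = 0 := by
  rw [S.h.δ_gen]
  refine and_congr_right fun hg => ⟨fun k => ?_, fun k v hv => ?_⟩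
  · obtain ⟨v, hv⟩ := S.exists_ne' (.inl w)
    have := S.equiv_fix hg hv
    rw [k v hv] at this
    omega
  · rw [S.equiv_fix hg hv, k, add_zero]

theorem δ_zpow (w : V) (l : ℤ) : S.δ w ^ l • w = w ∧ S.c (S.δ w ^ l) (.inl w) = 0 :=
  (S.mem_δ _ w).1 ⟨l, rfl⟩

theorem δ_comm {g : Γ} {w : V} (hg : g • w = w) : Commute g (S.δ w) := by
  have := S.h.δ_conj g w
  rw [hg, eq_mul_inv_iff_mul_eq] at this
  exact this.symm

theorem c_zpow {g : Γ} {w : V} (hg : g • w = w) (k : ℤ) :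
    g ^ k • w = w ∧ S.c (g ^ k) (.inl w) = k * S.c g (.inl w) :=
  ⟨(MulAction.stabilizer Γ w).zpow_mem hg k,
    PAU1_lin (fun q => S.c (g ^ q) (.inl w)) _ (by simp only [zpow_zero, S.c_one])
      (fun q => by simp only [zpow_add_one, S.c_fix hg]) k⟩

theorem own_δ (x : X) (l : ℤ) : S.own (S.δ (S.own x) ^ l • x) = S.own x := by
  rw [S.h.own_smul, (S.δ_zpow _ l).1]

theorem btw_succ (x : X) (l : ℤ) : Btw S.dir (.inl (S.own x)) (.inr (S.δ (S.own x) ^ l • x))
    (.inr (S.δ (S.own x) ^ (l + 1) • x)) := by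
  have := S.h.push (S.δ (S.own x) ^ l • x)
  rwa [S.own_δ, ← mul_smul, ← zpow_one_add, add_comm] at this

theorem wb_le (x : X) {l l' : ℤ} (h : l ≤ l') : Wb S.dir (.inl (S.own x))
    (.inr (S.δ (S.own x) ^ l • x)) (.inr (S.δ (S.own x) ^ l' • x)) := by
  induction l', h using Int.leInduction with
  | base => exact wb_right _ _
  | succ k _ ih => exact ih.trans_left S.t1 (S.btw_succ x k).wb

theorem ne_of_lt (x : X) {l l' : ℤ} (h : l < l') :
    S.δ (S.own x) ^ l' • x ≠ S.δ (S.own x) ^ l • x := fun e => by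
  have h1 := S.wb_le x (show l + 1 ≤ l' from h)
  rw [e] at h1
  exact (S.btw_succ x l).2.1 (h1.antisymm S.t1 (S.btw_succ x l).wb)

theorem δ_inj (w : V) {l l' : ℤ} (h : S.δ w ^ l = S.δ w ^ l') : l = l' := by
  obtain ⟨x, rfl, -⟩ := S.h.onto w 0
  by_contra hn
  rcases lt_or_gt_of_ne hn with k | k
  · exact S.ne_of_lt x k (by rw [h])
  · exact S.ne_of_lt x k (by rw [h])

theorem exists_D (w : V) : ∃ D : Γ → ℤ,
    (∀ g h : Γ, g • w = w → h • w = w → D (g * h) = D g + D h) ∧ D (S.δ w) = 1 := by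
  let H : AddSubgroup ℤ :=
    { carrier := {a | ∃ g : Γ, g • w = w ∧ S.c g (.inl w) = a}
      add_mem' := by
        rintro _ _ ⟨g, h1, rfl⟩ ⟨g', h2, rfl⟩
        exact ⟨g * g', by rw [mul_smul, h2, h1], S.c_fix h2⟩
      zero_mem' := ⟨1, one_smul _ _, S.c_one _⟩
      neg_mem' := by
        rintro _ ⟨g, h1, rfl⟩
        simpa using (⟨_, S.c_zpow h1 (-1)⟩ : ∃ g' : Γ, g' • w = w ∧
          S.c g' (.inl w) = -1 * S.c g (.inl w)) }
  obtain ⟨a, ha⟩ := Int.subgroup_cyclic H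
  have h1 : ∀ x, x ∈ H ↔ a ∣ x := fun x => by
    rw [ha, AddSubgroup.mem_closure_singleton]
    exact ⟨fun ⟨k, hk⟩ => ⟨k, by rw [← hk, smul_eq_mul, mul_comm]⟩,
      fun ⟨k, hk⟩ => ⟨k, by rw [hk, smul_eq_mul, mul_comm]⟩⟩
  obtain ⟨s, s1, s2⟩ := (h1 a).2 dvd_rfl
  have h2 : ∀ g : Γ, ∃ k : ℤ, g • w = w → g = S.δ w ^ k * s ^ (S.c g (.inl w) / a) := fun g => by
    by_cases hg : g • w = w
    · obtain ⟨b1, b2⟩ := S.c_zpow s1 (-(S.c g (.inl w) / a))
      obtain ⟨k, hk⟩ := (S.mem_δ (g * s ^ (-(S.c g (.inl w) / a))) w).2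
        ⟨by rw [mul_smul, b1, hg], by
          rw [S.c_fix b1, b2, s2, neg_mul, Int.ediv_mul_cancel ((h1 _).1 ⟨g, hg, rfl⟩),
            add_neg_cancel]⟩
      refine ⟨k, fun _ => ?_⟩
      simp only at hk
      rw [hk]
      group
    · exact ⟨0, fun h => absurd h hg⟩
  choose D hD using h2
  refine ⟨D, fun g h hg hh => S.δ_inj w ?_, S.δ_inj w ?_⟩
  · have e1 := hD (g * h) (by rw [mul_smul, hh, hg])
    rw [S.c_fix hh, Int.add_ediv_of_dvd_left ((h1 _).1 ⟨g, hg, rfl⟩), zpow_add] at e1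
    have e2 := hD g hg
    have e3 := hD h hh
    generalize S.c g (.inl w) / a = b at e1 e2
    generalize S.c h (.inl w) / a = b' at e1 e3
    have e4 := ((S.δ_comm s1).zpow_zpow b (D h)).eq
    refine mul_right_cancel (b := s ^ b * s ^ b') ?_
    rw [← e1, zpow_add, mul_assoc, ← mul_assoc (S.δ w ^ D h), ← e4, mul_assoc, ← e3, ← mul_assoc,
      ← e2]
  · have e1 := hD (S.δ w) (by simpa using (S.δ_zpow w 1).1)
    have e2 : S.c (S.δ w) (.inl w) = 0 := by simpa using (S.δ_zpow w 1).2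
    rw [e2, Int.zero_ediv, zpow_zero, mul_one] at e1
    rw [← e1, zpow_one]

theorem exists_deg : ∃ deg : Γ → V → ℤ,
    (∀ (g h : Γ) w, deg (g * h) w = deg g (h • w) + deg h w) ∧ ∀ w, deg (S.δ w) w = 1 := by
  choose D hD1 hD2 using S.exists_D
  let rep : V → V := fun w => (Quotient.mk (MulAction.orbitRel Γ V) w).out
  have h1 : ∀ w, ∃ t : Γ, t • rep w = w := fun w =>
    (Quotient.mk_out (s := MulAction.orbitRel Γ V) w : rep w ∈ MulAction.orbit Γ w).imp' (·⁻¹)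
      fun g hg => inv_smul_eq_iff.2 hg.symm
  have h2 : ∀ (g : Γ) w, rep (g • w) = rep w := fun g w =>
    congrArg Quotient.out (Quotient.sound (⟨g, rfl⟩ : g • w ∈ MulAction.orbit Γ w))
  choose t ht using h1
  have h3 : ∀ (g : Γ) w, ((t (g • w))⁻¹ * g * t w) • rep w = rep w := fun g w => by
    rw [mul_smul, mul_smul, ht, inv_smul_eq_iff, ← h2 g w, ht]
  refine ⟨fun g w => D (rep w) ((t (g • w))⁻¹ * g * t w), fun g h w => ?_, fun w => ?_⟩
  · have e := h3 g (h • w)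
    simp only [h2] at e ⊢
    rw [← hD1 _ _ _ e (h3 h w), mul_smul]
    congr 1
    group
  · have e : S.δ w • w = w := by simpa using (S.δ_zpow w 1).1
    have e' := S.h.δ_conj (t w) (rep w)
    rw [ht] at e'
    simp only [e]
    rw [e', ← hD2 (rep w)]
    congr 1
    group

/-- The level cocycle. -/
noncomputable def deg : Γ → V → ℤ := S.exists_deg.choose

theorem deg_mul (g h : Γ) (w : V) : S.deg (g * h) w = S.deg g (h • w) + S.deg h w :=
  S.exists_deg.choose_spec.1 g h w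

theorem deg_δ (w : V) : S.deg (S.δ w) w = 1 := S.exists_deg.choose_spec.2 w

theorem deg_one (w : V) : S.deg 1 w = 0 := by
  have := S.deg_mul 1 1 w
  rw [mul_one, one_smul] at this
  omega

theorem deg_zpow {g : Γ} {w : V} (hg : g • w = w) (k : ℤ) : S.deg (g ^ k) w = k * S.deg g w :=
  PAU1_lin (fun q => S.deg (g ^ q) w) _ (by simp only [zpow_zero, S.deg_one])
    (fun q => by simp only [zpow_add_one, S.deg_mul, hg]) k

theorem free {g : Γ} {w : V} (h1 : g • w = w) (h2 : S.c g (.inl w) = 0) (h3 : S.deg g w = 0) :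
    g = 1 := by
  obtain ⟨k, rfl⟩ := (S.mem_δ g w).2 ⟨h1, h2⟩
  simp only at h3 ⊢
  rw [S.deg_zpow (by simpa using (S.δ_zpow w 1).1), S.deg_δ, mul_one] at h3
  rw [h3, zpow_zero]

end PZ

end Pool.Agent.Work.MP_3d425c_gt.Bor
end

-- merged part: Pool.Agent.Work.MP_3d425c_gt.ZF2
section
/-! From prong trees to cut points: the ordered quotient. -/

namespace Pool.Agent.Work.MP_3d425c_gt.Bor
open Classical

namespace PZ
variable {Γ V X : Type} [Group Γ] [MulAction Γ V] [MulAction Γ X] (S : PZ Γ V X)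

/-- Triples: a cusp, a direction and a level. -/
structure Tr (_S : PZ Γ V X) : Type where
  w : V
  i : ℤ
  l : ℤ

noncomputable instance : MulAction Γ S.Tr where
  smul g x := ⟨g • x.w, x.i + S.c g (.inl x.w), x.l + S.deg g x.w⟩
  one_smul x := by
    show (⟨_, _, _⟩ : S.Tr) = x
    rw [one_smul, S.c_one, S.deg_one, add_zero, add_zero]
  mul_smul g h x := by
    show (⟨_, _, _⟩ : S.Tr) = ⟨g • h • x.w, x.i + S.c h (.inl x.w) + S.c g (.inl (h • x.w)),
      x.l + S.deg h x.w + S.deg g (h • x.w)⟩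
    rw [mul_smul, S.c_mul, S.deg_mul, Sum.smul_inl]
    congr 1 <;> ring

theorem smul_tr (g : Γ) (x : S.Tr) :
    g • x = ⟨g • x.w, x.i + S.c g (.inl x.w), x.l + S.deg g x.w⟩ := rfl

theorem tr_free {g : Γ} {x : S.Tr} (h : g • x = x) : g = 1 := by
  have h1 : g • x.w = x.w := congrArg Tr.w h
  have h2 : x.i + S.c g (.inl x.w) = x.i := congrArg Tr.i h
  have h3 : x.l + S.deg g x.w = x.l := congrArg Tr.l h
  exact S.free h1 (by omega) (by omega)

theorem exists_mark : ∃ f : S.Tr → X, (∀ (g : Γ) t, f (g • t) = g • f t) ∧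
    ∀ t, S.own (f t) = t.w ∧ S.dir (.inl t.w) (.inr (f t)) = t.i := by
  choose x hx1 hx2 using S.h.onto
  let rep : S.Tr → S.Tr := fun t => (Quotient.mk (MulAction.orbitRel Γ S.Tr) t).out
  have h1 : ∀ t, ∃ g : Γ, g • rep t = t := fun t =>
    (Quotient.mk_out (s := MulAction.orbitRel Γ S.Tr) t : rep t ∈ MulAction.orbit Γ t).imp' (·⁻¹)
      fun g hg => inv_smul_eq_iff.2 hg.symm
  have h2 : ∀ (g : Γ) t, rep (g • t) = rep t := fun g t =>
    congrArg Quotient.out (Quotient.sound (⟨g, rfl⟩ : g • t ∈ MulAction.orbit Γ t))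
  choose k hk using h1
  refine ⟨fun t => k t • x (rep t).w (rep t).i, fun g t => ?_, fun t => ⟨?_, ?_⟩⟩
  · have e : (k (g • t))⁻¹ * (g * k t) = 1 := S.tr_free (x := rep t) (by
      rw [mul_smul, mul_smul, hk, inv_smul_eq_iff, ← h2 g t, hk])
    simp only [h2]
    rw [inv_mul_eq_one.1 e, mul_smul]
  · rw [S.h.own_smul, hx1]
    exact congrArg Tr.w (hk t)
  · have e1 : k t • (rep t).w = t.w := congrArg Tr.w (hk t)
    have e2 : (rep t).i + S.c (k t) (.inl (rep t).w) = t.i := congrArg Tr.i (hk t)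
    have := S.equiv (k t) (.inl (rep t).w) (.inr (x (rep t).w (rep t).i)) Sum.inr_ne_inl
    rwa [Sum.smul_inl, Sum.smul_inr, e1, hx2, e2] at this

/-- The marked leaf of a triple. -/
noncomputable def mark : S.Tr → X := S.exists_mark.choose

theorem mark_smul (g : Γ) (t : S.Tr) : S.mark (g • t) = g • S.mark t :=
  S.exists_mark.choose_spec.1 g t

theorem own_mark (t : S.Tr) : S.own (S.mark t) = t.w := (S.exists_mark.choose_spec.2 t).1

theorem dir_mark (t : S.Tr) : S.dir (.inl t.w) (.inr (S.mark t)) = t.i :=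
  (S.exists_mark.choose_spec.2 t).2

theorem mark_δ (w : V) (i l k : ℤ) : S.δ w ^ k • S.mark ⟨w, i, l⟩ = S.mark ⟨w, i, l + k⟩ := by
  rw [← S.mark_smul, S.smul_tr, (S.δ_zpow w k).1, (S.δ_zpow w k).2,
    S.deg_zpow (by simpa using (S.δ_zpow w 1).1), S.deg_δ, add_zero, mul_one]

variable (γ : V → Γ) (hS : PT.Slopes γ) (h1 : ∀ w, |S.e (γ w)| < S.c (γ w) (.inl w))
  (h0 : ∀ w, S.e (γ w) ≠ 0 ∨ ∀ g : Γ, g • w = w → S.c g (.inl w) ≠ 2)

/-- The tree with cut points. -/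
noncomputable def rz : RZ Γ (V ⊕ X) where
  dir := S.dir
  c := S.c
  e := S.e
  deg g := Sum.elim (S.deg g) fun _ => 0
  real p := ∃ v, p = .inl v
  γ := Sum.elim γ fun _ => 1
  cut p i l := Sum.elim (fun w => .inr (S.mark ⟨w, i, l⟩)) (fun x => .inr x) p
  t1 := S.t1
  fin := S.fin
  par := S.par
  equiv := S.equiv
  c_mul := S.c_mul
  e_mul := S.h.e_mul
  deg_mul g h u := by
    rcases u with u | x
    · exact S.deg_mul g h u
    · rfl
  epar := S.epar
  real_smul := by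
    rintro g _ ⟨v, rfl⟩
    exact ⟨g • v, rfl⟩
  nreal_small u a b hu ha hb := by
    rcases u with u | x
    · exact absurd ⟨u, rfl⟩ hu
    · exact S.h.sides x a b ha hb
  γ_fix := by
    rintro _ ⟨v, rfl⟩
    exact congrArg Sum.inl (hS.fix v)
  γ_smul := by
    rintro g _ ⟨v, rfl⟩
    exact hS.conj g v
  he0 := by
    rintro _ ⟨v, rfl⟩
    exact (h0 v).imp_right fun k g hg => k g (Sum.inl_injective hg)
  he1 := by
    rintro _ ⟨v, rfl⟩
    exact h1 v
  prim := by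
    rintro _ ⟨w, rfl⟩ g k l hg hc hd
    have hg' : g • w = w := Sum.inl_injective hg
    obtain ⟨a1, a2⟩ := S.c_zpow hg' k
    obtain ⟨b1, b2⟩ := S.c_zpow (hS.fix w) (-l)
    have h7 : g ^ k * γ w ^ (-l) = 1 := by
      refine S.free (w := w) ?_ ?_ ?_
      · rw [mul_smul, b1, a1]
      · rw [S.c_fix b1, a2, b2, hc]
        simp
      · rw [S.deg_mul, b1, S.deg_zpow hg', S.deg_zpow (hS.fix w)]
        simp only [Sum.elim_inl] at hd
        linarith
    rw [zpow_neg, mul_inv_eq_one] at h7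
    exact hS.prim w g k l hg' h7
  cut_smul := by
    rintro g _ i l ⟨v, rfl⟩
    exact congrArg Sum.inr (S.mark_smul g ⟨v, i, l⟩).symm
  cut_inj := by
    rintro _ i l _ i' l' ⟨v, rfl⟩ ⟨v', rfl⟩ h
    have := congrArg S.own (Sum.inr_injective h)
    rw [S.own_mark, S.own_mark] at this
    exact congrArg Sum.inl this
  cut_nreal := by
    rintro _ i l ⟨v, rfl⟩ ⟨v', h⟩
    exact Sum.inr_ne_inl h
  dir_cut := by
    rintro _ i l ⟨v, rfl⟩
    exact S.dir_mark ⟨v, i, l⟩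
  cut_small := by
    rintro _ i l ⟨v, rfl⟩
    have := S.h.straight (S.mark ⟨v, i, l⟩)
    rwa [S.own_mark] at this
  cut_btw := by
    rintro _ i l ⟨v, rfl⟩
    have := S.h.push (S.mark ⟨v, i, l⟩)
    rwa [S.own_mark, ← zpow_one (S.δ _), S.mark_δ] at this
  low := by
    rintro _ p ⟨v, rfl⟩ h
    have := S.h.low (S.mark ⟨v, S.dir (.inl v) p, 0⟩) p
    rw [S.own_mark] at this
    obtain ⟨l, hl⟩ := this h (S.dir_mark ⟨v, S.dir (.inl v) p, 0⟩).symm
    rw [S.mark_δ] at hl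
    exact ⟨_, hl⟩
  high := by
    rintro _ i p ⟨v, rfl⟩
    obtain ⟨l, hl⟩ := S.h.high (S.mark ⟨v, i, 0⟩) p
    have e1 := S.btw_succ (S.mark ⟨v, i, 0⟩) l
    rw [S.own_mark, S.mark_δ] at hl
    rw [S.own_mark, S.mark_δ, S.mark_δ] at e1
    by_cases e : p = .inr (S.mark ⟨v, i, 0 + l⟩)
    · exact ⟨0 + (l + 1), fun k => e1.2.1 (Wb.antisymm S.t1 (e ▸ k) e1.wb)⟩
    · exact ⟨0 + l, fun k => hl (k.btw Sum.inl_ne_inr e)⟩
  nt := by
    obtain ⟨v, v', h⟩ := S.h.two
    exact ⟨.inl v, .inl v', ⟨v, rfl⟩, ⟨v', rfl⟩, fun e => h (Sum.inl_injective e)⟩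

include hS h1 h0 in
theorem exists_order0 : ∃ (Ω : Type) (_ : LinearOrder Ω) (ρ : Γ →* (Ω ≃o Ω)), ρ ≠ 1 ∧
    ∀ g, ρ g = 1 ↔ g ∈ Subgroup.normalClosure (Set.range γ) := by
  obtain ⟨Ω, i, ρ, k1, k2⟩ := (S.rz γ hS h1 h0).exists_order'
    (by
      rintro g _ ⟨w, rfl⟩ a1 a2 a3
      exact S.free (Sum.inl_injective a1) a2 a3)
    (by
      rintro _ ⟨w, rfl⟩
      refine ⟨S.δ w, congrArg Sum.inl (by simpa using (S.δ_zpow w 1).1),
        (show S.c (S.δ w) (.inl w) = 0 by simpa using (S.δ_zpow w 1).2), ?_⟩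
      show S.deg (S.δ w) w ≠ 0
      rw [S.deg_δ]
      exact one_ne_zero)
  refine ⟨Ω, i, ρ, k1, fun g => (k2 g).trans ?_⟩
  have : (S.rz γ hS h1 h0).γ '' {w | (S.rz γ hS h1 h0).real w} = Set.range γ := by
    ext g
    constructor
    · rintro ⟨_, ⟨v, rfl⟩, rfl⟩
      exact ⟨v, rfl⟩
    · rintro ⟨v, rfl⟩
      exact ⟨.inl v, ⟨v, rfl⟩, rfl⟩
  rw [this]

include hS in
theorem exists_order (hs : ∀ (w : V) (v : V ⊕ X), v ≠ .inl w →
      |S.e (γ w)| < |S.dir (.inl w) (γ w • v) - S.dir (.inl w) v| ∧ (S.e (γ w) ≠ 0 ∨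
        ∀ g : Γ, g • w = w → S.dir (.inl w) (g • v) ≠ S.dir (.inl w) v + 2)) :
    ∃ (Ω : Type) (_ : LinearOrder Ω) (ρ : Γ →* (Ω ≃o Ω)), ρ ≠ 1 ∧
      ∀ g, ρ g = 1 ↔ g ∈ Subgroup.normalClosure (Set.range γ) := by
  have sl : ∀ w, |S.e (γ w)| < |S.c (γ w) (.inl w)| ∧
      (S.e (γ w) ≠ 0 ∨ ∀ g : Γ, g • w = w → S.c g (.inl w) ≠ 2) := fun w => by
    obtain ⟨v, hv⟩ := S.exists_ne' (.inl w)
    obtain ⟨a1, a2⟩ := hs w v hv
    rw [S.equiv_fix (hS.fix w) hv, add_sub_cancel_left] at a1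
    refine ⟨a1, a2.imp_right fun k g hg e => k g hg ?_⟩
    rw [S.equiv_fix hg hv, e]
  have ei : ∀ g : Γ, S.e g⁻¹ = -S.e g := fun g => by
    have a1 := S.h.e_mul 1 1
    have a2 := S.h.e_mul g⁻¹ g
    rw [mul_one] at a1
    rw [inv_mul_cancel] at a2
    omega
  have ci : ∀ w, S.c (γ w)⁻¹ (.inl w) = -S.c (γ w) (.inl w) := fun w => by
    simpa using (S.c_zpow (hS.fix w) (-1)).2
  have cc : ∀ (g : Γ) w, S.c (γ (g • w)) (.inl (g • w)) = S.c (γ w) (.inl w) := fun g w => by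
    have a1 := S.c_mul (γ (g • w)) g (.inl w)
    rw [hS.conj, inv_mul_cancel_right, S.c_fix (hS.fix w), ← hS.conj, Sum.smul_inl] at a1
    omega
  obtain ⟨γ', hγ⟩ : ∃ γ' : V → Γ, ∀ w,
      γ' w = if 0 < S.c (γ w) (.inl w) then γ w else (γ w)⁻¹ := ⟨_, fun _ => rfl⟩
  obtain ⟨Ω, _, ρ, k1, k2⟩ := S.exists_order0 γ'
    { fix := fun w => by
        rw [hγ]
        split_ifs
        exacts [hS.fix w, inv_smul_eq_iff.2 (hS.fix w).symm]
      conj := fun g w => by
        rw [hγ, hγ, cc, hS.conj]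
        split_ifs
        · rfl
        · group
      prim := fun w s k l hs q => by
        rw [hγ] at q
        split_ifs at q
        · exact hS.prim w s k l hs q
        · rw [inv_zpow'] at q
          exact dvd_neg.1 (hS.prim w s k _ hs q) }
    (fun w => by
      have a1 := (sl w).1
      rw [hγ]
      split_ifs with k
      · rwa [abs_of_pos k] at a1
      · rwa [ei, ci, abs_neg, ← abs_of_nonpos (not_lt.1 k)])
    (fun w => (sl w).2.imp_left fun k => by
      rw [hγ]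
      split_ifs
      · exact k
      · rwa [ei, neg_ne_zero])
  refine ⟨Ω, inferInstance, ρ, k1, fun g => (k2 g).trans ?_⟩
  have h3 : Subgroup.normalClosure (Set.range γ') = Subgroup.normalClosure (Set.range γ) := by
    refine le_antisymm (Subgroup.normalClosure_le_normal ?_) (Subgroup.normalClosure_le_normal ?_)
    · rintro _ ⟨w, rfl⟩
      have := Subgroup.subset_normalClosure (s := Set.range γ) ⟨w, rfl⟩
      rw [hγ]
      split_ifs
      exacts [this, inv_mem this]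
    · rintro _ ⟨w, rfl⟩
      have := Subgroup.subset_normalClosure (s := Set.range γ') ⟨w, rfl⟩
      rw [hγ] at this
      split_ifs at this
      exacts [this, inv_mem_iff.1 this]
  exact h3 ▸ Iff.rfl

end PZ

end Pool.Agent.Work.MP_3d425c_gt.Bor
end

-- merged part: Pool.Agent.Work.MP_3d425c_gt.ZMain
section
/-! Left orders on fillings of prong trees. -/

namespace Pool.Agent.Work.MP_3d425c_gt.Bor
open Classical

theorem z_main {V X Γ Y M ι : Type} [Group Γ] [MulAction Γ V] [MulAction Γ X] [MulAction Γ Y]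
    [TopologicalSpace Y] [SimplyConnectedSpace Y] [ContinuousConstSMul Γ Y] [TopologicalSpace M]
    (dir : V ⊕ X → V ⊕ X → ℤ) (own : X → V) (δ γ : V → Γ) (e : Γ → ℤ)
    (p : Y → M) (N : ι → ℂ × Circle → M)
    (hT : PT.ProngTree dir own δ e) (hS : PT.Slopes γ) (hF : PT.Filling γ p N)
    (hslope : ∀ (w : V) (v : V ⊕ X), v ≠ .inl w →
      |e (γ w)| < |dir (.inl w) (γ w • v) - dir (.inl w) v| ∧ (e (γ w) ≠ 0 ∨
        ∀ g : Γ, g • w = w → dir (.inl w) (g • v) ≠ dir (.inl w) v + 2)) (m : M) :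
    Nontrivial (FundamentalGroup M m) ∧
      ∃ r : FundamentalGroup M m → FundamentalGroup M m → Prop,
        IsStrictTotalOrder _ r ∧ ∀ a b c, r a b ↔ r (c * a) (c * b) := by
  obtain ⟨Ω, _, ρ, h1, h2⟩ := PZ.exists_order ⟨dir, own, δ, e, hT⟩ γ hS hslope
  let S : FS Γ Y M ι :=
    { p := p, N := N, cont := inferInstance, sc := inferInstance, loc := hF.loc, fib := hF.fibre
      free := hF.free, emb := hF.emb, disj := hF.disj, core := hF.core, cover := hF.cover }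
  have hM : S.Mer = Set.range γ := by
    ext g
    rw [hF.meridian]
    rfl
  obtain ⟨φ⟩ := S.pi1 m
  exact pb9_order ρ _ h1 (by rw [hM]; exact h2) φ

theorem z_indep {V X Γ : Type} [Group Γ] [MulAction Γ V] [MulAction Γ X]
    {dir : V ⊕ X → V ⊕ X → ℤ} {own : X → V} {δ : V → Γ} {e : Γ → ℤ}
    (hT : PT.ProngTree dir own δ e) {g : Γ} {w : V} (hg : g • w = w) {u v : V ⊕ X}
    (hu : u ≠ .inl w) (hv : v ≠ .inl w) :
    dir (.inl w) (g • v) - dir (.inl w) v = dir (.inl w) (g • u) - dir (.inl w) u := by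
  have h1 := PZ.equiv_fix ⟨dir, own, δ, e, hT⟩ hg hu
  have h2 := PZ.equiv_fix ⟨dir, own, δ, e, hT⟩ hg hv
  simp only at h1 h2
  omega

open PA in
theorem z_affine {V Γ M ι : Type} [LinearOrder V] [Countable V] [Group Γ] [MulAction Γ V]
    [TopologicalSpace M] (E : V → V → Prop) [MulAction Γ (Disc E)]
    [ContinuousConstSMul Γ (Disc E)] (y : V → ℝ) (deg e : Γ → ℤ) (lam : ℝ) (γ : V → Γ)
    (p : Cyl E → M) (N : ι → ℂ × Circle → M)
    (hA : Affine E y deg e lam) (hS : Slopes γ) (hF : Filling E deg γ p N)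
    (hslope : ∀ w u : V, u ≠ w → |e (γ w)| < (prongs E y w u (γ w • u) : ℤ) ∧
      (e (γ w) ≠ 0 ∨ ∀ g : Γ, g • w = w → prongs E y w u (g • u) ≠ 2)) :
    ∃ (X : Type) (_ : MulAction Γ X) (_ : MulAction Γ (Cyl E)) (_ : SimplyConnectedSpace (Cyl E))
      (_ : ContinuousConstSMul Γ (Cyl E)) (dir : V ⊕ X → V ⊕ X → ℤ) (own : X → V) (δ : V → Γ),
      PT.ProngTree dir own δ e ∧ PT.Slopes γ ∧ PT.Filling γ p N ∧
      ∀ (w : V) (v : V ⊕ X), v ≠ .inl w →
        |e (γ w)| < |dir (.inl w) (γ w • v) - dir (.inl w) v| ∧ (e (γ w) ≠ 0 ∨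
          ∀ g : Γ, g • w = w → dir (.inl w) (g • v) ≠ dir (.inl w) v + 2) := by
  have hne : ∀ w : V, ∃ u, u ≠ w := fun w => by
    obtain ⟨a, b, hab⟩ := hA.tri.ne
    have := (pb9_mid hA.tri hab).1
    by_cases h : a = w
    exacts [⟨b, h ▸ this.symm⟩, ⟨a, h⟩]
  obtain ⟨X, i1, dir, own, δ, h1, h2⟩ := affine_tree E y deg e lam hA fun w => by
    obtain ⟨u, hu⟩ := hne w
    have := (abs_nonneg _).trans_lt (hslope w u hu).1
    exact ⟨γ w, u, hS.fix w, hu, by exact_mod_cast this⟩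
  obtain ⟨i2, i3, i4, h3⟩ := affine_filling E y deg e lam γ p N hA hF
  refine ⟨X, i1, i2, i4, i3, dir, own, δ, h1, ⟨hS.fix, hS.conj, hS.prim⟩, h3, fun w v hv => ?_⟩
  obtain ⟨u, hu⟩ := hne w
  have hu' : (Sum.inl u : V ⊕ X) ≠ .inl w := fun e => hu (Sum.inl_injective e)
  obtain ⟨a1, a2⟩ := hslope w u hu
  refine ⟨?_, a2.imp_right fun k g hg e => k g hg ?_⟩
  · rwa [z_indep h1 (hS.fix w) hu' hv, Sum.smul_inl, h2 w u _ hu (PAT5_ne' (hS.fix w) hu)]
  · have b1 := z_indep h1 hg hu' hv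
    have b2 := h2 w u _ hu (PAT5_ne' hg hu)
    rw [← Sum.smul_inl, ← b1, e, add_sub_cancel_left] at b2
    exact_mod_cast b2.symm

end Pool.Agent.Work.MP_3d425c_gt.Bor
end

-- merged part: Pool.Agent.Work.MP_3d425c_gt.VrMain
section
/-! Left orders on fillings of veering triangulations. -/

namespace Pool.Agent.Work.MP_3d425c_gt.Bor
open Classical

section
variable {V Γ : Type} [LinearOrder V] [Group Γ] [MulAction Γ V] {K : ℤ → V → V → Prop}
  {red up : V → V → Prop} {e : Γ → ℤ} (hV : VT.Veering K red up e)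
include hV

theorem vt_face {a b c : V} : VT.Face K a b c ↔ ∃ k, T3 (K k) a b c :=
  ⟨fun ⟨h, k, h1, h2, h3⟩ => ⟨k, h1, (hV.layer k).symm _ _ h3, h2, h⟩,
    fun ⟨k, h1, h2, h3, h⟩ => ⟨h, k, h1, h3, (hV.layer k).symm _ _ h2⟩⟩

/-- The bundled triangulation. -/
def ofVT : VU V where
  K := K
  red := red
  up := up
  layer i := ⟨(hV.layer i).symm, (hV.layer i).nocross, (hV.layer i).apex, (hV.layer i).fin,
    (hV.layer i).ne⟩
  red_symm := hV.red_symm
  above := hV.above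
  below := hV.below
  life a b := by
    obtain ⟨s, hs⟩ := (hV.life a b).bddBelow
    obtain ⟨t, ht⟩ := (hV.life a b).bddAbove
    exact ⟨s, t, fun i h => ⟨hs h, ht h⟩⟩
  up_rev := fun a b ⟨k, h⟩ => hV.up_rev k a b h
  up_face w a b h := hV.up_face w a b ((vt_face hV).2 h)

end

theorem vr_main {V Γ Y M ι : Type} [LinearOrder V] [Countable V] [Group Γ] [MulAction Γ V]
    [MulAction Γ Y] [TopologicalSpace Y] [SimplyConnectedSpace Y] [ContinuousConstSMul Γ Y]
    [TopologicalSpace M] (K : ℤ → V → V → Prop) (red up : V → V → Prop) (e : Γ → ℤ) (γ : V → Γ)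
    (p : Y → M) (N : ι → ℂ × Circle → M)
    (hV : VT.Veering K red up e) (hS : VT.Slopes γ) (hF : VT.Filling γ p N)
    (hslope : ∀ w u : V, u ≠ w → |e (γ w)| < (VT.prongs K red w u (γ w • u) : ℤ) ∧
      (e (γ w) ≠ 0 ∨ ∀ g : Γ, g • w = w → VT.prongs K red w u (g • u) ≠ 2)) (m : M) :
    Nontrivial (FundamentalGroup M m) ∧
      ∃ r : FundamentalGroup M m → FundamentalGroup M m → Prop,
        IsStrictTotalOrder _ r ∧ ∀ a b c, r a b ↔ r (c * a) (c * b) := by
  have hne : ∀ w : V, ∃ u, u ≠ w := fun w => by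
    obtain ⟨a, b, hab⟩ := (hV.layer 0).ne
    obtain ⟨c, hc, -⟩ := (hV.layer 0).apex a b hab
    have := (cyc_ne hc).1
    by_cases h : a = w
    exacts [⟨c, h ▸ this.symm⟩, ⟨a, h⟩]
  let S : VG Γ V :=
    { ofVT hV with
      e := e
      cyc_smul := hV.cyc_smul
      face_smul := fun g a b c h => (vt_face hV).1 (hV.face_smul g a b c ((vt_face hV).2 h))
      red_smul := fun g a b ⟨k, h⟩ => hV.red_smul g k a b h
      up_smul := fun g a b ⟨k, h⟩ => hV.up_smul g k a b h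
      e_mul := hV.e_mul
      free := fun g a b ⟨k, h⟩ => hV.free g k a b h
      cocompact := hV.cocompact.imp fun F h => ⟨h.1, fun a b ⟨k, h'⟩ => h.2 k a b h'⟩
      turn := fun w => by
        obtain ⟨u, hu⟩ := hne w
        have := (abs_nonneg _).trans_lt (hslope w u hu).1
        exact ⟨γ w, u, hS.fix w, hu, (Int.natCast_pos.1 this).ne'⟩ }
  obtain ⟨X, i1, dir, own, δ, h1, h2⟩ := S.exists_tree
  have h3 : ∀ w u v, u ≠ w → v ≠ w →
      |dir (.inl w) (.inl v) - dir (.inl w) (.inl u)| = VT.prongs K red w u v :=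
    fun w u v hu hv => by
      rw [h2, h2]
      exact VU.abs_dir hu hv
  refine z_main dir own δ γ e p N h1 ⟨hS.fix, hS.conj, hS.prim⟩ ⟨hF.loc, hF.fibre, hF.free, hF.emb,
    hF.disj, hF.core, hF.cover, hF.meridian⟩ (fun w v hv => ?_) m
  obtain ⟨u, hu⟩ := hne w
  have hu' : (Sum.inl u : V ⊕ X) ≠ .inl w := fun e => hu (Sum.inl_injective e)
  obtain ⟨a1, a2⟩ := hslope w u hu
  refine ⟨?_, a2.imp_right fun k g hg e => k g hg ?_⟩
  · rwa [z_indep h1 (hS.fix w) hu' hv, Sum.smul_inl, h3 w u _ hu (PAT5_ne' (hS.fix w) hu)]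
  · have b1 := z_indep h1 hg hu' hv
    have b2 := h3 w u _ hu (PAT5_ne' hg hu)
    rw [← Sum.smul_inl, ← b1, e, add_sub_cancel_left] at b2
    exact_mod_cast b2.symm

end Pool.Agent.Work.MP_3d425c_gt.Bor
end

-- merged part: Pool.Agent.Work.MP_3d425c_gt.W.Main
section
/-! Left orders on Dehn fillings of veering triangulations given by face pairings. -/

namespace Pool.Agent.Work.MP_3d425c_gt.Bor
open PA Relation

theorem w_main {T Γ Y M ι : Type} [Group Γ] [MulAction Γ T] [MulAction Γ Y] [TopologicalSpace Y]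
    [SimplyConnectedSpace Y] [ContinuousConstSMul Γ Y] [TopologicalSpace M] (G : VR.Gluing T)
    [SimplyConnectedSpace (VR.Space G)] (red up : T × Fin 4 × Fin 4 → Prop) (e : Γ → ℤ)
    (γ : T → Fin 4 → Γ) (p : Y → M) (N : ι → ℂ × Circle → M) (hV : VR.Veering G red)
    (hD : VR.Deck G red up e) (hS : VR.Slopes G red γ) (hF : VR.Filling γ p N)
    (hslope : ∀ t i, ∃ n, VR.Wind G red t i (γ t i • t) i n ∧ |e (γ t i)| < |n| ∧
      (e (γ t i) ≠ 0 ∨ ∀ g : Γ, ¬ VR.Wind G red t i (g • t) i 2)) (m : M) :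
    Nontrivial (FundamentalGroup M m) ∧
      ∃ r : FundamentalGroup M m → FundamentalGroup M m → Prop,
        IsStrictTotalOrder _ r ∧ ∀ a b c, r a b ↔ r (c * a) (c * b) := by
  obtain ⟨V, _, _, S, vtx, hM⟩ := exists_model hV
  choose ct ci hc using hM.surj_vtx
  have cor : ∀ {Z : Type} (f : T → Fin 4 → Z),
      (∀ t k i, i ≠ k → f (G.nbr t k) (G.perm t k i) = f t i) →
      ∀ t i, f (ct (vtx t i)) (ci (vtx t i)) = f t i := fun f h t i => by
    have : ∀ x y, EqvGen (Cor G) x y → f x.1 x.2 = f y.1 y.2 := fun x y r => by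
      induction r with
      | rel x y r =>
        obtain ⟨k, h1, h2, h3⟩ := r
        rw [h2, h3, h _ _ _ h1.symm]
      | refl x => rfl
      | symm x y _ ih => exact ih.symm
      | trans x y z _ _ ih ih' => exact ih.trans ih'
    exact this _ _ (hM.corner (hc _))
  have sm0 : ∀ (g : Γ) t i, vtx (g • ct (vtx t i)) (ci (vtx t i)) = vtx (g • t) i := fun g =>
    cor (fun t i => vtx (g • t) i) fun t k i h => by
      rw [← hD.nbr_smul, ← hD.perm_smul g, hM.glue _ _ _ h]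
  letI : MulAction Γ V :=
    { smul := fun g w => vtx (g • ct w) (ci w)
      one_smul := fun w => (congrArg (vtx · (ci w)) (one_smul Γ _)).trans (hc w)
      mul_smul := fun g h w => (congrArg (vtx · (ci w)) (mul_smul g h _)).trans (sm0 _ _ _).symm }
  have sm : ∀ (g : Γ) t i, g • vtx t i = vtx (g • t) i := sm0
  let γ' : V → Γ := fun w => γ (ct w) (ci w)
  have hγ : ∀ t i, γ' (vtx t i) = γ t i := cor γ hS.cusp
  let up' : V → V → Prop := fun a b => ∃ t i j, i ≠ j ∧ vtx t i = a ∧ vtx t j = b ∧ up (t, i, j)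
  have hu : ∀ t i j, i ≠ j → (up' (vtx t i) (vtx t j) ↔ up (t, i, j)) := fun t i j h => by
    refine ⟨fun ⟨t', i', j', h1, h2, h3, h4⟩ => ?_, fun k => ⟨t, i, j, h, rfl, rfl, k⟩⟩
    have : ∀ x y, EqvGen (VR.Turn G) x y → (up x ↔ up y) := fun x y r => by
      induction r with
      | rel x y r => exact hD.up_turn x y r
      | refl x => rfl
      | symm x y _ ih => exact ih.symm
      | trans x y z _ _ ih ih' => exact ih.trans ih'
    exact (this _ _ (hM.dart _ _ _ _ _ _ h1 h2 h3)).1 h4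
  have ed : ∀ a b, S.E a b → ∃ t i j, i ≠ j ∧ vtx t i = a ∧ vtx t j = b := fun a b h => by
    obtain ⟨t, h | h⟩ := hM.edge_bot h
    exacts [⟨t, 0, 2, by decide, h⟩, ⟨t, 2, 0, by decide, h⟩]
  let U : VU V :=
    { S with
      up := up'
      up_rev := fun a b h => by
        obtain ⟨t, i, j, hij, rfl, rfl⟩ := ed a b h
        rw [hu _ _ _ hij, hu _ _ _ hij.symm, hD.up_rev _ _ _ hij]
      up_face := fun w a b h r1 r2 => by
        obtain ⟨k, d, u⟩ := VC.face_die h r1 r2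
        obtain ⟨t, ⟨rfl, rfl, rfl, -⟩ | ⟨rfl, -, rfl, rfl⟩⟩ := hM.surj _ _ _ _ _ u <;>
          obtain ⟨f1, f2, f3, f4⟩ := hD.up_face t
        · rw [hu _ _ _ (by decide), hu _ _ _ (by decide), hu _ _ _ (by decide),
            hD.up_rev t 1 2 (by decide), hD.up_rev t 0 2 (by decide), hD.up_rev t 0 1 (by decide)]
          exact ⟨not_congr f2, not_congr f1⟩
        · rw [hu _ _ _ (by decide), hu _ _ _ (by decide), hu _ _ _ (by decide)]
          exact ⟨f3, f4⟩ }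
  have hM' : Model G red U.toVC vtx := hM
  have fs : ∀ (g : Γ) a b c, S.Face a b c → S.Face (g • a) (g • b) (g • c) := fun g a b c h => by
    obtain ⟨t, i, j, l, -, c, -, -, -, -, rfl, rfl, rfl⟩ := hM.face_bot h
    rw [sm, sm, sm]
    exact hM.face _ c
  have ne : ∀ t i, vtx t (i + 1) ≠ vtx t i := fun t i => (hM.edge t (succ_ne4 i)).ne.symm
  have wd : ∀ t i (g : Γ) n, VR.Wind G red t i (g • t) i n → g • vtx t i = vtx t i ∧
      n = U.dir (vtx t i) (g • vtx t (i + 1)) - U.dir (vtx t i) (vtx t (i + 1)) :=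
    fun t i g n h => by
      rw [sm, sm]
      exact wind_dir hV hM' h
  let W : VG Γ V :=
    { U with
      e := e
      cyc_smul := fun g a b c h => Inst.cyc_map (E' := fun _ _ => True) (S.layer 0)
        (fun p c q t => ⟨(fs g p c q ⟨0, t.2.1, t.2.2.2, t.2.2.1, t.1⟩).cyc, trivial, trivial,
          trivial⟩) h
      face_smul := fs
      red_smul := fun g a b h => by
        obtain ⟨t, i, j, hij, rfl, rfl⟩ := ed a b h
        rw [sm, sm]
        exact (hM.red _ _ _ hij).trans ((hD.red_smul g t i j).trans (hM.red _ _ _ hij).symm)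
      up_smul := fun g a b h => by
        obtain ⟨t, i, j, hij, rfl, rfl⟩ := ed a b h
        rw [sm, sm]
        exact (hu _ _ _ hij).trans ((hD.up_smul g t i j hij).trans
          (iff_congr (hu _ _ _ hij).symm Iff.rfl))
      e_mul := hD.e_mul
      free := fun g a b h h1 h2 => by
        obtain ⟨t, h⟩ := hM.edge_bot h
        have h3 : g • vtx t 0 = vtx t 0 ∧ g • vtx t 2 = vtx t 2 := by
          rcases h with ⟨rfl, rfl⟩ | ⟨rfl, rfl⟩
          exacts [⟨h1, h2⟩, ⟨h2, h1⟩]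
        rw [sm, sm] at h3
        obtain ⟨x, -, hx⟩ := hV.bottom (g • t, 0, 2) (by simp)
        exact hD.free g t (Prod.mk.inj ((hx _ ⟨.refl _, Or.inl rfl⟩).trans
          (hx _ ⟨hM.dart _ _ _ _ _ _ (by decide) h3.1 h3.2, Or.inl rfl⟩).symm)).1
      cocompact := by
        obtain ⟨F, h1, h2⟩ := hD.cocompact
        refine ⟨(fun x : T × Fin 4 × Fin 4 => (vtx x.1 x.2.1, vtx x.1 x.2.2)) '' (F ×ˢ Set.univ),
          (h1.prod Set.finite_univ).image _, fun a b h => ?_⟩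
        obtain ⟨t, i, j, -, rfl, rfl⟩ := ed a b h
        exact (h2 t).imp fun g k => ⟨(g • t, i, j), ⟨k, trivial⟩, by rw [sm, sm]⟩
      turn := fun w => by
        obtain ⟨t, i, rfl⟩ := hM.surj_vtx w
        obtain ⟨n, h1, h2, -⟩ := hslope t i
        obtain ⟨h3, rfl⟩ := wd t i _ n h1
        refine ⟨γ t i, vtx t (i + 1), h3, ne t i, fun k => ?_⟩
        rw [VU.abs_dir (ne t i) (PAT5_ne' h3 (ne t i))] at h2
        have := abs_nonneg (e (γ t i))
        change U.prongs _ _ _ = 0 at k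
        omega }
  obtain ⟨X, i1, dir, own, δ, h1, h2⟩ := W.exists_tree
  have wi : ∀ t i (s : Γ), s • vtx t i = vtx t i → ∃ n, VR.Wind G red t i (s • t) i n :=
    fun t i s h => hM.wind hV (h.symm.trans (sm s t i))
  refine z_main dir own δ γ' e p N h1 ⟨fun w => ?_, fun g w => ?_, fun w s k l hs => ?_⟩
    ⟨hF.loc, hF.fibre, hF.free, hF.emb, hF.disj, hF.core, hF.cover, fun g => ?_⟩
    (fun w v hv => ?_) m
  · obtain ⟨t, i, rfl⟩ := hM.surj_vtx w
    obtain ⟨n, h, -⟩ := hslope t i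
    exact hγ t i ▸ (wd t i _ n h).1
  · obtain ⟨t, i, rfl⟩ := hM.surj_vtx w
    rw [sm, hγ, hγ, hS.conj]
  · obtain ⟨t, i, rfl⟩ := hM.surj_vtx w
    obtain ⟨n, h⟩ := wi t i s hs
    exact hγ t i ▸ hS.prim t i s n k l h
  · rw [← hF.meridian]
    exact ⟨fun ⟨w, h⟩ => ⟨_, _, h⟩, fun ⟨t, i, h⟩ => ⟨vtx t i, (hγ t i).trans h⟩⟩
  · obtain ⟨t, i, rfl⟩ := hM.surj_vtx w
    have hu' : (Sum.inl (vtx t (i + 1)) : V ⊕ X) ≠ .inl (vtx t i) :=
      fun e => ne t i (Sum.inl_injective e)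
    obtain ⟨n, a1, a2, a3⟩ := hslope t i
    obtain ⟨b1, rfl⟩ := wd t i _ n a1
    rw [hγ]
    refine ⟨?_, a3.imp_right fun k g hg e => ?_⟩
    · rwa [z_indep h1 b1 hu' hv, Sum.smul_inl, h2, h2]
    · obtain ⟨n, h⟩ := wi t i g hg
      have b2 := z_indep h1 hg hu' hv
      rw [e, add_sub_cancel_left, Sum.smul_inl, h2, h2] at b2
      exact k g (((wd t i g n h).2.trans b2.symm) ▸ h)

end Pool.Agent.Work.MP_3d425c_gt.Bor
end
end
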