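import Pool.Agent.Work.MP_3d425c_gt.W.SC1
import Pool.Agent.Work.MP_3d425c_gt.W.Main
import Pool.Agent.Work.MP_3d425c_gt.PI10

-- merged part: Pool.Agent.Work.MP_3d425c_gt.W.SC
section
/-! The space of a layered veering triangulation is simply connected.

PLAN (definitions in W/Defs.lean, W/Mod.lean; lemmas on `VC` in Vr1.lean and W/Star.lean:
`tet_faces tet_rot tet_dead tet_bot tet_top face_die face_born Face.above Face.below E.above
E.below`; model for the method: PB4b.lean, `pb4b_sc`, `pb4b_null`, `loc_finite` in PB1.lean).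
Let `Z := {x : V → ℝ | ∃ t (y : Ideal), x = fun v => ∑ i, if vtx t i = v then y i else 0}` with
the subspace topology of `V → ℝ`.
1. `Space G ≃ₜ Z` (or two continuous maps with a left inverse): the map `c` is well defined
(`glue`) and continuous. Injective: two positive coordinates `a ≠ b` give an edge; if the support
is an edge use `hM.dart` (each `Turn` glues the points of the edge); if it is a face, both
tetrahedra contain it, as a bottom or a top face; a tetrahedron of `S` is determined by a bottom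
face (its bottom edge is the side opposite to the blue-red corner, `tet_bot`) or by a top face
(`tet_top`), `t` is determined by its bottom edge (`hM.dart` and uniqueness in `hV.bottom`), and
`nbr t k` has the face on the other side (`glue`, `transverse`); if it is everything, the bottom
edges agree (cyclic order and colours). Inverse continuous: the closed sets
`Z t = range of one tetrahedron` are locally finite in `Z` (near `x` with `x a > 0`, `x b > 0`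
only tetrahedra with both cusps `a b` occur, finitely many by `hM.dart` and `hV.finite`), and
on `Z t` the inverse is `x ↦ mk ⟨t, fun i => x (vtx t i)⟩` (`LocallyFinite.continuous'`).
2. A compact subset of `Z` meets finitely many `Z t`. Use `pb4b_sc`. For `f : C(K, Z)` whose
points lie in finitely many simplices let `Ed f` be the finite set of pairs `a ≠ b` with
`f k a ≠ 0`, `f k b ≠ 0` for some `k` (all are edges). If some pair is born after layer `0`, take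
one, `c d`, with the latest birth (`bt`, `bt_spec`), the top edge of `Tet n a c b d`: every point
with `x c ≠ 0`, `x d ≠ 0` lies in that tetrahedron (another face on `c d` has an edge that is
born later). Push with `x ↦ x - m (δ c + δ d) + m (δ a + δ b)`, `m = min (x c) (x d)`; the straight
line homotopy stays in `Z`; the new pairs are born before `c d`. Induct (for instance on
`∑ 3 ^ birth`, or on the maximal birth and the number of pairs that have it). Same downward for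
pairs that die before layer `0` (use `S.rev`, or redo it; pushing up creates only pairs born at
or before `0`: the top edge of a tetrahedron `Tet n` with `n < 0`). When all pairs are edges of
`S.K 0` the map lands in `{x : Disc (S.K 0) // ∀ w, x.1 w < 1}`, which includes continuously in
`Z` (`Face.above`, `hM.surj`), and `pb4b_null` ends the proof. A different route is welcome. -/

namespace Pool.Agent.Work.MP_3d425c_gt.Bor
open PA

section aux
variable {T V : Type} [LinearOrder V] {G : VR.Gluing T} {red : T × Fin 4 × Fin 4 → Prop}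
  {S : VC V} {vtx : T → Fin 4 → V} {t t' : T} {x : V → ℝ}

/-- Barycentric coordinates of a point of the tetrahedron `t`. -/
noncomputable def WSC_c (vtx : T → Fin 4 → V) (t : T) (y : Fin 4 → ℝ) : V → ℝ :=
  Function.extend (vtx t) y 0

/-- The points of `t` and `t'` with coordinates `x` are identified. -/
def WSC_Rel (G : VR.Gluing T) (vtx : T → Fin 4 → V) (x : V → ℝ) (t t' : T) : Prop :=
  ∃ y y' : VR.Ideal, WSC_c vtx t y.1 = x ∧ WSC_c vtx t' y'.1 = x ∧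
    Quot.mk (VR.Glued G) ⟨t, y⟩ = Quot.mk (VR.Glued G) ⟨t', y'⟩

/-- Equatorial edges have the same colour. -/
def WSC_col (i j i' j' : Fin 4) : Prop :=
  (i.val + j.val) % 2 = 1 → (i'.val + j'.val) % 2 = 1 →
    (i.val / 2 = j.val / 2 ↔ i'.val / 2 = j'.val / 2)

/-- Two bottom edges or two top edges. -/
def WSC_par (i j i' j' : Fin 4) : Prop :=
  i.val % 2 = j.val % 2 ∧ i'.val % 2 = j'.val % 2 ∧ i.val % 2 = i'.val % 2

/-- Four distinct vertices. -/
def WSC_dis (i j l k : Fin 4) : Prop := i ≠ j ∧ l ≠ i ∧ l ≠ j ∧ k ≠ i ∧ k ≠ j ∧ k ≠ l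

instance WSC_dcol (i j i' j' : Fin 4) : Decidable (WSC_col i j i' j') := by
  unfold WSC_col
  infer_instance

instance WSC_dpar (i j i' j' : Fin 4) : Decidable (WSC_par i j i' j') := by
  unfold WSC_par
  infer_instance

instance WSC_ddis (i j l k : Fin 4) : Decidable (WSC_dis i j l k) := by
  unfold WSC_dis
  infer_instance

theorem WSC_d3 : ∀ i j l k : Fin 4, WSC_dis i j l k → ∀ i' j' l' k' : Fin 4, WSC_dis i' j' l' k' →
    (cyc i j l → cyc i' j' l') → (cyc i l j → cyc i' l' j') → WSC_col i j i' j' →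
    WSC_col j l j' l' → WSC_col l i l' i' → k.val % 2 = k'.val % 2 →
    WSC_par i j i' j' ∨ WSC_par j l j' l' ∨ WSC_par l i l' i' := by
  decide

theorem WSC_d4 : ∀ a b c d : Fin 4, cyc a b c → cyc c d a → WSC_col 0 1 a b →
    WSC_par 0 2 a c := by
  decide

theorem WSC_d2 : ∀ i j i' j' : Fin 4, i ≠ j → i' ≠ j' → WSC_par i j i' j' →
    (((i, j) = (0, 2) ∨ (i, j) = (2, 0)) ∧ ((i', j') = (0, 2) ∨ (i', j') = (2, 0))) ∨
      (((i, j) = (1, 3) ∨ (i, j) = (3, 1)) ∧ ((i', j') = (1, 3) ∨ (i', j') = (3, 1))) := by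
  decide

theorem WSC_d1 : ∀ i j l : Fin 4, ∃ k, k ≠ i ∧ k ≠ j ∧ k ≠ l := by decide

theorem WSC_d0 : ∀ i j l k m : Fin 4, i ≠ j → l ≠ i → l ≠ j → k ≠ i → k ≠ j → k ≠ l →
    m = i ∨ m = j ∨ m = l ∨ m = k := by decide

omit [LinearOrder V] in
theorem WSC_c0 {y : Fin 4 → ℝ} {v : V} (h : ∀ i, vtx t i ≠ v) : WSC_c vtx t y v = 0 :=
  Function.extend_apply' _ _ _ (not_exists.2 h)

omit [LinearOrder V] in
theorem WSC_cs {y : Fin 4 → ℝ} {v : V} (h : WSC_c vtx t y v ≠ 0) : ∃ i, vtx t i = v :=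
  by_contra fun e => h (WSC_c0 (not_exists.1 e))

omit [LinearOrder V] in
theorem WSC_on : (∀ v, x v ≠ 0 → ∃ i, vtx t i = v) ↔
    WSC_On x (vtx t 0) (vtx t 1) (vtx t 2) (vtx t 3) := by
  refine forall_congr' fun v => imp_congr_right fun _ => ⟨?_, ?_⟩
  · rintro ⟨i, rfl⟩
    fin_cases i <;> simp
  · rintro (rfl | rfl | rfl | rfl) <;> exact ⟨_, rfl⟩

omit [LinearOrder V] in
theorem WSC_Rel.symm (h : WSC_Rel G vtx x t t') : WSC_Rel G vtx x t' t :=
  let ⟨y, y', h1, h2, h3⟩ := h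
  ⟨y', y, h2, h1, h3.symm⟩

variable (hM : Model G red S vtx)
include hM

theorem WSC_cv (t : T) (y : Fin 4 → ℝ) (i : Fin 4) : WSC_c vtx t y (vtx t i) = y i :=
  (hM.inj t).extend_apply _ _ _

theorem WSC_ci {y y' : VR.Ideal} (h : WSC_c vtx t y.1 = WSC_c vtx t y'.1) : y = y' :=
  Subtype.ext (funext fun i => by rw [← WSC_cv hM t y.1, h, WSC_cv hM])

theorem WSC_cZ (t : T) (y : VR.Ideal) : WSC_c vtx t y.1 ∈ WSC_Z S := by
  obtain ⟨k, u⟩ := hM.tet t
  have o := WSC_on.1 fun v (hv : WSC_c vtx t y.1 v ≠ 0) => WSC_cs hv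
  refine ⟨fun v => ?_, ?_, k, _, _, _, _, u, o⟩
  · by_cases h : WSC_c vtx t y.1 v = 0
    · rw [h]
      exact ⟨le_rfl, zero_lt_one⟩
    · obtain ⟨i, rfl⟩ := WSC_cs h
      rw [WSC_cv hM]
      exact y.2.1 i
  · rw [WSC_sum4 u o, WSC_cv hM, WSC_cv hM, WSC_cv hM, WSC_cv hM, ← Fin.sum_univ_four]
    exact y.2.2

theorem WSC_ex (hx : x ∈ WSC_Z S) (h : ∀ v, x v ≠ 0 → ∃ i, vtx t i = v) :
    ∃ y : VR.Ideal, WSC_c vtx t y.1 = x := by
  obtain ⟨k, u⟩ := hM.tet t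
  refine ⟨⟨fun i => x (vtx t i), fun i => hx.1 _, ?_⟩, funext fun v => ?_⟩
  · rw [Fin.sum_univ_four, ← WSC_sum4 u (WSC_on.1 h), hx.2.1]
  · by_cases e : ∃ i, vtx t i = v
    · obtain ⟨i, rfl⟩ := e
      rw [WSC_cv hM]
    · rw [WSC_c0 (not_exists.1 e)]
      exact (by_contra fun k => e (h v k) : x v = 0).symm

theorem WSC_sur (hx : x ∈ WSC_Z S) : ∃ (t : T) (y : VR.Ideal), WSC_c vtx t y.1 = x := by
  obtain ⟨k, a, c, b, d, u, o⟩ := hx.2.2
  obtain ⟨t, ⟨rfl, rfl, rfl, rfl⟩ | ⟨rfl, rfl, rfl, rfl⟩⟩ := hM.surj _ _ _ _ _ u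
  · exact ⟨t, WSC_ex hM hx (WSC_on.2 o)⟩
  · refine ⟨t, WSC_ex hM hx fun v hv => ?_⟩
    rcases o v hv with rfl | rfl | rfl | rfl <;> exact ⟨_, rfl⟩

theorem WSC_glue {a b : Σ _ : T, VR.Ideal} (h : VR.Glued G a b) :
    WSC_c vtx a.1 a.2.1 = WSC_c vtx b.1 b.2.1 := by
  obtain ⟨k, h1, h2, h3⟩ := h
  funext v
  by_cases e : ∃ i, i ≠ k ∧ vtx a.1 i = v
  · obtain ⟨i, hi, rfl⟩ := e
    rw [WSC_cv hM, ← hM.glue a.1 k i hi, ← h2, WSC_cv hM, h3]
  have e1 : WSC_c vtx a.1 a.2.1 v = 0 := by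
    by_contra k1
    obtain ⟨i, rfl⟩ := WSC_cs k1
    rw [WSC_cv hM] at k1
    exact e ⟨i, fun j => k1 (j ▸ h1), rfl⟩
  have e2 : WSC_c vtx b.1 b.2.1 v = 0 := by
    by_contra k1
    obtain ⟨j, rfl⟩ := WSC_cs k1
    obtain ⟨i, rfl⟩ := (G.perm a.1 k).surjective j
    rw [WSC_cv hM, h3] at k1
    have hi : i ≠ k := fun j => k1 (j ▸ h1)
    exact e ⟨i, hi, by rw [h2, hM.glue a.1 k i hi]⟩
  rw [e1, e2]

theorem WSC_Rel.trans {t'' : T} (h : WSC_Rel G vtx x t t') (h' : WSC_Rel G vtx x t' t'') :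
    WSC_Rel G vtx x t t'' := by
  obtain ⟨y, y', h1, h2, h3⟩ := h
  obtain ⟨z, z', k1, k2, k3⟩ := h'
  obtain rfl := WSC_ci hM (h2.trans k1.symm)
  exact ⟨y, z', h1, k2, h3.trans k3⟩

theorem WSC_step {y : VR.Ideal} (h : WSC_c vtx t y.1 = x) {k : Fin 4} (hk : x (vtx t k) = 0) :
    WSC_Rel G vtx x t (G.nbr t k) := by
  rw [← h, WSC_cv hM] at hk
  have g : VR.Glued G ⟨t, y⟩ ⟨G.nbr t k, ⟨fun j => y.1 ((G.perm t k).symm j), fun j => y.2.1 _,
      (Equiv.sum_comp (G.perm t k).symm y.1).trans y.2.2⟩⟩ :=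
    ⟨k, hk, rfl, fun i => congrArg y.1 (Equiv.symm_apply_apply _ _)⟩
  exact ⟨y, _, h, (WSC_glue hM g).symm.trans h, Quot.sound g⟩

theorem WSC_turn (hx : x ∈ WSC_Z S) {p q : V} (h : ∀ v, x v ≠ 0 → v = p ∨ v = q)
    {d d' : T × Fin 4 × Fin 4} (e : Relation.EqvGen (VR.Turn G) d d') :
    ((vtx d.1 d.2.1 = p ∧ vtx d.1 d.2.2 = q) ↔ (vtx d'.1 d'.2.1 = p ∧ vtx d'.1 d'.2.2 = q)) ∧
      ((vtx d.1 d.2.1 = p ∧ vtx d.1 d.2.2 = q) → WSC_Rel G vtx x d.1 d'.1) := by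
  have ex : ∀ d : T × Fin 4 × Fin 4, (vtx d.1 d.2.1 = p ∧ vtx d.1 d.2.2 = q) →
      ∃ y : VR.Ideal, WSC_c vtx d.1 y.1 = x := fun d hd =>
    WSC_ex hM hx fun v hv => (h v hv).elim (fun e => ⟨_, hd.1.trans e.symm⟩)
      fun e => ⟨_, hd.2.trans e.symm⟩
  induction e with
  | rel d d' e =>
    obtain ⟨k, -, k1, k2, rfl⟩ := e
    refine ⟨by rw [hM.glue _ _ _ k1.symm, hM.glue _ _ _ k2.symm], fun hd => ?_⟩
    obtain ⟨y, hy⟩ := ex d hd
    refine WSC_step hM hy (by_contra fun hk => ?_)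
    exact (h _ hk).elim (fun e => k1 (hM.inj _ (e.trans hd.1.symm)))
      fun e => k2 (hM.inj _ (e.trans hd.2.symm))
  | refl d => exact ⟨Iff.rfl, fun hd => let ⟨y, hy⟩ := ex d hd; ⟨y, y, hy, hy, rfl⟩⟩
  | symm d d' _ ih => exact ⟨ih.1.symm, fun hd => (ih.2 (ih.1.2 hd)).symm⟩
  | trans d d' d'' _ _ i1 i2 =>
    exact ⟨i1.1.trans i2.1, fun hd => (i1.2 hd).trans hM (i2.2 (i1.1.1 hd))⟩

theorem WSC_red (t : T) {i j : Fin 4} (h : (i.val + j.val) % 2 = 1) :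
    S.red (vtx t i) (vtx t j) ↔ i.val / 2 = j.val / 2 := by
  obtain ⟨k, -, -, -, -, -, -, c1, c2, c3, c4⟩ := hM.tet t
  have d1 := VC.rsymm.1 c1
  have d2 := mt VC.rsymm.1 c2
  have d3 := VC.rsymm.1 c3
  have d4 := mt VC.rsymm.1 c4
  fin_cases i <;> fin_cases j <;> first
    | exact absurd h (by decide)
    | exact iff_of_true (by assumption) (by decide)
    | exact iff_of_false (by assumption) (by decide)

theorem WSC_cl {i j i' j' : Fin 4} (h1 : vtx t' i' = vtx t i) (h2 : vtx t' j' = vtx t j) :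
    WSC_col i j i' j' := fun e e' => by
  rw [← WSC_red hM t e, ← WSC_red hM t' e', h1, h2]

theorem WSC_nn {i j i' j' : Fin 4} (h1 : vtx t' i' = vtx t i) (h2 : vtx t' j' = vtx t j)
    (h : i ≠ j) : i' ≠ j' := fun e => h (hM.inj t (by rw [← h1, ← h2, e]))

theorem WSC_cy {i j l i' j' l' : Fin 4} (h1 : vtx t' i' = vtx t i) (h2 : vtx t' j' = vtx t j)
    (h3 : vtx t' l' = vtx t l) (h : cyc i j l) : cyc i' j' l' := by
  obtain ⟨n1, n2, n3⟩ := cyc_ne h
  refine (cyc_total (WSC_nn hM h1 h2 n1) (WSC_nn hM h2 h3 n2) (WSC_nn hM h1 h3 n3)).resolve_right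
    fun e => cyc_asymm (hM.face t h).cyc ?_
  rw [← h1, ← h2, ← h3]
  exact (hM.face t' e).cyc

variable (hV : VR.Veering G red)
include hV

theorem WSC_e2 {i j i' j' : Fin 4} (h1 : vtx t' i' = vtx t i) (h2 : vtx t' j' = vtx t j)
    (h : i ≠ j) (hp : WSC_par i j i' j') : t = t' := by
  have e := hM.dart t i j t' i' j' h h1.symm h2.symm
  rcases WSC_d2 i j i' j' h (WSC_nn hM h1 h2 h) hp with k | k
  · exact congrArg Prod.fst ((hV.bottom (t, i, j) h).unique ⟨.refl _, k.1⟩ ⟨e, k.2⟩)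
  · exact congrArg Prod.fst ((hV.top (t, i, j) h).unique ⟨.refl _, k.1⟩ ⟨e, k.2⟩)

theorem WSC_e3 {i j l k i' j' l' k' : Fin 4} (h1 : vtx t' i' = vtx t i) (h2 : vtx t' j' = vtx t j)
    (h3 : vtx t' l' = vtx t l) (n1 : i ≠ j) (n2 : l ≠ i) (n3 : l ≠ j) (n4 : k ≠ i) (n5 : k ≠ j)
    (n6 : k ≠ l) (m4 : k' ≠ i') (m5 : k' ≠ j') (m6 : k' ≠ l') (hp : k.val % 2 = k'.val % 2) :
    t = t' := by
  rcases WSC_d3 i j l k ⟨n1, n2, n3, n4, n5, n6⟩ i' j' l' k' ⟨WSC_nn hM h1 h2 n1,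
    WSC_nn hM h3 h1 n2, WSC_nn hM h3 h2 n3, m4, m5, m6⟩ (WSC_cy hM h1 h2 h3) (WSC_cy hM h1 h3 h2)
    (WSC_cl hM h1 h2) (WSC_cl hM h2 h3) (WSC_cl hM h3 h1) hp with e | e | e
  exacts [WSC_e2 hM hV h1 h2 n1 e, WSC_e2 hM hV h2 h3 n3.symm e, WSC_e2 hM hV h3 h1 n2 e]

theorem WSC_e4 (h : ∀ i, ∃ i', vtx t' i' = vtx t i) : t = t' := by
  choose σ h using h
  exact WSC_e2 hM hV (h 0) (h 2) (by decide) (WSC_d4 _ _ _ _
    (WSC_cy hM (h 0) (h 1) (h 2) (by decide)) (WSC_cy hM (h 2) (h 3) (h 0) (by decide))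
    (WSC_cl hM (h 0) (h 1)))

theorem WSC_inj {y y' : VR.Ideal} (h : WSC_c vtx t y.1 = x) (h' : WSC_c vtx t' y'.1 = x) :
    WSC_Rel G vtx x t t' := by
  have hx : x ∈ WSC_Z S := h ▸ WSC_cZ hM t y
  have P : ∀ v, x v ≠ 0 → ∃ i, vtx t i = v := fun v hv => WSC_cs (h ▸ hv)
  have P' : ∀ v, x v ≠ 0 → ∃ i, vtx t' i = v := fun v hv => WSC_cs (h' ▸ hv)
  have r : t = t' → WSC_Rel G vtx x t t' := fun e => e ▸ ⟨y, y, h, h, rfl⟩
  obtain ⟨p, q, hn, hp, hq⟩ := WSC_two hx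
  obtain ⟨i, rfl⟩ := P p hp.ne'
  obtain ⟨j, rfl⟩ := P q hq.ne'
  obtain ⟨i', h1⟩ := P' _ hp.ne'
  obtain ⟨j', h2⟩ := P' _ hq.ne'
  have n1 : i ≠ j := fun e => hn (e ▸ rfl)
  by_cases e : ∀ v, x v ≠ 0 → v = vtx t i ∨ v = vtx t j
  · exact (WSC_turn hM hx e (hM.dart t i j t' i' j' n1 h1.symm h2.symm)).2 ⟨rfl, rfl⟩
  obtain ⟨v, hv⟩ := not_forall.1 e
  rw [Classical.not_imp, not_or] at hv
  obtain ⟨l, rfl⟩ := P v hv.1
  obtain ⟨l', h3⟩ := P' _ hv.1
  have n2 : l ≠ i := fun e => hv.2.1 (e ▸ rfl)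
  have n3 : l ≠ j := fun e => hv.2.2 (e ▸ rfl)
  obtain ⟨k, n4, n5, n6⟩ := WSC_d1 i j l
  obtain ⟨k', m4, m5, m6⟩ := WSC_d1 i' j' l'
  by_cases hk : x (vtx t k) = 0
  swap
  · refine r (WSC_e4 hM hV fun m => ?_)
    rcases WSC_d0 i j l k m n1 n2 n3 n4 n5 n6 with rfl | rfl | rfl | rfl
    exacts [⟨_, h1⟩, ⟨_, h2⟩, ⟨_, h3⟩, P' _ hk]
  by_cases hp : k.val % 2 = k'.val % 2
  · exact r (WSC_e3 hM hV h1 h2 h3 n1 n2 n3 n4 n5 n6 m4 m5 m6 hp)
  have s := (G.perm t k).injective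
  have e1 : G.nbr t k = t' := by
    refine WSC_e3 hM hV (k := G.perm t k k) (h1.trans (hM.glue t k i n4.symm).symm)
      (h2.trans (hM.glue t k j n5.symm).symm) (h3.trans (hM.glue t k l n6.symm).symm)
      (s.ne n1) (s.ne n2) (s.ne n3) (s.ne n4) (s.ne n5) (s.ne n6) m4 m5 m6 ?_
    have := hV.transverse t k
    rw [Nat.even_iff, Nat.odd_iff] at this
    clear * - this hp
    omega
  exact e1 ▸ WSC_step hM h hk

theorem WSC_fin {p q : V} (h : p ≠ q) : {t | ∃ i j, vtx t i = p ∧ vtx t j = q}.Finite := by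
  rcases Set.eq_empty_or_nonempty {t | ∃ i j, vtx t i = p ∧ vtx t j = q} with e | ⟨t, i, j, e⟩
  · rw [e]
    exact Set.finite_empty
  refine ((hV.finite (t, i, j)).image Prod.fst).subset ?_
  rintro t' ⟨i', j', e'⟩
  exact ⟨(t', i', j'), hM.dart t i j t' i' j' (fun k => h (by rw [← e.1, ← e.2, k]))
    (e.1.trans e'.1.symm) (e.2.trans e'.2.symm), rfl⟩

end aux

theorem sc_of_model {T V : Type} [LinearOrder V] {G : VR.Gluing T}
    {red : T × Fin 4 × Fin 4 → Prop} {S : VC V} {vtx : T → Fin 4 → V} (hV : VR.Veering G red)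
    (hM : Model G red S vtx) : SimplyConnectedSpace (VR.Space G) := by
  let φ : VR.Space G → WSC_Z S := Quot.lift (fun a => ⟨WSC_c vtx a.1 a.2.1, WSC_cZ hM _ _⟩)
    fun a b h => Subtype.ext (WSC_glue hM h)
  have := WSC_sc S
  refine (IsHomeomorph.homeomorph φ (isHomeomorph_iff_continuous_isClosedMap_bijective.2
    ⟨?_, fun C hC => ?_, ?_, fun x => ?_⟩)).toHomotopyEquiv.simplyConnectedSpace
  · refine continuous_quot_lift _ (continuous_sigma fun t =>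
      Continuous.subtype_mk (continuous_pi fun v => ?_) _)
    by_cases e : ∃ i, vtx t i = v
    · obtain ⟨i, rfl⟩ := e
      simp only [WSC_cv hM]
      exact (continuous_apply i).comp continuous_subtype_val
    · simp only [WSC_c0 (not_exists.1 e)]
      exact continuous_const
  · have e : φ '' C = ⋃ t, {x | ∃ y : VR.Ideal, Quot.mk _ ⟨t, y⟩ ∈ C ∧ WSC_c vtx t y.1 = x.1} := by
      ext x
      constructor
      · rintro ⟨⟨t, y⟩, h, rfl⟩
        exact Set.mem_iUnion.2 ⟨t, y, h, rfl⟩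
      · intro h
        obtain ⟨t, y, h1, h2⟩ := Set.mem_iUnion.1 h
        exact ⟨_, h1, Subtype.ext h2⟩
    rw [e]
    refine LocallyFinite.isClosed_iUnion (fun x => ?_) fun t => ?_
    · obtain ⟨p, q, hn, hp, hq⟩ := WSC_two x.2
      have ev : ∀ v, 0 < x.1 v → ∀ᶠ z : WSC_Z S in nhds x, 0 < z.1 v := fun v hv =>
        ((continuous_apply v).comp continuous_subtype_val).continuousAt.eventually (lt_mem_nhds hv)
      refine ⟨_, (ev p hp).and (ev q hq), (WSC_fin hM hV hn).subset ?_⟩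
      rintro t ⟨z, ⟨y, -, h⟩, h1, h2⟩
      rw [← h] at h1 h2
      obtain ⟨i, hi⟩ := WSC_cs h1.ne'
      obtain ⟨j, hj⟩ := WSC_cs h2.ne'
      exact ⟨i, j, hi, hj⟩
    · obtain ⟨D, hD, e⟩ := isClosed_induced_iff.1
        (hC.preimage (continuous_quot_mk.comp (continuous_sigmaMk (i := t))))
      have e' : ∀ y : VR.Ideal, y.1 ∈ D ↔ Quot.mk _ ⟨t, y⟩ ∈ C := fun y => Set.ext_iff.1 e y
      have e2 : {x : WSC_Z S | ∃ y : VR.Ideal, Quot.mk _ ⟨t, y⟩ ∈ C ∧ WSC_c vtx t y.1 = x.1} =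
          (⋂ v ∈ {v | ∀ i, vtx t i ≠ v}, {x | x.1 v = 0}) ∩
            (fun x i => x.1 (vtx t i)) ⁻¹' D := by
        ext x
        constructor
        · rintro ⟨y, h1, h2⟩
          refine ⟨Set.mem_iInter₂.2 fun v hv => ?_, ?_⟩
          · change x.1 v = 0
            rw [← h2, WSC_c0 hv]
          · change (fun i => x.1 (vtx t i)) ∈ D
            simp only [← h2, WSC_cv hM]
            exact (e' y).2 h1
        · rintro ⟨h1, h2⟩
          obtain ⟨y, hy⟩ := WSC_ex hM (t := t) x.2 fun v hv =>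
            by_contra fun k => hv (Set.mem_iInter₂.1 h1 v (not_exists.1 k))
          refine ⟨y, (e' y).1 ?_, hy⟩
          change (fun i => x.1 (vtx t i)) ∈ D at h2
          simpa only [← hy, WSC_cv hM] using h2
      rw [e2]
      exact (isClosed_biInter fun v _ => isClosed_eq
        ((continuous_apply v).comp continuous_subtype_val) continuous_const).inter (hD.preimage
          (continuous_pi fun i => (continuous_apply _).comp continuous_subtype_val))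
  · rintro ⟨t, y⟩ ⟨t', y'⟩ h
    have h' : WSC_c vtx t y.1 = WSC_c vtx t' y'.1 := congrArg Subtype.val h
    obtain ⟨z, z', h1, h2, h3⟩ := WSC_inj hM hV h' rfl
    obtain rfl := WSC_ci hM (h1.trans h'.symm)
    obtain rfl := WSC_ci hM h2
    exact h3
  · obtain ⟨t, y, h⟩ := WSC_sur hM x.2
    exact ⟨Quot.mk _ ⟨t, y⟩, Subtype.ext h⟩

end Pool.Agent.Work.MP_3d425c_gt.Bor
end

-- merged part: Pool.Agent.Work.MP_3d425c_gt.VI2
section
/-! The veering triangulation of the once-punctured torus bundle with monodromy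
`[[2, 1], [1, 1]]`. -/

namespace Pool.Agent.Work.MP_3d425c_gt.Inst
open Classical PA Bor

variable {V Γ : Type} [LinearOrder V] [Group Γ] [MulAction Γ V] {E E' : V → V → Prop}
  {X Y : V → ℤ}

theorem Iso.ideal {f : Equiv.Perm V} (hf : Iso E E' f) (hE : IdealTri E) : IdealTri E' where
  symm a b h := by
    obtain ⟨a, rfl⟩ := f.surjective a
    obtain ⟨b, rfl⟩ := f.surjective b
    exact (hf.1 _ _).2 (hE.symm _ _ ((hf.1 _ _).1 h))
  nocross a b c d h1 h2 h3 h4 := by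
    obtain ⟨a, rfl⟩ := f.surjective a
    obtain ⟨b, rfl⟩ := f.surjective b
    obtain ⟨c, rfl⟩ := f.surjective c
    obtain ⟨d, rfl⟩ := f.surjective d
    exact hE.nocross a b c d ((hf.1 _ _).1 h1) ((hf.1 _ _).1 h2) ((hf.2 _ _ _).1 h3)
      ((hf.2 _ _ _).1 h4)
  apex a b h := by
    obtain ⟨a, rfl⟩ := f.surjective a
    obtain ⟨b, rfl⟩ := f.surjective b
    obtain ⟨c, h1, h2, h3⟩ := hE.apex a b ((hf.1 _ _).1 h)
    exact ⟨f c, (hf.2 _ _ _).2 h1, (hf.1 _ _).2 h2, (hf.1 _ _).2 h3⟩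
  fin u v := by
    obtain ⟨u, rfl⟩ := f.surjective u
    obtain ⟨v, rfl⟩ := f.surjective v
    refine ((hE.fin u v).image (Prod.map f f)).subset ?_
    rintro ⟨a, b⟩ ⟨h1, h2, h3⟩
    obtain ⟨a, rfl⟩ := f.surjective a
    obtain ⟨b, rfl⟩ := f.surjective b
    exact ⟨(a, b), ⟨(hf.1 _ _).1 h1, (hf.2 _ _ _).1 h2, (hf.2 _ _ _).1 h3⟩, rfl⟩
  ne := let ⟨a, b, h⟩ := hE.ne; ⟨f a, f b, (hf.1 _ _).2 h⟩

theorem orbits_fin (hD : Dev E X Y) (mv : ∀ p q p' q', E p q → E p' q' →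
    X p' - X q' = X p - X q → Y p' - Y q' = Y p - Y q → ∃ g : Γ, g • p = p' ∧ g • q = q') :
    ∃ F : Set (V × V), F.Finite ∧ ∀ a b, E a b → ∃ g : Γ, (g • a, g • b) ∈ F := by
  have h : ∀ t : ℤ × ℤ, ∃ o : Option (V × V), ∀ a b, E a b → (X a - X b, Y a - Y b) = t →
      ∃ g : Γ, o = some (g • a, g • b) := fun t => by
    by_cases e : ∃ a b, E a b ∧ (X a - X b, Y a - Y b) = t
    · obtain ⟨p, q, e1, e2⟩ := e
      refine ⟨some (p, q), fun a b h1 h2 => ?_⟩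
      obtain ⟨h3, h4⟩ := Prod.ext_iff.1 (e2.trans h2.symm)
      obtain ⟨g, rfl, rfl⟩ := mv a b p q h1 e1 h3 h4
      exact ⟨g, rfl⟩
    · exact ⟨none, fun a b h1 h2 => absurd ⟨a, b, h1, h2⟩ e⟩
  choose o ho using h
  refine ⟨some ⁻¹' (o '' Set.Icc (-1, -1) (1, 1)), ((Set.finite_Icc _ _).image o).preimage
    (Option.some_injective _).injOn, fun a b h => ?_⟩
  obtain ⟨g, hg⟩ := ho _ a b h rfl
  have := hD.dir a b h
  exact ⟨g, _, ⟨⟨by dsimp only; omega, by dsimp only; omega⟩, by dsimp only; omega,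
    by dsimp only; omega⟩, hg⟩

theorem num_edge {φ : ℝ} (φ1 : 1 < φ) (φ2 : φ < 2) {s m n m' : ℤ} (hs : s = 0 ∨ s = 1)
    (h : (m = 1 ∧ n = 0) ∨ (m = 0 ∧ n = 1) ∨ (m = -1 ∧ n = 1) ∨ (m = -1 ∧ n = 0) ∨
      (m = 0 ∧ n = -1) ∨ (m = 1 ∧ n = -1)) (e : m' = m + s * n) :
    (m' : ℝ) - φ * n ≠ 0 ∧ φ * m' + n ≠ 0 ∧
      (m', n, s) ∈ Set.Icc ((-1, -1, 0) : ℤ × ℤ × ℤ) (1, 1, 1) := by
  subst e
  rcases hs with rfl | rfl <;>
    rcases h with ⟨rfl, rfl⟩ | ⟨rfl, rfl⟩ | ⟨rfl, rfl⟩ | ⟨rfl, rfl⟩ | ⟨rfl, rfl⟩ | ⟨rfl, rfl⟩ <;>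
    refine ⟨fun e => ?_, fun e => ?_, by decide⟩ <;> push_cast at e <;> linarith

theorem num_face {φ a b c : ℝ} (φ1 : 1 < φ) {s m n m' n' k k' : ℤ} (hs : s = 0 ∨ s = 1)
    (h : (m = 1 ∧ n = 0) ∨ (m = 0 ∧ n = 1) ∨ (m = -1 ∧ n = 1) ∨ (m = -1 ∧ n = 0) ∨
      (m = 0 ∧ n = -1) ∨ (m = 1 ∧ n = -1)) (h1 : m' = -n) (h2 : n' = m + n) (e : k = m + s * n)
    (e' : k' = m' + s * n') (r1 : ¬ k ^ 2 - k * n - n ^ 2 < 0) (r2 : k' ^ 2 - k' * n' - n' ^ 2 < 0)
    (b1 : a - b = k - φ * n) (b2 : a - c = k' - φ * n') : (b < a ↔ b < c) ∧ (a < c ↔ b < c) := by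
  subst h1 h2 e e'
  rcases hs with rfl | rfl <;>
    rcases h with ⟨rfl, rfl⟩ | ⟨rfl, rfl⟩ | ⟨rfl, rfl⟩ | ⟨rfl, rfl⟩ | ⟨rfl, rfl⟩ | ⟨rfl, rfl⟩ <;>
    first
    | exact absurd (by decide) r1
    | exact absurd r2 (by decide)
    | (push_cast at b1 b2
       exact ⟨⟨fun _ => by linarith, fun _ => by linarith⟩, fun _ => by linarith,
        fun _ => by linarith⟩)

theorem num_tet (hD : Dev E X Y) {red : V → V → Prop}
    (rq : ∀ p q m n, X p - X q = m → Y p - Y q = n → (red p q ↔ m ^ 2 - m * n - n ^ 2 < 0))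
    {s : ℤ} (hs : s = 0 ∨ s = 1) {h : V → V} (e2 : ∀ v, X (h v) = X v + s * Y v ∧ Y (h v) = Y v)
    {a c b d : V} (q : Sq E X Y a c b d) :
    red (h a) (h c) ∧ ¬ red (h c) (h b) ∧ red (h b) (h d) ∧ ¬ red (h d) (h a) := by
  have a1 := e2 a
  have a2 := e2 b
  have a3 := e2 c
  have a4 := e2 d
  rcases PI3_num hD q with n | n
  · rw [rq (h a) (h c) s 1 (by rcases hs with rfl | rfl <;> omega) (by omega),
      rq (h c) (h b) (-1) 0 (by rcases hs with rfl | rfl <;> omega) (by omega),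
      rq (h b) (h d) (-s) (-1) (by rcases hs with rfl | rfl <;> omega) (by omega),
      rq (h d) (h a) 1 0 (by rcases hs with rfl | rfl <;> omega) (by omega)]
    rcases hs with rfl | rfl <;> norm_num
  · rw [rq (h a) (h c) (-s) (-1) (by rcases hs with rfl | rfl <;> omega) (by omega),
      rq (h c) (h b) 1 0 (by rcases hs with rfl | rfl <;> omega) (by omega),
      rq (h b) (h d) s 1 (by rcases hs with rfl | rfl <;> omega) (by omega),
      rq (h d) (h a) (-1) 0 (by rcases hs with rfl | rfl <;> omega) (by omega)]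
    rcases hs with rfl | rfl <;> norm_num

theorem veer_inst (hE : IdealTri E) (hD : Dev E X Y) {w a : V} (hwa : E w a)
    (hX : X a = X w + 1) (hY : Y a = Y w) {φ : ℝ} (hφ : φ ^ 2 = φ + 1) (φ0 : 0 < φ)
    {deg : Γ → ℤ} {ν : Γ} (hd : ∀ g h, deg (g * h) = deg g + deg h)
    (ori : ∀ (g : Γ) (a b c : V), cyc a b c → cyc (g • a) (g • b) (g • c))
    (hK : ∀ g : Γ, deg g = 0 → Iso E E (MulAction.toPerm g) ∧ Tr X Y fun v => g • v)
    (faith : ∀ g : Γ, deg g = 0 → (∀ v : V, g • v = v) → g = 1)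
    (real : ∀ π, Iso E E π → Tr X Y π → ∃ g : Γ, deg g = 0 ∧ ∀ v, g • v = π v) (dν : deg ν = 1)
    {f g : Equiv.Perm V} (hf : Iso E (FE E X Y) f) (hg : Iso E (FE E X Y) g)
    (hν : ∀ v, ν • v = f (g v)) (f3 : ∀ v, X (f v) = X v + Y v ∧ Y (f v) = Y v)
    (g3 : ∀ v, X (g v) = X v ∧ Y (g v) = X v + Y v) :
    ∃ (K : ℤ → V → V → Prop) (red up : V → V → Prop),
      VT.Veering K red up (fun k : Γ => 2 * deg k) ∧ K 0 = E ∧
      ∀ p q m n, X p - X q = m → Y p - Y q = n → (red p q ↔ m ^ 2 - m * n - n ^ 2 < 0) := by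
  have φ1 : 1 < φ := by nlinarith
  have φ2 : φ < 2 := by nlinarith
  have hF := flip_tri hE hD
  have hD' := flip_dev hE hD
  obtain ⟨x, hx⟩ : ∃ x : V → ℝ, ∀ v, x v = X v - φ * Y v := ⟨_, fun _ => rfl⟩
  obtain ⟨y, hy⟩ : ∃ y : V → ℝ, ∀ v, y v = φ * X v + Y v := ⟨_, fun _ => rfl⟩
  have xd : ∀ {p q} {m n : ℤ}, X p - X q = m → Y p - Y q = n →
      x p - x q = m - φ * n ∧ y p - y q = φ * m + n := fun h1 h2 => by
    rw [hx, hx, hy, hy, ← h1, ← h2]
    push_cast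
    constructor <;> ring
  have L0 : 0 < φ ^ 2 := by positivity
  have sc : ∀ (k : Γ) p q, (φ ^ 2) ^ deg k * (x (k • p) - x (k • q)) = x p - x q ∧
      y (k • p) - y (k • q) = (φ ^ 2) ^ deg k * (y p - y q) := by
    have s1 : ∀ p q, φ ^ 2 * (x (ν • p) - x (ν • q)) = x p - x q ∧
        y (ν • p) - y (ν • q) = φ ^ 2 * (y p - y q) := fun p q => by
      obtain ⟨a1, a2⟩ := xd (p := ν • p) (q := ν • q) (m := 2 * (X p - X q) + (Y p - Y q))
        (n := X p - X q + (Y p - Y q))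
        (by rw [hν, hν, (f3 _).1, (f3 _).1, (g3 _).1, (g3 _).1, (g3 _).2, (g3 _).2]; ring)
        (by rw [hν, hν, (f3 _).2, (f3 _).2, (g3 _).2, (g3 _).2]; ring)
      obtain ⟨b1, b2⟩ := xd (p := p) (q := q) rfl rfl
      rw [a1, a2, b1, b2]
      push_cast
      constructor
      · linear_combination ((1 - φ) * ((X p : ℝ) - X q) - φ * ((Y p : ℝ) - Y q)) * hφ
      · linear_combination (-(φ + 1) * ((X p : ℝ) - X q) - ((Y p : ℝ) - Y q)) * hφ
    have s2 : ∀ (n : ℤ) p q, (φ ^ 2) ^ n * (x (ν ^ n • p) - x (ν ^ n • q)) = x p - x q ∧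
        y (ν ^ n • p) - y (ν ^ n • q) = (φ ^ 2) ^ n * (y p - y q) := fun n => by
      induction n using Int.induction_on with
      | zero => simp
      | succ n ih =>
        intro p q
        rw [zpow_add_one, mul_smul, mul_smul, (ih _ _).2, (s1 _ _).2, zpow_add_one₀ L0.ne',
          mul_comm _ (φ ^ 2), mul_assoc, (ih _ _).1, (s1 _ _).1]
        exact ⟨rfl, by ring⟩
      | pred n ih =>
        intro p q
        obtain ⟨a1, a2⟩ := s1 (ν⁻¹ • p) (ν⁻¹ • q)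
        rw [smul_inv_smul, smul_inv_smul] at a1 a2
        rw [zpow_sub_one, mul_smul, mul_smul, (ih _ _).2, zpow_sub_one₀ L0.ne',
          mul_comm _ (φ ^ 2)⁻¹, mul_assoc, (ih _ _).1, ← a1, a2]
        constructor <;> field_simp
    intro k p q
    obtain ⟨s, t, h⟩ := (hK (k * ν ^ (-deg k)) (by rw [hd, PI10_dpow hd, dν]; omega)).2
    have e : ∀ v : V, k • v = (k * ν ^ (-deg k)) • ν ^ deg k • v := fun v => by
      rw [← mul_smul, mul_assoc, ← zpow_add, neg_add_cancel, zpow_zero, mul_one]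
    have a1 := h (ν ^ deg k • p)
    have a2 := h (ν ^ deg k • q)
    simp only [← e] at a1 a2
    obtain ⟨b1, b2⟩ := xd (p := k • p) (q := k • q) (m := X (ν ^ deg k • p) - X (ν ^ deg k • q))
      (n := Y (ν ^ deg k • p) - Y (ν ^ deg k • q)) (by omega) (by omega)
    obtain ⟨c1, c2⟩ := xd (p := ν ^ deg k • p) (q := ν ^ deg k • q) rfl rfl
    rw [b1, b2, ← c1, ← c2]
    exact s2 _ p q
  obtain ⟨red, hred⟩ : ∃ red : V → V → Prop, ∀ p q, red p q ↔ (x p - x q) * (y p - y q) < 0 :=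
    ⟨_, fun _ _ => Iff.rfl⟩
  have rq : ∀ p q m n, X p - X q = m → Y p - Y q = n → (red p q ↔ m ^ 2 - m * n - n ^ 2 < 0) :=
    fun p q m n h1 h2 => by
      rw [hred, (xd h1 h2).1, (xd h1 h2).2, show (m - φ * n) * (φ * m + n) =
        φ * ((m ^ 2 - m * n - n ^ 2 : ℤ) : ℝ) by push_cast; linear_combination (-m * n) * hφ,
        mul_neg_iff, Int.cast_lt_zero]
      exact ⟨fun h => h.elim (·.2) fun k => absurd k.1 φ0.not_gt, fun h => Or.inl ⟨φ0, h⟩⟩
  have rs : ∀ (k : Γ) p q, red (k • p) (k • q) ↔ red p q := fun k p q => by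
    rw [hred, hred, (sc k p q).2, ← (sc k p q).1]
    constructor <;> intro h <;> linarith
  have us : ∀ (k : Γ) p q, x (k • p) < x (k • q) ↔ x p < x q := fun k p q => by
    rw [← sub_neg, ← sub_neg (a := x p), ← (sc k p q).1, mul_neg_iff]
    have := zpow_pos L0 (deg k)
    exact ⟨fun h => Or.inl ⟨this, h⟩, fun h => h.elim (·.2) fun k => absurd k.1 this.not_gt⟩
  obtain ⟨L, L0', L1, L2⟩ : ∃ L : ℤ → V → V → Prop, L 0 = E ∧ L 1 = FE E X Y ∧
      ∀ r (k : Γ), deg k = 0 → ∀ p q, L r (k • p) (k • q) ↔ L r p q :=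
    ⟨fun r => if r = 0 then E else FE E X Y, if_pos rfl, if_neg one_ne_zero, fun r k h p q => by
      beta_reduce
      split_ifs
      exacts [(hK k h).1.1 p q, ((hK k h).1.toFE (hK k h).2).1 p q]⟩
  obtain ⟨K, hKi⟩ : ∃ K : ℤ → V → V → Prop, ∀ i p q,
      K i p q ↔ L (i % 2) (ν ^ (-(i / 2)) • p) (ν ^ (-(i / 2)) • q) := ⟨_, fun _ _ _ => Iff.rfl⟩
  have Ks : ∀ (k : Γ) i p q, K (i + 2 * deg k) (k • p) (k • q) ↔ K i p q := fun k i p q => by
    have e : ∀ v : V, ν ^ (-(i / 2 + deg k)) • k • v =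
        (ν ^ (-(i / 2 + deg k)) * k * ν ^ (i / 2)) • ν ^ (-(i / 2)) • v := fun v => by
      rw [← mul_smul, ← mul_smul]
      congr 1
      group
    rw [hKi, hKi, show (i + 2 * deg k) % 2 = i % 2 by omega,
      show (i + 2 * deg k) / 2 = i / 2 + deg k by omega, e, e,
      L2 _ _ (by rw [hd, hd, PI10_dpow hd, PI10_dpow hd, dν]; omega)]
  have K0 : K 0 = E := by
    ext p q
    simp [hKi, L0']
  have K1 : K 1 = FE E X Y := by
    ext p q
    simp [hKi, L1]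
  have oi : ∀ (k : Γ) a b c, cyc (k • a) (k • b) (k • c) ↔ cyc a b c := fun k a b c =>
    ⟨fun h => by simpa using ori k⁻¹ _ _ _ h, ori k a b c⟩
  have lay : ∀ i, ∃ (π : Equiv.Perm V) (k : Γ) (s : ℤ) (h : V → V), (s = 0 ∨ s = 1) ∧
      Iso E (K i) π ∧ Iso (FE E X Y) (K (i + 1)) π ∧ (∀ v, π v = k • h v) ∧
      (∀ v, X (h v) = X v + s * Y v ∧ Y (h v) = Y v) ∧ i = 2 * deg k + s := fun i => by
    have dn : deg (ν ^ (i / 2)) = i / 2 := by rw [PI10_dpow hd, dν, mul_one]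
    rcases Int.emod_two_eq_zero_or_one i with e | e
    · refine ⟨MulAction.toPerm (ν ^ (i / 2)), ν ^ (i / 2), 0, id, Or.inl rfl,
        ⟨fun p q => ?_, oi _⟩, ⟨fun p q => ?_, oi _⟩, fun _ => rfl, by simp, by omega⟩
      · have := Ks (ν ^ (i / 2)) 0 p q
        rwa [K0, show 0 + 2 * deg (ν ^ (i / 2)) = i by omega] at this
      · have := Ks (ν ^ (i / 2)) 1 p q
        rwa [K1, show 1 + 2 * deg (ν ^ (i / 2)) = i + 1 by omega] at this
    · have c : ∀ a b c, cyc (ν ^ (i / 2) • f a) (ν ^ (i / 2) • f b) (ν ^ (i / 2) • f c) ↔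
          cyc a b c := fun a b c => (oi _ _ _ _).trans (hf.2 a b c)
      refine ⟨MulAction.toPerm (ν ^ (i / 2)) * f, ν ^ (i / 2), 1, f, Or.inr rfl,
        ⟨fun p q => ?_, c⟩, ⟨fun p q => ?_, c⟩, fun _ => rfl, by simpa using f3, by omega⟩
      · have := Ks (ν ^ (i / 2)) 1 (f p) (f q)
        rwa [K1, hf.1, show 1 + 2 * deg (ν ^ (i / 2)) = i by omega] at this
      · obtain ⟨p, rfl⟩ := g.surjective p
        obtain ⟨q, rfl⟩ := g.surjective q
        have := Ks (ν ^ (i / 2) * ν) 0 p q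
        rwa [K0, ← hg.1, mul_smul, mul_smul, hν, hν,
          show 0 + 2 * deg (ν ^ (i / 2) * ν) = i + 1 by rw [hd]; omega] at this
  have tet : ∀ i (π : Equiv.Perm V) (k : Γ) (s : ℤ) (h : V → V), (s = 0 ∨ s = 1) →
      Iso E (K i) π → Iso (FE E X Y) (K (i + 1)) π → (∀ v, π v = k • h v) →
      (∀ v, X (h v) = X v + s * Y v ∧ Y (h v) = Y v) → ∀ a c b d, Sq E X Y a c b d →
      VT.Tet K red i (π a) (π c) (π b) (π d) := by
    intro i π k s h hs i1 i2 e1 e2 a c b d q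
    have t1 := (PI3_sq hD q).1
    have t2 := (PI3_sq hD (PI3_swap q)).1
    refine ⟨(i1.2 _ _ _).2 q.1.1, (i1.2 _ _ _).2 q.2.1.1, (i1.1 _ _).2 q.1.2.2.2,
      (i2.1 _ _).2 t1.2.2.2, ⟨(i1.1 _ _).2 q.1.2.1, (i1.1 _ _).2 q.1.2.2.1,
        (i1.1 _ _).2 q.2.1.2.1, (i1.1 _ _).2 q.2.1.2.2.1⟩, ⟨(i2.1 _ _).2 t2.2.2.1,
        (i2.1 _ _).2 t1.2.1, (i2.1 _ _).2 t1.2.2.1, (i2.1 _ _).2 t2.2.1⟩, ?_⟩
    simp only [e1, rs]
    exact num_tet hD rq hs e2 q
  have edge : ∀ i p q, K i p q → x p ≠ x q ∧ ∃ t ∈ Set.Icc ((-1, -1, 0) : ℤ × ℤ × ℤ) (1, 1, 1),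
      φ * t.1 + t.2.1 ≠ 0 ∧ ∃ d : ℤ, i = 2 * d + t.2.2 ∧
        y p - y q = (φ ^ 2) ^ d * (φ * t.1 + t.2.1) := fun i p q h => by
    obtain ⟨π, k, s, h', hs, i1, -, e1, e2, e3⟩ := lay i
    obtain ⟨p, rfl⟩ := π.surjective p
    obtain ⟨q, rfl⟩ := π.surjective q
    obtain ⟨b1, b2⟩ := xd (p := h' p) (q := h' q) (m := X p - X q + s * (Y p - Y q))
      (n := Y p - Y q) (by rw [(e2 p).1, (e2 q).1]; ring) (by rw [(e2 p).2, (e2 q).2])
    obtain ⟨c1, c2⟩ := sc k (h' p) (h' q)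
    obtain ⟨k1, k2, k3⟩ := num_edge φ1 φ2 hs (hD.dir p q ((i1.1 _ _).1 h)) rfl
    rw [e1, e1]
    refine ⟨fun e => k1 ?_, _, k3, k2, _, e3, by rw [c2, b2]⟩
    rw [← b1, ← c1, e, sub_self, mul_zero]
  have idl : ∀ i, IdealTri (K i) := fun i => let ⟨_, _, _, _, _, h, _⟩ := lay i; h.ideal hE
  refine ⟨K, red, fun p q => x p < x q, ⟨fun i => ⟨(idl i).symm, (idl i).nocross, (idl i).apex,
    (idl i).fin, (idl i).ne⟩, fun p q h => ?_, fun i p q h => ?_, fun i p q h => ?_,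
    fun p q => ?_, fun i p q h => ?_, fun u p q ⟨c, i, h1, h2, h3⟩ r1 r2 => ?_, ori,
    fun k p q r ⟨c, i, h1, h2, h3⟩ => ⟨ori k _ _ _ c, _, (Ks k i _ _).2 h1, (Ks k i _ _).2 h2,
      (Ks k i _ _).2 h3⟩, fun k _ p q _ => rs k p q, fun k _ p q _ => by simp [us],
    fun k l => by rw [hd, mul_add], fun k i p q h e1 e2 => ?_, ?_⟩, K0, rq⟩
  · rw [hred] at h ⊢
    linarith
  · obtain ⟨π, k, s, h', hs, i1, i2, e1, e2, -⟩ := lay i
    obtain ⟨p, rfl⟩ := π.surjective p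
    obtain ⟨q, rfl⟩ := π.surjective q
    have h := (i1.1 _ _).1 h
    by_cases e : X p + Y p = X q + Y q
    · obtain ⟨c, hc⟩ := exists_Tri hE h
      obtain ⟨d, hd⟩ := exists_Tri hE (hE.symm _ _ h)
      exact Or.inr ⟨_, _, tet i π k s h' hs i1 i2 e1 e2 p c q d ⟨hc, hd, e⟩⟩
    · exact Or.inl ((i2.1 _ _).2 (Or.inl ⟨h, e⟩))
  · obtain ⟨π, k, s, h', hs, i1, i2, e1, e2, -⟩ := lay i
    obtain ⟨p, rfl⟩ := π.surjective p
    obtain ⟨q, rfl⟩ := π.surjective q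
    rcases (i2.1 _ _).1 h with h | ⟨a, b, h⟩
    · exact Or.inl ((i1.1 _ _).2 h.1)
    · exact Or.inr ⟨_, _, tet i π k s h' hs i1 i2 e1 e2 a p b q h⟩
  · refine ((Set.finite_Icc ((-1, -1, 0) : ℤ × ℤ × ℤ) (1, 1, 1)).biUnion
      (t := fun t => {i | φ * t.1 + t.2.1 ≠ 0 ∧ ∃ d : ℤ, i = 2 * d + t.2.2 ∧
        y p - y q = (φ ^ 2) ^ d * (φ * t.1 + t.2.1)}) fun t _ => Set.Subsingleton.finite ?_).subset
      fun i hi => ?_
    · rintro _ ⟨h, d, rfl, h1⟩ _ ⟨-, d', rfl, h2⟩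
      rw [zpow_right_injective₀ L0 (by nlinarith) (mul_right_cancel₀ h (h1.symm.trans h2))]
    · obtain ⟨-, t, t1, t2⟩ := edge i p q hi
      exact Set.mem_biUnion t1 t2
  · exact ⟨fun k => k.le.not_gt, fun k => lt_of_le_of_ne (not_lt.1 k) (edge i p q h).1.symm⟩
  · obtain ⟨π, k, s, h', hs, i1, -, e1, e2, -⟩ := lay i
    obtain ⟨u, rfl⟩ := π.surjective u
    obtain ⟨p, rfl⟩ := π.surjective p
    obtain ⟨q, rfl⟩ := π.surjective q
    have n1 := hD.rule u p q ⟨(i1.2 _ _ _).1 c, (i1.1 _ _).1 h1, (i1.1 _ _).1 h2,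
      hE.symm _ _ ((i1.1 _ _).1 h3)⟩
    have a1 : ∀ p, X (h' u) - X (h' p) = X u - X p + s * (Y u - Y p) ∧
        Y (h' u) - Y (h' p) = Y u - Y p := fun p =>
      ⟨by rw [(e2 p).1, (e2 u).1]; ring, by rw [(e2 p).2, (e2 u).2]⟩
    simp only [e1, rs, us] at r1 r2 ⊢
    rw [rq _ _ _ _ (a1 _).1 (a1 _).2] at r1 r2
    exact num_face φ1 hs (hD.dir u p ((i1.1 _ _).1 h1)) (by clear * - n1; omega)
      (by clear * - n1; omega) rfl rfl r1 r2 (xd (a1 _).1 (a1 _).2).1 (xd (a1 _).1 (a1 _).2).1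
  · obtain ⟨-, t, -, t1, d, -, t2⟩ := edge i p q h
    have h1 := (sc k p q).2
    rw [e1, e2] at h1
    have h2 : y p - y q ≠ 0 := t2 ▸ mul_ne_zero (zpow_pos L0 d).ne' t1
    have h3 : deg k = 0 := zpow_right_injective₀ L0 (by nlinarith)
      ((mul_right_cancel₀ h2 (h1.symm.trans (one_mul _).symm)).trans (zpow_zero _).symm)
    have h4 : Iso (K i) (K i) (MulAction.toPerm k) := ⟨fun a b => by
      simpa [h3] using Ks k i a b, oi k⟩
    have h5 := h4.ext (idl i) (idl i) Iso.one h e1 e2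
    exact faith k h3 fun v => congrArg (fun f : Equiv.Perm V => f v) h5
  · obtain ⟨F, F1, F2⟩ := orbits_fin (Γ := Γ) hD fun p q p' q' e e' h1 h2 => by
      obtain ⟨π, p1, p2, p3, p4⟩ := exists_iso hE hD e e' h1 h2
      obtain ⟨k, -, k2⟩ := real π p1 p2
      exact ⟨k, (k2 p).trans p3, (k2 q).trans p4⟩
    obtain ⟨F', F1', F2'⟩ := orbits_fin (Γ := Γ) hD' fun p q p' q' e e' h1 h2 => by
      obtain ⟨π, p1, ⟨s, t, p2⟩, p3, p4⟩ := exists_iso hF hD' e e' h1 h2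
      have p5 : Tr X Y π := ⟨s + t, t, fun v => by have := p2 v; beta_reduce at this; omega⟩
      obtain ⟨k, -, k2⟩ := real π (p1.ofFE hE hD hwa hX hY p5) p5
      exact ⟨k, (k2 p).trans p3, (k2 q).trans p4⟩
    refine ⟨F ∪ F', F1.union F1', fun i p q h => ?_⟩
    rw [hKi] at h
    rcases Int.emod_two_eq_zero_or_one i with e | e
    · rw [e, L0'] at h
      obtain ⟨k, hk⟩ := F2 _ _ h
      exact ⟨k * ν ^ (-(i / 2)), Or.inl (by rwa [mul_smul, mul_smul])⟩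
    · rw [e, L1] at h
      obtain ⟨k, hk⟩ := F2' _ _ h
      exact ⟨k * ν ^ (-(i / 2)), Or.inr (by rwa [mul_smul, mul_smul])⟩

end Pool.Agent.Work.MP_3d425c_gt.Inst
end

-- merged part: Pool.Agent.Work.MP_3d425c_gt.VI3
section
/-! The hypotheses on fillings of veering triangulations can be satisfied: the once-punctured
torus bundle with monodromy `[[2, 1], [1, 1]]`. -/

namespace Pool.Agent.Work.MP_3d425c_gt.Inst
open Classical PA Bor

theorem veer_ge {V : Type} [LinearOrder V] (S : VU V) {w : V} {a : ℤ → V}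
    (hF : Fan (S.K 0) w a) (hs : ∀ k, ∃ j, k ≤ j ∧ j < k + 3 ∧ ¬ S.red w (a j) ∧ S.red w (a (j + 1)))
    {u v : V} {k : ℤ} (hu : cle w u (a k)) (hv : cle w (a (k + 9)) v) : 3 ≤ S.prongs w u v := by
  have h1 : ∀ k, S.dir w (a k) + 1 ≤ S.dir w (a (k + 3)) := fun k => by
    obtain ⟨j, j1, j2, j3⟩ := hs k
    have a1 := VU.dir_cle (S := S) (hF.le j1)
    have a2 := VU.dir_cle (S := S) (hF.le (show j + 1 ≤ k + 3 by omega))
    have a3 := VU.Hf_dir (S := S) ⟨⟨(hF j).2.1, (hF j).2.2.2, (hF j).2.2.1, (hF j).1⟩, j3⟩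
    omega
  have a1 := h1 k
  have a2 := h1 (k + 3)
  have a3 := h1 (k + 3 + 3)
  rw [show k + 3 + 3 + 3 = k + 9 by ring] at a3
  have a4 := VU.dir_cle (S := S) hu
  have a5 := VU.dir_cle (S := S) hv
  have a6 := VU.dir_cyc (S := S) (cle_cyc hu (cyc_cle (hF.lt (show k < k + 9 by omega)) hv))
  omega

theorem veer_nonvacuous : ∃ (V Γ Y M ι : Type) (_ : LinearOrder V) (_ : Countable V) (_ : Group Γ)
    (_ : MulAction Γ V) (_ : MulAction Γ Y) (_ : TopologicalSpace Y) (_ : SimplyConnectedSpace Y)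
    (_ : ContinuousConstSMul Γ Y) (_ : TopologicalSpace M) (K : ℤ → V → V → Prop)
    (red up : V → V → Prop) (e : Γ → ℤ) (γ : V → Γ) (p : Y → M) (N : ι → ℂ × Circle → M),
    VT.Veering K red up e ∧ VT.Slopes γ ∧ VT.Filling γ p N ∧
    ∀ w u : V, u ≠ w → |e (γ w)| < (VT.prongs K red w u (γ w • u) : ℤ) ∧
      (e (γ w) ≠ 0 ∨ ∀ g : Γ, g • w = w → VT.prongs K red w u (g • u) ≠ 2) := by
  obtain ⟨V, i1, i2, E, hE⟩ := exists_idealTri
  obtain ⟨w, a₀, h₀⟩ := hE.ne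
  obtain ⟨X, Y, hD, x0, y0, x1, y1⟩ := exists_dev hE h₀
  obtain ⟨a, hF, rfl⟩ := exists_fan hE h₀
  obtain ⟨φ, hφ, φ0, φi⟩ : ∃ φ : ℝ, φ ^ 2 = φ + 1 ∧ 0 < φ ∧ Irrational φ :=
    ⟨_, Real.goldenRatio_sq, Real.goldenRatio_pos, Real.goldenRatio_irrational⟩
  have hinj : ∀ m n : ℤ, φ * m + 1 * n = 0 → m = 0 ∧ n = 0 := fun m n e => by
    have hm : m = 0 := by
      by_contra hm
      exact (φi.mul_intCast hm).ne_int (-n) (by push_cast; linarith)
    subst hm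
    exact ⟨rfl, by simpa using e⟩
  obtain ⟨Γ, i3, i4, i5, i6, deg, ν, hd, ori, vert, str, hK, faith, real, dν, wν, cν, f, g', hf,
    hg, hν, f3, g3⟩ := exists_group2 hE hD (hF 0) x0 y0 x1 y1 hφ
  have ext : ∀ g h : Γ, deg g = 0 → deg h = 0 → ∀ p q, E p q → g • p = h • p → g • q = h • q →
      g = h := fun g h dg dh p q e e1 e2 => by
    have := (hK g dg).2.1.ext hE hE (hK h dh).2.1 e e1 e2
    rw [← inv_mul_eq_one]
    refine faith _ (by rw [hd, PI10_dinv hd, dg, dh]; rfl) fun v => ?_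
    rw [mul_smul, inv_smul_eq_iff]
    exact (congrArg (fun f : Equiv.Perm V => f v) this).symm
  have move : ∀ p q p' q', E p q → E p' q' → X p' - X q' = X p - X q → Y p' - Y q' = Y p - Y q →
      ∃ g : Γ, deg g = 0 ∧ g • p = p' ∧ g • q = q' := fun p q p' q' e e' h1 h2 => by
    obtain ⟨f, f1, f2, f3, f4⟩ := exists_iso hE hD e e' h1 h2
    obtain ⟨g, g1, g2⟩ := real f f1 f2
    exact ⟨g, g1, (g2 p).trans f3, (g2 q).trans f4⟩
  have ole : ∀ (g : Γ) (v p q : V), cle v p q → cle (g • v) (g • p) (g • q) :=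
    fun g v p q h => h.imp (congrArg _) (ori g _ _ _)
  have six := hF.six hE hD 0
  simp only [zero_add] at six
  obtain ⟨l, dl, lw, la⟩ := move w (a 0) w (a (6 * 1)) h₀ (hF _).2.1 (by rw [(six 1).1])
    (by rw [(six 1).2])
  have la : ∀ k, l • a k = a (k + 6) := hF.shift hE (hK l dl).2.1 lw la
  have dlm : ∀ m : ℤ, deg (l ^ m) = 0 := fun m => by rw [PI10_dpow hd, dl, mul_zero]
  have fixz : ∀ g : Γ, g • w = w → ∀ m : ℤ, g ^ m • w = w := fun g h m =>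
    MulAction.mem_stabilizer_iff.1 (zpow_mem (MulAction.mem_stabilizer_iff.2 h) m)
  have lam : ∀ m k : ℤ, l ^ m • a k = a (k + 6 * m) := fun m => by
    induction m with
    | zero => simp
    | succ n ih => intro k; rw [zpow_add_one, mul_smul, la, ih]; congr 1; ring
    | pred n ih =>
      intro k
      rw [zpow_sub_one, mul_smul, show l⁻¹ • a k = a (k - 6) by
        rw [inv_smul_eq_iff, la, sub_add_cancel], ih]
      congr 1
      ring
  have stab : ∀ g : Γ, deg g = 0 → g • w = w → ∃ m : ℤ, g = l ^ m := fun g dg gw => by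
    obtain ⟨-, k1, s, t, k2⟩ := hK g dg
    have e : E (g • w) (g • a 0) := (k1.1 _ _).2 h₀
    rw [gw] at e
    obtain ⟨j, hj⟩ := hF.nbr hE e
    have b1 := k2 w
    have b2 := k2 (a 0)
    simp only [gw, hj] at b1 b2
    obtain ⟨m, rfl⟩ := hF.dvd hE hD (j := j) (by omega) (by omega)
    exact ⟨m, ext _ _ dg (dlm m) _ _ h₀ (by rw [gw, fixz l lw]) (by rw [hj, lam, zero_add])⟩
  have trans : ∀ v, ∃ k : Γ, deg k = 0 ∧ k • w = v := fun v => by
    obtain ⟨u, u1, u2, u3⟩ := exists_dir hE hD v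
    obtain ⟨g, g1, g2, -⟩ := move w (a 0) v u h₀ u1 (by omega) (by omega)
    exact ⟨g, g1, g2⟩
  have fwd : ∀ u, u ≠ w → cyc w u (l • u) := fun u hu => by
    obtain ⟨k, k1, k2⟩ := hF.cof hE hu
    have k3 := ole l _ _ _ k1
    rw [lw, la] at k3
    have k4 := cyc_trans k2 (hF.lt (show k + 1 < k + 6 by omega))
    rcases k3 with k3 | k3
    exacts [k3 ▸ k4, cyc_trans k4 k3]
  have cl : Commute l ν := by
    have wν' : ν⁻¹ • w = w := inv_smul_eq_iff.2 wν.symm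
    obtain ⟨i, hi⟩ := stab (ν * l * ν⁻¹) (by rw [hd, hd, PI10_dinv hd]; omega)
      (by rw [mul_smul, mul_smul, wν', lw, wν])
    obtain ⟨j, hj⟩ := stab (ν⁻¹ * l * ν) (by rw [hd, hd, PI10_dinv hd]; omega)
      (by rw [mul_smul, mul_smul, wν, lw, wν'])
    have e : l ^ (i * j) = l := by
      rw [zpow_mul, ← hi, conj_zpow, ← hj]
      group
    have e1 := lam (i * j) 0
    rw [e, la] at e1
    have e2 := hF.inj e1
    rcases Int.eq_one_or_neg_one_of_mul_eq_one (show i * j = 1 by omega) with rfl | rfl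
    · rw [zpow_one, mul_inv_eq_iff_eq_mul] at hi
      exact hi.symm
    · have b1 := ori l _ _ _ (ori ν _ _ _ (fwd _ (PB1_ne hE h₀).symm))
      have b2 := fwd (ν • a 0) fun h => (PB1_ne hE h₀).symm (smul_left_cancel ν (h.trans wν.symm))
      rw [wν, lw, ← mul_smul ν, mul_inv_eq_iff_eq_mul.1 hi, zpow_neg_one, mul_smul,
        smul_inv_smul] at b1
      exact (cyc_asymm b1 b2).elim
  obtain ⟨j, hj, -⟩ := hF.cof hE (u := ν • a 0)
    fun h => (PB1_ne hE h₀).symm (smul_left_cancel ν (h.trans wν.symm))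
  obtain ⟨n, hn⟩ : ∃ n : ℤ, 15 ≤ j + 6 * n := ⟨(20 - j) / 6, by omega⟩
  obtain ⟨μ, hμ⟩ : ∃ μ, μ = l ^ n * ν := ⟨_, rfl⟩
  have dμ : deg μ = 1 := by rw [hμ, hd, dlm, dν, zero_add]
  have wμ : μ • w = w := by rw [hμ, mul_smul, wν, fixz l lw]
  have cμ : Commute l μ := hμ ▸ ((Commute.refl l).zpow_right n).mul_right cl
  have conμ : Con (fun x : Disc E => μ • x) w w := by
    have := (con_simp (f := MulAction.toPerm (l ^ n)) (hK _ (dlm n)).1 w).comp cν
    simpa only [hμ, mul_smul, MulAction.toPerm_apply, fixz l lw] using this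
  have far : ∀ u, u ≠ w → ∃ k, cle w u (a k) ∧ cle w (a (k + 9)) (μ • u) := fun u hu => by
    obtain ⟨k, k1, k2⟩ := hF.cof hE hu
    refine ⟨k + 1, Or.inr k2, ?_⟩
    have b1 := ole μ _ _ _ (cle_trans (hF.le (show 0 + 6 * (k / 6) ≤ k by omega)) k1)
    have b2 := ole (l ^ (k / 6)) _ _ _ (ole (l ^ n) _ _ _ hj)
    rw [fixz l lw, fixz l lw, lam, lam, ← mul_smul (l ^ n), ← hμ, ← mul_smul,
      (cμ.zpow_left _).eq, mul_smul, lam] at b2
    rw [wμ] at b1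
    exact cle_trans (hF.le (by omega)) (cle_trans b2 b1)
  have cen : ∀ g : Γ, g • w = w → Commute g μ := fun g h => by
    obtain ⟨m, hm⟩ := stab (g * μ ^ (-deg g)) (by rw [hd, PI10_dpow hd, dμ]; omega)
      (by rw [mul_smul, fixz μ wμ, h])
    rw [zpow_neg, mul_inv_eq_iff_eq_mul] at hm
    rw [hm]
    exact (cμ.zpow_left m).mul_left ((Commute.refl μ).zpow_left _)
  choose κ dκ wκ using trans
  obtain ⟨γ, hγ⟩ : ∃ γ : V → Γ, ∀ v, γ v = κ v * μ * (κ v)⁻¹ := ⟨_, fun _ => rfl⟩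
  have hγ' : ∀ g : Γ, γ (g • w) = g * μ * g⁻¹ := fun g => by
    have := (cen (g⁻¹ * κ (g • w)) (by rw [mul_smul, wκ, inv_smul_smul])).eq
    rw [hγ]
    calc _ = g * (g⁻¹ * κ (g • w) * μ) * (κ (g • w))⁻¹ := by group
      _ = _ := by rw [this]; group
  have dγ : ∀ v, deg (γ v) = 1 := fun v => by rw [hγ, hd, hd, PI10_dinv hd]; omega
  have fγ : ∀ v, γ v • v = v := fun v => by
    rw [hγ, mul_smul, mul_smul, inv_smul_eq_iff.2 (wκ v).symm, wμ, wκ]
  have proper : ∀ x : Disc E, (∀ w, x.1 w < 1) → ∃ U ∈ nhds x, ∀ z ∈ U, ∀ g : Γ, deg g = 0 →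
      g • z ∈ U → g = 1 := fun x hx => by
    obtain ⟨U, hU, k⟩ := dev_proper hE hD x hx
    refine ⟨U, hU, fun z hz g dg hg => ?_⟩
    obtain ⟨p, q, e, e1, e2⟩ := k z hz _ hg _ (hK g dg).2.2 ((hK g dg).1 z)
    exact ext g 1 dg (PI10_d1 hd) p q e (by rwa [one_smul]) (by rwa [one_smul])
  obtain ⟨M, i7, p, N, hP⟩ := exists_filling hE deg hd vert (fun g dg => (hK g dg).1) proper hF dl
    lw la stab dμ cμ conμ γ fun g =>
      ⟨fun ⟨v, e⟩ => ⟨_, e.symm.trans (hγ v)⟩, fun ⟨k, e⟩ => ⟨_, (hγ' k).trans e.symm⟩⟩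
  have hA : Affine E (fun v => φ * X v + 1 * Y v) deg (fun g => 2 * deg g) (φ ^ 2) := by
    refine ⟨hE, fun _ _ => dev_edge hD hinj,
      dev_nosaddle hE hD hinj fun _ => rfl, ori, vert, hd, fun g h => by rw [hd, mul_add],
      by linarith, fun g => ?_, fun g dg => (hK g dg).1, fun g dg x hx e => ?_,
      fun v => ⟨γ v, fγ v, by rw [dγ]; exact one_ne_zero⟩,
      fun v => ⟨κ v * l * (κ v)⁻¹, fun h => ?_, ?_, by rw [hd, hd, PI10_dinv hd]; omega⟩⟩
    · rw [(even_two_mul _).neg_one_zpow, one_mul]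
      exact str g
    · obtain ⟨U, hU, k⟩ := proper x hx
      exact k x (mem_of_mem_nhds hU) g dg (e.symm ▸ mem_of_mem_nhds hU)
    · have := la 0
      rw [conj_eq_one_iff.1 h, one_smul] at this
      exact absurd (hF.inj this) (by omega)
    · rw [mul_smul, mul_smul, inv_smul_eq_iff.2 (wκ v).symm, lw, wκ]
  obtain ⟨i8, i9, i10, hQ⟩ := affine_filling E _ deg _ _ γ p N hA hP
  obtain ⟨K, red, up, hV, K0, rq⟩ := veer_inst hE hD h₀ (by omega) (by omega) hφ φ0 hd ori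
    (fun g dg => (hK g dg).2) faith real dν hf hg hν f3 g3
  refine ⟨V, Γ, Cyl E, M, Unit, i1, i2, i3, i4, i8, inferInstance, i10, i9, i7, K, red, up, _, γ,
    p, N, hV, ⟨fγ, fun g v => ?_, fun v s k m _ e => ?_⟩, ⟨hQ.loc, hQ.fibre, hQ.free, hQ.emb,
      hQ.disj, hQ.core, hQ.cover, hQ.meridian⟩, fun v u hu => ?_⟩
  · rw [hγ v, ← congrArg (g • ·) (wκ v), ← mul_smul, hγ']
    group
  · have := congrArg deg e
    rw [PI10_dpow hd, PI10_dpow hd, dγ, mul_one] at this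
    exact ⟨_, this.symm⟩
  · have hF' : Fan E v fun k => κ v • a k := fun k => by
      have := ((hK _ (dκ v)).2.1.tri _ _ _).2 (hF k)
      rwa [MulAction.toPerm_apply, wκ] at this
    obtain ⟨k, k1, k2⟩ := far ((κ v)⁻¹ • u) fun h => hu ((inv_smul_eq_iff.1 h).trans (wκ v))
    have b1 := ole (κ v) _ _ _ k1
    have b2 := ole (κ v) _ _ _ k2
    rw [wκ, smul_inv_smul] at b1
    rw [wκ, ← mul_smul, ← mul_smul, ← hγ] at b2
    have := veer_ge (ofVT hV) (a := fun k => κ v • a k) (show Fan (K 0) v _ from K0 ▸ hF') (fun k => by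
      have c1 := hF'.dev hE hD k
      have c2 := hF'.dev hE hD (k + 1)
      have c4 := hD.dir _ _ (hF' k).2.1
      have c5 : ∀ j, (X v - X (κ v • a j) = 1 ∨ X v - X (κ v • a j) = -1) →
          Y v - Y (κ v • a j) = 0 → ¬ red v (κ v • a j) ∧ red v (κ v • a (j + 1)) := by
        intro j d1 d2
        have d3 := hF'.dev hE hD j
        rcases d1 with d1 | d1
        · rw [rq _ _ _ _ d1 d2, rq _ _ 0 1 (by omega) (by omega)]
          decide
        · rw [rq _ _ _ _ d1 d2, rq _ _ 0 (-1) (by omega) (by omega)]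
          decide
      clear * - c1 c2 c4 c5
      beta_reduce at c1 c2 c4
      rcases c4 with c | c | c | c | c | c
      exacts [⟨k, by omega, by omega, c5 _ (by omega) (by omega)⟩,
        ⟨k + 1 + 1, by omega, by omega, c5 _ (by omega) (by omega)⟩,
        ⟨k + 1, by omega, by omega, c5 _ (by omega) (by omega)⟩,
        ⟨k, by omega, by omega, c5 _ (by omega) (by omega)⟩,
        ⟨k + 1 + 1, by omega, by omega, c5 _ (by omega) (by omega)⟩,
        ⟨k + 1, by omega, by omega, c5 _ (by omega) (by omega)⟩]) b1 b2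
    change 3 ≤ VT.prongs K red v u (γ v • u) at this
    beta_reduce
    rw [dγ, show |(2 * 1 : ℤ)| = 2 from rfl]
    exact ⟨by omega, Or.inl (by decide)⟩

end Pool.Agent.Work.MP_3d425c_gt.Inst
end

-- merged part: Pool.Agent.Work.MP_3d425c_gt.W.NV
section
/-! The hypotheses on face pairings can be satisfied; the action on the glued space. -/

namespace Pool.Agent.Work.MP_3d425c_gt.Bor
open PA Relation

theorem w_nonvacuous : ∃ (T Γ Y M ι : Type) (_ : Group Γ) (_ : MulAction Γ T) (_ : MulAction Γ Y)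
    (_ : TopologicalSpace Y) (_ : SimplyConnectedSpace Y) (_ : ContinuousConstSMul Γ Y)
    (_ : TopologicalSpace M) (G : VR.Gluing T) (_ : SimplyConnectedSpace (VR.Space G))
    (red up : T × Fin 4 × Fin 4 → Prop) (e : Γ → ℤ) (γ : T → Fin 4 → Γ) (p : Y → M)
    (N : ι → ℂ × Circle → M), VR.Veering G red ∧ VR.Deck G red up e ∧ VR.Slopes G red γ ∧
      VR.Filling γ p N ∧ ∀ t i, ∃ n, VR.Wind G red t i (γ t i • t) i n ∧ |e (γ t i)| < |n| ∧
        (e (γ t i) ≠ 0 ∨ ∀ g : Γ, ¬ VR.Wind G red t i (g • t) i 2) := by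
  obtain ⟨V, Γ, Y, M, ι, _, _, _, _, _, _, _, _, _, K, red, up, e, γ, p, N, hV, hS, hF, hslope⟩ :=
    Inst.veer_nonvacuous
  have hne : ∀ w : V, ∃ u, u ≠ w := fun w => by
    obtain ⟨a, b, hab⟩ := (hV.layer 0).ne
    obtain ⟨c, hc, -⟩ := (hV.layer 0).apex a b hab
    have := (cyc_ne hc).1
    by_cases h : a = w
    exacts [⟨c, h ▸ this.symm⟩, ⟨a, h⟩]
  let S : VG Γ V :=
    { ofVT hV with
      e := e
      cyc_smul := hV.cyc_smul
      face_smul := fun g a b c h => (vt_face hV).1 (hV.face_smul g a b c ((vt_face hV).2 h))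
      red_smul := fun g a b ⟨k, h⟩ => hV.red_smul g k a b h
      up_smul := fun g a b ⟨k, h⟩ => hV.up_smul g k a b h
      e_mul := hV.e_mul
      free := fun g a b ⟨k, h⟩ => hV.free g k a b h
      cocompact := hV.cocompact.imp fun F h => ⟨h.1, fun a b ⟨k, h'⟩ => h.2 k a b h'⟩
      turn := fun w => by
        obtain ⟨u, hu⟩ := hne w
        have := (abs_nonneg _).trans_lt (hslope w u hu).1
        exact ⟨γ w, u, hS.fix w, hu, (Int.natCast_pos.1 this).ne'⟩ }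
  obtain ⟨T, _, G, red', up', vtx, h1, h2, hM, sm⟩ := exists_gluing S
  have ne : ∀ t i, vtx t (i + 1) ≠ vtx t i := fun t i => (hM.edge t (succ_ne4 i)).ne.symm
  have wd : ∀ t i (g : Γ) n, VR.Wind G red' t i (g • t) i n → g • vtx t i = vtx t i ∧
      |n| = VT.prongs K red (vtx t i) (vtx t (i + 1)) (g • vtx t (i + 1)) := fun t i g n h => by
    obtain ⟨a1, a2⟩ := wind_dir (S := S.toVU) h1 hM h
    rw [sm] at a1 a2
    exact ⟨a1, a2 ▸ VU.abs_dir (ne t i) (PAT5_ne' a1 (ne t i))⟩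
  refine ⟨T, Γ, Y, M, ι, _, _, _, _, inferInstance, inferInstance, _, G, sc_of_model h1 hM, red',
    up', e, fun t i => γ (vtx t i), p, N, h1, h2, ⟨fun t k i h => congrArg γ (hM.glue t k i h),
      fun g t i => (congrArg γ (sm g t i)).trans (hS.conj _ _),
      fun t i s n k l h => hS.prim _ s k l (wd t i s n h).1⟩,
    ⟨hF.loc, hF.fibre, hF.free, hF.emb, hF.disj, hF.core, hF.cover, fun g => ?_⟩, fun t i => ?_⟩
  · rw [← hF.meridian]
    refine ⟨fun ⟨t, i, h⟩ => ⟨_, h⟩, fun ⟨w, h⟩ => ?_⟩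
    obtain ⟨t, i, rfl⟩ := hM.surj_vtx w
    exact ⟨t, i, h⟩
  · obtain ⟨n, h⟩ := hM.wind h1 ((sm (γ (vtx t i)) t i).trans (hS.fix _)).symm
    obtain ⟨a1, a2⟩ := hslope (vtx t i) _ (ne t i)
    refine ⟨n, h, (wd t i _ n h).2 ▸ a1, a2.imp_right fun k g w => ?_⟩
    obtain ⟨b1, b2⟩ := wd t i g 2 w
    exact k g b1 (by exact_mod_cast b2.symm)

/-- An action on the glued space that permutes the tetrahedra is continuous. -/
theorem space_cont {T Γ : Type} [Group Γ] [MulAction Γ T] (G : VR.Gluing T)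
    [MulAction Γ (VR.Space G)]
    (h : ∀ (g : Γ) t x, g • (Quot.mk _ ⟨t, x⟩ : VR.Space G) = Quot.mk _ ⟨g • t, x⟩) :
    ContinuousConstSMul Γ (VR.Space G) :=
  ⟨fun g => isQuotientMap_quot_mk.continuous_iff.2 (continuous_sigma fun t => by
    simp only [Function.comp_apply, h]
    exact continuous_quot_mk.comp continuous_sigmaMk)⟩

end Pool.Agent.Work.MP_3d425c_gt.Bor
end
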