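import Pool.Agent.Work.MP_3d425c_gt.ZQ1
import Pool.Agent.Work.MP_3d425c_gt.W.Defs

-- merged part: Pool.Agent.Work.MP_3d425c_gt.PAT5
section
-- merged part: Pool.Agent.Work.MP_3d425c_gt.PAT2
section
/-! Ideal triangulations: prongs. -/

namespace Pool.Agent.Work.MP_3d425c_gt.Bor
open Classical PA

variable {V : Type} [LinearOrder V]

namespace TH
variable (S : TH V)

/-- The left side of a prong. -/
def Lf (w a₀ b₀ : V) : Set V := {u | ∃ a b, Leaf S.E S.y w a₀ b₀ a b ∧ (u = a ∨ cyc w u a)}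

/-- The right side of a prong. -/
def Rt (w a₀ b₀ : V) : Set V := {v | ∃ a b, Leaf S.E S.y w a₀ b₀ a b ∧ (b = v ∨ cyc w b v)}

theorem leaf_base {w a₀ b₀ a b : V} (h : Leaf S.E S.y w a₀ b₀ a b) :
    S.Tri w a₀ b₀ ∧ (S.y a₀ - S.y w) * (S.y b₀ - S.y w) < 0 := by
  induction h with
  | base h1 h2 h3 h4 h5 => exact ⟨⟨h1, h2, h3, h4⟩, h5⟩
  | left _ _ _ _ _ ih => exact ih
  | right _ _ _ _ _ ih => exact ih

theorem leaf_edge {w a₀ b₀ a b : V} (h : Leaf S.E S.y w a₀ b₀ a b) :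
    S.E a b ∧ cyc w a b ∧ cle w a₀ a ∧ cle w b b₀ ∧ 0 < (S.y a - S.y w) * (S.y a₀ - S.y w) ∧
      0 < (S.y b - S.y w) * (S.y b₀ - S.y w) := by
  have h0 := (S.leaf_base h).2
  induction h with
  | base h1 h2 h3 h4 h5 =>
    refine ⟨h3, h4, Or.inl rfl, Or.inl rfl, ?_, ?_⟩ <;>
      simp only [mul_pos_iff, mul_neg_iff] at h5 ⊢ <;> grind
  | left _ h1 h2 h3 h4 ih =>
    obtain ⟨-, i2, i3, i4, i5, i6⟩ := ih
    refine ⟨h2, ?_, i3, ?_, i5, ?_⟩
    · unfold cyc at *; grind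
    · unfold cle cyc at *; grind
    · simp only [mul_pos_iff, mul_neg_iff] at h0 h4 i5 ⊢
      grind
  | right _ h1 h2 h3 h4 ih =>
    obtain ⟨-, i2, i3, i4, i5, i6⟩ := ih
    refine ⟨h3, ?_, ?_, i4, ?_, i6⟩
    · unfold cyc at *; grind
    · unfold cle cyc at *; grind
    · simp only [mul_pos_iff, mul_neg_iff] at h0 h4 i6 ⊢
      grind

theorem PAT2_str {w a₀ b₀ a b : V} (h : Leaf S.E S.y w a₀ b₀ a b) :
    (S.y a - S.y w) * (S.y b - S.y w) < 0 := by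
  have h0 := (S.leaf_base h).2
  obtain ⟨-, -, -, -, h1, h2⟩ := S.leaf_edge h
  simp only [mul_pos_iff, mul_neg_iff] at h0 h1 h2 ⊢
  grind

theorem PAT2_trans {w a b c : V} (h : cle w a b) (h' : cle w b c) : cle w a c := by
  unfold cle cyc at *; grind

/-- One step along a prong. -/
def PAT2_step (w : V) (p q : V × V) : Prop :=
  ∃ c, cyc p.1 c p.2 ∧ S.E p.1 c ∧ S.E c p.2 ∧ cyc w p.1 p.2 ∧
    (S.y p.1 - S.y w) * (S.y p.2 - S.y w) < 0 ∧
    ((q = (p.1, c) ∧ (S.y p.1 - S.y w) * (S.y c - S.y w) < 0) ∨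
      (q = (c, p.2) ∧ (S.y c - S.y w) * (S.y p.2 - S.y w) < 0))

theorem PAT2_unique (w : V) : Relator.RightUnique (S.PAT2_step w) := by
  rintro p q q' ⟨c, h1, h2, h3, -, h4, h5⟩ ⟨c', h6, h7, h8, -, -, h9⟩
  obtain rfl := S.apex_unique h1 h2 h3 h6 h7 h8
  simp only [mul_neg_iff] at h4 h5 h9
  grind

theorem PAT2_path {w a₀ b₀ a b : V} (h : Leaf S.E S.y w a₀ b₀ a b) :
    Relation.ReflTransGen (S.PAT2_step w) (a₀, b₀) (a, b) := by
  induction h with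
  | base => exact .refl
  | left h0 h1 h2 h3 h4 ih =>
    exact ih.tail ⟨_, h1, h2, h3, (S.leaf_edge h0).2.1, S.PAT2_str h0, Or.inl ⟨rfl, h4⟩⟩
  | right h0 h1 h2 h3 h4 ih =>
    exact ih.tail ⟨_, h1, h2, h3, (S.leaf_edge h0).2.1, S.PAT2_str h0, Or.inr ⟨rfl, h4⟩⟩

theorem PAT2_mono {w : V} {p q : V × V} (h : Relation.ReflTransGen (S.PAT2_step w) p q) :
    cle w p.1 q.1 ∧ cle w q.2 p.2 := by
  induction h with
  | refl => exact ⟨Or.inl rfl, Or.inl rfl⟩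
  | tail _ h ih =>
    obtain ⟨c, h1, -, -, h2, -, ⟨rfl, -⟩ | ⟨rfl, -⟩⟩ := h
    · refine ⟨ih.1, PAT2_trans (Or.inr ?_) ih.2⟩
      unfold cyc at *; grind
    · refine ⟨PAT2_trans ih.1 (Or.inr ?_), ih.2⟩
      unfold cyc at *; grind

theorem PAT2_nest {w a₀ b₀ a b a' b' : V} (h : Leaf S.E S.y w a₀ b₀ a b)
    (h' : Leaf S.E S.y w a₀ b₀ a' b') :
    (cle w a a' ∧ cle w b' b) ∨ (cle w a' a ∧ cle w b b') :=
  (Relation.ReflTransGen.total_of_right_unique (S.PAT2_unique w) (S.PAT2_path h)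
    (S.PAT2_path h')).imp S.PAT2_mono S.PAT2_mono

theorem leaf_common {w a₀ b₀ u v : V} (hu : u ∈ S.Lf w a₀ b₀) (hv : v ∈ S.Rt w a₀ b₀) :
    ∃ a b, Leaf S.E S.y w a₀ b₀ a b ∧ cle w u a ∧ cle w b v := by
  obtain ⟨a, b, h, hu⟩ := hu
  obtain ⟨a', b', h', hv⟩ := hv
  rcases S.PAT2_nest h h' with h1 | h1
  · exact ⟨a', b', h', PAT2_trans hu h1.1, hv⟩
  · exact ⟨a, b, h, hu, PAT2_trans h1.2 hv⟩

theorem lf_lt_rt {w a₀ b₀ u v : V} (hu : u ∈ S.Lf w a₀ b₀) (hv : v ∈ S.Rt w a₀ b₀) :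
    cyc w u v := by
  obtain ⟨a, b, h, h1, h2⟩ := S.leaf_common hu hv
  have h3 := (S.leaf_edge h).2.1
  unfold cle cyc at *; grind

theorem lf_or_rt {w a₀ b₀ u : V} (h : Leaf S.E S.y w a₀ b₀ a₀ b₀) (hu : u ≠ w) :
    u ∈ S.Lf w a₀ b₀ ∨ u ∈ S.Rt w a₀ b₀ := by
  obtain ⟨h1, h2, -⟩ := S.leaf_edge h
  have h3 : cle w u a₀ ∨ cle w b₀ u ∨ cyc a₀ u b₀ := by unfold cle cyc at *; grind
  rcases h3 with h3 | h3 | h3
  · exact Or.inl ⟨a₀, b₀, h, h3⟩
  · exact Or.inr ⟨a₀, b₀, h, h3⟩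
  refine S.desc u (fun p q => Leaf S.E S.y w a₀ b₀ p q → u ∈ S.Lf w a₀ b₀ ∨ u ∈ S.Rt w a₀ b₀)
    (fun p q c _ g1 g2 g3 g4 i1 i2 g5 => ?_) a₀ b₀ h1 h3 h
  have g6 := S.nos _ _ _ _ _ _ g5 g2 g3 g4
  have g7 := S.PAT2_str g5
  have g8 := (S.leaf_edge g5).2.1
  have g9 : (S.y p - S.y w) * (S.y c - S.y w) < 0 ∨ (S.y c - S.y w) * (S.y q - S.y w) < 0 := by
    simp only [mul_neg_iff] at g7 ⊢
    grind
  rcases g9 with g9 | g9
  · have g10 := g5.left g2 g3 g4 g9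
    by_cases g11 : cyc p u c
    · exact i1 g11 g10
    · refine Or.inr ⟨p, c, g10, ?_⟩
      unfold cyc at *; grind
  · have g10 := g5.right g2 g3 g4 g9
    by_cases g11 : cyc c u q
    · exact i2 g11 g10
    · refine Or.inl ⟨c, q, g10, ?_⟩
      unfold cyc at *; grind

theorem leaf_of_edge {w a₀ b₀ l r : V} (h : S.E l r) (hl : l ∈ S.Lf w a₀ b₀)
    (hr : r ∈ S.Rt w a₀ b₀) : Leaf S.E S.y w a₀ b₀ l r := by
  obtain ⟨a, b, h0, h1, h2⟩ := S.leaf_common hl hr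
  clear hl hr
  induction h0 with
  | base g1 g2 g3 g4 g5 =>
    have n1 := S.tri.nocross l r a₀ w h (S.tri.symm _ _ g1)
    have n2 := S.tri.nocross l r b₀ w h (S.tri.symm _ _ g2)
    obtain ⟨rfl, rfl⟩ : l = a₀ ∧ r = b₀ := by unfold cle cyc at *; grind
    exact .base g1 g2 g3 g4 g5
  | @left a b c g0 g1 g2 g3 g4 ih =>
    obtain ⟨g5, g6, -⟩ := S.leaf_edge g0
    by_cases g7 : cle w b r
    · exact ih h1 g7
    have n1 := S.tri.nocross l r c b h g3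
    have n2 := S.tri.nocross l r a b h g5
    obtain ⟨rfl, rfl⟩ : l = a ∧ r = c := by
      clear ih
      unfold cle cyc at *; grind
    exact g0.left g1 g2 g3 g4
  | @right a b c g0 g1 g2 g3 g4 ih =>
    obtain ⟨g5, g6, -⟩ := S.leaf_edge g0
    by_cases g7 : cle w l a
    · exact ih g7 h2
    have n1 := S.tri.nocross l r c a h (S.tri.symm _ _ g2)
    have n2 := S.tri.nocross l r b a h (S.tri.symm _ _ g5)
    obtain ⟨rfl, rfl⟩ : l = c ∧ r = b := by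
      clear ih
      unfold cle cyc at *; grind
    exact g0.right g1 g2 g3 g4

/-- Leaves do not cross. -/
theorem leaf_side {v : V} {A B : Set V} {s : ℝ} (hv : v ∉ A ∧ v ∉ B)
    (hAB : ∀ x, x ≠ v → (x ∈ A ↔ x ∉ B))
    (hs : ∀ p q, S.E p q → p ∈ A → q ∈ B → 0 < s * (S.y p - S.y v) ∧ s * (S.y q - S.y v) < 0)
    {a c₀ d₀ c d : V} (ha : a ∈ A) (h : Leaf S.E S.y a c₀ d₀ c d) :
    (c ∉ B ∧ d ∉ B) ∨ (((c ∈ A ∧ d ∈ B) ∨ (c ∈ B ∧ d ∈ A)) ∧ 0 < s * (S.y a - S.y v)) := by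
  let f : V → ℝ := fun x => s * (S.y x - S.y v)
  have f0 : f v = 0 := by simp [f]
  have hE : ∀ {p q}, S.E p q → (p ∈ A → q ∈ B → 0 < f p ∧ f q < 0 ∧ s ≠ 0) ∧
      (q ∈ A → p ∈ B → 0 < f q ∧ f p < 0 ∧ s ≠ 0) := by
    have h1 : ∀ p q, S.E p q → p ∈ A → q ∈ B → 0 < f p ∧ f q < 0 ∧ s ≠ 0 := fun p q e hp hq => by
      obtain ⟨h2, h3⟩ := hs p q e hp hq
      refine ⟨h2, h3, fun h4 => ?_⟩
      simp [h4] at h2
    intro p q e
    exact ⟨h1 _ _ e, h1 _ _ (S.tri.symm _ _ e)⟩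
  have hS : ∀ {p q}, (S.y p - S.y a) * (S.y q - S.y a) < 0 → s ≠ 0 →
      (f p < f a ∧ f a < f q) ∨ (f q < f a ∧ f a < f p) := by
    intro p q h1 h2
    have h3 : (f p - f a) * (f q - f a) < 0 := by
      have h4 := mul_neg_of_pos_of_neg (mul_self_pos.2 h2) h1
      simp only [f]
      linarith only [h4]
    simp only [mul_neg_iff] at h3
    grind
  change (c ∉ B ∧ d ∉ B) ∨ (((c ∈ A ∧ d ∈ B) ∨ (c ∈ B ∧ d ∈ A)) ∧ 0 < f a)
  clear_value f
  clear hs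
  induction h with
  | base g1 g2 g3 g4 g5 =>
    have e1 := hE g1
    have e2 := hE g2
    have e3 := hS g5
    have e4 := hAB c₀
    have e5 := hAB d₀
    clear hE hS hAB
    grind
  | @left c d e g0 g1 g2 g3 g4 ih =>
    have e0 := (cyc_ne g1).2.2
    have e1 := hE (S.leaf_edge g0).1
    have e2 := hE g2
    have e3 := hE g3
    have e4 := hS g4
    have e5 := hS (S.PAT2_str g0)
    have e6 := hAB c
    have e7 := hAB d
    have e8 := hAB e
    clear hE hS hAB g0 g1 g4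
    grind
  | @right c d e g0 g1 g2 g3 g4 ih =>
    have e0 := (cyc_ne g1).2.2
    have e1 := hE (S.leaf_edge g0).1
    have e2 := hE g2
    have e3 := hE g3
    have e4 := hS g4
    have e5 := hS (S.PAT2_str g0)
    have e6 := hAB c
    have e7 := hAB d
    have e8 := hAB e
    clear hE hS hAB g0 g1 g4
    grind

end TH

end Pool.Agent.Work.MP_3d425c_gt.Bor
end

-- merged part: Pool.Agent.Work.MP_3d425c_gt.PAT3
section
/-! Ideal triangulations: directions counted by prongs. -/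

namespace Pool.Agent.Work.MP_3d425c_gt.Bor
open Classical PA

variable {V : Type} [LinearOrder V]

namespace TH
variable (S : TH V)

/-- The signed number of prongs at `w` between `u` and `v`. -/
noncomputable def N (w u v : V) : ℤ :=
  ∑ᶠ X : Set V, if Prong S.E S.y w X then
    (if u ∈ X then 1 else 0) - (if v ∈ X then 1 else 0) else 0

/-- A neighbour of `w`. -/
noncomputable def o (w : V) : V := (S.exists_nbr w).choose

/-- The sector at `w` that contains `u`. -/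
noncomputable def dir (w u : V) : ℤ := S.N w (S.o w) u + if S.y w < S.y (S.o w) then 0 else 1

theorem o_spec (w : V) : S.E w (S.o w) := (S.exists_nbr w).choose_spec

theorem prong_down {w u v : V} {X : Set V} (h : Prong S.E S.y w X) (hv : v ∈ X)
    (huv : cyc w u v) : u ∈ X := by
  obtain ⟨a₀, b₀, -, rfl⟩ := h
  obtain ⟨a, b, h1, rfl | h2⟩ := hv
  · exact ⟨_, b, h1, Or.inr huv⟩
  · exact ⟨a, b, h1, Or.inr (cyc_trans huv h2)⟩

theorem PAT3_lf {w a b : V} (h : Leaf S.E S.y w a b a b) : a ∈ S.Lf w a b :=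
  ⟨a, b, h, Or.inl rfl⟩

theorem PAT3_rt {w a b : V} (h : Leaf S.E S.y w a b a b) : b ∈ S.Rt w a b :=
  ⟨a, b, h, Or.inl rfl⟩

theorem PAT3_sep {w u v : V} (h : cyc w u v) (X : Set V) :
    (Prong S.E S.y w X ∧ (u ∈ X ↔ v ∉ X)) ↔
      ∃ a b, Leaf S.E S.y w a b a b ∧ u ∈ S.Lf w a b ∧ v ∈ S.Rt w a b ∧ X = S.Lf w a b := by
  constructor
  · rintro ⟨hX, h1⟩
    have h2 : v ∉ X := fun hv => h1.1 (S.prong_down hX hv h) hv
    have h3 := h1.2 h2
    obtain ⟨a, b, h4, rfl⟩ := hX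
    exact ⟨a, b, h4, h3, (S.lf_or_rt h4 (cyc_ne h).2.2.symm).resolve_left h2, rfl⟩
  · rintro ⟨a, b, h1, h2, h3, rfl⟩
    exact ⟨⟨a, b, h1, rfl⟩, fun _ hv => (cyc_ne (S.lf_lt_rt hv h3)).2.1 rfl, fun _ => h2⟩

theorem PAT3_bases {w u v : V} (h : cyc w u v) : {p : V × V | Leaf S.E S.y w p.1 p.2 p.1 p.2 ∧
    u ∈ S.Lf w p.1 p.2 ∧ v ∈ S.Rt w p.1 p.2}.Finite := by
  refine Set.Finite.subset (Set.Finite.union
    (s := {p : V × V | S.Tri w p.1 p.2 ∧ cyc w u p.2 ∧ cyc w p.2 v})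
    (t := {p : V × V | S.Tri w p.1 p.2 ∧ cyc w p.1 v ∧ ¬ cyc w p.2 v}) ?_ ?_) ?_
  · refine Set.Finite.of_finite_image (f := fun p => (w, p.2)) ((S.tri.fin u v).subset ?_) ?_
    · rintro _ ⟨p, ⟨h1, h2, h3⟩, rfl⟩
      exact ⟨h1.2.1, h2, cyc_rot h3⟩
    · rintro ⟨a, b⟩ ⟨h1, -⟩ ⟨a', b'⟩ ⟨h2, -⟩ e
      obtain rfl : b = b' := congrArg Prod.snd e
      have h3 := h1.2.2.2
      have h4 := h2.2.2.2
      obtain ⟨rfl, -⟩ | h5 | h5 := S.tri_order h1 h2
      · rfl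
      all_goals
        exfalso
        unfold cle cyc at *
        grind
  · refine Set.Subsingleton.finite ?_
    rintro ⟨a, b⟩ ⟨h1, h3, h4⟩ ⟨a', b'⟩ ⟨h2, h6, h7⟩
    have h8 := h1.2.2.2
    have h9 := h2.2.2.2
    obtain ⟨rfl, rfl⟩ | h5 | h5 := S.tri_order h1 h2
    · rfl
    all_goals
      exfalso
      unfold cle cyc at *
      grind
  · rintro ⟨a, b⟩ ⟨h1, h2, h3⟩
    by_cases h4 : cyc w b v
    · exact Or.inl ⟨(S.leaf_base h1).1, S.lf_lt_rt h2 (S.PAT3_rt h1), h4⟩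
    · exact Or.inr ⟨(S.leaf_base h1).1, S.lf_lt_rt (S.PAT3_lf h1) h3, h4⟩

theorem PAT3_symm (w u v : V) : {X | Prong S.E S.y w X ∧ (u ∈ X ↔ v ∉ X)} =
    {X | Prong S.E S.y w X ∧ (v ∈ X ↔ u ∉ X)} :=
  Set.ext fun _ => and_congr_right fun _ => iff_not_comm

theorem PAT3_self (w u : V) : {X | Prong S.E S.y w X ∧ (u ∈ X ↔ u ∉ X)} = ∅ :=
  Set.eq_empty_of_forall_notMem fun _ h => iff_not_self h.2

theorem PAT3_fin {w u v : V} (h : cyc w u v) :
    {X | Prong S.E S.y w X ∧ (u ∈ X ↔ v ∉ X)}.Finite := by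
  refine ((S.PAT3_bases h).image fun p => S.Lf w p.1 p.2).subset fun X hX => ?_
  obtain ⟨a, b, h1, h2, h3, rfl⟩ := (S.PAT3_sep h X).1 hX
  exact ⟨(a, b), ⟨h1, h2, h3⟩, rfl⟩

theorem sep_finite {w u v : V} (hu : u ≠ w) (hv : v ≠ w) :
    {X | Prong S.E S.y w X ∧ (u ∈ X ↔ v ∉ X)}.Finite := by
  by_cases e : u = v
  · rw [e, S.PAT3_self]
    exact Set.finite_empty
  rcases cyc_total hu.symm e hv.symm with h | h
  · exact S.PAT3_fin h
  · rw [S.PAT3_symm]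
    exact S.PAT3_fin h

theorem PAT3_supp (w u v : V) : (Function.support fun X : Set V => if Prong S.E S.y w X then
    (if u ∈ X then (1 : ℤ) else 0) - (if v ∈ X then 1 else 0) else 0) ⊆
      {X | Prong S.E S.y w X ∧ (u ∈ X ↔ v ∉ X)} := by
  intro X hX
  by_cases h1 : Prong S.E S.y w X <;> by_cases h2 : u ∈ X <;> by_cases h3 : v ∈ X <;>
    simp [h1, h2, h3] at hX ⊢

theorem N_add {w u v x : V} (hu : u ≠ w) (hv : v ≠ w) (hx : x ≠ w) :
    S.N w u v + S.N w v x = S.N w u x := by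
  unfold N
  rw [← finsum_add_distrib ((S.sep_finite hu hv).subset (S.PAT3_supp w u v))
    ((S.sep_finite hv hx).subset (S.PAT3_supp w v x))]
  refine finsum_congr fun X => ?_
  by_cases h1 : Prong S.E S.y w X
  · simp only [if_pos h1, sub_add_sub_cancel]
  · simp only [if_neg h1, add_zero]

theorem dir_sub {w u v : V} (hu : u ≠ w) (hv : v ≠ w) : S.dir w v - S.dir w u = S.N w u v := by
  rw [dir, dir, ← S.N_add (S.E_ne (S.o_spec w)).symm hu hv]
  ring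

theorem dir_cyc {w u v : V} (h : cyc w u v) :
    S.dir w v = S.dir w u + prongs S.E S.y w u v := by
  have hf := S.PAT3_fin h
  rw [← sub_eq_iff_eq_add', S.dir_sub (cyc_ne h).1.symm (cyc_ne h).2.2.symm, N, prongs,
    finsum_eq_sum_of_support_subset (s := hf.toFinset) _
      (by rw [hf.coe_toFinset]; exact S.PAT3_supp w u v),
    Set.ncard_eq_toFinset_card _ hf, Finset.card_eq_sum_ones, Nat.cast_sum]
  refine Finset.sum_congr rfl fun X hX => ?_
  obtain ⟨h1, h2⟩ := hf.mem_toFinset.1 hX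
  have h3 : v ∉ X := fun hv => h2.1 (S.prong_down h1 hv h) hv
  rw [if_pos h1, if_pos (h2.2 h3), if_neg h3, sub_zero, Nat.cast_one]

theorem abs_dir {w u v : V} (hu : u ≠ w) (hv : v ≠ w) :
    |S.dir w v - S.dir w u| = prongs S.E S.y w u v := by
  by_cases e : u = v
  · rw [e, sub_self, abs_zero, prongs, S.PAT3_self, Set.ncard_empty, Nat.cast_zero]
  rcases cyc_total hu.symm e hv.symm with h | h
  · rw [S.dir_cyc h, add_sub_cancel_left, Nat.abs_cast]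
  · rw [abs_sub_comm, S.dir_cyc h, add_sub_cancel_left, Nat.abs_cast, prongs, prongs, S.PAT3_symm]

theorem dir_ne_iff {w u v : V} (h : cyc w u v) : S.dir w u ≠ S.dir w v ↔
    ∃ a₀ b₀, Leaf S.E S.y w a₀ b₀ a₀ b₀ ∧ u ∈ S.Lf w a₀ b₀ ∧ v ∈ S.Rt w a₀ b₀ := by
  rw [S.dir_cyc h, Ne, left_eq_add, Nat.cast_eq_zero, prongs, Set.ncard_eq_zero (S.PAT3_fin h),
    ← Ne, ← Set.nonempty_iff_ne_empty]
  constructor
  · rintro ⟨X, hX⟩
    obtain ⟨a, b, h1, h2, h3, -⟩ := (S.PAT3_sep h X).1 hX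
    exact ⟨a, b, h1, h2, h3⟩
  · rintro ⟨a, b, h1, h2, h3⟩
    exact ⟨_, (S.PAT3_sep h _).2 ⟨a, b, h1, h2, h3, rfl⟩⟩

theorem PAT3_mid {w u v a b a' b' : V} (h1 : Leaf S.E S.y w a b a b) (h2 : u ∈ S.Lf w a b)
    (h3 : Leaf S.E S.y w a' b' a' b') (h4 : v ∈ S.Rt w a' b') (h5 : cle w b a') :
    S.E w b ∧ cyc w u b ∧ cyc w b v ∧ S.dir w u ≠ S.dir w b ∧ S.dir w b ≠ S.dir w v := by
  have h6 : b ∈ S.Lf w a' b' := ⟨a', b', h3, h5⟩
  have h7 := S.lf_lt_rt h2 (S.PAT3_rt h1)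
  have h8 := S.lf_lt_rt h6 h4
  exact ⟨(S.leaf_base h1).1.2.1, h7, h8, (S.dir_ne_iff h7).2 ⟨a, b, h1, h2, S.PAT3_rt h1⟩,
    (S.dir_ne_iff h8).2 ⟨a', b', h3, h6, h4⟩⟩

theorem PAT3_big {w u v : V} (h : cyc w u v) (hb : S.dir w u + 2 ≤ S.dir w v) :
    ∃ b, S.E w b ∧ cyc w u b ∧ cyc w b v ∧ S.dir w u ≠ S.dir w b ∧ S.dir w b ≠ S.dir w v := by
  have h1 : 1 < prongs S.E S.y w u v := by
    have := S.dir_cyc h
    omega
  obtain ⟨X, hX, Y, hY, hne⟩ := (Set.one_lt_ncard (S.PAT3_fin h)).1 h1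
  obtain ⟨a, b, a1, a2, a3, rfl⟩ := (S.PAT3_sep h X).1 hX
  obtain ⟨a', b', b1, b2, b3, rfl⟩ := (S.PAT3_sep h Y).1 hY
  obtain ⟨rfl, rfl⟩ | h5 | h5 := S.tri_order (S.leaf_base a1).1 (S.leaf_base b1).1
  · exact absurd rfl hne
  · exact ⟨b, S.PAT3_mid a1 a2 b1 b3 h5⟩
  · exact ⟨b', S.PAT3_mid b1 b2 a1 a3 h5⟩

theorem big_turn {w u v : V} (h : cyc w u v) (hb : S.dir w u + 2 ≤ S.dir w v) :
    ∃ b, S.E w b ∧ cyc w u b ∧ cyc w b v := by
  obtain ⟨b, h1, h2, h3, -⟩ := S.PAT3_big h hb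
  exact ⟨b, h1, h2, h3⟩

theorem unit_step {w u v : V} (hu : u ≠ w) (hv : v ≠ w) (h : S.dir w u < S.dir w v) :
    ∃ x, x ≠ w ∧ S.dir w x = S.dir w u + 1 := by
  have key : ∀ (n : ℕ) (v : V), cyc w u v → S.dir w u < S.dir w v → S.dir w v ≤ S.dir w u + n →
      ∃ x, x ≠ w ∧ S.dir w x = S.dir w u + 1 := by
    intro n
    induction n with
    | zero => intro v _ h1 h2; omega
    | succ n ih =>
      intro v h0 h1 h2
      by_cases e : S.dir w v = S.dir w u + 1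
      · exact ⟨v, (cyc_ne h0).2.2.symm, e⟩
      obtain ⟨b, -, h3, h4, h5, h6⟩ := S.PAT3_big h0 (by omega)
      have h7 := S.dir_cyc h3
      have h8 := S.dir_cyc h4
      exact ih b h3 (by omega) (by omega)
  rcases cyc_total hu.symm (fun e => h.ne (e ▸ rfl)) hv.symm with h1 | h1
  · exact key _ v h1 h (S.dir_cyc h1).le
  · have := S.dir_cyc h1
    omega

theorem tri_dir {w a b : V} (h : S.Tri w a b) : S.dir w b = S.dir w a +
    if (S.y a - S.y w) * (S.y b - S.y w) < 0 then 1 else 0 := by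
  have hc := h.2.2.2
  have key : ∀ X, Prong S.E S.y w X ∧ (a ∈ X ↔ b ∉ X) →
      Leaf S.E S.y w a b a b ∧ X = S.Lf w a b := fun X hX => by
    obtain ⟨a', b', h1, h2, h3, rfl⟩ := (S.PAT3_sep hc X).1 hX
    have h4 := S.lf_lt_rt h2 (S.PAT3_rt h1)
    have h5 := S.lf_lt_rt (S.PAT3_lf h1) h3
    obtain ⟨rfl, rfl⟩ | h6 | h6 := S.tri_order h (S.leaf_base h1).1
    · exact ⟨h1, rfl⟩
    all_goals
      exfalso
      unfold cle cyc at *
      grind
  rw [S.dir_cyc hc, prongs]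
  split_ifs with hy
  · have h1 : Leaf S.E S.y w a b a b := Leaf.base h.1 h.2.1 h.2.2.1 hc hy
    have h2 : {X | Prong S.E S.y w X ∧ (a ∈ X ↔ b ∉ X)} = {S.Lf w a b} :=
      Set.eq_singleton_iff_unique_mem.2 ⟨(S.PAT3_sep hc _).2
        ⟨a, b, h1, S.PAT3_lf h1, S.PAT3_rt h1, rfl⟩, fun X hX => (key X hX).2⟩
    rw [h2, Set.ncard_singleton, Nat.cast_one]
  · have h2 : {X | Prong S.E S.y w X ∧ (a ∈ X ↔ b ∉ X)} = ∅ :=
      Set.eq_empty_of_forall_notMem fun X hX => hy (S.leaf_base (key X hX).1).2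
    rw [h2, Set.ncard_empty, Nat.cast_zero]

theorem PAT3_par {w a b : V} (h : S.Tri w a b) :
    (Even (S.dir w a) ↔ S.y w < S.y a) ↔ (Even (S.dir w b) ↔ S.y w < S.y b) := by
  rw [S.tri_dir h]
  rcases (S.hy _ _ h.1).lt_or_gt with h1 | h1 <;> rcases (S.hy _ _ h.2.1).lt_or_gt with h2 | h2
  · rw [if_neg (mul_pos (sub_pos.2 h1) (sub_pos.2 h2)).le.not_gt, add_zero]
    simp only [h1, h2]
  · rw [if_pos (mul_neg_of_pos_of_neg (sub_pos.2 h1) (sub_neg.2 h2)), Int.even_add_one]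
    simp only [h1, h2.not_gt, iff_true, iff_false, not_not]
  · rw [if_pos (mul_neg_of_neg_of_pos (sub_neg.2 h1) (sub_pos.2 h2)), Int.even_add_one]
    simp only [h1.not_gt, h2, iff_true, iff_false]
  · rw [if_neg (mul_pos_of_neg_of_neg (sub_neg.2 h1) (sub_neg.2 h2)).le.not_gt, add_zero]
    simp only [h1.not_gt, h2.not_gt]

theorem nbr_par {w a : V} (h : S.E w a) : Even (S.dir w a) ↔ S.y w < S.y a := by
  have ho := S.o_spec w
  have h0 : Even (S.dir w (S.o w)) ↔ S.y w < S.y (S.o w) := by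
    have e : S.N w (S.o w) (S.o w) = 0 := by simp only [N, sub_self, ite_self, finsum_zero]
    rw [dir, e, zero_add]
    split_ifs with h1
    · exact iff_of_true Even.zero h1
    · exact iff_of_false Int.not_even_one h1
  by_cases e : S.o w = a
  · exact e ▸ h0
  rcases cyc_total (S.E_ne ho) e (S.E_ne h) with h1 | h1
  · exact S.fan_ind (fun b => Even (S.dir w b) ↔ S.y w < S.y b) ho h0
      (fun _ _ ht => (S.PAT3_par ht).1) h (Or.inr h1)
  · exact (S.fan_ind (fun b => (Even (S.dir w b) ↔ S.y w < S.y b) ↔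
      (Even (S.dir w a) ↔ S.y w < S.y a)) h Iff.rfl
      (fun _ _ ht hb => (S.PAT3_par ht).symm.trans hb) ho (Or.inr h1)).1 h0

end TH

end Pool.Agent.Work.MP_3d425c_gt.Bor
end

-- merged part: Pool.Agent.Work.MP_3d425c_gt.PAT4
section
/-! Ideal triangulations: the tree of leaves. -/

namespace Pool.Agent.Work.MP_3d425c_gt.Bor
open Classical PA

variable {V : Type} [LinearOrder V]

theorem PAT4_sign {a b p q : ℝ} (h : a * b < 0) (hp : 0 < p * a) (hq : 0 < q * b) :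
    a * q < 0 ∧ b * p < 0 ∧ p * q < 0 := by
  rcases mul_neg_iff.1 h with ⟨h1, h2⟩ | ⟨h1, h2⟩
  · have h3 := (pos_iff_pos_of_mul_pos hp).2 h1
    have h4 : q < 0 := by (refine lt_of_not_ge fun h_nl => ?_; linarith only [h_nl, h, hq, h1, mul_nonneg_of_nonpos_of_nonpos (le_of_lt (Mathlib.Tactic.Linarith.sub_neg_of_lt h)) (Mathlib.Tactic.Linarith.sub_nonpos_of_le h_nl), mul_pos_of_neg_of_neg (Mathlib.Tactic.Linarith.sub_neg_of_lt hq) (Mathlib.Tactic.Linarith.sub_neg_of_lt h1)])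
    exact ⟨mul_neg_of_pos_of_neg h1 h4, mul_neg_of_neg_of_pos h2 h3, mul_neg_of_pos_of_neg h3 h4⟩
  · have h3 : p < 0 := by (refine lt_of_not_ge fun h_nl => ?_; linarith only [h_nl, h, hp, h2, mul_nonneg_of_nonpos_of_nonpos (le_of_lt (Mathlib.Tactic.Linarith.sub_neg_of_lt h)) (Mathlib.Tactic.Linarith.sub_nonpos_of_le h_nl), mul_pos_of_neg_of_neg (Mathlib.Tactic.Linarith.sub_neg_of_lt hp) (Mathlib.Tactic.Linarith.sub_neg_of_lt h2)])
    have h4 := (pos_iff_pos_of_mul_pos hq).2 h2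
    exact ⟨mul_neg_of_neg_of_pos h1 h4, mul_neg_of_pos_of_neg h2 h3, mul_neg_of_neg_of_pos h3 h4⟩

theorem PAT4_iff {a b w : ℝ} (h : 0 < (a - w) * (b - w)) : (w < a ↔ w < b) ∧ w ≠ a ∧ w ≠ b := by
  rcases mul_pos_iff.1 h with ⟨h1, h2⟩ | ⟨h1, h2⟩
  · exact ⟨iff_of_true (by linarith) (by linarith), by linarith [h1] |> ne_of_lt,
      by linarith [h2] |> ne_of_lt⟩
  · exact ⟨iff_of_false (by linarith) (by linarith), by linarith [h1] |> ne_of_gt,
      by linarith [h2] |> ne_of_gt⟩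

omit [LinearOrder V] in
theorem PAT4_step {dir : V → V → ℤ} (t : T1 dir) {a p q c m : V}
    (H : Btw dir p c q ∨ Btw dir c p q ∨ Btw dir p q c) (h1 : Btw dir p c q → Wb dir q c a)
    (h2 : Btw dir c p q → Wb dir a p q) (m1 : Wb dir a m p) (m2 : Wb dir p m c)
    (m3 : Wb dir c m a) : ∃ m, Wb dir a m p ∧ Wb dir p m q ∧ Wb dir q m a := by
  rcases H with H | H | H
  · by_cases e : m = c
    · subst e
      exact ⟨m, m1, H.wb, h1 H⟩
    · exact ⟨m, m1, m2.trans_left t H.wb, (m3.symm.concat t (m2.trans_right t H.wb) e).1.symm⟩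
  · exact ⟨p, wb_right _ _, wb_left _ _, (h2 H).symm⟩
  · rcases m2.total t H.wb with k | k
    · refine ⟨m, m1, k, ?_⟩
      by_cases e : m = q
      · exact Or.inl e.symm
      have k1 := (k.trans_right t H.wb).dir_eq t e
      rcases m3 with m3 | m3 | m3
      · subst m3
        exact absurd (k.antisymm t H.wb) H.2.1
      · exact Or.inr (Or.inl m3)
      · exact Or.inr (Or.inr (k1 ▸ m3))
    · exact ⟨q, (k.trans_left t m1.symm).symm, wb_right _ _, wb_left _ _⟩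

namespace TH
variable (S : TH V)

theorem PAT4_hv (v a₀ b₀ : V) : v ∉ S.Lf v a₀ b₀ ∧ v ∉ S.Rt v a₀ b₀ := by
  constructor
  · rintro ⟨a, b, h, e | e⟩
    exacts [(cyc_ne (S.leaf_edge h).2.1).1 e, (cyc_ne e).1 rfl]
  · rintro ⟨a, b, h, e | e⟩
    exacts [(cyc_ne (S.leaf_edge h).2.1).2.2 e.symm, (cyc_ne e).2.2 rfl]

theorem PAT4_hAB {v a₀ b₀ : V} (h : Leaf S.E S.y v a₀ b₀ a₀ b₀) (x : V) (hx : x ≠ v) :
    x ∈ S.Lf v a₀ b₀ ↔ x ∉ S.Rt v a₀ b₀ :=
  ⟨fun h1 h2 => (cyc_ne (S.lf_lt_rt h1 h2)).2.1 rfl, (S.lf_or_rt h hx).resolve_right⟩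

theorem PAT4_sideL {v a₀ b₀ : V} (h : Leaf S.E S.y v a₀ b₀ a₀ b₀) {a c₀ d₀ c d : V}
    (ha : a ∈ S.Lf v a₀ b₀) (h' : Leaf S.E S.y a c₀ d₀ c d) :
    (c ∉ S.Rt v a₀ b₀ ∧ d ∉ S.Rt v a₀ b₀) ∨ (((c ∈ S.Lf v a₀ b₀ ∧ d ∈ S.Rt v a₀ b₀) ∨
      (c ∈ S.Rt v a₀ b₀ ∧ d ∈ S.Lf v a₀ b₀)) ∧ 0 < (S.y a₀ - S.y v) * (S.y a - S.y v)) := by
  refine S.leaf_side (S.PAT4_hv v a₀ b₀) (S.PAT4_hAB h) (fun p q e hp hq => ?_) ha h'
  obtain ⟨-, -, -, -, k1, k2⟩ := S.leaf_edge (S.leaf_of_edge e hp hq)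
  exact ⟨mul_comm (S.y p - S.y v) _ ▸ k1, (PAT4_sign (S.leaf_base h).2 k1 k2).1⟩

theorem PAT4_sideR {v a₀ b₀ : V} (h : Leaf S.E S.y v a₀ b₀ a₀ b₀) {a c₀ d₀ c d : V}
    (ha : a ∈ S.Rt v a₀ b₀) (h' : Leaf S.E S.y a c₀ d₀ c d) :
    (c ∉ S.Lf v a₀ b₀ ∧ d ∉ S.Lf v a₀ b₀) ∨ (((c ∈ S.Rt v a₀ b₀ ∧ d ∈ S.Lf v a₀ b₀) ∨
      (c ∈ S.Lf v a₀ b₀ ∧ d ∈ S.Rt v a₀ b₀)) ∧ 0 < (S.y b₀ - S.y v) * (S.y a - S.y v)) := by
  refine S.leaf_side (S.PAT4_hv v a₀ b₀).symm (fun x hx => iff_not_comm.1 (S.PAT4_hAB h x hx))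
    (fun p q e hp hq => ?_) ha h'
  obtain ⟨-, -, -, -, k1, k2⟩ := S.leaf_edge (S.leaf_of_edge (S.tri.symm _ _ e) hq hp)
  exact ⟨mul_comm (S.y p - S.y v) _ ▸ k2, (PAT4_sign (S.leaf_base h).2 k1 k2).2.1⟩

theorem PAT4_le {w u v : V} (h : cyc w u v) : S.dir w u ≤ S.dir w v := by
  rw [S.dir_cyc h]
  exact le_add_of_nonneg_right (Int.natCast_nonneg _)

theorem PAT4_cle {w u v : V} (h : cle w u v) : S.dir w u ≤ S.dir w v := by
  rcases h with rfl | h
  exacts [le_rfl, S.PAT4_le h]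

theorem PAT4_leaf {p m q : V} (h : S.E p q) (hb : Btw S.dir p m q) :
    ∃ a₀ b₀, Leaf S.E S.y m a₀ b₀ a₀ b₀ ∧
      ((p ∈ S.Lf m a₀ b₀ ∧ q ∈ S.Rt m a₀ b₀ ∧ Leaf S.E S.y m a₀ b₀ p q) ∨
        (q ∈ S.Lf m a₀ b₀ ∧ p ∈ S.Rt m a₀ b₀ ∧ Leaf S.E S.y m a₀ b₀ q p)) := by
  rcases cyc_total hb.1.symm hb.ne hb.2.1.symm with k | k
  · obtain ⟨a₀, b₀, h0, h1, h2⟩ := (S.dir_ne_iff k).1 hb.2.2
    exact ⟨a₀, b₀, h0, Or.inl ⟨h1, h2, S.leaf_of_edge h h1 h2⟩⟩
  · obtain ⟨a₀, b₀, h0, h1, h2⟩ := (S.dir_ne_iff k).1 hb.2.2.symm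
    exact ⟨a₀, b₀, h0, Or.inr ⟨h1, h2, S.leaf_of_edge (S.tri.symm _ _ h) h1 h2⟩⟩

theorem PAT4_mid {p c q : V} (h : S.E p q) (hc : cyc p c q) (h1 : S.E p c) (h2 : S.E c q) :
    Btw S.dir p c q ∨ Btw S.dir c p q ∨ Btw S.dir p q c := by
  obtain ⟨n1, n2, n3⟩ := cyc_ne hc
  have t1 := S.tri_dir (w := p) ⟨h1, h, h2, hc⟩
  have t2 := S.tri_dir (w := c) ⟨h2, S.tri.symm _ _ h1, S.tri.symm _ _ h, cyc_rot hc⟩
  have t3 := S.tri_dir (w := q) ⟨S.tri.symm _ _ h, S.tri.symm _ _ h2, h1, cyc_rot (cyc_rot hc)⟩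
  by_cases c1 : (S.y c - S.y p) * (S.y q - S.y p) < 0
  · rw [if_pos c1] at t1
    exact Or.inr (Or.inl ⟨n1.symm, n3.symm, by omega⟩)
  by_cases c2 : (S.y q - S.y c) * (S.y p - S.y c) < 0
  · rw [if_pos c2] at t2
    exact Or.inl ⟨n1, n2.symm, by omega⟩
  by_cases c3 : (S.y p - S.y q) * (S.y c - S.y q) < 0
  · rw [if_pos c3] at t3
    exact Or.inr (Or.inr ⟨n3, n2, by omega⟩)
  exfalso
  rcases (S.hy _ _ h).lt_or_gt with y1 | y1 <;> rcases (S.hy _ _ h1).lt_or_gt with y2 | y2 <;>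
    rcases (S.hy _ _ h2).lt_or_gt with y3 | y3 <;> linarith only [c2, y2, y3, c3, y1, c1, mul_pos_of_neg_of_neg (Mathlib.Tactic.Linarith.sub_neg_of_lt y2) (Mathlib.Tactic.Linarith.sub_neg_of_lt y3), mul_pos_of_neg_of_neg (Mathlib.Tactic.Linarith.sub_neg_of_lt y1) (Mathlib.Tactic.Linarith.sub_neg_of_lt y3), mul_pos_of_neg_of_neg (Mathlib.Tactic.Linarith.sub_neg_of_lt y1) (Mathlib.Tactic.Linarith.sub_neg_of_lt y2)]

theorem t1 : T1 S.dir := by
  intro a v b ha hb hd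
  by_contra hn
  have hab : a ≠ b := fun e => hd (by rw [e])
  rcases cyc_total ha.symm hab hb.symm with k | k
  · obtain ⟨a₀, b₀, h0, h1, h2⟩ := (S.dir_ne_iff k).1 hd
    obtain ⟨c₀, d₀, -, h3, h4⟩ := (S.dir_ne_iff (cyc_rot k)).1 hn
    obtain ⟨c, d, h5, h6, h7⟩ := S.leaf_common h3 h4
    have h8 := (S.leaf_edge h5).2.1
    have c1 : c ∉ S.Lf v a₀ b₀ := fun e => by
      have := S.lf_lt_rt e h2
      unfold cle cyc at *
      grind
    have c2 : d ∉ S.Lf v a₀ b₀ := fun e => by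
      have := S.lf_lt_rt e h2
      unfold cle cyc at *
      grind
    have c3 : c ≠ v := by
      unfold cle cyc at *
      grind
    rcases S.PAT4_sideL h0 h1 h5 with e | ⟨e | e, -⟩
    exacts [c1 ((S.PAT4_hAB h0 c c3).2 e.1), c1 e.1, c2 e.2]
  · obtain ⟨a₀, b₀, h0, h1, h2⟩ := (S.dir_ne_iff k).1 hd.symm
    obtain ⟨c₀, d₀, -, h3, h4⟩ := (S.dir_ne_iff (cyc_rot (cyc_rot k))).1 (Ne.symm hn)
    obtain ⟨c, d, h5, h6, h7⟩ := S.leaf_common h3 h4
    have h8 := (S.leaf_edge h5).2.1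
    have c1 : c ∉ S.Rt v a₀ b₀ := fun e => by
      have := S.lf_lt_rt h1 e
      unfold cle cyc at *
      grind
    have c2 : d ∉ S.Rt v a₀ b₀ := fun e => by
      have := S.lf_lt_rt h1 e
      unfold cle cyc at *
      grind
    have c3 : d ≠ v := by
      unfold cle cyc at *
      grind
    rcases S.PAT4_sideR h0 h2 h5 with e | ⟨e | e, -⟩
    exacts [e.2 ((S.PAT4_hAB h0 d c3).2 c2), c1 e.1, c2 e.2]

theorem finB : FinB S.dir := by
  intro a b
  refine (((S.tri.fin a b).image Prod.fst).union ((S.tri.fin b a).image Prod.fst)).subset ?_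
  rintro u ⟨h1, h2, h3⟩
  have hab : a ≠ b := fun e => h3 (by simp [e])
  rw [abs_le] at h3
  rcases cyc_total h1.symm hab h2.symm with k | k
  · have := S.PAT4_le k
    obtain ⟨x, x1, x2, x3⟩ := S.big_turn k (by omega)
    exact Or.inl ⟨(u, x), ⟨x1, x2, cyc_rot x3⟩, rfl⟩
  · have := S.PAT4_le k
    obtain ⟨x, x1, x2, x3⟩ := S.big_turn k (by omega)
    exact Or.inr ⟨(u, x), ⟨x1, x2, cyc_rot x3⟩, rfl⟩

theorem edge_btw {p m q : V} (h : S.E p q) (hb : Btw S.dir p m q) :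
    (S.y p - S.y m) * (S.y q - S.y m) < 0 ∧ (Even (S.dir m q) ↔ S.y m < S.y q) := by
  obtain ⟨a₀, b₀, h0, k⟩ := S.PAT4_leaf h hb
  obtain ⟨t, t'⟩ := S.leaf_base h0
  have d0 := S.tri_dir t
  rw [if_pos t'] at d0
  have d1 := hb.2.2
  rcases k with ⟨-, -, k⟩ | ⟨-, -, k⟩
  · obtain ⟨-, k1, k2, k3, k4, k5⟩ := S.leaf_edge k
    have := S.PAT4_le k1
    have := S.PAT4_cle k2
    have := S.PAT4_cle k3
    refine ⟨(PAT4_sign t' k4 k5).2.2, ?_⟩
    rw [show S.dir m q = S.dir m b₀ by omega, S.nbr_par t.2.1, (PAT4_iff k5).1]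
  · obtain ⟨-, k1, k2, k3, k4, k5⟩ := S.leaf_edge k
    have := S.PAT4_le k1
    have := S.PAT4_cle k2
    have := S.PAT4_cle k3
    refine ⟨mul_comm (S.y q - S.y m) _ ▸ (PAT4_sign t' k4 k5).2.2, ?_⟩
    rw [show S.dir m q = S.dir m a₀ by omega, S.nbr_par t.1, (PAT4_iff k4).1]

theorem PAT4_mono {p q : V} (h : S.E p q) {m m' : V} (hm : Wb S.dir p m m')
    (hm' : Wb S.dir p m' q) (hne : m ≠ m') : Mono S.dir S.y m m' := by
  have w1 := hm.trans_right S.t1 hm'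
  have w2 := hm.trans_left S.t1 hm'
  have n1 : m ≠ q := w1.ne hne
  have d1 := w1.dir_eq S.t1 hne
  have n2 : p ≠ m' := fun e => hne (by subst e; exact hm.self.symm)
  suffices H : (Even (S.dir m q) ↔ S.y m < S.y q) ∧ 0 < (S.y q - S.y m) * (S.y m' - S.y m) from
    ⟨by rw [← d1, H.1, (PAT4_iff H.2).1], (PAT4_iff H.2).2.2⟩
  by_cases e : p = m
  · subst e
    refine ⟨S.nbr_par h, ?_⟩
    by_cases e' : q = m'
    · subst e'
      exact mul_self_pos.2 (sub_ne_zero.2 (S.hy _ _ h).symm)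
    · have := (S.edge_btw h (hm'.btw n2 e')).1
      linarith only [this, sq_nonneg (S.y m' - S.y p), sq_nonneg (S.y m' - S.y p)]
  have b1 := w2.btw e n1.symm
  obtain ⟨k1, k2⟩ := S.edge_btw h b1
  refine ⟨k2, ?_⟩
  by_cases e' : q = m'
  · subst e'
    exact mul_self_pos.2 (right_ne_zero_of_mul k1.ne)
  obtain ⟨c₀, d₀, -, l⟩ := S.PAT4_leaf h (hm'.btw n2 e')
  obtain ⟨a₀, b₀, h0, ⟨u1, u2, u3⟩ | ⟨u1, u2, u3⟩⟩ := S.PAT4_leaf h b1
  · have v1 : m' ∈ S.Rt m a₀ b₀ := (S.lf_or_rt h0 hne.symm).resolve_left fun v =>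
      (S.dir_ne_iff (S.lf_lt_rt v u2)).2 ⟨a₀, b₀, h0, v, u2⟩ d1.symm
    have v2 : 0 < (S.y b₀ - S.y m) * (S.y m' - S.y m) := by
      rcases l with ⟨-, -, l⟩ | ⟨-, -, l⟩
      · exact ((S.PAT4_sideR h0 v1 l).resolve_left fun v => v.1 u1).2
      · exact ((S.PAT4_sideR h0 v1 l).resolve_left fun v => v.2 u1).2
    have v3 := (S.leaf_edge u3).2.2.2.2.2
    rcases mul_pos_iff.1 v2 with ⟨z1, z2⟩ | ⟨z1, z2⟩
    · exact mul_pos ((pos_iff_pos_of_mul_pos v3).2 z1) z2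
    · exact mul_pos_of_neg_of_neg ((neg_iff_neg_of_mul_pos v3).2 z1) z2
  · have v1 : m' ∈ S.Lf m a₀ b₀ := (S.lf_or_rt h0 hne.symm).resolve_right fun v =>
      (S.dir_ne_iff (S.lf_lt_rt u1 v)).2 ⟨a₀, b₀, h0, u1, v⟩ d1
    have v2 : 0 < (S.y a₀ - S.y m) * (S.y m' - S.y m) := by
      rcases l with ⟨-, -, l⟩ | ⟨-, -, l⟩
      · exact ((S.PAT4_sideL h0 v1 l).resolve_left fun v => v.1 u2).2
      · exact ((S.PAT4_sideL h0 v1 l).resolve_left fun v => v.2 u2).2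
    have v3 := (S.leaf_edge u3).2.2.2.2.1
    rcases mul_pos_iff.1 v2 with ⟨z1, z2⟩ | ⟨z1, z2⟩
    · exact mul_pos ((pos_iff_pos_of_mul_pos v3).2 z1) z2
    · exact mul_pos_of_neg_of_neg ((neg_iff_neg_of_mul_pos v3).2 z1) z2

theorem edge_mono {p q : V} (h : S.E p q) {m m' : V} (hm : Wb S.dir p m q)
    (hm' : Wb S.dir p m' q) (hne : m ≠ m') : Mono S.dir S.y m m' := by
  rcases hm.total S.t1 hm' with k | k
  · exact S.PAT4_mono h k hm' hne
  · exact S.PAT4_mono (S.tri.symm _ _ h) (k.trans_right S.t1 hm).symm hm'.symm hne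

theorem PAT4_med (a : V) : ∀ p q, S.E p q → cyc p a q →
    ∃ m, Wb S.dir a m p ∧ Wb S.dir p m q ∧ Wb S.dir q m a := by
  refine S.desc a _ fun p q c h ha hc h1 h2 i1 i2 => ?_
  have H := S.PAT4_mid h hc h1 h2
  have k : a = c ∨ cyc p a c ∨ cyc c a q := by
    unfold cyc at ha hc ⊢
    grind
  rcases k with rfl | k | k
  · rcases H with H | H | H
    · exact ⟨a, wb_left _ _, H.wb, wb_right _ _⟩
    · exact ⟨p, wb_right _ _, wb_left _ _, H.wb.symm⟩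
    · exact ⟨q, H.wb.symm, wb_right _ _, wb_left _ _⟩
  · obtain ⟨m, m1, m2, m3⟩ := i1 k
    refine PAT4_step S.t1 H (fun b => Or.inr (Or.inr ?_)) (fun b => Or.inr (Or.inr ?_)) m1 m2 m3
    · have := S.PAT4_le (cyc_rot hc)
      have := S.PAT4_le (cyc_rot (cyc_rot k))
      have := b.2.2
      omega
    · have := S.PAT4_le hc
      have := S.PAT4_le k
      have := b.2.2
      omega
  · obtain ⟨m, m1, m2, m3⟩ := i2 k
    have H' : Btw S.dir q c p ∨ Btw S.dir c q p ∨ Btw S.dir q p c := by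
      rcases H with H | H | H
      exacts [Or.inl H.symm, Or.inr (Or.inr H.symm), Or.inr (Or.inl H.symm)]
    obtain ⟨m', n1, n2, n3⟩ := PAT4_step S.t1 H' (a := a) (fun b => Or.inr (Or.inr (by
      have := S.PAT4_le (cyc_rot hc)
      have := S.PAT4_le k
      have := b.2.2
      omega))) (fun b => Or.inr (Or.inr (by
      have := S.PAT4_le (cyc_rot (cyc_rot hc))
      have := S.PAT4_le (cyc_rot (cyc_rot k))
      have := b.2.2
      omega))) m3.symm m2.symm m1.symm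
    exact ⟨m', n3.symm, n2.symm, n1.symm⟩

theorem edge_med (a : V) {p q : V} (h : S.E p q) :
    ∃ m, Wb S.dir a m p ∧ Wb S.dir p m q ∧ Wb S.dir q m a := by
  by_cases e1 : p = a
  · exact ⟨p, wb_right _ _, wb_left _ _, Or.inr (Or.inl e1.symm)⟩
  by_cases e2 : a = q
  · exact ⟨q, Or.inl e2, wb_right _ _, wb_left _ _⟩
  rcases cyc_total e1 e2 (S.E_ne h) with k | k
  · exact S.PAT4_med a p q h k
  · obtain ⟨m, m1, m2, m3⟩ := S.PAT4_med a q p (S.tri.symm _ _ h) (cyc_rot k)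
    exact ⟨m, m3.symm, m2.symm, m1.symm⟩

theorem med : Med S.dir := med_of_edges S.t1 S.E S.conn fun a _ _ h => S.edge_med a h

theorem monoAll : MonoAll S.dir S.y :=
  mono_of_edges S.t1 S.med S.y S.E S.conn fun _ _ h _ _ h1 h2 h3 => S.edge_mono h h1 h2 h3

end TH

end Pool.Agent.Work.MP_3d425c_gt.Bor
end

-- merged part: Pool.Agent.Work.MP_3d425c_gt.PAT5
section
/-! Ideal triangulations: the group action and the final theorem. -/

namespace Pool.Agent.Work.MP_3d425c_gt.Bor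
open Classical PA

section aux
variable {V Γ : Type} [LinearOrder V] [Group Γ] [MulAction Γ V]

theorem PAT5_zpow (H : Subgroup Γ) (f : Γ → ℤ) (hf : ∀ g ∈ H, ∀ h ∈ H, f (g * h) = f g + f h)
    {g : Γ} (hg : g ∈ H) (k : ℤ) : f (g ^ k) = k * f g := by
  let φ : H →* Multiplicative ℤ := MonoidHom.mk' (fun x => Multiplicative.ofAdd (f x))
    fun a b => congrArg Multiplicative.ofAdd (hf a a.2 b b.2)
  have := congrArg Multiplicative.toAdd (map_zpow φ ⟨g, hg⟩ k)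
  simpa [φ] using this

theorem PAT5_inv (H : Subgroup Γ) (f : Γ → ℤ) (hf : ∀ g ∈ H, ∀ h ∈ H, f (g * h) = f g + f h)
    {g : Γ} (hg : g ∈ H) : f g⁻¹ = -f g := by
  simpa using PAT5_zpow H f hf hg (-1)

omit [LinearOrder V] in
theorem PAT5_ne (g : Γ) {u w : V} (h : u ≠ w) : g • u ≠ g • w := fun e => h (MulAction.injective g e)

omit [LinearOrder V] in
theorem PAT5_ne' {g : Γ} {u w : V} (hg : g • w = w) (h : u ≠ w) : g • u ≠ w := by
  have := PAT5_ne g h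
  rwa [hg] at this

namespace TH
variable (S : TH V)

/-- The prongs are permuted. -/
def PAT5P (Γ : Type) [Group Γ] [MulAction Γ V] : Prop :=
  ∀ (g : Γ) w X, Prong S.E S.y w X → Prong S.E S.y (g • w) ((g • ·) '' X)

/-- The rotation cocycle. -/
noncomputable def PAT5c (g : Γ) (w : V) : ℤ := S.dir (g • w) (g • S.o w) - S.dir w (S.o w)

theorem PAT5_o (w : V) : S.o w ≠ w := (S.E_ne (S.o_spec w)).symm

variable {S} (h : S.PAT5P Γ)
include h

theorem PAT5_prong (g : Γ) (w : V) (X : Set V) :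
    Prong S.E S.y (g • w) ((g • ·) '' X) ↔ Prong S.E S.y w X := by
  refine ⟨fun k => ?_, h g w X⟩
  simpa [Set.image_image] using h g⁻¹ _ _ k

theorem PAT5_N (g : Γ) (w u v : V) : S.N (g • w) (g • u) (g • v) = S.N w u v := by
  unfold N
  rw [← finsum_comp_equiv (Equiv.Set.congr (MulAction.toPerm g : V ≃ V))]
  refine finsum_congr fun X => ?_
  have e : Equiv.Set.congr (MulAction.toPerm g : V ≃ V) X = (g • ·) '' X := rfl
  have e' : ∀ x, g • x ∈ (g • ·) '' X ↔ x ∈ X := fun x => (MulAction.injective g).mem_set_image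
  simp only [e, e', PAT5_prong h]

theorem PAT5_equiv (g : Γ) (u v : V) (hv : v ≠ u) :
    S.dir (g • u) (g • v) = S.dir u v + S.PAT5c g u := by
  have h1 := S.dir_sub (PAT5_ne g (S.PAT5_o u)) (PAT5_ne g hv)
  have h2 := S.dir_sub (S.PAT5_o u) hv
  rw [PAT5_N h] at h1
  unfold PAT5c
  omega

theorem PAT5_fix {g : Γ} {w v : V} (hg : g • w = w) (hv : v ≠ w) :
    S.dir w (g • v) = S.dir w v + S.PAT5c g w := by
  have := PAT5_equiv h g w v hv
  rwa [hg] at this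

theorem PAT5_mul (g g' : Γ) (u : V) : S.PAT5c (g * g') u = S.PAT5c g (g' • u) + S.PAT5c g' u := by
  have h1 := PAT5_equiv h (g * g') u _ (S.PAT5_o u)
  rw [mul_smul, mul_smul, PAT5_equiv h g _ _ (PAT5_ne g' (S.PAT5_o u)),
    PAT5_equiv h g' _ _ (S.PAT5_o u)] at h1
  omega

theorem PAT5_stab (w : V) : ∀ g ∈ MulAction.stabilizer Γ w, ∀ g' ∈ MulAction.stabilizer Γ w,
    S.PAT5c (g * g') w = S.PAT5c g w + S.PAT5c g' w := fun g _ g' hg' => by
  rw [PAT5_mul h, MulAction.mem_stabilizer_iff.1 hg']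

theorem PAT5_cz {g : Γ} {w : V} (hg : g • w = w) (k : ℤ) :
    S.PAT5c (g ^ k) w = k * S.PAT5c g w :=
  PAT5_zpow (MulAction.stabilizer Γ w) (fun g => S.PAT5c g w) (PAT5_stab h w) hg k

theorem PAT5_conj (g : Γ) {g' : Γ} {w : V} (hg : g' • w = w) :
    S.PAT5c (g * g' * g⁻¹) (g • w) = S.PAT5c g' w := by
  have h1 := PAT5_mul h (g * g' * g⁻¹) g w
  rw [inv_mul_cancel_right, PAT5_mul h, hg] at h1
  omega

theorem PAT5_abs {g : Γ} {w : V} (hg : g • w = w) :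
    |S.PAT5c g w| = prongs S.E S.y w (S.o w) (g • S.o w) := by
  rw [← S.abs_dir (S.PAT5_o w) (PAT5_ne' hg (S.PAT5_o w)), PAT5_fix h hg (S.PAT5_o w),
    add_sub_cancel_left]

theorem PAT5_surj {g : Γ} {w : V} (hg : g • w = w) (hc : 0 < S.PAT5c g w) (i : ℤ) :
    ∃ v, v ≠ w ∧ S.dir w v = i := by
  have hs : ∀ k : ℤ, g ^ k • w = w := fun k =>
    (MulAction.stabilizer Γ w).zpow_mem (MulAction.mem_stabilizer_iff.2 hg) k
  have h1 : S.dir w (g ^ (-|i - S.dir w (S.o w)|) • S.o w) ≤ i := by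
    rw [PAT5_fix h (hs _) (S.PAT5_o w), PAT5_cz h hg]
    linarith only [hc, abs_nonneg (i - S.dir w (S.o w)), neg_abs_le (i - S.dir w (S.o w)), mul_nonneg_of_nonpos_of_nonpos (Mathlib.Tactic.Linarith.sub_nonpos_of_le (Int.add_one_le_iff.mpr hc)) (Mathlib.Tactic.Linarith.sub_nonpos_of_le (abs_nonneg (i - S.dir w (S.o w))))]
  refine Int.leInduction (motive := fun n _ => ∃ v, v ≠ w ∧ S.dir w v = n)
    ⟨_, PAT5_ne' (hs _) (S.PAT5_o w), rfl⟩ ?_ i h1
  rintro n - ⟨v, hv, rfl⟩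
  refine S.unit_step hv (PAT5_ne' hg hv) ?_
  rw [PAT5_fix h hg hv]
  omega

omit h in
theorem PAT5_le {w u v : V} (k : cle w u v) : S.dir w u ≤ S.dir w v := by
  rcases k with rfl | k
  · exact le_rfl
  · rw [S.dir_cyc k]
    omega

omit h in
/-- An increasing two-sided sequence of neighbours is cofinal. -/
theorem PAT5_cof {w : V} (a : ℤ → V) (hE : ∀ k, S.E w (a k)) (hc : ∀ k, cyc w (a k) (a (k + 1)))
    {u : V} (hu : u ≠ w) : (∃ k, cle w u (a k)) ∧ ∃ k, cle w (a k) u := by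
  have h1 : ∀ k l, k < l → cyc w (a k) (a l) := fun k l hl =>
    Int.leInduction (motive := fun n _ => cyc w (a k) (a n)) (hc k)
      (fun n _ ih => cyc_trans ih (hc n)) l hl
  have h2 : Function.Injective a := fun k l e => by
    by_contra hn
    rcases lt_or_gt_of_ne hn with q | q
    · exact (cyc_ne (h1 _ _ q)).2.1 e
    · exact (cyc_ne (h1 _ _ q)).2.1 e.symm
  constructor
  · by_contra hn
    simp only [cle, not_exists, not_or] at hn
    refine Set.infinite_of_injective_forall_mem (f := fun n : ℕ => (w, a (n + 1)))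
      (fun m n e => ?_) (fun n => ?_) (S.tri.fin (a 0) u)
    · have := h2 (congrArg Prod.snd e)
      omega
    · exact ⟨hE _, h1 _ _ (by omega), cyc_rot
        ((cyc_total hu.symm (hn _).1 (S.E_ne (hE _))).resolve_left (hn _).2)⟩
  · by_contra hn
    simp only [cle, not_exists, not_or] at hn
    refine Set.infinite_of_injective_forall_mem (f := fun n : ℕ => (w, a (-(n + 1))))
      (fun m n e => ?_) (fun n => ?_) (S.tri.fin u (a 0))
    · have := h2 (congrArg Prod.snd e)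
      omega
    · exact ⟨hE _, (cyc_total (S.E_ne (hE _)) (hn _).1 hu.symm).resolve_left (hn _).2,
        cyc_rot (h1 _ _ (by omega))⟩

theorem PAT5_rot (hcyc : ∀ (g : Γ) (a b c : V), cyc a b c → cyc (g • a) (g • b) (g • c))
    {g g' : Γ} {w : V} (hg : g • w = w) (hc : S.PAT5c g w = 0)
    (hE : ∀ k : ℤ, S.E w (g ^ k • S.o w)) (h0 : cyc w (S.o w) (g • S.o w)) (hg' : g' • w = w) :
    S.PAT5c g' w = 0 := by
  have hs : ∀ k : ℤ, g ^ k • w = w := fun k =>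
    (MulAction.stabilizer Γ w).zpow_mem (MulAction.mem_stabilizer_iff.2 hg) k
  have h1 : ∀ k : ℤ, S.dir w (g ^ k • S.o w) = S.dir w (S.o w) := fun k => by
    rw [PAT5_fix h (hs _) (S.PAT5_o w), PAT5_cz h hg, hc, mul_zero, add_zero]
  obtain ⟨⟨k, h2⟩, l, h3⟩ := PAT5_cof (fun k => g ^ k • S.o w) hE (fun k => by
    have := hcyc (g ^ k) _ _ _ h0
    rwa [hs, ← mul_smul, ← zpow_add_one] at this) (PAT5_ne' hg' (S.PAT5_o w))
  have h4 := PAT5_le (S := S) h2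
  have h5 := PAT5_le (S := S) h3
  rw [h1, PAT5_fix h hg' (S.PAT5_o w)] at h4 h5
  omega

end TH

end aux

theorem pa_main {V Γ : Type} [LinearOrder V] [Countable V] [Group Γ] [MulAction Γ V]
    (E : V → V → Prop) (y : V → ℝ) (deg e : Γ → ℤ) (lam : ℝ) (γ : V → Γ)
    (hE : IdealTri E) (hy : ∀ a b, E a b → y a ≠ y b)
    (nos : ∀ w a₀ b₀ a b c, Leaf E y w a₀ b₀ a b → cyc a c b → E a c → E c b → y c ≠ y w)
    (hcyc : ∀ (g : Γ) (a b c : V), cyc a b c → cyc (g • a) (g • b) (g • c))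
    (hprong : ∀ (g : Γ) w S, Prong E y w S → Prong E y (g • w) ((g • ·) '' S))
    (hdeg : ∀ g h, deg (g * h) = deg g + deg h) (he : ∀ g h, e (g * h) = e g + e h)
    (hlam : 1 < lam) (haff : ∀ g : Γ, ∃ t, ∀ v, y (g • v) = (-1) ^ e g * lam ^ deg g * y v + t)
    (hfib : ∀ g : Γ, deg g = 0 → ∀ a b, E a b → E (g • a) (g • b) ∧ (g • a = a → g • b = b → g = 1))
    (hper : ∀ w : V, (∃ g : Γ, g • w = w ∧ deg g ≠ 0) ∧ ∃ g : Γ, g ≠ 1 ∧ g • w = w ∧ deg g = 0)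
    (hfix : ∀ w, γ w • w = w) (hconj : ∀ (g : Γ) w, γ (g • w) = g * γ w * g⁻¹)
    (hprim : ∀ w (s : Γ) (k l : ℤ), s • w = w → s ^ k = γ w ^ l → k ∣ l)
    (hslope : ∀ w u, u ≠ w → 0 < |e (γ w)| ∧ |e (γ w)| < prongs E y w u (γ w • u)) :
    ∃ (Ω : Type) (_ : LinearOrder Ω) (ρ : Γ →* (Ω ≃o Ω)), ρ ≠ 1 ∧
      ∀ g, ρ g = 1 ↔ g ∈ Subgroup.normalClosure (Set.range γ) := by
  let S : TH V := ⟨E, y, hE, hy, nos⟩
  have h : S.PAT5P Γ := hprong
  have dz : ∀ (g : Γ) (k : ℤ), deg (g ^ k) = k * deg g := fun g k =>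
    PAT5_zpow ⊤ deg (fun g _ g' _ => hdeg g g') trivial k
  have di : ∀ g : Γ, deg g⁻¹ = -deg g := fun g =>
    PAT5_inv ⊤ deg (fun g _ g' _ => hdeg g g') trivial
  have ei : ∀ g : Γ, e g⁻¹ = -e g := fun g => PAT5_inv ⊤ e (fun g _ g' _ => he g g') trivial
  have ci : ∀ {g : Γ} {w : V}, g • w = w → S.PAT5c g⁻¹ w = -S.PAT5c g w := fun hg => by
    simpa using TH.PAT5_cz h hg (-1)
  have cz : ∀ {g : Γ} {w : V}, g • w = w → ∀ k : ℤ, S.PAT5c (g ^ k) w = k * S.PAT5c g w :=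
    TH.PAT5_cz h
  have fi : ∀ {g : Γ} {w : V}, g • w = w → g⁻¹ • w = w := fun hg => inv_smul_eq_iff.2 hg.symm
  have fz : ∀ {g : Γ} {w : V}, g • w = w → ∀ k : ℤ, g ^ k • w = w := fun hg k =>
    (MulAction.stabilizer Γ _).zpow_mem (MulAction.mem_stabilizer_iff.2 hg) k
  have sl : ∀ w, 0 < |e (γ w)| ∧ |e (γ w)| < |S.PAT5c (γ w) w| := fun w => by
    rw [TH.PAT5_abs h (hfix w)]
    exact hslope w _ (S.PAT5_o w)
  have rot : ∀ (g : Γ) w, g • w = w → S.PAT5c g w = 0 → deg g = 0 →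
      ¬ cyc w (S.o w) (g • S.o w) := fun g w hg hc hd h0 => by
    have h1 := TH.PAT5_rot h hcyc hg hc (fun k => by
      have := (hfib (g ^ k) (by rw [dz, hd, mul_zero]) _ _ (S.o_spec w)).1
      rwa [fz hg] at this) h0 (hfix w)
    have h2 := sl w
    rw [h1, abs_zero] at h2
    omega
  have free : ∀ (g : Γ) w, g • w = w → S.PAT5c g w = 0 → deg g = 0 → g = 1 := by
    intro g w hg hc hd
    refine (hfib g hd _ _ (S.o_spec w)).2 hg ?_
    by_contra hn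
    rcases cyc_total (S.PAT5_o w).symm (Ne.symm hn) (PAT5_ne' hg (S.PAT5_o w)).symm with k | k
    · exact rot g w hg hc hd k
    · refine rot g⁻¹ w (fi hg) (by rw [ci hg, hc, neg_zero]) (by rw [di, hd, neg_zero]) ?_
      have := hcyc g⁻¹ _ _ _ k
      rwa [fi hg, inv_smul_smul] at this
  have hyp : ∀ w, ∃ g : Γ, g • w = w ∧ S.PAT5c g w = 0 ∧ 0 < deg g := by
    intro w
    obtain ⟨⟨g₁, f₁, d₁⟩, g₀, n₀, f₀, d₀⟩ := hper w
    have c₀ : S.PAT5c g₀ w ≠ 0 := fun k => n₀ (free g₀ w f₀ k d₀)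
    obtain ⟨T, hT, cT, dT⟩ : ∃ T : Γ, T • w = w ∧ S.PAT5c T w = 0 ∧ deg T ≠ 0 := by
      refine ⟨g₁ ^ S.PAT5c g₀ w * g₀ ^ (-S.PAT5c g₁ w), by rw [mul_smul, fz f₀, fz f₁], ?_, ?_⟩
      · rw [TH.PAT5_mul h, fz f₀, cz f₀, cz f₁]
        ring
      · rw [hdeg, dz, dz, d₀, mul_zero, add_zero]
        exact mul_ne_zero c₀ d₁
    rcases lt_or_gt_of_ne dT with k | k
    · exact ⟨T⁻¹, fi hT, by rw [ci hT, cT, neg_zero], by rw [di]; omega⟩
    · exact ⟨T, hT, cT, k⟩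
  obtain ⟨γ', hγ⟩ : ∃ γ' : V → Γ, ∀ w, γ' w = if 0 < S.PAT5c (γ w) w then γ w else (γ w)⁻¹ :=
    ⟨_, fun _ => rfl⟩
  have f' : ∀ w, γ' w • w = w := fun w => by
    rw [hγ]
    split_ifs
    exacts [hfix w, fi (hfix w)]
  have s' : ∀ w, e (γ' w) ≠ 0 ∧ |e (γ' w)| < S.PAT5c (γ' w) w := fun w => by
    obtain ⟨h1, h2⟩ := sl w
    rw [hγ]
    split_ifs with k
    · exact ⟨abs_pos.1 h1, by rwa [abs_of_pos k] at h2⟩
    · rw [ei, ci (hfix w), abs_neg, neg_ne_zero]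
      exact ⟨abs_pos.1 h1, by rwa [abs_of_nonpos (not_lt.1 k)] at h2⟩
  let M : MT Γ V :=
    { dir := S.dir, y := y, c := S.PAT5c, e := e, deg := deg, lam := lam, γ := γ'
      t1 := S.t1, fin := S.finB, med := S.med, mono := S.monoAll
      equiv := TH.PAT5_equiv h
      e_mul := he, deg_mul := hdeg, lam_gt := hlam, y_smul := haff
      surj := fun w => TH.PAT5_surj h (f' w) ((abs_nonneg _).trans_lt (s' w).2)
      free := free, hyp := hyp, γ_fix := f'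
      γ_smul := fun g w => by
        rw [hγ, hγ, hconj, TH.PAT5_conj h g (hfix w)]
        split_ifs
        · rfl
        · group
      he0 := fun w => (s' w).1
      he1 := fun w => (s' w).2
      prim := fun w s k l hs q => by
        rw [hγ] at q
        split_ifs at q
        · exact hprim w s k l hs q
        · rw [inv_zpow'] at q
          exact dvd_neg.1 (hprim w s k _ hs q)
      cnt := inferInstance
      ne := ⟨hE.ne.choose⟩ }
  obtain ⟨Ω, _, ρ, h1, h2⟩ := M.exists_order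
  refine ⟨Ω, inferInstance, ρ, h1, fun g => (h2 g).trans ?_⟩
  have h3 : Subgroup.normalClosure (Set.range γ') = Subgroup.normalClosure (Set.range γ) := by
    refine le_antisymm (Subgroup.normalClosure_le_normal ?_) (Subgroup.normalClosure_le_normal ?_)
    · rintro _ ⟨w, rfl⟩
      have := Subgroup.subset_normalClosure (s := Set.range γ) ⟨w, rfl⟩
      rw [hγ]
      split_ifs
      exacts [this, inv_mem this]
    · rintro _ ⟨w, rfl⟩
      have := Subgroup.subset_normalClosure (s := Set.range γ') ⟨w, rfl⟩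
      rw [hγ] at this
      split_ifs at this
      exacts [this, inv_mem_iff.1 this]
  exact h3 ▸ Iff.rfl

end Pool.Agent.Work.MP_3d425c_gt.Bor
end
end

-- merged part: Pool.Agent.Work.MP_3d425c_gt.PB1
section
/-! The geometric realisation: basic facts. -/

namespace Pool.Agent.Work.MP_3d425c_gt.Bor
open Classical PA

variable {V : Type} [LinearOrder V]

/-- The point with barycentric coordinates `s, t, u`. -/
noncomputable def bary (a b c : V) (s t u : ℝ) : V → ℝ :=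
  Pi.single a s + Pi.single b t + Pi.single c u

/-- The support of `x` lies in `{a, b, c}`. -/
def OnTri (x : V → ℝ) (a b c : V) : Prop := ∀ v, x v ≠ 0 → v = a ∨ v = b ∨ v = c

variable {E : V → V → Prop}

theorem PB1_ne (hE : IdealTri E) {a b : V} (h : E a b) : a ≠ b := by
  obtain ⟨c, hc, -⟩ := hE.apex a b h
  exact (cyc_ne hc).2.2

theorem PB1_apex (hE : IdealTri E) {a b c c' : V} (h1 : cyc a c b) (h2 : E a c) (h3 : E c b)
    (h4 : cyc a c' b) (h5 : E a c') (h6 : E c' b) : c = c' := by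
  by_contra hne
  rcases cyc_total (cyc_ne h1).1 hne (cyc_ne h4).1 with k | k
  · exact hE.nocross a c' c b h5 h3 k (cyc_rot h4)
  · exact hE.nocross a c c' b h2 h6 k (cyc_rot h1)

theorem PB1_desc (hE : IdealTri E) (w : V) (Q : V → V → Prop)
    (h : ∀ p q c, E p q → cyc p w q → cyc p c q → E p c → E c q →
      (cyc p w c → Q p c) → (cyc c w q → Q c q) → Q p q) :
    ∀ p q, E p q → cyc p w q → Q p q := by
  intro p₀ q₀ hE₀ hc₀
  obtain ⟨z, hz, -⟩ := hE.apex q₀ p₀ (hE.symm _ _ hE₀)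
  obtain ⟨A, hA⟩ : ∃ A : V → V → Set (V × V), ∀ p q, A p q =
      {x | (E x.1 x.2 ∧ cyc x.1 w x.2 ∧ cyc x.2 z x.1) ∧
        (x.1 = p ∨ cyc p x.1 q) ∧ (x.2 = q ∨ cyc p x.2 q)} := ⟨_, fun _ _ => rfl⟩
  have hfin : ∀ p q, (A p q).Finite := fun p q =>
    (hE.fin w z).subset (by rw [hA]; exact fun x hx => hx.1)
  have key : ∀ n p q, E p q → cyc p w q → cyc q z p → (A p q).ncard = n → Q p q := by
    intro n
    induction n using Nat.strong_induction_on with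
    | _ n ih =>
      intro p q hpq h1 h2 hn
      obtain ⟨c, hc, e1, e2⟩ := hE.apex p q hpq
      have hm : (p, q) ∈ A p q := by
        rw [hA]
        exact ⟨⟨hpq, h1, h2⟩, Or.inl rfl, Or.inl rfl⟩
      refine h p q c hpq h1 hc e1 e2 (fun k => ?_) fun k => ?_
      · refine ih _ ?_ p c e1 k (PAT1_a hc h2) rfl
        rw [← hn]
        refine Set.ncard_lt_ncard ⟨fun x hx => ?_, fun hs => ?_⟩ (hfin p q)
        · rw [hA] at hx ⊢
          exact ⟨hx.1, hx.2.1.imp id (PAT1_c hc), Or.inr (hx.2.2.elim (· ▸ hc) (PAT1_c hc))⟩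
        · have := hs hm
          rw [hA] at this
          exact this.2.2.elim (fun e => (cyc_ne hc).2.1 e.symm) (cyc_asymm hc)
      · refine ih _ ?_ c q e2 k (PAT1_b hc h2) rfl
        rw [← hn]
        refine Set.ncard_lt_ncard ⟨fun x hx => ?_, fun hs => ?_⟩ (hfin p q)
        · rw [hA] at hx ⊢
          exact ⟨hx.1, Or.inr (hx.2.1.elim (· ▸ hc) (PAT1_d hc)), hx.2.2.imp id (PAT1_d hc)⟩
        · have := hs hm
          rw [hA] at this
          exact this.2.1.elim (cyc_ne hc).1 (cyc_asymm (cyc_rot hc))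
  exact key _ p₀ q₀ hE₀ hc₀ hz rfl

theorem PB1_nbr (hE : IdealTri E) (w : V) : ∃ a, E w a := by
  obtain ⟨p, q, hpq⟩ := hE.ne
  have key := PB1_desc hE w (fun _ _ => ∃ a, E w a) fun p q c _ h1 h2 e1 _ k1 k2 => by
    rcases PAT1_e h1 h2 with k | k | k
    exacts [⟨p, k ▸ hE.symm _ _ e1⟩, k1 k, k2 k]
  by_cases e1 : p = w
  · exact ⟨q, e1 ▸ hpq⟩
  by_cases e2 : w = q
  · exact ⟨p, e2 ▸ hE.symm _ _ hpq⟩
  rcases cyc_total e1 e2 (PB1_ne hE hpq) with k | k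
  exacts [key p q hpq k, key q p (hE.symm _ _ hpq) (cyc_rot k)]

theorem PB1_hull {x p q r : V → ℝ} : x ∈ convexHull ℝ ({p, q, r} : Set (V → ℝ)) ↔
    ∃ s t u : ℝ, 0 ≤ s ∧ 0 ≤ t ∧ 0 ≤ u ∧ s + t + u = 1 ∧ x = s • p + t • q + u • r := by
  constructor
  · intro hx
    refine convexHull_min (t := {x | ∃ s t u : ℝ, 0 ≤ s ∧ 0 ≤ t ∧ 0 ≤ u ∧ s + t + u = 1 ∧
      x = s • p + t • q + u • r}) ?_ ?_ hx
    · rintro z (rfl | rfl | rfl)
      · exact ⟨1, 0, 0, by simp⟩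
      · exact ⟨0, 1, 0, by simp⟩
      · exact ⟨0, 0, 1, by simp⟩
    · rintro z ⟨s, t, u, h1, h2, h3, h4, rfl⟩ z' ⟨s', t', u', k1, k2, k3, k4, rfl⟩ α β hα hβ hs
      refine ⟨α * s + β * s', α * t + β * t', α * u + β * u', by positivity, by positivity,
        by positivity, by linear_combination α * h4 + β * k4 + hs, ?_⟩
      module
  · rintro ⟨s, t, u, h1, h2, h3, h4, rfl⟩
    have := (convex_convexHull ℝ ({p, q, r} : Set (V → ℝ))).sum_mem (t := Finset.univ)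
      (w := ![s, t, u]) (z := ![p, q, r]) (fun i _ => by fin_cases i <;> simpa)
      (by simpa [Fin.sum_univ_three] using h4)
      fun i _ => subset_convexHull ℝ _ (by fin_cases i <;> simp)
    simpa [Fin.sum_univ_three] using this

theorem PB1_smul (a b c : V) (s t u : ℝ) : bary a b c s t u =
    s • (Pi.single a 1 : V → ℝ) + t • (Pi.single b 1 : V → ℝ) + u • (Pi.single c 1 : V → ℝ) := by
  simp only [bary, ← Pi.single_smul, smul_eq_mul, mul_one]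

theorem PB1_swap (a b c : V) (s t u : ℝ) : bary a b c s t u = bary a c b s u t := by
  unfold bary
  abel

theorem PB1_rot (a b c : V) (s t u : ℝ) : bary a b c s t u = bary b c a t u s := by
  unfold bary
  abel

theorem PB1_val {a b c : V} (h : cyc a b c) (s t u : ℝ) :
    bary a b c s t u a = s ∧ bary a b c s t u b = t ∧ bary a b c s t u c = u := by
  obtain ⟨h1, h2, h3⟩ := cyc_ne h
  simp [bary, h1, h2, h3, h1.symm, h2.symm, h3.symm]

theorem PB1_on (a b c : V) (s t u : ℝ) : OnTri (bary a b c s t u) a b c := by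
  intro v hv
  by_contra hn
  simp only [not_or] at hn
  exact hv (by simp [bary, hn.1, hn.2.1, hn.2.2])

theorem mem_disc (hE : IdealTri E) {x : V → ℝ} : x ∈ Disc E ↔ ∃ a b c s t u, E a b ∧ E b c ∧
    E a c ∧ cyc a b c ∧ 0 ≤ s ∧ 0 ≤ t ∧ 0 ≤ u ∧ s + t + u = 1 ∧ x = bary a b c s t u := by
  constructor
  · rintro ⟨a, b, c, h1, h2, h3, hx⟩
    obtain ⟨s, t, u, k1, k2, k3, k4, hx⟩ := PB1_hull.1 hx
    rw [← PB1_smul] at hx
    rcases cyc_total (PB1_ne hE h1) (PB1_ne hE h2) (PB1_ne hE h3).symm with k | k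
    · exact ⟨a, b, c, s, t, u, h1, h2, hE.symm _ _ h3, k, k1, k2, k3, k4, hx⟩
    · exact ⟨a, c, b, s, u, t, hE.symm _ _ h3, hE.symm _ _ h2, h1, k, k1, k3, k2, by linarith only [k4],
        hx.trans (PB1_swap _ _ _ _ _ _)⟩
  · rintro ⟨a, b, c, s, t, u, h1, h2, h3, -, k1, k2, k3, k4, hx⟩
    exact ⟨a, b, c, h1, h2, hE.symm _ _ h3,
      PB1_hull.2 ⟨s, t, u, k1, k2, k3, k4, hx.trans (PB1_smul _ _ _ _ _ _)⟩⟩

theorem PB1_ht_sum (y : V → ℝ) {x : V → ℝ} (W : Finset V) (h : ∀ v, x v ≠ 0 → v ∈ W) :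
    ht y x = ∑ v ∈ W, x v * y v :=
  finsum_eq_sum_of_support_subset _ fun v hv => h v (left_ne_zero_of_mul hv)

theorem ht_bary (y : V → ℝ) (a b c : V) (s t u : ℝ) :
    ht y (bary a b c s t u) = s * y a + t * y b + u * y c := by
  rw [PB1_ht_sum y {a, b, c} fun v hv => by simpa using PB1_on a b c s t u v hv]
  have key : ∀ d ∈ ({a, b, c} : Finset V), ∀ r : ℝ,
      ∑ v ∈ ({a, b, c} : Finset V), (Pi.single d r : V → ℝ) v * y v = r * y d := by
    intro d hd r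
    rw [Finset.sum_eq_single_of_mem d hd fun v _ hv => by simp [hv]]
    simp
  simp only [bary, Pi.add_apply, add_mul, Finset.sum_add_distrib]
  rw [key a (by simp), key b (by simp), key c (by simp)]

theorem disc_nonneg (hE : IdealTri E) {x : V → ℝ} (hx : x ∈ Disc E) (v : V) :
    0 ≤ x v ∧ x v ≤ 1 := by
  obtain ⟨a, b, c, s, t, u, -, -, -, k, k1, k2, k3, k4, rfl⟩ := (mem_disc hE).1 hx
  obtain ⟨e1, e2, e3⟩ := PB1_val k s t u
  by_cases h : bary a b c s t u v = 0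
  · rw [h]; exact ⟨le_rfl, zero_le_one⟩
  rcases PB1_on a b c s t u v h with rfl | rfl | rfl
  · rw [e1]; exact ⟨k1, by linarith only [k2, k3, k4]⟩
  · rw [e2]; exact ⟨k2, by linarith⟩
  · rw [e3]; exact ⟨k3, by linarith⟩

theorem eq_bary (hE : IdealTri E) {x : V → ℝ} (hx : x ∈ Disc E) {a b c : V} (h : cyc a b c)
    (ho : OnTri x a b c) : 0 ≤ x a ∧ 0 ≤ x b ∧ 0 ≤ x c ∧ x a + x b + x c = 1 ∧
      x = bary a b c (x a) (x b) (x c) := by
  have e : x = bary a b c (x a) (x b) (x c) := by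
    obtain ⟨e1, e2, e3⟩ := PB1_val h (x a) (x b) (x c)
    funext v
    by_cases hv : v = a ∨ v = b ∨ v = c
    · rcases hv with rfl | rfl | rfl
      exacts [e1.symm, e2.symm, e3.symm]
    · have h1 : x v = 0 := by_contra fun k => hv (ho v k)
      have h2 : bary a b c (x a) (x b) (x c) v = 0 := by_contra fun k => hv (PB1_on _ _ _ _ _ _ v k)
      rw [h1, h2]
  refine ⟨(disc_nonneg hE hx a).1, (disc_nonneg hE hx b).1, (disc_nonneg hE hx c).1, ?_, e⟩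
  have h1 := ht_bary (fun _ => 1) a b c (x a) (x b) (x c)
  rw [← e] at h1
  obtain ⟨p, q, r, s, t, u, -, -, -, -, -, -, -, k4, e'⟩ := (mem_disc hE).1 hx
  have h2 := ht_bary (fun _ => 1) p q r s t u
  rw [← e'] at h2
  linarith only [h1, k4, h2]

theorem adj_of_pos (hE : IdealTri E) {x : V → ℝ} (hx : x ∈ Disc E) {a b : V} (hab : a ≠ b)
    (ha : x a ≠ 0) (hb : x b ≠ 0) : E a b := by
  obtain ⟨p, q, r, s, t, u, h1, h2, h3, -, -, -, -, -, rfl⟩ := (mem_disc hE).1 hx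
  have h4 := hE.symm _ _ h1
  have h5 := hE.symm _ _ h2
  have h6 := hE.symm _ _ h3
  rcases PB1_on p q r s t u a ha with rfl | rfl | rfl <;>
    rcases PB1_on _ _ _ s t u b hb with rfl | rfl | rfl <;> first | assumption | exact absurd rfl hab

/-- A point with a positive coordinate at `w` lies in a triangle with first vertex `w`. -/
theorem exists_tri (hE : IdealTri E) {x : V → ℝ} (hx : x ∈ Disc E) {w : V} (h : x w ≠ 0) :
    ∃ a b, E w a ∧ E w b ∧ E a b ∧ cyc w a b ∧ OnTri x w a b := by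
  obtain ⟨p, q, r, s, t, u, h1, h2, h3, k, -, -, -, -, rfl⟩ := (mem_disc hE).1 hx
  have ho := PB1_on p q r s t u
  rcases ho w h with rfl | rfl | rfl
  · exact ⟨q, r, h1, h3, h2, k, ho⟩
  · exact ⟨r, p, h2, hE.symm _ _ h1, hE.symm _ _ h3, cyc_rot k, fun v hv => by
      have := ho v hv
      tauto⟩
  · exact ⟨p, q, hE.symm _ _ h3, hE.symm _ _ h2, h1, cyc_rot (cyc_rot k), fun v hv => by
      have := ho v hv
      tauto⟩

theorem eq_single (hE : IdealTri E) {x : V → ℝ} (hx : x ∈ Disc E) {w : V} (h : x w = 1) :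
    x = Pi.single w 1 := by
  obtain ⟨a, b, -, -, -, k, ho⟩ := exists_tri hE hx (w := w) (by rw [h]; exact one_ne_zero)
  obtain ⟨-, h2, h3, h4, e⟩ := eq_bary hE hx k ho
  have ha : x a = 0 := by linarith only [h2, h, h3, h4]
  have hb : x b = 0 := by linarith only [h3, h, h2, h4]
  rw [e, h, ha, hb]
  simp [bary]

theorem single_mem (hE : IdealTri E) (w : V) : (Pi.single w 1 : V → ℝ) ∈ Disc E := by
  obtain ⟨a, ha⟩ := PB1_nbr hE w
  obtain ⟨c, k, h1, h2⟩ := hE.apex w a ha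
  exact (mem_disc hE).2 ⟨w, c, a, 1, 0, 0, h1, h2, ha, k, zero_le_one, le_rfl, le_rfl, by simp,
    by simp [bary]⟩

/-- Local finiteness away from the vertices. -/
theorem loc_finite (hE : IdealTri E) {x : V → ℝ} (hx : x ∈ Disc E) (h : ∀ w, x w < 1) :
    ∃ W : Finset V, ∀ᶠ x' in nhdsWithin x (Disc E), ∀ v, x' v ≠ 0 → v ∈ W := by
  obtain ⟨p, q, hpq, hp, hq⟩ : ∃ p q, p ≠ q ∧ 0 < x p ∧ 0 < x q := by
    obtain ⟨a, b, c, s, t, u, -, -, -, k, k1, k2, k3, k4, e⟩ := (mem_disc hE).1 hx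
    obtain ⟨e1, e2, e3⟩ := PB1_val k s t u
    rw [← e] at e1 e2 e3
    obtain ⟨n1, n2, n3⟩ := cyc_ne k
    have ha := h a
    have hb := h b
    have hc := h c
    by_cases i1 : 0 < x a
    · by_cases i2 : 0 < x b
      · exact ⟨a, b, n1, i1, i2⟩
      · exact ⟨a, c, n3, i1, by linarith only [k4, e1, e2, e3, ha, i2]⟩
    · exact ⟨b, c, n2, by linarith only [k4, e1, e2, e3, hc, i1], by linarith only [k4, e1, e2, e3, hb, i1]⟩
  have hE1 := adj_of_pos hE hx hpq hp.ne' hq.ne'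
  obtain ⟨c, k1, k2, k3⟩ := hE.apex p q hE1
  obtain ⟨d, l1, l2, l3⟩ := hE.apex q p (hE.symm _ _ hE1)
  refine ⟨{p, q, c, d}, ?_⟩
  have ev : ∀ v, 0 < x v → ∀ᶠ x' : V → ℝ in nhdsWithin x (Disc E), 0 < x' v := fun v hv =>
    nhdsWithin_le_nhds ((continuous_apply v).continuousAt.eventually (lt_mem_nhds hv))
  filter_upwards [ev p hp, ev q hq, self_mem_nhdsWithin] with z hzp hzq hz v hv
  by_cases e1 : v = p
  · simp [e1]
  by_cases e2 : v = q
  · simp [e2]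
  have a1 := adj_of_pos hE hz e1 hv hzp.ne'
  have a2 := adj_of_pos hE hz e2 hv hzq.ne'
  rcases cyc_total (Ne.symm e1) e2 hpq with k | k
  · simp [PB1_apex hE k (hE.symm _ _ a1) a2 k1 k2 k3]
  · simp [PB1_apex hE (cyc_rot k) (hE.symm _ _ a2) a1 l1 l2 l3]

theorem continuousOn_ht (hE : IdealTri E) {φ : V → ℝ}
    (hφ : ∀ u, ∃ C, ∀ a, E u a → |φ a| ≤ C) : ContinuousOn (ht φ) (Disc E) := by
  intro x hx
  by_cases h : ∀ w, x w < 1
  · obtain ⟨W, hW⟩ := loc_finite hE hx h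
    have hc : Continuous fun z : V → ℝ => ∑ v ∈ W, z v * φ v := by fun_prop
    exact hc.continuousWithinAt.congr_of_eventuallyEq (hW.mono fun z hz => PB1_ht_sum φ W hz)
      (PB1_ht_sum φ W (hW.self_of_nhdsWithin hx))
  · obtain ⟨u, hu⟩ := not_forall.1 h
    have hu1 : x u = 1 := le_antisymm (disc_nonneg hE hx u).2 (not_lt.1 hu)
    obtain ⟨C, hC⟩ := hφ u
    have hx0 : ht φ x = φ u := by
      rw [eq_single hE hx hu1, PB1_ht_sum φ {u} fun v hv => by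
        by_contra hn
        exact hv (by simp [show v ≠ u by simpa using hn])]
      simp
    have hc : Continuous fun z : V → ℝ => (1 - z u) * (C + |φ u|) := by fun_prop
    have ht0 : Filter.Tendsto (fun z : V → ℝ => (1 - z u) * (C + |φ u|)) (nhdsWithin x (Disc E))
        (nhds 0) := by
      have := (hc.tendsto x).mono_left (nhdsWithin_le_nhds (s := Disc E))
      simpa [hu1] using this
    have ev : ∀ᶠ z : V → ℝ in nhdsWithin x (Disc E), 0 < z u :=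
      nhdsWithin_le_nhds ((continuous_apply u).continuousAt.eventually
        (lt_mem_nhds (show (0 : ℝ) < x u by rw [hu1]; exact one_pos)))
    rw [ContinuousWithinAt, hx0, tendsto_iff_dist_tendsto_zero]
    refine squeeze_zero' (Filter.Eventually.of_forall fun _ => dist_nonneg) ?_ ht0
    filter_upwards [ev, self_mem_nhdsWithin] with z hzu hz
    obtain ⟨a, b, h1, h2, -, k, ho⟩ := exists_tri hE hz hzu.ne'
    obtain ⟨-, i2, i3, i4, e⟩ := eq_bary hE hz k ho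
    have e2 := ht_bary φ u a b (z u) (z a) (z b)
    rw [← e] at e2
    obtain ⟨a1, a2⟩ := abs_le.1 (hC a h1)
    obtain ⟨b1, b2⟩ := abs_le.1 (hC b h2)
    have c1 := le_abs_self (φ u)
    have c2 := neg_abs_le (φ u)
    have e3 : z u = 1 - z a - z b := by linarith only [i4]
    rw [Real.dist_eq, e2, e3, abs_le]
    constructor <;> linarith only [i2, a1, c1, i3, b1, a2, c2, b2, mul_nonneg i2 (show 0 ≤ C + |φ u| + φ a - φ u by linarith),
      mul_nonneg i3 (show 0 ≤ C + |φ u| + φ b - φ u by linarith),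
      mul_nonneg i2 (show 0 ≤ C + |φ u| - φ a + φ u by linarith),
      mul_nonneg i3 (show 0 ≤ C + |φ u| - φ b + φ u by linarith)]

end Pool.Agent.Work.MP_3d425c_gt.Bor
end

-- merged part: Pool.Agent.Work.MP_3d425c_gt.W.SC1
section
-- merged part: Pool.Agent.Work.MP_3d425c_gt.Vr1
section
/-! Layered veering triangulations: faces and prongs. -/

namespace Pool.Agent.Work.MP_3d425c_gt.Bor
open Classical PA Filter

variable {V : Type} [LinearOrder V]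

/-- A positively oriented triangle with first vertex `w`. -/
def T3 (E : V → V → Prop) (w a b : V) : Prop := E w a ∧ E w b ∧ E a b ∧ cyc w a b

section layer
variable {E : V → V → Prop} (hE : IdealTri E)
include hE

theorem T3.rot {w a b : V} (h : T3 E w a b) : T3 E a b w :=
  ⟨h.2.2.1, hE.symm _ _ h.1, hE.symm _ _ h.2.1, cyc_rot h.2.2.2⟩

theorem IT_conn (a b : V) : Relation.ReflTransGen E a b := by
  obtain ⟨q, h⟩ := PB1_nbr hE a
  have key := PB1_desc hE b (fun p _ => Relation.ReflTransGen E p b)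
    fun p q c _ h1 h2 e1 _ k1 k2 => by
      rcases PAT1_e h1 h2 with k | k | k
      exacts [k ▸ .single e1, k1 k, .head e1 (k2 k)]
  by_cases e1 : a = b
  · exact e1 ▸ .refl
  by_cases e2 : b = q
  · exact e2 ▸ .single h
  rcases cyc_total e1 e2 (PB1_ne hE h) with k | k
  exacts [key a q h k, .head h (key q a (hE.symm _ _ h) (cyc_rot k))]

theorem IT_order {w a b a' b' : V} (h : T3 E w a b) (h' : T3 E w a' b') :
    (a = a' ∧ b = b') ∨ cle w b a' ∨ cle w b' a := by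
  have key : ∀ {a b a' b' : V}, T3 E w a b → T3 E w a' b' → cyc w a a' → cle w b a' := by
    intro a b a' b' h h' k
    by_cases e : b = a'
    · exact Or.inl e
    rcases cyc_total (cyc_ne h.2.2.2).2.2 e (cyc_ne k).2.2 with l | l
    · exact Or.inr l
    · exact (hE.nocross a b a' w h.2.2.1 (hE.symm _ _ h'.1) (cyc_mid k l)
        (cyc_rot (cyc_rot h.2.2.2))).elim
  by_cases e : a = a'
  · subst e
    exact Or.inl ⟨rfl, PB1_apex hE (cyc_rot h.2.2.2) h.2.2.1 (hE.symm _ _ h.2.1)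
      (cyc_rot h'.2.2.2) h'.2.2.1 (hE.symm _ _ h'.2.1)⟩
  rcases cyc_total (cyc_ne h.2.2.2).1 e (cyc_ne h'.2.2.2).1 with k | k
  exacts [Or.inr (Or.inl (key h h' k)), Or.inr (Or.inr (key h' h k))]

theorem IT_fan {w a : V} (Q : V → Prop) (ha : E w a) (h0 : Q a)
    (h : ∀ b b', T3 E w b b' → Q b → Q b') {a' : V} (ha' : E w a') (hle : cle w a a') :
    Q a' := by
  obtain ⟨A, hA⟩ : ∃ A : V → Set V, ∀ a', A a' = {x | E w x ∧ cyc w a x ∧ cyc w x a'} :=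
    ⟨_, fun _ => rfl⟩
  have hfin : ∀ a', (A a').Finite := fun a' => by
    refine ((hE.fin a a').preimage (f := fun x => (w, x))
      fun x _ y _ e => (Prod.ext_iff.1 e).2).subset ?_
    rw [hA]
    exact fun x hx => ⟨hx.1, hx.2.1, cyc_rot hx.2.2⟩
  have key : ∀ n a', E w a' → cle w a a' → (A a').ncard = n → Q a' := by
    intro n
    induction n using Nat.strong_induction_on with
    | _ n ih =>
      intro a' hE' hl hn
      rcases hl with rfl | hl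
      · exact h0
      obtain ⟨b, hb, e1, e2⟩ := hE.apex w a' hE'
      refine h b a' ⟨e1, hE', e2, hb⟩ ?_
      by_cases e : a = b
      · exact e ▸ h0
      rcases cyc_total (cyc_ne hl).1 e (cyc_ne hb).1 with k | k
      · refine ih _ ?_ b e1 (Or.inr k) rfl
        rw [← hn]
        refine Set.ncard_lt_ncard ⟨fun x hx => ?_, fun hs => ?_⟩ (hfin a')
        · rw [hA] at hx ⊢
          exact ⟨hx.1, hx.2.1, cyc_trans hx.2.2 hb⟩
        · have := hs (show b ∈ A a' by rw [hA]; exact ⟨e1, k, hb⟩)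
          rw [hA] at this
          exact (cyc_ne this.2.2).2.1 rfl
      · exact (hE.nocross b a' a w e2 (hE.symm _ _ ha) (cyc_mid k hl)
          (cyc_rot (cyc_rot hb))).elim
  exact key _ a' ha' hle rfl

theorem IT_out {w a b x : V} (h : T3 E w a b) (hx : E w x) : cle w x a ∨ cle w b x := by
  have h1 := hE.nocross a b x w h.2.2.1 (hE.symm _ _ hx)
  have h2 := h.2.2.2
  have h3 := PB1_ne hE hx
  unfold cle cyc at *
  grind

end layer

theorem cle_tr {w a b c : V} (h : cle w a b) (h' : cle w b c) : cle w a c := by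
  unfold cle cyc at *; grind

theorem cle_cyc {w a b c : V} (h : cle w a b) (h' : cyc w b c) : cyc w a c := by
  unfold cle cyc at *; grind

theorem cyc_cle {w a b c : V} (h : cyc w a b) (h' : cle w b c) : cyc w a c := by
  unfold cle cyc at *; grind

/-- A veering tetrahedron. -/
def Tet (K : ℤ → V → V → Prop) (red : V → V → Prop) (i : ℤ) (a c b d : V) : Prop :=
  cyc a c b ∧ cyc b d a ∧ K i a b ∧ K (i + 1) c d ∧
    (K i a c ∧ K i c b ∧ K i b d ∧ K i d a) ∧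
    (K (i + 1) a c ∧ K (i + 1) c b ∧ K (i + 1) b d ∧ K (i + 1) d a) ∧
    red a c ∧ ¬ red c b ∧ red b d ∧ ¬ red d a

/-- A layered veering triangulation. -/
structure VC (V : Type) [LinearOrder V] where
  K : ℤ → V → V → Prop
  red : V → V → Prop
  layer : ∀ i, IdealTri (K i)
  red_symm : ∀ a b, red a b → red b a
  above : ∀ i a b, K i a b → K (i + 1) a b ∨ ∃ c d, Tet K red i a c b d
  below : ∀ i c d, K (i + 1) c d → K i c d ∨ ∃ a b, Tet K red i a c b d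
  life : ∀ a b, ∃ s t, ∀ i, K i a b → s ≤ i ∧ i ≤ t

namespace VC
variable (S : VC V)

/-- Reversal of time. -/
def rev : VC V where
  K i := S.K (-i)
  red a b := ¬ S.red a b
  layer i := S.layer _
  red_symm a b h k := h (S.red_symm _ _ k)
  above i a b h := by
    have e : -i = -(i + 1) + 1 := by ring
    rw [e] at h
    refine (S.below _ a b h).imp_right ?_
    rintro ⟨x, y, h1, h2, h3, h4, ⟨a1, a2, a3, a4⟩, ⟨b1, b2, b3, b4⟩, c1, c2, c3, c4⟩
    rw [← e] at h4 b1 b2 b3 b4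
    refine ⟨y, x, ?_, ?_, h4, (S.layer _).symm _ _ h3, ⟨b2, b3, b4, b1⟩, ⟨a2, a3, a4, a1⟩, c2,
      not_not.2 c3, c4, not_not.2 c1⟩ <;> unfold cyc at * <;> grind
  below i c d h := by
    have e : -(i + 1) + 1 = -i := by ring
    refine (S.above _ d c ((S.layer _).symm _ _ h)).imp (fun k => (S.layer _).symm _ _ (e ▸ k)) ?_
    rintro ⟨x, y, h1, h2, h3, h4, ⟨a1, a2, a3, a4⟩, ⟨b1, b2, b3, b4⟩, c1, c2, c3, c4⟩
    rw [e] at h4 b1 b2 b3 b4
    refine ⟨x, y, ?_, ?_, h4, h, ⟨b2, b3, b4, b1⟩, ⟨a2, a3, a4, a1⟩, c2,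
      not_not.2 c3, c4, not_not.2 c1⟩ <;> unfold cyc at * <;> grind
  life a b := by
    obtain ⟨s, t, h⟩ := S.life a b
    exact ⟨-t, -s, fun i k => by have := h _ k; omega⟩

/-- Edges. -/
def E (a b : V) : Prop := ∃ k, S.K k a b

/-- Faces. -/
def Face (w a b : V) : Prop := ∃ k, T3 (S.K k) w a b

/-- Faces through which a horizontal prong leaves `w`. -/
def Hf (k : ℤ) (w a b : V) : Prop := T3 (S.K k) w a b ∧ ¬ S.red w a ∧ S.red w b

/-- The left side of the prong before `b`. -/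
def Lf (w b : V) : Set V := {u | ∃ a, S.E w a ∧ ¬ S.red w a ∧ cyc w a b ∧ cle w u a}

/-- The right side of the prong before `b`. -/
def Rt (w b : V) : Set V := {v | ∃ k a' b', S.Hf k w a' b' ∧ S.Lf w b' = S.Lf w b ∧ cle w b' v}

variable {S}

theorem ksymm {k : ℤ} {a b : V} (h : S.K k a b) : S.K k b a := (S.layer k).symm _ _ h

theorem rsymm {a b : V} : S.red a b ↔ S.red b a := ⟨S.red_symm _ _, S.red_symm _ _⟩

theorem E.symm {a b : V} (h : S.E a b) : S.E b a := h.imp fun _ => ksymm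

theorem E.ne {a b : V} (h : S.E a b) : a ≠ b := h.elim fun k => PB1_ne (S.layer k)

theorem rev_E {a b : V} : S.rev.E a b ↔ S.E a b :=
  ⟨fun ⟨_, h⟩ => ⟨_, h⟩, fun ⟨k, h⟩ => ⟨-k, show S.K (- -k) a b by rwa [neg_neg]⟩⟩

theorem Face.rot {w a b : V} (h : S.Face w a b) : S.Face a b w :=
  h.imp fun k h => h.rot (S.layer k)

theorem Face.e1 {w a b : V} (h : S.Face w a b) : S.E w a := h.imp fun _ h => h.1

theorem Face.e2 {w a b : V} (h : S.Face w a b) : S.E w b := h.imp fun _ h => h.2.1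

theorem Face.e3 {w a b : V} (h : S.Face w a b) : S.E a b := h.imp fun _ h => h.2.2.1

theorem Face.cyc {w a b : V} (h : S.Face w a b) : cyc w a b := h.elim fun _ h => h.2.2.2

theorem die {k : ℤ} {w a b : V} (h : T3 (S.K k) w a b) (h' : ¬ S.K (k + 1) a b) :
    ∃ d, Tet S.K S.red k b w a d := by
  obtain ⟨c, d, t⟩ := (S.above k b a (ksymm h.2.2.1)).resolve_left fun e => h' (ksymm e)
  obtain rfl := PB1_apex (S.layer k) t.1 t.2.2.2.2.1.1 t.2.2.2.2.1.2.1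
    (cyc_rot (cyc_rot h.2.2.2)) (ksymm h.2.1) h.1
  exact ⟨d, t⟩

theorem born {k : ℤ} {w a b : V} (h : T3 (S.K (k + 1)) w a b) (h' : ¬ S.K k a b) :
    ∃ x, Tet S.K S.red k x b w a := by
  obtain ⟨x, y, t⟩ := (S.below k b a (ksymm h.2.2.1)).resolve_left fun e => h' (ksymm e)
  have : cyc b y a := by
    have h1 := t.1
    have h2 := t.2.1
    unfold cyc at *
    grind
  obtain rfl := PB1_apex (S.layer _) this t.2.2.2.2.2.1.2.1 t.2.2.2.2.2.1.2.2.1
    (cyc_rot (cyc_rot h.2.2.2)) (ksymm h.2.1) h.1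
  exact ⟨x, t⟩

theorem step {k : ℤ} {w a b : V} (h : T3 (S.K k) w a b) : T3 (S.K (k + 1)) w a b ∨
    (∃ d, Tet S.K S.red k b w a d) ∨ (∃ d, Tet S.K S.red k w a b d) ∨
      ∃ d, Tet S.K S.red k a b w d := by
  by_cases h1 : S.K (k + 1) a b
  swap
  · exact Or.inr (Or.inl (die h h1))
  by_cases h2 : S.K (k + 1) b w
  swap
  · exact Or.inr (Or.inr (Or.inl (die (h.rot (S.layer k)) h2)))
  by_cases h3 : S.K (k + 1) w a
  swap
  · exact Or.inr (Or.inr (Or.inr (die ((h.rot (S.layer k)).rot (S.layer k)) h3)))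
  exact Or.inl ⟨h3, ksymm h2, h1, h.2.2.2⟩

theorem back {k : ℤ} {w a b : V} (h : T3 (S.K (k + 1)) w a b) : T3 (S.K k) w a b ∨
    (∃ x, Tet S.K S.red k x b w a) ∨ (∃ x, Tet S.K S.red k x w a b) ∨
      ∃ x, Tet S.K S.red k x a b w := by
  by_cases h1 : S.K k a b
  swap
  · exact Or.inr (Or.inl (born h h1))
  by_cases h2 : S.K k b w
  swap
  · exact Or.inr (Or.inr (Or.inl (born (h.rot (S.layer _)) h2)))
  by_cases h3 : S.K k w a
  swap
  · exact Or.inr (Or.inr (Or.inr (born ((h.rot (S.layer _)).rot (S.layer _)) h3)))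
  exact Or.inl ⟨h3, ksymm h2, h1, h.2.2.2⟩

theorem mortal (a b : V) : ∀ᶠ k in atTop, ¬ S.K k a b := by
  obtain ⟨s, t, h⟩ := S.life a b
  exact eventually_atTop.2 ⟨t + 1, fun k hk e => by have := h k e; omega⟩

theorem hasH {k : ℤ} {w a b : V} (h : T3 (S.K k) w a b) :
    S.Hf k w a b ∨ S.Hf k a b w ∨ S.Hf k b w a := by
  have h1 := h.rot (S.layer k)
  have h2 := h1.rot (S.layer k)
  by_contra hn
  simp only [Hf, h, h1, h2, true_and, not_or] at hn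
  have key : ∀ j, k ≤ j → T3 (S.K j) w a b := fun j hj => by
    induction j, hj using Int.leInduction with
    | base => exact h
    | succ j _ ih =>
      rcases step ih with t | ⟨d, t⟩ | ⟨d, t⟩ | ⟨d, t⟩
      · exact t
      · exact (hn.1 ⟨t.2.2.2.2.2.2.2.1, rsymm.1 t.2.2.2.2.2.2.1⟩).elim
      · exact (hn.2.1 ⟨t.2.2.2.2.2.2.2.1, rsymm.1 t.2.2.2.2.2.2.1⟩).elim
      · exact (hn.2.2 ⟨t.2.2.2.2.2.2.2.1, rsymm.1 t.2.2.2.2.2.2.1⟩).elim
  obtain ⟨j, h3, h4⟩ := ((mortal (S := S) w a).and (eventually_ge_atTop k)).exists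
  exact h3 (key j h4).1

theorem noIn {k j : ℤ} {w a b x : V} (h : T3 (S.K k) w a b) (hn : ¬ (¬ S.red w a ∧ S.red w b))
    (hj : k ≤ j) (hx : S.K j w x) : cle w x a ∨ cle w b x := by
  have key : ∃ a' b', T3 (S.K j) w a' b' ∧ ¬ (¬ S.red w a' ∧ S.red w b') ∧ cle w a' a ∧
      cle w b b' := by
    clear hx
    induction j, hj using Int.leInduction with
    | base => exact ⟨a, b, h, hn, Or.inl rfl, Or.inl rfl⟩
    | succ j _ ih =>
      obtain ⟨a', b', h1, h2, h3, h4⟩ := ih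
      have h5 := h1.2.2.2
      rcases step h1 with t | ⟨d, t⟩ | ⟨d, t⟩ | ⟨d, t⟩
      · exact ⟨a', b', t, h2, h3, h4⟩
      · exact (h2 ⟨t.2.2.2.2.2.2.2.1, rsymm.1 t.2.2.2.2.2.2.1⟩).elim
      · obtain ⟨-, t2, -, t4, -, ⟨b1, -, -, b4⟩, c1, -⟩ := t
        have t5 := cyc_rot (cyc_rot t2)
        exact ⟨a', d, ⟨b1, ksymm b4, t4, cyc_trans h5 t5⟩, fun e => e.1 c1, h3,
          cle_tr h4 (Or.inr t5)⟩
      · obtain ⟨-, t2, -, t4, -, ⟨-, b2, b3, -⟩, -, -, c3, -⟩ := t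
        exact ⟨d, b', ⟨b3, ksymm b2, ksymm t4, cyc_trans t2 h5⟩, fun e => e.1 c3,
          cle_tr (Or.inr t2) h3, h4⟩
  obtain ⟨a', b', h1, -, h3, h4⟩ := key
  exact (IT_out (S.layer j) h1 hx).imp (cle_tr · h3) (cle_tr h4)

theorem consec {w a b x : V} (h : S.Face w a b) (hc : S.red w a ↔ S.red w b) (hx : S.E w x) :
    cle w x a ∨ cle w b x := by
  obtain ⟨k, h⟩ := h
  obtain ⟨j, hx⟩ := hx
  rcases le_total k j with e | e
  · exact noIn h (fun n => n.1 (hc.2 n.2)) e hx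
  · exact noIn (S := S.rev) (k := -k) (j := -j) (show T3 (S.K (- -k)) w a b by rwa [neg_neg])
      (fun n => n.2 (hc.1 (not_not.1 n.1))) (by omega) (show S.K (- -j) w x by rwa [neg_neg])

theorem Lf_lt {w b u : V} (h : u ∈ S.Lf w b) : cyc w u b := by
  obtain ⟨a, -, -, h1, h2⟩ := h
  unfold cle cyc at *
  grind

theorem Lf_down {w b u v : V} (h : v ∈ S.Lf w b) (h' : cle w u v) : u ∈ S.Lf w b := by
  obtain ⟨a, h1, h2, h3, h4⟩ := h
  exact ⟨a, h1, h2, h3, cle_tr h' h4⟩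

theorem Lf_out {w b u v : V} (h : u ∈ S.Lf w b) (h' : v ∉ S.Lf w b) (hv : v ≠ w) : cyc w u v := by
  have h1 := Lf_lt h
  have h2 := mt (Lf_down (u := v) h) h'
  unfold cle cyc at *
  grind

theorem Lf_red {w b b' : V} (h : S.Face w b b') (h1 : S.red w b) (h2 : S.red w b') :
    S.Lf w b = S.Lf w b' := by
  ext u
  constructor
  · rintro ⟨a, a1, a2, a3, a4⟩
    exact ⟨a, a1, a2, cyc_trans a3 h.cyc, a4⟩
  · rintro ⟨a, a1, a2, a3, a4⟩
    refine ⟨a, a1, a2, ?_, a4⟩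
    rcases consec h (iff_of_true h1 h2) a1 with (rfl | k) | rfl | k
    exacts [absurd h1 a2, k, absurd h2 a2, absurd a3 (cyc_asymm k)]

theorem Hf.mem {k : ℤ} {w a b : V} (h : S.Hf k w a b) : a ∈ S.Lf w b :=
  ⟨a, ⟨k, h.1.1⟩, h.2.1, h.1.2.2.2, Or.inl rfl⟩

theorem not_mem_Lf (w b : V) : b ∉ S.Lf w b := fun h => (cyc_ne (Lf_lt h)).2.1 rfl

theorem Hf.uniq {k : ℤ} {w a b a' b' : V} (h : S.Hf k w a b) (h' : S.Hf k w a' b')
    (e : S.Lf w b = S.Lf w b') : a = a' ∧ b = b' := by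
  rcases IT_order (S.layer k) h.1 h'.1 with t | t | t
  · exact t
  · exact absurd (e ▸ Lf_down h'.mem t) (not_mem_Lf w b)
  · exact absurd (e ▸ Lf_down h.mem t) (not_mem_Lf w b')

/-- Consecutive neighbours of the same colour. -/
def Nx (S : VC V) (w : V) (P : Prop) (a b : V) : Prop :=
  S.Face w a b ∧ (S.red w a ↔ P) ∧ (S.red w b ↔ P)

theorem Hf.step {k : ℤ} {w a b : V} (h : S.Hf k w a b) : ∃ a' b', S.Hf (k + 1) w a' b' ∧
    S.Lf w b' = S.Lf w b ∧ (a = a' ∨ S.Nx w False a a') ∧ (b' = b ∨ S.Nx w True b' b) := by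
  obtain ⟨h1, h2, h3⟩ := h
  rcases VC.step h1 with t | ⟨d, t⟩ | ⟨d, t⟩ | ⟨d, t⟩
  · exact ⟨a, b, ⟨t, h2, h3⟩, rfl, Or.inl rfl, Or.inl rfl⟩
  · obtain ⟨t1, t2, -, t4, -, ⟨b1, b2, b3, b4⟩, -⟩ := t
    have f1 : T3 (S.K (k + 1)) w a d := ⟨b2, t4, b3, by unfold cyc at *; grind⟩
    have f2 : T3 (S.K (k + 1)) w d b := ⟨t4, ksymm b1, b4, by unfold cyc at *; grind⟩
    by_cases c : S.red w d
    · exact ⟨a, d, ⟨f1, h2, c⟩, Lf_red ⟨_, f2⟩ c h3, Or.inl rfl,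
        Or.inr ⟨⟨_, f2⟩, iff_true_intro c, iff_true_intro h3⟩⟩
    · exact ⟨d, b, ⟨f2, c, h3⟩, rfl, Or.inr ⟨⟨_, f1⟩, iff_false_intro h2, iff_false_intro c⟩,
        Or.inl rfl⟩
  · exact absurd t.2.2.2.2.2.2.1 h2
  · exact absurd (rsymm.1 h3) t.2.2.2.2.2.2.2.1

theorem Hf.back {k : ℤ} {w a b : V} (h : S.Hf (k + 1) w a b) :
    ∃ a' b', S.Hf k w a' b' ∧ S.Lf w b' = S.Lf w b := by
  obtain ⟨h1, h2, h3⟩ := h
  rcases VC.back h1 with t | ⟨x, t⟩ | ⟨x, t⟩ | ⟨x, t⟩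
  · exact ⟨a, b, ⟨t, h2, h3⟩, rfl⟩
  · exact absurd t.2.2.2.2.2.2.2.2.1 h2
  · obtain ⟨t1, t2, t3, t4, ⟨a1, a2, -⟩, ⟨b1, -, -, b4⟩, c1, -⟩ := t
    exact ⟨a, x, ⟨⟨a2, ksymm a1, ksymm t3, cyc_rot t1⟩, h2, rsymm.1 c1⟩,
      (Lf_red ⟨k + 1, t4, ksymm b1, b4, by unfold cyc at *; grind⟩ h3 (rsymm.1 c1)).symm⟩
  · obtain ⟨-, t2, t3, -, ⟨-, -, a3, a4⟩, -, -, -, -, c4⟩ := t
    exact ⟨x, b, ⟨⟨a4, ksymm a3, t3, cyc_rot t2⟩, c4, h3⟩, rfl⟩

/-- The first layer that contains an edge. -/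
noncomputable def bt (S : VC V) (a b : V) : ℤ :=
  Classical.epsilon fun s => S.K s a b ∧ ∀ k, S.K k a b → s ≤ k

theorem bt_spec {a b : V} (h : S.E a b) : S.K (S.bt a b) a b ∧ ∀ k, S.K k a b → S.bt a b ≤ k := by
  obtain ⟨s, t, ht⟩ := S.life a b
  exact Classical.epsilon_spec (Int.exists_least_of_bdd ⟨s, fun k hk => (ht k hk).1⟩ h)

theorem birth {w d : V} (h : S.E w d) : ∃ x y, T3 (S.K (S.bt w d)) w y d ∧
    T3 (S.K (S.bt w d)) w d x ∧ ¬ S.red w y ∧ S.red w x := by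
  obtain ⟨h1, h2⟩ := bt_spec h
  obtain ⟨k, hk⟩ : ∃ k, S.bt w d = k + 1 := ⟨S.bt w d - 1, by ring⟩
  rw [hk] at h1 h2 ⊢
  obtain ⟨x, y, t1, t2, -, t4, -, ⟨b1, b2, b3, b4⟩, c1, c2, -⟩ :=
    (S.below k w d h1).resolve_left fun e => by have := h2 k e; omega
  exact ⟨x, y, ⟨b2, t4, b3, by unfold cyc at *; grind⟩,
    ⟨t4, ksymm b1, b4, by unfold cyc at *; grind⟩, c2, rsymm.1 c1⟩

theorem death {w d : V} (h : S.E w d) : ∃ k x y, T3 (S.K k) w y d ∧
    T3 (S.K k) w d x ∧ S.red w y ∧ ¬ S.red w x ∧ ¬ S.red y d ∧ S.red d x := by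
  obtain ⟨s, t, ht⟩ := S.life w d
  obtain ⟨k, hk, h1⟩ := Int.exists_greatest_of_bdd ⟨t, fun k hk => (ht k hk).2⟩ h
  obtain ⟨y, x, t1, t2, t3, -, ⟨a1, a2, a3, a4⟩, -, c1, c2, c3, c4⟩ :=
    (S.above k w d hk).resolve_left fun e => by
      have := h1 _ e
      omega
  exact ⟨_, x, y, ⟨a1, t3, a2, t1⟩, ⟨t3, ksymm a4, a3, cyc_rot (cyc_rot t2)⟩, c1,
    fun e => c4 (rsymm.1 e), c2, c3⟩

theorem exists_H {w b : V} (h : S.E w b) (hr : S.red w b) (k : ℤ) :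
    ∃ a' b', S.Hf k w a' b' ∧ S.Lf w b' = S.Lf w b := by
  obtain ⟨-, y, h1, -, h2, -⟩ := birth h
  have h0 : ∃ a' b', S.Hf (S.bt w b) w a' b' ∧ S.Lf w b' = S.Lf w b := ⟨y, b, ⟨h1, h2, hr⟩, rfl⟩
  rcases le_total (S.bt w b) k with e | e
  · induction k, e using Int.leInduction with
    | base => exact h0
    | succ j _ ih =>
      obtain ⟨a', b', i1, i2⟩ := ih
      obtain ⟨a'', b'', i3, i4, -⟩ := i1.step
      exact ⟨a'', b'', i3, i4.trans i2⟩
  · induction k, e using Int.leInductionDown with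
    | base => exact h0
    | pred j _ ih =>
      obtain ⟨a', b', i1, i2⟩ := ih
      rw [show j = j - 1 + 1 by ring] at i1
      obtain ⟨a'', b'', i3, i4⟩ := i1.back
      exact ⟨a'', b'', i3, i4.trans i2⟩

theorem chain {k j : ℤ} {w a b a' b' : V} (h : S.Hf k w a b) (h' : S.Hf j w a' b') (hj : k ≤ j)
    (e : S.Lf w b' = S.Lf w b) : Relation.ReflTransGen (S.Nx w False) a a' ∧
      Relation.ReflTransGen (S.Nx w True) b' b := by
  have key : ∃ x y, S.Hf j w x y ∧ S.Lf w y = S.Lf w b ∧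
      Relation.ReflTransGen (S.Nx w False) a x ∧ Relation.ReflTransGen (S.Nx w True) y b := by
    clear h' e
    induction j, hj using Int.leInduction with
    | base => exact ⟨a, b, h, rfl, .refl, .refl⟩
    | succ j _ ih =>
      obtain ⟨x, y, i1, i2, i3, i4⟩ := ih
      obtain ⟨x', y', k1, k2, k3, k4⟩ := i1.step
      exact ⟨x', y', k1, k2.trans i2, k3.elim (· ▸ i3) i3.tail, k4.elim (· ▸ i4) (.head · i4)⟩
  obtain ⟨x, y, k1, k2, k3, k4⟩ := key
  obtain ⟨rfl, rfl⟩ := k1.uniq h' (k2.trans e.symm)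
  exact ⟨k3, k4⟩

theorem Nx_cle {w a b : V} {P : Prop} (h : Relation.ReflTransGen (S.Nx w P) a b) : cle w a b := by
  induction h with
  | refl => exact Or.inl rfl
  | tail _ h ih => exact cle_tr ih (Or.inr h.1.cyc)

theorem Hf.fwd {k : ℤ} {w a b : V} (h : S.Hf k w a b) :
    ∀ᶠ j in atTop, ∃ x y, S.Hf j w x y ∧ cle w a x ∧ cle w y b := by
  filter_upwards [eventually_ge_atTop k] with j hj
  obtain ⟨x, y, h1, h2⟩ := exists_H ⟨k, h.1.2.1⟩ h.2.2 j
  obtain ⟨h3, h4⟩ := chain h h1 hj h2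
  exact ⟨x, y, h1, Nx_cle h3, Nx_cle h4⟩

theorem evL {w b u : V} (hb : S.E w b) (hr : S.red w b) (h : u ∈ S.Lf w b) :
    ∀ᶠ j in atTop, ∀ x y, S.Hf j w x y → S.Lf w y = S.Lf w b → cyc w u x := by
  obtain ⟨a, ⟨k, a1⟩, a2, a3, a4⟩ := h
  obtain ⟨x', y', h1, h2⟩ := exists_H hb hr k
  have h3 := Lf_lt (h2.symm ▸ (⟨a, ⟨k, a1⟩, a2, a3, Or.inl rfl⟩ : a ∈ S.Lf w b) : a ∈ S.Lf w y')
  have h4 := IT_out (S.layer k) h1.1 a1
  filter_upwards [eventually_ge_atTop k, mortal (S := S) w a] with j hj hm x y k1 k2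
  have h5 := Nx_cle (chain h1 k1 hj (k2.trans h2.symm)).1
  have h6 : cle w a x' := h4.resolve_right fun e => (cyc_ne (cyc_cle h3 e)).2.1 rfl
  exact cle_cyc a4 ((cle_tr h6 h5).resolve_left fun e => hm (e ▸ k1.1.1))

theorem evR {w b v : V} (h : v ∈ S.Rt w b) :
    ∀ᶠ j in atTop, ∀ x y, S.Hf j w x y → S.Lf w y = S.Lf w b → cyc w y v := by
  obtain ⟨k, a', b', h1, h2, h3⟩ := h
  filter_upwards [eventually_ge_atTop k, mortal (S := S) w b'] with j hj hm x y k1 k2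
  have h5 := Nx_cle (chain h1 k1 hj (k2.trans h2.symm)).2
  exact cyc_cle (h5.resolve_left fun e => hm (e ▸ k1.1.2.1)) h3

theorem Rt_up {w b u v : V} (h : u ∈ S.Rt w b) (h' : cle w u v) : v ∈ S.Rt w b := by
  obtain ⟨k, a', b', h1, h2, h3⟩ := h
  exact ⟨k, a', b', h1, h2, cle_tr h3 h'⟩

theorem lf_lt_rt {w b u v : V} (hu : u ∈ S.Lf w b) (hv : v ∈ S.Rt w b) : cyc w u v := by
  obtain ⟨k, a', b', -, h2, h3⟩ := hv
  exact cyc_cle (Lf_lt (h2.symm ▸ hu : u ∈ S.Lf w b')) h3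

theorem notH_L {w b z x y : V} {k : ℤ} (hb : S.E w b) (hr : S.red w b) (hz : z ∈ S.Lf w b)
    (hx : x ∉ S.Lf w b) (hy : y ∉ S.Lf w b) (hx' : x ≠ w) (hy' : y ≠ w) : ¬ S.Hf k z x y := by
  intro h
  obtain ⟨j, ⟨p, q, h1, h2, h3⟩, h4⟩ := (h.fwd.and (evL hb hr hz)).exists
  obtain ⟨a', b', k1, k2⟩ := exists_H hb hr j
  have k3 := h4 a' b' k1 k2
  have k4 := Lf_out (k2 ▸ k1.mem) hx hx'
  have k5 := Lf_out (k2 ▸ k1.mem) hy hy'
  have k6 := (S.layer j).nocross w a' z p k1.1.1 h1.1.1 k3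
  have k7 := h1.1.2.2.2
  unfold cle cyc at *
  grind

theorem notH_R {w b z x y : V} {k : ℤ} (hb : S.E w b) (hr : S.red w b) (hz : z ∈ S.Rt w b)
    (hx : x ∉ S.Rt w b) (hy : y ∉ S.Rt w b) (hx' : x ≠ w) (hy' : y ≠ w) : ¬ S.Hf k z x y := by
  intro h
  obtain ⟨j, ⟨p, q, h1, h2, h3⟩, h4⟩ := (h.fwd.and (evR hz)).exists
  obtain ⟨a', b', k1, k2⟩ := exists_H hb hr j
  have k3 := h4 a' b' k1 k2
  have k4 : ¬ cle w b' x := fun e => hx ⟨j, a', b', k1, k2, e⟩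
  have k5 : ¬ cle w b' y := fun e => hy ⟨j, a', b', k1, k2, e⟩
  have k6 := (S.layer j).nocross b' w z p (ksymm k1.1.2.1) h1.1.1 (cyc_rot k3)
  have k7 := h1.1.2.2.2
  unfold cle cyc at *
  grind

theorem lf_or_rt {w b u : V} (hb : S.E w b) (hr : S.red w b) (hu : u ≠ w) :
    u ∈ S.Lf w b ∨ u ∈ S.Rt w b := by
  obtain ⟨a₀, b₀, h, e⟩ := exists_H hb hr 0
  have h2 := h.1.2.2.2
  have h3 : cle w u a₀ ∨ cle w b₀ u ∨ cyc a₀ u b₀ := by unfold cle cyc at *; grind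
  rcases h3 with h3 | h3 | h3
  · exact Or.inl (Lf_down (e ▸ h.mem) h3)
  · exact Or.inr ⟨0, a₀, b₀, h, e, h3⟩
  refine PB1_desc (S.layer 0) u (fun p q => p ∈ S.Lf w b → q ∈ S.Rt w b →
    u ∈ S.Lf w b ∨ u ∈ S.Rt w b) (fun p q c g0 g1 g2 g3 g4 i1 i2 hp hq => ?_) a₀ b₀ h.1.2.2.1 h3
    (e ▸ h.mem) ⟨0, a₀, b₀, h, e, Or.inl rfl⟩
  have g5 := lf_lt_rt hp hq
  by_cases c1 : c ∈ S.Lf w b
  · by_cases g : cyc c u q
    · exact i2 g c1 hq
    · exact Or.inl (Lf_down c1 (by unfold cle cyc at *; grind))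
  by_cases c2 : c ∈ S.Rt w b
  · by_cases g : cyc p u c
    · exact i1 g hp c2
    · exact Or.inr (Rt_up c2 (by unfold cle cyc at *; grind))
  exfalso
  have c3 : c ≠ w := by unfold cyc at *; grind
  have p1 : p ∉ S.Rt w b := fun k => (cyc_ne (lf_lt_rt hp k)).2.1 rfl
  have q1 : q ∉ S.Lf w b := fun k => (cyc_ne (lf_lt_rt k hq)).2.1 rfl
  rcases hasH (⟨g3, g0, g4, g2⟩ : T3 (S.K 0) p c q) with t | t | t
  · exact notH_L hb hr hp c1 q1 c3 (cyc_ne g5).2.2.symm t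
  · obtain ⟨j, ⟨⟨x, y, h1, h2, h3⟩, h4⟩, h5⟩ := ((t.fwd.and (evL hb hr hp)).and (evR hq)).exists
    obtain ⟨a', b', k1, k2⟩ := exists_H hb hr j
    have k3 := h4 a' b' k1 k2
    have k4 := h5 a' b' k1 k2
    have k5 := Lf_out (k2 ▸ k1.mem) c1 c3
    have k6 : ¬ cle w b' c := fun e => c2 ⟨j, a', b', k1, k2, e⟩
    have k7 := (S.layer j).nocross a' b' c x k1.1.2.2.1 h1.1.1
    have k8 := h1.1.2.2.2
    clear i1 i2 g1
    unfold cle cyc at *
    grind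
  · exact notH_R hb hr hq p1 c2 (cyc_ne g5).1.symm c3 t

end VC

end Pool.Agent.Work.MP_3d425c_gt.Bor
end

-- merged part: Pool.Agent.Work.MP_3d425c_gt.W.St
section
/-! Abstract veering data and finite continents.

`C`: corners `(w; x, y)` of faces (anticlockwise from above, first vertex `w`), `ρ` sends
`(w; x, y)` to `(x; y, w)`, `E (w; x, y)` is the oriented edge `x → y`, `rv` reverses it.
`F`: tetrahedra with a labelling `(a, c, b, d)` (bottom edge `a b`, top edge `c d`), `rot` turns it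
to `(b, d, a, c)`, `β f = (c; b, a)` is a bottom face and `τ f = (a; c, d)` a top face. -/

namespace Pool.Agent.Work.MP_3d425c_gt.Bor
open PA

/-- Abstract veering data. -/
structure VD (C D F : Type) where
  ρ : C → C
  E : C → D
  rv : D → D
  red : D → Prop
  rot : F → F
  β : F → C
  τ : F → C
  ρ3 : ∀ c, ρ (ρ (ρ c)) = c
  rv2 : ∀ d, rv (rv d) = d
  red_rv : ∀ d, red (rv d) ↔ red d
  rot2 : ∀ f, rot (rot f) = f
  rot_ne : ∀ f, rot f ≠ f
  Eβ : ∀ f, E (β (rot f)) = rv (E (β f))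
  Eτ : ∀ f, E (τ (rot f)) = rv (E (τ f))
  E1 : ∀ f, E (ρ (β f)) = E (ρ (ρ (τ f)))
  E2 : ∀ f, E (ρ (ρ (β f))) = E (ρ (τ (rot f)))
  r1 : ∀ f, red (E (ρ (β f)))
  r2 : ∀ f, ¬ red (E (ρ (ρ (β f))))
  βs : ∀ c, ∃ f, c = β f ∨ c = ρ (β f) ∨ c = ρ (ρ (β f))
  τs : ∀ c, ∃ f, c = τ f ∨ c = ρ (τ f) ∨ c = ρ (ρ (τ f))
  βi : ∀ f g, E (β f) = E (β g) → f = g
  τi : ∀ f g, E (τ f) = E (τ g) → f = g

variable {C D F : Type}

namespace VD
variable (X : VD C D F)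

/-- The next face above, on the left of the same oriented edge. -/
def Up (c c' : C) : Prop :=
  ∃ f, (c = X.ρ (X.β f) ∧ c' = X.ρ (X.ρ (X.τ f))) ∨
    (c = X.ρ (X.ρ (X.β f)) ∧ c' = X.ρ (X.τ (X.rot f)))

theorem t1 (f : F) : ¬ X.red (X.E (X.ρ (X.τ f))) := by
  have := X.r2 (X.rot f)
  rwa [X.E2, X.rot2] at this

theorem t2 (f : F) : X.red (X.E (X.ρ (X.ρ (X.τ f)))) := X.E1 f ▸ X.r1 f

/-- Reversal of the vertical direction. -/
def rev : VD C D F where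
  ρ := X.ρ
  E := X.E
  rv := X.rv
  red d := ¬ X.red d
  rot := X.rot
  β f := X.τ (X.rot f)
  τ := X.β
  ρ3 := X.ρ3
  rv2 := X.rv2
  red_rv d := not_congr (X.red_rv d)
  rot2 := X.rot2
  rot_ne := X.rot_ne
  Eβ f := X.Eτ _
  Eτ := X.Eβ
  E1 f := (X.E2 f).symm
  E2 f := (X.E1 _).symm
  r1 f := X.t1 _
  r2 f := not_not.2 (X.t2 _)
  βs c := (X.τs c).elim fun f h => ⟨X.rot f, by rwa [X.rot2]⟩
  τs := X.βs
  βi f g h := by rw [← X.rot2 f, X.τi _ _ h, X.rot2]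
  τi := X.βi

theorem rev_Up {c c' : C} : X.rev.Up c c' ↔ X.Up c' c := by
  constructor
  · rintro ⟨f, ⟨h1, h2⟩ | ⟨h1, h2⟩⟩
    exacts [⟨f, Or.inr ⟨h2, h1⟩⟩, ⟨X.rot f, Or.inl ⟨h2, h1⟩⟩]
  · rintro ⟨f, ⟨h1, h2⟩ | ⟨h1, h2⟩⟩
    · refine ⟨X.rot f, Or.inr ⟨?_, ?_⟩⟩
      · show c = X.ρ (X.ρ (X.τ (X.rot (X.rot f))))
        rwa [X.rot2]
      · show c' = X.ρ (X.β (X.rot (X.rot f)))
        rwa [X.rot2]
    · exact ⟨f, Or.inl ⟨h2, h1⟩⟩

theorem Up.E {X : VD C D F} {c c' : C} (h : X.Up c c') : X.E c = X.E c' := by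
  obtain ⟨f, ⟨rfl, rfl⟩ | ⟨rfl, rfl⟩⟩ := h
  exacts [X.E1 f, X.E2 f]

theorem ρ_inj {c c' : C} (h : X.ρ c = X.ρ c') : c = c' := by
  rw [← X.ρ3 c, h, X.ρ3]

/-- The colours of the two edges at the first vertex characterise the corners `β f`. -/
theorem isβ {c : C} (h1 : X.red (X.E (X.ρ c))) (h2 : ¬ X.red (X.E (X.ρ (X.ρ c)))) :
    ∃ f, c = X.β f := by
  obtain ⟨f, rfl | rfl | rfl⟩ := X.βs c
  · exact ⟨f, rfl⟩
  · exact absurd h1 (X.r2 f)
  · rw [X.ρ3] at h2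
    exact absurd (X.r1 f) h2

end VD

/-- A labelling of a layered triangulation by abstract veering data. -/
structure Lab (X : VD C D F) {V : Type} [LinearOrder V] (S : VC V) (dl : V → V → D)
    (lab : V → V → V → C) : Prop where
  red : ∀ a b, S.E a b → (S.red a b ↔ X.red (dl a b))
  rv : ∀ a b, S.E a b → dl b a = X.rv (dl a b)
  rot : ∀ w x y, S.Face w x y → lab x y w = X.ρ (lab w x y)
  dart : ∀ w x y, S.Face w x y → X.E (lab w x y) = dl x y
  tet : ∀ i a c b d, Tet S.K S.red i a c b d → ∃ f, lab c b a = X.β f ∧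
    lab d a b = X.β (X.rot f) ∧ lab a c d = X.τ f ∧ lab b d c = X.τ (X.rot f)

/-- The data of a finite continent: cusps, a range of layers and labels. -/
structure St (C D : Type) where
  P : Finset ℚ
  lo : ℤ
  hi : ℤ
  K : ℤ → ℚ → ℚ → Prop
  dl : ℚ → ℚ → D
  lab : ℚ → ℚ → ℚ → C

/-- The colouring of a continent. -/
def St.red (S : St C D) (X : VD C D F) (a b : ℚ) : Prop := X.red (S.dl a b)

/-- A labelled tetrahedron of a continent. -/
def LT (X : VD C D F) (S : St C D) (i : ℤ) (a c b d : ℚ) : Prop :=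
  Tet S.K (S.red X) i a c b d ∧ ∃ f, S.lab c b a = X.β f ∧ S.lab d a b = X.β (X.rot f) ∧
    S.lab a c d = X.τ f ∧ S.lab b d c = X.τ (X.rot f)

/-- A finite continent. -/
structure Good (X : VD C D F) (S : St C D) : Prop where
  le : S.lo ≤ S.hi
  mem : ∀ i a b, S.K i a b → a ∈ S.P ∧ b ∈ S.P ∧ a ≠ b ∧ S.lo ≤ i ∧ i ≤ S.hi
  symm : ∀ i a b, S.K i a b → S.K i b a
  nocross : ∀ i a b c d, S.K i a b → S.K i c d → cyc a c b → cyc b d a → False
  apex : ∀ i a b, S.K i a b → (∃ c, cyc a c b ∧ S.K i a c ∧ S.K i c b) ∨ ∀ c ∈ S.P, ¬ cyc a c b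
  tri : ∀ i, S.lo ≤ i → i ≤ S.hi → ∃ w x y, T3 (S.K i) w x y
  rv : ∀ i a b, S.K i a b → S.dl b a = X.rv (S.dl a b)
  rot : ∀ i w x y, T3 (S.K i) w x y → S.lab x y w = X.ρ (S.lab w x y)
  dart : ∀ i w x y, T3 (S.K i) w x y → X.E (S.lab w x y) = S.dl x y
  above : ∀ i a b, i < S.hi → S.K i a b → S.K (i + 1) a b ∨ ∃ c d, LT X S i a c b d
  below : ∀ i c d, S.lo ≤ i → S.K (i + 1) c d → S.K i c d ∨ ∃ a b, LT X S i a c b d

/-- Extension of continents. -/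
structure Ext (S S' : St C D) : Prop where
  P : S.P ⊆ S'.P
  lo : S'.lo ≤ S.lo
  hi : S.hi ≤ S'.hi
  K : ∀ i a b, S.K i a b → S'.K i a b
  res : ∀ i a b, S.lo ≤ i → i ≤ S.hi → a ∈ S.P → b ∈ S.P → S'.K i a b → S.K i a b
  dl : ∀ i a b, S.K i a b → S'.dl a b = S.dl a b
  lab : ∀ i w x y, T3 (S.K i) w x y → S'.lab w x y = S.lab w x y

theorem T3.mono {V : Type} [LinearOrder V] {E E' : V → V → Prop} (h : ∀ a b, E a b → E' a b)
    {w x y : V} (t : T3 E w x y) : T3 E' w x y :=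
  ⟨h _ _ t.1, h _ _ t.2.1, h _ _ t.2.2.1, t.2.2.2⟩

theorem Ext.refl (S : St C D) : Ext S S :=
  ⟨le_rfl, le_rfl, le_rfl, fun _ _ _ h => h, fun _ _ _ _ _ _ _ h => h, fun _ _ _ _ => rfl,
    fun _ _ _ _ _ => rfl⟩

theorem Ext.trans {S S' S'' : St C D} (h : Ext S S') (h' : Ext S' S'') : Ext S S'' :=
  ⟨h.P.trans h'.P, h'.lo.trans h.lo, h.hi.trans h'.hi, fun i a b k => h'.K i a b (h.K i a b k),
    fun i a b k1 k2 k3 k4 k => h.res i a b k1 k2 k3 k4
      (h'.res i a b (h.lo.trans k1) (k2.trans h.hi) (h.P k3) (h.P k4) k),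
    fun i a b k => (h'.dl i a b (h.K i a b k)).trans (h.dl i a b k),
    fun i w x y k => (h'.lab i w x y (k.mono (h.K i))).trans (h.lab i w x y k)⟩

namespace Good
variable {X : VD C D F} {S : St C D} (hS : Good X S)
include hS

theorem trot {i : ℤ} {w x y : ℚ} (h : T3 (S.K i) w x y) : T3 (S.K i) x y w :=
  ⟨h.2.2.1, hS.symm _ _ _ h.1, hS.symm _ _ _ h.2.1, cyc_rot h.2.2.2⟩

theorem rsymm {i : ℤ} {a b : ℚ} (h : S.K i a b) : S.red X b a ↔ S.red X a b := by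
  unfold St.red
  rw [hS.rv i a b h, X.red_rv]

/-- The apex of an edge on a given side is unique. -/
theorem apex_uniq {i : ℤ} {w w' x y : ℚ} (h : T3 (S.K i) w x y) (h' : T3 (S.K i) w' x y) :
    w = w' := by
  have h1 := hS.nocross i w x w' y h.1 h'.2.1
  have h2 := hS.nocross i w' x w y h'.1 h.2.1
  have h3 := h.2.2.2
  have h4 := h'.2.2.2
  clear * - h1 h2 h3 h4
  unfold cyc at *
  grind

/-- A side of an edge that contains a cusp carries a triangle. -/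
theorem apex' {i : ℤ} {a b p : ℚ} (h : S.K i a b) (hp : p ∈ S.P) (hc : cyc a p b) :
    ∃ d, T3 (S.K i) d b a := by
  obtain ⟨d, h1, h2, h3⟩ := (hS.apex i a b h).resolve_right fun k => k p hp hc
  exact ⟨d, h3, hS.symm _ _ _ h2, hS.symm _ _ _ h, cyc_rot h1⟩

/-- The four faces of a tetrahedron. -/
theorem faces {i : ℤ} {a c b d : ℚ} {red : ℚ → ℚ → Prop} (t : Tet S.K red i a c b d) :
    T3 (S.K i) c b a ∧ T3 (S.K i) d a b ∧ T3 (S.K (i + 1)) a c d ∧ T3 (S.K (i + 1)) b d c := by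
  obtain ⟨h1, h2, h3, h4, ⟨a1, a2, a3, a4⟩, ⟨b1, b2, b3, b4⟩, -⟩ := t
  refine ⟨⟨a2, hS.symm _ _ _ a1, hS.symm _ _ _ h3, cyc_rot h1⟩,
    ⟨a4, hS.symm _ _ _ a3, h3, cyc_rot h2⟩, ⟨b1, hS.symm _ _ _ b4, h4, ?_⟩,
    ⟨b3, hS.symm _ _ _ b2, hS.symm _ _ _ h4, ?_⟩⟩ <;> unfold cyc at * <;> grind

/-- Labelled tetrahedra survive in a larger state with the same labels. -/
theorem LT_mono {S' : St C D} (hK : ∀ i a b, S.K i a b → S'.K i a b)
    (hd : ∀ i a b, S.K i a b → S'.dl a b = S.dl a b)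
    (hl : ∀ i w x y, T3 (S.K i) w x y → S'.lab w x y = S.lab w x y) {i : ℤ} {a c b d : ℚ}
    (t : LT X S i a c b d) : LT X S' i a c b d := by
  obtain ⟨f1, f2, f3, f4⟩ := hS.faces t.1
  obtain ⟨⟨h1, h2, h3, h4, ⟨a1, a2, a3, a4⟩, ⟨b1, b2, b3, b4⟩, c1, c2, c3, c4⟩, f, l⟩ := t
  refine ⟨⟨h1, h2, hK _ _ _ h3, hK _ _ _ h4, ⟨hK _ _ _ a1, hK _ _ _ a2, hK _ _ _ a3, hK _ _ _ a4⟩,
    ⟨hK _ _ _ b1, hK _ _ _ b2, hK _ _ _ b3, hK _ _ _ b4⟩, ?_⟩, f, ?_⟩
  · unfold St.red at *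
    rw [hd _ _ _ a1, hd _ _ _ a2, hd _ _ _ a3, hd _ _ _ a4]
    exact ⟨c1, c2, c3, c4⟩
  · rwa [hl _ _ _ _ f1, hl _ _ _ _ f2, hl _ _ _ _ f3, hl _ _ _ _ f4]

/-- The colours at the first vertex of a face, read off from its label. -/
theorem red_lab {i : ℤ} {w x y : ℚ} (h : T3 (S.K i) w x y) :
    (S.red X w y ↔ X.red (X.E (X.ρ (S.lab w x y)))) ∧
      (S.red X w x ↔ X.red (X.E (X.ρ (X.ρ (S.lab w x y))))) := by
  have h1 := hS.trot h
  have h2 := hS.trot h1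
  rw [← hS.rot i _ _ _ h, ← hS.rot i _ _ _ h1, hS.dart i _ _ _ h1, hS.dart i _ _ _ h2]
  exact ⟨hS.rsymm (hS.symm _ _ _ h.2.1), Iff.rfl⟩

theorem isβ {i : ℤ} {w x y : ℚ} (h : T3 (S.K i) w x y) (h1 : ¬ S.red X w x) (h2 : S.red X w y) :
    ∃ f, S.lab w x y = X.β f :=
  X.isβ ((hS.red_lab h).1.1 h2) fun k => h1 ((hS.red_lab h).2.2 k)

theorem ofβ {i : ℤ} {w x y : ℚ} (h : T3 (S.K i) w x y) {f : F} (e : S.lab w x y = X.β f) :
    ¬ S.red X w x ∧ S.red X w y := by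
  rw [(hS.red_lab h).1, (hS.red_lab h).2, e]
  exact ⟨X.r2 f, X.r1 f⟩

/-- Every face has a corner from which a blue edge is followed by a red edge. -/
theorem hasH {i : ℤ} {w x y : ℚ} (h : T3 (S.K i) w x y) : (¬ S.red X w x ∧ S.red X w y) ∨
    (¬ S.red X x y ∧ S.red X x w) ∨ (¬ S.red X y w ∧ S.red X y x) := by
  have h1 := hS.trot h
  have h2 := hS.trot h1
  have e1 := hS.rot i _ _ _ h
  have e2 := hS.rot i _ _ _ h1
  obtain ⟨f, e | e | e⟩ := X.βs (S.lab w x y)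
  · exact Or.inl (hS.ofβ h e)
  · exact Or.inr (Or.inr (hS.ofβ h2 (f := f) (by rw [e2, e1, e, X.ρ3])))
  · exact Or.inr (Or.inl (hS.ofβ h1 (f := f) (by rw [e1, e, X.ρ3])))

end Good

/-- Reversal of the vertical direction. -/
def St.rev (S : St C D) : St C D := ⟨S.P, -S.hi, -S.lo, fun i => S.K (-i), S.dl, S.lab⟩

theorem St.rev_rev (S : St C D) : S.rev.rev = S := by
  cases S
  simp [St.rev]

theorem Ext.rev {S S' : St C D} (h : Ext S S') : Ext S.rev S'.rev :=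
  ⟨h.P, neg_le_neg h.hi, neg_le_neg h.lo, fun _ => h.K _,
    fun i a b k1 k2 => h.res _ a b (le_neg.1 k2) (neg_le.1 k1), fun _ => h.dl _,
    fun _ => h.lab _⟩

theorem Good.LT_rev {X : VD C D F} {S : St C D} (hS : Good X S) {i : ℤ} {a c b d : ℚ}
    (t : LT X S (-(i + 1)) a c b d) : LT X.rev S.rev i c b d a := by
  obtain ⟨⟨h1, h2, h3, h4, ⟨a1, a2, a3, a4⟩, ⟨b1, b2, b3, b4⟩, c1, c2, c3, c4⟩, f, l1, l2, l3,
    l4⟩ := t
  rw [show -(i + 1) + 1 = -i by ring] at h4 b1 b2 b3 b4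
  refine ⟨⟨?_, ?_, h4, hS.symm _ _ _ h3, ⟨b2, b3, b4, b1⟩, ⟨a2, a3, a4, a1⟩, c2,
    not_not.2 c3, c4, not_not.2 c1⟩, f, l4, ?_, l1, l2⟩
  · unfold cyc at *
    grind
  · unfold cyc at *
    grind
  · show S.lab a c d = X.τ (X.rot (X.rot f))
    rwa [X.rot2]

theorem Good.LT_rot {X : VD C D F} {S : St C D} (hS : Good X S) {i : ℤ} {a c b d : ℚ}
    (t : LT X S i a c b d) : LT X S i b d a c := by
  obtain ⟨⟨h1, h2, h3, h4, ⟨a1, a2, a3, a4⟩, ⟨b1, b2, b3, b4⟩, c1, c2, c3, c4⟩, f, l1, l2, l3,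
    l4⟩ := t
  exact ⟨⟨h2, h1, hS.symm _ _ _ h3, hS.symm _ _ _ h4, ⟨a3, a4, a1, a2⟩, ⟨b3, b4, b1, b2⟩, c3, c4,
    c1, c2⟩, X.rot f, l2, by rwa [X.rot2], l4, by rwa [X.rot2]⟩

theorem Good.rev {X : VD C D F} {S : St C D} (hS : Good X S) : Good X.rev S.rev where
  le := neg_le_neg hS.le
  mem i a b h := by
    obtain ⟨h1, h2, h3, h4, h5⟩ := hS.mem _ a b h
    exact ⟨h1, h2, h3, neg_le.1 h5, le_neg.1 h4⟩
  symm _ := hS.symm _
  nocross _ := hS.nocross _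
  apex _ := hS.apex _
  tri i h1 h2 := hS.tri _ (le_neg.1 h2) (neg_le.1 h1)
  rv _ := hS.rv _
  rot _ := hS.rot _
  dart _ := hS.dart _
  above i a b h1 h := by
    have h1' : i < -S.lo := h1
    have h' : S.K (-(i + 1) + 1) a b := by rwa [show -(i + 1) + 1 = -i by ring]
    exact (hS.below _ a b (by omega) h').imp_right fun ⟨x, y, t⟩ => ⟨y, x, hS.LT_rev t⟩
  below i c d h1 h := by
    have h1' : -S.hi ≤ i := h1
    refine (hS.above _ d c (by omega) (hS.symm _ _ _ h)).imp (fun k => ?_)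
      fun ⟨x, y, t⟩ => ⟨x, y, hS.LT_rev t⟩
    rw [show -(i + 1) + 1 = -i by ring] at k
    exact hS.symm _ _ _ k

theorem Good.of_rev {X : VD C D F} {S : St C D} (hS : Good X.rev.rev S) : Good X S := by
  have k : ∀ i a c b d, LT X.rev.rev S i a c b d → LT X S i a c b d := by
    rintro i a c b d ⟨⟨h1, h2, h3, h4, h5, h6, c1, c2, c3, c4⟩, f, l1, l2, l3, l4⟩
    exact ⟨⟨h1, h2, h3, h4, h5, h6, not_not.1 c1, fun k => c2 (not_not.2 k), not_not.1 c3,
      fun k => c4 (not_not.2 k)⟩, X.rot f, l1, l2, l3, l4⟩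
  exact ⟨hS.le, hS.mem, hS.symm, hS.nocross, hS.apex, hS.tri, hS.rv, hS.rot, hS.dart,
    fun i a b h1 h => (hS.above i a b h1 h).imp_right fun ⟨c, d, t⟩ => ⟨c, d, k _ _ _ _ _ t⟩,
    fun i a b h1 h => (hS.below i a b h1 h).imp_right fun ⟨c, d, t⟩ => ⟨c, d, k _ _ _ _ _ t⟩⟩

namespace Good
variable {X : VD C D F} {S : St C D} (hS : Good X S)
include hS

/-- The tetrahedron above a face whose base dies. -/
theorem die {k : ℤ} {w a b : ℚ} (hk : k < S.hi) (h : T3 (S.K k) w a b) (h' : ¬ S.K (k + 1) a b) :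
    ∃ d, LT X S k b w a d := by
  obtain ⟨c, d, t⟩ := (hS.above k b a hk (hS.symm _ _ _ h.2.2.1)).resolve_left
    fun e => h' (hS.symm _ _ _ e)
  obtain rfl := hS.apex_uniq (hS.faces t.1).1 h
  exact ⟨d, t⟩

/-- No edge at `w` ever enters a wedge that is not a blue edge followed by a red edge. -/
theorem noIn {k j : ℤ} {w a b x : ℚ} (h : T3 (S.K k) w a b)
    (hn : ¬ (¬ S.red X w a ∧ S.red X w b)) (hj : k ≤ j) (hx : S.K j w x) : ¬ cyc a x b := by
  have key : ∀ n : ℕ, k + n ≤ S.hi → ∃ a' b', T3 (S.K (k + n)) w a' b' ∧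
      ¬ (¬ S.red X w a' ∧ S.red X w b') ∧ cle w a' a ∧ cle w b b' := by
    intro n
    induction n with
    | zero => exact fun _ => ⟨a, b, by simpa using h, hn, Or.inl rfl, Or.inl rfl⟩
    | succ n ih =>
      intro hle
      push_cast at hle ⊢
      obtain ⟨a', b', t, r, c1, c2⟩ := ih (by omega)
      have hk : k + n < S.hi := by omega
      rw [← add_assoc]
      by_cases h1 : S.K (k + n + 1) a' b'
      swap
      · obtain ⟨d, u⟩ := hS.die hk t h1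
        exact absurd ⟨u.1.2.2.2.2.2.2.2.1, (hS.rsymm t.2.1).1 u.1.2.2.2.2.2.2.1⟩ r
      by_cases h2 : S.K (k + n + 1) b' w
      swap
      · obtain ⟨d, u⟩ := hS.die hk (hS.trot t) h2
        have f := (hS.faces u.1).2.2.1
        refine ⟨a', d, f, fun e => e.1 u.1.2.2.2.2.2.2.1, c1, cle_tr c2 (Or.inr ?_)⟩
        exact cyc_rot (cyc_rot u.1.2.1)
      by_cases h3 : S.K (k + n + 1) w a'
      swap
      · obtain ⟨d, u⟩ := hS.die hk (hS.trot (hS.trot t)) h3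
        have f := (hS.faces u.1).2.2.2
        exact ⟨d, b', f, fun e => e.1 u.1.2.2.2.2.2.2.2.2.1, cle_tr (Or.inr u.1.2.1) c1, c2⟩
      exact ⟨a', b', ⟨h3, hS.symm _ _ _ h2, h1, t.2.2.2⟩, r, c1, c2⟩
  obtain ⟨n, rfl⟩ : ∃ n : ℕ, j = k + n := ⟨(j - k).toNat, by omega⟩
  obtain ⟨a', b', t, -, c1, c2⟩ := key n (hS.mem _ _ _ hx).2.2.2.2
  intro hc
  have h1 := hS.nocross _ a' b' x w t.2.2.1 (hS.symm _ _ _ hx)
  have h2 := h.2.2.2
  have h3 := t.2.2.2
  clear * - h1 h2 h3 hc c1 c2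
  unfold cle cyc at *
  grind

/-- An edge that can be born above a face is new. -/
theorem fresh {k j : ℤ} {c b a d : ℚ} (h : T3 (S.K k) c b a) (r : ¬ S.red X c b) (hj : j ≤ k)
    (hc : cyc b d a) : ¬ S.K j c d := fun hx =>
  hS.rev.noIn (k := -k) (j := -j) (w := c) (a := b) (b := a) (x := d)
    (show T3 (S.K (- -k)) c b a by rwa [neg_neg]) (fun e => e.1 r) (neg_le_neg hj)
    (show S.K (- -j) c d by rwa [neg_neg]) hc

theorem coast_up {i j : ℤ} {a b : ℚ} (h : S.K i a b) (hc : ∀ c ∈ S.P, ¬ cyc a c b) (h1 : i ≤ j)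
    (h2 : j ≤ S.hi) : S.K j a b := by
  induction j, h1 using Int.le_induction with
  | base => exact h
  | succ j h1 ih =>
    refine (hS.above j a b (by omega) (ih (by omega))).resolve_right ?_
    rintro ⟨c, d, t, -⟩
    exact hc c (hS.mem _ _ _ t.2.2.2.2.1.1).2.1 t.1

/-- A coastal edge lies in every layer. -/
theorem coast {i j : ℤ} {a b : ℚ} (h : S.K i a b) (hc : ∀ c ∈ S.P, ¬ cyc a c b) (h1 : S.lo ≤ j)
    (h2 : j ≤ S.hi) : S.K j a b := by
  rcases le_total i j with k | k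
  · exact hS.coast_up h hc k h2
  · have := hS.rev.coast_up (i := -i) (j := -j) (show S.K (- -i) a b by rwa [neg_neg]) hc
      (neg_le_neg k) (neg_le_neg h1)
    exact (neg_neg j ▸ this : S.K j a b)

end Good

end Pool.Agent.Work.MP_3d425c_gt.Bor
end

-- merged part: Pool.Agent.Work.MP_3d425c_gt.W.Add
section
/-! The first continent, and the addition of a triangle along a coastal edge.

PLAN (definitions and helper lemmas in W/St.lean; `T3 E w a b = E w a ∧ E w b ∧ E a b ∧ cyc w a b`;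
order goals close with `clear * - h1 h2 ..; unfold cyc at *; grind`).

`exists_init`: `P = {0,1,2}`, `lo = hi = 0`, `K i x y := i = 0 ∧ x ∈ P ∧ y ∈ P ∧ x ≠ y`,
`lab w _ _ := if w = 0 then c0 else if w = 1 then ρ c0 else ρ (ρ c0)`,
`dl 1 2 = E c0, dl 2 0 = E (ρ c0), dl 0 1 = E (ρ (ρ c0))`, reversed pairs get `rv` (use `rv2`,
`ρ3`). `above`, `below` are vacuous by the range.

`addTri`: pick `d : ℚ` with `cyc a d b` (if `a < b` the midpoint, else `a + 1`; `a ≠ b` by `mem`);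
`d ∉ P` by `hc`. Put `P' = insert d P`, same `lo, hi`,
`K' i x y := K i x y ∨ (lo ≤ i ∧ i ≤ hi ∧ ((x = d ∧ (y = a ∨ y = b)) ∨ (y = d ∧ (x = a ∨ x = b))))`,
`lab' x y z := if x = d then q else if y = d then ρ (ρ q) else if z = d then ρ q else lab x y z`,
`dl' d b = E (ρ (ρ q))`, `dl' b d = rv (E (ρ (ρ q)))`, `dl' a d = E (ρ q)`, `dl' d a = rv (E (ρ q))`,
otherwise `dl`. Facts: `K i a b` for every `i` in the range (`Good.coast`); a triangle
`T3 (K' i) w x y` is an old triangle (no vertex is `d`) or one of `(d,b,a)`, `(b,a,d)`, `(a,d,b)`.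
nocross: a new edge `d a` or `d b` crosses neither an old edge `x y` (use nocross of `x y` with
`a b` and `hc x`, `hc y`) nor a new one. apex: old edge `x y` that was coastal is still coastal
unless `cyc x d y`; then `x = a`, `y = b` (both pairs are coastal around `d`, `a b x y ∈ P`) and
the apex is `d`; `(a,d)` and `(d,b)` are coastal, `(d,a)` has apex `b`, `(b,d)` has apex `a`.
above/below: old edges by `Good.LT_mono`, new edges persist (`lo ≤ i + 1`, `i + 1 ≤ hi`; in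
`below`, `i + 1 ≤ hi` comes from the edge). -/

namespace Pool.Agent.Work.MP_3d425c_gt.Bor
open PA

variable {C D F : Type} {X : VD C D F}

theorem exists_init (X : VD C D F) (c0 : C) : ∃ S : St C D, Good X S := by
  have t3 : ∀ w x y : ℚ, w ∈ ({0, 1, 2} : Finset ℚ) → x ∈ ({0, 1, 2} : Finset ℚ) →
      y ∈ ({0, 1, 2} : Finset ℚ) → cyc w x y →
      (w = 0 ∧ x = 1 ∧ y = 2) ∨ (w = 1 ∧ x = 2 ∧ y = 0) ∨ (w = 2 ∧ x = 0 ∧ y = 1) := by
    intro w x y h1 h2 h3 h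
    simp only [Finset.mem_insert, Finset.mem_singleton] at h1 h2 h3
    unfold cyc at h
    grind
  refine ⟨⟨{0, 1, 2}, 0, 0, fun i x y => i = 0 ∧ x ∈ ({0, 1, 2} : Finset ℚ) ∧
      y ∈ ({0, 1, 2} : Finset ℚ) ∧ x ≠ y,
    fun x y => if x = 1 ∧ y = 2 then X.E c0 else if x = 2 ∧ y = 0 then X.E (X.ρ c0) else
      if x = 0 ∧ y = 1 then X.E (X.ρ (X.ρ c0)) else if x = 2 ∧ y = 1 then X.rv (X.E c0) else
      if x = 0 ∧ y = 2 then X.rv (X.E (X.ρ c0)) else X.rv (X.E (X.ρ (X.ρ c0))),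
    fun w _ _ => if w = 0 then c0 else if w = 1 then X.ρ c0 else X.ρ (X.ρ c0)⟩, le_rfl,
    fun i a b h => ⟨h.2.1, h.2.2.1, h.2.2.2, h.1.ge, h.1.le⟩,
    fun i a b h => ⟨h.1, h.2.2.1, h.2.1, h.2.2.2.symm⟩, fun i a b c d h h' h1 h2 => ?_,
    fun i a b h => (em (∃ c ∈ ({0, 1, 2} : Finset ℚ), cyc a c b)).imp
      (fun ⟨c, hc, k⟩ => ⟨c, k, ⟨h.1, h.2.1, hc, (cyc_ne k).1⟩, h.1, hc, h.2.2.1, (cyc_ne k).2.1⟩)
      fun k c hc k' => k ⟨c, hc, k'⟩,
    fun i h1 h2 => ⟨0, 1, 2, ⟨le_antisymm h2 h1, by simp⟩, ⟨le_antisymm h2 h1, by simp⟩,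
      ⟨le_antisymm h2 h1, by simp⟩, Or.inl (by norm_num)⟩,
    fun i a b h => ?_, fun i w x y h => ?_, fun i w x y h => ?_,
    fun i a b h1 h => absurd h.1 h1.ne, fun i a b h1 h => absurd h.1 (Int.lt_add_one_iff.2 h1).ne'⟩
  · have k1 := t3 _ _ _ h.2.1 h'.2.1 h.2.2.1 h1
    have k2 := t3 _ _ _ h.2.2.1 h'.2.2.1 h.2.1 h2
    clear * - k1 k2
    grind
  · obtain ⟨-, h1, h2, h3⟩ := h
    simp only [Finset.mem_insert, Finset.mem_singleton] at h1 h2
    rcases h1 with rfl | rfl | rfl <;> rcases h2 with rfl | rfl | rfl <;>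
      first | exact absurd rfl h3 | simp [X.rv2]
  · rcases t3 _ _ _ h.1.2.1 h.1.2.2.1 h.2.1.2.2.1 h.2.2.2 with ⟨rfl, rfl, rfl⟩ | ⟨rfl, rfl, rfl⟩ |
      ⟨rfl, rfl, rfl⟩ <;> simp [X.ρ3]
  · rcases t3 _ _ _ h.1.2.1 h.1.2.2.1 h.2.1.2.2.1 h.2.2.2 with ⟨rfl, rfl, rfl⟩ | ⟨rfl, rfl, rfl⟩ |
      ⟨rfl, rfl, rfl⟩ <;> simp

/-- The state with the new cusp `d`. -/
def WAdd_st (X : VD C D F) (S : St C D) (a b d : ℚ) (q : C) : St C D where
  P := insert d S.P
  lo := S.lo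
  hi := S.hi
  K i x y := S.K i x y ∨
    (S.lo ≤ i ∧ i ≤ S.hi ∧ ((x = d ∧ (y = a ∨ y = b)) ∨ (y = d ∧ (x = a ∨ x = b))))
  dl x y := if x = d then (if y = b then X.E (X.ρ (X.ρ q)) else X.rv (X.E (X.ρ q))) else
    if y = d then (if x = b then X.rv (X.E (X.ρ (X.ρ q))) else X.E (X.ρ q)) else S.dl x y
  lab x y z := if x = d then q else if y = d then X.ρ (X.ρ q) else if z = d then X.ρ q else
    S.lab x y z

theorem addTri {S : St C D} (hS : Good X S) {a b : ℚ} (hab : S.K S.hi a b)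
    (hc : ∀ c ∈ S.P, ¬ cyc a c b) (q : C) (hq : X.E q = S.dl b a) :
    ∃ (S' : St C D) (d : ℚ), Good X S' ∧ Ext S S' ∧ S'.lo = S.lo ∧ S'.hi = S.hi ∧ cyc a d b ∧
      S'.P = insert d S.P ∧ S'.lab d b a = q ∧
      ∀ x y, S'.K S.hi x y ↔
        S.K S.hi x y ∨ (x = d ∧ (y = a ∨ y = b)) ∨ (y = d ∧ (x = a ∨ x = b)) := by
  obtain ⟨aP, bP, ab, -⟩ := hS.mem _ _ _ hab
  obtain ⟨d, hd⟩ : ∃ d : ℚ, cyc a d b := by
    rcases lt_or_gt_of_ne ab with k | k
    · exact ⟨(a + b) / 2, Or.inl ⟨by linarith only [k], by linarith only [k]⟩⟩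
    · exact ⟨a + 1, Or.inr (Or.inr ⟨k, by linarith⟩)⟩
  have dP : d ∉ S.P := fun k => hc d k hd
  obtain ⟨ad, db, -⟩ := cyc_ne hd
  have bd := db.symm
  have cab : ∀ i, S.lo ≤ i → i ≤ S.hi → S.K i a b := fun i => hS.coast hab hc
  have old : ∀ i x y, S.K i x y → x ≠ d ∧ y ≠ d := fun i x y h =>
    ⟨fun k => dP (k ▸ (hS.mem i x y h).1), fun k => dP (k ▸ (hS.mem i x y h).2.1)⟩
  obtain ⟨S', hS'⟩ : ∃ S', S' = WAdd_st X S a b d q := ⟨_, rfl⟩
  have eK : ∀ i x y, S'.K i x y ↔ S.K i x y ∨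
      (S.lo ≤ i ∧ i ≤ S.hi ∧ ((x = d ∧ (y = a ∨ y = b)) ∨ (y = d ∧ (x = a ∨ x = b)))) :=
    fun i x y => by rw [hS']; rfl
  have eP : S'.P = insert d S.P := by rw [hS']; rfl
  have elo : S'.lo = S.lo := by rw [hS']; rfl
  have ehi : S'.hi = S.hi := by rw [hS']; rfl
  have hK : ∀ i x y, S.K i x y → S'.K i x y := fun i x y h => (eK i x y).2 (Or.inl h)
  have hdl : ∀ i x y, S.K i x y → S'.dl x y = S.dl x y := fun i x y h => by
    rw [hS']
    simp only [WAdd_st, if_neg (old i x y h).1, if_neg (old i x y h).2]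
  have hl : ∀ i w x y, T3 (S.K i) w x y → S'.lab w x y = S.lab w x y := fun i w x y h => by
    rw [hS']
    simp only [WAdd_st, if_neg (old i w x h.1).1, if_neg (old i w x h.1).2,
      if_neg (old i w y h.2.1).2]
  have l1 : S'.lab d b a = q := by rw [hS']; simp [WAdd_st]
  have l2 : S'.lab b a d = X.ρ q := by rw [hS']; simp [WAdd_st, ad, bd]
  have l3 : S'.lab a d b = X.ρ (X.ρ q) := by rw [hS']; simp [WAdd_st, ad]
  have d1 : S'.dl d b = X.E (X.ρ (X.ρ q)) := by rw [hS']; simp [WAdd_st]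
  have d2 : S'.dl b d = X.rv (X.E (X.ρ (X.ρ q))) := by rw [hS']; simp [WAdd_st, bd]
  have d3 : S'.dl a d = X.E (X.ρ q) := by rw [hS']; simp [WAdd_st, ad, ab]
  have d4 : S'.dl d a = X.rv (X.E (X.ρ q)) := by rw [hS']; simp [WAdd_st, ab]
  have t3 : ∀ i w x y, T3 (S'.K i) w x y → T3 (S.K i) w x y ∨
      (w = d ∧ x = b ∧ y = a) ∨ (w = b ∧ x = a ∧ y = d) ∨ (w = a ∧ x = d ∧ y = b) := by
    rintro i w x y ⟨h1, h2, h3, h4⟩
    rw [eK] at h1 h2 h3
    have o1 := old i w x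
    have o2 := old i w y
    have o3 := old i x y
    unfold T3
    clear * - h1 h2 h3 h4 o1 o2 o3 hd
    unfold cyc at *
    grind (splits := 40)
  refine ⟨S', d, ⟨elo ▸ ehi ▸ hS.le, fun i x y h => ?_, fun i x y h => ?_,
    fun i x y z w h h' h1 h2 => ?_, fun i x y h => ?_, fun i h1 h2 => ?_, fun i x y h => ?_,
    fun i w x y h => ?_, fun i w x y h => ?_, fun i x y h1 h => ?_, fun i x y h1 h => ?_⟩,
    ⟨eP ▸ Finset.subset_insert _ _, elo.le, ehi.ge, hK, fun i x y _ _ hx hy h => ?_, hdl, hl⟩,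
    elo, ehi, hd, eP, l1, fun x y => ?_⟩
  · rw [eP, elo, ehi, Finset.mem_insert, Finset.mem_insert]
    rcases (eK i x y).1 h with h | ⟨h1, h2, ⟨rfl, rfl | rfl⟩ | ⟨rfl, rfl | rfl⟩⟩
    · obtain ⟨k1, k2, k3⟩ := hS.mem i x y h
      exact ⟨Or.inr k1, Or.inr k2, k3⟩
    exacts [⟨Or.inl rfl, Or.inr aP, ad.symm, h1, h2⟩, ⟨Or.inl rfl, Or.inr bP, db, h1, h2⟩,
      ⟨Or.inr aP, Or.inl rfl, ad, h1, h2⟩, ⟨Or.inr bP, Or.inl rfl, bd, h1, h2⟩]
  · exact (eK i y x).2 (((eK i x y).1 h).imp (hS.symm i x y) fun k => ⟨k.1, k.2.1, k.2.2.symm⟩)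
  · rcases (eK i x y).1 h with h | ⟨-, -, h⟩ <;> rcases (eK i z w).1 h' with h' | ⟨-, -, h'⟩
    · exact hS.nocross i x y z w h h' h1 h2
    · have k1 := hc x (hS.mem i x y h).1
      have k2 := hc y (hS.mem i x y h).2.1
      clear * - k1 k2 h' h1 h2 hd
      unfold cyc at *
      grind
    · have k1 := hc z (hS.mem i z w h').1
      have k2 := hc w (hS.mem i z w h').2.1
      clear * - k1 k2 h h1 h2 hd
      unfold cyc at *
      grind
    · have k1 := cyc_ne h1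
      have k2 := cyc_ne h2
      clear * - k1 k2 h h'
      grind
  · rw [eP]
    have new : ∀ u v, S.lo ≤ i → i ≤ S.hi → (u = d ∧ (v = a ∨ v = b)) ∨ (v = d ∧ (u = a ∨ u = b)) →
        S'.K i u v := fun u v k1 k2 k3 => (eK i u v).2 (Or.inr ⟨k1, k2, k3⟩)
    rcases (eK i x y).1 h with h | ⟨h1, h2, ⟨rfl, rfl | rfl⟩ | ⟨rfl, rfl | rfl⟩⟩
    · obtain ⟨xP, yP, -, h1, h2⟩ := hS.mem i x y h
      rcases hS.apex i x y h with ⟨c, k1, k2, k3⟩ | k
      · exact Or.inl ⟨c, k1, hK _ _ _ k2, hK _ _ _ k3⟩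
      by_cases k1 : cyc x d y
      · have k2 : x = a ∧ y = b := by
          have a1 := k a aP
          have a2 := k b bP
          have a3 := hc x xP
          have a4 := hc y yP
          clear * - a1 a2 a3 a4 k1 hd
          unfold cyc at *
          grind
        exact Or.inl ⟨d, k1, new _ _ h1 h2 (Or.inr ⟨rfl, Or.inl k2.1⟩),
          new _ _ h1 h2 (Or.inl ⟨rfl, Or.inr k2.2⟩)⟩
      · exact Or.inr (Finset.forall_mem_insert _ _ _ |>.2 ⟨k1, k⟩)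
    · exact Or.inl ⟨b, cyc_rot hd, new _ _ h1 h2 (Or.inl ⟨rfl, Or.inr rfl⟩),
        hK _ _ _ (hS.symm _ _ _ (cab i h1 h2))⟩
    · refine Or.inr (Finset.forall_mem_insert _ _ _ |>.2 ⟨fun k => (cyc_ne k).1 rfl,
        fun c k k1 => hc c k ?_⟩)
      clear * - k1 hd
      unfold cyc at *
      grind
    · refine Or.inr (Finset.forall_mem_insert _ _ _ |>.2 ⟨fun k => (cyc_ne k).2.1 rfl,
        fun c k k1 => hc c k ?_⟩)
      clear * - k1 hd
      unfold cyc at *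
      grind
    · exact Or.inl ⟨a, cyc_rot (cyc_rot hd), hK _ _ _ (hS.symm _ _ _ (cab i h1 h2)),
        new _ _ h1 h2 (Or.inr ⟨rfl, Or.inl rfl⟩)⟩
  · obtain ⟨w, x, y, t⟩ := hS.tri i (elo ▸ h1) (ehi ▸ h2)
    exact ⟨w, x, y, t.mono (hK i)⟩
  · rcases (eK i x y).1 h with h | ⟨-, -, ⟨rfl, rfl | rfl⟩ | ⟨rfl, rfl | rfl⟩⟩
    · rw [hdl i x y h, hdl i y x (hS.symm i x y h), hS.rv i x y h]
    · rw [d3, d4, X.rv2]
    · rw [d1, d2]
    · rw [d3, d4]
    · rw [d1, d2, X.rv2]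
  · rcases t3 i w x y h with h | ⟨rfl, rfl, rfl⟩ | ⟨rfl, rfl, rfl⟩ | ⟨rfl, rfl, rfl⟩
    · rw [hl i _ _ _ h, hl i _ _ _ (hS.trot h), hS.rot i _ _ _ h]
    · rw [l1, l2]
    · rw [l2, l3]
    · rw [l1, l3, X.ρ3]
  · rcases t3 i w x y h with h | ⟨rfl, rfl, rfl⟩ | ⟨rfl, rfl, rfl⟩ | ⟨rfl, rfl, rfl⟩
    · rw [hl i _ _ _ h, hdl i _ _ h.2.2.1, hS.dart i _ _ _ h]
    · rw [l1, hq, hdl _ _ _ (hS.symm _ _ _ hab)]
    · rw [l2, d3]
    · rw [l3, d1]
  · rw [ehi] at h1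
    rcases (eK i x y).1 h with h | ⟨k1, -, k⟩
    · exact (hS.above i x y h1 h).imp (hK _ _ _) fun ⟨u, v, t⟩ => ⟨u, v, hS.LT_mono hK hdl hl t⟩
    · exact Or.inl ((eK _ x y).2 (Or.inr ⟨k1.trans (Int.le_add_one le_rfl), h1, k⟩))
  · rw [elo] at h1
    rcases (eK _ x y).1 h with h | ⟨-, k1, k⟩
    · exact (hS.below i x y h1 h).imp (hK _ _ _) fun ⟨u, v, t⟩ => ⟨u, v, hS.LT_mono hK hdl hl t⟩
    · exact Or.inl ((eK _ x y).2 (Or.inr ⟨h1, (Int.le_add_one le_rfl).trans k1, k⟩))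
  · rcases (eK i x y).1 h with h | ⟨-, -, ⟨rfl, -⟩ | ⟨rfl, -⟩⟩
    exacts [h, absurd hx dP, absurd hy dP]
  · rw [eK]
    exact or_congr_right ⟨fun k => k.2.2, fun k => ⟨hS.le, le_rfl, k⟩⟩

end Pool.Agent.Work.MP_3d425c_gt.Bor
end

-- merged part: Pool.Agent.Work.MP_3d425c_gt.W.Flip
section
/-! Adding a tetrahedron on top of a continent.

PLAN (definitions and helper lemmas in W/St.lean; `T3 E w a b = E w a ∧ E w b ∧ E a b ∧ cyc w a b`;
order goals close with `clear * - h1 h2 ..; unfold cyc at *; grind`).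

Same `P`, `lo`; `hi' = hi + 1`;
`K' i x y := K i x y ∨ (i = hi + 1 ∧ N x y)` with
`N x y := (K hi x y ∧ ¬ (x = a ∧ y = b) ∧ ¬ (x = b ∧ y = a)) ∨ (x = c ∧ y = d) ∨ (x = d ∧ y = c)`
(`K (hi + 1)` is empty by `mem`, so `K' (hi+1) = N` and `K' i = K i` for `i ≠ hi + 1`).
`dl' c d = E (τ f)`, `dl' d c = rv (E (τ f))`, otherwise `dl`.
`lab' a c d = τ f`, `lab' c d a = ρ (τ f)`, `lab' d a c = ρ (ρ (τ f))`, `lab' b d c = τ (rot f)`,
`lab' d c b = ρ (τ (rot f))`, `lab' c b d = ρ (ρ (τ (rot f)))`, otherwise `lab`.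
Key: the edge `c d` is new, `∀ j, ¬ K j c d` (`Good.fresh` with `h1`, `Good.ofβ`, and `mem` for
`j ≤ hi`), so old edges and old triangles keep their labels (all six new triples contain `c`
and `d`). A triangle of `N` either is a triangle of `K hi` that does not use `a b`, or uses
`c d`; then its third vertex `w` is joined to `c` and `d` in `K hi` and is `a` or `b` (nocross in
`K hi` with the edges `a b, a c, c b, b d, d a`), which gives the six triples.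
dart for them: `E (ρ (τ f)) = dl d a` is `E2 (rot f)` with `rot2`, `hS.rot`, `hS.dart` on the
rotations of `h2`; `E (ρ (ρ (τ f))) = dl a c` is `E1 f` on `h1`; `E (τ (rot f)) = rv (E (τ f))` is
`Eτ`; `E (ρ (τ (rot f))) = dl c b` is `E2 f`; `E (ρ (ρ (τ (rot f)))) = dl b d` is `E1 (rot f)`.
nocross in `N`: an old edge crossing `c d` is `a b` (nocross with the four equatorial edges and
`a b`). apex in `N`: old apex unless the old triangle uses `a b`; then (`apex_uniq`) it is a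
rotation of `h1` or `h2` and the new apex is `d` resp. `c`; `(c,d)` has apex `b`, `(d,c)` apex `a`.
Colours of the new tetrahedron: `Good.ofβ` on `h1`, `h2` and `Good.rsymm`.
above at `i = hi`: the edge survives, or is `a b` (the new `LT`) or `b a` (rotate it: prove the
rotated `LT` directly, as in `Good.LT_rot`, which needs only symmetry); below at `i = hi`
likewise for `c d`, `d c`; other `i` by `Good.LT_mono`. -/

namespace Pool.Agent.Work.MP_3d425c_gt.Bor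
open PA

variable {C D F : Type} {X : VD C D F}

/-- The edges after the flip. -/
def WFlip_N (E : ℚ → ℚ → Prop) (a c b d x y : ℚ) : Prop :=
  (E x y ∧ ¬ (x = a ∧ y = b) ∧ ¬ (x = b ∧ y = a)) ∨ (x = c ∧ y = d) ∨ (x = d ∧ y = c)

section
variable {S : St C D} (hS : Good X S) {i : ℤ} {a c b d : ℚ} (h1 : T3 (S.K i) c b a)
  (h2 : T3 (S.K i) d a b)
include hS

theorem WFlip_symm {x y : ℚ} (h : WFlip_N (S.K i) a c b d x y) : WFlip_N (S.K i) a c b d y x :=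
  h.imp (fun k => ⟨hS.symm _ _ _ k.1, fun e => k.2.2 e.symm, fun e => k.2.1 e.symm⟩)
    fun k => (k.imp And.symm And.symm).symm

theorem WFlip_rot {w x y : ℚ} (h : T3 (WFlip_N (S.K i) a c b d) w x y) :
    T3 (WFlip_N (S.K i) a c b d) x y w :=
  ⟨h.2.2.1, WFlip_symm hS h.1, WFlip_symm hS h.2.1, cyc_rot h.2.2.2⟩

include h1 h2

theorem WFlip_eq : WFlip_N (S.K i) a c b d a c ∧ WFlip_N (S.K i) a c b d c b ∧
    WFlip_N (S.K i) a c b d b d ∧ WFlip_N (S.K i) a c b d d a := by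
  obtain ⟨n1, n2, n3⟩ := cyc_ne h1.2.2.2
  obtain ⟨m1, m2, m3⟩ := cyc_ne h2.2.2.2
  exact ⟨.inl ⟨hS.symm _ _ _ h1.2.1, fun e => n1 e.2, fun e => m2 e.1⟩,
    .inl ⟨h1.1, fun e => n3 e.1, fun e => n1 e.1⟩,
    .inl ⟨hS.symm _ _ _ h2.2.1, fun e => n2 e.1, fun e => m1 e.2⟩,
    .inl ⟨h2.1, fun e => m1 e.1, fun e => m3 e.1⟩⟩

theorem WFlip_cr {p q : ℚ} (h : WFlip_N (S.K i) a c b d p q) (o1 : cyc c p d) (o2 : cyc d q c) :
    False := by
  rcases h with ⟨h, -, n⟩ | ⟨rfl, -⟩ | ⟨rfl, -⟩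
  · have k1 := hS.nocross i c b p q h1.1 h
    have k2 := hS.nocross i b d p q (hS.symm _ _ _ h2.2.1) h
    have k3 := hS.nocross i d a q p h2.1 (hS.symm _ _ _ h)
    have k4 := hS.nocross i a c q p (hS.symm _ _ _ h1.2.1) (hS.symm _ _ _ h)
    have k5 := h1.2.2.2
    have k6 := h2.2.2.2
    clear * - k1 k2 k3 k4 k5 k6 o1 o2 n
    unfold cyc at *
    grind
  · exact (cyc_ne o1).1 rfl
  · exact (cyc_ne o1).2.1 rfl

theorem WFlip_nocross {p q r s : ℚ} (h : WFlip_N (S.K i) a c b d p q)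
    (h' : WFlip_N (S.K i) a c b d r s) (o1 : cyc p r q) (o2 : cyc q s p) : False := by
  rcases id h with k | ⟨rfl, rfl⟩ | ⟨rfl, rfl⟩
  · rcases h' with k' | ⟨rfl, rfl⟩ | ⟨rfl, rfl⟩
    · exact hS.nocross i _ _ _ _ k.1 k'.1 o1 o2
    · refine WFlip_cr hS h1 h2 (WFlip_symm hS h) ?_ ?_ <;> clear * - o1 o2 <;>
        unfold cyc at * <;> grind
    · refine WFlip_cr hS h1 h2 h ?_ ?_ <;> clear * - o1 o2 <;> unfold cyc at * <;> grind
  · exact WFlip_cr hS h1 h2 h' o1 o2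
  · exact WFlip_cr hS h1 h2 (WFlip_symm hS h') o2 o1

theorem WFlip_third {w : ℚ} (e1 : WFlip_N (S.K i) a c b d w c) (e2 : WFlip_N (S.K i) a c b d w d) :
    (cyc w c d → w = a) ∧ (cyc w d c → w = b) := by
  obtain ⟨q1, q2, q3, q4⟩ := WFlip_eq hS h1 h2
  have k1 := WFlip_nocross hS h1 h2 q1 e2
  have k2 := WFlip_nocross hS h1 h2 q2 e2
  have k3 := WFlip_nocross hS h1 h2 q3 e1
  have k4 := WFlip_nocross hS h1 h2 q4 e1
  have k5 := h1.2.2.2
  have k6 := h2.2.2.2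
  clear * - k1 k2 k3 k4 k5 k6
  unfold cyc at *
  grind

theorem WFlip_tri {w x y : ℚ} (t : T3 (WFlip_N (S.K i) a c b d) w x y) : T3 (S.K i) w x y ∨
    (w = a ∧ x = c ∧ y = d) ∨ (w = c ∧ x = d ∧ y = a) ∨ (w = d ∧ x = a ∧ y = c) ∨
    (w = b ∧ x = d ∧ y = c) ∨ (w = d ∧ x = c ∧ y = b) ∨ (w = c ∧ x = b ∧ y = d) := by
  have A : ∀ {w}, T3 (WFlip_N (S.K i) a c b d) w c d → w = a := fun t =>
    (WFlip_third hS h1 h2 t.1 t.2.1).1 t.2.2.2
  have B : ∀ {w}, T3 (WFlip_N (S.K i) a c b d) w d c → w = b := fun t =>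
    (WFlip_third hS h1 h2 t.2.1 t.1).2 t.2.2.2
  have t1 := WFlip_rot hS t
  have t2 := WFlip_rot hS t1
  rcases t.2.2.1 with e3 | ⟨rfl, rfl⟩ | ⟨rfl, rfl⟩
  · rcases t.1 with e1 | ⟨rfl, rfl⟩ | ⟨rfl, rfl⟩
    · rcases t.2.1 with e2 | ⟨rfl, rfl⟩ | ⟨rfl, rfl⟩
      · exact .inl ⟨e1.1, e2.1, e3.1, t.2.2.2⟩
      · simp only [B t1, and_self, or_true]
      · simp only [A t1, and_self, or_true, true_or]
    · simp only [A t2, and_self, or_true, true_or]
    · simp only [B t2, and_self, or_true, true_or]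
  · simp only [A t, and_self, or_true, true_or]
  · simp only [B t, and_self, or_true, true_or]

theorem WFlip_apex {x y : ℚ} (h : WFlip_N (S.K i) a c b d x y) :
    (∃ w, cyc x w y ∧ WFlip_N (S.K i) a c b d x w ∧ WFlip_N (S.K i) a c b d w y) ∨
      ∀ w ∈ S.P, ¬ cyc x w y := by
  obtain ⟨q1, q2, q3, q4⟩ := WFlip_eq hS h1 h2
  have q5 : WFlip_N (S.K i) a c b d c d := .inr (.inl ⟨rfl, rfl⟩)
  have q6 : WFlip_N (S.K i) a c b d d c := .inr (.inr ⟨rfl, rfl⟩)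
  have k5 := h1.2.2.2
  have k6 := h2.2.2.2
  have o : cyc c b d ∧ cyc d a c ∧ cyc a c d ∧ cyc b d c ∧ cyc d c b ∧ cyc c d a := by
    clear * - k5 k6
    unfold cyc at *
    grind
  rcases h with ⟨h, -⟩ | ⟨rfl, rfl⟩ | ⟨rfl, rfl⟩
  · refine (hS.apex i x y h).imp_left fun ⟨w, o1, e1, e2⟩ => ?_
    have t : T3 (S.K i) x w y := ⟨e1, h, e2, o1⟩
    have t2 := hS.trot (hS.trot t)
    by_cases c1 : x = a ∧ w = b
    · obtain ⟨rfl, rfl⟩ := c1
      obtain rfl := hS.apex_uniq t2 h2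
      exact ⟨c, o.2.2.1, q1, q5⟩
    by_cases c2 : x = b ∧ w = a
    · obtain ⟨rfl, rfl⟩ := c2
      obtain rfl := hS.apex_uniq t2 h1
      exact ⟨d, o.2.2.2.1, q3, q6⟩
    by_cases c3 : w = a ∧ y = b
    · obtain ⟨rfl, rfl⟩ := c3
      obtain rfl := hS.apex_uniq t h2
      exact ⟨c, o.2.2.2.2.1, q6, q2⟩
    by_cases c4 : w = b ∧ y = a
    · obtain ⟨rfl, rfl⟩ := c4
      obtain rfl := hS.apex_uniq t h1
      exact ⟨d, o.2.2.2.2.2, q5, q4⟩
    exact ⟨w, o1, .inl ⟨e1, c1, c2⟩, .inl ⟨e2, c3, c4⟩⟩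
  · exact .inl ⟨b, o.1, q2, q3⟩
  · exact .inl ⟨a, o.2.1, q4, q1⟩

end

theorem flipTop {S : St C D} (hS : Good X S) {a c b d : ℚ} {f : F} (h1 : T3 (S.K S.hi) c b a)
    (h2 : T3 (S.K S.hi) d a b) (l1 : S.lab c b a = X.β f) (l2 : S.lab d a b = X.β (X.rot f)) :
    ∃ S' : St C D, Good X S' ∧ Ext S S' ∧ S'.lo = S.lo ∧ S'.hi = S.hi + 1 ∧ S'.P = S.P ∧
      ∀ x y, S'.K (S.hi + 1) x y ↔ (S.K S.hi x y ∧ ¬ (x = a ∧ y = b) ∧ ¬ (x = b ∧ y = a)) ∨
        (x = c ∧ y = d) ∨ (x = d ∧ y = c) := by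
  have o1 : cyc a c b := cyc_rot (cyc_rot h1.2.2.2)
  have o2 : cyc b d a := cyc_rot (cyc_rot h2.2.2.2)
  have o3 : cyc a c d := by clear * - o1 o2; unfold cyc at *; grind
  obtain ⟨n1, n2, n3⟩ := cyc_ne o1
  obtain ⟨n4, n5, -⟩ := cyc_ne o2
  have n6 := (cyc_ne o3).2.1
  obtain ⟨r1, r2⟩ := hS.ofβ h1 l1
  obtain ⟨r3, r4⟩ := hS.ofβ h2 l2
  have new : ∀ j, ¬ S.K j c d := fun j k => hS.fresh h1 r1 (hS.mem _ _ _ k).2.2.2.2 o2 k
  have new' : ∀ j, ¬ S.K j d c := fun j k => new j (hS.symm _ _ _ k)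
  obtain ⟨q1, q2, q3, q4⟩ := WFlip_eq hS h1 h2
  have q5 : WFlip_N (S.K S.hi) a c b d c d := .inr (.inl ⟨rfl, rfl⟩)
  obtain ⟨K, k1, k2⟩ : ∃ K : ℤ → ℚ → ℚ → Prop, K (S.hi + 1) = WFlip_N (S.K S.hi) a c b d ∧
      ∀ i, i ≠ S.hi + 1 → K i = S.K i :=
    ⟨Function.update S.K (S.hi + 1) _, Function.update_self .., fun _ h => Function.update_of_ne h ..⟩
  obtain ⟨dl, d1, d2, d3⟩ : ∃ dl : ℚ → ℚ → D, dl c d = X.E (X.τ f) ∧
      dl d c = X.rv (X.E (X.τ f)) ∧ ∀ i x y, S.K i x y → dl x y = S.dl x y :=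
    ⟨fun x y => if x = c ∧ y = d then X.E (X.τ f) else if x = d ∧ y = c then X.rv (X.E (X.τ f))
      else S.dl x y, by simp, by simp [n6.symm], fun i x y h => by
        dsimp only
        rw [if_neg, if_neg] <;> rintro ⟨rfl, rfl⟩
        exacts [new' i h, new i h]⟩
  obtain ⟨lab, b1, b2, b3, b4, b5, b6, b7⟩ : ∃ lab : ℚ → ℚ → ℚ → C, lab a c d = X.τ f ∧
      lab c d a = X.ρ (X.τ f) ∧ lab d a c = X.ρ (X.ρ (X.τ f)) ∧ lab b d c = X.τ (X.rot f) ∧
      lab d c b = X.ρ (X.τ (X.rot f)) ∧ lab c b d = X.ρ (X.ρ (X.τ (X.rot f))) ∧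
      ∀ i w x y, T3 (S.K i) w x y → lab w x y = S.lab w x y :=
    ⟨fun w x y => if w = a ∧ x = c ∧ y = d then X.τ f else if w = c ∧ x = d ∧ y = a then X.ρ (X.τ f)
      else if w = d ∧ x = a ∧ y = c then X.ρ (X.ρ (X.τ f)) else if w = b ∧ x = d ∧ y = c then
      X.τ (X.rot f) else if w = d ∧ x = c ∧ y = b then X.ρ (X.τ (X.rot f)) else
      if w = c ∧ x = b ∧ y = d then X.ρ (X.ρ (X.τ (X.rot f))) else S.lab w x y, by simp,
      by simp [n1.symm], by simp [n5, n6.symm], by simp [n3.symm, n2.symm, n4],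
      by simp [n5, n6.symm, n1.symm, n4.symm], by simp [n1.symm, n4, n6, n2], fun i w x y h => by
        dsimp only
        rw [if_neg, if_neg, if_neg, if_neg, if_neg, if_neg] <;> rintro ⟨rfl, rfl, rfl⟩
        exacts [new i h.2.1, new' i h.1, new' i h.2.2.1, new' i h.2.1, new i h.1, new i h.2.2.1]⟩
  have hK : ∀ i x y, S.K i x y → K i x y := fun i x y h => by
    rwa [k2 i fun e => by have := (hS.mem _ _ _ h).2.2.2.2; omega]
  have cs : ∀ {i} {p : (ℚ → ℚ → Prop) → Prop}, p (K i) →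
      i = S.hi + 1 ∧ p (WFlip_N (S.K S.hi) a c b d) ∨ p (S.K i) := fun {i p} h => by
    by_cases e : i = S.hi + 1
    · exact .inl ⟨e, by rwa [e, k1] at h⟩
    · exact .inr (by rwa [k2 i e] at h)
  have tr : ∀ {i w x y}, T3 (K i) w x y → (∃ j, T3 (S.K j) w x y) ∨
      (w = a ∧ x = c ∧ y = d) ∨ (w = c ∧ x = d ∧ y = a) ∨ (w = d ∧ x = a ∧ y = c) ∨
      (w = b ∧ x = d ∧ y = c) ∨ (w = d ∧ x = c ∧ y = b) ∨ (w = c ∧ x = b ∧ y = d) := fun h =>
    (cs (p := fun E => T3 E _ _ _) h).elim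
      (fun k => (WFlip_tri hS h1 h2 k.2).imp_left fun t => ⟨_, t⟩) fun k => .inl ⟨_, k⟩
  have e1 := hS.symm _ _ _ h1.2.1
  have e3 := hS.symm _ _ _ h2.2.1
  have L : LT X ⟨S.P, S.lo, S.hi + 1, K, dl, lab⟩ S.hi a c b d ∧
      LT X ⟨S.P, S.lo, S.hi + 1, K, dl, lab⟩ S.hi b d a c := by
    have c1 : X.red (dl a c) := d3 _ _ _ e1 ▸ (hS.rsymm h1.2.1).2 r2
    have c2 : ¬ X.red (dl c b) := d3 _ _ _ h1.1 ▸ r1
    have c3 : X.red (dl b d) := d3 _ _ _ e3 ▸ (hS.rsymm h2.2.1).2 r4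
    have c4 : ¬ X.red (dl d a) := d3 _ _ _ h2.1 ▸ r3
    have q6 := WFlip_symm hS q5
    rw [← k1] at q1 q2 q3 q4 q5 q6
    have m1 := (b7 _ _ _ _ h1).trans l1
    have m2 := (b7 _ _ _ _ h2).trans l2
    exact ⟨⟨⟨o1, o2, hK _ _ _ h2.2.2.1, q5, ⟨hK _ _ _ e1, hK _ _ _ h1.1, hK _ _ _ e3, hK _ _ _ h2.1⟩,
      ⟨q1, q2, q3, q4⟩, c1, c2, c3, c4⟩, f, m1, m2, b1, b4⟩, ⟨o2, o1, hK _ _ _ h1.2.2.1, q6,
      ⟨hK _ _ _ e3, hK _ _ _ h2.1, hK _ _ _ e1, hK _ _ _ h1.1⟩, ⟨q3, q4, q1, q2⟩, c3, c4, c1, c2⟩,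
      X.rot f, m2, by rwa [X.rot2], b4, by rwa [X.rot2]⟩
  have le := hS.le
  refine ⟨⟨S.P, S.lo, S.hi + 1, K, dl, lab⟩, ⟨by change S.lo ≤ S.hi + 1; omega, fun i x y h => ?_,
    fun i x y h => ?_, fun i p q r s h h' => ?_, fun i x y h => ?_, fun i u v => ?_,
    fun i x y h => ?_, fun i w x y h => ?_, fun i w x y h => ?_, fun i x y u h => ?_,
    fun i x y u h => ?_⟩, ⟨le_rfl, le_rfl, (lt_add_one _).le, hK,
      fun i x y _ u _ _ h => k2 i (by omega) ▸ h, d3, b7⟩, rfl, rfl, rfl,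
    fun x y => by change K _ x y ↔ _; rw [k1]; rfl⟩
  · change x ∈ S.P ∧ y ∈ S.P ∧ x ≠ y ∧ S.lo ≤ i ∧ i ≤ S.hi + 1
    rcases cs (p := fun E => E x y) h with ⟨rfl, k | ⟨rfl, rfl⟩ | ⟨rfl, rfl⟩⟩ | k
    · obtain ⟨a1, a2, a3, -⟩ := hS.mem _ _ _ k.1
      exact ⟨a1, a2, a3, by omega, le_rfl⟩
    · exact ⟨(hS.mem _ _ _ h1.1).1, (hS.mem _ _ _ h2.1).1, n6, by omega, le_rfl⟩
    · exact ⟨(hS.mem _ _ _ h2.1).1, (hS.mem _ _ _ h1.1).1, n6.symm, by omega, le_rfl⟩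
    · obtain ⟨a1, a2, a3, a4, a5⟩ := hS.mem _ _ _ k
      exact ⟨a1, a2, a3, a4, by omega⟩
  · rcases cs (p := fun E => E x y) h with ⟨rfl, k⟩ | k
    · exact k1.ge _ _ (WFlip_symm hS k)
    · exact hK _ _ _ (hS.symm _ _ _ k)
  · rcases cs (p := fun E => E p q ∧ E r s) ⟨h, h'⟩ with ⟨-, k⟩ | k
    · exact WFlip_nocross hS h1 h2 k.1 k.2
    · exact hS.nocross _ _ _ _ _ k.1 k.2
  · rcases cs (p := fun E => E x y) h with ⟨rfl, k⟩ | k
    · exact (WFlip_apex hS h1 h2 k).imp_left fun ⟨w, a1, a2, a3⟩ =>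
        ⟨w, a1, k1.ge _ _ a2, k1.ge _ _ a3⟩
    · exact (hS.apex _ _ _ k).imp_left fun ⟨w, a1, a2, a3⟩ => ⟨w, a1, hK _ _ _ a2, hK _ _ _ a3⟩
  · rcases (show i ≤ S.hi + 1 from v).eq_or_lt with rfl | k
    · exact ⟨a, c, d, k1.ge _ _ q1, k1.ge _ _ (WFlip_symm hS q4), k1.ge _ _ q5, o3⟩
    · obtain ⟨w, x, y, t⟩ := hS.tri i u (by omega)
      exact ⟨w, x, y, t.mono (hK i)⟩
  · change dl y x = X.rv (dl x y)
    have old : ∀ j, S.K j x y → dl y x = X.rv (dl x y) := fun j k => by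
      rw [d3 _ _ _ k, d3 _ _ _ (hS.symm _ _ _ k), hS.rv _ _ _ k]
    rcases cs (p := fun E => E x y) h with ⟨-, k | ⟨rfl, rfl⟩ | ⟨rfl, rfl⟩⟩ | k
    · exact old _ k.1
    · rw [d1, d2]
    · rw [d1, d2, X.rv2]
    · exact old _ k
  · change lab x y w = X.ρ (lab w x y)
    rcases tr h with ⟨j, t⟩ | ⟨rfl, rfl, rfl⟩ | ⟨rfl, rfl, rfl⟩ | ⟨rfl, rfl, rfl⟩ |
      ⟨rfl, rfl, rfl⟩ | ⟨rfl, rfl, rfl⟩ | ⟨rfl, rfl, rfl⟩
    · rw [b7 _ _ _ _ t, b7 _ _ _ _ (hS.trot t), hS.rot _ _ _ _ t]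
    · rw [b1, b2]
    · rw [b2, b3]
    · rw [b1, b3, X.ρ3]
    · rw [b4, b5]
    · rw [b5, b6]
    · rw [b4, b6, X.ρ3]
  · change X.E (lab w x y) = dl x y
    have t1 := hS.trot h1
    have t2 := hS.trot h2
    rcases tr h with ⟨j, t⟩ | ⟨rfl, rfl, rfl⟩ | ⟨rfl, rfl, rfl⟩ | ⟨rfl, rfl, rfl⟩ |
      ⟨rfl, rfl, rfl⟩ | ⟨rfl, rfl, rfl⟩ | ⟨rfl, rfl, rfl⟩
    · rw [b7 _ _ _ _ t, d3 _ _ _ t.2.2.1, hS.dart _ _ _ _ t]
    · rw [b1, d1]
    · rw [b2, d3 _ _ _ h2.1, ← hS.dart _ _ _ _ (hS.trot t2), hS.rot _ _ _ _ t2, hS.rot _ _ _ _ h2,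
        l2, X.E2, X.rot2]
    · rw [b3, d3 _ _ _ e1, ← hS.dart _ _ _ _ t1, hS.rot _ _ _ _ h1, l1, X.E1]
    · rw [b4, d2, X.Eτ]
    · rw [b5, d3 _ _ _ h1.1, ← hS.dart _ _ _ _ (hS.trot t1), hS.rot _ _ _ _ t1, hS.rot _ _ _ _ h1,
        l1, X.E2]
    · rw [b6, d3 _ _ _ e3, ← hS.dart _ _ _ _ t2, hS.rot _ _ _ _ h2, l2, X.E1]
  · have u' : i < S.hi + 1 := u
    have k : S.K i x y := k2 i u'.ne ▸ h
    rcases (show i ≤ S.hi by omega).eq_or_lt with rfl | j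
    · by_cases c1 : x = a ∧ y = b
      · obtain ⟨rfl, rfl⟩ := c1
        exact .inr ⟨_, _, L.1⟩
      by_cases c2 : x = b ∧ y = a
      · obtain ⟨rfl, rfl⟩ := c2
        exact .inr ⟨_, _, L.2⟩
      exact .inl (k1.ge _ _ (.inl ⟨k, c1, c2⟩))
    · exact (hS.above i x y j k).imp (hK _ _ _) fun ⟨p, q, t⟩ => ⟨p, q, hS.LT_mono hK d3 b7 t⟩
  · rcases cs (p := fun E => E x y) h with ⟨e, k⟩ | k
    · obtain rfl : i = S.hi := by omega
      rcases k with k | ⟨rfl, rfl⟩ | ⟨rfl, rfl⟩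
      exacts [.inl (hK _ _ _ k.1), .inr ⟨_, _, L.1⟩, .inr ⟨_, _, L.2⟩]
    · exact (hS.below i x y u k).imp (hK _ _ _) fun ⟨p, q, t⟩ => ⟨p, q, hS.LT_mono hK d3 b7 t⟩

end Pool.Agent.Work.MP_3d425c_gt.Bor
end

-- merged part: Pool.Agent.Work.MP_3d425c_gt.W.Star
section
/-! Tetrahedra and faces of a layered veering triangulation; labels are injective on stars. -/

namespace Pool.Agent.Work.MP_3d425c_gt.Bor
open PA Filter

variable {V : Type} [LinearOrder V]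

namespace VC
variable {S : VC V}

theorem tet_faces {i : ℤ} {a c b d : V} (t : Tet S.K S.red i a c b d) :
    T3 (S.K i) c b a ∧ T3 (S.K i) d a b ∧ T3 (S.K (i + 1)) a c d ∧ T3 (S.K (i + 1)) b d c := by
  obtain ⟨h1, h2, h3, h4, ⟨a1, a2, a3, a4⟩, ⟨b1, b2, b3, b4⟩, -⟩ := t
  refine ⟨⟨a2, ksymm a1, ksymm h3, cyc_rot h1⟩, ⟨a4, ksymm a3, h3, cyc_rot h2⟩,
    ⟨b1, ksymm b4, h4, ?_⟩, ⟨b3, ksymm b2, ksymm h4, ?_⟩⟩ <;> unfold cyc at * <;> grind

theorem tet_rot {i : ℤ} {a c b d : V} (t : Tet S.K S.red i a c b d) : Tet S.K S.red i b d a c := by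
  obtain ⟨h1, h2, h3, h4, ⟨a1, a2, a3, a4⟩, ⟨b1, b2, b3, b4⟩, c1, c2, c3, c4⟩ := t
  exact ⟨h2, h1, ksymm h3, ksymm h4, ⟨a3, a4, a1, a2⟩, ⟨b3, b4, b1, b2⟩, c3, c4, c1, c2⟩

theorem tet_rev {i : ℤ} {a c b d : V} (t : Tet S.K S.red i a c b d) :
    Tet S.rev.K S.rev.red (-(i + 1)) c b d a := by
  obtain ⟨h1, h2, h3, h4, ⟨a1, a2, a3, a4⟩, ⟨b1, b2, b3, b4⟩, c1, c2, c3, c4⟩ := t
  have e1 : S.rev.K (-(i + 1)) = S.K (i + 1) := congrArg S.K (neg_neg _)
  have e2 : S.rev.K (-(i + 1) + 1) = S.K i := congrArg S.K (by ring)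
  unfold Tet
  rw [e1, e2]
  refine ⟨?_, ?_, h4, ksymm h3, ⟨b2, b3, b4, b1⟩, ⟨a2, a3, a4, a1⟩, c2, not_not.2 c3, c4,
    not_not.2 c1⟩ <;> unfold cyc at * <;> grind

theorem tet_of_rev {i : ℤ} {a c b d : V} (t : Tet S.rev.K S.rev.red i a c b d) :
    Tet S.K S.red (-(i + 1)) d a c b := by
  obtain ⟨h1, h2, h3, h4, ⟨a1, a2, a3, a4⟩, ⟨b1, b2, b3, b4⟩, c1, c2, c3, c4⟩ := t
  unfold Tet
  rw [show -(i + 1) + 1 = -i by ring]
  refine ⟨?_, ?_, ksymm (S := S) h4, h3, ⟨b4, b1, b2, b3⟩, ⟨a4, a1, a2, a3⟩, not_not.1 c4, c1,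
    not_not.1 c2, c3⟩ <;> unfold cyc at * <;> grind

theorem t3_uniq {i : ℤ} {w w' x y : V} (h : T3 (S.K i) w x y) (h' : T3 (S.K i) w' x y) :
    w = w' :=
  PB1_apex (S.layer i) (cyc_rot (cyc_rot h.2.2.2)) (ksymm h.2.1) h.1
    (cyc_rot (cyc_rot h'.2.2.2)) (ksymm h'.2.1) h'.1

/-- The bottom edge of a tetrahedron never comes back. -/
theorem tet_dead {k j : ℤ} {a c b d : V} (t : Tet S.K S.red k a c b d) (hj : k < j) :
    ¬ S.K j a b := fun h => by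
  have h1 := noIn (tet_faces t).2.2.1 (fun e => e.1 t.2.2.2.2.2.2.1) (by omega) h
  have h2 := t.1
  have h3 := t.2.1
  clear * - h1 h2 h3
  unfold cle cyc at *
  grind

/-- A tetrahedron is determined by its bottom edge. -/
theorem tet_bot {k k' : ℤ} {a c b d c' d' : V} (t : Tet S.K S.red k a c b d)
    (t' : Tet S.K S.red k' a c' b d') : k = k' ∧ c = c' ∧ d = d' := by
  obtain rfl : k = k' := le_antisymm (not_lt.1 fun h => tet_dead t' h t.2.2.1)
    (not_lt.1 fun h => tet_dead t h t'.2.2.1)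
  exact ⟨rfl, t3_uniq (tet_faces t).1 (tet_faces t').1,
    t3_uniq (tet_faces t).2.1 (tet_faces t').2.1⟩

/-- A tetrahedron is determined by its top edge. -/
theorem tet_top {k k' : ℤ} {a c b d a' b' : V} (t : Tet S.K S.red k a c b d)
    (t' : Tet S.K S.red k' a' c b' d) : k = k' ∧ a = a' ∧ b = b' := by
  obtain ⟨h1, h2, h3⟩ := tet_bot (tet_rev t) (tet_rev t')
  exact ⟨by omega, h3, h2⟩

/-- The tetrahedron above a face. -/
theorem face_die {w a b : V} (h : S.Face w a b) (h1 : ¬ S.red w a) (h2 : S.red w b) :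
    ∃ k d, Tet S.K S.red k b w a d := by
  obtain ⟨k, h⟩ := h
  by_contra hn
  have key : ∀ j, k ≤ j → T3 (S.K j) w a b := fun j hj => by
    induction j, hj using Int.leInduction with
    | base => exact h
    | succ j _ ih =>
      rcases step ih with t | ⟨d, t⟩ | ⟨d, t⟩ | ⟨d, t⟩
      · exact t
      · exact (hn ⟨_, _, t⟩).elim
      · exact (h1 t.2.2.2.2.2.2.1).elim
      · exact (t.2.2.2.2.2.2.2.1 (rsymm.1 h2)).elim
  obtain ⟨j, h3, h4⟩ := ((mortal (S := S) w a).and (eventually_ge_atTop k)).exists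
  exact h3 (key j h4).1

theorem rev_face {w a b : V} : S.rev.Face w a b ↔ S.Face w a b :=
  ⟨fun ⟨_, h⟩ => ⟨_, h⟩, fun ⟨k, h⟩ => ⟨-k, show T3 (S.K (- -k)) w a b by rwa [neg_neg]⟩⟩

/-- The tetrahedron below a face. -/
theorem face_born {w a b : V} (h : S.Face w a b) (h1 : S.red w a) (h2 : ¬ S.red w b) :
    ∃ k x, Tet S.K S.red k w a x b := by
  obtain ⟨k, d, t⟩ := face_die (S := S.rev) (rev_face.2 h) (not_not.2 h1) h2
  exact ⟨_, d, tet_rot (tet_of_rev t)⟩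

theorem Face.hasH {w a b : V} (h : S.Face w a b) : (¬ S.red w a ∧ S.red w b) ∨
    (¬ S.red a b ∧ S.red a w) ∨ (¬ S.red b w ∧ S.red b a) :=
  h.elim fun _ h => (VC.hasH h).imp (·.2) (Or.imp (·.2) (·.2))

theorem Face.hasL {w a b : V} (h : S.Face w a b) : (S.red w a ∧ ¬ S.red w b) ∨
    (S.red a b ∧ ¬ S.red a w) ∨ (S.red b w ∧ ¬ S.red b a) := by
  have := Face.hasH (S := S.rev) (rev_face.2 h)
  simpa only [rev, not_not] using this

/-- Every face is a bottom face of a tetrahedron. -/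
theorem Face.above {w a b : V} (h : S.Face w a b) : ∃ k d, Tet S.K S.red k b w a d ∨
    Tet S.K S.red k w a b d ∨ Tet S.K S.red k a b w d := by
  rcases h.hasH with e | e | e
  · obtain ⟨k, d, t⟩ := face_die h e.1 e.2
    exact ⟨k, d, Or.inl t⟩
  · obtain ⟨k, d, t⟩ := face_die h.rot e.1 e.2
    exact ⟨k, d, Or.inr (Or.inl t)⟩
  · obtain ⟨k, d, t⟩ := face_die h.rot.rot e.1 e.2
    exact ⟨k, d, Or.inr (Or.inr t)⟩

/-- Every face is a top face of a tetrahedron. -/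
theorem Face.below {w a b : V} (h : S.Face w a b) : ∃ k x, Tet S.K S.red k w a x b ∨
    Tet S.K S.red k a b x w ∨ Tet S.K S.red k b w x a := by
  rcases h.hasL with e | e | e
  · obtain ⟨k, d, t⟩ := face_born h e.1 e.2
    exact ⟨k, d, Or.inl t⟩
  · obtain ⟨k, d, t⟩ := face_born h.rot e.1 e.2
    exact ⟨k, d, Or.inr (Or.inl t)⟩
  · obtain ⟨k, d, t⟩ := face_born h.rot.rot e.1 e.2
    exact ⟨k, d, Or.inr (Or.inr t)⟩

/-- Every oriented edge has a face on its left. -/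
theorem E.face {a b : V} (h : S.E a b) : ∃ w, S.Face w a b := by
  obtain ⟨k, h⟩ := h
  obtain ⟨c, h1, h2, h3⟩ := (S.layer k).apex b a (ksymm h)
  exact ⟨c, k, h3, ksymm h2, h, cyc_rot h1⟩

/-- Every edge is the bottom edge of a tetrahedron. -/
theorem E.above {a b : V} (h : S.E a b) : ∃ k c d, Tet S.K S.red k a c b d := by
  obtain ⟨k, h⟩ := h
  by_contra hn
  have key : ∀ j, k ≤ j → S.K j a b := fun j hj => by
    induction j, hj using Int.leInduction with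
    | base => exact h
    | succ j _ ih => exact (S.above j a b ih).resolve_right fun ⟨c, d, t⟩ => hn ⟨j, c, d, t⟩
  obtain ⟨j, h3, h4⟩ := ((mortal (S := S) a b).and (eventually_ge_atTop k)).exists
  exact h3 (key j h4)

/-- Every edge is the top edge of a tetrahedron. -/
theorem E.below {c d : V} (h : S.E c d) : ∃ k a b, Tet S.K S.red k a c b d := by
  obtain ⟨k, x, y, t⟩ := E.above (S := S.rev) (rev_E.2 h)
  exact ⟨_, _, _, tet_of_rev t⟩

end VC

variable {C D F : Type} {X : VD C D F}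

theorem VD.rv_ne (wu : WellFounded fun c' c => X.Up c c') (c : C) : X.rv (X.E c) ≠ X.E c := by
  induction c using wu.induction with
  | _ c ih =>
    obtain ⟨f, rfl | rfl | rfl⟩ := X.βs c
    · rw [← X.Eβ]
      exact fun e => X.rot_ne f (X.βi _ _ e)
    · have u : X.Up _ _ := ⟨f, Or.inl ⟨rfl, rfl⟩⟩
      exact u.E ▸ ih _ u
    · have u : X.Up _ _ := ⟨f, Or.inr ⟨rfl, rfl⟩⟩
      exact u.E ▸ ih _ u

namespace Lab
variable {S : VC V} {dl : V → V → D} {lab : V → V → V → C} (hL : Lab X S dl lab)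
include hL

theorem dl_ne (wu : WellFounded fun c' c => X.Up c c') {a b : V} (h : S.E a b) :
    dl b a ≠ dl a b := by
  obtain ⟨w, f⟩ := h.face
  rw [hL.rv a b h, ← hL.dart _ _ _ f]
  exact VD.rv_ne wu _

theorem ofβ {w x y : V} (h : S.Face w x y) {f : F} (e : lab w x y = X.β f) :
    ¬ S.red w x ∧ S.red w y := by
  rw [VC.rsymm (a := w) (b := y), hL.red _ _ h.e1, hL.red _ _ h.e2.symm, ← hL.dart _ _ _ h.rot,
    ← hL.dart _ _ _ h.rot.rot, hL.rot _ _ _ h.rot, hL.rot _ _ _ h, e]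
  exact ⟨X.r2 f, X.r1 f⟩

/-- The tetrahedron above a face with label `β f`. -/
theorem die {w x y : V} (h : S.Face w x y) {f : F} (e : lab w x y = X.β f) :
    ∃ k d, Tet S.K S.red k y w x d ∧ lab y w d = X.τ f ∧ lab x d w = X.τ (X.rot f) := by
  obtain ⟨k, d, t⟩ := VC.face_die h (hL.ofβ h e).1 (hL.ofβ h e).2
  obtain ⟨g, h1, -, h3, h4⟩ := hL.tet _ _ _ _ _ t
  obtain rfl : f = g := X.βi _ _ (by rw [← e, h1])
  exact ⟨k, d, t, h3, h4⟩

/-- Faces on the left of an oriented edge are determined by their labels. -/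
theorem inj (wu : WellFounded fun c' c => X.Up c c') {a b x x' : V} (h : S.Face x a b)
    (h' : S.Face x' a b) (e : lab x a b = lab x' a b) : x = x' := by
  obtain ⟨q, hq⟩ : ∃ q, lab x a b = q := ⟨_, rfl⟩
  have hq' : lab x' a b = q := e ▸ hq
  clear e
  induction q using wu.induction generalizing x x' with
  | _ q ih =>
    obtain ⟨f, rfl | rfl | rfl⟩ := X.βs q
    · obtain ⟨k, d, t, -⟩ := hL.die h hq
      obtain ⟨k', d', t', -⟩ := hL.die h' hq'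
      exact (VC.tet_bot t t').2.1
    · have k : ∀ x, S.Face x a b → lab x a b = X.ρ (X.β f) → ∃ k d, Tet S.K S.red k a b x d ∧
          S.Face d a b ∧ lab d a b = X.ρ (X.ρ (X.τ f)) := fun x h hq => by
        obtain ⟨k, d, t, h1, -⟩ := hL.die h.rot.rot (f := f) (X.ρ_inj (by
          rw [← hL.rot _ _ _ h.rot.rot, hq]))
        have f1 : S.Face a b d := ⟨_, (VC.tet_faces t).2.2.1⟩
        exact ⟨k, d, t, f1.rot.rot, by rw [hL.rot _ _ _ f1.rot, hL.rot _ _ _ f1, h1]⟩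
      obtain ⟨_, d, t, f1, l1⟩ := k x h hq
      obtain ⟨_, d', t', f2, l2⟩ := k x' h' hq'
      obtain rfl := ih _ ⟨f, Or.inl ⟨rfl, rfl⟩⟩ f1 f2 l1 l2
      exact (VC.tet_top t t').2.2
    · have k : ∀ x, S.Face x a b → lab x a b = X.ρ (X.ρ (X.β f)) →
          ∃ k d, Tet S.K S.red k x a b d ∧ S.Face d a b ∧
            lab d a b = X.ρ (X.τ (X.rot f)) := fun x h hq => by
        obtain ⟨k, d, t, -, h1⟩ := hL.die h.rot (f := f) (by rw [hL.rot _ _ _ h, hq, X.ρ3])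
        have f1 : S.Face b d a := ⟨_, (VC.tet_faces t).2.2.2⟩
        exact ⟨k, d, t, f1.rot, by rw [hL.rot _ _ _ f1, h1]⟩
      obtain ⟨_, d, t, f1, l1⟩ := k x h hq
      obtain ⟨_, d', t', f2, l2⟩ := k x' h' hq'
      obtain rfl := ih _ ⟨f, Or.inr ⟨rfl, rfl⟩⟩ f1 f2 l1 l2
      exact (VC.tet_top t t').2.1

end Lab

end Pool.Agent.Work.MP_3d425c_gt.Bor
end

-- merged part: Pool.Agent.Work.MP_3d425c_gt.W.Limit
section
/-! The union of an exhausting sequence of continents.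

PLAN (definitions and helper lemmas in W/St.lean, `VC` and `Tet` in Vr1.lean, `IdealTri` in
PADefs.lean).
1. `Ext (S n) (S m)` for `n ≤ m`. `hi` increases strictly: take a triangle of `tri` at `hi n`, its
edge `x y` lies in `(S (n+1)).K (hi n)`, so the `j` of `hup` is not `hi n`. Same for `lo`. Hence
for every `i`, eventually `lo n ≤ i` and `i < hi n`.
2. `V := {q : ℚ // ∃ n, q ∈ (S n).P}`, `K i a b := ∃ n, (S n).K i a b`,
`dl a b := (S n).dl a b` for a chosen `n` with `∃ i, (S n).K i a b` (else `n = 0`), `lab`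
likewise with `T3`, `red a b := (∃ i, K i a b) ∧ X.red (dl a b)`. Then `dl a b = (S n).dl a b`
whenever `(S n).K i a b`, same for `lab`; finitely many edges of the limit lie in one `S n`;
if `a b ∈ P n`, `lo n ≤ i ≤ hi n` and `K i a b` then `(S n).K i a b` (`res`).
`cyc` on the subtype is `cyc` on values (unfold; `Subtype.coe_lt_coe`).
3. apex: if `(S n).K i a b`, take `j` from `hup n`; in `S (n+1)` the edge is in layer `i` and not
in layer `j ≥ i`, so it is not coastal (`Good.coast_up`), so `apex` gives the triangle.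
4. fin: take `n` with `u v ∈ P n` and `i` in the range; a separating edge `p q` has both ends in
`P n`. Lemma (strong induction on the number of points of `P` in the arc, starting from an edge
of `tri` in the orientation that contains `z`, or using that `z` lies in one of the three arcs):
for `z ∉ P` and `i` in the range there is an edge `a b` of layer `i` with `cyc a z b` and no
point of `P` in the arc. Apply it to `z = p` (or `q`), nocross of `a b` with `p q` in a later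
stage, then `grind`.
5. life: Lemma `gone`: `Good X S → K i a b → ¬ K j a b → i ≤ j → j ≤ l → ¬ K l a b` (first
`j0 > i` with `¬ K j0 a b`; `above` at `j0 - 1` gives `LT (j0-1) a c b d`; `Good.noIn` for the
top face `(a; c, d)` of `Good.faces`, which has `red a c`). Upper bound from `hup`, lower bound
from `hdn` and `gone` for `Good.rev`. For a pair that is never an edge take any bounds.
6. above, below: from a stage with `lo ≤ i`, `i < hi`; convert `LT` to `Tet` of the limit.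
`Lab.tet`: for `Tet i a c b d` of the limit, `a b` is not in layer `i + 1` (it crosses `c d`), so
`above` in a late stage gives `LT i a c' b d'`, and `c = c'`, `d = d'` by `apex_uniq`. -/

namespace Pool.Agent.Work.MP_3d425c_gt.Bor
open PA

variable {C D F : Type}

section
variable {X : VD C D F} {S : St C D}

theorem WLimit_gap (hS : Good X S) {i : ℤ} (h1 : S.lo ≤ i) (h2 : i ≤ S.hi) {z : ℚ}
    (hz : z ∉ S.P) : ∃ a b, S.K i a b ∧ cyc a z b ∧ ∀ c ∈ S.P, ¬ cyc a c b := by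
  classical
  have key : ∀ n a b, S.K i a b → cyc a z b → (S.P.filter fun c => cyc a c b).card = n →
      ∃ a b, S.K i a b ∧ cyc a z b ∧ ∀ c ∈ S.P, ¬ cyc a c b := by
    intro n
    induction n using Nat.strong_induction_on with
    | _ n ih =>
      intro a b hab hc hn
      obtain ⟨c, c1, c2, c3⟩ | k := hS.apex i a b hab
      swap
      · exact ⟨a, b, hab, hc, k⟩
      have cP := (hS.mem _ _ _ c2).2.1
      have lt : ∀ x y : ℚ, (∀ u, cyc x u y → cyc a u b) → ¬ cyc x c y →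
          (S.P.filter fun c => cyc x c y).card < n := fun x y k1 k2 => by
        rw [← hn]
        refine Finset.card_lt_card ⟨fun u hu => ?_, fun k => ?_⟩
        · rw [Finset.mem_filter] at hu ⊢
          exact ⟨hu.1, k1 u hu.2⟩
        · exact k2 (Finset.mem_filter.1 (k (Finset.mem_filter.2 ⟨cP, c1⟩))).2
      have ne : z ≠ c := fun e => hz (e ▸ cP)
      have : cyc a z c ∨ cyc c z b := by
        clear * - c1 hc ne
        unfold cyc at *
        grind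
      rcases this with k | k
      · refine ih _ (lt a c (fun u hu => cyc_trans hu c1) fun e => (cyc_ne e).2.1 rfl) a c c2 k rfl
      · refine ih _ (lt c b (fun u hu => ?_) fun e => (cyc_ne e).1 rfl) c b c3 k rfl
        clear * - c1 hu
        unfold cyc at *
        grind
  obtain ⟨w, x, y, -, -, t, -⟩ := hS.tri i h1 h2
  obtain ⟨m1, m2, m3, -⟩ := hS.mem _ _ _ t
  rcases cyc_total (a := x) (b := z) (c := y) (fun e => hz (e ▸ m1)) (fun e => hz (e ▸ m2)) m3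
    with k | k
  exacts [key _ x y t k rfl, key _ y x (hS.symm _ _ _ t) (cyc_rot k) rfl]

theorem WLimit_gone (hS : Good X S) {i j l : ℤ} {a b : ℚ} (h : S.K i a b) (h' : ¬ S.K j a b)
    (h1 : i ≤ j) (h2 : j ≤ l) : ¬ S.K l a b := by
  intro hl
  have key : ∃ k, k < j ∧ S.K k a b ∧ ¬ S.K (k + 1) a b := by
    clear h2
    induction j, h1 using Int.leInduction with
    | base => exact absurd h h'
    | succ j h1 ih =>
      by_cases e : S.K j a b
      · exact ⟨j, by omega, e, h'⟩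
      · obtain ⟨k, k1, k2⟩ := ih e
        exact ⟨k, by omega, k2⟩
  obtain ⟨k, k1, k2, k3⟩ := key
  have k4 := (hS.mem _ _ _ hl).2.2.2.2
  obtain ⟨c, d, t, -⟩ := (hS.above k a b (by omega) k2).resolve_left k3
  refine hS.noIn (hS.faces t).2.2.1 (fun e => e.1 t.2.2.2.2.2.2.1) (by omega) hl ?_
  have c1 := t.1
  have c2 := t.2.1
  clear * - c1 c2
  unfold cyc at *
  grind

theorem WLimit_hi {S' : St C D} (hS : Good X S) (hE : Ext S S')
    (h : ∀ a ∈ S.P, ∀ b ∈ S.P, ∃ j, S.hi ≤ j ∧ j ≤ S'.hi ∧ ¬ S'.K j a b) : S.hi < S'.hi := by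
  obtain ⟨w, x, y, -, -, t, -⟩ := hS.tri _ hS.le le_rfl
  obtain ⟨j, j1, j2, j3⟩ := h x (hS.mem _ _ _ t).1 y (hS.mem _ _ _ t).2.1
  exact (j1.lt_of_ne fun e => j3 (e ▸ hE.K _ _ _ t)).trans_le j2

theorem WLimit_lo {S' : St C D} (hS : Good X S) (hE : Ext S S')
    (h : ∀ a ∈ S.P, ∀ b ∈ S.P, ∃ j, S'.lo ≤ j ∧ j ≤ S.lo ∧ ¬ S'.K j a b) : S'.lo < S.lo := by
  obtain ⟨w, x, y, -, -, t, -⟩ := hS.tri _ le_rfl hS.le
  obtain ⟨j, j1, j2, j3⟩ := h x (hS.mem _ _ _ t).1 y (hS.mem _ _ _ t).2.1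
  exact j1.trans_lt (j2.lt_of_ne fun e => j3 (e ▸ hE.K _ _ _ t))

end

theorem WLimit_tet {K : ℤ → ℚ → ℚ → Prop} {R R' : ℚ → ℚ → Prop}
    (h : ∀ i a b, K i a b → (R a b ↔ R' a b)) {i : ℤ} {a c b d : ℚ} (t : Tet K R i a c b d) :
    Tet K R' i a c b d := by
  obtain ⟨h1, h2, h3, h4, ⟨a1, a2, a3, a4⟩, b1, c1⟩ := t
  rw [h _ _ _ a1, h _ _ _ a2, h _ _ _ a3, h _ _ _ a4] at c1
  exact ⟨h1, h2, h3, h4, ⟨a1, a2, a3, a4⟩, b1, c1⟩

/-- The union of the layers and the labels of the limit. -/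
noncomputable def WLimit_U (S : ℕ → St C D) : St C D where
  P := ∅
  lo := 0
  hi := 0
  K i a b := ∃ n, (S n).K i a b
  dl a b := (S (Classical.epsilon fun n => ∃ i, (S n).K i a b)).dl a b
  lab w x y := (S (Classical.epsilon fun n => ∃ i, T3 ((S n).K i) w x y)).lab w x y

section
variable {S : ℕ → St C D} (hE : ∀ n, Ext (S n) (S (n + 1)))
include hE

theorem WLimit_ext {n m : ℕ} (h : n ≤ m) : Ext (S n) (S m) := by
  induction m, h using Nat.le_induction with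
  | base => exact Ext.refl _
  | succ m _ ih => exact ih.trans (hE m)

theorem WLimit_dl (n : ℕ) (i : ℤ) (a b : ℚ) (h : (S n).K i a b) :
    (WLimit_U S).dl a b = (S n).dl a b := by
  obtain ⟨j, k⟩ := Classical.epsilon_spec (p := fun n => ∃ i, (S n).K i a b) ⟨n, i, h⟩
  exact ((WLimit_ext hE (le_max_left _ n)).dl j a b k).symm.trans
    ((WLimit_ext hE (le_max_right _ n)).dl i a b h)

theorem WLimit_lab (n : ℕ) (i : ℤ) (w x y : ℚ) (h : T3 ((S n).K i) w x y) :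
    (WLimit_U S).lab w x y = (S n).lab w x y := by
  obtain ⟨j, k⟩ := Classical.epsilon_spec (p := fun n => ∃ i, T3 ((S n).K i) w x y) ⟨n, i, h⟩
  exact ((WLimit_ext hE (le_max_left _ n)).lab j w x y k).symm.trans
    ((WLimit_ext hE (le_max_right _ n)).lab i w x y h)

theorem WLimit_ev {i : ℤ} {a b : ℚ} (h : (WLimit_U S).K i a b) :
    ∀ᶠ n in Filter.atTop, (S n).K i a b :=
  h.elim fun n k => Filter.eventually_atTop.2 ⟨n, fun _ e => (WLimit_ext hE e).K i a b k⟩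

theorem WLimit_evP {a : ℚ} (h : ∃ n, a ∈ (S n).P) : ∀ᶠ n in Filter.atTop, a ∈ (S n).P :=
  h.elim fun n k => Filter.eventually_atTop.2 ⟨n, fun _ e => (WLimit_ext hE e).P k⟩

theorem WLimit_ev3 {i : ℤ} {w x y : ℚ} (h : T3 ((WLimit_U S).K i) w x y) :
    ∃ n, T3 ((S n).K i) w x y := by
  obtain ⟨n, h1, h2, h3⟩ := ((WLimit_ev hE h.1).and
    ((WLimit_ev hE h.2.1).and (WLimit_ev hE h.2.2.1))).exists
  exact ⟨n, h1, h2, h3, h.2.2.2⟩

theorem WLimit_LT {X : VD C D F} {n : ℕ} (hG : Good X (S n)) {i : ℤ} {a c b d : ℚ}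
    (t : LT X (S n) i a c b d) : LT X (WLimit_U S) i a c b d :=
  hG.LT_mono (S' := WLimit_U S) (fun _ _ _ k => ⟨n, k⟩) (WLimit_dl hE n) (WLimit_lab hE n) t

end

theorem exists_limit (X : VD C D F) (S : ℕ → St C D) (hG : ∀ n, Good X (S n))
    (hE : ∀ n, Ext (S n) (S (n + 1)))
    (hup : ∀ n, ∀ a ∈ (S n).P, ∀ b ∈ (S n).P,
      ∃ j, (S n).hi ≤ j ∧ j ≤ (S (n + 1)).hi ∧ ¬ (S (n + 1)).K j a b)
    (hdn : ∀ n, ∀ a ∈ (S n).P, ∀ b ∈ (S n).P,
      ∃ j, (S (n + 1)).lo ≤ j ∧ j ≤ (S n).lo ∧ ¬ (S (n + 1)).K j a b) :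
    ∃ (V : Type) (_ : LinearOrder V) (_ : Countable V) (W : VC V) (dl : V → V → D)
      (lab : V → V → V → C), Lab X W dl lab := by
  have rng : ∀ i : ℤ, ∀ᶠ n in Filter.atTop, (S n).lo ≤ i ∧ i < (S n).hi := fun i => by
    have k : ∀ n : ℕ, (S n).lo ≤ (S 0).lo - n ∧ (S 0).hi + n ≤ (S n).hi := fun n => by
      induction n with
      | zero => simp
      | succ n ih =>
        have k1 := WLimit_hi (hG n) (hE n) (hup n)
        have k2 := WLimit_lo (hG n) (hE n) (hdn n)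
        omega
    refine Filter.eventually_atTop.2 ⟨((S 0).lo - i).toNat + (i + 1 - (S 0).hi).toNat,
      fun n hn => ?_⟩
    have := k n
    omega
  have sy : ∀ i a b, (WLimit_U S).K i a b → (WLimit_U S).K i b a := fun i a b h =>
    h.imp fun n k => (hG n).symm _ _ _ k
  have nc : ∀ i a b c d, (WLimit_U S).K i a b → (WLimit_U S).K i c d → cyc a c b → cyc b d a →
      False := fun i a b c d h h' => by
    obtain ⟨n, k, k'⟩ := ((WLimit_ev hE h).and (WLimit_ev hE h')).exists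
    exact (hG n).nocross i a b c d k k'
  have rv : ∀ i a b, (WLimit_U S).K i a b →
      (WLimit_U S).dl b a = X.rv ((WLimit_U S).dl a b) := fun i a b ⟨n, h⟩ => by
    rw [WLimit_dl hE n i a b h, WLimit_dl hE n i b a ((hG n).symm _ _ _ h), (hG n).rv i a b h]
  have sep : ∀ n i u v p q, (S n).lo ≤ i → i ≤ (S n).hi → u ∈ (S n).P → v ∈ (S n).P →
      (WLimit_U S).K i p q → cyc p u q → cyc q v p → p ∈ (S n).P := by
    intro n i u v p q h1 h2 hu hv h c1 c2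
    by_contra hp
    obtain ⟨a, b, k1, k2, k3⟩ := WLimit_gap (hG n) h1 h2 hp
    have k4 := nc i a b p q ⟨n, k1⟩ h k2
    have k5 := k3 u hu
    have k6 := k3 v hv
    clear * - c1 c2 k2 k4 k5 k6
    unfold cyc at *
    grind
  have tet : ∀ n i a c b d, LT X (S n) i a c b d → Tet (WLimit_U S).K
      (fun a b => (∃ i, (WLimit_U S).K i a b) ∧ (WLimit_U S).red X a b) i a c b d :=
    fun n i a c b d t => WLimit_tet (fun i a b h => (and_iff_right ⟨i, h⟩).symm)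
      (WLimit_LT hE (hG n) t).1
  refine ⟨{q : ℚ // ∃ n, q ∈ (S n).P}, inferInstance, inferInstance,
    ⟨fun i a b => (WLimit_U S).K i a b,
      fun a b => (∃ i, (WLimit_U S).K i a b) ∧ (WLimit_U S).red X a b,
      fun i => ⟨fun a b => sy i a b, fun a b c d => nc i a b c d, fun a b h => ?_, fun u v => ?_, ?_⟩,
      fun a b h => ?_, fun i a b h => ?_, fun i c d h => ?_, fun a b => ?_⟩,
    fun a b => (WLimit_U S).dl a b, fun w x y => (WLimit_U S).lab w x y,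
    fun a b h => and_iff_right h, fun a b h => h.elim fun i => rv i a b, fun w x y h => ?_,
    fun w x y h => ?_, fun i a c b d t => ?_⟩
  · obtain ⟨n, h⟩ := h
    obtain ⟨m1, m2, -, -, m3⟩ := (hG n).mem _ _ _ h
    obtain ⟨j, j1, j2, j3⟩ := hup n _ m1 _ m2
    have h' := (hE n).K _ _ _ h
    obtain ⟨c, c1, c2, c3⟩ := ((hG _).apex i a b h').resolve_right fun k =>
      j3 ((hG _).coast_up h' k (m3.trans j1) j2)
    exact ⟨⟨c, _, ((hG _).mem _ _ _ c3).1⟩, c1, ⟨_, c2⟩, _, c3⟩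
  · obtain ⟨n, ⟨r1, r2⟩, hu, hv⟩ := ((rng i).and
      ((WLimit_evP hE u.2).and (WLimit_evP hE v.2))).exists
    refine (((S n).P.finite_toSet.preimage Subtype.val_injective.injOn).prod
      ((S n).P.finite_toSet.preimage Subtype.val_injective.injOn)).subset fun p hp => ?_
    exact ⟨sep n i u v _ _ r1 r2.le hu hv hp.1 hp.2.1 hp.2.2,
      sep n i v u _ _ r1 r2.le hv hu (sy _ _ _ hp.1) hp.2.2 hp.2.1⟩
  · obtain ⟨n, r1, r2⟩ := (rng i).exists
    obtain ⟨w, x, y, -, -, t, -⟩ := (hG n).tri i r1 r2.le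
    exact ⟨⟨x, n, ((hG n).mem _ _ _ t).1⟩, ⟨y, n, ((hG n).mem _ _ _ t).2.1⟩, n, t⟩
  · obtain ⟨⟨i, k⟩, h⟩ := h
    refine ⟨⟨i, sy _ _ _ k⟩, ?_⟩
    unfold St.red at h ⊢
    rwa [rv i a b k, X.red_rv]
  · obtain ⟨n, k, r⟩ := ((WLimit_ev hE h).and (rng i)).exists
    refine ((hG n).above i a b r.2 k).imp (fun e => ⟨n, e⟩) fun ⟨c, d, t⟩ => ?_
    have m := (hG n).mem _ _ _ t.1.2.2.2.1
    exact ⟨⟨c, n, m.1⟩, ⟨d, n, m.2.1⟩, tet n i a c b d t⟩
  · obtain ⟨n, k, r⟩ := ((WLimit_ev hE h).and (rng i)).exists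
    refine ((hG n).below i c d r.1 k).imp (fun e => ⟨n, e⟩) fun ⟨a, b, t⟩ => ?_
    have m := (hG n).mem _ _ _ t.1.2.2.1
    exact ⟨⟨a, n, m.1⟩, ⟨b, n, m.2.1⟩, tet n i a c b d t⟩
  · by_cases e : ∃ i, (WLimit_U S).K i a b
    swap
    · exact ⟨0, 0, fun i h => absurd ⟨i, h⟩ e⟩
    obtain ⟨i, n, h⟩ := e
    obtain ⟨m1, m2, -, m3, m4⟩ := (hG n).mem _ _ _ h
    obtain ⟨t, t1, t2, t3⟩ := hup n _ m1 _ m2
    obtain ⟨s, s1, s2, s3⟩ := hdn n _ m1 _ m2
    refine ⟨s, t, fun l hl => ?_⟩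
    obtain ⟨m, k, hm⟩ := ((WLimit_ev hE hl).and (Filter.eventually_ge_atTop (n + 1))).exists
    have e := WLimit_ext hE hm
    have h' := e.K _ _ _ ((hE n).K _ _ _ h)
    have t4 := mt (e.res t a b (by omega) t2 ((hE n).P m1) ((hE n).P m2)) t3
    have s4 := mt (e.res s a b s1 (by omega) ((hE n).P m1) ((hE n).P m2)) s3
    refine ⟨not_lt.1 fun c => ?_, not_lt.1 fun c => WLimit_gone (hG m) h' t4 (by omega) c.le k⟩
    exact WLimit_gone (hG m).rev (i := -i) (j := -s) (l := -l) (a := a) (b := b)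
      (show (S m).K (- -i) a b by rwa [neg_neg]) (show ¬ (S m).K (- -s) a b by rwa [neg_neg])
      (by omega) (by omega) (show (S m).K (- -l) a b by rwa [neg_neg])
  · obtain ⟨i, h⟩ := h
    obtain ⟨n, k⟩ := WLimit_ev3 hE (i := i) (w := w) (x := x) (y := y) h
    rw [WLimit_lab hE n i _ _ _ k, WLimit_lab hE n i _ _ _ ((hG n).trot k), (hG n).rot i _ _ _ k]
  · obtain ⟨i, h⟩ := h
    obtain ⟨n, k⟩ := WLimit_ev3 hE (i := i) (w := w) (x := x) (y := y) h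
    rw [WLimit_lab hE n i _ _ _ k, WLimit_dl hE n i _ _ k.2.2.1, (hG n).dart i _ _ _ k]
  · obtain ⟨h1, h2, h3, h4, ⟨a1, a2, a3, a4⟩, -⟩ := t
    obtain ⟨n, ⟨⟨r, k3⟩, b1, b2⟩, b3, b4⟩ := ((((rng i).and (WLimit_ev hE h3)).and
      ((WLimit_ev hE a1).and (WLimit_ev hE a2))).and
      ((WLimit_ev hE a3).and (WLimit_ev hE a4))).exists
    obtain ⟨c', d', u⟩ := ((hG n).above i a b r.2 k3).resolve_left fun e =>
      nc _ a b c d ⟨n, e⟩ h4 h1 h2
    obtain ⟨f1, f2, -⟩ := (hG n).faces u.1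
    obtain rfl := (hG n).apex_uniq (w := c)
      ⟨b2, (hG n).symm _ _ _ b1, (hG n).symm _ _ _ k3, cyc_rot h1⟩ f1
    obtain rfl := (hG n).apex_uniq (w := d) ⟨b4, (hG n).symm _ _ _ b3, k3, cyc_rot h2⟩ f2
    exact (WLimit_LT hE (hG n) u).2

end Pool.Agent.Work.MP_3d425c_gt.Bor
end

-- merged part: Pool.Agent.Work.MP_3d425c_gt.W.Kill
section
/-! Continents grow until every edge is buried; the layered triangulation. -/

namespace Pool.Agent.Work.MP_3d425c_gt.Bor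
open PA Classical

variable {C D F : Type} {X : VD C D F} {O : Finset ℚ}

/-- New cusps see a blue edge followed by a red edge in the top layer, and a side of a top edge
that contains a cusp contains an old cusp. -/
structure KInv (X : VD C D F) (O : Finset ℚ) (S : St C D) : Prop where
  new : ∀ v ∈ S.P, v ∉ O → ∃ x y, T3 (S.K S.hi) v x y ∧ ¬ S.red X v x ∧ S.red X v y
  old : ∀ x y p, S.K S.hi x y → p ∈ S.P → cyc x p y → ∃ o ∈ O, cyc x o y

/-- The edge `a b` has been buried by tetrahedra on the side of the arc from `a` to `b`. -/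
structure Killed (X : VD C D F) (O : Finset ℚ) (S : St C D) (a b : ℚ) (S' : St C D) : Prop where
  good : Good X S'
  ext : Ext S S'
  inv : KInv X O S'
  dead : ¬ S'.K S'.hi a b
  keep : ∀ u v j, S.K S.hi u v → cyc b u a ∨ cyc b v a → S.hi ≤ j → j ≤ S'.hi → S'.K j u v

theorem Ext.red {S S' : St C D} (h : Ext S S') {i : ℤ} {a b : ℚ} (k : S.K i a b) :
    S'.red X a b ↔ S.red X a b := by
  unfold St.red
  rw [h.dl i a b k]

theorem Killed.comp {S S1 S2 : St C D} {a b : ℚ} (e : Ext S S1)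
    (k : ∀ u v j, S.K S.hi u v → cyc b u a ∨ cyc b v a → S.hi ≤ j → j ≤ S1.hi → S1.K j u v)
    (h : Killed X O S1 a b S2) : Killed X O S a b S2 :=
  ⟨h.good, e.trans h.ext, h.inv, h.dead, fun u v j h1 h2 h3 h4 =>
    (le_total j S1.hi).elim (fun h5 => h.ext.K _ _ _ (k u v j h1 h2 h3 h5))
      fun h5 => h.keep u v j (k u v _ h1 h2 e.hi le_rfl) h2 h5 h4⟩

theorem kill_mid {S : St C D} (hS : Good X S) {a c b d : ℚ} (h1 : T3 (S.K S.hi) c b a)
    (h2 : T3 (S.K S.hi) d a b) (r1 : S.red X c a) (r2 : ¬ S.red X d a)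
    (new : ∀ v ∈ S.P, v ∉ O → ∃ x y, T3 (S.K S.hi) v x y ∧ ¬ S.red X v x ∧ S.red X v y)
    (old : ∀ x y p, S.K S.hi x y → ¬ (x = a ∧ y = b) → ¬ (x = b ∧ y = a) → p ∈ S.P → cyc x p y →
      ∃ o ∈ O, cyc x o y) : ∃ o ∈ O, cyc d o c := by
  have c1 := h1.2.2.2
  have c2 := h2.2.2.2
  by_cases ha : a ∈ O
  · refine ⟨a, ha, ?_⟩
    clear * - c1 c2
    unfold cyc at *
    grind
  obtain ⟨x, y, t, s1, s2⟩ := new a (hS.mem _ _ _ h2.2.2.1).1 ha
  have k : ∀ p ∈ S.P, cyc d p a ∨ cyc a p c → ∃ o ∈ O, cyc d o c := by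
    rintro p hp (e | e)
    · obtain ⟨o, ho, e'⟩ := old d a p h2.1 (fun e => (cyc_ne c2).1 e.1)
        (fun e => (cyc_ne c2).2.2 e.1) hp e
      refine ⟨o, ho, ?_⟩
      clear * - c1 c2 e'
      unfold cyc at *
      grind
    · obtain ⟨o, ho, e'⟩ := old a c p (hS.symm _ _ _ h1.2.1) (fun e => (cyc_ne c1).1 e.2)
        (fun e => (cyc_ne c1).2.2 e.2) hp e
      refine ⟨o, ho, ?_⟩
      clear * - c1 c2 e'
      unfold cyc at *
      grind
  by_contra hn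
  have x1 := mt (k x (hS.mem _ _ _ t.1).2.1) hn
  have y1 := mt (k y (hS.mem _ _ _ t.2.1).2.1) hn
  have x2 := hS.nocross _ _ _ _ _ h1.1 (hS.symm _ _ _ t.1)
  have x3 := hS.nocross _ _ _ _ _ (hS.symm _ _ _ h2.2.1) (hS.symm _ _ _ t.1)
  have y2 := hS.nocross _ _ _ _ _ h1.1 (hS.symm _ _ _ t.2.1)
  have y3 := hS.nocross _ _ _ _ _ (hS.symm _ _ _ h2.2.1) (hS.symm _ _ _ t.2.1)
  have x4 : x ≠ c := fun e => s1 (e ▸ (hS.rsymm h1.2.1).2 r1)
  have y4 : y ≠ d := fun e => r2 ((hS.rsymm h2.1).1 (e ▸ s2))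
  have c3 := t.2.2.2
  have x5 : x = b ∨ x = d := by
    clear * - c1 c2 c3 x1 x2 x3 x4
    unfold cyc at *
    grind
  have y5 : y = b ∨ y = c := by
    clear * - c1 c2 c3 y1 y2 y3 y4
    unfold cyc at *
    grind
  clear * - c1 c2 c3 x5 y5
  unfold cyc at *
  grind

theorem kill_flip {S : St C D} (hS : Good X S) {a c b d : ℚ} (h1 : T3 (S.K S.hi) c b a)
    (h2 : T3 (S.K S.hi) d a b) (r1 : ¬ S.red X c b ∧ S.red X c a)
    (r2 : ¬ S.red X d a ∧ S.red X d b)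
    (new : ∀ v ∈ S.P, v ∉ O → ∃ x y, T3 (S.K S.hi) v x y ∧ ¬ S.red X v x ∧ S.red X v y)
    (old : ∀ x y p, S.K S.hi x y → ¬ (x = a ∧ y = b) → p ∈ S.P → cyc x p y →
      ∃ o ∈ O, cyc x o y) : ∃ S', Killed X O S a b S' := by
  obtain ⟨f, l1⟩ := hS.isβ h1 r1.1 r1.2
  obtain ⟨g, l2⟩ := hS.isβ h2 r2.1 r2.2
  obtain rfl : g = X.rot f := X.βi _ _ (by
    rw [X.Eβ, ← l1, ← l2, hS.dart _ _ _ _ h1, hS.dart _ _ _ _ h2, hS.rv _ _ _ h1.2.2.1])
  obtain ⟨S', g, e, -, hi, hP, hK⟩ := flipTop hS h1 h2 l1 l2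
  have c1 := h1.2.2.2
  have c2 := h2.2.2.2
  obtain ⟨n1, n2, n3⟩ := cyc_ne c1
  obtain ⟨n4, n5, n6⟩ := cyc_ne c2
  have ko : ∀ x y, S.K S.hi x y → ¬ (x = a ∧ y = b) → ¬ (x = b ∧ y = a) → S'.K S'.hi x y :=
    fun x y k1 k2 k3 => hi ▸ (hK x y).2 (Or.inl ⟨k1, k2, k3⟩)
  have kcd : S'.K S'.hi c d := hi ▸ (hK c d).2 (Or.inr (Or.inl ⟨rfl, rfl⟩))
  have kcb := ko _ _ h1.1 (fun e => n3 e.1) (fun e => n1 e.1)
  have kca := ko _ _ h1.2.1 (fun e => n3 e.1) (fun e => n1 e.1)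
  have kda := ko _ _ h2.1 (fun e => n4 e.1) (fun e => n6 e.1)
  have kdb := ko _ _ h2.2.1 (fun e => n4 e.1) (fun e => n6 e.1)
  have c3 : cyc c b d ∧ cyc c d a ∧ cyc d a c ∧ cyc d c b := by
    clear * - c1 c2
    unfold cyc at *
    grind
  refine ⟨S', g, e, ⟨fun v hv hO => ?_, fun x y p k hp hc => ?_⟩, fun k => ?_,
    fun u v j k hc j1 j2 => ?_⟩
  · obtain ⟨x, y, t, s1, s2⟩ := new v (hP ▸ hv) hO
    by_cases e1 : x = b ∧ y = a
    · obtain ⟨rfl, rfl⟩ := e1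
      obtain rfl := hS.apex_uniq t h1
      by_cases r : S'.red X v d
      exacts [⟨x, d, ⟨kcb, kcd, g.symm _ _ _ kdb, c3.1⟩, mt (e.red h1.1).1 r1.1, r⟩,
        ⟨d, y, ⟨kcd, kca, kda, c3.2.1⟩, r, (e.red h1.2.1).2 r1.2⟩]
    by_cases e2 : x = a ∧ y = b
    · obtain ⟨rfl, rfl⟩ := e2
      obtain rfl := hS.apex_uniq t h2
      by_cases r : S'.red X v c
      exacts [⟨x, c, ⟨kda, g.symm _ _ _ kcd, g.symm _ _ _ kca, c3.2.2.1⟩, mt (e.red h2.1).1 r2.1,
        r⟩, ⟨c, y, ⟨g.symm _ _ _ kcd, kdb, kcb, c3.2.2.2⟩, r, (e.red h2.2.1).2 r2.2⟩]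
    refine ⟨x, y, ⟨ko _ _ t.1 ?_ ?_, ko _ _ t.2.1 ?_ ?_, ko _ _ t.2.2.1 e2 e1, t.2.2.2⟩,
      mt (e.red t.1).1 s1, (e.red t.2.1).2 s2⟩ <;> rintro ⟨rfl, rfl⟩
    · obtain rfl := hS.apex_uniq (hS.trot (hS.trot t)) h2
      exact r2.1 ((hS.rsymm t.2.1).2 s2)
    · obtain rfl := hS.apex_uniq (hS.trot (hS.trot t)) h1
      exact r1.1 ((hS.rsymm t.2.1).2 s2)
    · obtain rfl := hS.apex_uniq (hS.trot t) h1
      exact s1 ((hS.rsymm t.1).1 r1.2)
    · obtain rfl := hS.apex_uniq (hS.trot t) h2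
      exact s1 ((hS.rsymm t.1).1 r2.2)
  · rw [hi, hK] at k
    rcases k with k | ⟨rfl, rfl⟩ | ⟨rfl, rfl⟩
    · exact old x y p k.1 k.2.1 (hP ▸ hp) hc
    · exact kill_mid hS h2 h1 r2.2 r1.1 new fun x y p k _ k2 => old x y p k k2
    · exact kill_mid hS h1 h2 r1.2 r2.1 new fun x y p k k1 _ => old x y p k k1
  · rw [hi, hK] at k
    rcases k with k | k | k
    exacts [k.2.1 ⟨rfl, rfl⟩, n3 k.1.symm, n4 k.1.symm]
  · rcases (show j = S.hi ∨ j = S'.hi by omega) with rfl | rfl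
    · exact e.K _ _ _ k
    · refine ko _ _ k ?_ ?_ <;> rintro ⟨rfl, rfl⟩ <;> exact hc.elim
        (fun k => by simpa using cyc_ne k) fun k => by simpa using cyc_ne k

theorem kill_coast {S : St C D} (hS : Good X S) (hI : KInv X O S) {c a b : ℚ}
    (h : T3 (S.K S.hi) c a b) (r1 : ¬ S.red X c a) (r2 : S.red X c b)
    (hc : ∀ p ∈ S.P, ¬ cyc a p b) : ∃ S', Killed X O S a b S' := by
  obtain ⟨f, l⟩ := hS.isβ h r1 r2
  obtain ⟨S1, d, g, e, -, hi, c1, hP, l1, hK⟩ := addTri hS h.2.2.1 hc (X.β (X.rot f))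
    (by rw [X.Eβ, ← l, hS.dart _ _ _ _ h, hS.rv _ _ _ h.2.2.1])
  have t1 : T3 (S1.K S1.hi) d b a := hi ▸ ⟨(hK _ _).2 (Or.inr (Or.inl ⟨rfl, Or.inr rfl⟩)),
    (hK _ _).2 (Or.inr (Or.inl ⟨rfl, Or.inl rfl⟩)), e.K _ _ _ (hS.symm _ _ _ h.2.2.1), cyc_rot c1⟩
  have c2 := h.2.2.2
  obtain ⟨o, ho, c3⟩ := hI.old b a c (hS.symm _ _ _ h.2.2.1) (hS.mem _ _ _ h.1).1
    (cyc_rot (cyc_rot c2))
  obtain ⟨ma, mb, -⟩ := hS.mem _ _ _ h.2.2.1
  obtain ⟨S2, k⟩ := kill_flip (O := O) g t1 (hi ▸ h.mono (e.K _)) (g.ofβ t1 l1)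
    ⟨mt (e.red h.1).1 r1, (e.red h.2.1).2 r2⟩ (fun v hv hO => by
      rw [hP, Finset.mem_insert] at hv
      rcases hv with rfl | hv
      · exact ⟨b, a, t1, g.ofβ t1 l1⟩
      · obtain ⟨x, y, t, s1, s2⟩ := hI.new v hv hO
        exact ⟨x, y, hi ▸ t.mono (e.K _), mt (e.red t.1).1 s1, (e.red t.2.1).2 s2⟩)
    (fun x y p k hn hp hp' => by
      rw [hP, Finset.mem_insert] at hp
      rw [hi, hK] at k
      rcases k with k | ⟨rfl, rfl | rfl⟩ | ⟨rfl, rfl | rfl⟩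
      · rcases hp with rfl | hp
        · have x1 := hc x (hS.mem _ _ _ k).1
          have y1 := hc y (hS.mem _ _ _ k).2.1
          have : cyc x a y ∨ cyc x b y := by
            clear * - x1 y1 hn hp' c1
            unfold cyc at *
            grind
          exact this.elim (hI.old x y a k ma) (hI.old x y b k mb)
        · exact hI.old x y p k hp hp'
      · refine ⟨o, ho, ?_⟩
        clear * - c1 c3
        unfold cyc at *
        grind
      · have := hp.imp_right (hc p)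
        clear * - c1 this hp'
        unfold cyc at *
        grind
      · have := hp.imp_right (hc p)
        clear * - c1 this hp'
        unfold cyc at *
        grind
      · refine ⟨o, ho, ?_⟩
        clear * - c1 c3
        unfold cyc at *
        grind)
  exact ⟨S2, k.comp e fun u v j k1 _ j1 j2 => (show S.hi = j by omega) ▸ e.K _ _ _ k1⟩

theorem Good.up_step {S : St C D} (hS : Good X S) {j : ℤ} {a b d d' : ℚ} (h : T3 (S.K j) d b a)
    (h' : T3 (S.K (j + 1)) d' b a) : d = d' ∨ X.Up (S.lab d b a) (S.lab d' b a) := by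
  have hj : j < S.hi := by
    have := (hS.mem _ _ _ h'.1).2.2.2.2
    omega
  have h1 := hS.trot h
  have h2 := hS.trot h1
  by_cases k1 : S.K (j + 1) d b
  swap
  · obtain ⟨x, t, f, l1, -, l3, -⟩ := hS.die hj h2 k1
    have f1 := (hS.faces t).2.2.1
    obtain rfl := hS.apex_uniq (hS.trot (hS.trot f1)) h'
    exact Or.inr ⟨f, Or.inl ⟨by rw [hS.rot _ _ _ _ h2, l1],
      by rw [hS.rot _ _ _ _ (hS.trot f1), hS.rot _ _ _ _ f1, l3]⟩⟩
  by_cases k2 : S.K (j + 1) a d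
  swap
  · obtain ⟨x, t, f, l1, -, -, l4⟩ := hS.die hj h1 k2
    have f1 := (hS.faces t).2.2.2
    obtain rfl := hS.apex_uniq (hS.trot f1) h'
    exact Or.inr ⟨f, Or.inr ⟨by rw [hS.rot _ _ _ _ h2, hS.rot _ _ _ _ h1, l1],
      by rw [hS.rot _ _ _ _ f1, l4]⟩⟩
  exact Or.inl (hS.apex_uniq ⟨k1, hS.symm _ _ _ k2, h'.2.2.1, h.2.2.2⟩ h')

/-- The face on a given side of an edge moves up. -/
theorem Good.height {S : St C D} (hS : Good X S) {i k : ℤ} {a b d d' : ℚ} (h : T3 (S.K i) d b a)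
    (hik : i ≤ k) (hl : ∀ j, i ≤ j → j ≤ k → S.K j a b) (h' : T3 (S.K k) d' b a) :
    d = d' ∨ Relation.TransGen (fun c' c => X.Up c c') (S.lab d' b a) (S.lab d b a) := by
  induction k, hik using Int.leInduction generalizing d' with
  | base => exact Or.inl (hS.apex_uniq h h')
  | succ k hik ih =>
    obtain ⟨x, t⟩ := hS.apex' (hl k hik (by omega)) (hS.mem _ _ _ h.1).1
      (cyc_rot (cyc_rot h.2.2.2))
    rcases ih (fun j j1 j2 => hl j j1 (by omega)) t with rfl | u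
    · exact (hS.up_step t h').imp_right .single
    · rcases hS.up_step t h' with rfl | v
      exacts [Or.inr u, Or.inr (.head v u)]

/-- The number of points in an arc. -/
noncomputable def cnt (O : Finset ℚ) (a b : ℚ) : ℕ := (O.filter fun o => cyc a o b).card

theorem cnt_le {a b x y : ℚ} (h : ∀ p, cyc x p y → cyc a p b) : cnt O x y ≤ cnt O a b :=
  Finset.card_le_card (Finset.monotone_filter_right _ fun p _ => h p)

theorem cnt_lt {a b x y o : ℚ} (h : ∀ p, cyc x p y → cyc a p b) (ho : o ∈ O) (h1 : cyc a o b)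
    (h2 : ¬ cyc x o y) : cnt O x y < cnt O a b :=
  Finset.card_lt_card ⟨Finset.monotone_filter_right _ fun p _ => h p, fun k =>
    h2 (Finset.mem_filter.1 (k (Finset.mem_filter.2 ⟨ho, h1⟩))).2⟩

theorem kill_inner (wu : WellFounded fun c' c => X.Up c c') {c a b : ℚ}
    (sub : ∀ (S : St C D) z x y, Good X S → KInv X O S → T3 (S.K S.hi) z x y → ¬ S.red X z x →
      S.red X z y → cnt O x y < cnt O a b → ∃ S', Killed X O S x y S') (q : C) :
    ∀ (S : St C D) d, Good X S → KInv X O S → T3 (S.K S.hi) c a b → ¬ S.red X c a → S.red X c b →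
      T3 (S.K S.hi) d b a → S.lab d b a = q →
      (¬ S.red X b a → S.red X b d → ∃ S', Killed X O S a d S') →
      (¬ S.red X a d → S.red X a b → ∃ S', Killed X O S d b S') →
      ∃ S', Killed X O S a b S' := by
  induction q using wu.transGen.induction with
  | _ q ih =>
    intro S d hS hI h r1 r2 t l k1 k2
    have c1 := h.2.2.2
    have c2 := t.2.2.2
    rcases hS.hasH t with r | r | r
    · exact kill_flip hS t h r ⟨r1, r2⟩ hI.new fun x y p k _ => hI.old x y p k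
    · obtain ⟨S1, k⟩ := k1 r.1 r.2
      have c3 : cyc d b a ∧ cyc d c a ∧ ∀ u, cyc b u a → cyc d u a := by
        clear * - c1 c2
        unfold cyc at *
        grind
      have g := k.good
      have e := k.ext
      have hl := fun j => k.keep a b j h.2.2.1 (Or.inr c3.1)
      have h1 : T3 (S1.K S1.hi) c a b := ⟨k.keep _ _ _ h.1 (Or.inl c3.2.1) e.hi le_rfl,
        k.keep _ _ _ h.2.1 (Or.inl c3.2.1) e.hi le_rfl, hl _ e.hi le_rfl, c1⟩
      have md := e.P (hS.mem _ _ _ t.1).1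
      obtain ⟨d', t'⟩ := g.apex' h1.2.2.1 md (cyc_rot (cyc_rot c2))
      have nd : d ≠ d' := fun e => k.dead (g.symm _ _ _ (e ▸ t'.2.1))
      have u := (g.height (t.mono (e.K _)) e.hi hl t').resolve_left nd
      rw [e.lab _ _ _ _ t, l] at u
      have n1 := g.nocross _ _ _ _ _ (k.keep _ _ _ t.1 (Or.inr c3.1) e.hi le_rfl) t'.2.1
      have c4 := t'.2.2.2
      obtain ⟨o, ho, c5⟩ := k.inv.old d' b d t'.1 md (by
        clear * - c2 c4 n1 nd
        unfold cyc at *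
        grind)
      obtain ⟨S2, k'⟩ := ih _ u S1 d' g k.inv h1 (mt (e.red h.1).1 r1) ((e.red h.2.1).2 r2) t' rfl
        (fun s1 s2 => sub S1 b a d' g k.inv (g.trot t') s1 s2 (cnt_lt (o := o) (by
          clear * - c4
          unfold cyc at *
          grind) ho (by
          clear * - c4 c5
          unfold cyc at *
          grind) (by
          clear * - c4 c5
          unfold cyc at *
          grind)))
        fun _ s => absurd ((hS.rsymm h.2.2.1).2 ((e.red h.2.2.1).1 s)) r.1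
      exact ⟨S2, k'.comp e fun u v j m1 m2 => k.keep u v j m1 (m2.imp (c3.2.2 u) (c3.2.2 v))⟩
    · obtain ⟨S1, k⟩ := k2 r.1 r.2
      have c3 : cyc b a d ∧ cyc b c d ∧ ∀ u, cyc b u a → cyc b u d := by
        clear * - c1 c2
        unfold cyc at *
        grind
      have g := k.good
      have e := k.ext
      have hl := fun j => k.keep a b j h.2.2.1 (Or.inl c3.1)
      have h1 : T3 (S1.K S1.hi) c a b := ⟨k.keep _ _ _ h.1 (Or.inl c3.2.1) e.hi le_rfl,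
        k.keep _ _ _ h.2.1 (Or.inl c3.2.1) e.hi le_rfl, hl _ e.hi le_rfl, c1⟩
      have md := e.P (hS.mem _ _ _ t.1).1
      obtain ⟨d', t'⟩ := g.apex' h1.2.2.1 md (cyc_rot (cyc_rot c2))
      have nd : d ≠ d' := fun e => k.dead (e ▸ t'.1)
      have u := (g.height (t.mono (e.K _)) e.hi hl t').resolve_left nd
      rw [e.lab _ _ _ _ t, l] at u
      have n1 := g.nocross _ _ _ _ _
        (k.keep _ _ _ (hS.symm _ _ _ t.2.1) (Or.inl c3.1) e.hi le_rfl) t'.1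
      have c4 := t'.2.2.2
      obtain ⟨o, ho, c5⟩ := k.inv.old a d' d (g.symm _ _ _ t'.2.1) md (by
        clear * - c2 c4 n1 nd
        unfold cyc at *
        grind)
      obtain ⟨S2, k'⟩ := ih _ u S1 d' g k.inv h1 (mt (e.red h.1).1 r1) ((e.red h.2.1).2 r2) t' rfl
        (fun s _ => absurd ((g.rsymm h1.2.2.1).2 ((e.red h.2.2.1).2 r.2)) s)
        fun s1 s2 => sub S1 a d' b g k.inv (g.trot (g.trot t')) s1 s2 (cnt_lt (o := o) (by
          clear * - c4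
          unfold cyc at *
          grind) ho (by
          clear * - c4 c5
          unfold cyc at *
          grind) (by
          clear * - c4 c5
          unfold cyc at *
          grind))
      exact ⟨S2, k'.comp e fun u v j m1 m2 => k.keep u v j m1 (m2.imp (c3.2.2 u) (c3.2.2 v))⟩

theorem kill (wu : WellFounded fun c' c => X.Up c c') (n : ℕ) : ∀ (m : ℕ) (S : St C D) c a b,
    cnt O a b = n → cnt S.P a b = m → Good X S → KInv X O S → T3 (S.K S.hi) c a b →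
    ¬ S.red X c a → S.red X c b → ∃ S', Killed X O S a b S' := by
  induction n using Nat.strong_induction_on with
  | _ n ihn =>
    intro m
    induction m using Nat.strong_induction_on with
    | _ m ihm =>
      intro S c a b hn hm hS hI h r1 r2
      by_cases hc : ∀ p ∈ S.P, ¬ cyc a p b
      · exact kill_coast hS hI h r1 r2 hc
      push Not at hc
      obtain ⟨p, hp, hc⟩ := hc
      obtain ⟨d, t⟩ := hS.apex' h.2.2.1 hp hc
      have c2 := t.2.2.2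
      have first : ∀ z x y, T3 (S.K S.hi) z x y → (∀ p, cyc x p y → cyc a p b) → ¬ cyc x d y →
          ¬ S.red X z x → S.red X z y → ∃ S', Killed X O S x y S' := fun z x y u h1 h2 s1 s2 => by
        rcases (cnt_le (O := O) h1).lt_or_eq with e | e
        · exact ihn _ (hn ▸ e) _ S z x y rfl rfl hS hI u s1 s2
        · exact ihm _ (hm ▸ cnt_lt h1 (hS.mem _ _ _ t.1).1 (cyc_rot (cyc_rot c2)) h2) S z x y
            (e.trans hn) rfl hS hI u s1 s2
      refine kill_inner wu (fun S z x y g i u s1 s2 e => ihn _ (hn ▸ e) _ S z x y rfl rfl g i u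
        s1 s2) _ S d hS hI h r1 r2 t rfl (first b a d (hS.trot t) ?_ ?_)
        (first a d b (hS.trot (hS.trot t)) ?_ ?_) <;> clear * - c2 <;> unfold cyc at * <;> grind

theorem kill_face (wu : WellFounded fun c' c => X.Up c c') {S : St C D} (hS : Good X S)
    {c a b : ℚ} (h : T3 (S.K S.hi) c a b) (r : ¬ S.red X c a ∧ S.red X c b) :
    ∃ S', Good X S' ∧ Ext S S' ∧ ¬ S'.K S'.hi a b :=
  (kill (O := S.P) wu _ _ S c a b rfl rfl hS ⟨fun _ h1 h2 => absurd h1 h2,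
    fun _ _ p _ h1 h2 => ⟨p, h1, h2⟩⟩ h r.1 r.2).imp fun _ k => ⟨k.good, k.ext, k.dead⟩

theorem kill_side (wu : WellFounded fun c' c => X.Up c c') {a b : ℚ} (q : C) :
    ∀ (S : St C D) d, Good X S → T3 (S.K S.hi) d b a → S.lab d b a = q →
      ∃ S', Good X S' ∧ Ext S S' ∧ ∃ j, S.hi ≤ j ∧ j ≤ S'.hi ∧ ¬ S'.K j a b := by
  induction q using wu.transGen.induction with
  | _ q ih =>
    intro S d hS t l
    have key : ∀ S1, Good X S1 → Ext S S1 → ¬ T3 (S1.K S1.hi) d b a →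
        ∃ S', Good X S' ∧ Ext S S' ∧ ∃ j, S.hi ≤ j ∧ j ≤ S'.hi ∧ ¬ S'.K j a b := by
      intro S1 g e hn
      by_cases hl : ∀ j, S.hi ≤ j → j ≤ S1.hi → S1.K j a b
      swap
      · push Not at hl
        exact ⟨S1, g, e, hl⟩
      obtain ⟨d', t'⟩ := g.apex' (hl _ e.hi le_rfl) (e.P (hS.mem _ _ _ t.1).1)
        (cyc_rot (cyc_rot t.2.2.2))
      have u := (g.height (t.mono (e.K _)) e.hi hl t').resolve_left fun e => hn (e ▸ t')
      rw [e.lab _ _ _ _ t, l] at u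
      obtain ⟨S2, g2, e2, j, j1, j2⟩ := ih _ u S1 d' g t' rfl
      exact ⟨S2, g2, e.trans e2, j, e.hi.trans j1, j2⟩
    rcases hS.hasH t with r | r | r
    · obtain ⟨S1, g, e, k⟩ := kill_face wu hS t r
      exact key S1 g e fun u => k u.2.2.1
    · obtain ⟨S1, g, e, k⟩ := kill_face wu hS (hS.trot t) r
      exact key S1 g e fun u => k (g.symm _ _ _ u.2.1)
    · obtain ⟨S1, g, e, k⟩ := kill_face wu hS (hS.trot (hS.trot t)) r
      exact key S1 g e fun u => k u.1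

theorem kill_edge (wu : WellFounded fun c' c => X.Up c c') {S : St C D} (hS : Good X S)
    (a b : ℚ) : ∃ S', Good X S' ∧ Ext S S' ∧ ∃ j, S.hi ≤ j ∧ j ≤ S'.hi ∧ ¬ S'.K j a b := by
  by_cases h : S.K S.hi a b
  swap
  · exact ⟨S, hS, Ext.refl S, _, le_rfl, le_rfl, h⟩
  obtain ⟨w, x, y, t⟩ := hS.tri _ hS.le le_rfl
  obtain ⟨p, hp, hc⟩ : ∃ p ∈ S.P, cyc a p b ∨ cyc b p a := by
    by_contra hn
    push Not at hn
    have h1 := hn w (hS.mem _ _ _ t.1).1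
    have h2 := hn x (hS.mem _ _ _ t.2.2.1).1
    have h3 := hn y (hS.mem _ _ _ t.2.2.1).2.1
    have h4 := (hS.mem _ _ _ h).2.2.1
    have h5 := t.2.2.2
    clear * - h1 h2 h3 h4 h5
    unfold cyc at *
    grind
  rcases hc with hc | hc
  · obtain ⟨d, u⟩ := hS.apex' h hp hc
    exact kill_side wu _ S d hS u rfl
  · obtain ⟨d, u⟩ := hS.apex' (hS.symm _ _ _ h) hp hc
    obtain ⟨S', g, e, j, j1, j2, k⟩ := kill_side wu _ S d hS u rfl
    exact ⟨S', g, e, j, j1, j2, fun m => k (g.symm _ _ _ m)⟩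

theorem kill_all (wu : WellFounded fun c' c => X.Up c c') {S : St C D} (hS : Good X S) :
    ∃ S', Good X S' ∧ Ext S S' ∧
      ∀ a ∈ S.P, ∀ b ∈ S.P, ∃ j, S.hi ≤ j ∧ j ≤ S'.hi ∧ ¬ S'.K j a b := by
  have key : ∀ A : Finset (ℚ × ℚ), A ⊆ S.P ×ˢ S.P → ∃ S', Good X S' ∧ Ext S S' ∧
      ∀ p ∈ A, ∃ j, S.hi ≤ j ∧ j ≤ S'.hi ∧ ¬ S'.K j p.1 p.2 := by
    intro A
    induction A using Finset.induction_on with
    | empty => exact fun _ => ⟨S, hS, Ext.refl S, fun _ h => absurd h (Finset.notMem_empty _)⟩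
    | insert p A _ ih =>
      intro hA
      obtain ⟨S1, g, e, k⟩ := ih ((Finset.subset_insert _ _).trans hA)
      obtain ⟨S2, g2, e2, j, j1, j2⟩ := kill_edge wu g p.1 p.2
      refine ⟨S2, g2, e.trans e2, fun r hr => ?_⟩
      obtain ⟨m1, m2⟩ := Finset.mem_product.1 (hA hr)
      rcases Finset.mem_insert.1 hr with rfl | hr
      · exact ⟨j, e.hi.trans j1, j2⟩
      · obtain ⟨i, i1, i2, i3⟩ := k r hr
        exact ⟨i, i1, i2.trans e2.hi, fun m =>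
          i3 (e2.res _ _ _ (e.lo.trans (hS.le.trans i1)) i2 (e.P m1) (e.P m2) m)⟩
  obtain ⟨S', g, e, k⟩ := key _ le_rfl
  exact ⟨S', g, e, fun a ha b hb => k (a, b) (Finset.mem_product.2 ⟨ha, hb⟩)⟩

/-- Abstract veering data with finite edge degrees unfold to a layered triangulation. -/
theorem grow (X : VD C D F) (wu : WellFounded fun c' c => X.Up c c') (wd : WellFounded X.Up)
    (c0 : C) : ∃ (V : Type) (_ : LinearOrder V) (_ : Countable V) (W : VC V) (dl : V → V → D)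
      (lab : V → V → V → C), Lab X W dl lab := by
  have wu' : WellFounded fun c' c => X.rev.Up c c' := by
    simpa only [VD.rev_Up] using wd
  have step : ∀ S : {S : St C D // Good X S}, ∃ S' : {S : St C D // Good X S}, Ext S.1 S'.1 ∧
      (∀ a ∈ S.1.P, ∀ b ∈ S.1.P, ∃ j, S.1.hi ≤ j ∧ j ≤ S'.1.hi ∧ ¬ S'.1.K j a b) ∧
      ∀ a ∈ S.1.P, ∀ b ∈ S.1.P, ∃ j, S'.1.lo ≤ j ∧ j ≤ S.1.lo ∧ ¬ S'.1.K j a b := by
    rintro ⟨S, hS⟩
    obtain ⟨S1, g1, e1, k1⟩ := kill_all wu hS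
    obtain ⟨S2, g2, e2, k2⟩ := kill_all wu' g1.rev
    have e3 : Ext S1 S2.rev := S1.rev_rev ▸ e2.rev
    refine ⟨⟨S2.rev, g2.rev.of_rev⟩, e1.trans e3, fun a ha b hb => ?_, fun a ha b hb => ?_⟩
    · obtain ⟨j, j1, j2, j3⟩ := k1 a ha b hb
      exact ⟨j, j1, j2.trans e3.hi, fun m =>
        j3 (e3.res _ _ _ (e1.lo.trans (hS.le.trans j1)) j2 (e1.P ha) (e1.P hb) m)⟩
    · obtain ⟨j, j1, j2, j3⟩ := k2 a (e1.P ha) b (e1.P hb)
      exact ⟨-j, neg_le_neg j2, (neg_le.1 j1).trans e1.lo, fun m =>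
        j3 (neg_neg j ▸ m : S2.K j a b)⟩
  choose nx h1 h2 h3 using step
  obtain ⟨S0, h0⟩ := exists_init X c0
  let s : ℕ → {S : St C D // Good X S} := fun n => Nat.rec ⟨S0, h0⟩ (fun _ => nx) n
  exact exists_limit X (fun n => (s n).1) (fun n => (s n).2) (fun n => h1 (s n))
    (fun n => h2 (s n)) fun n => h3 (s n)

end Pool.Agent.Work.MP_3d425c_gt.Bor
end

-- merged part: Pool.Agent.Work.MP_3d425c_gt.W.Mod
section
/-! Interfaces between face pairings, abstract veering data and layered triangulations. -/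

namespace Pool.Agent.Work.MP_3d425c_gt.Bor
open PA

/-- Dictionary between face pairings and abstract veering data: `cor t i j l` is the corner at
`i` of the face `i j l` of `t`, `dart (t, i, j)` is the class of the oriented edge. -/
structure Dict {T C D : Type} (G : VR.Gluing T) (red : T × Fin 4 × Fin 4 → Prop)
    (X : VD C D (T × Bool)) (cor : T → Fin 4 → Fin 4 → Fin 4 → C)
    (dart : T × Fin 4 × Fin 4 → D) : Prop where
  rot : ∀ t s, X.rot (t, s) = (t, !s)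
  β0 : ∀ t, X.β (t, false) = cor t 1 2 0
  β1 : ∀ t, X.β (t, true) = cor t 3 0 2
  τ0 : ∀ t, X.τ (t, false) = cor t 0 1 3
  τ1 : ∀ t, X.τ (t, true) = cor t 2 3 1
  ρ : ∀ t i j l, cyc i j l → X.ρ (cor t i j l) = cor t j l i
  E : ∀ t i j l, cyc i j l → X.E (cor t i j l) = dart (t, j, l)
  inj : ∀ t i j l k t' i' j' l', cyc i j l → cyc i' j' l' → k ≠ i → k ≠ j → k ≠ l →
    cor t i j l = cor t' i' j' l' → (t' = t ∧ i' = i ∧ j' = j ∧ l' = l) ∨
      (t' = G.nbr t k ∧ i' = G.perm t k i ∧ j' = G.perm t k j ∧ l' = G.perm t k l)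
  eqv : ∀ d d', dart d = dart d' ↔ Relation.EqvGen (VR.Turn G) d d'
  red : ∀ d, X.red (dart d) ↔ red d
  rv : ∀ t i j, X.rv (dart (t, i, j)) = dart (t, j, i)

/-- The tetrahedra of the face pairing `G` are those of the layered triangulation `S`; `vtx t i`
is the cusp at the vertex `i` of `t`. -/
structure Model {T V : Type} [LinearOrder V] (G : VR.Gluing T) (red : T × Fin 4 × Fin 4 → Prop)
    (S : VC V) (vtx : T → Fin 4 → V) : Prop where
  tet : ∀ t, ∃ k, Tet S.K S.red k (vtx t 0) (vtx t 1) (vtx t 2) (vtx t 3)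
  surj : ∀ k a c b d, Tet S.K S.red k a c b d →
    ∃ t, (vtx t 0 = a ∧ vtx t 1 = c ∧ vtx t 2 = b ∧ vtx t 3 = d) ∨
      (vtx t 0 = b ∧ vtx t 1 = d ∧ vtx t 2 = a ∧ vtx t 3 = c)
  glue : ∀ t k i, i ≠ k → vtx (G.nbr t k) (G.perm t k i) = vtx t i
  dart : ∀ t i j t' i' j', i ≠ j → vtx t i = vtx t' i' → vtx t j = vtx t' j' →
    Relation.EqvGen (VR.Turn G) (t, i, j) (t', i', j')
  red : ∀ t i j, i ≠ j → (S.red (vtx t i) (vtx t j) ↔ red (t, i, j))

instance decCyc4 (i j l : Fin 4) : Decidable (cyc i j l) := by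
  unfold cyc
  infer_instance

namespace Model
variable {T V : Type} [LinearOrder V] {G : VR.Gluing T} {red : T × Fin 4 × Fin 4 → Prop}
  {S : VC V} {vtx : T → Fin 4 → V} (hM : Model G red S vtx)
include hM

/-- Positively ordered triples of vertices of a tetrahedron are faces. -/
theorem face (t : T) {i j l : Fin 4} (h : cyc i j l) : S.Face (vtx t i) (vtx t j) (vtx t l) := by
  obtain ⟨k, u⟩ := hM.tet t
  obtain ⟨f1, f2, f3, f4⟩ := VC.tet_faces u
  have g1 : S.Face _ _ _ := ⟨_, f1⟩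
  have g2 : S.Face _ _ _ := ⟨_, f2⟩
  have g3 : S.Face _ _ _ := ⟨_, f3⟩
  have g4 : S.Face _ _ _ := ⟨_, f4⟩
  fin_cases i <;> fin_cases j <;> fin_cases l <;> first
    | exact absurd h (by decide)
    | exact g1 | exact g1.rot | exact g1.rot.rot | exact g2 | exact g2.rot | exact g2.rot.rot
    | exact g3 | exact g3.rot | exact g3.rot.rot | exact g4 | exact g4.rot | exact g4.rot.rot

theorem edge (t : T) {i j : Fin 4} (h : i ≠ j) : S.E (vtx t i) (vtx t j) := by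
  obtain ⟨l, hl⟩ : ∃ l, cyc l i j ∨ cyc l j i := by
    revert i j
    decide
  exact hl.elim (fun k => (hM.face t k).e3) fun k => (hM.face t k).e3.symm

theorem inj (t : T) : Function.Injective (vtx t) := fun _ _ e =>
  by_contra fun h => (hM.edge t h).ne e

/-- Every face is a bottom face of a tetrahedron of the pairing. -/
theorem face_bot {w a b : V} (h : S.Face w a b) : ∃ t i j l k, cyc i j l ∧ k ≠ i ∧ k ≠ j ∧
    k ≠ l ∧ Odd k.val ∧ vtx t i = w ∧ vtx t j = a ∧ vtx t l = b := by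
  obtain ⟨k, d, u | u | u⟩ := h.above <;> obtain ⟨t, e | e⟩ := hM.surj _ _ _ _ _ u
  exacts [⟨t, 1, 2, 0, 3, by decide, by decide, by decide, by decide, by decide, e.2.1, e.2.2.1,
      e.1⟩,
    ⟨t, 3, 0, 2, 1, by decide, by decide, by decide, by decide, by decide, e.2.2.2, e.1, e.2.2.1⟩,
    ⟨t, 0, 1, 2, 3, by decide, by decide, by decide, by decide, by decide, e.1, e.2.1, e.2.2.1⟩,
    ⟨t, 2, 3, 0, 1, by decide, by decide, by decide, by decide, by decide, e.2.2.1, e.2.2.2, e.1⟩,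
    ⟨t, 2, 0, 1, 3, by decide, by decide, by decide, by decide, by decide, e.2.2.1, e.1, e.2.1⟩,
    ⟨t, 0, 2, 3, 1, by decide, by decide, by decide, by decide, by decide, e.1, e.2.2.1, e.2.2.2⟩]

/-- Every edge is the bottom edge of a tetrahedron of the pairing. -/
theorem edge_bot {a b : V} (h : S.E a b) :
    ∃ t, (vtx t 0 = a ∧ vtx t 2 = b) ∨ (vtx t 2 = a ∧ vtx t 0 = b) := by
  obtain ⟨k, c, d, u⟩ := h.above
  obtain ⟨t, e | e⟩ := hM.surj _ _ _ _ _ u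
  exacts [⟨t, Or.inl ⟨e.1, e.2.2.1⟩⟩, ⟨t, Or.inr ⟨e.2.2.1, e.1⟩⟩]

end Model

end Pool.Agent.Work.MP_3d425c_gt.Bor
end

-- merged part: Pool.Agent.Work.MP_3d425c_gt.Vr2
section
/-! Layered veering triangulations: directions counted by prongs. -/

namespace Pool.Agent.Work.MP_3d425c_gt.Bor
open Classical PA Filter

variable {V : Type} [LinearOrder V]

namespace VC
variable (S : VC V)

/-- The left sides of the prongs at `w`. -/
def Prong (w : V) (X : Set V) : Prop := ∃ b, S.E w b ∧ S.red w b ∧ X = S.Lf w b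

/-- The number of prongs at `w` between `u` and `v`. -/
noncomputable def prongs (w u v : V) : ℕ := {X | S.Prong w X ∧ (u ∈ X ↔ v ∉ X)}.ncard

/-- The signed number of prongs at `w` between `u` and `v`. -/
noncomputable def N (w u v : V) : ℤ :=
  ∑ᶠ X : Set V, if S.Prong w X then (if u ∈ X then 1 else 0) - (if v ∈ X then 1 else 0) else 0

/-- A neighbour of `w`. -/
noncomputable def o (w : V) : V := (PB1_nbr (S.layer 0) w).choose

theorem o_spec (w : V) : S.E w (S.o w) := ⟨0, (PB1_nbr (S.layer 0) w).choose_spec⟩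

variable {S}

theorem nbr_ind {w : V} (Q : V → Prop) (h : ∀ a b, S.Face w a b → (Q a ↔ Q b)) {a b : V}
    (ha : S.E w a) (hb : S.E w b) : Q a ↔ Q b := by
  have h1 : ∀ k a b, S.K k w a → S.K k w b → (Q a ↔ Q b) := fun k a b ha hb => by
    have key : ∀ a b, S.K k w a → S.K k w b → cle w a b → (Q a ↔ Q b) := fun a b ha hb e =>
      IT_fan (S.layer k) (fun x => Q a ↔ Q x) ha Iff.rfl
        (fun x y t i => i.trans (h x y ⟨k, t⟩)) hb e
    by_cases e : a = b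
    · rw [e]
    rcases cyc_total (PB1_ne (S.layer k) ha) e (PB1_ne (S.layer k) hb) with t | t
    exacts [key a b ha hb (Or.inr t), (key b a hb ha (Or.inr t)).symm]
  have h2 : ∀ k, ∃ x, S.K k w x ∧ S.K (k + 1) w x := fun k => by
    obtain ⟨x, hx⟩ := PB1_nbr (S.layer k) w
    rcases S.above k w x hx with t | ⟨c, d, t⟩
    exacts [⟨x, hx, t⟩, ⟨c, t.2.2.2.2.1.1, t.2.2.2.2.2.1.1⟩]
  have h3 : ∀ k j a, k ≤ j → S.K k w a → ∀ b, S.K j w b → (Q a ↔ Q b) := fun k j a e ha => by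
    induction j, e using Int.leInduction with
    | base => exact fun b hb => h1 k a b ha hb
    | succ j _ ih =>
      obtain ⟨x, x1, x2⟩ := h2 j
      exact fun b hb => (ih x x1).trans (h1 _ x b x2 hb)
  obtain ⟨k, ha⟩ := ha
  obtain ⟨j, hb⟩ := hb
  rcases le_total k j with e | e
  exacts [h3 k j a e ha b hb, (h3 j k b e hb a ha).symm]

theorem sep_iff (k : ℤ) {w u v : V} (h : cyc w u v) (X : Set V) :
    (S.Prong w X ∧ (u ∈ X ↔ v ∉ X)) ↔
      ∃ a b, S.Hf k w a b ∧ u ∈ S.Lf w b ∧ v ∉ S.Lf w b ∧ X = S.Lf w b := by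
  constructor
  · rintro ⟨⟨b, b1, b2, rfl⟩, h1⟩
    have h2 : v ∉ S.Lf w b := fun hv => h1.1 (Lf_down hv (Or.inr h)) hv
    obtain ⟨a', b', h3, h4⟩ := exists_H b1 b2 k
    exact ⟨a', b', h3, h4 ▸ h1.2 h2, h4 ▸ h2, h4.symm⟩
  · rintro ⟨a, b, h1, h2, h3, rfl⟩
    exact ⟨⟨b, ⟨k, h1.1.2.1⟩, h1.2.2, rfl⟩, iff_of_true h2 h3⟩

theorem bases_fin {w u v : V} (h : cyc w u v) :
    {p : V × V | S.Hf 0 w p.1 p.2 ∧ u ∈ S.Lf w p.2 ∧ v ∉ S.Lf w p.2}.Finite := by
  refine Set.Finite.subset (Set.Finite.union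
    (s := {p : V × V | T3 (S.K 0) w p.1 p.2 ∧ cyc w u p.2 ∧ cyc w p.2 v})
    (t := {p : V × V | T3 (S.K 0) w p.1 p.2 ∧ cyc w p.1 v ∧ ¬ cyc w p.2 v}) ?_ ?_) ?_
  · refine Set.Finite.of_finite_image (f := fun p => (w, p.2))
      (((S.layer 0).fin u v).subset ?_) ?_
    · rintro _ ⟨p, ⟨h1, h2, h3⟩, rfl⟩
      exact ⟨h1.2.1, h2, cyc_rot h3⟩
    · rintro ⟨a, b⟩ ⟨h1, -⟩ ⟨a', b'⟩ ⟨h2, -⟩ e
      obtain rfl : b = b' := congrArg Prod.snd e
      have h3 := h1.2.2.2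
      have h4 := h2.2.2.2
      obtain ⟨rfl, -⟩ | h5 | h5 := IT_order (S.layer 0) h1 h2
      · rfl
      all_goals
        exfalso
        unfold cle cyc at *
        grind
  · refine Set.Subsingleton.finite ?_
    rintro ⟨a, b⟩ ⟨h1, h3, h4⟩ ⟨a', b'⟩ ⟨h2, h6, h7⟩
    have h8 := h1.2.2.2
    have h9 := h2.2.2.2
    obtain ⟨rfl, rfl⟩ | h5 | h5 := IT_order (S.layer 0) h1 h2
    · rfl
    all_goals
      exfalso
      unfold cle cyc at *
      grind
  · rintro ⟨a, b⟩ ⟨h1, h2, h3⟩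
    by_cases h4 : cyc w b v
    · exact Or.inl ⟨h1.1, Lf_lt h2, h4⟩
    · exact Or.inr ⟨h1.1, Lf_out h1.mem h3 (cyc_ne h).2.2.symm, h4⟩

theorem sep_symm (w u v : V) : {X | S.Prong w X ∧ (u ∈ X ↔ v ∉ X)} =
    {X | S.Prong w X ∧ (v ∈ X ↔ u ∉ X)} :=
  Set.ext fun _ => and_congr_right fun _ => iff_not_comm

theorem sep_self (w u : V) : {X | S.Prong w X ∧ (u ∈ X ↔ u ∉ X)} = ∅ :=
  Set.eq_empty_of_forall_notMem fun _ h => iff_not_self h.2

theorem sep_fin {w u v : V} (h : cyc w u v) : {X | S.Prong w X ∧ (u ∈ X ↔ v ∉ X)}.Finite := by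
  refine ((bases_fin (S := S) h).image fun p => S.Lf w p.2).subset fun X hX => ?_
  obtain ⟨a, b, h1, h2, h3, rfl⟩ := (sep_iff 0 h X).1 hX
  exact ⟨(a, b), ⟨h1, h2, h3⟩, rfl⟩

theorem sep_finite {w u v : V} (hu : u ≠ w) (hv : v ≠ w) :
    {X | S.Prong w X ∧ (u ∈ X ↔ v ∉ X)}.Finite := by
  by_cases e : u = v
  · rw [e, sep_self]
    exact Set.finite_empty
  rcases cyc_total hu.symm e hv.symm with h | h
  · exact sep_fin h
  · rw [sep_symm]
    exact sep_fin h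

theorem N_supp (w u v : V) : (Function.support fun X : Set V => if S.Prong w X then
    (if u ∈ X then (1 : ℤ) else 0) - (if v ∈ X then 1 else 0) else 0) ⊆
      {X | S.Prong w X ∧ (u ∈ X ↔ v ∉ X)} := by
  intro X hX
  by_cases h1 : S.Prong w X <;> by_cases h2 : u ∈ X <;> by_cases h3 : v ∈ X <;>
    simp [h1, h2, h3] at hX ⊢

theorem N_add {w u v x : V} (hu : u ≠ w) (hv : v ≠ w) (hx : x ≠ w) :
    S.N w u v + S.N w v x = S.N w u x := by
  unfold N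
  rw [← finsum_add_distrib ((sep_finite hu hv).subset (N_supp w u v))
    ((sep_finite hv hx).subset (N_supp w v x))]
  refine finsum_congr fun X => ?_
  by_cases h1 : S.Prong w X
  · simp only [if_pos h1, sub_add_sub_cancel]
  · simp only [if_neg h1, add_zero]

theorem N_cyc {w u v : V} (h : cyc w u v) : S.N w u v = S.prongs w u v := by
  have hf := sep_fin (S := S) h
  rw [N, prongs, finsum_eq_sum_of_support_subset (s := hf.toFinset) _
      (by rw [hf.coe_toFinset]; exact N_supp w u v),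
    Set.ncard_eq_toFinset_card _ hf, Finset.card_eq_sum_ones, Nat.cast_sum]
  refine Finset.sum_congr rfl fun X hX => ?_
  obtain ⟨h1, h2⟩ := hf.mem_toFinset.1 hX
  obtain ⟨a, b, -, h4, h5, rfl⟩ := (sep_iff 0 h X).1 ⟨h1, h2⟩
  rw [if_pos h1, if_pos h4, if_neg h5, sub_zero, Nat.cast_one]

end VC

/-- A layered veering triangulation with an edge orientation. -/
structure VU (V : Type) [LinearOrder V] extends VC V where
  up : V → V → Prop
  up_rev : ∀ a b, toVC.E a b → (up b a ↔ ¬ up a b)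
  up_face : ∀ w a b, toVC.Face w a b → ¬ red w a → red w b →
    (up a w ↔ up a b) ∧ (up w b ↔ up a b)

namespace VU
open VC
variable (S : VU V)

/-- The sector at `w` that contains `u`. -/
noncomputable def dir (w u : V) : ℤ := S.N w (S.o w) u + if S.up w (S.o w) then 0 else 1

variable {S}

theorem dir_sub {w u v : V} (hu : u ≠ w) (hv : v ≠ w) : S.dir w v - S.dir w u = S.N w u v := by
  rw [dir, dir, ← N_add (S.o_spec w).ne.symm hu hv]
  ring

theorem dir_cyc {w u v : V} (h : cyc w u v) : S.dir w v = S.dir w u + S.prongs w u v := by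
  rw [← sub_eq_iff_eq_add', dir_sub (cyc_ne h).1.symm (cyc_ne h).2.2.symm, N_cyc h]

theorem dir_le {w u v : V} (h : cyc w u v) : S.dir w u ≤ S.dir w v := by
  rw [dir_cyc h]
  exact le_add_of_nonneg_right (Int.natCast_nonneg _)

theorem dir_cle {w u v : V} (h : cle w u v) : S.dir w u ≤ S.dir w v := by
  rcases h with rfl | h
  exacts [le_rfl, dir_le h]

theorem abs_dir {w u v : V} (hu : u ≠ w) (hv : v ≠ w) :
    |S.dir w v - S.dir w u| = S.prongs w u v := by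
  by_cases e : u = v
  · rw [e, sub_self, abs_zero, VC.prongs, sep_self, Set.ncard_empty, Nat.cast_zero]
  rcases cyc_total hu.symm e hv.symm with h | h
  · rw [dir_cyc h, add_sub_cancel_left, Nat.abs_cast]
  · rw [abs_sub_comm, dir_cyc h, add_sub_cancel_left, Nat.abs_cast, VC.prongs, VC.prongs,
      sep_symm]

theorem dir_ne_iff (k : ℤ) {w u v : V} (h : cyc w u v) : S.dir w u ≠ S.dir w v ↔
    ∃ a b, S.Hf k w a b ∧ u ∈ S.Lf w b ∧ v ∉ S.Lf w b := by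
  rw [dir_cyc h, Ne, left_eq_add, Nat.cast_eq_zero, VC.prongs, Set.ncard_eq_zero (sep_fin h),
    ← Ne, ← Set.nonempty_iff_ne_empty]
  constructor
  · rintro ⟨X, hX⟩
    obtain ⟨a, b, h1, h2, h3, -⟩ := (sep_iff k h X).1 hX
    exact ⟨a, b, h1, h2, h3⟩
  · rintro ⟨a, b, h1, h2, h3⟩
    exact ⟨_, (sep_iff k h _).2 ⟨a, b, h1, h2, h3, rfl⟩⟩

theorem dir_lt {w b u v : V} (hb : S.E w b) (hr : S.red w b) (hu : u ∈ S.Lf w b)
    (hv : v ∉ S.Lf w b) (h : v ≠ w) : S.dir w u < S.dir w v := by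
  have h1 := Lf_out hu hv h
  obtain ⟨a', b', h2, h3⟩ := exists_H hb hr 0
  exact (dir_le h1).lt_of_ne ((dir_ne_iff 0 h1).2 ⟨a', b', h2, h3 ▸ hu, h3 ▸ hv⟩)

theorem mem_Lf {w b u : V} (hb : S.E w b) (hr : S.red w b) :
    u ∈ S.Lf w b ↔ u ≠ w ∧ S.dir w u < S.dir w b := by
  refine ⟨fun h => ⟨(cyc_ne (Lf_lt h)).1.symm, dir_lt hb hr h (not_mem_Lf w b) hb.ne.symm⟩, ?_⟩
  rintro ⟨h1, h2⟩
  rcases cyc_total h1.symm (fun e => h2.ne (by rw [e])) hb.ne with t | t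
  · obtain ⟨a', b', -, ⟨x, x1, x2, x3, x4⟩, h5⟩ := (dir_ne_iff 0 t).1 h2.ne
    exact ⟨x, x1, x2, Lf_out ⟨x, x1, x2, x3, Or.inl rfl⟩ h5 hb.ne.symm, x4⟩
  · exact absurd (dir_le t) h2.not_ge

theorem Lf_eq {w b b' : V} (hb : S.E w b) (hr : S.red w b) (hb' : S.E w b') (hr' : S.red w b')
    (h : S.dir w b = S.dir w b') : S.Lf w b = S.Lf w b' :=
  Set.ext fun u => by rw [mem_Lf hb hr, mem_Lf hb' hr', h]

theorem eq_of_Lf {w b b' : V} (hb : S.E w b) (hr : S.red w b) (hb' : S.E w b') (hr' : S.red w b')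
    (h : S.Lf w b = S.Lf w b') : S.dir w b = S.dir w b' := by
  have h1 := mt (mem_Lf hb hr).2 (h ▸ not_mem_Lf w b')
  have h2 := mt (mem_Lf hb' hr').2 (h ▸ not_mem_Lf w b)
  exact le_antisymm (not_lt.1 fun e => h1 ⟨hb'.ne.symm, e⟩) (not_lt.1 fun e => h2 ⟨hb.ne.symm, e⟩)

theorem big_mid (k : ℤ) {w u v : V} (h : cyc w u v) (hb : S.dir w u + 2 ≤ S.dir w v) :
    ∃ b, S.K k w b ∧ cyc w u b ∧ cyc w b v ∧ S.dir w u < S.dir w b ∧ S.dir w b < S.dir w v := by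
  have h1 : 1 < S.prongs w u v := by
    have := dir_cyc (S := S) h
    omega
  have key : ∀ {a b a' b'}, S.Hf k w a b → u ∈ S.Lf w b → S.Hf k w a' b' → v ∉ S.Lf w b' →
      cle w b a' → S.K k w b ∧ cyc w u b ∧ cyc w b v ∧ S.dir w u < S.dir w b ∧
        S.dir w b < S.dir w v := fun h1 h2 h3 h4 h5 =>
    have h6 := Lf_down h3.mem h5
    ⟨h1.1.2.1, Lf_lt h2, Lf_out h6 h4 (cyc_ne h).2.2.symm, ((mem_Lf ⟨k, h1.1.2.1⟩ h1.2.2).1 h2).2,
      dir_lt ⟨k, h3.1.2.1⟩ h3.2.2 h6 h4 (cyc_ne h).2.2.symm⟩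
  obtain ⟨X, hX, Y, hY, hne⟩ := (Set.one_lt_ncard (sep_fin h)).1 h1
  obtain ⟨a, b, a1, a2, a3, rfl⟩ := (sep_iff k h X).1 hX
  obtain ⟨a', b', b1, b2, b3, rfl⟩ := (sep_iff k h Y).1 hY
  obtain ⟨rfl, rfl⟩ | h5 | h5 := IT_order (S.layer k) a1.1 b1.1
  · exact absurd rfl hne
  · exact ⟨b, key a1 a2 b1 b3 h5⟩
  · exact ⟨b', key b1 b2 a1 a3 h5⟩

theorem unit_step {w u v : V} (hu : u ≠ w) (hv : S.E w v) (h : S.dir w u < S.dir w v) :
    ∃ x, S.E w x ∧ S.dir w x = S.dir w u + 1 := by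
  have key : ∀ (n : ℕ) (v : V), S.E w v → cyc w u v → S.dir w u < S.dir w v →
      S.dir w v ≤ S.dir w u + n → ∃ x, S.E w x ∧ S.dir w x = S.dir w u + 1 := by
    intro n
    induction n with
    | zero => intro v _ _ h1 h2; omega
    | succ n ih =>
      intro v hv h0 h1 h2
      by_cases e : S.dir w v = S.dir w u + 1
      · exact ⟨v, hv, e⟩
      obtain ⟨b, h3, h4, -, h5, h6⟩ := big_mid (S := S) 0 h0 (by omega)
      exact ih b ⟨0, h3⟩ h4 h5 (by omega)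
  rcases cyc_total hu.symm (fun e => h.ne (e ▸ rfl)) hv.ne with h1 | h1
  · exact key _ v hv h1 h (dir_cyc h1).le
  · exact absurd (dir_le h1) h.not_ge

theorem tri_dir {w a b : V} (h : S.Face w a b) :
    S.dir w b = S.dir w a + if ¬ S.red w a ∧ S.red w b then 1 else 0 := by
  obtain ⟨k, h⟩ := h
  have hc := h.2.2.2
  split_ifs with hy
  · have h1 := ((mem_Lf ⟨k, h.2.1⟩ hy.2).1 (Hf.mem ⟨h, hy⟩)).2
    by_contra e
    obtain ⟨x, x1, x2, x3, -⟩ := big_mid (S := S) k hc (by omega)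
    have := IT_out (S.layer k) h x1
    unfold cle cyc at *
    grind
  · rw [add_zero]
    by_contra e
    obtain ⟨a', b', h1, h2, h3⟩ := (dir_ne_iff k hc).1 (Ne.symm e)
    have h4 := Lf_lt h2
    have h5 := Lf_out h1.mem h3 (cyc_ne hc).2.2.symm
    obtain ⟨rfl, rfl⟩ | h6 | h6 := IT_order (S.layer k) h h1.1
    · exact hy h1.2
    all_goals
      unfold cle cyc at *
      grind

theorem Hf_dir {k : ℤ} {w a b : V} (h : S.Hf k w a b) : S.dir w b = S.dir w a + 1 := by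
  rw [tri_dir ⟨k, h.1⟩, if_pos h.2]

theorem face_up {w a b : V} (h : S.Face w a b) :
    (S.up w a ↔ S.up w b) ↔ ¬ (¬ S.red w a ∧ S.red w b) := by
  have e1 := S.up_rev _ _ h.e1
  have e2 := S.up_rev _ _ h.e2
  have f1 := S.up_face _ _ _ h
  have f2 := S.up_face _ _ _ h.rot
  have f3 := S.up_face _ _ _ h.rot.rot
  obtain ⟨k, h⟩ := h
  have r1 := rsymm (S := S.toVC) (a := w) (b := a)
  have r2 := rsymm (S := S.toVC) (a := w) (b := b)
  have r3 := rsymm (S := S.toVC) (a := a) (b := b)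
  have := hasH h
  simp only [Hf] at this
  grind

theorem nbr_par {w a : V} (h : S.E w a) : Even (S.dir w a) ↔ S.up w a := by
  refine (nbr_ind (fun b => Even (S.dir w b) ↔ S.up w b) (fun a b f => ?_) (S.o_spec w) h).1 ?_
  · have h1 := face_up f
    rw [tri_dir f]
    split_ifs with e
    · rw [Int.even_add_one]
      grind
    · rw [add_zero]
      grind
  · have e : S.N w (S.o w) (S.o w) = 0 := by simp only [N, sub_self, ite_self, finsum_zero]
    rw [dir, e, zero_add]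
    split_ifs with h1
    · exact iff_of_true Even.zero h1
    · exact iff_of_false Int.not_even_one h1

end VU

end Pool.Agent.Work.MP_3d425c_gt.Bor
end

-- merged part: Pool.Agent.Work.MP_3d425c_gt.Vr3
section
/-! Layered veering triangulations: the tree of stable leaves. -/

namespace Pool.Agent.Work.MP_3d425c_gt.Bor
open Classical PA Filter

theorem par_of_edges {V : Type} {dir : V → V → ℤ} (t : T1 dir) (hmed : Med dir)
    (E : V → V → Prop) (conn : ∀ a b, Relation.ReflTransGen E a b)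
    (hE : ∀ p q, E p q → ∀ m m', Wb dir p m q → Wb dir p m' q → m ≠ m' →
      Odd (dir m m' + dir m' m)) : Par dir := by
  have key : ∀ a x, ∀ m, Wb dir a m x → a ≠ m → Small dir a m → Odd (dir a m + dir m a) := by
    intro a x
    induction conn a x with
    | refl => exact fun m h h' => absurd h.self h'
    | @tail x x' _ he ih =>
      intro m h h' hs
      obtain ⟨u, u1, u2, u3⟩ := hmed a x x'
      by_cases k : Wb dir a m u
      · exact ih m (k.trans_left t u1) h' hs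
      have k1 : Wb dir a u m := (h.total t u3.symm).resolve_left k
      have e : u ≠ m := (not_wb.1 k).2.1
      have k2 : Wb dir x m x' := ((k1.trans_right t h).symm.trans_left t u2.symm).symm
      have a1 := hE x x' he u m u2 k2 e
      by_cases e' : a = u
      · exact e' ▸ a1
      have b1 := ih u u1 e' (hs.left t k1)
      have c1 := abs_le.1 (hs u e' e.symm)
      have c2 := (k1.btw e' e.symm).2.2
      rw [k1.dir_eq t e', k1.symm.dir_eq t e.symm]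
      rw [Int.odd_iff] at a1 b1 ⊢
      omega
  exact fun a b hab hs => key a b b (wb_right a b) hab hs

variable {V : Type} [LinearOrder V]

namespace VU
open VC
variable {S : VU V}

theorem t1 : T1 S.dir := by
  intro a v b ha hb hd
  by_contra hn
  have hab : a ≠ b := fun e => hd (by rw [e])
  rcases cyc_total ha.symm hab hb.symm with k | k
  · obtain ⟨a₀, b₀, h0, h1, h2⟩ := (dir_ne_iff 0 k).1 hd
    obtain ⟨c₀, d₀, h3, h4, h5⟩ := (dir_ne_iff 0 (cyc_rot k)).1 hn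
    have e1 : S.E v b₀ := ⟨0, h0.1.2.1⟩
    have e2 : S.E a d₀ := ⟨0, h3.1.2.1⟩
    obtain ⟨j, j1, j2⟩ := ((evL e1 h0.2.2 h1).and (evL e2 h3.2.2 h4)).exists
    obtain ⟨p, q, p1, p2⟩ := exists_H e1 h0.2.2 j
    obtain ⟨x, y, x1, x2⟩ := exists_H e2 h3.2.2 j
    have c1 := j1 p q p1 p2
    have c2 := j2 x y x1 x2
    have c3 := Lf_out (p2 ▸ p1.mem) h2 hb
    have c4 := Lf_out (x2 ▸ x1.mem) h5 ha.symm
    refine (S.layer j).nocross v p a x p1.1.1 x1.1.1 c1 ?_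
    unfold cyc at *
    grind
  · obtain ⟨a₀, b₀, h0, h1, h2⟩ := (dir_ne_iff 0 k).1 hd.symm
    obtain ⟨c₀, d₀, h3, h4, h5⟩ := (dir_ne_iff 0 (cyc_rot (cyc_rot k))).1 (Ne.symm hn)
    have e1 : S.E v b₀ := ⟨0, h0.1.2.1⟩
    have e2 : S.E a d₀ := ⟨0, h3.1.2.1⟩
    obtain ⟨j, j1, j2⟩ := ((evR ((lf_or_rt e1 h0.2.2 ha).resolve_left h2)).and
      (evR ((lf_or_rt e2 h3.2.2 hab.symm).resolve_left h5))).exists
    obtain ⟨p, q, p1, p2⟩ := exists_H e1 h0.2.2 j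
    obtain ⟨x, y, x1, x2⟩ := exists_H e2 h3.2.2 j
    have c1 := j1 p q p1 p2
    have c2 := j2 x y x1 x2
    have c3 := Lf_lt (p2.symm ▸ h1 : b ∈ S.Lf v q)
    have c4 := Lf_lt (x2.symm ▸ h4 : v ∈ S.Lf a y)
    refine (S.layer j).nocross q v a y (ksymm p1.1.2.1) x1.1.2.1 (cyc_rot c1) ?_
    unfold cyc at *
    grind

theorem finB : FinB S.dir := by
  intro a b
  refine ((((S.layer 0).fin a b).image Prod.fst).union
    (((S.layer 0).fin b a).image Prod.fst)).subset ?_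
  rintro u ⟨h1, h2, h3⟩
  have hab : a ≠ b := fun e => h3 (by simp [e])
  rw [abs_le] at h3
  rcases cyc_total h1.symm hab h2.symm with k | k
  · have := dir_le (S := S) k
    obtain ⟨x, x1, x2, x3, -⟩ := big_mid (S := S) 0 k (by omega)
    exact Or.inl ⟨(u, x), ⟨x1, x2, cyc_rot x3⟩, rfl⟩
  · have := dir_le (S := S) k
    obtain ⟨x, x1, x2, x3, -⟩ := big_mid (S := S) 0 k (by omega)
    exact Or.inr ⟨(u, x), ⟨x1, x2, cyc_rot x3⟩, rfl⟩

theorem Hf_btw {k : ℤ} {w a b : V} (h : S.Hf k w a b) : Btw S.dir a w b :=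
  ⟨(cyc_ne h.1.2.2.2).1.symm, (cyc_ne h.1.2.2.2).2.2.symm, by rw [Hf_dir h]; omega⟩

theorem face_mid {p c q : V} (h : S.Face p c q) :
    Btw S.dir p c q ∨ Btw S.dir c p q ∨ Btw S.dir p q c := by
  obtain ⟨k, h⟩ := h
  rcases hasH h with t | t | t
  exacts [Or.inr (Or.inl (Hf_btw t)), Or.inl (Hf_btw t).symm, Or.inr (Or.inr (Hf_btw t))]

theorem edge_small {p q : V} (h : S.E p q) : Small S.dir p q := by
  have key : ∀ {p q u : V}, S.E p q → cyc u p q → |S.dir u q - S.dir u p| ≤ 1 := by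
    rintro p q u ⟨k, h⟩ c
    have := dir_le (S := S) c
    rw [abs_le]
    refine ⟨by omega, not_lt.1 fun e => ?_⟩
    obtain ⟨x, x1, x2, x3, -⟩ := big_mid (S := S) k c (by omega)
    exact (S.layer k).nocross u x p q x1 h x2 (cyc_rot x3)
  intro u h1 h2
  rcases cyc_total h1.symm h.ne h2.symm with c | c
  · exact key h c
  · rw [abs_sub_comm]
    exact key h.symm c

theorem cross_up {k : ℤ} {m a b : V} (h : S.Hf k m a b) : ∀ y x, S.K k y x → cyc y m x →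
    x ∈ S.Lf m b → y ∉ S.Lf m b → (S.up x y ↔ S.up a b) := by
  have hb : S.E m b := ⟨k, h.1.2.1⟩
  refine PB1_desc (S.layer k) m _ fun y x c g0 g1 g2 g3 g4 i1 i2 hx hy => ?_
  have t : T3 (S.K k) y c x := ⟨g3, g0, g4, g2⟩
  have f : S.Face y c x := ⟨k, t⟩
  have u1 := S.up_rev _ _ f.e1
  have u2 := S.up_rev _ _ f.e2
  have u3 := S.up_rev _ _ f.e3
  have n1 := cyc_ne g1
  rcases PAT1_e g1 g2 with e | e | e
  · subst e
    rcases IT_order (S.layer k) (t.rot (S.layer k)) h.1 with ⟨rfl, rfl⟩ | e | e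
    exacts [Iff.rfl, absurd (Lf_down h.mem e) hy, absurd (Lf_down hx e) (not_mem_Lf _ _)]
  · have hc : c ∈ S.Lf m b := Lf_down hx (Or.inr (by unfold cyc at *; grind))
    have i := i1 e hc hy
    have hy' := (lf_or_rt hb h.2.2 n1.1).resolve_left hy
    rcases hasH t with s | s | s
    · exact absurd s (notH_R hb h.2.2 hy' (fun k => (cyc_ne (lf_lt_rt hc k)).2.1 rfl)
        (fun k => (cyc_ne (lf_lt_rt hx k)).2.1 rfl) (cyc_ne e).2.1.symm n1.2.1.symm)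
    · exact (S.up_face _ _ _ f.rot s.2.1 s.2.2).2.symm.trans i
    · have := (S.up_face _ _ _ f.rot.rot s.2.1 s.2.2).1
      grind
  · have hc : c ∉ S.Lf m b := fun k => hy (Lf_down k (Or.inr (by unfold cyc at *; grind)))
    have i := i2 e hx hc
    rcases hasH t with s | s | s
    · have := (S.up_face _ _ _ f s.2.1 s.2.2).2
      grind
    · exact (S.up_face _ _ _ f.rot s.2.1 s.2.2).1.symm.trans i
    · exact absurd s (notH_L hb h.2.2 hx hy hc n1.1 (cyc_ne e).1)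

theorem edge_btw {p m q : V} (h : S.E p q) (hm : Wb S.dir p m q) (hq : q ≠ m) :
    Even (S.dir m q) ↔ S.up p q := by
  by_cases hp : p = m
  · subst hp
    exact nbr_par h
  have hb := hm.btw hp hq
  have hs := abs_le.1 (edge_small h m hp hq)
  have u := S.up_rev _ _ h
  obtain ⟨k, h⟩ := h
  rcases cyc_total hb.1.symm hb.ne hb.2.1.symm with c | c
  · obtain ⟨a, b, h0, h1, h2⟩ := (dir_ne_iff k c).1 hb.2.2
    have e : S.E m b := ⟨k, h0.1.2.1⟩
    have d1 := ((mem_Lf e h0.2.2).1 h1).2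
    have d2 := mt (mem_Lf e h0.2.2).2 h2
    rw [show S.dir m q = S.dir m b by have := not_and.1 d2 hq; omega, nbr_par e,
      (S.up_face _ _ _ ⟨k, h0.1⟩ h0.2.1 h0.2.2).2,
      cross_up h0 q p (ksymm h) (cyc_rot (cyc_rot c)) h1 h2]
  · obtain ⟨a, b, h0, h1, h2⟩ := (dir_ne_iff k c).1 hb.2.2.symm
    have e : S.E m b := ⟨k, h0.1.2.1⟩
    have e' : S.E m a := ⟨k, h0.1.1⟩
    have d1 := ((mem_Lf e h0.2.2).1 h1).2
    have d2 := mt (mem_Lf e h0.2.2).2 h2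
    have d3 := Hf_dir h0
    have u1 := (S.up_face _ _ _ ⟨k, h0.1⟩ h0.2.1 h0.2.2).1
    have u2 := cross_up h0 p q h (cyc_rot (cyc_rot c)) h1 h2
    have u3 := S.up_rev _ _ e'
    rw [show S.dir m q = S.dir m a by have := not_and.1 d2 hp; omega, nbr_par e']
    grind

theorem edge_par {p q : V} (h : S.E p q) {m m' : V} (hm : Wb S.dir p m m')
    (hm' : Wb S.dir p m' q) (hne : m ≠ m') : Odd (S.dir m m' + S.dir m' m) := by
  have w1 := hm.trans_right t1 hm'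
  have w2 := hm.trans_left t1 hm'
  have a1 := edge_btw h w2 (w1.ne hne).symm
  have a2 := edge_btw h.symm hm'.symm (hm.symm.ne hne.symm).symm
  rw [← w1.dir_eq t1 hne, ← hm.symm.dir_eq t1 hne.symm, Int.odd_add', ← Int.not_even_iff_odd, a1,
    a2, S.up_rev _ _ h, not_not]

theorem med_desc (a : V) : ∀ p q, S.K 0 p q → cyc p a q →
    ∃ m, Wb S.dir a m p ∧ Wb S.dir p m q ∧ Wb S.dir q m a := by
  refine PB1_desc (S.layer 0) a _ fun p q c h ha hc h1 h2 i1 i2 => ?_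
  have H := face_mid (S := S) ⟨0, h1, h, h2, hc⟩
  rcases PAT1_e ha hc with rfl | k | k
  · rcases H with H | H | H
    · exact ⟨a, wb_left _ _, H.wb, wb_right _ _⟩
    · exact ⟨p, wb_right _ _, wb_left _ _, H.wb.symm⟩
    · exact ⟨q, H.wb.symm, wb_right _ _, wb_left _ _⟩
  · obtain ⟨m, m1, m2, m3⟩ := i1 k
    refine PAT4_step t1 H (fun b => Or.inr (Or.inr ?_)) (fun b => Or.inr (Or.inr ?_)) m1 m2 m3
    · have := dir_le (S := S) (cyc_rot hc)
      have := dir_le (S := S) (cyc_rot (cyc_rot k))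
      have := b.2.2
      omega
    · have := dir_le (S := S) hc
      have := dir_le (S := S) k
      have := b.2.2
      omega
  · obtain ⟨m, m1, m2, m3⟩ := i2 k
    have H' : Btw S.dir q c p ∨ Btw S.dir c q p ∨ Btw S.dir q p c := by
      rcases H with H | H | H
      exacts [Or.inl H.symm, Or.inr (Or.inr H.symm), Or.inr (Or.inl H.symm)]
    obtain ⟨m', n1, n2, n3⟩ := PAT4_step t1 H' (a := a) (fun b => Or.inr (Or.inr (by
      have := dir_le (S := S) (cyc_rot hc)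
      have := dir_le (S := S) k
      have := b.2.2
      omega))) (fun b => Or.inr (Or.inr (by
      have := dir_le (S := S) (cyc_rot (cyc_rot hc))
      have := dir_le (S := S) (cyc_rot (cyc_rot k))
      have := b.2.2
      omega))) m3.symm m2.symm m1.symm
    exact ⟨m', n3.symm, n2.symm, n1.symm⟩

theorem med : Med S.dir := by
  refine med_of_edges t1 (S.K 0) (IT_conn (S.layer 0)) fun a p q h => ?_
  by_cases e1 : p = a
  · exact ⟨p, wb_right _ _, wb_left _ _, Or.inr (Or.inl e1.symm)⟩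
  by_cases e2 : a = q
  · exact ⟨q, Or.inl e2, wb_right _ _, wb_left _ _⟩
  rcases cyc_total e1 e2 (PB1_ne (S.layer 0) h) with k | k
  · exact med_desc a p q h k
  · obtain ⟨m, m1, m2, m3⟩ := med_desc a q p (ksymm h) (cyc_rot k)
    exact ⟨m, m3.symm, m2.symm, m1.symm⟩

theorem par : Par S.dir := by
  refine par_of_edges t1 med (S.K 0) (IT_conn (S.layer 0)) fun p q h m m' h1 h2 hne => ?_
  rcases h1.total t1 h2 with k | k
  · exact edge_par ⟨0, h⟩ k h2 hne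
  · rw [add_comm]
    exact edge_par ⟨0, h⟩ k h1 hne.symm

theorem subdiv {p q : V} (h : S.E p q) : ∃ c, Btw S.dir p c q ∧ S.E p c ∧ S.E c q := by
  obtain ⟨k, -, y, h1, -, h2, -, h3, -⟩ := death h
  exact ⟨y, (Hf_btw ⟨h1.rot (S.layer k), h3, rsymm.1 h2⟩).symm, ⟨k, h1.1⟩, ⟨k, h1.2.2.1⟩⟩

theorem Nx_blue {w a b : V} (h : S.Nx w False a b) : Btw S.dir w b a := by
  obtain ⟨⟨k, h⟩, h1, h2⟩ := h
  rcases hasH h with t | t | t
  exacts [(h2.1 t.2.2).elim, (h1.1 (rsymm.1 t.2.2)).elim, Hf_btw t]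

theorem Nx_red {w a b : V} (h : S.Nx w True a b) : Btw S.dir w a b := by
  obtain ⟨⟨k, h⟩, h1, h2⟩ := h
  rcases hasH h with t | t | t
  exacts [(t.2.1 (h1.2 trivial)).elim, (Hf_btw t).symm, (t.2.1 (rsymm.1 (h2.2 trivial))).elim]

theorem blue_le {w a b : V} (ha : S.E w a) (hb : S.E w b) (ra : ¬ S.red w a) (rb : ¬ S.red w b)
    (hd : S.dir w a = S.dir w b) (h : S.bt w a ≤ S.bt w b) : cle w a b ∧ Wb S.dir w b a := by
  obtain ⟨x, -, -, x1, -, x2⟩ := birth ha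
  obtain ⟨y, -, -, y1, -, y2⟩ := birth hb
  have c := (chain ⟨x1, ra, x2⟩ ⟨y1, rb, y2⟩ h (Lf_eq ⟨_, y1.2.1⟩ y2 ⟨_, x1.2.1⟩ x2 (by
    rw [Hf_dir ⟨x1, ra, x2⟩, Hf_dir ⟨y1, rb, y2⟩, hd]))).1
  refine ⟨Nx_cle c, ?_⟩
  clear hb rb hd h y1
  induction c with
  | refl => exact wb_right _ _
  | tail _ h ih => exact (Nx_blue h).wb.trans_left t1 ih

theorem red_le {w a b : V} (ha : S.E w a) (hb : S.E w b) (ra : S.red w a) (rb : S.red w b)
    (hd : S.dir w a = S.dir w b) (h : S.bt w a ≤ S.bt w b) : cle w b a ∧ Wb S.dir w b a := by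
  obtain ⟨-, x, x1, -, x2, -⟩ := birth ha
  obtain ⟨-, y, y1, -, y2, -⟩ := birth hb
  have c := (chain ⟨x1, x2, ra⟩ ⟨y1, y2, rb⟩ h (Lf_eq hb rb ha ra hd.symm)).2
  refine ⟨Nx_cle c, ?_⟩
  clear ha ra hd h x1
  induction c with
  | refl => exact wb_right _ _
  | tail _ h ih => exact ih.trans_left t1 (Nx_red h).wb

end VU

end Pool.Agent.Work.MP_3d425c_gt.Bor
end

-- merged part: Pool.Agent.Work.MP_3d425c_gt.PB4
section
/-! The open realisation of an ideal triangulation is simply connected. -/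

namespace Pool.Agent.Work.MP_3d425c_gt.Bor
open Classical PA

variable {V : Type} [LinearOrder V] {E : V → V → Prop}

theorem PB4_desc (hE0 : IdealTri E) (w : V) (Q : V → V → Prop)
    (h : ∀ p q c, E p q → cyc p w q → cyc p c q → E p c → E c q →
      (cyc p w c → Q p c) → (cyc c w q → Q c q) → Q p q) :
    ∀ p q, E p q → cyc p w q → Q p q := by
  intro p₀ q₀ hE₀ hc₀
  obtain ⟨z, hz, -⟩ := hE0.apex q₀ p₀ (hE0.symm _ _ hE₀)
  obtain ⟨A, hA⟩ : ∃ A : V → V → Set (V × V), ∀ p q, A p q =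
      {x | (E x.1 x.2 ∧ cyc x.1 w x.2 ∧ cyc x.2 z x.1) ∧
        (x.1 = p ∨ cyc p x.1 q) ∧ (x.2 = q ∨ cyc p x.2 q)} := ⟨_, fun _ _ => rfl⟩
  have hfin : ∀ p q, (A p q).Finite := fun p q =>
    (hE0.fin w z).subset (by rw [hA]; exact fun x hx => hx.1)
  have key : ∀ n p q, E p q → cyc p w q → cyc q z p → (A p q).ncard = n → Q p q := by
    intro n
    induction n using Nat.strong_induction_on with
    | _ n ih =>
      intro p q hE h1 h2 hn
      obtain ⟨c, hc, e1, e2⟩ := hE0.apex p q hE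
      have hm : (p, q) ∈ A p q := by
        rw [hA]
        exact ⟨⟨hE, h1, h2⟩, Or.inl rfl, Or.inl rfl⟩
      refine h p q c hE h1 hc e1 e2 (fun k => ?_) fun k => ?_
      · refine ih _ ?_ p c e1 k (PAT1_a hc h2) rfl
        rw [← hn]
        refine Set.ncard_lt_ncard ⟨fun x hx => ?_, fun hs => ?_⟩ (hfin p q)
        · rw [hA] at hx ⊢
          exact ⟨hx.1, hx.2.1.imp id (PAT1_c hc), Or.inr (hx.2.2.elim (· ▸ hc) (PAT1_c hc))⟩
        · have := hs hm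
          rw [hA] at this
          exact this.2.2.elim (fun e => (cyc_ne hc).2.1 e.symm) (cyc_asymm hc)
      · refine ih _ ?_ c q e2 k (PAT1_b hc h2) rfl
        rw [← hn]
        refine Set.ncard_lt_ncard ⟨fun x hx => ?_, fun hs => ?_⟩ (hfin p q)
        · rw [hA] at hx ⊢
          exact ⟨hx.1, Or.inr (hx.2.1.elim (· ▸ hc) (PAT1_d hc)), hx.2.2.imp id (PAT1_d hc)⟩
        · have := hs hm
          rw [hA] at this
          exact this.2.1.elim (cyc_ne hc).1 (cyc_asymm (cyc_rot hc))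
  exact key _ p₀ q₀ hE₀ hc₀ hz rfl

theorem PB4_out {p q r a b c : V} (h : cyc p q r) (h1 : cyc a c b) (hp : ¬ cyc a p b)
    (hq : ¬ cyc a q b) (hr : ¬ cyc a r b) : cyc b p a ∨ cyc b q a ∨ cyc b r a := by
  unfold cyc at *; grind

theorem PB4_two {p q r : V} (h : cyc p q r) (u : V) :
    ∃ z, (z = p ∨ z = q ∨ z = r) ∧ z ≠ u := by
  by_cases e : p = u
  · exact ⟨q, Or.inr (Or.inl rfl), fun e' => (cyc_ne h).1 (e.trans e'.symm)⟩
  · exact ⟨p, Or.inl rfl, e⟩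

theorem PB4_left {a b c u v z : V} (h : cyc a c b) (h1 : cyc u a v) (h2 : ¬ cyc v b u)
    (h3 : ¬ cyc u z v) (h4 : ¬ cyc a z b) (h5 : z ≠ u) : cyc u c v := by
  unfold cyc at *; grind

theorem PB4_right {a b c u v z : V} (h : cyc a c b) (h1 : cyc u b v) (h2 : ¬ cyc v a u)
    (h3 : ¬ cyc u z v) (h4 : ¬ cyc a z b) (h5 : z ≠ v) : cyc u c v := by
  unfold cyc at *; grind

theorem PB4_l {a b c u w z : V} (h : cyc a c b) (h1 : cyc u c w) (h2 : ¬ cyc w a u)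
    (h3 : ¬ cyc u z w) (h4 : ¬ cyc a z b) (h5 : z ≠ w) : a = u ∨ cyc u a c := by
  unfold cyc at *; grind

theorem PB4_r {a b c u w z : V} (h : cyc a c b) (h1 : cyc u c w) (h2 : ¬ cyc w b u)
    (h3 : ¬ cyc u z w) (h4 : ¬ cyc a z b) (h5 : z ≠ u) : b = w ∨ cyc c b w := by
  unfold cyc at *; grind

theorem PB4_in {a b c u w v : V} (h : cyc a c b) (h1 : cyc u c w) (h2 : a = u ∨ cyc u a c)
    (h3 : b = w ∨ cyc c b w) (h4 : cyc a v b) : cyc u v w := by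
  unfold cyc at *; grind

theorem PB4_arc {p q r v : V} (h : cyc p q r) (h1 : v ≠ p) (h2 : v ≠ q) (h3 : v ≠ r) :
    cyc p v q ∨ cyc q v r ∨ cyc r v p := by
  unfold cyc at *; grind

theorem PB4_irr (a b : V) : ¬ cyc a a b ∧ ¬ cyc a b b := by
  unfold cyc; grind

theorem exists_depth (hE : IdealTri E) : ∃ (dep : V → ℕ) (p q r : V), E p q ∧ E q r ∧ E p r ∧
    cyc p q r ∧ (∀ v, dep v = 0 → v = p ∨ v = q ∨ v = r) ∧
    ∀ c, 0 < dep c → ∃ a b, E a b ∧ cyc a c b ∧ E a c ∧ E c b ∧ dep a < dep c ∧ dep b < dep c ∧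
      ∀ v, E c v → dep v ≤ dep c → v = a ∨ v = b := by
  obtain ⟨p, r, hpr⟩ := hE.ne
  obtain ⟨q, hc, hpq, hqr⟩ := hE.apex p r hpr
  obtain ⟨O, hO⟩ : ∃ O : V → V → Prop, ∀ a b, O a b ↔ ¬ cyc a p b ∧ ¬ cyc a q b ∧ ¬ cyc a r b :=
    ⟨_, fun _ _ => Iff.rfl⟩
  have hOz : ∀ {a b z}, O a b → z = p ∨ z = q ∨ z = r → ¬ cyc a z b := by
    intro a b z h hz
    rw [hO] at h
    rcases hz with rfl | rfl | rfl
    exacts [h.1, h.2.1, h.2.2]
  have hOm : ∀ {a b a' b'}, O a b → (∀ z, cyc a' z b' → cyc a z b) → O a' b' := by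
    intro a b a' b' h hz
    rw [hO] at h ⊢
    exact ⟨fun k => h.1 (hz _ k), fun k => h.2.1 (hz _ k), fun k => h.2.2 (hz _ k)⟩
  obtain ⟨A, hA⟩ : ∃ A : V → Set (V × V), ∀ v x, x ∈ A v ↔ E x.1 x.2 ∧ cyc x.1 v x.2 ∧ O x.1 x.2 :=
    ⟨fun v => {x | E x.1 x.2 ∧ cyc x.1 v x.2 ∧ O x.1 x.2}, fun _ _ => Iff.rfl⟩
  have hfin : ∀ v, (A v).Finite := fun v =>
    ((hE.fin v p).union ((hE.fin v q).union (hE.fin v r))).subset fun x hx => by
      obtain ⟨h1, h2, h3⟩ := (hA v x).1 hx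
      rw [hO] at h3
      exact (PB4_out hc h2 h3.1 h3.2.1 h3.2.2).imp (fun k => ⟨h1, h2, k⟩)
        (Or.imp (fun k => ⟨h1, h2, k⟩) fun k => ⟨h1, h2, k⟩)
  have hlt : ∀ {v c} (x : V × V), A v ⊆ A c → x ∈ A c → x ∉ A v → (A v).ncard < (A c).ncard :=
    fun x h1 h2 h3 => Set.ncard_lt_ncard ⟨h1, fun k => h3 (k h2)⟩ (hfin _)
  refine ⟨fun v => (A v).ncard, p, q, r, hpq, hqr, hpr, hc, fun v hv => ?_, fun c hc0 => ?_⟩
  · rw [Set.ncard_eq_zero (hfin v)] at hv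
    by_contra hn
    simp only [not_or] at hn
    have hne : ∀ x, x ∈ A v → False := fun x hx => by rw [hv] at hx; exact hx
    rcases PB4_arc hc hn.1 hn.2.1 hn.2.2 with k | k | k
    · exact hne (p, q) ((hA _ _).2 ⟨hpq, k, (hO _ _).2
        ⟨(PB4_irr _ _).1, (PB4_irr _ _).2, cyc_asymm hc⟩⟩)
    · exact hne (q, r) ((hA _ _).2 ⟨hqr, k, (hO _ _).2
        ⟨cyc_asymm (cyc_rot hc), (PB4_irr _ _).1, (PB4_irr _ _).2⟩⟩)
    · exact hne (r, p) ((hA _ _).2 ⟨hE.symm _ _ hpr, k, (hO _ _).2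
        ⟨(PB4_irr _ _).2, cyc_asymm (cyc_rot (cyc_rot hc)), (PB4_irr _ _).1⟩⟩)
  obtain ⟨x, hx⟩ := (Set.ncard_pos (hfin c)).1 hc0
  rw [hA] at hx
  obtain ⟨a, b, hab, hacb, hac, hcb, hOab⟩ := PB4_desc hE c
    (fun a b => O a b → ∃ a b, E a b ∧ cyc a c b ∧ E a c ∧ E c b ∧ O a b)
    (fun a b d h1 h2 h3 h4 h5 k1 k2 h6 => by
      rcases PAT1_e h2 h3 with k | k | k
      · subst k
        exact ⟨a, b, h1, h2, h4, h5, h6⟩
      · exact k1 k (hOm h6 fun z => PAT1_c h3)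
      · exact k2 k (hOm h6 fun z => PAT1_d h3)) x.1 x.2 hx.1 hx.2.1 hx.2.2
  have hm : (a, b) ∈ A c := (hA _ _).2 ⟨hab, hacb, hOab⟩
  refine ⟨a, b, hab, hacb, hac, hcb, hlt (a, b) (fun y hy => ?_) hm fun k => ?_,
    hlt (a, b) (fun y hy => ?_) hm fun k => ?_, fun v hv hle => ?_⟩
  · rw [hA] at hy ⊢
    obtain ⟨z, hz, hzu⟩ := PB4_two hc y.1
    exact ⟨hy.1, PB4_left hacb hy.2.1 (hE.nocross _ _ _ _ hy.1 hab hy.2.1) (hOz hy.2.2 hz)
      (hOz hOab hz) hzu, hy.2.2⟩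
  · exact (PB4_irr _ _).1 ((hA _ _).1 k).2.1
  · rw [hA] at hy ⊢
    obtain ⟨z, hz, hzu⟩ := PB4_two hc y.2
    exact ⟨hy.1, PB4_right hacb hy.2.1 (hE.nocross _ _ _ _ hy.1 (hE.symm _ _ hab) hy.2.1)
      (hOz hy.2.2 hz) (hOz hOab hz) hzu, hy.2.2⟩
  · exact (PB4_irr _ _).2 ((hA _ _).1 k).2.1
  by_contra hn
  simp only [not_or] at hn
  have hvc : v ≠ c := by
    obtain ⟨d, hd, -⟩ := hE.apex c v hv
    exact (cyc_ne hd).2.2.symm
  have hin : cyc a v b := (cyc_total (Ne.symm hn.1) hn.2 (cyc_ne hacb).2.2).resolve_right fun k =>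
    hE.nocross _ _ _ _ hab hv hacb (cyc_rot k)
  have hsub : A c ⊆ A v := fun y hy => by
    rw [hA] at hy ⊢
    obtain ⟨z, hz, hzu⟩ := PB4_two hc y.1
    obtain ⟨z', hz', hzu'⟩ := PB4_two hc y.2
    exact ⟨hy.1, PB4_in hacb hy.2.1
      (PB4_l hacb hy.2.1 (hE.nocross _ _ _ _ hy.1 (hE.symm _ _ hac) hy.2.1) (hOz hy.2.2 hz')
        (hOz hOab hz') hzu')
      (PB4_r hacb hy.2.1 (hE.nocross _ _ _ _ hy.1 hcb hy.2.1) (hOz hy.2.2 hz)
        (hOz hOab hz) hzu) hin, hy.2.2⟩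
  refine absurd hle (not_le.2 ?_)
  rcases PAT1_e hin hacb with k | k | k
  · exact absurd k hvc
  · exact hlt (a, c) hsub ((hA _ _).2 ⟨hac, k, hOm hOab fun z => PAT1_c hacb⟩)
      fun k => (PB4_irr _ _).2 ((hA _ _).1 k).2.1
  · exact hlt (c, b) hsub ((hA _ _).2 ⟨hcb, k, hOm hOab fun z => PAT1_d hacb⟩)
      fun k => (PB4_irr _ _).1 ((hA _ _).1 k).2.1

end Pool.Agent.Work.MP_3d425c_gt.Bor
end

-- merged part: Pool.Agent.Work.MP_3d425c_gt.PB4b
section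
/-! The open realisation of an ideal triangulation is simply connected. -/

namespace Pool.Agent.Work.MP_3d425c_gt.Bor
open Classical PA

variable {V : Type} [LinearOrder V] {E : V → V → Prop}

/-- A space in which every compact subset contracts to a fixed point is simply connected. -/
theorem pb4b_sc {Z : Type*} [TopologicalSpace Z] (z0 : Z)
    (h : ∀ K : Set Z, IsCompact K → ContinuousMap.Homotopic
      (⟨Subtype.val, continuous_subtype_val⟩ : C(K, Z)) (ContinuousMap.const K z0)) :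
    SimplyConnectedSpace Z := by
  have j : ∀ z, Joined z z0 := fun z => ⟨(h {z} isCompact_singleton).some.evalAt ⟨z, rfl⟩⟩
  refine simply_connected_iff_loops_nullhomotopic.2
    ⟨⟨⟨z0⟩, fun x y => (j x).trans (j y).symm⟩, fun x γ => ?_⟩
  obtain ⟨F⟩ := h (Set.range γ) (isCompact_range γ.continuous)
  let p : Path (⟨x, γ.source_mem_range⟩ : Set.range γ) ⟨x, γ.source_mem_range⟩ :=
    { toFun := fun t => ⟨γ t, t, rfl⟩
      continuous_toFun := γ.continuous.subtype_mk _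
      source' := Subtype.ext γ.source
      target' := Subtype.ext γ.target }
  let e : Path x z0 := F.evalAt ⟨x, γ.source_mem_range⟩
  have h1 : (γ.trans e).Homotopic (e.trans (Path.refl z0)) := Path.Homotopic.map_trans_evalAt F p
  have h2 : (γ.trans e).Homotopic e := h1.trans (Path.Homotopic.trans_refl e)
  have h3 := Path.Homotopic.trans_symm e
  exact ((Path.Homotopic.trans_refl γ).symm.trans
    ((Path.Homotopic.refl γ).hcomp h3.symm)).trans
    ((Path.Homotopic.trans_assoc γ e e.symm).symm.trans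
      ((h2.hcomp (Path.Homotopic.refl _)).trans h3))

theorem pb4b_ne {a b c : V} (h : cyc a b c) : a ≠ b ∧ b ≠ c ∧ a ≠ c := by
  rcases h with h | h | h
  · exact ⟨h.1.ne, h.2.ne, (h.1.trans h.2).ne⟩
  · exact ⟨(h.1.trans h.2).ne', h.1.ne, h.2.ne'⟩
  · exact ⟨h.2.ne, (h.1.trans h.2).ne', h.1.ne'⟩

theorem pb4b_mem (hE : IdealTri E) {x : V → ℝ} {a b c : V} (h1 : E a b) (h2 : E b c) (h3 : E a c)
    (h : cyc a b c) (ho : OnTri x a b c) (h0 : ∀ v, 0 ≤ x v) (hs : x a + x b + x c = 1) :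
    x ∈ Disc E := by
  refine (mem_disc hE).2 ⟨a, b, c, x a, x b, x c, h1, h2, h3, h, h0 a, h0 b, h0 c, hs, ?_⟩
  obtain ⟨n1, n2, n3⟩ := pb4b_ne h
  funext v
  simp only [bary, Pi.add_apply, Pi.single_apply]
  by_cases ha : v = a
  · subst ha
    simp [n1, n3]
  by_cases hb : v = b
  · subst hb
    simp [ha, n2]
  by_cases hc : v = c
  · subst hc
    simp [ha, hb]
  · simp only [ha, hb, hc, if_false, add_zero]
    by_contra hv
    rcases ho v hv with h | h | h <;> contradiction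

theorem pb4b_onTri (a b c : V) (s t u : ℝ) : OnTri (bary a b c s t u) a b c := by
  intro v hv
  by_contra hn
  rw [not_or, not_or] at hn
  exact hv (by simp [bary, hn.1, hn.2.1, hn.2.2])

/-- Two points lie in a common triangle. -/
def Pb4bNear (E : V → V → Prop) (x y : V → ℝ) : Prop :=
  ∃ a b c, E a b ∧ E b c ∧ E a c ∧ cyc a b c ∧ OnTri x a b c ∧ OnTri y a b c

theorem pb4b_near_self (hE : IdealTri E) {x : V → ℝ} (hx : x ∈ Disc E) : Pb4bNear E x x := by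
  obtain ⟨a, b, c, s, t, u, h1, h2, h3, h4, -, -, -, -, rfl⟩ := (mem_disc hE).1 hx
  exact ⟨a, b, c, h1, h2, h3, h4, pb4b_onTri _ _ _ _ _ _, pb4b_onTri _ _ _ _ _ _⟩

theorem pb4b_seg (hE : IdealTri E) (x y : {x : Disc E // ∀ w, x.1 w < 1})
    (h : Pb4bNear E x.1.1 y.1.1) {s : ℝ} (h0 : 0 ≤ s) (h1 : s ≤ 1) :
    (fun v => (1 - s) * x.1.1 v + s * y.1.1 v) ∈ Disc E ∧
      ∀ v, (1 - s) * x.1.1 v + s * y.1.1 v < 1 := by
  obtain ⟨a, b, c, e1, e2, e3, e4, hx, hy⟩ := h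
  have sx := (eq_bary hE x.1.2 e4 hx).2.2.2.1
  have sy := (eq_bary hE y.1.2 e4 hy).2.2.2.1
  refine ⟨pb4b_mem hE e1 e2 e3 e4 (fun v hv => ?_) (fun v => ?_) ?_, fun v => ?_⟩
  · by_contra hn
    have h2 : x.1.1 v = 0 := by_contra fun h => hn (hx v h)
    have h3 : y.1.1 v = 0 := by_contra fun h => hn (hy v h)
    exact hv (by simp [h2, h3])
  · exact add_nonneg (mul_nonneg (sub_nonneg.2 h1) (disc_nonneg hE x.1.2 v).1)
      (mul_nonneg h0 (disc_nonneg hE y.1.2 v).1)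
  · linear_combination (1 - s) * sx + s * sy
  · have h2 := x.2 v
    have h3 := y.2 v
    rcases h0.eq_or_lt with rfl | h4
    · simpa using h2
    · linarith only [h1, h2, h4, h3, mul_nonneg (sub_nonneg.2 h1) (sub_pos.2 h2).le, mul_pos h4 (sub_pos.2 h3)]

/-- The straight line homotopy. -/
theorem pb4b_line (hE : IdealTri E) {K : Type*} [TopologicalSpace K]
    (f g : C(K, {x : Disc E // ∀ w, x.1 w < 1})) (h : ∀ k, Pb4bNear E (f k).1.1 (g k).1.1) :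
    f.Homotopic g := by
  have cf : Continuous fun k => (f k).1.1 := by fun_prop
  have cg : Continuous fun k => (g k).1.1 := by fun_prop
  refine ⟨⟨⟨fun z => ⟨⟨fun v => (1 - z.1.1) * (f z.2).1.1 v + z.1.1 * (g z.2).1.1 v,
    (pb4b_seg hE _ _ (h z.2) z.1.2.1 z.1.2.2).1⟩, (pb4b_seg hE _ _ (h z.2) z.1.2.1 z.1.2.2).2⟩,
    ?_⟩, fun k => ?_, fun k => ?_⟩⟩
  · refine Continuous.subtype_mk (Continuous.subtype_mk (continuous_pi fun v => ?_) _) _
    have c1 := (continuous_apply v).comp (cf.comp (continuous_snd (X := unitInterval)))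
    have c2 := (continuous_apply v).comp (cg.comp (continuous_snd (X := unitInterval)))
    have c3 : Continuous fun z : unitInterval × K => z.1.1 := by fun_prop
    exact ((continuous_const.sub c3).mul c1).add (c3.mul c2)
  · exact Subtype.ext (Subtype.ext (funext fun v => by simp))
  · exact Subtype.ext (Subtype.ext (funext fun v => by simp))

/-- Pushing the vertex `c` to the midpoint of `a` and `b`. -/
noncomputable def pb4bR (a b c : V) (x : V → ℝ) (v : V) : ℝ :=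
  if v = c then 0 else if v = a ∨ v = b then x v + x c / 2 else x v

theorem pb4bR_cont (a b c : V) : Continuous (pb4bR a b c) := by
  refine continuous_pi fun v => ?_
  unfold pb4bR
  split_ifs <;> fun_prop

theorem pb4bR_spec (hE : IdealTri E) {a b c : V} (e1 : E a b) (e2 : cyc a c b) (e3 : E a c)
    (e4 : E c b) (x : {x : Disc E // ∀ w, x.1 w < 1})
    (h : ∀ v, x.1.1 v ≠ 0 → E c v → v = a ∨ v = b) :
    pb4bR a b c x.1.1 ∈ Disc E ∧ (∀ v, pb4bR a b c x.1.1 v < 1) ∧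
      Pb4bNear E x.1.1 (pb4bR a b c x.1.1) := by
  by_cases hc : x.1.1 c = 0
  · have e : pb4bR a b c x.1.1 = x.1.1 := by
      funext v
      unfold pb4bR
      split_ifs with h1 h2
      · rw [h1, hc]
      · rw [hc, zero_div, add_zero]
      · rfl
    rw [e]
    exact ⟨x.1.2, x.2, pb4b_near_self hE x.1.2⟩
  obtain ⟨n1, n2, n3⟩ := pb4b_ne e2
  have ho : OnTri x.1.1 a c b := fun v hv => by
    by_cases hv' : c = v
    · exact Or.inr (Or.inl hv'.symm)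
    · exact (h v hv (adj_of_pos hE x.1.2 hv' hc hv)).imp_right Or.inr
  have ho' : OnTri (pb4bR a b c x.1.1) a c b := fun v hv => by
    unfold pb4bR at hv
    split_ifs at hv with h1 h2
    · exact absurd rfl hv
    · exact h2.imp_right Or.inr
    · exact ho v hv
  obtain ⟨p1, p2, p3, p4, -⟩ := eq_bary hE x.1.2 e2 ho
  have p5 : 0 < x.1.1 c := lt_of_le_of_ne p2 (Ne.symm hc)
  refine ⟨pb4b_mem hE e3 e4 e1 e2 ho' (fun v => ?_) ?_, fun v => ?_,
    a, c, b, e3, e4, e1, e2, ho, ho'⟩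
  · have := (disc_nonneg hE x.1.2 v).1
    unfold pb4bR
    split_ifs <;> linarith only [p5, this]
  · simp only [pb4bR, n1, n2.symm, if_false, if_true, true_or, or_true]
    linarith only [p4]
  · unfold pb4bR
    split_ifs with h1 h2
    · exact zero_lt_one
    · rcases h2 with rfl | rfl <;> linarith only [p3, p5, p4, p1]
    · exact x.2 v

theorem pb4b_sum_insert (f : V → ℕ) (a : V) (s : Finset V) :
    ∑ v ∈ insert a s, f v ≤ f a + ∑ v ∈ s, f v := by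
  by_cases h : a ∈ s
  · rw [Finset.insert_eq_of_mem h]
    exact Nat.le_add_left _ _
  · rw [Finset.sum_insert h]

/-- A map with finite total support is homotopic to a fixed constant. -/
theorem pb4b_null (hE : IdealTri E) : ∃ x0 : {x : Disc E // ∀ w, x.1 w < 1},
    ∀ (K : Type) [TopologicalSpace K] (W : Finset V) (f : C(K, {x : Disc E // ∀ w, x.1 w < 1})),
      (∀ k v, (f k).1.1 v ≠ 0 → v ∈ W) → f.Homotopic (ContinuousMap.const K x0) := by
  obtain ⟨dep, p, q, r, e1, e2, e3, e4, h0, hd⟩ := exists_depth hE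
  obtain ⟨n1, n2, n3⟩ := pb4b_ne e4
  refine ⟨⟨⟨bary p q r (1 / 3) (1 / 3) (1 / 3), (mem_disc hE).2 ⟨p, q, r, _, _, _, e1, e2, e3, e4,
    by norm_num, by norm_num, by norm_num, by norm_num, rfl⟩⟩, fun w => ?_⟩, fun K _ W => ?_⟩
  · simp only [bary, Pi.add_apply, Pi.single_apply]
    split_ifs with h1 h2
    all_goals first | exact absurd (h1.symm.trans h2) n1 | norm_num
  induction hn : ∑ v ∈ W, 3 ^ dep v using Nat.strong_induction_on generalizing W with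
  | _ n ih =>
    intro f hf
    by_cases hW : ∀ v ∈ W, dep v = 0
    · exact pb4b_line hE _ _ fun k => ⟨p, q, r, e1, e2, e3, e4,
        fun v hv => h0 v (hW v (hf k v hv)), pb4b_onTri _ _ _ _ _ _⟩
    push Not at hW
    obtain ⟨w, hw, hw'⟩ := hW
    obtain ⟨c, hc, hmax⟩ := W.exists_max_image dep ⟨w, hw⟩
    have hpos : 0 < dep c := (Nat.pos_of_ne_zero hw').trans_le (hmax w hw)
    obtain ⟨a, b, f1, f2, f3, f4, f5, f6, f7⟩ := hd c hpos
    have hs := fun k => pb4bR_spec hE f1 f2 f3 f4 (f k) fun v hv hcv =>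
      f7 v hcv (hmax v (hf k v hv))
    have cf : Continuous fun k => (f k).1.1 := by fun_prop
    let g : C(K, {x : Disc E // ∀ w, x.1 w < 1}) :=
      ⟨fun k => ⟨⟨pb4bR a b c (f k).1.1, (hs k).1⟩, (hs k).2.1⟩,
        (((pb4bR_cont a b c).comp cf).subtype_mk _).subtype_mk _⟩
    refine (pb4b_line hE f g fun k => (hs k).2.2).trans
      (ih _ ?_ (insert a (insert b (W.erase c))) rfl g fun k v hv => ?_)
    · have s1 := pb4b_sum_insert (fun v => 3 ^ dep v) a (insert b (W.erase c))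
      have s2 := pb4b_sum_insert (fun v => 3 ^ dep v) b (W.erase c)
      have s3 := Finset.add_sum_erase W (fun v => 3 ^ dep v) hc
      obtain ⟨d, hd'⟩ : ∃ d, dep c = d + 1 := ⟨dep c - 1, by omega⟩
      have s4 : 3 ^ dep a ≤ 3 ^ d := Nat.pow_le_pow_right (by norm_num) (by omega)
      have s5 : 3 ^ dep b ≤ 3 ^ d := Nat.pow_le_pow_right (by norm_num) (by omega)
      have s6 : 0 < 3 ^ d := by positivity
      beta_reduce at s1 s2 s3
      rw [hd', pow_succ] at s3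
      omega
    · have hv' : pb4bR a b c (f k).1.1 v ≠ 0 := hv
      unfold pb4bR at hv'
      simp only [Finset.mem_insert, Finset.mem_erase]
      split_ifs at hv' with h1 h2
      · exact absurd rfl hv'
      · exact h2.imp_right Or.inl
      · exact Or.inr (Or.inr ⟨h1, hf k v hv'⟩)

theorem fib_simplyConnected (hE : IdealTri E) :
    SimplyConnectedSpace ({x : Disc E // ∀ w, x.1 w < 1} × ℝ) := by
  obtain ⟨x0, h⟩ := pb4b_null hE
  refine pb4b_sc (x0, 0) fun K hK => ?_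
  obtain ⟨W, hW⟩ : ∃ W : Finset V, ∀ z ∈ K, ∀ v, z.1.1.1 v ≠ 0 → v ∈ W := by
    refine hK.induction_on (p := fun S => ∃ W : Finset V, ∀ z ∈ S, ∀ v, z.1.1.1 v ≠ 0 → v ∈ W)
      ⟨∅, fun z hz => hz.elim⟩ ?_ ?_ fun z _ => ?_
    · rintro s t hst ⟨W, hW⟩
      exact ⟨W, fun z hz => hW z (hst hz)⟩
    · rintro s t ⟨W, hW⟩ ⟨W', hW'⟩
      exact ⟨W ∪ W', fun z hz v hv => Finset.mem_union.2
        (hz.imp (fun h => hW z h v hv) fun h => hW' z h v hv)⟩
    · obtain ⟨W, hW⟩ := loc_finite hE z.1.1.2 z.1.2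
      have c1 : Continuous fun z : {x : Disc E // ∀ w, x.1 w < 1} × ℝ => z.1.1.1 := by fun_prop
      exact ⟨_, mem_nhdsWithin_of_mem_nhds ((tendsto_nhdsWithin_iff.2
        ⟨c1.tendsto z, Filter.Eventually.of_forall fun z => z.1.1.2⟩).eventually hW),
        W, fun z hz => hz⟩
  exact (h K W ⟨fun z => z.1.1, by fun_prop⟩ fun k => hW k.1 k.2).prodMk
    ⟨ContinuousMap.Homotopy.affine (⟨fun z => z.1.2, by fun_prop⟩ : C(K, ℝ))
      (ContinuousMap.const K 0)⟩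

end Pool.Agent.Work.MP_3d425c_gt.Bor
end

-- merged part: Pool.Agent.Work.MP_3d425c_gt.W.SC1
section
/-! The realisation `WSC_Z S` of a layered veering triangulation in barycentric coordinates is
simply connected: a compact set has finite support and is pushed into the layer `0`. -/

namespace Pool.Agent.Work.MP_3d425c_gt.Bor
open Classical PA

variable {V : Type} [LinearOrder V] {S : VC V}

/-- The support of `x` lies in `{a, c, b, d}`. -/
def WSC_On (x : V → ℝ) (a c b d : V) : Prop := ∀ v, x v ≠ 0 → v = a ∨ v = c ∨ v = b ∨ v = d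

/-- The union of the ideal tetrahedra. -/
def WSC_Z (S : VC V) : Set (V → ℝ) :=
  {x | (∀ v, 0 ≤ x v ∧ x v < 1) ∧ ∑ᶠ v, x v = 1 ∧
    ∃ k a c b d, Tet S.K S.red k a c b d ∧ WSC_On x a c b d}

/-- All pairs in the support of `x` satisfy `p`. -/
def WSC_Pr (p : V → V → Prop) (x : V → ℝ) : Prop := ∀ a b, a ≠ b → x a ≠ 0 → x b ≠ 0 → p a b

/-- Two points lie in a common tetrahedron. -/
def WSC_Near (S : VC V) (x y : V → ℝ) : Prop :=
  ∃ k a c b d, Tet S.K S.red k a c b d ∧ WSC_On x a c b d ∧ WSC_On y a c b d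

/-- Edges which are born at or before the layer `n`. -/
def WSC_Lo (S : VC V) (n : ℤ) (a b : V) : Prop := ∃ j, j ≤ n ∧ S.K j a b

theorem WSC_rev : WSC_Z S = WSC_Z S.rev := by
  ext x
  refine and_congr_right fun _ => and_congr_right fun _ => ⟨?_, ?_⟩
  · rintro ⟨k, a, c, b, d, t, h⟩
    exact ⟨_, _, _, _, _, VC.tet_rev t, fun v hv => by have := h v hv; grind⟩
  · rintro ⟨k, a, c, b, d, t, h⟩
    exact ⟨_, _, _, _, _, VC.tet_of_rev t, fun v hv => by have := h v hv; grind⟩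

theorem WSC_ne {k : ℤ} {a c b d : V} (t : Tet S.K S.red k a c b d) :
    a ≠ c ∧ a ≠ b ∧ a ≠ d ∧ c ≠ b ∧ c ≠ d ∧ b ≠ d :=
  ⟨(cyc_ne t.1).1, (cyc_ne t.1).2.2, (cyc_ne t.2.1).2.1.symm, (cyc_ne t.1).2.1,
    PB1_ne (S.layer _) t.2.2.2.1, (cyc_ne t.2.1).1⟩

theorem WSC_pair0 {k : ℤ} {a c b d p q : V} (t : Tet S.K S.red k a c b d)
    (hp : p = a ∨ p = c ∨ p = b ∨ p = d) (hq : q = a ∨ q = c ∨ q = b ∨ q = d) (hn : p ≠ q)
    (h : ¬ ((p = c ∨ p = d) ∧ (q = c ∨ q = d))) : S.K k p q := by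
  obtain ⟨-, -, h3, -, ⟨a1, a2, a3, a4⟩, -⟩ := t
  have b0 := VC.ksymm h3
  have b1 := VC.ksymm a1
  have b2 := VC.ksymm a2
  have b3 := VC.ksymm a3
  have b4 := VC.ksymm a4
  rcases hp with rfl | rfl | rfl | rfl <;> rcases hq with rfl | rfl | rfl | rfl <;>
    first | assumption | exact absurd rfl hn | exact absurd ⟨by simp, by simp⟩ h

theorem WSC_pair1 {k : ℤ} {a c b d p q : V} (t : Tet S.K S.red k a c b d)
    (hp : p = a ∨ p = c ∨ p = b ∨ p = d) (hq : q = a ∨ q = c ∨ q = b ∨ q = d) (hn : p ≠ q)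
    (h : ¬ ((p = a ∨ p = b) ∧ (q = a ∨ q = b))) : S.K (k + 1) p q := by
  obtain ⟨-, -, -, h3, -, ⟨a1, a2, a3, a4⟩, -⟩ := t
  have b0 := VC.ksymm h3
  have b1 := VC.ksymm a1
  have b2 := VC.ksymm a2
  have b3 := VC.ksymm a3
  have b4 := VC.ksymm a4
  rcases hp with rfl | rfl | rfl | rfl <;> rcases hq with rfl | rfl | rfl | rfl <;>
    first | assumption | exact absurd rfl hn | exact absurd ⟨by simp, by simp⟩ h

theorem WSC_edge {x : V → ℝ} (hx : x ∈ WSC_Z S) : WSC_Pr S.E x := fun p q hn hp hq => by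
  obtain ⟨-, -, k, a, c, b, d, t, h⟩ := hx
  by_cases e : (p = c ∨ p = d) ∧ (q = c ∨ q = d)
  · refine ⟨k + 1, WSC_pair1 t (h p hp) (h q hq) hn ?_⟩
    have := WSC_ne t
    clear * - this e
    grind
  · exact ⟨k, WSC_pair0 t (h p hp) (h q hq) hn e⟩

theorem WSC_tri {x : V → ℝ} (hx : x ∈ WSC_Z S) {p q r : V} (n1 : r ≠ p) (n2 : r ≠ q) (n3 : p ≠ q)
    (hp : x p ≠ 0) (hq : x q ≠ 0) (hr : x r ≠ 0) : ∃ j, S.K j r p ∧ S.K j r q ∧ S.K j p q := by
  obtain ⟨-, -, k, a, c, b, d, t, h⟩ := hx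
  have n := WSC_ne t
  by_cases e : (p = c ∨ q = c ∨ r = c) ∧ (p = d ∨ q = d ∨ r = d)
  · refine ⟨k + 1, WSC_pair1 t (h r hr) (h p hp) n1 ?_, WSC_pair1 t (h r hr) (h q hq) n2 ?_,
      WSC_pair1 t (h p hp) (h q hq) n3 ?_⟩ <;> clear * - n e n1 n2 n3 <;> grind
  · refine ⟨k, WSC_pair0 t (h r hr) (h p hp) n1 ?_, WSC_pair0 t (h r hr) (h q hq) n2 ?_,
      WSC_pair0 t (h p hp) (h q hq) n3 ?_⟩ <;> clear * - n e n1 n2 n3 <;> grind

/-- The life of an edge is an interval. -/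
theorem WSC_int {i j n : ℤ} {a b : V} (h : S.K i a b) (h' : S.K j a b) (h1 : i ≤ n) (h2 : n ≤ j) :
    S.K n a b := by
  induction n, h1 using Int.leInduction with
  | base => exact h
  | succ n _ ih =>
    exact (S.above n a b (ih (by omega))).resolve_right
      fun ⟨c, d, t⟩ => VC.tet_dead t (by omega) h'

theorem WSC_apex {E : V → V → Prop} (hE : IdealTri E) {p q c d v : V} (k1 : cyc p c q)
    (k2 : E p c) (k3 : E c q) (l1 : cyc q d p) (l2 : E q d) (l3 : E d p) (a1 : E v p)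
    (a2 : E v q) : v = c ∨ v = d := by
  rcases cyc_total (PB1_ne hE a1).symm (PB1_ne hE a2) (cyc_ne k1).2.2 with k | k
  · exact Or.inl (PB1_apex hE k (hE.symm _ _ a1) a2 k1 k2 k3)
  · exact Or.inr (PB1_apex hE (cyc_rot k) (hE.symm _ _ a2) a1 l1 l2 l3)

theorem WSC_star (S : VC V) (p q : V) :
    {v | ∃ j, S.K j v p ∧ S.K j v q ∧ S.K j p q}.Finite := by
  obtain ⟨s, t, h⟩ := S.life p q
  refine ((Set.finite_Icc s t).biUnion (t := fun j => {v | S.K j v p ∧ S.K j v q ∧ S.K j p q})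
    fun j _ => ?_).subset fun v ⟨j, hj⟩ => Set.mem_biUnion (h j hj.2.2) hj
  by_cases e : S.K j p q
  · obtain ⟨c, k1, k2, k3⟩ := (S.layer j).apex p q e
    obtain ⟨d, l1, l2, l3⟩ := (S.layer j).apex q p (VC.ksymm e)
    exact (Set.toFinite {c, d}).subset fun v hv =>
      WSC_apex (S.layer j) k1 k2 k3 l1 l2 l3 hv.1 hv.2.1
  · exact Set.finite_empty.subset fun v hv => e hv.2.2

theorem WSC_sum4 {x : V → ℝ} {k : ℤ} {a c b d : V} (t : Tet S.K S.red k a c b d)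
    (h : WSC_On x a c b d) : ∑ᶠ v, x v = x a + x c + x b + x d := by
  obtain ⟨n1, n2, n3, n4, n5, n6⟩ := WSC_ne t
  rw [finsum_eq_sum_of_support_subset (s := {a, c, b, d}) _ fun v hv => by simpa using h v hv,
    Finset.sum_insert (by simp [n1, n2, n3]), Finset.sum_insert (by simp [n4, n5]),
    Finset.sum_pair n6]
  ring

theorem WSC_sum3 {x : V → ℝ} {a b c : V} (t : cyc a b c) (h : OnTri x a b c) :
    ∑ᶠ v, x v = x a + x b + x c := by
  obtain ⟨n1, n2, n3⟩ := cyc_ne t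
  rw [finsum_eq_sum_of_support_subset (s := {a, b, c}) _ fun v hv => by simpa using h v hv,
    Finset.sum_insert (by simp [n1, n3]), Finset.sum_pair n2]
  ring

theorem WSC_two {x : V → ℝ} (hx : x ∈ WSC_Z S) : ∃ p q, p ≠ q ∧ 0 < x p ∧ 0 < x q := by
  obtain ⟨h0, h1, k, a, c, b, d, t, h⟩ := hx
  rw [WSC_sum4 t h] at h1
  obtain ⟨n1, n2, n3, n4, n5, n6⟩ := WSC_ne t
  by_contra hn
  have e : ∀ p q, p ≠ q → x p ≤ 0 ∨ x q ≤ 0 := fun p q n => by
    by_contra e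
    rw [not_or, not_le, not_le] at e
    exact hn ⟨p, q, n, e⟩
  have a1 := (h0 a).2
  have a2 := (h0 c).2
  have a3 := (h0 b).2
  have a4 := (h0 d).2
  have b1 := e _ _ n1
  have b2 := e _ _ n2
  have b3 := e _ _ n3
  have b4 := e _ _ n4
  have b5 := e _ _ n5
  have b6 := e _ _ n6
  clear * - a1 a2 a3 a4 b1 b2 b3 b4 b5 b6 h1
  grind

theorem WSC_seg {x y : V → ℝ} (hx : x ∈ WSC_Z S) (hy : y ∈ WSC_Z S) (h : WSC_Near S x y) {s : ℝ}
    (h0 : 0 ≤ s) (h1 : s ≤ 1) : (fun v => (1 - s) * x v + s * y v) ∈ WSC_Z S := by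
  obtain ⟨k, a, c, b, d, t, ox, oy⟩ := h
  have o : WSC_On (fun v => (1 - s) * x v + s * y v) a c b d := fun v hv => by
    by_contra hn
    have h2 : x v = 0 := by_contra fun h => hn (ox v h)
    have h3 : y v = 0 := by_contra fun h => hn (oy v h)
    exact hv (by simp [h2, h3])
  refine ⟨fun v => ⟨add_nonneg (mul_nonneg (sub_nonneg.2 h1) (hx.1 v).1)
    (mul_nonneg h0 (hy.1 v).1), ?_⟩, ?_, k, a, c, b, d, t, o⟩
  · have h2 := (hx.1 v).2
    have h3 := (hy.1 v).2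
    rcases h0.eq_or_lt with rfl | h4
    · simpa using h2
    · linarith only [h1, h2, h4, h3, mul_nonneg (sub_nonneg.2 h1) (sub_pos.2 h2).le, mul_pos h4 (sub_pos.2 h3)]
  · have sx := hx.2.1
    have sy := hy.2.1
    rw [WSC_sum4 t ox] at sx
    rw [WSC_sum4 t oy] at sy
    rw [WSC_sum4 t o]
    linear_combination (1 - s) * sx + s * sy

/-- The straight line homotopy. -/
theorem WSC_line {K : Type} [TopologicalSpace K] (f g : C(K, WSC_Z S))
    (h : ∀ k, WSC_Near S (f k).1 (g k).1) : f.Homotopic g := by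
  have cf : Continuous fun k => (f k).1 := by fun_prop
  have cg : Continuous fun k => (g k).1 := by fun_prop
  refine ⟨⟨⟨fun z => ⟨fun v => (1 - z.1.1) * (f z.2).1 v + z.1.1 * (g z.2).1 v,
    WSC_seg (f z.2).2 (g z.2).2 (h z.2) z.1.2.1 z.1.2.2⟩, ?_⟩, fun k => ?_, fun k => ?_⟩⟩
  · refine Continuous.subtype_mk (continuous_pi fun v => ?_) _
    have c1 := (continuous_apply v).comp (cf.comp (continuous_snd (X := unitInterval)))
    have c2 := (continuous_apply v).comp (cg.comp (continuous_snd (X := unitInterval)))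
    have c3 : Continuous fun z : unitInterval × K => z.1.1 := by fun_prop
    exact ((continuous_const.sub c3).mul c1).add (c3.mul c2)
  · exact Subtype.ext (funext fun v => by simp)
  · exact Subtype.ext (funext fun v => by simp)

/-- Pushing the edge `c d` to the edge `a b`. -/
noncomputable def WSC_R (a c b d : V) (x : V → ℝ) (v : V) : ℝ :=
  if v = c ∨ v = d then x v - min (x c) (x d)
  else if v = a ∨ v = b then x v + min (x c) (x d) else x v

theorem WSC_Rc (a c b d : V) : Continuous (WSC_R a c b d) := by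
  refine continuous_pi fun v => ?_
  unfold WSC_R
  split_ifs <;> fun_prop

theorem WSC_Rs {n : ℤ} {a c b d : V} (t : Tet S.K S.red n a c b d) {x : V → ℝ} (hx : x ∈ WSC_Z S)
    (h : x c ≠ 0 → x d ≠ 0 → WSC_On x a c b d) :
    WSC_R a c b d x ∈ WSC_Z S ∧ WSC_Near S x (WSC_R a c b d x) ∧
      ((WSC_R a c b d x = x ∧ (x c = 0 ∨ x d = 0)) ∨ WSC_Pr (S.K n) (WSC_R a c b d x)) := by
  by_cases hc : x c = 0 ∨ x d = 0
  · have m : min (x c) (x d) = 0 := by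
      rcases hc with e | e
      · rw [e, min_eq_left (hx.1 d).1]
      · rw [e, min_eq_right (hx.1 c).1]
    have e : WSC_R a c b d x = x := by
      funext v
      simp [WSC_R, m]
    rw [e]
    obtain ⟨k, a', c', b', d', t', o⟩ := hx.2.2
    exact ⟨hx, ⟨k, a', c', b', d', t', o, o⟩, Or.inl ⟨rfl, hc⟩⟩
  rw [not_or] at hc
  have ho := h hc.1 hc.2
  obtain ⟨n1, n2, n3, n4, n5, n6⟩ := WSC_ne t
  have ho' : WSC_On (WSC_R a c b d x) a c b d := fun v hv => by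
    unfold WSC_R at hv
    split_ifs at hv with h1 h2
    · clear * - h1
      grind
    · clear * - h2
      grind
    · exact ho v hv
  have ea : WSC_R a c b d x a = x a + min (x c) (x d) := by simp [WSC_R, n1, n3]
  have eb : WSC_R a c b d x b = x b + min (x c) (x d) := by simp [WSC_R, n4.symm, n6]
  have ec : WSC_R a c b d x c = x c - min (x c) (x d) := by simp [WSC_R]
  have ed : WSC_R a c b d x d = x d - min (x c) (x d) := by simp [WSC_R]
  have sx := hx.2.1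
  rw [WSC_sum4 t ho] at sx
  have pc : 0 < x c := lt_of_le_of_ne (hx.1 c).1 (Ne.symm hc.1)
  have pd : 0 < x d := lt_of_le_of_ne (hx.1 d).1 (Ne.symm hc.2)
  have m0 : 0 < min (x c) (x d) := lt_min pc pd
  have m1 := min_le_left (x c) (x d)
  have m2 := min_le_right (x c) (x d)
  have pa := (hx.1 a).1
  have pb := (hx.1 b).1
  refine ⟨⟨fun v => ?_, ?_, n, a, c, b, d, t, ho'⟩, ⟨n, a, c, b, d, t, ho, ho'⟩,
    Or.inr fun p q hn hp hq => WSC_pair0 t (ho' p hp) (ho' q hq) hn ?_⟩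
  · by_cases hv : WSC_R a c b d x v = 0
    · rw [hv]
      exact ⟨le_rfl, zero_lt_one⟩
    rcases ho' v hv with rfl | rfl | rfl | rfl
    · rw [ea]
      constructor <;> linarith only [m0, pa, pd, m1, pb, sx]
    · rw [ec]
      constructor <;> linarith only [m1, pd, pa, pb, sx, m0]
    · rw [eb]
      constructor <;> linarith only [m0, pb, pd, m1, pa, sx]
    · rw [ed]
      constructor <;> linarith only [m2, pc, pa, pb, sx, m0]
  · rw [WSC_sum4 t ho', ea, eb, ec, ed]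
    linarith only [sx]
  · have k : WSC_R a c b d x c = 0 ∨ WSC_R a c b d x d = 0 := by
      rw [ec, ed]
      rcases min_choice (x c) (x d) with e | e
      · exact Or.inl (by rw [e, sub_self])
      · exact Or.inr (by rw [e, sub_self])
    rintro ⟨rfl | rfl, rfl | rfl⟩
    · exact hn rfl
    · exact k.elim hp hq
    · exact k.elim hq hp
    · exact hn rfl

/-- One layer down. -/
theorem WSC_push1 {K : Type} [TopologicalSpace K] (n : ℤ) {q : V → V → Prop}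
    (hq : ∀ a b, S.K n a b → q a b) (B : Finset (V × V)) : ∀ f : C(K, WSC_Z S),
    {v | ∃ k, (f k).1 v ≠ 0}.Finite → (∀ k, WSC_Pr q (f k).1) →
    (∀ k, WSC_Pr (fun c d => WSC_Lo S n c d ∨ ((c, d) ∈ B ∧ S.K (n + 1) c d)) (f k).1) →
    ∃ g : C(K, WSC_Z S), f.Homotopic g ∧ {v | ∃ k, (g k).1 v ≠ 0}.Finite ∧
      (∀ k, WSC_Pr q (g k).1) ∧ ∀ k, WSC_Pr (WSC_Lo S n) (g k).1 := by
  induction B using Finset.induction_on with
  | empty =>
    exact fun f h1 h2 h3 => ⟨f, .refl f, h1, h2, fun k a b hn ha hb =>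
      (h3 k a b hn ha hb).resolve_right fun e => Finset.notMem_empty _ e.1⟩
  | insert e B _ ih =>
    intro f h1 h2 h3
    obtain ⟨c, d⟩ := e
    by_cases hcd : WSC_Lo S n c d ∨ ¬ S.K (n + 1) c d
    · refine ih f h1 h2 fun k a b hn ha hb => ?_
      rcases h3 k a b hn ha hb with e | ⟨e1, e2⟩
      · exact Or.inl e
      rcases Finset.mem_insert.1 e1 with e | e
      · obtain ⟨rfl, rfl⟩ := Prod.mk.inj e
        exact Or.inl (hcd.resolve_right (not_not.2 e2))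
      · exact Or.inr ⟨e, e2⟩
    rw [not_or, not_not] at hcd
    obtain ⟨a, b, t⟩ := (S.below n c d hcd.2).resolve_left fun e => hcd.1 ⟨n, le_rfl, e⟩
    have hs := fun k => WSC_Rs t (f k).2 fun hc hd v hv => by
      by_cases e1 : v = c
      · exact Or.inr (Or.inl e1)
      by_cases e2 : v = d
      · exact Or.inr (Or.inr (Or.inr e2))
      obtain ⟨j, j1, j2, j3⟩ := WSC_tri (f k).2 e1 e2 (WSC_ne t).2.2.2.2.1 hc hd hv
      have j4 : n + 1 ≤ j := by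
        by_contra j4
        exact hcd.1 ⟨j, by omega, j3⟩
      have k1 : ∀ w, v ≠ w → (f k).1 w ≠ 0 → S.K j v w → S.K (n + 1) v w := fun w w1 w2 w3 => by
        rcases h3 k v w w1 hv w2 with ⟨i, i1, i2⟩ | i
        · exact WSC_int i2 w3 (by omega) j4
        · exact i.2
      obtain ⟨-, -, f3, f4⟩ := VC.tet_faces t
      exact (WSC_apex (S.layer _) (cyc_rot (cyc_rot f4.2.2.2)) (VC.ksymm f4.2.1) f4.1
        (cyc_rot (cyc_rot f3.2.2.2)) (VC.ksymm f3.2.1) f3.1 (k1 c e1 hc j1) (k1 d e2 hd j2)).elim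
        (fun e => Or.inr (Or.inr (Or.inl e))) Or.inl
    have cf : Continuous fun k => (f k).1 := by fun_prop
    let g : C(K, WSC_Z S) := ⟨fun k => ⟨WSC_R a c b d (f k).1, (hs k).1⟩,
      ((WSC_Rc a c b d).comp cf).subtype_mk _⟩
    refine (ih g ?_ (fun k => ?_) fun k => ?_).imp fun g' i =>
      ⟨(WSC_line f g fun k => (hs k).2.1).trans i.1, i.2⟩
    · refine ((Set.toFinite {a, c, b, d}).union h1).subset ?_
      rintro v ⟨k, hv⟩
      have hv' : WSC_R a c b d (f k).1 v ≠ 0 := hv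
      unfold WSC_R at hv'
      split_ifs at hv' with e1 e2
      · exact Or.inl (by rcases e1 with rfl | rfl <;> simp)
      · exact Or.inl (by rcases e2 with rfl | rfl <;> simp)
      · exact Or.inr ⟨k, hv'⟩
    · change WSC_Pr q (WSC_R a c b d (f k).1)
      rcases (hs k).2.2 with e | e
      · rw [e.1]
        exact h2 k
      · exact fun p r hn hp hr => hq _ _ (e p r hn hp hr)
    · change WSC_Pr _ (WSC_R a c b d (f k).1)
      rcases (hs k).2.2 with e | e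
      · rw [e.1]
        intro p r hn hp hr
        rcases h3 k p r hn hp hr with i | ⟨e1, e2⟩
        · exact Or.inl i
        rcases Finset.mem_insert.1 e1 with i | i
        · obtain ⟨rfl, rfl⟩ := Prod.mk.inj i
          exact (e.2.elim hp hr).elim
        · exact Or.inr ⟨i, e2⟩
      · exact fun p r hn hp hr => Or.inl ⟨n, le_rfl, e p r hn hp hr⟩

/-- Down to the layer `0`. -/
theorem WSC_push {K : Type} [TopologicalSpace K] {Z : Set (V → ℝ)} (hZ : Z = WSC_Z S)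
    {q : V → V → Prop} (hq : ∀ n, 0 ≤ n → ∀ a b, S.K n a b → q a b) (f : C(K, Z))
    (h1 : {v | ∃ k, (f k).1 v ≠ 0}.Finite) (h2 : ∀ k, WSC_Pr q (f k).1) :
    ∃ g : C(K, Z), f.Homotopic g ∧ {v | ∃ k, (g k).1 v ≠ 0}.Finite ∧
      (∀ k, WSC_Pr q (g k).1) ∧ ∀ k, WSC_Pr (WSC_Lo S 0) (g k).1 := by
  subst hZ
  obtain ⟨N, hN⟩ : ∃ N : ℕ, ∀ k, WSC_Pr (WSC_Lo S N) (f k).1 := by
    obtain ⟨M, hM⟩ := ((h1.prod h1).image fun e => S.bt e.1 e.2).bddAbove
    refine ⟨M.toNat, fun k a b hn ha hb => ⟨S.bt a b, ?_, (VC.bt_spec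
      (WSC_edge (f k).2 a b hn ha hb)).1⟩⟩
    exact (hM ⟨(a, b), ⟨⟨k, ha⟩, k, hb⟩, rfl⟩).trans (Int.self_le_toNat M)
  induction N generalizing f with
  | zero => exact ⟨f, .refl f, h1, h2, hN⟩
  | succ N ih =>
    obtain ⟨g, g1, g2, g3, g4⟩ := WSC_push1 (N : ℤ) (hq N (by positivity))
      (h1.prod h1).toFinset f h1 h2 fun k a b hn ha hb => by
        obtain ⟨j, j1, j2⟩ := hN k a b hn ha hb
        rcases j1.lt_or_eq with e | e
        · exact Or.inl ⟨j, by push_cast at e; omega, j2⟩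
        · exact Or.inr ⟨(Set.Finite.mem_toFinset _).2 ⟨⟨k, ha⟩, k, hb⟩, by
            rw [e] at j2
            exact j2⟩
    obtain ⟨g', i1, i2⟩ := ih g g2 g3 g4
    exact ⟨g', g1.trans i1, i2⟩

theorem WSC_disc {x : V → ℝ} (hx : x ∈ WSC_Z S) (h : WSC_Pr (S.K 0) x) : x ∈ Disc (S.K 0) := by
  have key : ∀ a b c, S.K 0 a b → S.K 0 b c → S.K 0 a c → cyc a b c → OnTri x a b c →
      x ∈ Disc (S.K 0) := fun a b c h1 h2 h3 h4 h5 =>
    pb4b_mem (S.layer 0) h1 h2 h3 h4 h5 (fun v => (hx.1 v).1) (by rw [← WSC_sum3 h4 h5, hx.2.1])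
  obtain ⟨p, q, hn, hp, hq⟩ := WSC_two hx
  have e := h p q hn hp.ne' hq.ne'
  obtain ⟨c, k1, k2, k3⟩ := (S.layer 0).apex p q e
  obtain ⟨d, l1, l2, l3⟩ := (S.layer 0).apex q p (VC.ksymm e)
  have o : ∀ v, x v ≠ 0 → v = p ∨ v = q ∨ v = c ∨ v = d := fun v hv => by
    by_cases e1 : v = p
    · exact Or.inl e1
    by_cases e2 : v = q
    · exact Or.inr (Or.inl e2)
    exact Or.inr (Or.inr (WSC_apex (S.layer 0) k1 k2 k3 l1 l2 l3 (h v p e1 hv hp.ne')
      (h v q e2 hv hq.ne')))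
  by_cases hd : x d = 0
  · refine key p c q k2 k3 e k1 fun v hv => ?_
    rcases o v hv with i | i | i | i
    exacts [Or.inl i, Or.inr (Or.inr i), Or.inr (Or.inl i), absurd (i ▸ hd) hv]
  by_cases hc : x c = 0
  · refine key q d p l2 l3 (VC.ksymm e) l1 fun v hv => ?_
    rcases o v hv with i | i | i | i
    exacts [Or.inr (Or.inr i), Or.inl i, absurd (i ▸ hc) hv, Or.inr (Or.inl i)]
  refine ((S.layer 0).nocross p q c d e (h c d ?_ hc hd) k1 l1).elim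
  rintro rfl
  exact cyc_asymm k1 (cyc_rot (cyc_rot l1))

theorem WSC_incl {x : V → ℝ} (hx : x ∈ Disc (S.K 0)) (h : ∀ w, x w < 1) : x ∈ WSC_Z S := by
  obtain ⟨a, b, c, e1, e2, e3, e4, o, -⟩ := pb4b_near_self (S.layer 0) hx
  refine ⟨fun v => ⟨(disc_nonneg (S.layer 0) hx v).1, h v⟩, ?_, ?_⟩
  · rw [WSC_sum3 e4 o]
    exact (eq_bary (S.layer 0) hx e4 o).2.2.2.1
  · obtain ⟨k, d, t | t | t⟩ := VC.Face.above (S := S) ⟨0, e1, e3, e2, e4⟩ <;>
      exact ⟨k, _, _, _, _, t, fun v hv => by have := o v hv; clear * - this; grind⟩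

theorem WSC_loc {x : V → ℝ} (hx : x ∈ WSC_Z S) :
    ∃ W : Set V, W.Finite ∧ ∀ᶠ z in nhds x, z ∈ WSC_Z S → ∀ v, z v ≠ 0 → v ∈ W := by
  obtain ⟨p, q, hn, hp, hq⟩ := WSC_two hx
  refine ⟨_, (Set.toFinite {p, q}).union (WSC_star S p q), ?_⟩
  have ev : ∀ v, 0 < x v → ∀ᶠ z : V → ℝ in nhds x, 0 < z v := fun v hv =>
    (continuous_apply v).continuousAt.eventually (lt_mem_nhds hv)
  filter_upwards [ev p hp, ev q hq] with z hzp hzq hz v hv
  by_cases e1 : v = p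
  · exact Or.inl (Or.inl e1)
  by_cases e2 : v = q
  · exact Or.inl (Or.inr e2)
  exact Or.inr (WSC_tri hz e1 e2 hn hzp.ne' hzq.ne' hv)

theorem WSC_sc (S : VC V) : SimplyConnectedSpace (WSC_Z S) := by
  obtain ⟨x0, h⟩ := pb4b_null (S.layer 0)
  let ι : C({x : Disc (S.K 0) // ∀ w, x.1 w < 1}, WSC_Z S) :=
    ⟨fun x => ⟨x.1.1, WSC_incl x.1.2 x.2⟩, by fun_prop⟩
  refine pb4b_sc (ι x0) fun K hK => ?_
  have hW : {v | ∃ z ∈ K, z.1 v ≠ 0}.Finite := by
    refine hK.induction_on (p := fun A => {v | ∃ z ∈ A, z.1 v ≠ 0}.Finite) (by simp) ?_ ?_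
      fun z _ => ?_
    · exact fun s t hst hf => hf.subset fun v ⟨z, hz, hv⟩ => ⟨z, hst hz, hv⟩
    · exact fun s t h1 h2 => (h1.union h2).subset fun v ⟨z, hz, hv⟩ =>
        hz.imp (fun e => ⟨z, e, hv⟩) fun e => ⟨z, e, hv⟩
    · obtain ⟨W, w1, w2⟩ := WSC_loc z.2
      exact ⟨_, mem_nhdsWithin_of_mem_nhds (continuous_subtype_val.continuousAt.eventually w2),
        w1.subset fun v ⟨y, hy, hv⟩ => hy y.2 v hv⟩
  obtain ⟨g, g1, g2, -, g4⟩ := WSC_push (S := S) rfl (q := fun _ _ => True)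
    (fun _ _ _ _ _ => trivial) (⟨Subtype.val, continuous_subtype_val⟩ : C(K, WSC_Z S))
    (hW.subset fun v ⟨k, hv⟩ => ⟨k.1, k.2, hv⟩) fun _ _ _ _ _ _ => trivial
  obtain ⟨g', i1, i2, i3, i4⟩ := WSC_push (S := S.rev) WSC_rev (q := WSC_Lo S 0)
    (fun n hn a b e => ⟨-n, by omega, e⟩) g g2 g4
  have i5 : ∀ k, (g' k).1 ∈ Disc (S.K 0) := fun k => WSC_disc (g' k).2 fun a b hn ha hb => by
    obtain ⟨i, j1, j2⟩ := i3 k a b hn ha hb
    obtain ⟨j, j3, j4⟩ := i4 k a b hn ha hb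
    exact WSC_int j2 (j := -j) j4 j1 (by omega)
  have cg : Continuous fun k => (g' k).1 := by fun_prop
  exact (g1.trans i1).trans ((ContinuousMap.Homotopic.refl ι).comp (h K i2.toFinset
    ⟨fun k => ⟨⟨(g' k).1, i5 k⟩, fun w => ((g' k).2.1 w).2⟩, (cg.subtype_mk _).subtype_mk _⟩
    fun k v hv => (Set.Finite.mem_toFinset _).2 ⟨k, hv⟩))

end Pool.Agent.Work.MP_3d425c_gt.Bor
end
end
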